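import Pool.Agent.Lib.H77M.Defs

/-!
# Project H77M, chunk A1: even periodic functions, closure properties and parity
-/

open MeasureTheory Set ProbabilityTheory
open scoped ContDiff

namespace Pool.Agent.Lib.H77M

/-! ### auxiliary lemmas -/

theorem A1_per_bdd {L : ℝ} (hL : 0 < L) {f : ℝ × ℝ → ℝ} (hc : Continuous f)
    (h1 : ∀ a b, f (a + 2 * L, b) = f (a, b)) (h2 : ∀ a b, f (a, b + 2 * L) = f (a, b)) :
    ∃ M, 0 ≤ M ∧ ∀ x, |f x| ≤ M := by
  have hK : IsCompact (Icc (0 : ℝ) (2 * L) ×ˢ Icc (0 : ℝ) (2 * L)) := isCompact_Icc.prod isCompact_Icc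
  obtain ⟨M, hM⟩ := hK.exists_bound_of_continuousOn hc.continuousOn
  have hL2 : 0 < 2 * L := by linarith
  refine ⟨|M|, abs_nonneg _, ?_⟩
  rintro ⟨a, b⟩
  have p1 : Function.Periodic (fun a => f (a, b)) (2 * L) := fun a => h1 a b
  obtain ⟨a', ha', ea⟩ := p1.exists_mem_Ico₀ hL2 a
  have p2 : Function.Periodic (fun b => f (a', b)) (2 * L) := fun b => h2 a' b
  obtain ⟨b', hb', eb⟩ := p2.exists_mem_Ico₀ hL2 b
  have e : f (a, b) = f (a', b') := ea.trans eb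
  rw [e]
  have := hM (a', b') ⟨⟨ha'.1, ha'.2.le⟩, ⟨hb'.1, hb'.2.le⟩⟩
  rw [Real.norm_eq_abs] at this
  exact this.trans (le_abs_self M)

theorem A1_D1_deriv {f : ℝ × ℝ → ℝ} (hf : Differentiable ℝ f) (a b : ℝ) :
    D1 f (a, b) = deriv (fun t => f (t, b)) a := by
  have h1 : HasFDerivAt f (fderiv ℝ f (a, b)) (a, b) := (hf (a, b)).hasFDerivAt
  have h2 : HasDerivAt (fun t : ℝ => (t, b)) ((1 : ℝ), (0 : ℝ)) a :=
    (hasDerivAt_id a).prodMk (hasDerivAt_const a b)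
  have h3 := h1.comp_hasDerivAt a h2
  exact h3.deriv.symm

theorem A1_D2_deriv {f : ℝ × ℝ → ℝ} (hf : Differentiable ℝ f) (a b : ℝ) :
    D2 f (a, b) = deriv (fun t => f (a, t)) b := by
  have h1 : HasFDerivAt f (fderiv ℝ f (a, b)) (a, b) := (hf (a, b)).hasFDerivAt
  have h2 : HasDerivAt (fun t : ℝ => (a, t)) ((0 : ℝ), (1 : ℝ)) b :=
    (hasDerivAt_const b a).prodMk (hasDerivAt_id b)
  have h3 := h1.comp_hasDerivAt b h2
  exact h3.deriv.symm

theorem A1_D1_neg1 {g : ℝ × ℝ → ℝ} (hg : Differentiable ℝ g) (s : ℝ)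
    (h : ∀ a b, g (-a, b) = s * g (a, b)) (a b : ℝ) : D1 g (-a, b) = -(s * D1 g (a, b)) := by
  have hd : ∀ a, DifferentiableAt ℝ (fun t => g (t, b)) a := fun a =>
    (hg (a, b)).comp a (by fun_prop)
  have e : (fun t => g (-t, b)) = fun t => s * g (t, b) := funext fun t => h t b
  have h1 : deriv (fun t => g (-t, b)) a = -deriv (fun t => g (t, b)) (-a) :=
    deriv_comp_neg (fun t => g (t, b)) a
  have h2 : deriv (fun t => s * g (t, b)) a = s * deriv (fun t => g (t, b)) a :=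
    deriv_const_mul s (hd a)
  rw [A1_D1_deriv hg, A1_D1_deriv hg, ← h2, ← e, h1, neg_neg]

theorem A1_D1_neg2 {g : ℝ × ℝ → ℝ} (hg : Differentiable ℝ g) (s : ℝ)
    (h : ∀ a b, g (a, -b) = s * g (a, b)) (a b : ℝ) : D1 g (a, -b) = s * D1 g (a, b) := by
  have hd : ∀ a, DifferentiableAt ℝ (fun t => g (t, b)) a := fun a =>
    (hg (a, b)).comp a (by fun_prop)
  have e : (fun t => g (t, -b)) = fun t => s * g (t, b) := funext fun t => h t b
  have h2 : deriv (fun t => s * g (t, b)) a = s * deriv (fun t => g (t, b)) a :=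
    deriv_const_mul s (hd a)
  rw [A1_D1_deriv hg, A1_D1_deriv hg, ← h2, ← e]

theorem A1_D2_neg2 {g : ℝ × ℝ → ℝ} (hg : Differentiable ℝ g) (s : ℝ)
    (h : ∀ a b, g (a, -b) = s * g (a, b)) (a b : ℝ) : D2 g (a, -b) = -(s * D2 g (a, b)) := by
  have hd : ∀ b, DifferentiableAt ℝ (fun t => g (a, t)) b := fun b =>
    (hg (a, b)).comp b (by fun_prop)
  have e : (fun t => g (a, -t)) = fun t => s * g (a, t) := funext fun t => h a t
  have h1 : deriv (fun t => g (a, -t)) b = -deriv (fun t => g (a, t)) (-b) :=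
    deriv_comp_neg (fun t => g (a, t)) b
  have h2 : deriv (fun t => s * g (a, t)) b = s * deriv (fun t => g (a, t)) b :=
    deriv_const_mul s (hd b)
  rw [A1_D2_deriv hg, A1_D2_deriv hg, ← h2, ← e, h1, neg_neg]

theorem A1_D2_neg1 {g : ℝ × ℝ → ℝ} (hg : Differentiable ℝ g) (s : ℝ)
    (h : ∀ a b, g (-a, b) = s * g (a, b)) (a b : ℝ) : D2 g (-a, b) = s * D2 g (a, b) := by
  have hd : ∀ b, DifferentiableAt ℝ (fun t => g (a, t)) b := fun b =>
    (hg (a, b)).comp b (by fun_prop)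
  have e : (fun t => g (-a, t)) = fun t => s * g (a, t) := funext fun t => h a t
  have h2 : deriv (fun t => s * g (a, t)) b = s * deriv (fun t => g (a, t)) b :=
    deriv_const_mul s (hd b)
  rw [A1_D2_deriv hg, A1_D2_deriv hg, ← h2, ← e]

theorem A1_per {g : ℝ × ℝ → ℝ} (v : ℝ × ℝ) (h : ∀ x, g (x + v) = g x) (x : ℝ × ℝ) :
    D1 g (x + v) = D1 g x ∧ D2 g (x + v) = D2 g x := by
  have e : (fun x => g (x + v)) = g := funext h
  have h1 : fderiv ℝ (fun x => g (x + v)) x = fderiv ℝ g (x + v) := fderiv_comp_add_right v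
  rw [e] at h1
  simp only [D1, D2, h1, and_self]

theorem A1_per1 {L : ℝ} {g : ℝ × ℝ → ℝ} (h : ∀ a b, g (a + 2 * L, b) = g (a, b)) (a b : ℝ) :
    D1 g (a + 2 * L, b) = D1 g (a, b) ∧ D2 g (a + 2 * L, b) = D2 g (a, b) := by
  have := A1_per (g := g) (2 * L, 0) (fun x => by
    obtain ⟨a, b⟩ := x
    simpa using h a b) (a, b)
  simpa using this

theorem A1_per2 {L : ℝ} {g : ℝ × ℝ → ℝ} (h : ∀ a b, g (a, b + 2 * L) = g (a, b)) (a b : ℝ) :
    D1 g (a, b + 2 * L) = D1 g (a, b) ∧ D2 g (a, b + 2 * L) = D2 g (a, b) := by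
  have := A1_per (g := g) (0, 2 * L) (fun x => by
    obtain ⟨a, b⟩ := x
    simpa using h a b) (a, b)
  simpa using this

theorem A1_smooth1 {f : ℝ × ℝ → ℝ} (hf : ContDiff ℝ ∞ f) : ContDiff ℝ ∞ (D1 f) := by
  have h : ContDiff ℝ ∞ (fderiv ℝ f) := hf.fderiv_right (by simp)
  exact h.clm_apply contDiff_const

theorem A1_smooth2 {f : ℝ × ℝ → ℝ} (hf : ContDiff ℝ ∞ f) : ContDiff ℝ ∞ (D2 f) := by
  have h : ContDiff ℝ ∞ (fderiv ℝ f) := hf.fderiv_right (by simp)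
  exact h.clm_apply contDiff_const

theorem A1_diff {f : ℝ × ℝ → ℝ} (hf : ContDiff ℝ ∞ f) : Differentiable ℝ f :=
  hf.differentiable (by simp)

theorem A1_comm {f : ℝ × ℝ → ℝ} (hf : ContDiff ℝ ∞ f) : D1 (D2 f) = D2 (D1 f) := by
  funext p
  have h : ContDiff ℝ ∞ (fderiv ℝ f) := hf.fderiv_right (by simp)
  have hd : DifferentiableAt ℝ (fderiv ℝ f) p := (h.differentiable (by simp)) p
  have key : ∀ v w : ℝ × ℝ, fderiv ℝ (fun q => fderiv ℝ f q v) p w = fderiv ℝ (fderiv ℝ f) p w v := by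
    intro v w
    have h1 : HasFDerivAt (fun q => fderiv ℝ f q v) _ p := hd.hasFDerivAt.clm_apply (hasFDerivAt_const v p)
    rw [h1.fderiv]
    simp
  have hs : IsSymmSndFDerivAt ℝ f p := by
    refine (hf.contDiffAt (x := p)).isSymmSndFDerivAt ?_
    simp only [minSmoothness_of_isRCLikeNormedField]
    exact WithTop.coe_le_coe.2 (le_top : (2 : ℕ∞) ≤ ⊤)
  show fderiv ℝ (fun q => fderiv ℝ f q (0, 1)) p (1, 0) = fderiv ℝ (fun q => fderiv ℝ f q (1, 0)) p (0, 1)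
  rw [key, key]
  exact hs (1, 0) (0, 1)

theorem CP_bdd {L : ℝ} (hL : 0 < L) {f : ℝ × ℝ → ℝ} (h : CP L f) : ∃ M, 0 ≤ M ∧ ∀ x, |f x| ≤ M :=
  A1_per_bdd hL h.cont h.per1 h.per2

theorem EP_bdd {L : ℝ} (hL : 0 < L) {f : ℝ × ℝ → ℝ} (h : EP L f) :
    ∃ M, 0 ≤ M ∧ Grad f M ∧ Hess f M := by
  have p1 : ∀ a b, D1 f (a + 2 * L, b) = D1 f (a, b) := fun a b => (A1_per1 h.per1 a b).1
  have p2 : ∀ a b, D1 f (a, b + 2 * L) = D1 f (a, b) := fun a b => (A1_per2 h.per2 a b).1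
  have p3 : ∀ a b, D2 f (a + 2 * L, b) = D2 f (a, b) := fun a b => (A1_per1 h.per1 a b).2
  have p4 : ∀ a b, D2 f (a, b + 2 * L) = D2 f (a, b) := fun a b => (A1_per2 h.per2 a b).2
  have s1 := A1_smooth1 h.smooth
  have s2 := A1_smooth2 h.smooth
  obtain ⟨M1, h1, b1⟩ := A1_per_bdd hL s1.continuous p1 p2
  obtain ⟨M2, h2, b2⟩ := A1_per_bdd hL s2.continuous p3 p4
  obtain ⟨M3, h3, b3⟩ := A1_per_bdd hL (A1_smooth1 s1).continuous
    (fun a b => (A1_per1 p1 a b).1) (fun a b => (A1_per2 p2 a b).1)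
  obtain ⟨M4, h4, b4⟩ := A1_per_bdd hL (A1_smooth1 s2).continuous
    (fun a b => (A1_per1 p3 a b).1) (fun a b => (A1_per2 p4 a b).1)
  obtain ⟨M5, h5, b5⟩ := A1_per_bdd hL (A1_smooth2 s1).continuous
    (fun a b => (A1_per1 p1 a b).2) (fun a b => (A1_per2 p2 a b).2)
  obtain ⟨M6, h6, b6⟩ := A1_per_bdd hL (A1_smooth2 s2).continuous
    (fun a b => (A1_per1 p3 a b).2) (fun a b => (A1_per2 p4 a b).2)
  refine ⟨M1 + M2 + M3 + M4 + M5 + M6, by positivity, fun y => ⟨?_, ?_⟩, fun y => ⟨?_, ?_, ?_, ?_⟩⟩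
  · linarith [b1 y]
  · linarith [b2 y]
  · linarith [b3 y]
  · linarith [b4 y]
  · linarith [b5 y]
  · linarith [b6 y]

theorem CP_const (L c : ℝ) : CP L (fun _ => c) :=
  ⟨continuous_const, fun _ _ => rfl, fun _ _ => rfl, fun _ _ => rfl, fun _ _ => rfl⟩

theorem EP_const (L c : ℝ) : EP L (fun _ => c) := ⟨CP_const L c, contDiff_const⟩

theorem CP_comp {L : ℝ} {f : ℝ × ℝ → ℝ} (hf : CP L f) {g : ℝ → ℝ} (hg : Continuous g) :
    CP L (fun x => g (f x)) :=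
  ⟨hg.comp hf.cont, fun a b => by rw [hf.even1], fun a b => by rw [hf.even2],
    fun a b => by rw [hf.per1], fun a b => by rw [hf.per2]⟩

theorem EP_comp {L : ℝ} {f : ℝ × ℝ → ℝ} (hf : EP L f) {g : ℝ → ℝ} (hg : ContDiff ℝ ∞ g) :
    EP L (fun x => g (f x)) :=
  ⟨CP_comp hf.toCP hg.continuous, hg.comp hf.smooth⟩

theorem CP_add {L : ℝ} {f g : ℝ × ℝ → ℝ} (hf : CP L f) (hg : CP L g) :
    CP L (fun x => f x + g x) :=
  ⟨hf.cont.add hg.cont, fun a b => by rw [hf.even1, hg.even1], fun a b => by rw [hf.even2, hg.even2],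
    fun a b => by rw [hf.per1, hg.per1], fun a b => by rw [hf.per2, hg.per2]⟩

theorem EP_add {L : ℝ} {f g : ℝ × ℝ → ℝ} (hf : EP L f) (hg : EP L g) :
    EP L (fun x => f x + g x) :=
  ⟨CP_add hf.toCP hg.toCP, hf.smooth.add hg.smooth⟩

theorem CP_sub {L : ℝ} {f g : ℝ × ℝ → ℝ} (hf : CP L f) (hg : CP L g) :
    CP L (fun x => f x - g x) :=
  ⟨hf.cont.sub hg.cont, fun a b => by rw [hf.even1, hg.even1], fun a b => by rw [hf.even2, hg.even2],
    fun a b => by rw [hf.per1, hg.per1], fun a b => by rw [hf.per2, hg.per2]⟩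

theorem EP_sub {L : ℝ} {f g : ℝ × ℝ → ℝ} (hf : EP L f) (hg : EP L g) :
    EP L (fun x => f x - g x) :=
  ⟨CP_sub hf.toCP hg.toCP, hf.smooth.sub hg.smooth⟩

theorem CP_mul {L : ℝ} {f g : ℝ × ℝ → ℝ} (hf : CP L f) (hg : CP L g) :
    CP L (fun x => f x * g x) :=
  ⟨hf.cont.mul hg.cont, fun a b => by rw [hf.even1, hg.even1], fun a b => by rw [hf.even2, hg.even2],
    fun a b => by rw [hf.per1, hg.per1], fun a b => by rw [hf.per2, hg.per2]⟩

theorem EP_mul {L : ℝ} {f g : ℝ × ℝ → ℝ} (hf : EP L f) (hg : EP L g) :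
    EP L (fun x => f x * g x) :=
  ⟨CP_mul hf.toCP hg.toCP, hf.smooth.mul hg.smooth⟩

theorem EP_sum {L : ℝ} {ι : Type} [Fintype ι] {f : ι → ℝ × ℝ → ℝ} (hf : ∀ i, EP L (f i)) :
    EP L (fun x => ∑ i, f i x) := by
  refine ⟨⟨continuous_finsetSum _ fun i _ => (hf i).cont, fun a b => ?_, fun a b => ?_, fun a b => ?_,
    fun a b => ?_⟩, ContDiff.sum fun i _ => (hf i).smooth⟩
  · exact Finset.sum_congr rfl fun i _ => (hf i).even1 a b
  · exact Finset.sum_congr rfl fun i _ => (hf i).even2 a b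
  · exact Finset.sum_congr rfl fun i _ => (hf i).per1 a b
  · exact Finset.sum_congr rfl fun i _ => (hf i).per2 a b

/-- partial derivatives of smooth functions are smooth and commute -/
theorem D_smooth {f : ℝ × ℝ → ℝ} (hf : ContDiff ℝ ∞ f) :
    ContDiff ℝ ∞ (D1 f) ∧ ContDiff ℝ ∞ (D2 f) ∧ D1 (D2 f) = D2 (D1 f) :=
  ⟨A1_smooth1 hf, A1_smooth2 hf, A1_comm hf⟩

theorem D1_parity {L : ℝ} {f : ℝ × ℝ → ℝ} (hf : EP L f) (a b : ℝ) :
    D1 f (-a, b) = -D1 f (a, b) ∧ D1 f (a, -b) = D1 f (a, b) ∧ D1 f (a + 2 * L, b) = D1 f (a, b) ∧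
      D1 f (a, b + 2 * L) = D1 f (a, b) ∧ D1 f (0, b) = 0 ∧ D1 f (L, b) = 0 := by
  have hd := A1_diff hf.smooth
  have h1 : ∀ a b, D1 f (-a, b) = -D1 f (a, b) := fun a b => by
    have := A1_D1_neg1 hd 1 (fun a b => by rw [hf.even1, one_mul]) a b
    rwa [one_mul] at this
  have h2 : ∀ a b, D1 f (a, -b) = D1 f (a, b) := fun a b => by
    have := A1_D1_neg2 hd 1 (fun a b => by rw [hf.even2, one_mul]) a b
    rwa [one_mul] at this
  have h3 : ∀ a b, D1 f (a + 2 * L, b) = D1 f (a, b) := fun a b => (A1_per1 hf.per1 a b).1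
  refine ⟨h1 a b, h2 a b, h3 a b, (A1_per2 hf.per2 a b).1, ?_, ?_⟩
  · have := h1 0 b
    rw [neg_zero] at this
    linarith
  · have e1 := h3 (-L) b
    have e2 := h1 L b
    have e3 : -L + 2 * L = L := by ring
    rw [e3] at e1
    linarith

theorem D2_parity {L : ℝ} {f : ℝ × ℝ → ℝ} (hf : EP L f) (a b : ℝ) :
    D2 f (a, -b) = -D2 f (a, b) ∧ D2 f (-a, b) = D2 f (a, b) ∧ D2 f (a + 2 * L, b) = D2 f (a, b) ∧
      D2 f (a, b + 2 * L) = D2 f (a, b) ∧ D2 f (a, 0) = 0 ∧ D2 f (a, L) = 0 := by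
  have hd := A1_diff hf.smooth
  have h1 : ∀ a b, D2 f (a, -b) = -D2 f (a, b) := fun a b => by
    have := A1_D2_neg2 hd 1 (fun a b => by rw [hf.even2, one_mul]) a b
    rwa [one_mul] at this
  have h2 : ∀ a b, D2 f (-a, b) = D2 f (a, b) := fun a b => by
    have := A1_D2_neg1 hd 1 (fun a b => by rw [hf.even1, one_mul]) a b
    rwa [one_mul] at this
  have h3 : ∀ a b, D2 f (a, b + 2 * L) = D2 f (a, b) := fun a b => (A1_per2 hf.per2 a b).2
  refine ⟨h1 a b, h2 a b, (A1_per1 hf.per1 a b).2, h3 a b, ?_, ?_⟩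
  · have := h1 a 0
    rw [neg_zero] at this
    linarith
  · have e1 := h3 a (-L)
    have e2 := h1 a L
    have e3 : -L + 2 * L = L := by ring
    rw [e3] at e1
    linarith

theorem EP_D11 {L : ℝ} {f : ℝ × ℝ → ℝ} (hf : EP L f) : EP L (D1 (D1 f)) := by
  have s1 := A1_smooth1 hf.smooth
  have hd := A1_diff s1
  have s2 := A1_smooth1 s1
  refine ⟨⟨s2.continuous, fun a b => ?_, fun a b => ?_, fun a b => ?_, fun a b => ?_⟩, s2⟩
  · have := A1_D1_neg1 hd (-1) (fun a b => by rw [(D1_parity hf a b).1]; ring) a b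
    rw [this]; ring
  · have := A1_D1_neg2 hd 1 (fun a b => by rw [(D1_parity hf a b).2.1]; ring) a b
    rw [this]; ring
  · exact (A1_per1 (fun a b => (A1_per1 hf.per1 a b).1) a b).1
  · exact (A1_per2 (fun a b => (A1_per2 hf.per2 a b).1) a b).1

theorem EP_D22 {L : ℝ} {f : ℝ × ℝ → ℝ} (hf : EP L f) : EP L (D2 (D2 f)) := by
  have s1 := A1_smooth2 hf.smooth
  have hd := A1_diff s1
  have s2 := A1_smooth2 s1
  refine ⟨⟨s2.continuous, fun a b => ?_, fun a b => ?_, fun a b => ?_, fun a b => ?_⟩, s2⟩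
  · have := A1_D2_neg1 hd 1 (fun a b => by rw [(D2_parity hf a b).2.1]; ring) a b
    rw [this]; ring
  · have := A1_D2_neg2 hd (-1) (fun a b => by rw [(D2_parity hf a b).1]; ring) a b
    rw [this]; ring
  · exact (A1_per1 (fun a b => (A1_per1 hf.per1 a b).2) a b).2
  · exact (A1_per2 (fun a b => (A1_per2 hf.per2 a b).2) a b).2

theorem EP_lap {L : ℝ} {f : ℝ × ℝ → ℝ} (hf : EP L f) : EP L (lap f) :=
  EP_add (EP_D11 hf) (EP_D22 hf)

theorem EP_gsq {L : ℝ} {f : ℝ × ℝ → ℝ} (hf : EP L f) : EP L (gsq f) := by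
  have s1 := A1_smooth1 hf.smooth
  have s2 := A1_smooth2 hf.smooth
  have s : ContDiff ℝ ∞ (gsq f) := (s1.pow 2).add (s2.pow 2)
  refine ⟨⟨s.continuous, fun a b => ?_, fun a b => ?_, fun a b => ?_, fun a b => ?_⟩, s⟩
  · simp only [gsq]
    rw [(D1_parity hf a b).1, (D2_parity hf a b).2.1]; ring
  · simp only [gsq]
    rw [(D1_parity hf a b).2.1, (D2_parity hf a b).1]; ring
  · simp only [gsq]
    rw [(D1_parity hf a b).2.2.1, (D2_parity hf a b).2.2.1]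
  · simp only [gsq]
    rw [(D1_parity hf a b).2.2.2.1, (D2_parity hf a b).2.2.2.1]

theorem CP_gabs {L : ℝ} {f : ℝ × ℝ → ℝ} (hf : EP L f) : CP L (gabs f) := by
  have s1 := A1_smooth1 hf.smooth
  have s2 := A1_smooth2 hf.smooth
  have s : Continuous (gabs f) := s1.continuous.abs.add s2.continuous.abs
  refine ⟨s, fun a b => ?_, fun a b => ?_, fun a b => ?_, fun a b => ?_⟩
  · simp only [gabs]
    rw [(D1_parity hf a b).1, (D2_parity hf a b).2.1, abs_neg]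
  · simp only [gabs]
    rw [(D1_parity hf a b).2.1, (D2_parity hf a b).1, abs_neg]
  · simp only [gabs]
    rw [(D1_parity hf a b).2.2.1, (D2_parity hf a b).2.2.1]
  · simp only [gabs]
    rw [(D1_parity hf a b).2.2.2.1, (D2_parity hf a b).2.2.2.1]

end Pool.Agent.Lib.H77M
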