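import Pool.Agent.Lib.H77M.A1

/-!
# Project H77M, chunk A2: the Gaussian averages `P s`
-/

open MeasureTheory Set ProbabilityTheory
open scoped ContDiff

namespace Pool.Agent.Lib.H77M

/-- one-dimensional Gaussian density times a power -/
noncomputable def a2psi (a : ℕ) (z : ℝ) : ℝ := z ^ a * gaussianPDFReal 0 1 z

lemma a2_pdf (z : ℝ) : gaussianPDFReal 0 1 z = (√(2 * Real.pi))⁻¹ * Real.exp (-z ^ 2 / 2) := by
  simp [gaussianPDFReal]

lemma a2_pdf_deriv (z : ℝ) :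
    HasDerivAt (gaussianPDFReal 0 1) (-z * gaussianPDFReal 0 1 z) z := by
  have h : gaussianPDFReal 0 1 = fun z => (√(2 * Real.pi))⁻¹ * Real.exp (-z ^ 2 / 2) := by
    funext z; exact a2_pdf z
  rw [h]
  have h1 : HasDerivAt (fun z : ℝ => -z ^ 2 / 2) (-z) z := by
    have := ((hasDerivAt_pow 2 z).neg).div_const 2
    refine this.congr_deriv ?_
    simp; ring
  refine ((h1.exp).const_mul _).congr_deriv ?_
  ring

/-- the derivative of `a2psi` -/
noncomputable def a2dpsi (a : ℕ) (z : ℝ) : ℝ := a * a2psi (a - 1) z - a2psi (a + 1) z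

lemma a2_psi_deriv (a : ℕ) (z : ℝ) : HasDerivAt (a2psi a) (a2dpsi a z) z := by
  unfold a2psi a2dpsi a2psi
  refine ((hasDerivAt_pow a z).mul (a2_pdf_deriv z)).congr_deriv ?_
  ring

lemma a2_pow_le (a : ℕ) : ∃ C : ℝ, 0 ≤ C ∧ ∀ z w : ℝ, |w - z| ≤ 1 →
    |a2psi a w| ≤ C * Real.exp (-(1 / 8) * z ^ 2) := by
  refine ⟨(a.factorial : ℝ) * Real.exp 3 * Real.exp 4, by positivity, fun z w h => ?_⟩
  have h0 : |w| ≤ |z| + 1 := by
    have := abs_sub_abs_le_abs_sub w z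
    linarith
  have hpdf : gaussianPDFReal 0 1 w ≤ Real.exp (-w ^ 2 / 2) := by
    rw [a2_pdf]
    have h2 : (√(2 * Real.pi))⁻¹ ≤ 1 := by
      apply inv_le_one_of_one_le₀
      rw [Real.one_le_sqrt]
      have := Real.pi_gt_three
      linarith
    calc (√(2 * Real.pi))⁻¹ * Real.exp (-w ^ 2 / 2) ≤ 1 * Real.exp (-w ^ 2 / 2) := by gcongr
      _ = _ := one_mul _
  have hpow : |w| ^ a ≤ (a.factorial : ℝ) * Real.exp |w| := by
    have := Real.pow_div_factorial_le_exp |w| (abs_nonneg w) a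
    rw [div_le_iff₀ (by positivity)] at this
    linarith
  have : |a2psi a w| = |w| ^ a * gaussianPDFReal 0 1 w := by
    unfold a2psi
    rw [abs_mul, abs_pow, abs_of_nonneg (gaussianPDFReal_nonneg 0 1 w)]
  rw [this]
  calc |w| ^ a * gaussianPDFReal 0 1 w ≤ ((a.factorial : ℝ) * Real.exp |w|) * Real.exp (-w ^ 2 / 2) := by
        gcongr
        exact gaussianPDFReal_nonneg 0 1 w
    _ = (a.factorial : ℝ) * Real.exp (|w| - w ^ 2 / 2) := by
        rw [mul_assoc, ← Real.exp_add]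
        ring_nf
    _ ≤ (a.factorial : ℝ) * Real.exp (3 + 4 + -(1 / 8) * z ^ 2) := by
        gcongr
        have h3 : z ^ 2 = |z| ^ 2 := (sq_abs z).symm
        have h4 : w ^ 2 = |w| ^ 2 := (sq_abs w).symm
        have h5 : |z| ≤ |w| + 1 := by
          have := abs_sub_abs_le_abs_sub z w
          rw [abs_sub_comm z w] at this
          linarith
        rw [h3, h4]
        nlinarith [sq_nonneg (|w| - 2), sq_nonneg (|w| - |z|), abs_nonneg w, abs_nonneg z]
    _ = _ := by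
        rw [Real.exp_add, Real.exp_add]
        ring

lemma a2_dpsi_le (a : ℕ) : ∃ C : ℝ, 0 ≤ C ∧ ∀ z w : ℝ, |w - z| ≤ 1 →
    |a2dpsi a w| ≤ C * Real.exp (-(1 / 8) * z ^ 2) := by
  obtain ⟨C1, h1, h1'⟩ := a2_pow_le (a - 1)
  obtain ⟨C2, h2, h2'⟩ := a2_pow_le (a + 1)
  refine ⟨a * C1 + C2, by positivity, fun z w h => ?_⟩
  unfold a2dpsi
  calc |a * a2psi (a - 1) w - a2psi (a + 1) w| ≤ |a * a2psi (a - 1) w| + |a2psi (a + 1) w| := abs_sub _ _
    _ = a * |a2psi (a - 1) w| + |a2psi (a + 1) w| := by rw [abs_mul, Nat.abs_cast]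
    _ ≤ a * (C1 * Real.exp (-(1 / 8) * z ^ 2)) + C2 * Real.exp (-(1 / 8) * z ^ 2) := by
        gcongr
        · exact h1' z w h
        · exact h2' z w h
    _ = _ := by ring

lemma a2_psi_cont (a : ℕ) : Continuous (a2psi a) :=
  continuous_iff_continuousAt.2 fun z => (a2_psi_deriv a z).continuousAt

lemma a2_psi_int (a : ℕ) : Integrable (a2psi a) := by
  obtain ⟨C, h, h'⟩ := a2_pow_le a
  refine ((integrable_exp_neg_mul_sq (b := 1 / 8) (by norm_num)).const_mul C).mono'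
    (a2_psi_cont a).aestronglyMeasurable (Filter.Eventually.of_forall fun z => ?_)
  exact h' z z (by simp)

/-- one-dimensional weighted Gaussian average -/
noncomputable def a2B (a : ℕ) (c : ℝ) (h : ℝ → ℝ) (x : ℝ) : ℝ :=
  ∫ z, z ^ a * h (x + c * z) ∂(gaussianReal 0 1)

lemma a2B_eq (a : ℕ) {c : ℝ} (hc : 0 < c) (h : ℝ → ℝ) (x : ℝ) :
    a2B a c h x = ∫ v, c⁻¹ * a2psi a ((v - x) / c) * h v := by
  have h1 : a2B a c h x = ∫ z, a2psi a z * h (x + c * z) := by
    unfold a2B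
    rw [integral_gaussianReal_eq_integral_smul (by norm_num)]
    apply integral_congr_ae
    refine Filter.Eventually.of_forall fun z => ?_
    simp only [smul_eq_mul, a2psi]
    ring
  rw [h1]
  have h2 : ∀ z, a2psi a z * h (x + c * z) = (fun v => a2psi a ((v - x) / c) * h v) (x + c * z) := by
    intro z
    simp only
    congr 2
    field_simp
    ring
  simp_rw [h2]
  have h3 : ∫ z, (fun v => a2psi a ((v - x) / c) * h v) (x + c * z) =
      ∫ z, (fun y => (fun v => a2psi a ((v - x) / c) * h v) (x + y)) (c * z) := rfl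
  rw [h3, Measure.integral_comp_mul_left (fun y => (fun v => a2psi a ((v - x) / c) * h v) (x + y)) c]
  rw [integral_add_left_eq_self (fun v => a2psi a ((v - x) / c) * h v) x]
  rw [abs_of_pos (inv_pos.2 hc), smul_eq_mul, ← integral_const_mul]
  congr 1
  ext v
  ring

lemma a2_mom (a : ℕ) : Integrable (fun z : ℝ => |z| ^ a) (gaussianReal 0 1) := by
  have := (memLp_id_gaussianReal (μ := 0) (v := 1) (a : NNReal)).integrable_norm_pow'
  simpa using this

/-- absolute moments -/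
noncomputable def a2m (a : ℕ) : ℝ := ∫ z, |z| ^ a ∂(gaussianReal 0 1)

lemma a2m_nonneg (a : ℕ) : 0 ≤ a2m a := integral_nonneg fun z => by positivity

lemma a2m_zero : a2m 0 = 1 := by simp [a2m]

lemma a2m_two : a2m 2 = 1 := by
  have h := variance_fun_id_gaussianReal (μ := 0) (v := 1)
  rw [variance_eq_integral (by fun_prop)] at h
  simp only [integral_id_gaussianReal, sub_zero] at h
  simpa [a2m] using h

lemma a2m_one : a2m 1 ≤ 1 := by
  have h1 : ∀ z : ℝ, |z| ^ 1 ≤ (1 + |z| ^ 2) / 2 := fun z => by nlinarith [sq_nonneg (|z| - 1)]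
  have h2 : a2m 1 ≤ ∫ z, (1 + |z| ^ 2) / 2 ∂(gaussianReal 0 1) := by
    apply integral_mono (a2_mom 1) _ h1
    exact ((integrable_const 1).add (a2_mom 2)).div_const 2
  rw [integral_div, integral_add (integrable_const 1) (a2_mom 2)] at h2
  have h3 : ∫ z, |z| ^ 2 ∂(gaussianReal 0 1) = 1 := a2m_two
  rw [h3] at h2
  simp at h2
  linarith

lemma a2B_int (a : ℕ) (c : ℝ) {h : ℝ → ℝ} (hm : Measurable h) {M : ℝ} (hM : ∀ x, |h x| ≤ M) (x : ℝ) :
    Integrable (fun z => z ^ a * h (x + c * z)) (gaussianReal 0 1) := by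
  refine ((a2_mom a).mul_const M).mono' (by fun_prop) (Filter.Eventually.of_forall fun z => ?_)
  rw [Real.norm_eq_abs, abs_mul, abs_pow]
  have := hM (x + c * z)
  gcongr

lemma a2B_le (a : ℕ) (c : ℝ) {h : ℝ → ℝ} {M : ℝ} (hM : ∀ x, |h x| ≤ M) (x : ℝ) :
    |a2B a c h x| ≤ a2m a * M := by
  unfold a2B a2m
  rw [← integral_mul_const, ← Real.norm_eq_abs]
  refine norm_integral_le_of_norm_le ((a2_mom a).mul_const M) (Filter.Eventually.of_forall fun z => ?_)
  rw [Real.norm_eq_abs, abs_mul, abs_pow]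
  have := hM (x + c * z)
  gcongr

lemma a2_int_shift (a : ℕ) {c : ℝ} (hc : 0 < c) {h : ℝ → ℝ} (hm : Measurable h) {M : ℝ}
    (hM : ∀ x, |h x| ≤ M) (x : ℝ) :
    Integrable (fun v => c⁻¹ * a2psi a ((v - x) / c) * h v) := by
  have h1 : Integrable (fun v => a2psi a ((v - x) / c)) :=
    ((a2_psi_int a).comp_div hc.ne').comp_sub_right x
  refine ((h1.const_mul c⁻¹).norm.mul_const M).mono' ?_ (Filter.Eventually.of_forall fun v => ?_)
  · exact (h1.const_mul c⁻¹).aestronglyMeasurable.mul hm.aestronglyMeasurable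
  · rw [norm_mul, Real.norm_eq_abs (h v)]
    have := hM v
    gcongr

lemma a2B_deriv (a : ℕ) {c : ℝ} (hc : 0 < c) {h : ℝ → ℝ} (hm : Measurable h) {M : ℝ}
    (hM : ∀ x, |h x| ≤ M) (x : ℝ) :
    HasDerivAt (a2B a c h) (c⁻¹ * (a2B (a + 1) c h x - a * a2B (a - 1) c h x)) x := by
  have hM0 : 0 ≤ M := (abs_nonneg _).trans (hM 0)
  have h0 : a2B a c h = fun x => ∫ v, c⁻¹ * a2psi a ((v - x) / c) * h v := by
    funext y; exact a2B_eq a hc h y
  rw [h0]
  obtain ⟨C, hC, hC'⟩ := a2_dpsi_le a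
  have i1 := a2_int_shift (a + 1) hc hm hM x
  have i2 := (a2_int_shift (a - 1) hc hm hM x).const_mul (a : ℝ)
  have i3 : (fun v => c⁻¹ * (c⁻¹ * a2psi (a + 1) ((v - x) / c) * h v -
      a * (c⁻¹ * a2psi (a - 1) ((v - x) / c) * h v))) =
      fun v => c⁻¹ * (a2dpsi a ((v - x) / c) * (-c⁻¹)) * h v := by
    ext v
    unfold a2dpsi
    ring
  have key := hasDerivAt_integral_of_dominated_loc_of_deriv_le (μ := volume)
    (F := fun x v => c⁻¹ * a2psi a ((v - x) / c) * h v)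
    (F' := fun x v => c⁻¹ * (a2dpsi a ((v - x) / c) * (-c⁻¹)) * h v)
    (x₀ := x) (s := Metric.ball x c) (bound := fun v => c⁻¹ * (C * Real.exp (-(1 / 8) * ((v - x) / c) ^ 2) * c⁻¹) * M)
    (Metric.ball_mem_nhds x hc) ?_ ?_ ?_ ?_ ?_ ?_
  · refine key.2.congr_deriv ?_
    rw [a2B_eq (a + 1) hc, a2B_eq (a - 1) hc, ← integral_const_mul, ← integral_sub i1 i2,
      ← integral_const_mul, i3]
  · refine Filter.Eventually.of_forall fun y => ?_
    have := (a2_psi_cont a).measurable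
    exact ((measurable_const.mul (this.comp (by fun_prop))).mul hm).aestronglyMeasurable
  · exact a2_int_shift a hc hm hM x
  · rw [← i3]
    exact ((i1.sub i2).const_mul c⁻¹).aestronglyMeasurable
  · refine Filter.Eventually.of_forall fun v y hy => ?_
    have h1 : |(v - y) / c - (v - x) / c| ≤ 1 := by
      rw [Metric.mem_ball, Real.dist_eq] at hy
      rw [← sub_div, abs_div, abs_of_pos hc, div_le_one hc]
      have : v - y - (v - x) = -(y - x) := by ring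
      rw [this, abs_neg]
      exact hy.le
    have h2 := hC' ((v - x) / c) ((v - y) / c) h1
    rw [Real.norm_eq_abs, abs_mul, abs_mul, abs_mul, abs_neg, abs_of_pos (inv_pos.2 hc)]
    have := hM v
    gcongr
  · have h1 : Integrable (fun z : ℝ => Real.exp (-(1 / 8) * z ^ 2)) :=
      integrable_exp_neg_mul_sq (by norm_num)
    have h2 : Integrable (fun v : ℝ => Real.exp (-(1 / 8) * ((v - x) / c) ^ 2)) :=
      (h1.comp_div hc.ne').comp_sub_right x
    exact (((h2.const_mul C).mul_const c⁻¹).const_mul c⁻¹).mul_const M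
  · refine Filter.Eventually.of_forall fun v y _ => ?_
    have h1 : HasDerivAt (fun y => (v - y) / c) (-c⁻¹) y := by
      have := ((hasDerivAt_id y).const_sub v).div_const c
      refine this.congr_deriv ?_
      rw [neg_div, one_div]
    have h2 := (a2_psi_deriv a ((v - y) / c)).comp y h1
    exact (h2.const_mul c⁻¹).mul_const (h v)

/-! ### two dimensions -/

/-- the one-dimensional standard Gaussian measure -/
noncomputable abbrev a2g : Measure ℝ := gaussianReal 0 1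

instance : IsProbabilityMeasure gam := by unfold gam; infer_instance

/-- weighted Gaussian average -/
noncomputable def a2A (a b : ℕ) (c : ℝ) (f : ℝ × ℝ → ℝ) (x : ℝ × ℝ) : ℝ :=
  ∫ z, z.1 ^ a * z.2 ^ b * f (x.1 + c * z.1, x.2 + c * z.2) ∂gam

lemma a2_mom2 (a b : ℕ) : Integrable (fun z : ℝ × ℝ => |z.1| ^ a * |z.2| ^ b) gam := by
  unfold gam
  exact (a2_mom a).mul_prod (a2_mom b)

lemma a2_mom2_eq (a b : ℕ) : ∫ z : ℝ × ℝ, |z.1| ^ a * |z.2| ^ b ∂gam = a2m a * a2m b := by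
  unfold gam a2m
  exact integral_prod_mul (fun z : ℝ => |z| ^ a) (fun z : ℝ => |z| ^ b)

lemma a2A_int (a b : ℕ) (c : ℝ) {f : ℝ × ℝ → ℝ} (hf : Continuous f) {M : ℝ} (hM : ∀ x, |f x| ≤ M)
    (x : ℝ × ℝ) :
    Integrable (fun z : ℝ × ℝ => z.1 ^ a * z.2 ^ b * f (x.1 + c * z.1, x.2 + c * z.2)) gam := by
  refine ((a2_mom2 a b).mul_const M).mono' (by fun_prop) (Filter.Eventually.of_forall fun z => ?_)
  rw [Real.norm_eq_abs, abs_mul, abs_mul, abs_pow, abs_pow]
  have := hM (x.1 + c * z.1, x.2 + c * z.2)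
  gcongr

lemma a2A_le (a b : ℕ) (c : ℝ) {f : ℝ × ℝ → ℝ} {M : ℝ} (hM : ∀ x, |f x| ≤ M) (x : ℝ × ℝ) :
    |a2A a b c f x| ≤ a2m a * a2m b * M := by
  unfold a2A
  rw [← a2_mom2_eq, ← integral_mul_const, ← Real.norm_eq_abs]
  refine norm_integral_le_of_norm_le ((a2_mom2 a b).mul_const M)
    (Filter.Eventually.of_forall fun z => ?_)
  rw [Real.norm_eq_abs, abs_mul, abs_mul, abs_pow, abs_pow]
  have := hM (x.1 + c * z.1, x.2 + c * z.2)
  gcongr

lemma a2A_cont (a b : ℕ) {f : ℝ × ℝ → ℝ} (hf : Continuous f) {M : ℝ} (hM : ∀ x, |f x| ≤ M) :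
    Continuous (fun v : ℝ × (ℝ × ℝ) => a2A a b v.1 f v.2) := by
  unfold a2A
  refine continuous_of_dominated (bound := fun z => |z.1| ^ a * |z.2| ^ b * M) (fun v => ?_)
    (fun v => Filter.Eventually.of_forall fun z => ?_) ((a2_mom2 a b).mul_const M)
    (Filter.Eventually.of_forall fun z => ?_)
  · exact (a2A_int a b v.1 hf hM v.2).aestronglyMeasurable
  · rw [Real.norm_eq_abs, abs_mul, abs_mul, abs_pow, abs_pow]
    have := hM (v.2.1 + v.1 * z.1, v.2.2 + v.1 * z.2)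
    gcongr
  · fun_prop

lemma a2A_fst (a b : ℕ) (c : ℝ) {f : ℝ × ℝ → ℝ} (hf : Continuous f) {M : ℝ} (hM : ∀ x, |f x| ≤ M)
    (x : ℝ × ℝ) : a2A a b c f x =
      ∫ z, z ^ b * a2B a c (fun v => f (v, x.2 + c * z)) x.1 ∂(gaussianReal 0 1) := by
  unfold a2A
  have h := a2A_int a b c hf hM x
  unfold gam at h ⊢
  rw [integral_prod_symm _ h]
  congr 1
  ext z
  unfold a2B
  rw [← integral_const_mul]
  congr 1
  ext w
  simp only
  ring

lemma a2A_snd (a b : ℕ) (c : ℝ) {f : ℝ × ℝ → ℝ} (hf : Continuous f) {M : ℝ} (hM : ∀ x, |f x| ≤ M)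
    (x : ℝ × ℝ) : a2A a b c f x =
      ∫ z, z ^ a * a2B b c (fun v => f (x.1 + c * z, v)) x.2 ∂(gaussianReal 0 1) := by
  unfold a2A
  have h := a2A_int a b c hf hM x
  unfold gam at h ⊢
  rw [integral_prod _ h]
  congr 1
  ext z
  unfold a2B
  rw [← integral_const_mul]
  congr 1
  ext w
  simp only
  ring

lemma a2A_d1 (a b : ℕ) {c : ℝ} (hc : 0 < c) {f : ℝ × ℝ → ℝ} (hf : Continuous f) {M : ℝ}
    (hM : ∀ x, |f x| ≤ M) (x1 x2 : ℝ) :
    HasDerivAt (fun t => a2A a b c f (t, x2))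
      (c⁻¹ * (a2A (a + 1) b c f (x1, x2) - a * a2A (a - 1) b c f (x1, x2))) x1 := by
  have hM0 : 0 ≤ M := (abs_nonneg _).trans (hM 0)
  have h0 : (fun t => a2A a b c f (t, x2)) = fun t =>
      ∫ z, z ^ b * a2B a c (fun v => f (v, x2 + c * z)) t ∂(gaussianReal 0 1) := by
    funext t; exact a2A_fst a b c hf hM (t, x2)
  rw [h0]
  have hmeas : ∀ (k : ℕ) (t : ℝ), StronglyMeasurable
      (fun z : ℝ => z ^ b * a2B k c (fun v => f (v, x2 + c * z)) t) := by
    intro k t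
    have h1 : StronglyMeasurable (fun z : ℝ => a2B k c (fun v => f (v, x2 + c * z)) t) := by
      unfold a2B
      apply StronglyMeasurable.integral_prod_right' (f := fun p : ℝ × ℝ =>
        p.2 ^ k * f (t + c * p.2, x2 + c * p.1))
      exact (by fun_prop : Continuous fun p : ℝ × ℝ =>
        p.2 ^ k * f (t + c * p.2, x2 + c * p.1)).stronglyMeasurable
    exact (by fun_prop : Continuous fun z : ℝ => z ^ b).stronglyMeasurable.mul h1
  have hint : ∀ (k : ℕ) (t : ℝ), Integrable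
      (fun z : ℝ => z ^ b * a2B k c (fun v => f (v, x2 + c * z)) t) (gaussianReal 0 1) := by
    intro k t
    refine ((a2_mom b).mul_const (a2m k * M)).mono' (hmeas k t).aestronglyMeasurable
      (Filter.Eventually.of_forall fun z => ?_)
    rw [Real.norm_eq_abs, abs_mul, abs_pow]
    have := a2B_le k c (h := fun v => f (v, x2 + c * z)) (M := M) (fun x => hM _) t
    gcongr
  have key := hasDerivAt_integral_of_dominated_loc_of_deriv_le (μ := gaussianReal 0 1)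
    (F := fun t z => z ^ b * a2B a c (fun v => f (v, x2 + c * z)) t)
    (F' := fun t z => z ^ b * (c⁻¹ * (a2B (a + 1) c (fun v => f (v, x2 + c * z)) t -
      a * a2B (a - 1) c (fun v => f (v, x2 + c * z)) t)))
    (x₀ := x1) (s := univ)
    (bound := fun z => |z| ^ b * (c⁻¹ * (a2m (a + 1) * M + a * (a2m (a - 1) * M))))
    Filter.univ_mem ?_ (hint a x1) ?_ ?_ ((a2_mom b).mul_const _) ?_
  · refine key.2.congr_deriv ?_
    rw [a2A_fst (a + 1) b c hf hM, a2A_fst (a - 1) b c hf hM, ← integral_const_mul,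
      ← integral_sub (hint _ _) ((hint _ _).const_mul _), ← integral_const_mul]
    congr 1
    ext z
    ring
  · exact Filter.Eventually.of_forall fun t => (hmeas a t).aestronglyMeasurable
  · have := (((hint (a + 1) x1).sub ((hint (a - 1) x1).const_mul (a : ℝ))).const_mul c⁻¹).aestronglyMeasurable
    refine this.congr (Filter.Eventually.of_forall fun z => ?_)
    simp only [Pi.sub_apply]
    ring
  · refine Filter.Eventually.of_forall fun z t _ => ?_
    rw [Real.norm_eq_abs, abs_mul, abs_pow, abs_mul, abs_of_pos (inv_pos.2 hc)]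
    have h1 := a2B_le (a + 1) c (h := fun v => f (v, x2 + c * z)) (M := M) (fun x => hM _) t
    have h2 := a2B_le (a - 1) c (h := fun v => f (v, x2 + c * z)) (M := M) (fun x => hM _) t
    have h3 : |a2B (a + 1) c (fun v => f (v, x2 + c * z)) t -
      a * a2B (a - 1) c (fun v => f (v, x2 + c * z)) t| ≤ a2m (a + 1) * M + a * (a2m (a - 1) * M) := by
      refine (abs_sub _ _).trans ?_
      rw [abs_mul, Nat.abs_cast]
      gcongr
    gcongr
  · refine Filter.Eventually.of_forall fun z t _ => ?_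
    exact (a2B_deriv a hc (by fun_prop) (M := M) (fun x => hM _) t).const_mul _

lemma a2A_d2 (a b : ℕ) {c : ℝ} (hc : 0 < c) {f : ℝ × ℝ → ℝ} (hf : Continuous f) {M : ℝ}
    (hM : ∀ x, |f x| ≤ M) (x1 x2 : ℝ) :
    HasDerivAt (fun t => a2A a b c f (x1, t))
      (c⁻¹ * (a2A a (b + 1) c f (x1, x2) - b * a2A a (b - 1) c f (x1, x2))) x2 := by
  have hM0 : 0 ≤ M := (abs_nonneg _).trans (hM 0)
  have h0 : (fun t => a2A a b c f (x1, t)) = fun t =>
      ∫ z, z ^ a * a2B b c (fun v => f (x1 + c * z, v)) t ∂(gaussianReal 0 1) := by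
    funext t; exact a2A_snd a b c hf hM (x1, t)
  rw [h0]
  have hmeas : ∀ (k : ℕ) (t : ℝ), StronglyMeasurable
      (fun z : ℝ => z ^ a * a2B k c (fun v => f (x1 + c * z, v)) t) := by
    intro k t
    have h1 : StronglyMeasurable (fun z : ℝ => a2B k c (fun v => f (x1 + c * z, v)) t) := by
      unfold a2B
      apply StronglyMeasurable.integral_prod_right' (f := fun p : ℝ × ℝ =>
        p.2 ^ k * f (x1 + c * p.1, t + c * p.2))
      exact (by fun_prop : Continuous fun p : ℝ × ℝ =>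
        p.2 ^ k * f (x1 + c * p.1, t + c * p.2)).stronglyMeasurable
    exact (by fun_prop : Continuous fun z : ℝ => z ^ a).stronglyMeasurable.mul h1
  have hint : ∀ (k : ℕ) (t : ℝ), Integrable
      (fun z : ℝ => z ^ a * a2B k c (fun v => f (x1 + c * z, v)) t) (gaussianReal 0 1) := by
    intro k t
    refine ((a2_mom a).mul_const (a2m k * M)).mono' (hmeas k t).aestronglyMeasurable
      (Filter.Eventually.of_forall fun z => ?_)
    rw [Real.norm_eq_abs, abs_mul, abs_pow]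
    have := a2B_le k c (h := fun v => f (x1 + c * z, v)) (M := M) (fun x => hM _) t
    gcongr
  have key := hasDerivAt_integral_of_dominated_loc_of_deriv_le (μ := gaussianReal 0 1)
    (F := fun t z => z ^ a * a2B b c (fun v => f (x1 + c * z, v)) t)
    (F' := fun t z => z ^ a * (c⁻¹ * (a2B (b + 1) c (fun v => f (x1 + c * z, v)) t -
      b * a2B (b - 1) c (fun v => f (x1 + c * z, v)) t)))
    (x₀ := x2) (s := univ)
    (bound := fun z => |z| ^ a * (c⁻¹ * (a2m (b + 1) * M + b * (a2m (b - 1) * M))))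
    Filter.univ_mem ?_ (hint b x2) ?_ ?_ ((a2_mom a).mul_const _) ?_
  · refine key.2.congr_deriv ?_
    rw [a2A_snd a (b + 1) c hf hM, a2A_snd a (b - 1) c hf hM, ← integral_const_mul,
      ← integral_sub (hint _ _) ((hint _ _).const_mul _), ← integral_const_mul]
    congr 1
    ext z
    ring
  · exact Filter.Eventually.of_forall fun t => (hmeas b t).aestronglyMeasurable
  · have := (((hint (b + 1) x2).sub ((hint (b - 1) x2).const_mul (b : ℝ))).const_mul c⁻¹).aestronglyMeasurable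
    refine this.congr (Filter.Eventually.of_forall fun z => ?_)
    simp only [Pi.sub_apply]
    ring
  · refine Filter.Eventually.of_forall fun z t _ => ?_
    rw [Real.norm_eq_abs, abs_mul, abs_pow, abs_mul, abs_of_pos (inv_pos.2 hc)]
    have h1 := a2B_le (b + 1) c (h := fun v => f (x1 + c * z, v)) (M := M) (fun x => hM _) t
    have h2 := a2B_le (b - 1) c (h := fun v => f (x1 + c * z, v)) (M := M) (fun x => hM _) t
    have h3 : |a2B (b + 1) c (fun v => f (x1 + c * z, v)) t -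
      b * a2B (b - 1) c (fun v => f (x1 + c * z, v)) t| ≤ a2m (b + 1) * M + b * (a2m (b - 1) * M) := by
      refine (abs_sub _ _).trans ?_
      rw [abs_mul, Nat.abs_cast]
      gcongr
    gcongr
  · refine Filter.Eventually.of_forall fun z t _ => ?_
    exact (a2B_deriv b hc (by fun_prop) (M := M) (fun x => hM _) t).const_mul _

/-! ### from partial derivatives to derivatives -/

lemma a2_fderiv_of_partial {F G1 G2 : ℝ × ℝ → ℝ}
    (h1 : ∀ x : ℝ × ℝ, HasDerivAt (fun t => F (t, x.2)) (G1 x) x.1)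
    (h2 : ∀ x : ℝ × ℝ, HasDerivAt (fun t => F (x.1, t)) (G2 x) x.2)
    (c1 : Continuous G1) (c2 : Continuous G2) (x : ℝ × ℝ) :
    HasFDerivAt F (G1 x • ContinuousLinearMap.fst ℝ ℝ ℝ + G2 x • ContinuousLinearMap.snd ℝ ℝ ℝ) x := by
  have key := (hasStrictFDerivAt_uncurry_coprod (𝕜 := ℝ) (u := x) (f := fun a b => F (a, b))
    (f₁ := fun a b => (ContinuousLinearMap.toSpanSingleton ℝ (G1 (a, b)) : ℝ →L[ℝ] ℝ))
    (f₂ := fun a b => (ContinuousLinearMap.toSpanSingleton ℝ (G2 (a, b)) : ℝ →L[ℝ] ℝ))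
    (Filter.Eventually.of_forall fun v => (h1 v).hasFDerivAt)
    (Filter.Eventually.of_forall fun v => (h2 v).hasFDerivAt) ?_ ?_).hasFDerivAt
  · refine key.congr_fderiv ?_
    ext <;> simp [Function.HasUncurry.uncurry]
  · exact Continuous.continuousAt (by
      have : Continuous fun v : ℝ × ℝ => (ContinuousLinearMap.toSpanSingleton ℝ (G1 v) : ℝ →L[ℝ] ℝ) :=
        (ContinuousLinearMap.toSpanSingletonCLE (𝕜 := ℝ) (E := ℝ)).continuous.comp c1
      exact this)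
  · exact Continuous.continuousAt (by
      have : Continuous fun v : ℝ × ℝ => (ContinuousLinearMap.toSpanSingleton ℝ (G2 v) : ℝ →L[ℝ] ℝ) :=
        (ContinuousLinearMap.toSpanSingletonCLE (𝕜 := ℝ) (E := ℝ)).continuous.comp c2
      exact this)

lemma a2A_contx (a b : ℕ) (c : ℝ) {f : ℝ × ℝ → ℝ} (hf : Continuous f) {M : ℝ} (hM : ∀ x, |f x| ≤ M) :
    Continuous (a2A a b c f) :=
  (a2A_cont a b hf hM).comp (Continuous.prodMk continuous_const continuous_id)

lemma a2A_fderiv (a b : ℕ) {c : ℝ} (hc : 0 < c) {f : ℝ × ℝ → ℝ} (hf : Continuous f) {M : ℝ}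
    (hM : ∀ x, |f x| ≤ M) (x : ℝ × ℝ) :
    HasFDerivAt (a2A a b c f)
      ((c⁻¹ * (a2A (a + 1) b c f x - a * a2A (a - 1) b c f x)) • ContinuousLinearMap.fst ℝ ℝ ℝ +
        (c⁻¹ * (a2A a (b + 1) c f x - b * a2A a (b - 1) c f x)) • ContinuousLinearMap.snd ℝ ℝ ℝ) x := by
  apply a2_fderiv_of_partial (F := a2A a b c f)
    (G1 := fun x => c⁻¹ * (a2A (a + 1) b c f x - a * a2A (a - 1) b c f x))
    (G2 := fun x => c⁻¹ * (a2A a (b + 1) c f x - b * a2A a (b - 1) c f x))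
  · exact fun x => a2A_d1 a b hc hf hM x.1 x.2
  · exact fun x => a2A_d2 a b hc hf hM x.1 x.2
  · have h1 := a2A_contx (a + 1) b c hf hM
    have h2 := a2A_contx (a - 1) b c hf hM
    fun_prop
  · have h1 := a2A_contx a (b + 1) c hf hM
    have h2 := a2A_contx a (b - 1) c hf hM
    fun_prop

lemma a2A_smooth_aux (n : ℕ) {c : ℝ} (hc : 0 < c) {f : ℝ × ℝ → ℝ} (hf : Continuous f) {M : ℝ}
    (hM : ∀ x, |f x| ≤ M) : ∀ a b, ContDiff ℝ n (a2A a b c f) := by
  induction n with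
  | zero => exact fun a b => contDiff_zero.2 (a2A_contx a b c hf hM)
  | succ n ih =>
    intro a b
    rw [show ((n + 1 : ℕ) : WithTop ℕ∞) = (n : WithTop ℕ∞) + 1 by norm_cast, contDiff_succ_iff_fderiv]
    refine ⟨fun x => (a2A_fderiv a b hc hf hM x).differentiableAt, by simp, ?_⟩
    have h : fderiv ℝ (a2A a b c f) = fun x =>
      ((c⁻¹ * (a2A (a + 1) b c f x - a * a2A (a - 1) b c f x)) • ContinuousLinearMap.fst ℝ ℝ ℝ +
        (c⁻¹ * (a2A a (b + 1) c f x - b * a2A a (b - 1) c f x)) • ContinuousLinearMap.snd ℝ ℝ ℝ) := by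
      funext x
      exact (a2A_fderiv a b hc hf hM x).fderiv
    rw [h]
    have h1 := ih (a + 1) b
    have h2 := ih (a - 1) b
    have h3 := ih a (b + 1)
    have h4 := ih a (b - 1)
    fun_prop

lemma a2A_smooth {c : ℝ} (hc : 0 < c) {f : ℝ × ℝ → ℝ} (hf : Continuous f) {M : ℝ}
    (hM : ∀ x, |f x| ≤ M) (a b : ℕ) : ContDiff ℝ ∞ (a2A a b c f) :=
  contDiff_infty.2 fun n => a2A_smooth_aux n hc hf hM a b

lemma a2A_D1 (a b : ℕ) {c : ℝ} (hc : 0 < c) {f : ℝ × ℝ → ℝ} (hf : Continuous f) {M : ℝ}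
    (hM : ∀ x, |f x| ≤ M) (x : ℝ × ℝ) :
    D1 (a2A a b c f) x = c⁻¹ * (a2A (a + 1) b c f x - a * a2A (a - 1) b c f x) := by
  unfold D1
  rw [(a2A_fderiv a b hc hf hM x).fderiv]
  simp

lemma a2A_D2 (a b : ℕ) {c : ℝ} (hc : 0 < c) {f : ℝ × ℝ → ℝ} (hf : Continuous f) {M : ℝ}
    (hM : ∀ x, |f x| ≤ M) (x : ℝ × ℝ) :
    D2 (a2A a b c f) x = c⁻¹ * (a2A a (b + 1) c f x - b * a2A a (b - 1) c f x) := by
  unfold D2
  rw [(a2A_fderiv a b hc hf hM x).fderiv]
  simp

lemma P_eq_a2A (s : ℝ) (f : ℝ × ℝ → ℝ) : P s f = a2A 0 0 (√(2 * s)) f := by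
  funext x
  simp [P, a2A]

/-! ### symmetry, semigroup -/

lemma a2_conv1 (c1 c2 : ℝ) {h : ℝ → ℝ} (hc : Continuous h) {M : ℝ} (hM : ∀ x, |h x| ≤ M) :
    ∫ z, ∫ w, h (c1 * z + c2 * w) ∂(gaussianReal 0 1) ∂(gaussianReal 0 1) =
      ∫ u, h (√(c1 ^ 2 + c2 ^ 2) * u) ∂(gaussianReal 0 1) := by
  have hint : Integrable (fun p : ℝ × ℝ => h (c1 * p.1 + c2 * p.2))
      ((gaussianReal 0 1).prod (gaussianReal 0 1)) :=
    (integrable_const M).mono' (by fun_prop) (Filter.Eventually.of_forall fun p => hM _)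
  have h1 : ∫ z, ∫ w, h (c1 * z + c2 * w) ∂(gaussianReal 0 1) ∂(gaussianReal 0 1) =
      ∫ p : ℝ × ℝ, h (c1 * p.1 + c2 * p.2) ∂((gaussianReal 0 1).prod (gaussianReal 0 1)) :=
    (integral_prod _ hint).symm
  have h2 : ((gaussianReal 0 1).prod (gaussianReal 0 1)).map
      (fun p : ℝ × ℝ => c1 * p.1 + c2 * p.2) = (gaussianReal 0 1).map (√(c1 ^ 2 + c2 ^ 2) * ·) := by
    have e1 : (fun p : ℝ × ℝ => c1 * p.1 + c2 * p.2) =
      (fun p : ℝ × ℝ => p.1 + p.2) ∘ (Prod.map (c1 * ·) (c2 * ·)) := by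
      ext p; simp
    rw [e1, ← Measure.map_map (by fun_prop) (by fun_prop),
      ← Measure.map_prod_map _ _ (by fun_prop) (by fun_prop)]
    have e2 : (((gaussianReal 0 1).map (c1 * ·)).prod ((gaussianReal 0 1).map (c2 * ·))).map
      (fun p : ℝ × ℝ => p.1 + p.2) = ((gaussianReal 0 1).map (c1 * ·)) ∗ ((gaussianReal 0 1).map (c2 * ·)) := rfl
    rw [e2, gaussianReal_map_const_mul, gaussianReal_map_const_mul, gaussianReal_conv_gaussianReal,
      gaussianReal_map_const_mul]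
    congr 1
    · simp
    · ext
      simp [Real.sq_sqrt (by positivity : 0 ≤ c1 ^ 2 + c2 ^ 2)]
  rw [h1, ← integral_map (φ := fun p : ℝ × ℝ => c1 * p.1 + c2 * p.2) (f := h) (by fun_prop)
    hc.aestronglyMeasurable, h2, integral_map (by fun_prop) hc.aestronglyMeasurable]

lemma P_int {s : ℝ} {f : ℝ × ℝ → ℝ} (hf : Continuous f) {M : ℝ} (hM : ∀ x, |f x| ≤ M) (x : ℝ × ℝ) :
    Integrable (fun z : ℝ × ℝ => f (x.1 + √(2 * s) * z.1, x.2 + √(2 * s) * z.2)) gam :=
  (integrable_const M).mono' (by fun_prop) (Filter.Eventually.of_forall fun p => hM _)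

lemma P_int_gen {c d : ℝ} {f : ℝ × ℝ → ℝ} (hf : Continuous f) {M : ℝ} (hM : ∀ x, |f x| ≤ M)
    (x : ℝ × ℝ) : Integrable (fun z : ℝ × ℝ => f (x.1 + c * z.1, x.2 + d * z.2))
      ((gaussianReal 0 1).prod (gaussianReal 0 1)) :=
  (integrable_const M).mono' (by fun_prop) (Filter.Eventually.of_forall fun p => hM _)

lemma a2_neg {h : ℝ → ℝ} (hc : Continuous h) :
    ∫ z, h (-z) ∂(gaussianReal 0 1) = ∫ z, h z ∂(gaussianReal 0 1) := by
  have h1 : (gaussianReal 0 1).map (fun x => -x) = gaussianReal 0 1 := by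
    rw [gaussianReal_map_neg]; simp
  conv_rhs => rw [← h1]
  rw [integral_map (by fun_prop) hc.aestronglyMeasurable]

lemma P_iter {s : ℝ} {f : ℝ × ℝ → ℝ} (hf : Continuous f) {M : ℝ} (hM : ∀ x, |f x| ≤ M) (x : ℝ × ℝ) :
    P s f x = ∫ z, ∫ w, f (x.1 + √(2 * s) * z, x.2 + √(2 * s) * w) ∂(gaussianReal 0 1)
      ∂(gaussianReal 0 1) := by
  unfold P gam
  exact integral_prod _ (P_int_gen hf hM x)

lemma P_even1 {s : ℝ} {f : ℝ × ℝ → ℝ} (hf : Continuous f) {M : ℝ} (hM : ∀ x, |f x| ≤ M)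
    (h : ∀ a b, f (-a, b) = f (a, b)) (a b : ℝ) : P s f (-a, b) = P s f (a, b) := by
  rw [P_iter hf hM, P_iter hf hM]
  simp only
  have hcont : Continuous fun z : ℝ => ∫ w, f (a + √(2 * s) * z, b + √(2 * s) * w) ∂(gaussianReal 0 1) := by
    refine continuous_of_dominated (bound := fun _ => M) (fun z => ?_)
      (fun z => Filter.Eventually.of_forall fun w => hM _) (integrable_const M)
      (Filter.Eventually.of_forall fun w => ?_)
    · exact (by fun_prop : Continuous fun w : ℝ => f (a + √(2 * s) * z, b + √(2 * s) * w)).aestronglyMeasurable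
    · fun_prop
  rw [← a2_neg hcont]
  congr 1
  ext z
  congr 1
  ext w
  rw [← h]
  congr 2
  ring

lemma P_even2 {s : ℝ} {f : ℝ × ℝ → ℝ} (hf : Continuous f) {M : ℝ} (hM : ∀ x, |f x| ≤ M)
    (h : ∀ a b, f (a, -b) = f (a, b)) (a b : ℝ) : P s f (a, -b) = P s f (a, b) := by
  rw [P_iter hf hM, P_iter hf hM]
  simp only
  congr 1
  ext z
  rw [← a2_neg (by fun_prop : Continuous fun w : ℝ => f (a + √(2 * s) * z, b + √(2 * s) * w))]
  congr 1
  ext w
  rw [← h]
  congr 2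
  ring

lemma P_contx {s : ℝ} {f : ℝ × ℝ → ℝ} (hf : Continuous f) {M : ℝ} (hM : ∀ x, |f x| ≤ M) :
    Continuous (P s f) := by
  rw [P_eq_a2A]; exact a2A_contx 0 0 _ hf hM

theorem P_CP {L s : ℝ} (hL : 0 < L) (hs : 0 ≤ s) {f : ℝ × ℝ → ℝ} (hf : CP L f) : CP L (P s f) := by
  obtain ⟨M, -, hM⟩ := CP_bdd hL hf
  refine ⟨P_contx hf.cont hM, P_even1 hf.cont hM hf.even1, P_even2 hf.cont hM hf.even2, ?_, ?_⟩
  · intro a b
    unfold P
    congr 1
    ext z
    simp only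
    rw [show a + 2 * L + √(2 * s) * z.1 = (a + √(2 * s) * z.1) + 2 * L by ring, hf.per1]
  · intro a b
    unfold P
    congr 1
    ext z
    simp only
    rw [show b + 2 * L + √(2 * s) * z.2 = (b + √(2 * s) * z.2) + 2 * L by ring, hf.per2]

/-- (write the average as a convolution with the Gaussian density) -/
theorem P_EP {L s : ℝ} (hL : 0 < L) (hs : 0 < s) {f : ℝ × ℝ → ℝ} (hf : CP L f) : EP L (P s f) := by
  obtain ⟨M, -, hM⟩ := CP_bdd hL hf
  refine ⟨P_CP hL hs.le hf, ?_⟩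
  rw [P_eq_a2A]
  exact a2A_smooth (Real.sqrt_pos.2 (by positivity)) hf.cont hM 0 0

theorem P_zero (f : ℝ × ℝ → ℝ) : P 0 f = f := by
  funext x
  simp [P]

theorem P_EP' {L s : ℝ} (hL : 0 < L) (hs : 0 ≤ s) {f : ℝ × ℝ → ℝ} (hf : EP L f) : EP L (P s f) := by
  rcases hs.eq_or_lt with h | h
  · rw [← h, P_zero]; exact hf
  · exact P_EP hL h hf.toCP

lemma P_P_gen {s r : ℝ} (hs : 0 ≤ s) (hr : 0 ≤ r) {f : ℝ × ℝ → ℝ} (hf : Continuous f) {M : ℝ}
    (hM : ∀ x, |f x| ≤ M) : P s (P r f) = P (s + r) f := by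
  funext x
  have hPM : ∀ y, |P r f y| ≤ M := by
    intro y
    have := a2A_le 0 0 (√(2 * r)) hM y
    rw [P_eq_a2A]
    simpa [a2m_zero] using this
  rw [P_iter (P_contx hf hM) hPM, P_iter hf hM]
  simp_rw [P_iter hf hM]
  set c := √(2 * s) with hc
  set d := √(2 * r) with hd
  have hcd : √(2 * (s + r)) = √(c ^ 2 + d ^ 2) := by
    rw [hc, hd, Real.sq_sqrt (by positivity), Real.sq_sqrt (by positivity)]
    congr 1; ring
  rw [hcd]
  -- swap the two inner integrals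
  have h1 : ∀ z : ℝ, ∫ w, ∫ z', ∫ w', f (x.1 + c * z + d * z', x.2 + c * w + d * w')
      ∂(gaussianReal 0 1) ∂(gaussianReal 0 1) ∂(gaussianReal 0 1) =
      ∫ z', ∫ w, f (x.1 + c * z + d * z', x.2 + √(c ^ 2 + d ^ 2) * w)
        ∂(gaussianReal 0 1) ∂(gaussianReal 0 1) := by
    intro z
    rw [integral_integral_swap]
    · congr 1
      ext z'
      have := a2_conv1 c d (h := fun w => f (x.1 + c * z + d * z', x.2 + w)) (by fun_prop) (M := M)
        (fun w => hM _)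
      rw [← this]
      congr 1
      ext w
      congr 1
      ext w'
      congr 2
      ring
    · have hc2 : Continuous (fun p : ℝ × ℝ => ∫ w', f (x.1 + c * z + d * p.2, x.2 + c * p.1 + d * w')
        ∂(gaussianReal 0 1)) := by
        refine continuous_of_dominated (bound := fun _ => M) (fun z => ?_)
          (fun z => Filter.Eventually.of_forall fun w => hM _) (integrable_const M)
          (Filter.Eventually.of_forall fun w => ?_)
        · exact (by fun_prop : Continuous fun w' : ℝ => f (x.1 + c * _ + d * _, x.2 + c * _ + d * w')).aestronglyMeasurable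
        · fun_prop
      refine (integrable_const M).mono' hc2.aestronglyMeasurable (Filter.Eventually.of_forall fun p => ?_)
      have := norm_integral_le_of_norm_le (μ := gaussianReal 0 1)
        (f := fun w' => f (x.1 + c * z + d * p.2, x.2 + c * p.1 + d * w'))
        (integrable_const M) (Filter.Eventually.of_forall fun w => hM _)
      simpa [Function.uncurry] using this
  simp_rw [h1]
  have hc3 : Continuous (fun u : ℝ => ∫ w, f (x.1 + u, x.2 + √(c ^ 2 + d ^ 2) * w)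
        ∂(gaussianReal 0 1)) := by
    refine continuous_of_dominated (bound := fun _ => M) (fun z => ?_)
      (fun z => Filter.Eventually.of_forall fun w => hM _) (integrable_const M)
      (Filter.Eventually.of_forall fun w => ?_)
    · exact (by fun_prop : Continuous fun w' : ℝ => f (x.1 + _, x.2 + _ * w')).aestronglyMeasurable
    · fun_prop
  have := a2_conv1 c d (h := fun u => ∫ w, f (x.1 + u, x.2 + √(c ^ 2 + d ^ 2) * w)
        ∂(gaussianReal 0 1)) hc3 (M := M) (fun u => by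
      have := norm_integral_le_of_norm_le (μ := gaussianReal 0 1)
        (f := fun w => f (x.1 + u, x.2 + √(c ^ 2 + d ^ 2) * w))
        (integrable_const M) (Filter.Eventually.of_forall fun w => hM _)
      simpa using this)
  rw [← this]
  congr 1
  ext z
  congr 1
  ext z'
  congr 1
  ext w
  congr 2
  ring

theorem P_P {L s r : ℝ} (hL : 0 < L) (hs : 0 ≤ s) (hr : 0 ≤ r) {f : ℝ × ℝ → ℝ} (hf : CP L f) :
    P s (P r f) = P (s + r) f := by
  obtain ⟨M, -, hM⟩ := CP_bdd hL hf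
  exact P_P_gen hs hr hf.cont hM

/-- joint continuity in time and space -/
theorem P_cont {L : ℝ} (hL : 0 < L) {f : ℝ × ℝ → ℝ} (hf : CP L f) :
    Continuous (fun v : ℝ × (ℝ × ℝ) => P v.1 f v.2) := by
  obtain ⟨M, -, hM⟩ := CP_bdd hL hf
  simp_rw [P_eq_a2A]
  have h := a2A_cont 0 0 hf.cont hM
  exact h.comp (by fun_prop : Continuous fun v : ℝ × (ℝ × ℝ) => (√(2 * v.1), v.2))

theorem P_mono {L : ℝ} (s : ℝ) (hL : 0 < L) {f g : ℝ × ℝ → ℝ} (hf : CP L f) (hg : CP L g)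
    (h : ∀ x, f x ≤ g x) (x : ℝ × ℝ) : P s f x ≤ P s g x := by
  obtain ⟨M, -, hM⟩ := CP_bdd hL hf
  obtain ⟨M', -, hM'⟩ := CP_bdd hL hg
  exact integral_mono (P_int hf.cont hM x) (P_int hg.cont hM' x) fun z => h _

lemma P_abs_le_gen (s : ℝ) {f : ℝ × ℝ → ℝ} {M : ℝ} (h : ∀ x, |f x| ≤ M) (x : ℝ × ℝ) :
    |P s f x| ≤ M := by
  have := a2A_le 0 0 (√(2 * s)) h x
  rw [P_eq_a2A]
  simpa [a2m_zero] using this

theorem P_abs_le {L : ℝ} (s : ℝ) (hL : 0 < L) {f : ℝ × ℝ → ℝ} (hf : CP L f) {M : ℝ}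
    (h : ∀ x, |f x| ≤ M) (x : ℝ × ℝ) : |P s f x| ≤ M :=
  P_abs_le_gen s h x

theorem P_const (s c : ℝ) (x : ℝ × ℝ) : P s (fun _ => c) x = c := by
  simp [P]

theorem P_add {L : ℝ} (s : ℝ) (hL : 0 < L) {f g : ℝ × ℝ → ℝ} (hf : CP L f) (hg : CP L g)
    (x : ℝ × ℝ) : P s (fun y => f y + g y) x = P s f x + P s g x := by
  obtain ⟨M, -, hM⟩ := CP_bdd hL hf
  obtain ⟨M', -, hM'⟩ := CP_bdd hL hg
  exact integral_add (P_int hf.cont hM x) (P_int hg.cont hM' x)

theorem P_smul (s c : ℝ) (f : ℝ × ℝ → ℝ) (x : ℝ × ℝ) : P s (fun y => c * f y) x = c * P s f x := by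
  unfold P
  rw [integral_const_mul]


/-! ### derivatives of `P s` -/

lemma a2_D1_eq {F : ℝ × ℝ → ℝ} {x : ℝ × ℝ} {d : ℝ} (hF : DifferentiableAt ℝ F x)
    (h : HasDerivAt (fun t => F (t, x.2)) d x.1) : D1 F x = d := by
  have h1 : HasDerivAt (fun t : ℝ => ((t, x.2) : ℝ × ℝ)) (1, 0) x.1 :=
    (hasDerivAt_id x.1).prodMk (hasDerivAt_const x.1 x.2)
  have h2 : HasDerivAt (fun t => F (t, x.2)) (fderiv ℝ F x (1, 0)) x.1 :=
    HasFDerivAt.comp_hasDerivAt x.1 (f := fun t : ℝ => ((t, x.2) : ℝ × ℝ)) (l := F) hF.hasFDerivAt h1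
  exact h2.unique h

lemma a2_D2_eq {F : ℝ × ℝ → ℝ} {x : ℝ × ℝ} {d : ℝ} (hF : DifferentiableAt ℝ F x)
    (h : HasDerivAt (fun t => F (x.1, t)) d x.2) : D2 F x = d := by
  have h1 : HasDerivAt (fun t : ℝ => ((x.1, t) : ℝ × ℝ)) (0, 1) x.2 :=
    (hasDerivAt_const x.2 x.1).prodMk (hasDerivAt_id x.2)
  have h2 : HasDerivAt (fun t => F (x.1, t)) (fderiv ℝ F x (0, 1)) x.2 :=
    HasFDerivAt.comp_hasDerivAt x.2 (f := fun t : ℝ => ((x.1, t) : ℝ × ℝ)) (l := F) hF.hasFDerivAt h1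
  exact h2.unique h

lemma a2_hasD1 {F : ℝ × ℝ → ℝ} (hF : Differentiable ℝ F) (a b : ℝ) :
    HasDerivAt (fun t => F (t, b)) (D1 F (a, b)) a :=
  HasFDerivAt.comp_hasDerivAt a (f := fun t : ℝ => ((t, b) : ℝ × ℝ)) (l := F)
    (hF (a, b)).hasFDerivAt ((hasDerivAt_id a).prodMk (hasDerivAt_const a b))

lemma a2_hasD2 {F : ℝ × ℝ → ℝ} (hF : Differentiable ℝ F) (a b : ℝ) :
    HasDerivAt (fun t => F (a, t)) (D2 F (a, b)) b :=
  HasFDerivAt.comp_hasDerivAt b (f := fun t : ℝ => ((a, t) : ℝ × ℝ)) (l := F)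
    (hF (a, b)).hasFDerivAt ((hasDerivAt_const b a).prodMk (hasDerivAt_id b))

lemma a2_D1_const_mul (k : ℝ) {F : ℝ × ℝ → ℝ} (hF : Differentiable ℝ F) (x : ℝ × ℝ) :
    D1 (fun y => k * F y) x = k * D1 F x := by
  unfold D1
  rw [fderiv_const_mul (hF x)]
  simp

lemma a2_D2_const_mul (k : ℝ) {F : ℝ × ℝ → ℝ} (hF : Differentiable ℝ F) (x : ℝ × ℝ) :
    D2 (fun y => k * F y) x = k * D2 F x := by
  unfold D2
  rw [fderiv_const_mul (hF x)]
  simp

lemma a2_cont_D1 {f : ℝ × ℝ → ℝ} (hf : ContDiff ℝ 1 f) : Continuous (D1 f) :=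
  (hf.continuous_fderiv (by norm_num)).clm_apply continuous_const

lemma a2_cont_D2 {f : ℝ × ℝ → ℝ} (hf : ContDiff ℝ 1 f) : Continuous (D2 f) :=
  (hf.continuous_fderiv (by norm_num)).clm_apply continuous_const

lemma P_diff {s : ℝ} (hs : 0 < s) {f : ℝ × ℝ → ℝ} (hf : Continuous f) {M : ℝ} (hM : ∀ x, |f x| ≤ M) :
    Differentiable ℝ (P s f) := by
  rw [P_eq_a2A]
  exact fun x => (a2A_fderiv 0 0 (Real.sqrt_pos.2 (by positivity)) hf hM x).differentiableAt

lemma D1_P_gen {s : ℝ} (hs : 0 ≤ s) {f : ℝ × ℝ → ℝ} (hf : ContDiff ℝ 1 f) {M M' : ℝ}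
    (hM : ∀ x, |f x| ≤ M) (hM' : ∀ x, |D1 f x| ≤ M') (x : ℝ × ℝ) : D1 (P s f) x = P s (D1 f) x := by
  rcases hs.eq_or_lt with h | h
  · rw [← h, P_zero, P_zero]
  have hfd : Differentiable ℝ f := hf.differentiable (by norm_num)
  have hcd := a2_cont_D1 hf
  apply a2_D1_eq (P_diff h hf.continuous hM x)
  have key := hasDerivAt_integral_of_dominated_loc_of_deriv_le (μ := gam)
    (F := fun t z => f (t + √(2 * s) * z.1, x.2 + √(2 * s) * z.2))
    (F' := fun t z => D1 f (t + √(2 * s) * z.1, x.2 + √(2 * s) * z.2))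
    (x₀ := x.1) (s := univ) (bound := fun _ => M')
    Filter.univ_mem ?_ ?_ ?_ ?_ (integrable_const _) ?_
  · exact key.2
  · refine Filter.Eventually.of_forall fun t => ?_
    have := hf.continuous
    exact (by fun_prop : Continuous fun z : ℝ × ℝ => f (t + √(2 * s) * z.1, x.2 + √(2 * s) * z.2)).aestronglyMeasurable
  · exact P_int hf.continuous hM x
  · exact (by fun_prop : Continuous fun z : ℝ × ℝ => D1 f (x.1 + √(2 * s) * z.1, x.2 + √(2 * s) * z.2)).aestronglyMeasurable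
  · exact Filter.Eventually.of_forall fun z t _ => hM' _
  · refine Filter.Eventually.of_forall fun z t _ => ?_
    have h1 := a2_hasD1 hfd (t + √(2 * s) * z.1) (x.2 + √(2 * s) * z.2)
    exact h1.comp_add_const t (√(2 * s) * z.1)

lemma D2_P_gen {s : ℝ} (hs : 0 ≤ s) {f : ℝ × ℝ → ℝ} (hf : ContDiff ℝ 1 f) {M M' : ℝ}
    (hM : ∀ x, |f x| ≤ M) (hM' : ∀ x, |D2 f x| ≤ M') (x : ℝ × ℝ) : D2 (P s f) x = P s (D2 f) x := by
  rcases hs.eq_or_lt with h | h
  · rw [← h, P_zero, P_zero]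
  have hfd : Differentiable ℝ f := hf.differentiable (by norm_num)
  have hcd := a2_cont_D2 hf
  apply a2_D2_eq (P_diff h hf.continuous hM x)
  have key := hasDerivAt_integral_of_dominated_loc_of_deriv_le (μ := gam)
    (F := fun t z => f (x.1 + √(2 * s) * z.1, t + √(2 * s) * z.2))
    (F' := fun t z => D2 f (x.1 + √(2 * s) * z.1, t + √(2 * s) * z.2))
    (x₀ := x.2) (s := univ) (bound := fun _ => M')
    Filter.univ_mem ?_ ?_ ?_ ?_ (integrable_const _) ?_
  · exact key.2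
  · refine Filter.Eventually.of_forall fun t => ?_
    have := hf.continuous
    exact (by fun_prop : Continuous fun z : ℝ × ℝ => f (x.1 + √(2 * s) * z.1, t + √(2 * s) * z.2)).aestronglyMeasurable
  · exact P_int hf.continuous hM x
  · exact (by fun_prop : Continuous fun z : ℝ × ℝ => D2 f (x.1 + √(2 * s) * z.1, x.2 + √(2 * s) * z.2)).aestronglyMeasurable
  · exact Filter.Eventually.of_forall fun z t _ => hM' _
  · refine Filter.Eventually.of_forall fun z t _ => ?_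
    have h1 := a2_hasD2 hfd (x.1 + √(2 * s) * z.1) (t + √(2 * s) * z.2)
    exact h1.comp_add_const t (√(2 * s) * z.2)

/-- `P s` commutes with derivatives. -/
theorem D1_P {L s : ℝ} (hL : 0 < L) (hs : 0 ≤ s) {f : ℝ × ℝ → ℝ} (hf : EP L f) (x : ℝ × ℝ) :
    D1 (P s f) x = P s (D1 f) x := by
  obtain ⟨M, -, hM⟩ := CP_bdd hL hf.toCP
  obtain ⟨M', -, hG, -⟩ := EP_bdd hL hf
  exact D1_P_gen hs (hf.smooth.of_le (by norm_cast)) hM (fun y => (hG y).1) x

theorem D2_P {L s : ℝ} (hL : 0 < L) (hs : 0 ≤ s) {f : ℝ × ℝ → ℝ} (hf : EP L f) (x : ℝ × ℝ) :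
    D2 (P s f) x = P s (D2 f) x := by
  obtain ⟨M, -, hM⟩ := CP_bdd hL hf.toCP
  obtain ⟨M', -, hG, -⟩ := EP_bdd hL hf
  exact D2_P_gen hs (hf.smooth.of_le (by norm_cast)) hM (fun y => (hG y).2) x

theorem lap_P {L s : ℝ} (hL : 0 < L) (hs : 0 ≤ s) {f : ℝ × ℝ → ℝ} (hf : EP L f) (x : ℝ × ℝ) :
    lap (P s f) x = P s (lap f) x := by
  obtain ⟨M', -, hG, hH⟩ := EP_bdd hL hf
  have e1 : D1 (P s f) = P s (D1 f) := funext fun y => D1_P hL hs hf y
  have e2 : D2 (P s f) = P s (D2 f) := funext fun y => D2_P hL hs hf y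
  obtain ⟨s1, s2, -⟩ := D_smooth hf.smooth
  obtain ⟨s11, -, -⟩ := D_smooth s1
  obtain ⟨-, s22, -⟩ := D_smooth s2
  unfold lap
  rw [e1, e2, D1_P_gen hs (s1.of_le (by norm_cast)) (fun y => (hG y).1)
    (fun y => (hH y).1), D2_P_gen hs (s2.of_le (by norm_cast)) (fun y => (hG y).2)
    (fun y => (hH y).2.2.2)]
  exact (integral_add (P_int s11.continuous (fun y => (hH y).1) x)
    (P_int s22.continuous (fun y => (hH y).2.2.2) x)).symm

/-- gradient of `P s f` is at most `P s` of the gradient -/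
theorem gabs_P_le {L s : ℝ} (hL : 0 < L) (hs : 0 ≤ s) {f : ℝ × ℝ → ℝ} (hf : EP L f) (x : ℝ × ℝ) :
    gabs (P s f) x ≤ P s (gabs f) x := by
  obtain ⟨M', -, hG, -⟩ := EP_bdd hL hf
  obtain ⟨s1, s2, -⟩ := D_smooth hf.smooth
  unfold gabs
  rw [D1_P hL hs hf, D2_P hL hs hf]
  unfold P
  rw [integral_add]
  · exact add_le_add (abs_integral_le_integral_abs) (abs_integral_le_integral_abs)
  · exact (P_int s1.continuous (fun y => (hG y).1) x).abs
  · exact (P_int s2.continuous (fun y => (hG y).2) x).abs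

lemma a2_pow_sq (a b : ℕ) (z : ℝ × ℝ) :
    |z.1| ^ (a * 2) * |z.2| ^ (b * 2) = (z.1 ^ a * z.2 ^ b) ^ 2 := by
  rw [pow_mul |z.1|, pow_mul |z.2|, mul_pow, ← sq_abs (z.1 ^ a), ← sq_abs (z.2 ^ b), abs_pow, abs_pow]

lemma a2A_sq_le (a b : ℕ) (c : ℝ) (hab : a2m (a * 2) * a2m (b * 2) = 1) {f : ℝ × ℝ → ℝ} (hf : Continuous f)
    {M : ℝ} (hM : ∀ x, |f x| ≤ M) (x : ℝ × ℝ) :
    a2A a b c f x ^ 2 ≤ a2A 0 0 c (fun y => f y ^ 2) x := by
  set A := a2A a b c f x with hA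
  have h1 : Integrable (fun z : ℝ × ℝ => (z.1 ^ a * z.2 ^ b) ^ 2) gam := by
    refine (a2_mom2 (a * 2) (b * 2)).congr (Filter.Eventually.of_forall fun z => ?_)
    exact a2_pow_sq a b z
  have h1' : ∫ z : ℝ × ℝ, (z.1 ^ a * z.2 ^ b) ^ 2 ∂gam = 1 := by
    rw [← hab, ← a2_mom2_eq]
    congr 1
    ext z
    exact (a2_pow_sq a b z).symm
  have h2 := a2A_int a b c hf hM x
  have h3 : Integrable (fun z : ℝ × ℝ => f (x.1 + c * z.1, x.2 + c * z.2) ^ 2) gam := by
    refine (integrable_const (M ^ 2)).mono' (by fun_prop) (Filter.Eventually.of_forall fun p => ?_)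
    rw [Real.norm_eq_abs, abs_pow]
    have := hM (x.1 + c * p.1, x.2 + c * p.2)
    gcongr
  have h4 : 0 ≤ ∫ z : ℝ × ℝ, (f (x.1 + c * z.1, x.2 + c * z.2) - A * (z.1 ^ a * z.2 ^ b)) ^ 2 ∂gam :=
    integral_nonneg fun z => sq_nonneg _
  have h5 : ∫ z : ℝ × ℝ, (f (x.1 + c * z.1, x.2 + c * z.2) - A * (z.1 ^ a * z.2 ^ b)) ^ 2 ∂gam =
      (∫ z : ℝ × ℝ, f (x.1 + c * z.1, x.2 + c * z.2) ^ 2 ∂gam) - 2 * A *
        (∫ z : ℝ × ℝ, z.1 ^ a * z.2 ^ b * f (x.1 + c * z.1, x.2 + c * z.2) ∂gam) +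
        A ^ 2 * ∫ z : ℝ × ℝ, (z.1 ^ a * z.2 ^ b) ^ 2 ∂gam := by
    have i4 : Integrable (fun z : ℝ × ℝ => f (x.1 + c * z.1, x.2 + c * z.2) ^ 2 -
      2 * A * (z.1 ^ a * z.2 ^ b * f (x.1 + c * z.1, x.2 + c * z.2))) gam := h3.sub (h2.const_mul _)
    rw [← integral_const_mul, ← integral_const_mul, ← integral_sub h3 (h2.const_mul _),
      ← integral_add i4 (h1.const_mul _)]
    congr 1
    ext z
    ring
  have h6 : ∫ z : ℝ × ℝ, z.1 ^ a * z.2 ^ b * f (x.1 + c * z.1, x.2 + c * z.2) ∂gam = A := rfl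
  rw [h5, h6, h1'] at h4
  have h7 : a2A 0 0 c (fun y => f y ^ 2) x = ∫ z : ℝ × ℝ, f (x.1 + c * z.1, x.2 + c * z.2) ^ 2 ∂gam := by
    simp [a2A]
  rw [h7]
  nlinarith

lemma a2_c_sq {s : ℝ} (hs : 0 < s) : (√(2 * s))⁻¹ ^ 2 = 1 / (2 * s) := by
  rw [inv_pow, Real.sq_sqrt (by positivity), one_div]

/-- Smoothing, first form: Cauchy–Schwarz in `∂₁ P_s f (x) = E [z₁ f (x + √(2s) z)] / √(2s)`. -/
theorem gsq_P_le {L s : ℝ} (hL : 0 < L) (hs : 0 < s) {f : ℝ × ℝ → ℝ} (hf : CP L f) (x : ℝ × ℝ) :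
    gsq (P s f) x ≤ 1 / s * P s (fun y => f y ^ 2) x := by
  obtain ⟨M, -, hM⟩ := CP_bdd hL hf
  have hc : 0 < √(2 * s) := Real.sqrt_pos.2 (by positivity)
  unfold gsq
  rw [P_eq_a2A, P_eq_a2A, a2A_D1 0 0 hc hf.cont hM, a2A_D2 0 0 hc hf.cont hM]
  have h1 := a2A_sq_le 1 0 (√(2 * s)) (by rw [show 1 * 2 = 2 by norm_num, a2m_two, show 0 * 2 = 0 by norm_num, a2m_zero]; norm_num) hf.cont hM x
  have h2 := a2A_sq_le 0 1 (√(2 * s)) (by rw [show 1 * 2 = 2 by norm_num, a2m_two, show 0 * 2 = 0 by norm_num, a2m_zero]; norm_num) hf.cont hM x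
  simp only [Nat.cast_zero, zero_mul, sub_zero, zero_add, mul_pow]
  rw [a2_c_sq hs]
  have h3 : 1 / s * a2A 0 0 (√(2 * s)) (fun y => f y ^ 2) x =
    1 / (2 * s) * a2A 0 0 (√(2 * s)) (fun y => f y ^ 2) x +
      1 / (2 * s) * a2A 0 0 (√(2 * s)) (fun y => f y ^ 2) x := by
    field_simp
    ring
  rw [h3]
  gcongr

lemma a2_c_inv_le {s : ℝ} (hs : 0 < s) : (√(2 * s))⁻¹ ≤ 1 / √s := by
  rw [one_div]
  apply inv_anti₀ (Real.sqrt_pos.2 hs)
  exact Real.sqrt_le_sqrt (by linarith)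

lemma Grad_P_gen {s M : ℝ} (hs : 0 < s) {f : ℝ × ℝ → ℝ} (hf : Continuous f)
    (hM : ∀ x, |f x| ≤ M) : Grad (P s f) (M / √s) := by
  have hM0 : 0 ≤ M := (abs_nonneg _).trans (hM 0)
  have hc : 0 < √(2 * s) := Real.sqrt_pos.2 (by positivity)
  have hm := a2m_one
  have hm0 := a2m_nonneg 1
  intro x
  rw [P_eq_a2A, a2A_D1 0 0 hc hf hM, a2A_D2 0 0 hc hf hM]
  have h1 := a2A_le 1 0 (√(2 * s)) hM x
  have h2 := a2A_le 0 1 (√(2 * s)) hM x
  rw [a2m_zero] at h1 h2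
  simp only [Nat.cast_zero, zero_mul, sub_zero, zero_add]
  rw [abs_mul, abs_mul, abs_of_pos (inv_pos.2 hc)]
  have h3 := a2_c_inv_le hs
  constructor
  · calc (√(2 * s))⁻¹ * |a2A 1 0 (√(2 * s)) f x| ≤ (1 / √s) * (1 * 1 * M) := by
          gcongr
          exact h1.trans (by gcongr)
      _ = M / √s := by ring
  · calc (√(2 * s))⁻¹ * |a2A 0 1 (√(2 * s)) f x| ≤ (1 / √s) * (1 * 1 * M) := by
          gcongr
          exact h2.trans (by gcongr)
      _ = M / √s := by ring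

/-- Smoothing, second form. -/
theorem Grad_P {L s M : ℝ} (hL : 0 < L) (hs : 0 < s) {f : ℝ × ℝ → ℝ} (hf : CP L f)
    (hM : ∀ x, |f x| ≤ M) : Grad (P s f) (M / √s) :=
  Grad_P_gen hs hf.cont hM

/-- Smoothing, third form. -/
theorem Hess_P {L s M : ℝ} (hL : 0 < L) (hs : 0 < s) {f : ℝ × ℝ → ℝ} (hf : CP L f)
    (hM : ∀ x, |f x| ≤ M) : Hess (P s f) (2 * M / s) := by
  have hM0 : 0 ≤ M := (abs_nonneg _).trans (hM 0)
  have hfc := hf.cont
  have hc : 0 < √(2 * s) := Real.sqrt_pos.2 (by positivity)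
  have hm := a2m_one
  have hm0 := a2m_nonneg 1
  have e1 : D1 (P s f) = fun y => (√(2 * s))⁻¹ * a2A 1 0 (√(2 * s)) f y := by
    funext y
    rw [P_eq_a2A, a2A_D1 0 0 hc hfc hM]
    simp
  have e2 : D2 (P s f) = fun y => (√(2 * s))⁻¹ * a2A 0 1 (√(2 * s)) f y := by
    funext y
    rw [P_eq_a2A, a2A_D2 0 0 hc hfc hM]
    simp
  have d10 : Differentiable ℝ (a2A 1 0 (√(2 * s)) f) :=
    fun x => (a2A_fderiv 1 0 hc hfc hM x).differentiableAt
  have d01 : Differentiable ℝ (a2A 0 1 (√(2 * s)) f) :=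
    fun x => (a2A_fderiv 0 1 hc hfc hM x).differentiableAt
  have hcc : (√(2 * s))⁻¹ * (√(2 * s))⁻¹ = 1 / (2 * s) := by rw [← pow_two, a2_c_sq hs]
  intro x
  have b20 := a2A_le 2 0 (√(2 * s)) hM x
  have b02 := a2A_le 0 2 (√(2 * s)) hM x
  have b11 := a2A_le 1 1 (√(2 * s)) hM x
  have b00 := a2A_le 0 0 (√(2 * s)) hM x
  rw [a2m_two, a2m_zero] at b20 b02
  rw [a2m_zero] at b00
  have b11' : a2m 1 * a2m 1 * M ≤ 1 * 1 * M := by gcongr
  have key : ∀ u : ℝ, |u| ≤ 2 * M → |(√(2 * s))⁻¹ * ((√(2 * s))⁻¹ * u)| ≤ 2 * M / s := by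
    intro u hu
    rw [← mul_assoc, hcc, abs_mul, abs_of_pos (by positivity)]
    calc 1 / (2 * s) * |u| ≤ 1 / (2 * s) * (2 * M) := by gcongr
      _ = M / s := by field_simp
      _ ≤ 2 * M / s := by gcongr; linarith
  rw [e1, e2]
  rw [a2_D1_const_mul _ d10, a2_D1_const_mul _ d01, a2_D2_const_mul _ d10, a2_D2_const_mul _ d01,
    a2A_D1 1 0 hc hfc hM, a2A_D1 0 1 hc hfc hM, a2A_D2 1 0 hc hfc hM, a2A_D2 0 1 hc hfc hM]
  refine ⟨key _ ?_, key _ ?_, key _ ?_, key _ ?_⟩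
  · simp only [Nat.cast_one, one_mul, Nat.sub_self]
    refine (abs_sub _ _).trans ?_
    norm_num at b20 b00 ⊢
    linarith
  · simp only [Nat.cast_zero, zero_mul, sub_zero, zero_add]
    linarith
  · simp only [Nat.cast_zero, zero_mul, sub_zero, zero_add]
    linarith
  · simp only [Nat.cast_one, one_mul, Nat.sub_self]
    refine (abs_sub _ _).trans ?_
    norm_num at b02 b00 ⊢
    linarith

/-- Smoothing, fourth form. -/
theorem Hess_P_of_Grad {L s M : ℝ} (hL : 0 < L) (hs : 0 < s) {f : ℝ × ℝ → ℝ} (hf : EP L f)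
    (hM : Grad f M) : Hess (P s f) (M / √s) := by
  have e1 : D1 (P s f) = P s (D1 f) := funext fun y => D1_P hL hs.le hf y
  have e2 : D2 (P s f) = P s (D2 f) := funext fun y => D2_P hL hs.le hf y
  obtain ⟨s1, s2, -⟩ := D_smooth hf.smooth
  have g1 := Grad_P_gen hs s1.continuous (fun y => (hM y).1)
  have g2 := Grad_P_gen hs s2.continuous (fun y => (hM y).2)
  intro y
  rw [e1, e2]
  exact ⟨(g1 y).1, (g2 y).1, (g1 y).2, (g2 y).2⟩

theorem Grad_P_of_Grad {L s M : ℝ} (hL : 0 < L) (hs : 0 ≤ s) {f : ℝ × ℝ → ℝ} (hf : EP L f)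
    (hM : Grad f M) : Grad (P s f) M := by
  intro y
  rw [D1_P hL hs hf, D2_P hL hs hf]
  exact ⟨P_abs_le_gen s (fun y => (hM y).1) y, P_abs_le_gen s (fun y => (hM y).2) y⟩

lemma a2_mv {f : ℝ × ℝ → ℝ} (hf : Differentiable ℝ f) {M : ℝ} (hM : Grad f M) (a b a' b' : ℝ) :
    |f (a', b') - f (a, b)| ≤ M * (|a' - a| + |b' - b|) := by
  have h1 : |f (a', b) - f (a, b)| ≤ M * |a' - a| := by
    have := Convex.norm_image_sub_le_of_norm_hasDerivWithin_le (f := fun t => f (t, b))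
      (f' := fun t => D1 f (t, b)) (C := M) (s := univ) (x := a) (y := a')
      (fun t _ => (a2_hasD1 hf t b).hasDerivWithinAt) (fun t _ => (hM (t, b)).1) convex_univ
      (mem_univ _) (mem_univ _)
    simpa using this
  have h2 : |f (a', b') - f (a', b)| ≤ M * |b' - b| := by
    have := Convex.norm_image_sub_le_of_norm_hasDerivWithin_le (f := fun t => f (a', t))
      (f' := fun t => D2 f (a', t)) (C := M) (s := univ) (x := b) (y := b')
      (fun t _ => (a2_hasD2 hf a' t).hasDerivWithinAt) (fun t _ => (hM (a', t)).2) convex_univ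
      (mem_univ _) (mem_univ _)
    simpa using this
  calc |f (a', b') - f (a, b)| = |(f (a', b') - f (a', b)) + (f (a', b) - f (a, b))| := by ring_nf
    _ ≤ |f (a', b') - f (a', b)| + |f (a', b) - f (a, b)| := abs_add_le _ _
    _ ≤ _ := by rw [mul_add]; linarith

/-- `P s f` is close to `f` if `f` is Lipschitz. -/
theorem P_sub_le {L s M : ℝ} (hL : 0 < L) (hs : 0 ≤ s) {f : ℝ × ℝ → ℝ} (hf : EP L f)
    (hM : Grad f M) (x : ℝ × ℝ) : |P s f x - f x| ≤ 3 * √s * M := by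
  have hM0 : 0 ≤ M := (abs_nonneg _).trans (hM 0).1
  obtain ⟨M', -, hM'⟩ := CP_bdd hL hf.toCP
  have hd : Differentiable ℝ f := hf.smooth.differentiable (by simp)
  set c := √(2 * s) with hc
  have hc0 : 0 ≤ c := Real.sqrt_nonneg _
  have h1 : P s f x - f x = ∫ z, (f (x.1 + c * z.1, x.2 + c * z.2) - f x) ∂gam := by
    rw [integral_sub (P_int hf.cont hM' x) (integrable_const _)]
    simp [P]
  have m1 := a2_mom2 1 0
  have m2 := a2_mom2 0 1
  have e1 := a2_mom2_eq 1 0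
  have e2 := a2_mom2_eq 0 1
  rw [a2m_zero] at e1 e2
  have h2 : |P s f x - f x| ≤ ∫ z : ℝ × ℝ, M * (c * (|z.1| ^ 1 * |z.2| ^ 0 + |z.1| ^ 0 * |z.2| ^ 1)) ∂gam := by
    rw [h1, ← Real.norm_eq_abs]
    refine norm_integral_le_of_norm_le (((m1.add m2).const_mul c).const_mul M)
      (Filter.Eventually.of_forall fun z => ?_)
    have := a2_mv hd hM x.1 x.2 (x.1 + c * z.1) (x.2 + c * z.2)
    rw [Real.norm_eq_abs]
    refine this.trans (le_of_eq ?_)
    simp only [add_sub_cancel_left, abs_mul, abs_of_nonneg hc0, pow_one, pow_zero, mul_one, one_mul]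
    ring
  rw [integral_const_mul, integral_const_mul, integral_add m1 m2, e1, e2] at h2
  have hm := a2m_one
  have hm0 := a2m_nonneg 1
  have h3 : c * 2 ≤ 3 * √s := by
    rw [hc, Real.sqrt_mul (by norm_num)]
    have : √2 ≤ 3 / 2 := by
      rw [Real.sqrt_le_left (by norm_num)]
      norm_num
    nlinarith [Real.sqrt_nonneg s]
  calc |P s f x - f x| ≤ M * (c * (a2m 1 * 1 + 1 * a2m 1)) := h2
    _ ≤ M * (c * (1 * 1 + 1 * 1)) := by gcongr
    _ = (c * 2) * M := by ring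
    _ ≤ 3 * √s * M := by gcongr

end Pool.Agent.Lib.H77M
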