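import Pool.Agent.Lib.H77M.A2

/-!
# Project H77M, chunk A3: integrals over the box, integration by parts, heat equation
-/

open MeasureTheory Set ProbabilityTheory
open scoped ContDiff

namespace Pool.Agent.Lib.H77M

/-! ### Integrals over rectangles -/

theorem A3_rect {a b c d : ℝ} (hab : a ≤ b) (hcd : c ≤ d) {g : ℝ × ℝ → ℝ} (hg : Continuous g) :
    ∫ x in Icc a b ×ˢ Icc c d, g x = ∫ u in a..b, ∫ v in c..d, g (u, v) := by
  have h1 : IntegrableOn g (Icc a b ×ˢ Icc c d) ((volume : Measure ℝ).prod volume) := by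
    rw [← Measure.volume_eq_prod]
    exact hg.continuousOn.integrableOn_compact (isCompact_Icc.prod isCompact_Icc)
  rw [Measure.volume_eq_prod, setIntegral_prod _ h1, integral_Icc_eq_integral_Ioc,
    intervalIntegral.integral_of_le hab]
  refine setIntegral_congr_fun measurableSet_Ioc fun u _ => ?_
  show ∫ v in Icc c d, g (u, v) = _
  rw [integral_Icc_eq_integral_Ioc, intervalIntegral.integral_of_le hcd]

theorem A3_swap {a b c d : ℝ} (hab : a ≤ b) (hcd : c ≤ d) {g : ℝ × ℝ → ℝ} (hg : Continuous g) :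
    ∫ x in Icc a b ×ˢ Icc c d, g x = ∫ v in c..d, ∫ u in a..b, g (u, v) := by
  have h1 : ∫ x in Icc a b ×ˢ Icc c d, g x = ∫ x in Icc c d ×ˢ Icc a b, g x.swap := by
    rw [Measure.volume_eq_prod]
    exact (setIntegral_prod_swap (Icc a b) (Icc c d) g).symm
  rw [h1, A3_rect hcd hab (g := fun x => g x.swap) (hg.comp continuous_swap)]
  rfl

theorem A3_even {L : ℝ} {f : ℝ → ℝ} (hf : Continuous f) (he : ∀ x, f (-x) = f x) :
    ∫ x in -L..L, f x = 2 * ∫ x in (0 : ℝ)..L, f x := by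
  have h1 : ∫ x in (0 : ℝ)..L, f x = ∫ x in -L..0, f x := by
    have h2 := intervalIntegral.integral_comp_neg (a := 0) (b := L) f
    rw [neg_zero] at h2
    rw [← h2]
    exact intervalIntegral.integral_congr fun x _ => (he x).symm
  rw [← intervalIntegral.integral_add_adjacent_intervals (b := 0) (hf.intervalIntegrable _ _)
    (hf.intervalIntegrable _ _), ← h1]
  ring

/-- the period square -/
def A3_Q (L : ℝ) : Set (ℝ × ℝ) := Icc (-L) L ×ˢ Icc (-L) L

theorem A3_Q_eq {L : ℝ} (hL : 0 < L) {g : ℝ × ℝ → ℝ} (hg : Continuous g) :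
    ∫ x in A3_Q L, g x = ∫ u in -L..L, ∫ v in -L..L, g (u, v) :=
  A3_rect (by linarith) (by linarith) hg

theorem A3_cont {g : ℝ × ℝ → ℝ} (hg : Continuous g) (c d : ℝ) :
    Continuous fun u => ∫ v in c..d, g (u, v) :=
  intervalIntegral.continuous_parametric_intervalIntegral_of_continuous' (f := fun u v => g (u, v))
    hg c d

theorem A3_four {L : ℝ} (hL : 0 < L) {g : ℝ × ℝ → ℝ} (hg : CP L g) :
    ∫ x in A3_Q L, g x = 4 * ∫ x in box L, g x := by
  rw [A3_Q_eq hL hg.cont]
  have h1 : ∀ u, ∫ v in -L..L, g (u, v) = 2 * ∫ v in (0 : ℝ)..L, g (u, v) := fun u =>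
    A3_even (hg.cont.comp (by fun_prop : Continuous fun v : ℝ => (u, v))) fun v => hg.even2 u v
  simp only [h1]
  rw [intervalIntegral.integral_const_mul, A3_even (A3_cont hg.cont 0 L)]
  · have h2 : ∫ x in box L, g x = ∫ u in (0 : ℝ)..L, ∫ v in (0 : ℝ)..L, g (u, v) :=
      A3_rect hL.le hL.le hg.cont
    rw [h2]
    ring
  · intro u
    exact intervalIntegral.integral_congr fun v _ => hg.even1 u v

theorem A3_shift {L : ℝ} (hL : 0 < L) {g : ℝ × ℝ → ℝ} (hg : Continuous g)
    (h1 : ∀ a b, g (a + 2 * L, b) = g (a, b)) (h2 : ∀ a b, g (a, b + 2 * L) = g (a, b))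
    (v w : ℝ) : ∫ x in A3_Q L, g (x.1 + v, x.2 + w) = ∫ x in A3_Q L, g x := by
  rw [A3_Q_eq hL (g := fun x => g (x.1 + v, x.2 + w)) (hg.comp (by fun_prop)), A3_Q_eq hL hg]
  have h3 : ∀ u : ℝ, ∫ b in -L..L, g (u + v, b + w) = ∫ b in -L..L, g (u + v, b) := by
    intro u
    rw [intervalIntegral.integral_comp_add_right (fun b => g (u + v, b))]
    have hp : Function.Periodic (fun b => g (u + v, b)) (2 * L) := fun b => h2 _ b
    have := hp.intervalIntegral_add_eq (-L + w) (-L)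
    rw [show -L + w + 2 * L = L + w by ring, show -L + 2 * L = L by ring] at this
    exact this
  simp only [h3]
  rw [intervalIntegral.integral_comp_add_right (fun u => ∫ b in -L..L, g (u, b))]
  have hp : Function.Periodic (fun u => ∫ b in -L..L, g (u, b)) (2 * L) := fun u =>
    intervalIntegral.integral_congr fun b _ => h1 u b
  have := hp.intervalIntegral_add_eq (-L + v) (-L)
  rw [show -L + v + 2 * L = L + v by ring, show -L + 2 * L = L by ring] at this
  exact this

theorem A3_neg {L : ℝ} (hL : 0 < L) {g : ℝ × ℝ → ℝ} (hg : Continuous g) :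
    ∫ x in A3_Q L, g (-x.1, -x.2) = ∫ x in A3_Q L, g x := by
  rw [A3_Q_eq hL (g := fun x => g (-x.1, -x.2)) (hg.comp (by fun_prop)), A3_Q_eq hL hg]
  have h3 : ∀ u : ℝ, ∫ b in -L..L, g (-u, -b) = ∫ b in -L..L, g (-u, b) := by
    intro u
    have := intervalIntegral.integral_comp_neg (a := -L) (b := L) (fun b => g (-u, b))
    rw [neg_neg] at this
    exact this
  simp only [h3]
  have := intervalIntegral.integral_comp_neg (a := -L) (b := L)
    (fun u => ∫ b in -L..L, g (u, b))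
  rw [neg_neg] at this
  exact this

theorem A3_mul_shift {L : ℝ} (hL : 0 < L) {f g : ℝ × ℝ → ℝ} (hf : CP L f) (hg : CP L g)
    (v w : ℝ) : ∫ x in A3_Q L, f x * g (x.1 + v, x.2 + w) =
      ∫ x in A3_Q L, f (x.1 + v, x.2 + w) * g x := by
  have hcf := hf.cont
  have hcg := hg.cont
  have h1 : ∫ x in A3_Q L, f (x.1 - v, x.2 - w) * g x =
      ∫ x in A3_Q L, f x * g (x.1 + v, x.2 + w) := by
    have h2 := A3_shift hL (g := fun x => f (x.1 - v, x.2 - w) * g x) (by fun_prop)
      (fun a b => ?_) (fun a b => ?_) v w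
    · rw [← h2]
      simp only [add_sub_cancel_right]
    · show f (a + 2 * L - v, b - w) * g (a + 2 * L, b) = f (a - v, b - w) * g (a, b)
      rw [hg.per1, show a + 2 * L - v = a - v + 2 * L by ring, hf.per1]
    · show f (a - v, b + 2 * L - w) * g (a, b + 2 * L) = f (a - v, b - w) * g (a, b)
      rw [hg.per2, show b + 2 * L - w = b - w + 2 * L by ring, hf.per2]
  rw [← h1, ← A3_neg hL (g := fun x => f (x.1 - v, x.2 - w) * g x) (by fun_prop)]
  refine integral_congr_ae (ae_of_all _ fun x => ?_)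
  show f (-x.1 - v, -x.2 - w) * g (-x.1, -x.2) = f (x.1 + v, x.2 + w) * g x
  rw [hg.even1, hg.even2, show -x.1 - v = -(x.1 + v) by ring, show -x.2 - w = -(x.2 + w) by ring,
    hf.even1, hf.even2]

instance A3_inst (L : ℝ) : IsFiniteMeasure ((volume : Measure (ℝ × ℝ)).restrict (A3_Q L)) := by
  refine ⟨?_⟩
  rw [Measure.restrict_apply_univ]
  exact (isCompact_Icc.prod isCompact_Icc).measure_lt_top

instance A3_gam : IsProbabilityMeasure gam := by
  unfold gam
  infer_instance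

theorem A3_fub {L : ℝ} {f g : ℝ × ℝ → ℝ} (hf : Continuous f) (hg : Continuous g) {M N : ℝ}
    (hM : ∀ x, |f x| ≤ M) (hN : ∀ x, |g x| ≤ N) (c : ℝ) :
    ∫ x in A3_Q L, (∫ z, f x * g (x.1 + c * z.1, x.2 + c * z.2) ∂gam) =
      ∫ z, (∫ x in A3_Q L, f x * g (x.1 + c * z.1, x.2 + c * z.2)) ∂gam := by
  refine integral_integral_swap (f := fun (x z : ℝ × ℝ) =>
    f x * g (x.1 + c * z.1, x.2 + c * z.2)) ?_
  refine Integrable.of_bound (C := M * N) (Continuous.aestronglyMeasurable ?_)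
    (ae_of_all _ fun p => ?_)
  · show Continuous fun p : (ℝ × ℝ) × (ℝ × ℝ) =>
      f p.1 * g (p.1.1 + c * p.2.1, p.1.2 + c * p.2.2)
    fun_prop
  · show ‖f p.1 * g (p.1.1 + c * p.2.1, p.1.2 + c * p.2.2)‖ ≤ M * N
    rw [Real.norm_eq_abs, abs_mul]
    exact mul_le_mul (hM _) (hN _) (abs_nonneg _) ((abs_nonneg _).trans (hM 0))

/-- `P s` is symmetric. -/
theorem int_mul_P {L s : ℝ} (hL : 0 < L) (hs : 0 ≤ s) {f g : ℝ × ℝ → ℝ} (hf : CP L f) (hg : CP L g) :
    ∫ x in box L, f x * P s g x = ∫ x in box L, P s f x * g x := by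
  obtain ⟨M, -, hM⟩ := CP_bdd hL hf
  obtain ⟨N, -, hN⟩ := CP_bdd hL hg
  have h1 := A3_four hL (CP_mul hf (P_CP hL hs hg))
  have h2 := A3_four hL (CP_mul (P_CP hL hs hf) hg)
  have h3 : ∫ x in A3_Q L, f x * P s g x = ∫ x in A3_Q L, P s f x * g x := by
    have e1 : ∀ x, f x * P s g x =
        ∫ z, f x * g (x.1 + √(2 * s) * z.1, x.2 + √(2 * s) * z.2) ∂gam := by
      intro x
      rw [P, integral_const_mul]
    have e2 : ∀ x, P s f x * g x =
        ∫ z, g x * f (x.1 + √(2 * s) * z.1, x.2 + √(2 * s) * z.2) ∂gam := by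
      intro x
      rw [P, integral_const_mul, mul_comm]
    simp only [e1, e2]
    rw [A3_fub hf.cont hg.cont hM hN, A3_fub hg.cont hf.cont hN hM]
    refine integral_congr_ae (ae_of_all _ fun z => ?_)
    show ∫ x in A3_Q L, f x * g (x.1 + √(2 * s) * z.1, x.2 + √(2 * s) * z.2) =
      ∫ x in A3_Q L, g x * f (x.1 + √(2 * s) * z.1, x.2 + √(2 * s) * z.2)
    rw [A3_mul_shift hL hf hg]
    refine integral_congr_ae (ae_of_all _ fun x => ?_)
    exact mul_comm _ _
  rw [h1, h2] at h3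
  linarith

/-- `P s` preserves the integral over the box (a quarter of the integral over a period). -/
theorem int_P {L s : ℝ} (hL : 0 < L) (hs : 0 ≤ s) {f : ℝ × ℝ → ℝ} (hf : CP L f) :
    ∫ x in box L, P s f x = ∫ x in box L, f x := by
  have h1 := int_mul_P hL hs (CP_const L 1) hf
  have h2 : ∀ x, P s (fun _ => (1 : ℝ)) x = 1 := P_const s 1
  simp only [h2, one_mul] at h1
  exact h1

/-! ### Integration by parts -/

theorem A3_d1 {f : ℝ × ℝ → ℝ} (hf : Differentiable ℝ f) (a b : ℝ) :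
    HasDerivAt (fun a => f (a, b)) (D1 f (a, b)) a := by
  have h1 : HasFDerivAt f (fderiv ℝ f (a, b)) (a, b) := (hf _).hasFDerivAt
  have h2 : HasDerivAt (fun a : ℝ => (a, b)) ((1 : ℝ), (0 : ℝ)) a :=
    (hasDerivAt_id a).prodMk (hasDerivAt_const a b)
  exact h1.comp_hasDerivAt a h2

theorem A3_d2 {f : ℝ × ℝ → ℝ} (hf : Differentiable ℝ f) (a b : ℝ) :
    HasDerivAt (fun b => f (a, b)) (D2 f (a, b)) b := by
  have h1 : HasFDerivAt f (fderiv ℝ f (a, b)) (a, b) := (hf _).hasFDerivAt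
  have h2 : HasDerivAt (fun b : ℝ => (a, b)) ((0 : ℝ), (1 : ℝ)) b :=
    (hasDerivAt_const b a).prodMk (hasDerivAt_id b)
  exact h1.comp_hasDerivAt b h2

theorem A3_cD1 {f : ℝ × ℝ → ℝ} (hf : ContDiff ℝ 1 f) : Continuous (D1 f) :=
  (hf.continuous_fderiv one_ne_zero).clm_apply continuous_const

theorem A3_cD2 {f : ℝ × ℝ → ℝ} (hf : ContDiff ℝ 1 f) : Continuous (D2 f) :=
  (hf.continuous_fderiv one_ne_zero).clm_apply continuous_const

/-- Integration by parts (the normal derivative of `g` vanishes on the boundary of the box). -/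
theorem ibp {L : ℝ} (hL : 0 < L) {f g : ℝ × ℝ → ℝ} (hf : ContDiff ℝ 1 f) (hg : EP L g) :
    ∫ x in box L, (D1 f x * D1 g x + D2 f x * D2 g x) = -∫ x in box L, f x * lap g x := by
  obtain ⟨hg1, hg2, -⟩ := D_smooth hg.smooth
  have hg11 := (D_smooth hg1).1
  have hg22 := (D_smooth hg2).2.1
  have cf := hf.continuous
  have cf1 := A3_cD1 hf
  have cf2 := A3_cD2 hf
  have cg1 := hg1.continuous
  have cg2 := hg2.continuous
  have cg11 := hg11.continuous
  have cg22 := hg22.continuous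
  have df : Differentiable ℝ f := hf.differentiable one_ne_zero
  have dg1 : Differentiable ℝ (D1 g) := hg1.differentiable (by simp)
  have dg2 : Differentiable ℝ (D2 g) := hg2.differentiable (by simp)
  have k1 : ∫ x in box L, (D1 f x * D1 g x + f x * D1 (D1 g) x) = 0 := by
    unfold box
    rw [A3_swap hL.le hL.le (g := fun x => D1 f x * D1 g x + f x * D1 (D1 g) x) (by fun_prop)]
    have h0 : ∀ b : ℝ, ∫ u in (0 : ℝ)..L, (D1 f (u, b) * D1 g (u, b) +
        f (u, b) * D1 (D1 g) (u, b)) = 0 := by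
      intro b
      rw [intervalIntegral.integral_eq_sub_of_hasDerivAt (f := fun u => f (u, b) * D1 g (u, b))
        (fun u _ => (A3_d1 df u b).mul (A3_d1 dg1 u b))
        (Continuous.intervalIntegrable (by fun_prop) _ _)]
      have hp := D1_parity hg 0 b
      rw [hp.2.2.2.2.1, hp.2.2.2.2.2]
      ring
    simp only [h0, intervalIntegral.integral_zero]
  have k2 : ∫ x in box L, (D2 f x * D2 g x + f x * D2 (D2 g) x) = 0 := by
    unfold box
    rw [A3_rect hL.le hL.le (g := fun x => D2 f x * D2 g x + f x * D2 (D2 g) x) (by fun_prop)]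
    have h0 : ∀ a : ℝ, ∫ v in (0 : ℝ)..L, (D2 f (a, v) * D2 g (a, v) +
        f (a, v) * D2 (D2 g) (a, v)) = 0 := by
      intro a
      rw [intervalIntegral.integral_eq_sub_of_hasDerivAt (f := fun v => f (a, v) * D2 g (a, v))
        (fun v _ => (A3_d2 df a v).mul (A3_d2 dg2 a v))
        (Continuous.intervalIntegrable (by fun_prop) _ _)]
      have hp := D2_parity hg a 0
      rw [hp.2.2.2.2.1, hp.2.2.2.2.2]
      ring
    simp only [h0, intervalIntegral.integral_zero]
  have hint : ∀ {h : ℝ × ℝ → ℝ}, Continuous h → IntegrableOn h (box L) := fun hh =>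
    hh.continuousOn.integrableOn_compact (isCompact_Icc.prod isCompact_Icc)
  have k3 : (∫ x in box L, (D1 f x * D1 g x + D2 f x * D2 g x)) + (∫ x in box L, f x * lap g x) =
      (∫ x in box L, (D1 f x * D1 g x + f x * D1 (D1 g) x)) +
        (∫ x in box L, (D2 f x * D2 g x + f x * D2 (D2 g) x)) := by
    have cl : Continuous (lap g) := by
      show Continuous fun p => D1 (D1 g) p + D2 (D2 g) p
      exact cg11.add cg22
    rw [← integral_add (hint (by fun_prop)) (hint (by fun_prop)),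
      ← integral_add (hint (by fun_prop)) (hint (by fun_prop))]
    refine integral_congr_ae (ae_of_all _ fun x => ?_)
    simp only [lap]
    ring
  rw [k1, k2] at k3
  linarith

/-! ### The heat equation -/

theorem A3_id_int : Integrable (fun u : ℝ => u) (gaussianReal 0 1) := by
  have h := memLp_id_gaussianReal (μ := 0) (v := 1) 1
  have h2 : MemLp (fun u : ℝ => u) ((1 : NNReal) : ENNReal) (gaussianReal 0 1) := h
  rw [ENNReal.coe_one] at h2
  exact memLp_one_iff_integrable.1 h2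

theorem A3_int1 : Integrable (fun z : ℝ × ℝ => z.1) gam := by
  unfold gam
  exact A3_id_int.comp_fst _

theorem A3_int2 : Integrable (fun z : ℝ × ℝ => z.2) gam := by
  unfold gam
  exact A3_id_int.comp_snd _

theorem A3_pdf (u : ℝ) : HasDerivAt (gaussianPDFReal 0 1) (-u * gaussianPDFReal 0 1 u) u := by
  have h1 : HasDerivAt (fun u : ℝ => -(u - 0) ^ 2 / (2 * ((1 : NNReal) : ℝ))) (-u) u := by
    have h2 := (((hasDerivAt_id' u).sub_const 0).pow 2).neg.div_const (2 * ((1 : NNReal) : ℝ))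
    refine h2.congr_deriv ?_
    simp
    ring
  have h3 := h1.exp.const_mul (√(2 * Real.pi * ((1 : NNReal) : ℝ)))⁻¹
  rw [gaussianPDFReal_def]
  refine h3.congr_deriv ?_
  ring

theorem A3_pdf_mul : Integrable (fun u : ℝ => -u * gaussianPDFReal 0 1 u) := by
  have h := (integrable_mul_exp_neg_mul_sq (b := 1 / 2) (by norm_num)).const_mul
    (-(√(2 * Real.pi * ((1 : NNReal) : ℝ)))⁻¹)
  refine h.congr (ae_of_all _ fun u => ?_)
  show -(√(2 * Real.pi * ((1 : NNReal) : ℝ)))⁻¹ * (u * Real.exp (-(1 / 2) * u ^ 2)) =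
    -u * ((√(2 * Real.pi * ((1 : NNReal) : ℝ)))⁻¹ *
      Real.exp (-(u - 0) ^ 2 / (2 * ((1 : NNReal) : ℝ))))
  have : -(u - 0) ^ 2 / (2 * ((1 : NNReal) : ℝ)) = -(1 / 2) * u ^ 2 := by
    simp
    ring
  rw [this]
  ring

/-- Gaussian integration by parts in dimension one -/
theorem A3_stein {φ φ' : ℝ → ℝ} (h : ∀ u, HasDerivAt φ (φ' u) u) (hc : Continuous φ') {M N : ℝ}
    (hM : ∀ u, |φ u| ≤ M) (hN : ∀ u, |φ' u| ≤ N) :
    ∫ u, u * φ u ∂(gaussianReal 0 1) = ∫ u, φ' u ∂(gaussianReal 0 1) := by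
  have hcφ : Continuous φ := continuous_iff_continuousAt.2 fun u => (h u).continuousAt
  rw [integral_gaussianReal_eq_integral_smul one_ne_zero,
    integral_gaussianReal_eq_integral_smul one_ne_zero]
  have i1 : Integrable (gaussianPDFReal 0 1 * φ') :=
    (integrable_gaussianPDFReal 0 1).mul_bdd (c := N) hc.aestronglyMeasurable
      (ae_of_all _ fun u => hN u)
  have i2 : Integrable ((fun u : ℝ => -u * gaussianPDFReal 0 1 u) * φ) :=
    A3_pdf_mul.mul_bdd (c := M) hcφ.aestronglyMeasurable (ae_of_all _ fun u => hM u)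
  have i3 : Integrable (gaussianPDFReal 0 1 * φ) :=
    (integrable_gaussianPDFReal 0 1).mul_bdd (c := M) hcφ.aestronglyMeasurable
      (ae_of_all _ fun u => hM u)
  have k := integral_mul_deriv_eq_deriv_mul_of_integrable (u := gaussianPDFReal 0 1) (v := φ)
    (u' := fun u : ℝ => -u * gaussianPDFReal 0 1 u) (v' := φ') (fun u _ => A3_pdf u)
    (fun u _ => h u) i1 i2 i3
  simp only [smul_eq_mul]
  rw [k, ← integral_neg]
  refine integral_congr_ae (ae_of_all _ fun u => ?_)
  ring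

theorem A3_bint {φ : ℝ × ℝ → ℝ} (hc : Continuous φ) {M : ℝ} (hM : ∀ u, |φ u| ≤ M) :
    Integrable φ gam :=
  Integrable.of_bound (C := M) hc.aestronglyMeasurable (ae_of_all _ fun u => hM u)

theorem A3_stein1 {g : ℝ × ℝ → ℝ} (hg : ContDiff ℝ 1 g) {M N : ℝ} (hM : ∀ u, |g u| ≤ M)
    (hN : ∀ u, |D1 g u| ≤ N) (c : ℝ) (x : ℝ × ℝ) :
    ∫ z, z.1 * g (x.1 + c * z.1, x.2 + c * z.2) ∂gam =
      c * ∫ z, D1 g (x.1 + c * z.1, x.2 + c * z.2) ∂gam := by
  have cg := hg.continuous
  have cg1 := A3_cD1 hg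
  have dg : Differentiable ℝ g := hg.differentiable one_ne_zero
  have i1 : Integrable (fun z : ℝ × ℝ => z.1 * g (x.1 + c * z.1, x.2 + c * z.2)) gam :=
    A3_int1.mul_bdd (c := M) (Continuous.aestronglyMeasurable (by fun_prop))
      (ae_of_all _ fun z => hM _)
  have i2 : Integrable (fun z : ℝ × ℝ => c * D1 g (x.1 + c * z.1, x.2 + c * z.2)) gam :=
    (A3_bint (by fun_prop) (fun z => hN _)).const_mul c
  rw [← integral_const_mul]
  unfold gam at i1 i2 ⊢
  rw [integral_prod_symm _ i1, integral_prod_symm _ i2]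
  refine integral_congr_ae (ae_of_all _ fun v => ?_)
  show ∫ u, u * g (x.1 + c * u, x.2 + c * v) ∂(gaussianReal 0 1) =
    ∫ u, c * D1 g (x.1 + c * u, x.2 + c * v) ∂(gaussianReal 0 1)
  refine A3_stein (φ := fun u => g (x.1 + c * u, x.2 + c * v))
    (φ' := fun u => c * D1 g (x.1 + c * u, x.2 + c * v)) (fun u => ?_) (by fun_prop)
    (fun u => hM _) (N := |c| * N) (fun u => ?_)
  · have h1 : HasDerivAt (fun u : ℝ => x.1 + c * u) c u := by
      simpa using ((hasDerivAt_id u).const_mul c).const_add x.1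
    have := (A3_d1 dg (x.1 + c * u) (x.2 + c * v)).comp u h1
    refine this.congr_deriv ?_
    ring
  · rw [abs_mul]
    exact mul_le_mul_of_nonneg_left (hN _) (abs_nonneg _)

theorem A3_stein2 {g : ℝ × ℝ → ℝ} (hg : ContDiff ℝ 1 g) {M N : ℝ} (hM : ∀ u, |g u| ≤ M)
    (hN : ∀ u, |D2 g u| ≤ N) (c : ℝ) (x : ℝ × ℝ) :
    ∫ z, z.2 * g (x.1 + c * z.1, x.2 + c * z.2) ∂gam =
      c * ∫ z, D2 g (x.1 + c * z.1, x.2 + c * z.2) ∂gam := by
  have cg := hg.continuous
  have cg1 := A3_cD2 hg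
  have dg : Differentiable ℝ g := hg.differentiable one_ne_zero
  have i1 : Integrable (fun z : ℝ × ℝ => z.2 * g (x.1 + c * z.1, x.2 + c * z.2)) gam :=
    A3_int2.mul_bdd (c := M) (Continuous.aestronglyMeasurable (by fun_prop))
      (ae_of_all _ fun z => hM _)
  have i2 : Integrable (fun z : ℝ × ℝ => c * D2 g (x.1 + c * z.1, x.2 + c * z.2)) gam :=
    (A3_bint (by fun_prop) (fun z => hN _)).const_mul c
  rw [← integral_const_mul]
  unfold gam at i1 i2 ⊢
  rw [integral_prod _ i1, integral_prod _ i2]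
  refine integral_congr_ae (ae_of_all _ fun v => ?_)
  show ∫ u, u * g (x.1 + c * v, x.2 + c * u) ∂(gaussianReal 0 1) =
    ∫ u, c * D2 g (x.1 + c * v, x.2 + c * u) ∂(gaussianReal 0 1)
  refine A3_stein (φ := fun u => g (x.1 + c * v, x.2 + c * u))
    (φ' := fun u => c * D2 g (x.1 + c * v, x.2 + c * u)) (fun u => ?_) (by fun_prop)
    (fun u => hM _) (N := |c| * N) (fun u => ?_)
  · have h1 : HasDerivAt (fun u : ℝ => x.2 + c * u) c u := by
      simpa using ((hasDerivAt_id u).const_mul c).const_add x.2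
    have := (A3_d2 dg (x.1 + c * v) (x.2 + c * u)).comp u h1
    refine this.congr_deriv ?_
    ring
  · rw [abs_mul]
    exact mul_le_mul_of_nonneg_left (hN _) (abs_nonneg _)

theorem A3_sqrt {r : ℝ} (hr : 0 < r) : HasDerivAt (fun r => √(2 * r)) (1 / √(2 * r)) r := by
  have h1 : HasDerivAt (fun r : ℝ => 2 * r) 2 r := by
    simpa using (hasDerivAt_id r).const_mul 2
  have h2 := h1.sqrt (by positivity)
  refine h2.congr_deriv ?_
  have : √(2 * r) ≠ 0 := (Real.sqrt_pos.2 (by positivity)).ne'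
  field_simp

theorem A3_heat {L : ℝ} (hL : 0 < L) {h : ℝ × ℝ → ℝ} (hh : EP L h) (x : ℝ × ℝ) {r : ℝ}
    (hr : 0 < r) : HasDerivAt (fun r => P r h x) (P r (lap h) x) r := by
  obtain ⟨M0, h0, hM0⟩ := CP_bdd hL hh.toCP
  obtain ⟨hg1, hg2, -⟩ := D_smooth hh.smooth
  have hg11 := (D_smooth hg1).1
  have hg22 := (D_smooth hg2).2.1
  have dh : Differentiable ℝ h := hh.smooth.differentiable (by simp)
  have c0 := hh.cont
  have c1 := hg1.continuous
  have c2 := hg2.continuous
  have c11 := hg11.continuous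
  have c22 := hg22.continuous
  obtain ⟨M, hM, hG, hH⟩ := EP_bdd hL hh
  have hrr : 0 < √r := Real.sqrt_pos.2 hr
  have key := hasDerivAt_integral_of_dominated_loc_of_deriv_le (μ := gam) (𝕜 := ℝ)
    (F := fun r z => h (x.1 + √(2 * r) * z.1, x.2 + √(2 * r) * z.2))
    (F' := fun r z => D1 h (x.1 + √(2 * r) * z.1, x.2 + √(2 * r) * z.2) * (1 / √(2 * r) * z.1) +
      D2 h (x.1 + √(2 * r) * z.1, x.2 + √(2 * r) * z.2) * (1 / √(2 * r) * z.2))
    (bound := fun z => M * (1 / √r * |z.1|) + M * (1 / √r * |z.2|))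
    (x₀ := r) (s := Ioi (r / 2)) (Ioi_mem_nhds (by linarith)) ?_ ?_ ?_ ?_ ?_ ?_
  · have h3 := key.2
    refine h3.congr_deriv ?_
    have e1 := A3_stein1 (g := D1 h) (hg1.of_le (by simp)) (fun u => (hG u).1)
      (fun u => (hH u).1) (√(2 * r)) x
    have e2 := A3_stein2 (g := D2 h) (hg2.of_le (by simp)) (fun u => (hG u).2)
      (fun u => (hH u).2.2.2) (√(2 * r)) x
    have j1 : Integrable (fun z : ℝ × ℝ =>
        z.1 * D1 h (x.1 + √(2 * r) * z.1, x.2 + √(2 * r) * z.2)) gam :=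
      A3_int1.mul_bdd (c := M) (Continuous.aestronglyMeasurable (by fun_prop))
        (ae_of_all _ fun z => (hG _).1)
    have j2 : Integrable (fun z : ℝ × ℝ =>
        z.2 * D2 h (x.1 + √(2 * r) * z.1, x.2 + √(2 * r) * z.2)) gam :=
      A3_int2.mul_bdd (c := M) (Continuous.aestronglyMeasurable (by fun_prop))
        (ae_of_all _ fun z => (hG _).2)
    have e3 : (fun z : ℝ × ℝ =>
        D1 h (x.1 + √(2 * r) * z.1, x.2 + √(2 * r) * z.2) * (1 / √(2 * r) * z.1) +
          D2 h (x.1 + √(2 * r) * z.1, x.2 + √(2 * r) * z.2) * (1 / √(2 * r) * z.2)) =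
        fun z => 1 / √(2 * r) * (z.1 * D1 h (x.1 + √(2 * r) * z.1, x.2 + √(2 * r) * z.2)) +
          1 / √(2 * r) * (z.2 * D2 h (x.1 + √(2 * r) * z.1, x.2 + √(2 * r) * z.2)) := by
      funext z
      ring
    rw [e3, integral_add (j1.const_mul _) (j2.const_mul _), integral_const_mul,
      integral_const_mul, e1, e2]
    have hne : √(2 * r) ≠ 0 := (Real.sqrt_pos.2 (by positivity)).ne'
    rw [← mul_assoc, ← mul_assoc, one_div, inv_mul_cancel₀ hne, one_mul, one_mul, P,
      ← integral_add (A3_bint (by fun_prop) (fun z => (hH _).1))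
        (A3_bint (by fun_prop) (fun z => (hH _).2.2.2))]
    rfl
  · exact Filter.Eventually.of_forall fun r => Continuous.aestronglyMeasurable (by fun_prop)
  · exact A3_bint (by fun_prop) (fun z => hM0 _)
  · exact Continuous.aestronglyMeasurable (by fun_prop)
  · refine ae_of_all _ fun z r' hr' => ?_
    have h4 : √r ≤ √(2 * r') := Real.sqrt_le_sqrt (by
      have : r / 2 < r' := hr'
      linarith)
    have h5 : 1 / √(2 * r') ≤ 1 / √r := one_div_le_one_div_of_le hrr h4
    have h6 : 0 ≤ 1 / √(2 * r') := by positivity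
    have h7 : ∀ (a b : ℝ), |a| ≤ M → |a * (1 / √(2 * r') * b)| ≤ M * (1 / √r * |b|) := by
      intro a b ha
      rw [abs_mul, abs_mul, abs_of_nonneg h6]
      exact mul_le_mul ha (mul_le_mul_of_nonneg_right h5 (abs_nonneg _)) (by positivity) hM
    exact (norm_add_le _ _).trans (add_le_add (h7 _ _ (hG _).1) (h7 _ _ (hG _).2))
  · exact ((A3_int1.abs.const_mul _).const_mul _).add ((A3_int2.abs.const_mul _).const_mul _)
  · refine ae_of_all _ fun z r' hr' => ?_
    have hr0 : 0 < r' := by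
      have : r / 2 < r' := hr'
      linarith
    have h1 : HasFDerivAt h (fderiv ℝ h (x.1 + √(2 * r') * z.1, x.2 + √(2 * r') * z.2))
      (x.1 + √(2 * r') * z.1, x.2 + √(2 * r') * z.2) := (dh _).hasFDerivAt
    have h2 : HasDerivAt (fun r : ℝ => (x.1 + √(2 * r) * z.1, x.2 + √(2 * r) * z.2))
        (1 / √(2 * r') * z.1, 1 / √(2 * r') * z.2) r' :=
      (((A3_sqrt hr0).mul_const z.1).const_add x.1).prodMk
        (((A3_sqrt hr0).mul_const z.2).const_add x.2)
    refine (h1.comp_hasDerivAt r' h2).congr_deriv ?_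
    have h8 : ((1 / √(2 * r') * z.1, 1 / √(2 * r') * z.2) : ℝ × ℝ) =
        (1 / √(2 * r') * z.1) • ((1 : ℝ), (0 : ℝ)) + (1 / √(2 * r') * z.2) • ((0 : ℝ), (1 : ℝ)) := by
      ext <;> simp
    rw [h8, map_add, map_smul, map_smul, smul_eq_mul, smul_eq_mul, D1, D2]
    ring

/-- The heat equation, integrated. -/
theorem heat_int {L s t : ℝ} (hL : 0 < L) (hs : 0 < s) (ht : s ≤ t) {f : ℝ × ℝ → ℝ} (hf : CP L f)
    (x : ℝ × ℝ) : P t f x - P s f x = ∫ r in s..t, lap (P r f) x := by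
  have hp := P_EP hL hs hf
  have e1 : ∀ r, s ≤ r → P r f = P (r - s) (P s f) := by
    intro r hr
    rw [P_P hL (by linarith) hs.le hf, sub_add_cancel]
  have c1 : Continuous fun r : ℝ => P (r - s) (P s f) x :=
    (P_cont hL hp.toCP).comp (by fun_prop : Continuous fun r : ℝ => (r - s, x))
  have c2 : Continuous fun r : ℝ => P (r - s) (lap (P s f)) x :=
    (P_cont hL (EP_lap hp).toCP).comp (by fun_prop : Continuous fun r : ℝ => (r - s, x))
  have e2 : ∫ r in s..t, lap (P r f) x = ∫ r in s..t, P (r - s) (lap (P s f)) x := by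
    refine intervalIntegral.integral_congr fun r hr => ?_
    rw [uIcc_of_le ht] at hr
    show lap (P r f) x = P (r - s) (lap (P s f)) x
    rw [e1 r hr.1, lap_P hL (by linarith [hr.1]) hp]
  rw [e2, intervalIntegral.integral_eq_sub_of_hasDerivAt_of_le ht
    (f := fun r => P (r - s) (P s f) x) c1.continuousOn (fun r hr => ?_)
    (c2.intervalIntegrable _ _), ← e1 t ht, ← e1 s le_rfl]
  have h1 := A3_heat hL hp x (r := r - s) (by linarith [hr.1])
  exact HasDerivAt.comp_sub_const r s h1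

end Pool.Agent.Lib.H77M
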