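import Pool.Agent.Lib.H77M.A3

/-!
# Project H77M, chunk A4: time integrals of the semigroup
-/

open MeasureTheory Set ProbabilityTheory
open scoped ContDiff

namespace Pool.Agent.Lib.H77M

section a4

/-- Continuous doubly periodic functions are bounded. -/
theorem a4_bdd {E : Type*} [NormedAddCommGroup E] {L : ℝ} (hL : 0 < L) {f : ℝ × ℝ → E}
    (hf : Continuous f) (h1 : ∀ a b, f (a + 2 * L, b) = f (a, b))
    (h2 : ∀ a b, f (a, b + 2 * L) = f (a, b)) : ∃ M, 0 ≤ M ∧ ∀ x, ‖f x‖ ≤ M := by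
  have hK : IsCompact (Icc (0 : ℝ) (2 * L) ×ˢ Icc (0 : ℝ) (2 * L)) := isCompact_Icc.prod isCompact_Icc
  obtain ⟨M, hM⟩ := hK.exists_bound_of_continuousOn hf.continuousOn
  have hM0 : 0 ≤ M := (norm_nonneg _).trans (hM (0, 0) ⟨⟨le_rfl, by positivity⟩, ⟨le_rfl, by positivity⟩⟩)
  refine ⟨M, hM0, ?_⟩
  rintro ⟨a, b⟩
  have p1 : Function.Periodic (fun a => f (a, b)) (2 * L) := fun a => h1 a b
  obtain ⟨a', ha', hfa⟩ := p1.exists_mem_Ico₀ (by positivity) a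
  have p2 : Function.Periodic (fun b => f (a', b)) (2 * L) := fun b => h2 a' b
  obtain ⟨b', hb', hfb⟩ := p2.exists_mem_Ico₀ (by positivity) b
  have e1 : f (a, b) = f (a', b) := hfa
  have e2 : f (a', b) = f (a', b') := hfb
  rw [e1, e2]
  exact hM _ ⟨⟨ha'.1, ha'.2.le⟩, ⟨hb'.1, hb'.2.le⟩⟩

/-- Smooth doubly periodic functions. -/
structure a4_Per (L : ℝ) (f : ℝ × ℝ → ℝ) : Prop where
  smooth : ContDiff ℝ ∞ f
  per1 : ∀ a b, f (a + 2 * L, b) = f (a, b)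
  per2 : ∀ a b, f (a, b + 2 * L) = f (a, b)

theorem a4_per_of_EP {L : ℝ} {f : ℝ × ℝ → ℝ} (hf : EP L f) : a4_Per L f :=
  ⟨hf.smooth, hf.per1, hf.per2⟩

theorem a4_fd1 {L : ℝ} {f : ℝ × ℝ → ℝ} (hf : a4_Per L f) (a b : ℝ) :
    fderiv ℝ f (a + 2 * L, b) = fderiv ℝ f (a, b) := by
  have h : (fun x : ℝ × ℝ => f (x + (2 * L, 0))) = f := by
    funext x
    obtain ⟨c, d⟩ := x
    show f (c + 2 * L, d + 0) = f (c, d)
    rw [add_zero]; exact hf.per1 c d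
  have h2 := fderiv_comp_add_right (𝕜 := ℝ) (f := f) (x := (a, b)) (2 * L, 0)
  rw [h] at h2
  rw [h2]
  show _ = fderiv ℝ f (a + 2 * L, b + 0)
  rw [add_zero]

theorem a4_fd2 {L : ℝ} {f : ℝ × ℝ → ℝ} (hf : a4_Per L f) (a b : ℝ) :
    fderiv ℝ f (a, b + 2 * L) = fderiv ℝ f (a, b) := by
  have h : (fun x : ℝ × ℝ => f (x + (0, 2 * L))) = f := by
    funext x
    obtain ⟨c, d⟩ := x
    show f (c + 0, d + 2 * L) = f (c, d)
    rw [add_zero]; exact hf.per2 c d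
  have h2 := fderiv_comp_add_right (𝕜 := ℝ) (f := f) (x := (a, b)) (0, 2 * L)
  rw [h] at h2
  rw [h2]
  show _ = fderiv ℝ f (a + 0, b + 2 * L)
  rw [add_zero]

theorem a4_D1 {L : ℝ} {f : ℝ × ℝ → ℝ} (hf : a4_Per L f) : a4_Per L (D1 f) :=
  ⟨(D_smooth hf.smooth).1, fun a b => by unfold D1; rw [a4_fd1 hf],
    fun a b => by unfold D1; rw [a4_fd2 hf]⟩

theorem a4_D2 {L : ℝ} {f : ℝ × ℝ → ℝ} (hf : a4_Per L f) : a4_Per L (D2 f) :=
  ⟨(D_smooth hf.smooth).2.1, fun a b => by unfold D2; rw [a4_fd1 hf],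
    fun a b => by unfold D2; rw [a4_fd2 hf]⟩

/-- Averages of translates. -/
noncomputable def a4_Psi {Ω : Type*} [MeasurableSpace Ω] (μ : Measure Ω) (τ : Ω → ℝ × ℝ)
    (f : ℝ × ℝ → ℝ) (x : ℝ × ℝ) : ℝ := ∫ w, f (x + τ w) ∂μ

theorem a4_hasFDerivAt {Ω : Type*} [MeasurableSpace Ω] (μ : Measure Ω) [IsFiniteMeasure μ]
    {τ : Ω → ℝ × ℝ} (hτ : Measurable τ) {L : ℝ} (hL : 0 < L) {f : ℝ × ℝ → ℝ} (hf : a4_Per L f)
    (x : ℝ × ℝ) : HasFDerivAt (a4_Psi μ τ f) (∫ w, fderiv ℝ f (x + τ w) ∂μ) x := by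
  have hd : Continuous (fderiv ℝ f) := hf.smooth.continuous_fderiv (by simp)
  obtain ⟨M, hM0, hM⟩ := a4_bdd hL hd (a4_fd1 hf) (a4_fd2 hf)
  obtain ⟨M', hM0', hM'⟩ := a4_bdd hL hf.smooth.continuous hf.per1 hf.per2
  refine hasFDerivAt_integral_of_dominated_of_fderiv_le (bound := fun _ => M)
    (F := fun x w => f (x + τ w)) (F' := fun x w => fderiv ℝ f (x + τ w)) (s := Set.univ)
    Filter.univ_mem ?_ ?_ ?_ ?_ ?_ ?_
  · exact Filter.Eventually.of_forall fun y =>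
      (hf.smooth.continuous.measurable.comp (measurable_const.add hτ)).aestronglyMeasurable
  · refine Integrable.of_bound
      (hf.smooth.continuous.measurable.comp (measurable_const.add hτ)).aestronglyMeasurable M' ?_
    exact Filter.Eventually.of_forall fun w => hM' _
  · exact (hd.measurable.comp (measurable_const.add hτ)).aestronglyMeasurable
  · exact Filter.Eventually.of_forall fun w y _ => hM _
  · exact integrable_const _
  · refine Filter.Eventually.of_forall fun w y _ => ?_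
    have h1 : HasFDerivAt f (fderiv ℝ f (y + τ w)) (y + τ w) :=
      (hf.smooth.differentiable (by simp)).differentiableAt.hasFDerivAt
    have h2 := HasFDerivAt.comp y (g := f) h1 ((hasFDerivAt_id y).add_const (τ w))
    rw [ContinuousLinearMap.comp_id] at h2
    exact h2

theorem a4_integrable_fd {Ω : Type*} [MeasurableSpace Ω] (μ : Measure Ω) [IsFiniteMeasure μ]
    {τ : Ω → ℝ × ℝ} (hτ : Measurable τ) {L : ℝ} (hL : 0 < L) {f : ℝ × ℝ → ℝ} (hf : a4_Per L f)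
    (x : ℝ × ℝ) : Integrable (fun w => fderiv ℝ f (x + τ w)) μ := by
  have hd : Continuous (fderiv ℝ f) := hf.smooth.continuous_fderiv (by simp)
  obtain ⟨M, hM0, hM⟩ := a4_bdd hL hd (a4_fd1 hf) (a4_fd2 hf)
  exact Integrable.of_bound
    (hd.measurable.comp (measurable_const.add hτ)).aestronglyMeasurable M
    (Filter.Eventually.of_forall fun w => hM _)

theorem a4_Psi_D1 {Ω : Type*} [MeasurableSpace Ω] (μ : Measure Ω) [IsFiniteMeasure μ]
    {τ : Ω → ℝ × ℝ} (hτ : Measurable τ) {L : ℝ} (hL : 0 < L) {f : ℝ × ℝ → ℝ} (hf : a4_Per L f) :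
    D1 (a4_Psi μ τ f) = a4_Psi μ τ (D1 f) := by
  funext x
  unfold D1
  rw [(a4_hasFDerivAt μ hτ hL hf x).fderiv]
  rw [ContinuousLinearMap.integral_apply (a4_integrable_fd μ hτ hL hf x)]
  rfl

theorem a4_Psi_D2 {Ω : Type*} [MeasurableSpace Ω] (μ : Measure Ω) [IsFiniteMeasure μ]
    {τ : Ω → ℝ × ℝ} (hτ : Measurable τ) {L : ℝ} (hL : 0 < L) {f : ℝ × ℝ → ℝ} (hf : a4_Per L f) :
    D2 (a4_Psi μ τ f) = a4_Psi μ τ (D2 f) := by
  funext x
  unfold D2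
  rw [(a4_hasFDerivAt μ hτ hL hf x).fderiv]
  rw [ContinuousLinearMap.integral_apply (a4_integrable_fd μ hτ hL hf x)]
  rfl

theorem a4_fderiv_eq (f : ℝ × ℝ → ℝ) (x : ℝ × ℝ) : fderiv ℝ f x
    = D1 f x • ContinuousLinearMap.fst ℝ ℝ ℝ + D2 f x • ContinuousLinearMap.snd ℝ ℝ ℝ := by
  ext
  · simp [D1]
  · simp [D2]

theorem a4_Psi_contDiff {Ω : Type*} [MeasurableSpace Ω] (μ : Measure Ω) [IsFiniteMeasure μ]
    {τ : Ω → ℝ × ℝ} (hτ : Measurable τ) {L : ℝ} (hL : 0 < L) (n : ℕ) :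
    ∀ {f : ℝ × ℝ → ℝ}, a4_Per L f → ContDiff ℝ n (a4_Psi μ τ f) := by
  induction n with
  | zero =>
    intro f hf
    have : Differentiable ℝ (a4_Psi μ τ f) := fun x =>
      (a4_hasFDerivAt μ hτ hL hf x).differentiableAt
    exact contDiff_zero.mpr this.continuous
  | succ n ih =>
    intro f hf
    have hd : Differentiable ℝ (a4_Psi μ τ f) := fun x =>
      (a4_hasFDerivAt μ hτ hL hf x).differentiableAt
    have : ContDiff ℝ ((n : WithTop ℕ∞) + 1) (a4_Psi μ τ f) := by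
      rw [contDiff_succ_iff_fderiv]
      refine ⟨hd, by simp, ?_⟩
      have he : fderiv ℝ (a4_Psi μ τ f) = fun x =>
          a4_Psi μ τ (D1 f) x • ContinuousLinearMap.fst ℝ ℝ ℝ
            + a4_Psi μ τ (D2 f) x • ContinuousLinearMap.snd ℝ ℝ ℝ := by
        funext x
        rw [a4_fderiv_eq, a4_Psi_D1 μ hτ hL hf, a4_Psi_D2 μ hτ hL hf]
      rw [he]
      exact ((ih (a4_D1 hf)).smul contDiff_const).add ((ih (a4_D2 hf)).smul contDiff_const)
    exact_mod_cast this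

/-- the displacement of the Gaussian average at time `s` -/
noncomputable def a4_tau (s : ℝ) (z : ℝ × ℝ) : ℝ × ℝ := (√(2 * s) * z.1, √(2 * s) * z.2)

theorem a4_P_eq (s : ℝ) (f : ℝ × ℝ → ℝ) : P s f = a4_Psi gam (a4_tau s) f := by
  funext x
  rfl

theorem a4_tau_meas (s : ℝ) : Measurable (a4_tau s) := by
  unfold a4_tau
  fun_prop

instance a4_gam : IsProbabilityMeasure gam := by
  unfold gam; infer_instance

theorem a4_D1_P {L : ℝ} (hL : 0 < L) (s : ℝ) {f : ℝ × ℝ → ℝ} (hf : a4_Per L f) :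
    D1 (P s f) = P s (D1 f) := by
  rw [a4_P_eq, a4_P_eq, a4_Psi_D1 gam (a4_tau_meas s) hL hf]

theorem a4_D2_P {L : ℝ} (hL : 0 < L) (s : ℝ) {f : ℝ × ℝ → ℝ} (hf : a4_Per L f) :
    D2 (P s f) = P s (D2 f) := by
  rw [a4_P_eq, a4_P_eq, a4_Psi_D2 gam (a4_tau_meas s) hL hf]

/-- Joint continuity for bounded continuous functions. -/
theorem a4_P_cont {f : ℝ × ℝ → ℝ} (hf : Continuous f) {M : ℝ} (hM : ∀ x, ‖f x‖ ≤ M) :
    Continuous (fun v : ℝ × (ℝ × ℝ) => P v.1 f v.2) := by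
  unfold P
  refine continuous_of_dominated (bound := fun _ => M) ?_ ?_ (integrable_const _) ?_
  · intro v
    refine (hf.measurable.comp ?_).aestronglyMeasurable
    fun_prop
  · exact fun v => Filter.Eventually.of_forall fun z => hM _
  · refine Filter.Eventually.of_forall fun z => ?_
    fun_prop

theorem a4_P_cont' {L : ℝ} (hL : 0 < L) {f : ℝ × ℝ → ℝ} (hf : a4_Per L f) :
    Continuous (fun v : ℝ × (ℝ × ℝ) => P v.1 f v.2) := by
  obtain ⟨M, -, hM⟩ := a4_bdd hL hf.smooth.continuous hf.per1 hf.per2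
  exact a4_P_cont hf.smooth.continuous hM

theorem a4_split {L : ℝ} (hL : 0 < L) {g : ℝ × ℝ → ℝ} (hg : CP L g) {t0 s : ℝ} (h0 : 0 ≤ t0)
    (hs : t0 ≤ s) : P s g = P (s - t0) (P t0 g) := by
  rw [P_P hL (by linarith) h0 hg]
  congr 1
  ring

/-- Joint continuity on positive times from a formula after every small time. -/
theorem a4_contOn {L : ℝ} (hL : 0 < L) {Φ : ℝ → ℝ × ℝ → ℝ} {Ψ : ℝ → ℝ × ℝ → ℝ}
    (hΨ : ∀ t0, 0 < t0 → a4_Per L (Ψ t0))
    (h : ∀ t0, 0 < t0 → ∀ s, t0 ≤ s → Φ s = P (s - t0) (Ψ t0)) :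
    ContinuousOn (fun v : ℝ × (ℝ × ℝ) => Φ v.1 v.2) (Ioi 0 ×ˢ univ) := by
  rintro ⟨s, x⟩ ⟨hs, -⟩
  have hs' : 0 < s := hs
  have hc : Continuous (fun v : ℝ × (ℝ × ℝ) => P (v.1 - s / 2) (Ψ (s / 2)) v.2) :=
    (a4_P_cont' hL (hΨ (s / 2) (by linarith))).comp (by fun_prop : Continuous
      fun v : ℝ × (ℝ × ℝ) => (v.1 - s / 2, v.2))
  refine ContinuousAt.continuousWithinAt (hc.continuousAt.congr ?_)
  have hev : ∀ᶠ v : ℝ × (ℝ × ℝ) in nhds (s, x), s / 2 < v.1 :=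
    (continuous_fst.tendsto (s, x)).eventually (lt_mem_nhds (by show s / 2 < s; linarith))
  filter_upwards [hev] with v hv
  show P (v.1 - s / 2) (Ψ (s / 2)) v.2 = Φ v.1 v.2
  rw [h (s / 2) (by linarith) v.1 hv.le]

end a4

/-- Time integrals of the semigroup: `h = ∫_t^T P_s g ds` is `EP`, `Δ h = P_T g - P_t g`, and one
may differentiate under the integral sign. -/
theorem timeint {L t T : ℝ} (hL : 0 < L) (ht : 0 < t) (htT : t ≤ T) {g : ℝ × ℝ → ℝ} (hg : CP L g) :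
    EP L (fun x => ∫ s in t..T, P s g x) ∧
    (∀ x, lap (fun x => ∫ s in t..T, P s g x) x = P T g x - P t g x) ∧
    (∀ x, D1 (fun x => ∫ s in t..T, P s g x) x = ∫ s in t..T, D1 (P s g) x) ∧
    (∀ x, D2 (fun x => ∫ s in t..T, P s g x) x = ∫ s in t..T, D2 (P s g) x) ∧
    (∀ x, D1 (D1 (fun x => ∫ s in t..T, P s g x)) x = ∫ s in t..T, D1 (D1 (P s g)) x) ∧
    (∀ x, D1 (D2 (fun x => ∫ s in t..T, P s g x)) x = ∫ s in t..T, D1 (D2 (P s g)) x) ∧
    (∀ x, D2 (D1 (fun x => ∫ s in t..T, P s g x)) x = ∫ s in t..T, D2 (D1 (P s g)) x) ∧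
    (∀ x, D2 (D2 (fun x => ∫ s in t..T, P s g x)) x = ∫ s in t..T, D2 (D2 (P s g)) x) := by
  have hg0 : a4_Per L (P (t / 2) g) := a4_per_of_EP (P_EP hL (by linarith) hg)
  set g0 := P (t / 2) g with hg0def
  have hsp : ∀ s ∈ Set.uIcc t T, P s g = P (s - t / 2) g0 := by
    intro s hs
    rw [Set.uIcc_of_le htT] at hs
    exact a4_split hL hg (by linarith) (by linarith [hs.1])
  -- the measure and the displacement
  obtain ⟨ν, hν⟩ : ∃ ν : Measure (ℝ × (ℝ × ℝ)), ν = ((volume : Measure ℝ).restrict (Ioc t T)).prod gam :=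
    ⟨_, rfl⟩
  have : IsFiniteMeasure ν := by rw [hν]; infer_instance
  obtain ⟨τ, hτ⟩ : ∃ τ : ℝ × (ℝ × ℝ) → ℝ × ℝ, τ = fun w => a4_tau (w.1 - t / 2) w.2 := ⟨_, rfl⟩
  have hτm : Measurable τ := by
    rw [hτ]; unfold a4_tau; fun_prop
  -- Fubini
  have key : ∀ {f : ℝ × ℝ → ℝ}, a4_Per L f →
      (fun x => ∫ s in t..T, P (s - t / 2) f x) = a4_Psi ν τ f := by
    intro f hf
    funext x
    obtain ⟨M, -, hM⟩ := a4_bdd hL hf.smooth.continuous hf.per1 hf.per2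
    rw [intervalIntegral.integral_of_le htT]
    unfold a4_Psi
    rw [hν, MeasureTheory.integral_prod]
    · rw [hτ]; rfl
    · rw [← hν]
      exact Integrable.of_bound
        (hf.smooth.continuous.measurable.comp (measurable_const.add hτm)).aestronglyMeasurable M
        (Filter.Eventually.of_forall fun w => hM _)
  have hI : ∀ {f : ℝ × ℝ → ℝ}, a4_Per L f → ∀ x,
      IntervalIntegrable (fun s => P (s - t / 2) f x) volume t T := by
    intro f hf x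
    apply Continuous.intervalIntegrable
    exact (a4_P_cont' hL hf).comp (by fun_prop : Continuous fun s : ℝ => (s - t / 2, x))
  have hh : (fun x => ∫ s in t..T, P s g x) = a4_Psi ν τ g0 := by
    rw [← key hg0]
    funext x
    refine intervalIntegral.integral_congr fun s hs => ?_
    show P s g x = P (s - t / 2) g0 x
    rw [hsp s hs]
  have d1 : ∀ s ∈ Set.uIcc t T, D1 (P s g) = P (s - t / 2) (D1 g0) := fun s hs => by
    rw [hsp s hs, a4_D1_P hL _ hg0]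
  have d2 : ∀ s ∈ Set.uIcc t T, D2 (P s g) = P (s - t / 2) (D2 g0) := fun s hs => by
    rw [hsp s hs, a4_D2_P hL _ hg0]
  have e1 : ∀ x, D1 (fun x => ∫ s in t..T, P s g x) x = ∫ s in t..T, D1 (P s g) x := by
    intro x
    rw [hh, a4_Psi_D1 ν hτm hL hg0, ← key (a4_D1 hg0)]
    exact intervalIntegral.integral_congr fun s hs => by
      show P (s - t / 2) (D1 g0) x = D1 (P s g) x
      rw [d1 s hs]
  have e2 : ∀ x, D2 (fun x => ∫ s in t..T, P s g x) x = ∫ s in t..T, D2 (P s g) x := by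
    intro x
    rw [hh, a4_Psi_D2 ν hτm hL hg0, ← key (a4_D2 hg0)]
    exact intervalIntegral.integral_congr fun s hs => by
      show P (s - t / 2) (D2 g0) x = D2 (P s g) x
      rw [d2 s hs]
  have e11 : ∀ x, D1 (D1 (fun x => ∫ s in t..T, P s g x)) x = ∫ s in t..T, D1 (D1 (P s g)) x := by
    intro x
    rw [hh, a4_Psi_D1 ν hτm hL hg0, a4_Psi_D1 ν hτm hL (a4_D1 hg0), ← key (a4_D1 (a4_D1 hg0))]
    exact intervalIntegral.integral_congr fun s hs => by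
      show P (s - t / 2) (D1 (D1 g0)) x = D1 (D1 (P s g)) x
      rw [d1 s hs, a4_D1_P hL _ (a4_D1 hg0)]
  have e12 : ∀ x, D1 (D2 (fun x => ∫ s in t..T, P s g x)) x = ∫ s in t..T, D1 (D2 (P s g)) x := by
    intro x
    rw [hh, a4_Psi_D2 ν hτm hL hg0, a4_Psi_D1 ν hτm hL (a4_D2 hg0), ← key (a4_D1 (a4_D2 hg0))]
    exact intervalIntegral.integral_congr fun s hs => by
      show P (s - t / 2) (D1 (D2 g0)) x = D1 (D2 (P s g)) x
      rw [d2 s hs, a4_D1_P hL _ (a4_D2 hg0)]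
  have e21 : ∀ x, D2 (D1 (fun x => ∫ s in t..T, P s g x)) x = ∫ s in t..T, D2 (D1 (P s g)) x := by
    intro x
    rw [hh, a4_Psi_D1 ν hτm hL hg0, a4_Psi_D2 ν hτm hL (a4_D1 hg0), ← key (a4_D2 (a4_D1 hg0))]
    exact intervalIntegral.integral_congr fun s hs => by
      show P (s - t / 2) (D2 (D1 g0)) x = D2 (D1 (P s g)) x
      rw [d1 s hs, a4_D2_P hL _ (a4_D1 hg0)]
  have e22 : ∀ x, D2 (D2 (fun x => ∫ s in t..T, P s g x)) x = ∫ s in t..T, D2 (D2 (P s g)) x := by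
    intro x
    rw [hh, a4_Psi_D2 ν hτm hL hg0, a4_Psi_D2 ν hτm hL (a4_D2 hg0), ← key (a4_D2 (a4_D2 hg0))]
    exact intervalIntegral.integral_congr fun s hs => by
      show P (s - t / 2) (D2 (D2 g0)) x = D2 (D2 (P s g)) x
      rw [d2 s hs, a4_D2_P hL _ (a4_D2 hg0)]
  refine ⟨?_, ?_, e1, e2, e11, e12, e21, e22⟩
  · have hcp : ∀ s ∈ Set.uIcc t T, CP L (P s g) := fun s hs => by
      rw [Set.uIcc_of_le htT] at hs
      exact P_CP hL (by linarith [hs.1]) hg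
    have hsm : ContDiff ℝ ∞ (fun x => ∫ s in t..T, P s g x) := by
      rw [hh]
      exact contDiff_infty.mpr fun n => a4_Psi_contDiff ν hτm hL n hg0
    exact {
      cont := hsm.continuous
      even1 := fun a b => intervalIntegral.integral_congr fun s hs => (hcp s hs).even1 a b
      even2 := fun a b => intervalIntegral.integral_congr fun s hs => (hcp s hs).even2 a b
      per1 := fun a b => intervalIntegral.integral_congr fun s hs => (hcp s hs).per1 a b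
      per2 := fun a b => intervalIntegral.integral_congr fun s hs => (hcp s hs).per2 a b
      smooth := hsm }
  · intro x
    rw [heat_int hL ht htT hg x]
    unfold lap
    rw [e11, e22, ← intervalIntegral.integral_add]
    · refine (hI (a4_D1 (a4_D1 hg0)) x).congr ?_
      intro s hs
      show P (s - t / 2) (D1 (D1 g0)) x = D1 (D1 (P s g)) x
      rw [d1 s (Set.uIoc_subset_uIcc hs), a4_D1_P hL _ (a4_D1 hg0)]
    · refine (hI (a4_D2 (a4_D2 hg0)) x).congr ?_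
      intro s hs
      show P (s - t / 2) (D2 (D2 g0)) x = D2 (D2 (P s g)) x
      rw [d2 s (Set.uIoc_subset_uIcc hs), a4_D2_P hL _ (a4_D2 hg0)]

/-- joint continuity of the derivatives in time and space -/
theorem DP_cont {L : ℝ} (hL : 0 < L) {g : ℝ × ℝ → ℝ} (hg : CP L g) :
    ContinuousOn (fun v : ℝ × (ℝ × ℝ) => D1 (P v.1 g) v.2) (Ioi 0 ×ˢ univ) ∧
    ContinuousOn (fun v : ℝ × (ℝ × ℝ) => D2 (P v.1 g) v.2) (Ioi 0 ×ˢ univ) ∧
    ContinuousOn (fun v : ℝ × (ℝ × ℝ) => D1 (D1 (P v.1 g)) v.2) (Ioi 0 ×ˢ univ) ∧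
    ContinuousOn (fun v : ℝ × (ℝ × ℝ) => D1 (D2 (P v.1 g)) v.2) (Ioi 0 ×ˢ univ) ∧
    ContinuousOn (fun v : ℝ × (ℝ × ℝ) => D2 (D1 (P v.1 g)) v.2) (Ioi 0 ×ˢ univ) ∧
    ContinuousOn (fun v : ℝ × (ℝ × ℝ) => D2 (D2 (P v.1 g)) v.2) (Ioi 0 ×ˢ univ) := by
  have hg0 : ∀ t0, 0 < t0 → a4_Per L (P t0 g) := fun t0 h0 => a4_per_of_EP (P_EP hL h0 hg)
  have hs : ∀ t0, 0 < t0 → ∀ s, t0 ≤ s → P s g = P (s - t0) (P t0 g) := fun t0 h0 s h1 =>
    a4_split hL hg h0.le h1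
  have d1 : ∀ t0, 0 < t0 → ∀ s, t0 ≤ s → D1 (P s g) = P (s - t0) (D1 (P t0 g)) :=
    fun t0 h0 s h1 => by rw [hs t0 h0 s h1, a4_D1_P hL _ (hg0 t0 h0)]
  have d2 : ∀ t0, 0 < t0 → ∀ s, t0 ≤ s → D2 (P s g) = P (s - t0) (D2 (P t0 g)) :=
    fun t0 h0 s h1 => by rw [hs t0 h0 s h1, a4_D2_P hL _ (hg0 t0 h0)]
  refine ⟨a4_contOn (Φ := fun s => D1 (P s g)) hL (fun t0 h0 => a4_D1 (hg0 t0 h0)) d1,
    a4_contOn (Φ := fun s => D2 (P s g)) hL (fun t0 h0 => a4_D2 (hg0 t0 h0)) d2,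
    a4_contOn (Φ := fun s => D1 (D1 (P s g))) hL (fun t0 h0 => a4_D1 (a4_D1 (hg0 t0 h0))) ?_,
    a4_contOn (Φ := fun s => D1 (D2 (P s g))) hL (fun t0 h0 => a4_D1 (a4_D2 (hg0 t0 h0))) ?_,
    a4_contOn (Φ := fun s => D2 (D1 (P s g))) hL (fun t0 h0 => a4_D2 (a4_D1 (hg0 t0 h0))) ?_,
    a4_contOn (Φ := fun s => D2 (D2 (P s g))) hL (fun t0 h0 => a4_D2 (a4_D2 (hg0 t0 h0))) ?_⟩
  · exact fun t0 h0 s h1 => by rw [d1 t0 h0 s h1, a4_D1_P hL _ (a4_D1 (hg0 t0 h0))]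
  · exact fun t0 h0 s h1 => by rw [d2 t0 h0 s h1, a4_D1_P hL _ (a4_D2 (hg0 t0 h0))]
  · exact fun t0 h0 s h1 => by rw [d1 t0 h0 s h1, a4_D2_P hL _ (a4_D1 (hg0 t0 h0))]
  · exact fun t0 h0 s h1 => by rw [d2 t0 h0 s h1, a4_D2_P hL _ (a4_D2 (hg0 t0 h0))]

end Pool.Agent.Lib.H77M
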