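import Pool.Agent.Lib.H77M.A3

/-!
# Project H77M, chunk A5: the kernel
-/

open MeasureTheory Set ProbabilityTheory HurwitzZeta
open scoped ContDiff Real

namespace Pool.Agent.Lib.H77M

/-- one dimensional periodised kernel -/
noncomputable def a5_Q (L s u : ℝ) : ℝ := ∑' m : ℤ, G s (u + 2 * m * L)

theorem a5_G_pos {s : ℝ} (hs : 0 < s) (u : ℝ) : 0 < G s u := by
  unfold G
  have := Real.pi_pos
  positivity

theorem a5_G_neg (s u : ℝ) : G s (-u) = G s u := by
  unfold G
  rw [neg_sq]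

theorem a5_G_eq {L s : ℝ} (hL : 0 < L) (hs : 0 < s) (u : ℝ) (m : ℤ) :
    G s (u + 2 * m * L) =
      Real.exp (-π * ((m : ℝ) + u / (2 * L)) ^ 2 * (L ^ 2 / (π * s))) / √(4 * π * s) := by
  unfold G
  congr 2
  have := Real.pi_pos
  field_simp
  ring

theorem a5_hasSum' {L s : ℝ} (hL : 0 < L) (hs : 0 < s) (u : ℝ) :
    HasSum (fun m : ℤ => G s (u + 2 * m * L))
      (evenKernel (u / (2 * L) : ℝ) (L ^ 2 / (π * s)) / √(4 * π * s)) := by
  have := Real.pi_pos
  have h := hasSum_int_evenKernel (u / (2 * L)) (t := L ^ 2 / (π * s)) (by positivity)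
  have h2 := h.div_const (√(4 * π * s))
  simpa only [a5_G_eq hL hs] using h2

theorem a5_summable {L s : ℝ} (hL : 0 < L) (hs : 0 < s) (u : ℝ) :
    Summable (fun m : ℤ => G s (u + 2 * m * L)) := (a5_hasSum' hL hs u).summable

theorem a5_hasSum {L s : ℝ} (hL : 0 < L) (hs : 0 < s) (u : ℝ) :
    HasSum (fun m : ℤ => G s (u + 2 * m * L)) (a5_Q L s u) := (a5_summable hL hs u).hasSum

theorem a5_Q_eq {L s : ℝ} (hL : 0 < L) (hs : 0 < s) (u : ℝ) :
    a5_Q L s u = evenKernel (u / (2 * L) : ℝ) (L ^ 2 / (π * s)) / √(4 * π * s) :=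
  (a5_hasSum' hL hs u).tsum_eq

theorem a5_Q_cos {L s : ℝ} (hL : 0 < L) (hs : 0 < s) (u : ℝ) :
    a5_Q L s u = cosKernel (u / (2 * L) : ℝ) (π * s / L ^ 2) / (2 * L) := by
  have hp := Real.pi_pos
  rw [a5_Q_eq hL hs, evenKernel_functional_equation]
  have h1 : (1 : ℝ) / (L ^ 2 / (π * s)) = π * s / L ^ 2 := by field_simp
  rw [h1, ← Real.sqrt_eq_rpow, Real.sqrt_div (by positivity), Real.sqrt_sq hL.le]
  have h2 : √(4 * π * s) = 2 * √(π * s) := by
    rw [mul_assoc, Real.sqrt_mul (by norm_num)]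
    congr 1
    rw [show (4 : ℝ) = 2 ^ 2 by norm_num, Real.sqrt_sq (by norm_num)]
  rw [h2]
  have h3 : √(π * s) ≠ 0 := by positivity
  field_simp

theorem a5_Q_pos {L s : ℝ} (hL : 0 < L) (hs : 0 < s) (u : ℝ) : 0 < a5_Q L s u :=
  (a5_summable hL hs u).tsum_pos (fun _ => (a5_G_pos hs _).le) 0 (a5_G_pos hs _)

theorem a5_Q_neg {L s : ℝ} (hL : 0 < L) (hs : 0 < s) (u : ℝ) : a5_Q L s (-u) = a5_Q L s u := by
  rw [a5_Q_eq hL hs, a5_Q_eq hL hs, neg_div, AddCircle.coe_neg, evenKernel_neg]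

theorem a5_Q_per {L s : ℝ} (hL : 0 < L) (hs : 0 < s) (u : ℝ) :
    a5_Q L s (u + 2 * L) = a5_Q L s u := by
  rw [a5_Q_eq hL hs, a5_Q_eq hL hs]
  have : (u + 2 * L) / (2 * L) = u / (2 * L) + 1 := by field_simp
  rw [this, AddCircle.coe_add, AddCircle.coe_period, add_zero]

theorem a5_q_eq {L s : ℝ} (hL : 0 < L) (hs : 0 < s) (a b : ℝ) :
    q L s a b = a5_Q L s (b - a) + a5_Q L s (b + a) :=
  (a5_summable hL hs (b - a)).tsum_add (a5_summable hL hs (b + a))

theorem a5_q_pos {L s : ℝ} (hL : 0 < L) (hs : 0 < s) (a b : ℝ) : 0 < q L s a b := by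
  rw [a5_q_eq hL hs]
  exact add_pos (a5_Q_pos hL hs _) (a5_Q_pos hL hs _)

theorem p_pos {L s : ℝ} (hL : 0 < L) (hs : 0 < s) (x y : ℝ × ℝ) : 0 < p L s x y :=
  mul_pos (a5_q_pos hL hs _ _) (a5_q_pos hL hs _ _)

theorem a5_q_symm {L s : ℝ} (hL : 0 < L) (hs : 0 < s) (a b : ℝ) : q L s a b = q L s b a := by
  rw [a5_q_eq hL hs, a5_q_eq hL hs, ← a5_Q_neg hL hs (b - a), neg_sub, add_comm b a]

theorem p_symm {L s : ℝ} (hL : 0 < L) (hs : 0 < s) (x y : ℝ × ℝ) : p L s x y = p L s y x := by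
  unfold p
  rw [a5_q_symm hL hs, a5_q_symm hL hs x.2]

theorem a5_q_neg {L s : ℝ} (hL : 0 < L) (hs : 0 < s) (a b : ℝ) : q L s a (-b) = q L s a b := by
  rw [a5_q_eq hL hs, a5_q_eq hL hs, ← a5_Q_neg hL hs (b - a), ← a5_Q_neg hL hs (b + a), add_comm]
  congr 2 <;> ring

theorem a5_q_per {L s : ℝ} (hL : 0 < L) (hs : 0 < s) (a b : ℝ) :
    q L s a (b + 2 * L) = q L s a b := by
  rw [a5_q_eq hL hs, a5_q_eq hL hs, ← a5_Q_per hL hs (b - a), ← a5_Q_per hL hs (b + a)]
  congr 2 <;> ring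

/-- joint continuity of the periodised kernel -/
theorem a5_Q_cont {L : ℝ} (hL : 0 < L) :
    ContinuousOn (fun v : ℝ × ℝ => a5_Q L v.1 v.2) (Ioi 0 ×ˢ univ) := by
  have hp := Real.pi_pos
  have h1 : ∀ v ∈ (Ioi (0 : ℝ) ×ˢ (univ : Set ℝ)), a5_Q L v.1 v.2 =
      Real.exp (-π * (v.2 / (2 * L)) ^ 2 * (L ^ 2 / (π * v.1))) *
        (jacobiTheta₂ (((v.2 / (2 * L) : ℝ) : ℂ) * Complex.I * ((L ^ 2 / (π * v.1) : ℝ) : ℂ))
          (Complex.I * ((L ^ 2 / (π * v.1) : ℝ) : ℂ))).re / √(4 * π * v.1) := by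
    intro v hv
    rw [a5_Q_eq hL hv.1]
    congr 1
    have h := evenKernel_def (v.2 / (2 * L)) (L ^ 2 / (π * v.1))
    have h2 := congrArg Complex.re h
    rw [Complex.ofReal_re] at h2
    rw [h2]
    have h3 : Complex.exp (-π * ((v.2 / (2 * L) : ℝ) : ℂ) ^ 2 * ((L ^ 2 / (π * v.1) : ℝ) : ℂ)) =
        ((Real.exp (-π * (v.2 / (2 * L)) ^ 2 * (L ^ 2 / (π * v.1))) : ℝ) : ℂ) := by
      push_cast
      rfl
    rw [h3, Complex.re_ofReal_mul]
  refine ContinuousOn.congr ?_ h1
  intro v hv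
  have hv1 : 0 < v.1 := hv.1
  apply ContinuousAt.continuousWithinAt
  have hc : ContinuousAt (fun v : ℝ × ℝ => L ^ 2 / (π * v.1)) v := by
    apply ContinuousAt.div continuousAt_const
    · fun_prop
    · positivity
  have hd : ContinuousAt (fun v : ℝ × ℝ => v.2 / (2 * L)) v := by fun_prop
  apply ContinuousAt.div
  · apply ContinuousAt.mul
    · apply Real.continuous_exp.continuousAt.comp
      exact (continuousAt_const.mul (hd.pow 2)).mul hc
    · apply Complex.continuous_re.continuousAt.comp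
      have hj := continuousAt_jacobiTheta₂ (((v.2 / (2 * L) : ℝ) : ℂ) * Complex.I *
        ((L ^ 2 / (π * v.1) : ℝ) : ℂ)) (τ := Complex.I * ((L ^ 2 / (π * v.1) : ℝ) : ℂ)) (by
          rw [Complex.I_mul_im, Complex.ofReal_re]
          positivity)
      have hc' : ContinuousAt (fun v : ℝ × ℝ => ((L ^ 2 / (π * v.1) : ℝ) : ℂ)) v :=
        Complex.continuous_ofReal.continuousAt.comp hc
      have hd' : ContinuousAt (fun v : ℝ × ℝ => ((v.2 / (2 * L) : ℝ) : ℂ)) v :=
        Complex.continuous_ofReal.continuousAt.comp hd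
      exact ContinuousAt.comp (f := fun v : ℝ × ℝ =>
        ((((v.2 / (2 * L) : ℝ) : ℂ) * Complex.I * ((L ^ 2 / (π * v.1) : ℝ) : ℂ),
          Complex.I * ((L ^ 2 / (π * v.1) : ℝ) : ℂ)) : ℂ × ℂ)) hj
        (((hd'.mul continuousAt_const).mul hc').prodMk (continuousAt_const.mul hc'))
  · exact Real.continuous_sqrt.continuousAt.comp (continuousAt_const.mul continuousAt_fst)
  · positivity

theorem a5_Q_cont2 {L s : ℝ} (hL : 0 < L) (hs : 0 < s) : Continuous (a5_Q L s) := by
  have h := (a5_Q_cont hL).comp_continuous (f := fun u : ℝ => (s, u)) (by fun_prop)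
    (fun u => ⟨hs, mem_univ _⟩)
  exact h

/-- joint continuity in space and time -/
theorem p_cont {L : ℝ} (hL : 0 < L) :
    ContinuousOn (fun v : ℝ × (ℝ × ℝ) × (ℝ × ℝ) => p L v.1 v.2.1 v.2.2) (Ioi 0 ×ˢ univ) := by
  have h0 : ∀ g : ℝ × (ℝ × ℝ) × (ℝ × ℝ) → ℝ, Continuous g →
      ContinuousOn (fun v : ℝ × (ℝ × ℝ) × (ℝ × ℝ) => a5_Q L v.1 (g v)) (Ioi 0 ×ˢ univ) := by
    intro g hg
    have h1 := (a5_Q_cont hL).comp (t := Ioi 0 ×ˢ univ) (s := Ioi 0 ×ˢ univ)
      (f := fun v : ℝ × (ℝ × ℝ) × (ℝ × ℝ) => ((v.1, g v) : ℝ × ℝ)) (by fun_prop)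
      (fun v hv => ⟨hv.1, mem_univ _⟩)
    exact h1
  have h2 : ∀ v ∈ (Ioi (0 : ℝ) ×ˢ (univ : Set ((ℝ × ℝ) × (ℝ × ℝ)))), p L v.1 v.2.1 v.2.2 =
      (a5_Q L v.1 (v.2.2.1 - v.2.1.1) + a5_Q L v.1 (v.2.2.1 + v.2.1.1)) *
        (a5_Q L v.1 (v.2.2.2 - v.2.1.2) + a5_Q L v.1 (v.2.2.2 + v.2.1.2)) := by
    intro v hv
    unfold p
    rw [a5_q_eq hL hv.1, a5_q_eq hL hv.1]
  refine ContinuousOn.congr ?_ h2
  exact ((h0 _ (by fun_prop)).add (h0 _ (by fun_prop))).mul
    ((h0 _ (by fun_prop)).add (h0 _ (by fun_prop)))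

theorem a5_q_cont {L s : ℝ} (hL : 0 < L) (hs : 0 < s) (a : ℝ) : Continuous (q L s a) := by
  have h : q L s a = fun b => a5_Q L s (b - a) + a5_Q L s (b + a) := funext (a5_q_eq hL hs a)
  rw [h]
  exact ((a5_Q_cont2 hL hs).comp (by fun_prop)).add ((a5_Q_cont2 hL hs).comp (by fun_prop))

theorem a5_p_CP {L s : ℝ} (hL : 0 < L) (hs : 0 < s) (x : ℝ × ℝ) : CP L (p L s x) where
  cont := by
    unfold p
    exact ((a5_q_cont hL hs _).comp continuous_fst).mul ((a5_q_cont hL hs _).comp continuous_snd)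
  even1 a b := by simp only [p, a5_q_neg hL hs]
  even2 a b := by simp only [p, a5_q_neg hL hs]
  per1 a b := by simp only [p, a5_q_per hL hs]
  per2 a b := by simp only [p, a5_q_per hL hs]

/-! ### Gaussian integrals -/

theorem a5_G_cont (s : ℝ) : Continuous (G s) := by
  unfold G
  fun_prop

theorem a5_G_le {s : ℝ} (hs : 0 < s) (u : ℝ) : G s u ≤ 1 / √(4 * π * s) := by
  unfold G
  have hp := Real.pi_pos
  apply div_le_div_of_nonneg_right _ (by positivity)
  rw [Real.exp_le_one_iff]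
  have : 0 ≤ u ^ 2 / (4 * s) := by positivity
  have h2 : -u ^ 2 / (4 * s) = -(u ^ 2 / (4 * s)) := by ring
  linarith

theorem a5_bdd_int {f : ℝ → ℝ} (hf : Measurable f) {M : ℝ} (hM : ∀ x, |f x| ≤ M) :
    Integrable f (gaussianReal 0 1) :=
  Integrable.of_bound hf.aestronglyMeasurable M (Filter.Eventually.of_forall hM)

/-- Gaussian convolution -/
theorem a5_G_conv {s r : ℝ} (hs : 0 < s) (hr : 0 ≤ r) (u : ℝ) :
    ∫ z, G s (u + √(2 * r) * z) ∂(gaussianReal 0 1) = G (s + r) u := by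
  have hp := Real.pi_pos
  have hsr : 0 < s + r := by linarith
  rw [integral_gaussianReal_eq_integral_smul (by norm_num)]
  have h1 : ∀ z : ℝ, gaussianPDFReal 0 1 z • G s (u + √(2 * r) * z) =
      (Real.exp (-u ^ 2 / (4 * (s + r))) / (√(4 * π * s) * √(2 * π))) *
        Real.exp (-((s + r) / (2 * s)) * (z + u * √(2 * r) / (2 * (s + r))) ^ 2) := by
    intro z
    have hr2 : √(2 * r) ^ 2 = 2 * r := Real.sq_sqrt (by positivity)
    have he : Real.exp (-z ^ 2 / 2) * Real.exp (-(u + √(2 * r) * z) ^ 2 / (4 * s)) =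
        Real.exp (-u ^ 2 / (4 * (s + r))) *
          Real.exp (-((s + r) / (2 * s)) * (z + u * √(2 * r) / (2 * (s + r))) ^ 2) := by
      rw [← Real.exp_add, ← Real.exp_add]
      congr 1
      generalize √(2 * r) = w at hr2 ⊢
      have hr3 : r = w ^ 2 / 2 := by linarith
      subst hr3
      field_simp
      ring
    simp only [gaussianPDFReal, G, smul_eq_mul, NNReal.coe_one, mul_one, sub_zero]
    calc (√(2 * π))⁻¹ * Real.exp (-z ^ 2 / 2) *
          (Real.exp (-(u + √(2 * r) * z) ^ 2 / (4 * s)) / √(4 * π * s))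
        = (Real.exp (-z ^ 2 / 2) * Real.exp (-(u + √(2 * r) * z) ^ 2 / (4 * s))) /
            (√(4 * π * s) * √(2 * π)) := by
          field_simp
      _ = _ := by
          rw [he]
          ring
  simp_rw [h1]
  rw [integral_const_mul,
    integral_add_right_eq_self (μ := volume)
      (fun z : ℝ => Real.exp (-((s + r) / (2 * s)) * z ^ 2)) (u * √(2 * r) / (2 * (s + r))),
    integral_gaussian]
  unfold G
  have e1 : √(π / ((s + r) / (2 * s))) = √(π * s) * √2 / √(s + r) := by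
    rw [← Real.sqrt_mul (by positivity), ← Real.sqrt_div (by positivity)]
    congr 1
    field_simp
  have e2 : √(4 * π * s) = 2 * √(π * s) := by
    rw [mul_assoc, Real.sqrt_mul (by norm_num)]
    congr 1
    rw [show (4 : ℝ) = 2 ^ 2 by norm_num, Real.sqrt_sq (by norm_num)]
  have e3 : √(4 * π * (s + r)) = 2 * √π * √(s + r) := by
    rw [Real.sqrt_mul (by positivity), Real.sqrt_mul (by norm_num)]
    congr 2
    rw [show (4 : ℝ) = 2 ^ 2 by norm_num, Real.sqrt_sq (by norm_num)]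
  have e4 : √(2 * π) = √2 * √π := Real.sqrt_mul (by norm_num) _
  rw [e1, e2, e3, e4]
  have p1 : 0 < √(π * s) := by positivity
  have p2 : 0 < √(s + r) := by positivity
  have p3 : 0 < √π := by positivity
  have p4 : (0 : ℝ) < √2 := by positivity
  field_simp

theorem a5_G_integrable {s : ℝ} (hs : 0 < s) (r u : ℝ) :
    Integrable (fun z => G s (u + √(2 * r) * z)) (gaussianReal 0 1) := by
  apply a5_bdd_int (M := 1 / √(4 * π * s))
  · exact ((a5_G_cont s).comp (by fun_prop)).measurable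
  · intro z
    rw [abs_of_pos (a5_G_pos hs _)]
    exact a5_G_le hs _

theorem a5_Q_conv {L s r : ℝ} (hL : 0 < L) (hs : 0 < s) (hr : 0 ≤ r) (u : ℝ) :
    ∫ z, a5_Q L s (u + √(2 * r) * z) ∂(gaussianReal 0 1) = a5_Q L (s + r) u := by
  have hsr : 0 < s + r := by linarith
  have e : ∀ (m : ℤ) (z : ℝ), G s ((u + √(2 * r) * z) + 2 * m * L) =
      G s ((u + 2 * m * L) + √(2 * r) * z) := by
    intro m z
    congr 1
    ring
  have h2 : ∀ m : ℤ, ∫ z, G s ((u + √(2 * r) * z) + 2 * m * L) ∂(gaussianReal 0 1) =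
      G (s + r) (u + 2 * m * L) := by
    intro m
    simp_rw [e m]
    exact a5_G_conv hs hr _
  have h := hasSum_integral_of_summable_integral_norm (μ := gaussianReal 0 1)
    (F := fun (m : ℤ) (z : ℝ) => G s ((u + √(2 * r) * z) + 2 * m * L)) ?_ ?_
  · simp only [h2] at h
    exact h.unique (a5_hasSum hL hsr u)
  · intro m
    simp only [e m]
    exact a5_G_integrable hs r _
  · have h3 : ∀ (m : ℤ) (z : ℝ), ‖G s ((u + √(2 * r) * z) + 2 * m * L)‖ =
        G s ((u + √(2 * r) * z) + 2 * m * L) := fun m z => by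
      rw [Real.norm_eq_abs, abs_of_pos (a5_G_pos hs _)]
    simp only [h3, h2]
    exact a5_summable hL hsr u

theorem a5_Q_le {L s : ℝ} (hL : 0 < L) (hs : 0 < s) (u : ℝ) : |a5_Q L s u| ≤ a5_Q L s 0 := by
  rw [abs_of_pos (a5_Q_pos hL hs u), a5_Q_cos hL hs, a5_Q_cos hL hs]
  apply div_le_div_of_nonneg_right _ (by positivity)
  have hp := Real.pi_pos
  have h1 := hasSum_nat_cosKernel₀ (u / (2 * L)) (t := π * s / L ^ 2) (by positivity)
  have h2 := hasSum_nat_cosKernel₀ (0 / (2 * L)) (t := π * s / L ^ 2) (by positivity)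
  have h3 := hasSum_le (fun n => ?_) h1 h2
  · linarith
  · gcongr
    rw [zero_div, mul_zero, zero_mul, Real.cos_zero]
    exact Real.cos_le_one _

theorem a5_Q_integrable {L s : ℝ} (hL : 0 < L) (hs : 0 < s) (r u : ℝ) :
    Integrable (fun z => a5_Q L s (u + √(2 * r) * z)) (gaussianReal 0 1) :=
  a5_bdd_int (M := a5_Q L s 0) ((a5_Q_cont2 hL hs).comp (by fun_prop)).measurable
    (fun z => a5_Q_le hL hs _)

theorem a5_q_conv {L s r : ℝ} (hL : 0 < L) (hs : 0 < s) (hr : 0 ≤ r) (a b : ℝ) :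
    ∫ z, q L s a (b + √(2 * r) * z) ∂(gaussianReal 0 1) = q L (s + r) a b := by
  have hsr : 0 < s + r := by linarith
  have e : ∀ z, q L s a (b + √(2 * r) * z) = a5_Q L s ((b - a) + √(2 * r) * z) +
      a5_Q L s ((b + a) + √(2 * r) * z) := by
    intro z
    rw [a5_q_eq hL hs]
    congr 2 <;> ring
  simp_rw [e]
  rw [integral_add (a5_Q_integrable hL hs r _) (a5_Q_integrable hL hs r _), a5_Q_conv hL hs hr,
    a5_Q_conv hL hs hr, a5_q_eq hL hsr]

theorem P_p {L s r : ℝ} (hL : 0 < L) (hs : 0 < s) (hr : 0 ≤ r) (x : ℝ × ℝ) :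
    P r (p L s x) = p L (s + r) x := by
  funext y
  unfold P p gam
  rw [integral_prod_mul (fun z => q L s x.1 (y.1 + √(2 * r) * z))
    (fun z => q L s x.2 (y.2 + √(2 * r) * z)), a5_q_conv hL hs hr, a5_q_conv hL hs hr]

theorem p_EP {L s : ℝ} (hL : 0 < L) (hs : 0 < s) (x : ℝ × ℝ) : EP L (p L s x) := by
  have h := P_EP hL (half_pos hs) (a5_p_CP hL (half_pos hs) x)
  rw [P_p hL (half_pos hs) (half_pos hs).le, add_halves] at h
  exact h

/-! ### The kernel represents the semigroup -/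

/-- tiling of the line by intervals of length `2 L` -/
theorem a5_tile {L : ℝ} (hL : 0 < L) {h : ℝ → ℝ} (hh : Integrable h) :
    HasSum (fun n : ℤ => ∫ b in (-L)..L, h (b + 2 * n * L)) (∫ b, h b) := by
  have hL2 : (2 * L) ≠ 0 := by positivity
  have h1 : Integrable (fun t : ℝ => h (2 * L * t + (-L))) :=
    (hh.comp_add_right (-L)).comp_mul_left' hL2
  have h2 := (h1.hasSum_intervalIntegral_comp_add_int).mul_left (2 * L)
  have h3 : 2 * L * ∫ t : ℝ, h (2 * L * t + (-L)) = ∫ b, h b := by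
    rw [Measure.integral_comp_mul_left (fun t => h (t + (-L))) (2 * L),
      integral_add_right_eq_self, abs_of_pos (by positivity), smul_eq_mul]
    field_simp
  have h4 : ∀ n : ℤ, 2 * L * ∫ t in (0 : ℝ)..1, h (2 * L * (t + n) + (-L)) =
      ∫ b in (-L)..L, h (b + 2 * n * L) := by
    intro n
    have h5 : ∀ t : ℝ, h (2 * L * (t + n) + (-L)) =
        (fun y => h (y + 2 * n * L)) (2 * L * t + (-L)) := by
      intro t
      simp only
      congr 1
      ring
    simp_rw [h5]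
    rw [intervalIntegral.integral_comp_mul_add (fun y => h (y + 2 * n * L)) hL2, smul_eq_mul]
    have h6 : 2 * L * 0 + -L = -L := by ring
    have h7 : 2 * L * 1 + -L = L := by ring
    rw [h6, h7]
    field_simp
  simp only [h4, h3] at h2
  exact h2

/-- change of variables in the Gaussian integral -/
theorem a5_gauss_cv {s : ℝ} (hs : 0 < s) (g : ℝ → ℝ) (a : ℝ) :
    ∫ z, g (a + √(2 * s) * z) ∂(gaussianReal 0 1) = ∫ b, G s (b - a) * g b := by
  have hp := Real.pi_pos
  have hw : 0 < √(2 * s) := by positivity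
  rw [integral_gaussianReal_eq_integral_smul (by norm_num)]
  have h1 : ∫ b, G s (b - a) * g b = √(2 * s) * ∫ z : ℝ, G s (√(2 * s) * z) *
      g (a + √(2 * s) * z) := by
    have h2 := Measure.integral_comp_mul_left (fun t => G s t * g (a + t)) (√(2 * s))
    rw [h2, abs_of_pos (by positivity), smul_eq_mul, ← mul_assoc, mul_inv_cancel₀ hw.ne', one_mul,
      ← integral_sub_right_eq_self (fun t => G s t * g (a + t)) a]
    congr 1
    funext b
    rw [add_sub_cancel]
  rw [h1, ← integral_const_mul]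
  congr 1
  funext z
  have hr2 : √(2 * s) ^ 2 = 2 * s := Real.sq_sqrt (by positivity)
  simp only [gaussianPDFReal, G, smul_eq_mul, NNReal.coe_one, mul_one, sub_zero]
  have e1 : -(√(2 * s) * z) ^ 2 / (4 * s) = -z ^ 2 / 2 := by
    rw [mul_pow, hr2]
    field_simp
    ring
  have e2 : √(4 * π * s) = √(2 * s) * √(2 * π) := by
    rw [← Real.sqrt_mul (by positivity)]
    congr 1
    ring
  rw [e1, e2]
  field_simp

theorem a5_G_vol {s : ℝ} (hs : 0 < s) : Integrable (G s) := by
  have h := (integrable_exp_neg_mul_sq (b := 1 / (4 * s)) (by positivity)).div_const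
    (√(4 * π * s))
  refine h.congr (Filter.Eventually.of_forall fun x => ?_)
  simp only [G]
  congr 2
  ring

/-- the one dimensional kernel represents the one dimensional semigroup -/
theorem a5_int_q {L s : ℝ} (hL : 0 < L) (hs : 0 < s) {g : ℝ → ℝ} (hm : Measurable g) {M : ℝ}
    (hM : ∀ x, |g x| ≤ M) (he : ∀ x, g (-x) = g x) (hper : ∀ x, g (x + 2 * L) = g x) (a : ℝ) :
    ∫ b in Icc 0 L, q L s a b * g b = ∫ z, g (a + √(2 * s) * z) ∂(gaussianReal 0 1) := by
  rw [a5_gauss_cv hs]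
  have hI : Integrable (fun b => G s (b - a) * g b) := by
    refine ((a5_G_vol hs).comp_sub_right a).mul_bdd (c := M) hm.aestronglyMeasurable
      (Filter.Eventually.of_forall hM)
  have hP : Function.Periodic g (2 * L) := hper
  have hg : ∀ (n : ℤ) (b : ℝ), g (b + 2 * n * L) = g b := by
    intro n b
    have := hP.int_mul n b
    rw [← this]
    congr 1
    ring
  have e : ∀ (n : ℤ) (b : ℝ), G s (b + 2 * n * L - a) * g (b + 2 * n * L) =
      G s (b - a + 2 * n * L) * g b := by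
    intro n b
    rw [hg]
    congr 2
    ring
  have h1 := a5_tile hL hI
  have h1n := a5_tile hL hI.norm
  simp only [e] at h1
  simp only [e] at h1n
  have hLL : -L ≤ L := by linarith
  simp only [intervalIntegral.integral_of_le hLL] at h1 h1n
  have h2 := hasSum_integral_of_summable_integral_norm (μ := volume.restrict (Ioc (-L) L))
    (F := fun (n : ℤ) (b : ℝ) => G s (b - a + 2 * n * L) * g b) (fun n => ?_) h1n.summable
  · have h3 := h1.unique h2
    rw [h3]
    have h4 : ∀ b, ∑' n : ℤ, G s (b - a + 2 * n * L) * g b = a5_Q L s (b - a) * g b := by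
      intro b
      rw [tsum_mul_right]
      rfl
    simp only [h4]
    have hQc : Continuous (fun b => a5_Q L s (b - a)) := (a5_Q_cont2 hL hs).comp (by fun_prop)
    have hk : ∀ u v : ℝ, IntervalIntegrable (fun b => a5_Q L s (b - a) * g b) volume u v := by
      intro u v
      rw [intervalIntegrable_iff, uIoc]
      refine Integrable.of_bound (hQc.measurable.mul hm).aestronglyMeasurable (a5_Q L s 0 * M)
        (Filter.Eventually.of_forall fun b => ?_)
      rw [Real.norm_eq_abs, abs_mul]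
      exact mul_le_mul (a5_Q_le hL hs _) (hM _) (abs_nonneg _) ((abs_nonneg _).trans
        (a5_Q_le hL hs 0))
    have hQc' : Continuous (fun b => a5_Q L s (b + a)) := (a5_Q_cont2 hL hs).comp (by fun_prop)
    have hk' : ∀ u v : ℝ, IntervalIntegrable (fun b => a5_Q L s (b + a) * g b) volume u v := by
      intro u v
      rw [intervalIntegrable_iff, uIoc]
      refine Integrable.of_bound (hQc'.measurable.mul hm).aestronglyMeasurable (a5_Q L s 0 * M)
        (Filter.Eventually.of_forall fun b => ?_)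
      rw [Real.norm_eq_abs, abs_mul]
      exact mul_le_mul (a5_Q_le hL hs _) (hM _) (abs_nonneg _) ((abs_nonneg _).trans
        (a5_Q_le hL hs 0))
    rw [← intervalIntegral.integral_of_le hLL,
      ← intervalIntegral.integral_add_adjacent_intervals (hk (-L) 0) (hk 0 L),
      integral_Icc_eq_integral_Ioc, ← intervalIntegral.integral_of_le hL.le]
    have h5 : ∫ b in (-L)..0, a5_Q L s (b - a) * g b = ∫ b in (0 : ℝ)..L, a5_Q L s (b + a) * g b := by
      have := intervalIntegral.integral_comp_neg (a := 0) (b := L)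
        (fun b => a5_Q L s (b - a) * g b)
      rw [neg_zero] at this
      rw [← this]
      congr 1
      funext b
      rw [he, ← a5_Q_neg hL hs (-b - a)]
      congr 2
      ring
    rw [h5, ← intervalIntegral.integral_add (hk' 0 L) (hk 0 L)]
    congr 1
    funext b
    rw [a5_q_eq hL hs]
    ring
  · have h6 : Integrable (fun b => G s (b + 2 * n * L - a) * g (b + 2 * n * L)) :=
      hI.comp_add_right (2 * n * L)
    simp only [e] at h6
    exact h6.integrableOn

/-- the kernel represents `P s` -/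
theorem int_p {L s : ℝ} (hL : 0 < L) (hs : 0 < s) {f : ℝ × ℝ → ℝ} (hf : CP L f) (x : ℝ × ℝ) :
    ∫ y in box L, p L s x y * f y = P s f x := by
  obtain ⟨M, hM0, hM⟩ := CP_bdd hL hf
  have hfm : Measurable f := hf.cont.measurable
  have hint : Integrable (fun z : ℝ × ℝ => f (x.1 + √(2 * s) * z.1, x.2 + √(2 * s) * z.2))
      ((gaussianReal 0 1).prod (gaussianReal 0 1)) :=
    Integrable.of_bound (hf.cont.comp (by fun_prop)).aestronglyMeasurable M
      (Filter.Eventually.of_forall fun z => hM _)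
  unfold P gam
  rw [integral_prod _ hint]
  have hbox : (volume : Measure (ℝ × ℝ)).restrict (box L) =
      ((volume : Measure ℝ).restrict (Icc 0 L)).prod ((volume : Measure ℝ).restrict (Icc 0 L)) := by
    rw [Measure.prod_restrict]
    rfl
  have hpc : Continuous (fun y => p L s x y * f y) := (a5_p_CP hL hs x).cont.mul hf.cont
  have hint2 : Integrable (fun y => p L s x y * f y)
      (((volume : Measure ℝ).restrict (Icc 0 L)).prod ((volume : Measure ℝ).restrict (Icc 0 L))) := by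
    rw [← hbox]
    exact hpc.continuousOn.integrableOn_compact (isCompact_Icc.prod isCompact_Icc)
  rw [hbox, integral_prod _ hint2]
  -- inner integral
  set g : ℝ → ℝ := fun b => ∫ z, f (b, x.2 + √(2 * s) * z) ∂(gaussianReal 0 1) with hg
  have h1 : ∀ b : ℝ, ∫ b' in Icc 0 L, p L s x (b, b') * f (b, b') = q L s x.1 b * g b := by
    intro b
    have h2 := a5_int_q hL hs (g := fun b' => f (b, b')) (by fun_prop) (fun b' => hM _)
      (fun b' => hf.even2 b b') (fun b' => hf.per2 b b') x.2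
    rw [hg]
    simp only
    rw [← h2, ← integral_const_mul]
    congr 1
    funext b'
    unfold p
    ring
  have h3 := a5_int_q hL hs (g := g) ?_ (M := M) ?_ ?_ ?_ x.1
  · simp_rw [h1]
    rw [h3]
  · rw [hg]
    have : StronglyMeasurable (fun v : ℝ × ℝ => f (v.1, x.2 + √(2 * s) * v.2)) :=
      (hf.cont.comp (by fun_prop)).stronglyMeasurable
    exact this.integral_prod_right'.measurable
  · intro b
    rw [hg]
    simp only
    have h5 := norm_integral_le_of_norm_le_const (μ := gaussianReal 0 1)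
      (f := fun z => f (b, x.2 + √(2 * s) * z)) (C := M)
      (Filter.Eventually.of_forall fun z => hM _)
    simpa using h5
  · intro b
    rw [hg]
    simp only [hf.even1]
  · intro b
    rw [hg]
    simp only [hf.per1]


end Pool.Agent.Lib.H77M
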