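import Pool.Agent.Lib.H77M.A5

/-!
# Project H77M, chunk A6: Gaussian domination of the derivatives of the kernel
-/

open MeasureTheory Set ProbabilityTheory
open scoped ContDiff

namespace Pool.Agent.Lib.H77M

/-- iterated partial derivatives: `true` is `D1`, `false` is `D2` -/
noncomputable def Ds (l : List Bool) (f : ℝ × ℝ → ℝ) : ℝ × ℝ → ℝ :=
  l.foldr (fun b g => if b then D1 g else D2 g) f

namespace A6

/-- Hermite type polynomials: the derivatives of the Gaussian -/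
noncomputable def He : ℕ → Polynomial ℝ
  | 0 => 1
  | n + 1 => (He n).derivative - Polynomial.C (1 / 2) * Polynomial.X * He n

/-- the `n`-th derivative of the heat kernel -/
noncomputable def Gk (n : ℕ) (s u : ℝ) : ℝ := (He n).eval (u / √s) * (1 / √s) ^ n * G s u

theorem Gk_zero (s u : ℝ) : Gk 0 s u = G s u := by simp [Gk, He]

theorem G_pos {s : ℝ} (hs : 0 < s) (u : ℝ) : 0 < G s u := by
  unfold G; positivity

theorem G_deriv {s : ℝ} (hs : 0 < s) (u : ℝ) :
    HasDerivAt (G s) (-(1 / 2) * (u / √s) * (1 / √s) * G s u) u := by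
  have hs1 : √s * √s = s := Real.mul_self_sqrt hs.le
  have hs2 : √s ≠ 0 := (Real.sqrt_pos.2 hs).ne'
  have h1 : HasDerivAt (fun u : ℝ => -u ^ 2 / (4 * s)) (-(2 * u) / (4 * s)) u := by
    have := ((hasDerivAt_pow 2 u).neg).div_const (4 * s)
    simpa using this
  have h2 := (h1.exp).div_const (√(4 * Real.pi * s))
  have h3 : (-(1 / 2) * (u / √s) * (1 / √s) * G s u) =
      Real.exp (-u ^ 2 / (4 * s)) * (-(2 * u) / (4 * s)) / √(4 * Real.pi * s) := by
    unfold G
    have h4 : (u / √s) * (1 / √s) = u / s := by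
      rw [div_mul_div_comm, hs1, mul_one]
    have h5 : -(1 / 2) * (u / √s) * (1 / √s) = -(2 * u) / (4 * s) := by
      rw [mul_assoc, h4]; field_simp; ring
    rw [h5]; ring
  rw [h3]; exact h2

theorem Gk_deriv (n : ℕ) {s : ℝ} (hs : 0 < s) (u : ℝ) : HasDerivAt (Gk n s) (Gk (n + 1) s u) u := by
  have h1 : HasDerivAt (fun u : ℝ => u / √s) (1 / √s) u := (hasDerivAt_id u).div_const _
  have h2 : HasDerivAt (fun u : ℝ => (He n).eval (u / √s))
      ((He n).derivative.eval (u / √s) * (1 / √s)) u := by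
    have h4 := ((He n).hasDerivAt (u / √s)).comp u h1
    exact h4
  have h3 := (h2.mul_const ((1 / √s) ^ n)).mul (G_deriv hs u)
  refine HasDerivAt.congr_deriv h3 ?_
  simp only [Gk, He, Polynomial.eval_sub, Polynomial.eval_mul, Polynomial.eval_C, Polynomial.eval_X]
  ring

theorem poly_bound (Q : Polynomial ℝ) : ∃ C, 0 < C ∧ ∀ w : ℝ, |Q.eval w| ≤ C * Real.exp (w ^ 2 / 8) := by
  induction Q using Polynomial.induction_on' with
  | add p q hp hq =>
    obtain ⟨C1, h1, h2⟩ := hp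
    obtain ⟨C2, h3, h4⟩ := hq
    refine ⟨C1 + C2, by positivity, fun w => ?_⟩
    rw [Polynomial.eval_add, add_mul]
    exact (abs_add_le _ _).trans (add_le_add (h2 w) (h4 w))
  | monomial n a =>
    refine ⟨(|a| + 1) * (n.factorial * Real.exp 2), by positivity, fun w => ?_⟩
    rw [Polynomial.eval_monomial, abs_mul, abs_pow]
    have h1 : |w| ^ n ≤ n.factorial * Real.exp |w| := by
      have := Real.pow_div_factorial_le_exp |w| (abs_nonneg w) n
      rwa [div_le_iff₀ (by positivity), mul_comm] at this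
    have h2 : Real.exp |w| ≤ Real.exp 2 * Real.exp (w ^ 2 / 8) := by
      rw [← Real.exp_add]
      apply Real.exp_le_exp.2
      nlinarith [sq_nonneg (|w| - 4), sq_abs w]
    calc |a| * |w| ^ n ≤ (|a| + 1) * (n.factorial * (Real.exp 2 * Real.exp (w ^ 2 / 8))) := by
          apply mul_le_mul (by linarith) _ (by positivity) (by positivity)
          exact h1.trans (mul_le_mul_of_nonneg_left h2 (by positivity))
      _ = _ := by ring

theorem exp_sqrt {s : ℝ} (hs : 0 < s) (u : ℝ) : (u / √s) ^ 2 = u ^ 2 / s := by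
  rw [div_pow, Real.sq_sqrt hs.le]

/-- basic bound -/
theorem Gk_bound (n : ℕ) : ∃ C, 0 < C ∧ ∀ s, 0 < s → ∀ u : ℝ,
    |Gk n s u| ≤ C * (1 / √s) ^ n * (Real.exp (-u ^ 2 / (8 * s)) / √(4 * Real.pi * s)) := by
  obtain ⟨C, hC, h⟩ := poly_bound (He n)
  refine ⟨C, hC, fun s hs u => ?_⟩
  have h1 := h (u / √s)
  rw [exp_sqrt hs] at h1
  unfold Gk G
  have h0 : 0 ≤ 1 / √s := by positivity
  rw [abs_mul, abs_mul, abs_of_nonneg (pow_nonneg h0 n), abs_of_nonneg
    (show 0 ≤ Real.exp (-u ^ 2 / (4 * s)) / √(4 * Real.pi * s) by positivity)]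
  calc |(He n).eval (u / √s)| * (1 / √s) ^ n * (Real.exp (-u ^ 2 / (4 * s)) / √(4 * Real.pi * s))
      ≤ (C * Real.exp (u ^ 2 / s / 8)) * (1 / √s) ^ n *
        (Real.exp (-u ^ 2 / (4 * s)) / √(4 * Real.pi * s)) := by
        apply mul_le_mul_of_nonneg_right _ (by positivity)
        exact mul_le_mul_of_nonneg_right h1 (by positivity)
    _ = C * (1 / √s) ^ n * ((Real.exp (u ^ 2 / s / 8) * Real.exp (-u ^ 2 / (4 * s))) /
          √(4 * Real.pi * s)) := by ring
    _ = _ := by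
        rw [← Real.exp_add]
        congr 4
        field_simp
        ring

/-- Gaussian domination in one variable -/
theorem Gk_dom (n : ℕ) : ∃ C, 0 < C ∧ ∀ s, 1 ≤ s → ∀ u u' : ℝ, |u - u'| ≤ 3 →
    |Gk n s u| ≤ C * (1 / √s) ^ n * G (4 * s) u' := by
  obtain ⟨C, hC, h⟩ := Gk_bound n
  refine ⟨C * (2 * Real.exp (9 / 8)), by positivity, fun s hs u u' hu => ?_⟩
  have hs0 : 0 < s := by linarith
  refine (h s hs0 u).trans ?_
  have h1 : Real.exp (-u ^ 2 / (8 * s)) ≤ Real.exp (9 / 8) * Real.exp (-u' ^ 2 / (4 * (4 * s))) := by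
    rw [← Real.exp_add]
    apply Real.exp_le_exp.2
    have h2 : u' ^ 2 ≤ 2 * u ^ 2 + 18 := by
      have h3 := abs_le.1 hu
      nlinarith [sq_nonneg (2 * u - u'), sq_nonneg (u - u'), mul_nonneg (sub_nonneg.2 h3.1)
        (sub_nonneg.2 h3.2)]
    rw [div_le_iff₀ (by positivity)]
    have h4 : (9 / 8 + -u' ^ 2 / (4 * (4 * s))) * (8 * s) = 9 * s - u' ^ 2 / 2 := by
      field_simp; ring
    rw [h4]
    nlinarith
  have h5 : √(4 * Real.pi * (4 * s)) = 2 * √(4 * Real.pi * s) := by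
    rw [show 4 * Real.pi * (4 * s) = 2 ^ 2 * (4 * Real.pi * s) by ring,
      Real.sqrt_mul (by positivity), Real.sqrt_sq (by norm_num)]
  have h6 : 0 < √(4 * Real.pi * s) := by positivity
  calc C * (1 / √s) ^ n * (Real.exp (-u ^ 2 / (8 * s)) / √(4 * Real.pi * s))
      ≤ C * (1 / √s) ^ n * ((Real.exp (9 / 8) * Real.exp (-u' ^ 2 / (4 * (4 * s)))) /
          √(4 * Real.pi * s)) := by
        apply mul_le_mul_of_nonneg_left _ (by positivity)
        exact div_le_div_of_nonneg_right h1 h6.le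
    _ = C * (2 * Real.exp (9 / 8)) * (1 / √s) ^ n * G (4 * s) u' := by
        unfold G
        rw [h5]
        field_simp

theorem summable_gauss {c : ℝ} (hc : 0 < c) : Summable (fun m : ℤ => Real.exp (-c * (m : ℝ) ^ 2)) := by
  have h1 : Summable (fun n : ℕ => Real.exp (-c * (n : ℝ) ^ 2)) := by
    have h2 : Summable (fun n : ℕ => Real.exp (n * -c)) :=
      Real.summable_exp_nat_mul_iff.2 (by linarith)
    refine Summable.of_nonneg_of_le (fun n => (Real.exp_pos _).le) (fun n => ?_) h2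
    apply Real.exp_le_exp.2
    rcases Nat.eq_zero_or_pos n with rfl | hn
    · simp
    · have : (1 : ℝ) ≤ n := by exact_mod_cast hn
      nlinarith [mul_nonneg hc.le (mul_nonneg (by linarith : (0 : ℝ) ≤ n) (by linarith : (0 : ℝ) ≤ n - 1))]
  apply Summable.of_nat_of_neg
  · simpa using h1
  · simpa using h1

/-- uniform summable bound -/
theorem Gk_unif (n : ℕ) {L δ T R : ℝ} (hL : 0 < L) (hδ : 0 < δ) :
    ∃ b : ℤ → ℝ, Summable b ∧ ∀ s ∈ Icc δ T, ∀ x : ℝ, |x| ≤ R → ∀ m : ℤ,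
      |Gk n s (x + 2 * m * L)| ≤ b m := by
  by_cases hT : δ ≤ T
  swap
  · exact ⟨fun _ => 0, summable_zero, fun s hs => absurd (hs.1.trans hs.2) hT⟩
  have hT0 : 0 < T := hδ.trans_le hT
  obtain ⟨C, hC, h⟩ := Gk_bound n
  refine ⟨fun m => C * (1 / √δ) ^ n * (1 / √(4 * Real.pi * δ)) * Real.exp (R ^ 2 / (8 * T)) *
    Real.exp (-(L ^ 2 / (4 * T)) * (m : ℝ) ^ 2), (summable_gauss (by positivity)).mul_left _,
    fun s hs x hx m => ?_⟩
  have hs0 : 0 < s := hδ.trans_le hs.1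
  refine (h s hs0 _).trans ?_
  have h1 : (1 / √s) ^ n ≤ (1 / √δ) ^ n := by
    apply pow_le_pow_left₀ (by positivity)
    exact one_div_le_one_div_of_le (by positivity) (Real.sqrt_le_sqrt hs.1)
  have h2 : 1 / √(4 * Real.pi * s) ≤ 1 / √(4 * Real.pi * δ) := by
    apply one_div_le_one_div_of_le (by positivity) (Real.sqrt_le_sqrt _)
    exact mul_le_mul_of_nonneg_left hs.1 (by positivity)
  have h3 : Real.exp (-(x + 2 * m * L) ^ 2 / (8 * s)) ≤ Real.exp (R ^ 2 / (8 * T)) *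
      Real.exp (-(L ^ 2 / (4 * T)) * (m : ℝ) ^ 2) := by
    rw [← Real.exp_add]
    apply Real.exp_le_exp.2
    have h4 : -(x + 2 * m * L) ^ 2 / (8 * s) ≤ -(x + 2 * m * L) ^ 2 / (8 * T) := by
      rw [div_le_div_iff₀ (by positivity) (by positivity)]
      nlinarith [mul_le_mul_of_nonneg_left hs.2 (sq_nonneg (x + 2 * m * L))]
    refine h4.trans ?_
    have h5 : R ^ 2 / (8 * T) + -(L ^ 2 / (4 * T)) * (m : ℝ) ^ 2 =
        (R ^ 2 - 2 * (m * L) ^ 2) / (8 * T) := by
      field_simp; ring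
    rw [h5]
    apply div_le_div_of_nonneg_right _ (by positivity)
    have h6 : x ^ 2 ≤ R ^ 2 := by
      rw [← sq_abs x]; exact pow_le_pow_left₀ (abs_nonneg x) hx 2
    nlinarith [sq_nonneg (x + m * L)]
  calc C * (1 / √s) ^ n * (Real.exp (-(x + 2 * m * L) ^ 2 / (8 * s)) / √(4 * Real.pi * s))
      = C * (1 / √s) ^ n * (1 / √(4 * Real.pi * s)) * Real.exp (-(x + 2 * m * L) ^ 2 / (8 * s)) := by
        ring
    _ ≤ C * (1 / √δ) ^ n * (1 / √(4 * Real.pi * δ)) * (Real.exp (R ^ 2 / (8 * T)) *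
      Real.exp (-(L ^ 2 / (4 * T)) * (m : ℝ) ^ 2)) := by
        apply mul_le_mul _ h3 (by positivity) (by positivity)
        apply mul_le_mul _ h2 (by positivity) (by positivity)
        exact mul_le_mul_of_nonneg_left h1 hC.le
    _ = _ := by ring

/-- the periodised derivative -/
noncomputable def Sk (n : ℕ) (L s u : ℝ) : ℝ := ∑' m : ℤ, Gk n s (u + 2 * m * L)

theorem Sk_summable (n : ℕ) {L s : ℝ} (hL : 0 < L) (hs : 0 < s) (u : ℝ) :
    Summable (fun m : ℤ => Gk n s (u + 2 * m * L)) := by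
  obtain ⟨b, hb, h⟩ := Gk_unif n (T := s) (R := |u|) hL hs
  exact Summable.of_norm_bounded hb (fun m => h s ⟨le_rfl, le_rfl⟩ u le_rfl m)

theorem Sk_deriv (n : ℕ) {L s : ℝ} (hL : 0 < L) (hs : 0 < s) (u : ℝ) :
    HasDerivAt (Sk n L s) (Sk (n + 1) L s u) u := by
  obtain ⟨b, hb, h⟩ := Gk_unif (n + 1) (T := s) (R := |u| + 1) hL hs
  refine hasDerivAt_tsum_of_isPreconnected (g := fun (m : ℤ) (v : ℝ) => Gk n s (v + 2 * m * L))
    (g' := fun (m : ℤ) (v : ℝ) => Gk (n + 1) s (v + 2 * m * L)) (t := Ioo (u - 1) (u + 1)) (y₀ := u)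
    hb isOpen_Ioo isPreconnected_Ioo (fun m y _ => ?_) (fun m y hy => ?_) ⟨by linarith, by linarith⟩
    (Sk_summable n hL hs u) ⟨by linarith, by linarith⟩
  · exact (Gk_deriv n hs (y + 2 * m * L)).comp_add_const y (2 * m * L)
  · refine h s ⟨le_rfl, le_rfl⟩ y ?_ m
    rw [abs_le]
    have h1 := le_abs_self u
    have h2 := neg_abs_le u
    exact ⟨by linarith [hy.1], by linarith [hy.2]⟩

theorem Sk_iter (n k : ℕ) {L s : ℝ} (hL : 0 < L) (hs : 0 < s) :
    iteratedDeriv k (Sk n L s) = Sk (n + k) L s := by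
  induction k with
  | zero => simp
  | succ k ih =>
    rw [iteratedDeriv_succ, ih]
    funext u
    exact (Sk_deriv (n + k) hL hs u).deriv

theorem Sk_smooth (n : ℕ) {L s : ℝ} (hL : 0 < L) (hs : 0 < s) : ContDiff ℝ ∞ (Sk n L s) := by
  apply contDiff_of_differentiable_iteratedDeriv
  intro k _
  rw [Sk_iter n k hL hs]
  exact fun u => (Sk_deriv (n + k) hL hs u).differentiableAt

theorem Sk_per (n : ℕ) (L s u : ℝ) : Sk n L s (u + 2 * L) = Sk n L s u := by
  unfold Sk
  rw [← (Equiv.addRight (1 : ℤ)).tsum_eq (fun m : ℤ => Gk n s (u + 2 * m * L))]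
  apply tsum_congr
  intro m
  congr 1
  simp only [Equiv.coe_addRight, Int.cast_add, Int.cast_one]
  ring

theorem Sk_cont (n : ℕ) {L : ℝ} (hL : 0 < L) :
    ContinuousOn (fun v : ℝ × ℝ => Sk n L v.1 v.2) (Ioi 0 ×ˢ univ) := by
  have hO : IsOpen ((Ioi (0 : ℝ)) ×ˢ (univ : Set ℝ)) := isOpen_Ioi.prod isOpen_univ
  intro v hv
  have hv0 : 0 < v.1 := hv.1
  obtain ⟨b, hb, h⟩ := Gk_unif n (δ := v.1 / 2) (T := 2 * v.1) (R := |v.2| + 1) hL (by positivity)
  have h1 : ContinuousOn (fun v : ℝ × ℝ => Sk n L v.1 v.2)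
      (Ioo (v.1 / 2) (2 * v.1) ×ˢ Ioo (v.2 - 1) (v.2 + 1)) := by
    refine continuousOn_tsum (fun m => ?_) hb (fun m w hw => ?_)
    · have h2 : ∀ w ∈ (Ioo (v.1 / 2) (2 * v.1) ×ˢ Ioo (v.2 - 1) (v.2 + 1)), √w.1 ≠ 0 := fun w hw =>
        (Real.sqrt_pos.2 (lt_trans (by positivity) hw.1.1)).ne'
      have h3 : ∀ w ∈ (Ioo (v.1 / 2) (2 * v.1) ×ˢ Ioo (v.2 - 1) (v.2 + 1)), 4 * w.1 ≠ 0 := fun w hw =>
        (mul_pos four_pos (lt_trans (by positivity) hw.1.1)).ne'
      have h4 : ∀ w ∈ (Ioo (v.1 / 2) (2 * v.1) ×ˢ Ioo (v.2 - 1) (v.2 + 1)),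
          √(4 * Real.pi * w.1) ≠ 0 := fun w hw =>
        (Real.sqrt_pos.2 (mul_pos (by positivity) (lt_trans (by positivity) hw.1.1))).ne'
      have c1 : Continuous (fun w : ℝ × ℝ => √w.1) := Real.continuous_sqrt.comp continuous_fst
      have c2 : Continuous (fun w : ℝ × ℝ => w.2 + 2 * m * L) := by fun_prop
      have c3 : Continuous (fun w : ℝ × ℝ => √(4 * Real.pi * w.1)) :=
        Real.continuous_sqrt.comp (by fun_prop)
      have c4 : Continuous (fun w : ℝ × ℝ => 4 * w.1) := by fun_prop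
      have c5 : Continuous (fun w : ℝ × ℝ => -(w.2 + 2 * m * L) ^ 2) := by fun_prop
      unfold Gk G
      refine (ContinuousOn.mul ?_ ?_).mul ?_
      · exact (Polynomial.continuous _).comp_continuousOn (c2.continuousOn.div c1.continuousOn h2)
      · exact (continuousOn_const.div c1.continuousOn h2).pow n
      · exact (Real.continuous_exp.comp_continuousOn
          (c5.continuousOn.div c4.continuousOn h3)).div c3.continuousOn h4
    · refine h w.1 ⟨hw.1.1.le, hw.1.2.le⟩ w.2 ?_ m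
      rw [abs_le]
      have h1 := le_abs_self v.2
      have h2 := neg_abs_le v.2
      exact ⟨by linarith [hw.2.1], by linarith [hw.2.2]⟩
  refine (h1.continuousAt ?_).continuousWithinAt
  refine prod_mem_nhds (Ioo_mem_nhds (by linarith) (by linarith)) (Ioo_mem_nhds (by linarith) (by linarith))

theorem Sk_dom (n : ℕ) : ∃ C, 0 < C ∧ ∀ L s : ℝ, 0 < L → 1 ≤ s → ∀ u u' : ℝ, |u - u'| ≤ 3 →
    |Sk n L s u| ≤ C * (1 / √s) ^ n * Sk 0 L (4 * s) u' := by
  obtain ⟨C, hC, h⟩ := Gk_dom n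
  refine ⟨C, hC, fun L s hL hs u u' hu => ?_⟩
  have hs0 : 0 < s := by linarith
  have h1 : ∀ m : ℤ, ‖Gk n s (u + 2 * m * L)‖ ≤
      C * (1 / √s) ^ n * Gk 0 (4 * s) (u' + 2 * m * L) := fun m => by
    rw [Gk_zero]
    exact h s hs _ _ (by rwa [add_sub_add_right_eq_sub])
  have h2 : Summable (fun m : ℤ => C * (1 / √s) ^ n * Gk 0 (4 * s) (u' + 2 * m * L)) :=
    (Sk_summable 0 hL (by positivity) u').mul_left _
  unfold Sk
  rw [← tsum_mul_left]
  exact tsum_of_norm_bounded h2.hasSum h1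

/-- derivatives of the one dimensional Neumann kernel -/
noncomputable def Q (j k : ℕ) (L s a b : ℝ) : ℝ :=
  (-1) ^ j * Sk (j + k) L s (b - a) + Sk (j + k) L s (b + a)

theorem q_eq {L s : ℝ} (hL : 0 < L) (hs : 0 < s) (a b : ℝ) : q L s a b = Q 0 0 L s a b := by
  unfold q Q Sk
  rw [pow_zero, one_mul, ← (Sk_summable 0 hL hs (b - a)).tsum_add (Sk_summable 0 hL hs (b + a))]
  simp only [Gk_zero]

theorem Q_b (j k : ℕ) {L s : ℝ} (hL : 0 < L) (hs : 0 < s) (a b : ℝ) :
    HasDerivAt (fun b => Q j k L s a b) (Q j (k + 1) L s a b) b := by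
  have h1 := (Sk_deriv (j + k) hL hs (b - a)).comp_sub_const b a
  have h2 := (Sk_deriv (j + k) hL hs (b + a)).comp_add_const b a
  exact (h1.const_mul ((-1) ^ j)).add h2

theorem Q_a (j k : ℕ) {L s : ℝ} (hL : 0 < L) (hs : 0 < s) (a b : ℝ) :
    HasDerivAt (fun a => Q j k L s a b) (Q (j + 1) k L s a b) a := by
  have h1 := (Sk_deriv (j + k) hL hs (b - a)).comp_const_sub b a
  have h2 := (Sk_deriv (j + k) hL hs (b + a)).comp_const_add b a
  refine HasDerivAt.congr_deriv ((h1.const_mul ((-1) ^ j)).add h2) ?_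
  unfold Q
  rw [show j + 1 + k = j + k + 1 by ring]
  ring

theorem Q_a_smooth (j k : ℕ) {L s : ℝ} (hL : 0 < L) (hs : 0 < s) (b : ℝ) :
    ContDiff ℝ ∞ (fun a => Q j k L s a b) := by
  unfold Q
  have h := Sk_smooth (j + k) hL hs
  exact (contDiff_const.mul (h.comp (contDiff_const.sub contDiff_id))).add
    (h.comp (contDiff_const.add contDiff_id))

theorem Q_b_smooth (j k : ℕ) {L s : ℝ} (hL : 0 < L) (hs : 0 < s) (a : ℝ) :
    ContDiff ℝ ∞ (fun b => Q j k L s a b) := by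
  unfold Q
  have h := Sk_smooth (j + k) hL hs
  exact (contDiff_const.mul (h.comp (contDiff_id.sub contDiff_const))).add
    (h.comp (contDiff_id.add contDiff_const))

/-- partial derivatives of a product function -/
theorem D_prod {f g : ℝ → ℝ} (hf : Differentiable ℝ f) (hg : Differentiable ℝ g) (y : ℝ × ℝ) :
    D1 (fun y => f y.1 * g y.2) y = deriv f y.1 * g y.2 ∧
      D2 (fun y => f y.1 * g y.2) y = f y.1 * deriv g y.2 := by
  have h1 : HasFDerivAt (fun y : ℝ × ℝ => f y.1) (deriv f y.1 • ContinuousLinearMap.fst ℝ ℝ ℝ) y :=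
    (hf y.1).hasDerivAt.comp_hasFDerivAt y hasFDerivAt_fst
  have h2 : HasFDerivAt (fun y : ℝ × ℝ => g y.2) (deriv g y.2 • ContinuousLinearMap.snd ℝ ℝ ℝ) y :=
    (hg y.2).hasDerivAt.comp_hasFDerivAt y hasFDerivAt_snd
  have h3 : HasFDerivAt (fun y : ℝ × ℝ => f y.1 * g y.2) (f y.1 • deriv g y.2 •
      ContinuousLinearMap.snd ℝ ℝ ℝ + g y.2 • deriv f y.1 • ContinuousLinearMap.fst ℝ ℝ ℝ) y :=
    h1.mul h2
  unfold D1 D2
  rw [h3.fderiv]
  constructor <;> simp [mul_comm]

theorem Ds_y (l : List Bool) {L s : ℝ} (hL : 0 < L) (hs : 0 < s) (x : ℝ × ℝ) :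
    Ds l (p L s x) = fun y => Q 0 (l.count true) L s x.1 y.1 * Q 0 (l.count false) L s x.2 y.2 := by
  induction l with
  | nil =>
    funext y
    simp only [Ds, List.foldr_nil, List.count_nil, p, q_eq hL hs]
  | cons c l ih =>
    have h1 : Differentiable ℝ (fun b => Q 0 (l.count true) L s x.1 b) := fun b =>
      (Q_b 0 _ hL hs x.1 b).differentiableAt
    have h2 : Differentiable ℝ (fun b => Q 0 (l.count false) L s x.2 b) := fun b =>
      (Q_b 0 _ hL hs x.2 b).differentiableAt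
    have h3 : Ds (c :: l) (p L s x) = if c then D1 (Ds l (p L s x)) else D2 (Ds l (p L s x)) := rfl
    rw [h3, ih]
    funext y
    have h4 := D_prod h1 h2 y
    rw [(Q_b 0 _ hL hs x.1 y.1).deriv, (Q_b 0 _ hL hs x.2 y.2).deriv] at h4
    cases c with
    | true => simpa using h4.1
    | false => simpa using h4.2

theorem Ds_x (m : List Bool) (j k : ℕ) {L s : ℝ} (hL : 0 < L) (hs : 0 < s) (y : ℝ × ℝ) :
    Ds m (fun v : ℝ × ℝ => Q 0 j L s v.1 y.1 * Q 0 k L s v.2 y.2) =
      fun v => Q (m.count true) j L s v.1 y.1 * Q (m.count false) k L s v.2 y.2 := by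
  induction m with
  | nil => rfl
  | cons c l ih =>
    have h1 : Differentiable ℝ (fun a => Q (l.count true) j L s a y.1) := fun a =>
      (Q_a _ _ hL hs a y.1).differentiableAt
    have h2 : Differentiable ℝ (fun a => Q (l.count false) k L s a y.2) := fun a =>
      (Q_a _ _ hL hs a y.2).differentiableAt
    have h3 : ∀ f, Ds (c :: l) f = if c then D1 (Ds l f) else D2 (Ds l f) := fun f => rfl
    rw [h3, ih]
    funext v
    have h4 := D_prod h1 h2 v
    rw [(Q_a _ _ hL hs v.1 y.1).deriv, (Q_a _ _ hL hs v.2 y.2).deriv] at h4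
    cases c with
    | true => simpa using h4.1
    | false => simpa using h4.2

theorem Q_dom (j k : ℕ) : ∃ C, 0 < C ∧ ∀ L s : ℝ, 0 < L → 1 ≤ s → ∀ a a' b : ℝ, |a - a'| ≤ 3 →
    |Q j k L s a b| ≤ C * (1 / √s) ^ (j + k) * q L (4 * s) a' b := by
  obtain ⟨C, hC, h⟩ := Sk_dom (j + k)
  refine ⟨C, hC, fun L s hL hs a a' b hab => ?_⟩
  have hs0 : 0 < s := by linarith
  have h1 := h L s hL hs (b - a) (b - a') (by rwa [sub_sub_sub_cancel_left, abs_sub_comm])
  have h2 := h L s hL hs (b + a) (b + a') (by rwa [add_sub_add_left_eq_sub])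
  rw [q_eq hL (by positivity : 0 < 4 * s)]
  unfold Q
  calc |(-1) ^ j * Sk (j + k) L s (b - a) + Sk (j + k) L s (b + a)|
      ≤ |(-1) ^ j * Sk (j + k) L s (b - a)| + |Sk (j + k) L s (b + a)| := abs_add_le _ _
    _ = |Sk (j + k) L s (b - a)| + |Sk (j + k) L s (b + a)| := by
        rw [abs_mul, abs_pow, abs_neg, abs_one, one_pow, one_mul]
    _ ≤ C * (1 / √s) ^ (j + k) * Sk 0 L (4 * s) (b - a') +
        C * (1 / √s) ^ (j + k) * Sk 0 L (4 * s) (b + a') := add_le_add h1 h2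
    _ = _ := by ring

theorem q_nonneg {L s : ℝ} (hs : 0 < s) (a b : ℝ) : 0 ≤ q L s a b :=
  tsum_nonneg fun m => add_nonneg (G_pos hs _).le (G_pos hs _).le

theorem count_add (l : List Bool) : l.count true + l.count false = l.length := by
  induction l with
  | nil => rfl
  | cons c l ih => cases c <;> simp <;> omega

theorem Q_int (k : ℕ) {L s : ℝ} (hL : 0 < L) (hs : 0 < s) (b : ℝ) :
    ∫ a in Icc 0 L, Q 0 (k + 1) L s a b = 0 := by
  rw [integral_Icc_eq_integral_Ioc, ← intervalIntegral.integral_of_le hL.le]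
  have h1 : ∀ a, HasDerivAt (fun a => -Sk k L s (b - a) + Sk k L s (b + a)) (Q 0 (k + 1) L s a b) a := by
    intro a
    have h1 := (Sk_deriv k hL hs (b - a)).comp_const_sub b a
    have h2 := (Sk_deriv k hL hs (b + a)).comp_const_add b a
    refine HasDerivAt.congr_deriv (h1.neg.add h2) ?_
    unfold Q
    rw [show 0 + (k + 1) = k + 1 by ring]
    ring
  rw [intervalIntegral.integral_eq_sub_of_hasDerivAt (fun a _ => h1 a)
    ((Q_a_smooth 0 (k + 1) hL hs b).continuous.intervalIntegrable 0 L)]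
  have h2 := Sk_per k L s (b - L)
  rw [show b - L + 2 * L = b + L by ring] at h2
  rw [h2, sub_zero, add_zero]
  ring

end A6

/-- (D3) Gaussian domination: termwise for the images, `|∂ᵏ G_s (u)| ≤ C s^(-k/2) G_{4s} (u')` for
`|u - u'| ≤ 3`, `s ≥ 1`, `k ≤ 3`. -/
theorem p_dom : ∃ C : ℝ, 0 < C ∧ ∀ (L s : ℝ), 0 < L → 1 ≤ s → ∀ l m : List Bool, l.length ≤ 2 →
    m.length ≤ 1 → ∀ x x' y : ℝ × ℝ, |x.1 - x'.1| ≤ 3 → |x.2 - x'.2| ≤ 3 →
      |Ds m (fun v => Ds l (p L s v) y) x| ≤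
        C * s ^ (-((l.length + m.length : ℕ) : ℝ) / 2) * p L (4 * s) x' y := by
  choose A hA hAd using fun j k => A6.Q_dom j k
  obtain ⟨B, hB, hAB⟩ : ∃ B, 0 < B ∧ ∀ j ∈ Finset.range 2, ∀ k ∈ Finset.range 3, A j k ≤ B := by
    refine ⟨∑ j ∈ Finset.range 2, ∑ k ∈ Finset.range 3, A j k, ?_, fun j hj k hk => ?_⟩
    · exact Finset.sum_pos (fun j _ => Finset.sum_pos (fun k _ => hA j k) ⟨0, by simp⟩) ⟨0, by simp⟩
    · exact (Finset.single_le_sum (f := fun k => A j k) (fun k _ => (hA j k).le) hk).trans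
        (Finset.single_le_sum (f := fun j => ∑ k ∈ Finset.range 3, A j k)
          (fun j _ => Finset.sum_nonneg fun k _ => (hA j k).le) hj)
  refine ⟨B * B, by positivity, fun L s hL hs l m hl hm x x' y h1 h2 => ?_⟩
  have hs0 : 0 < s := by linarith
  have e1 : (fun v => Ds l (p L s v) y) =
      fun v : ℝ × ℝ => A6.Q 0 (l.count true) L s v.1 y.1 * A6.Q 0 (l.count false) L s v.2 y.2 := by
    funext v
    rw [A6.Ds_y l hL hs0 v]
  rw [e1, A6.Ds_x m _ _ hL hs0 y]
  have c1 := A6.count_add l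
  have c2 := A6.count_add m
  have d1 := hAd (m.count true) (l.count true) L s hL hs x.1 x'.1 y.1 h1
  have d2 := hAd (m.count false) (l.count false) L s hL hs x.2 x'.2 y.2 h2
  have b1 := hAB (m.count true) (Finset.mem_range.2 (by omega)) (l.count true)
    (Finset.mem_range.2 (by omega))
  have b2 := hAB (m.count false) (Finset.mem_range.2 (by omega)) (l.count false)
    (Finset.mem_range.2 (by omega))
  have q1 : 0 ≤ q L (4 * s) x'.1 y.1 := A6.q_nonneg (by positivity) _ _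
  have q2 : 0 ≤ q L (4 * s) x'.2 y.2 := A6.q_nonneg (by positivity) _ _
  have e2 : s ^ (-((l.length + m.length : ℕ) : ℝ) / 2) = (1 / √s) ^ (l.length + m.length) := by
    rw [Real.sqrt_eq_rpow, one_div, ← Real.rpow_neg hs0.le, ← Real.rpow_natCast, ← Real.rpow_mul hs0.le]
    congr 1
    ring
  rw [e2, abs_mul]
  have e3 : (1 / √s) ^ (l.length + m.length) = (1 / √s) ^ (m.count true + l.count true) *
      (1 / √s) ^ (m.count false + l.count false) := by
    rw [← pow_add]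
    congr 1
    omega
  have r0 : 0 ≤ 1 / √s := by positivity
  calc |A6.Q (m.count true) (l.count true) L s x.1 y.1| * |A6.Q (m.count false) (l.count false) L s x.2 y.2|
      ≤ (B * (1 / √s) ^ (m.count true + l.count true) * q L (4 * s) x'.1 y.1) *
        (B * (1 / √s) ^ (m.count false + l.count false) * q L (4 * s) x'.2 y.2) := by
        apply mul_le_mul _ _ (abs_nonneg _) (by positivity)
        · exact d1.trans (mul_le_mul_of_nonneg_right
            (mul_le_mul_of_nonneg_right b1 (by positivity)) q1)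
        · exact d2.trans (mul_le_mul_of_nonneg_right
            (mul_le_mul_of_nonneg_right b2 (by positivity)) q2)
    _ = B * B * (1 / √s) ^ (l.length + m.length) * p L (4 * s) x' y := by
        rw [e3]; unfold p; ring

/-- the functions `v ↦ Ds l (p L s v) y` are smooth, and integrate to `0` (or `1` if `l = []`) -/
theorem Dp_int {L s : ℝ} (hL : 0 < L) (hs : 0 < s) (l : List Bool) (hl : l.length ≤ 2) (y : ℝ × ℝ) :
    ContDiff ℝ ∞ (fun v => Ds l (p L s v) y) ∧
      ∫ v in box L, Ds l (p L s v) y = if l = [] then 1 else 0 := by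
  have e1 : (fun v => Ds l (p L s v) y) =
      fun v : ℝ × ℝ => A6.Q 0 (l.count true) L s v.1 y.1 * A6.Q 0 (l.count false) L s v.2 y.2 := by
    funext v
    rw [A6.Ds_y l hL hs v]
  constructor
  · rw [e1]
    exact ((A6.Q_a_smooth 0 _ hL hs y.1).comp contDiff_fst).mul
      ((A6.Q_a_smooth 0 _ hL hs y.2).comp contDiff_snd)
  · split_ifs with h
    · subst h
      have h1 := int_p hL hs (CP_const L 1) y
      rw [P_const] at h1
      rw [← h1]
      apply integral_congr_ae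
      refine Filter.Eventually.of_forall fun v => ?_
      simp only [Ds, List.foldr_nil, mul_one]
      exact p_symm hL hs v y
    · rw [e1]
      have h1 : ∫ v in box L, A6.Q 0 (l.count true) L s v.1 y.1 * A6.Q 0 (l.count false) L s v.2 y.2 =
          (∫ a in Icc 0 L, A6.Q 0 (l.count true) L s a y.1) *
            ∫ a in Icc 0 L, A6.Q 0 (l.count false) L s a y.2 := by
        unfold box
        rw [Measure.volume_eq_prod]
        exact setIntegral_prod_mul (fun a => A6.Q 0 (l.count true) L s a y.1)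
          (fun a => A6.Q 0 (l.count false) L s a y.2) _ _
      rw [h1]
      have h2 := A6.count_add l
      have h3 : l.length ≠ 0 := fun h3 => h (List.length_eq_zero_iff.1 h3)
      rcases Nat.eq_zero_or_pos (l.count true) with h4 | h4
      · obtain ⟨k, hk⟩ : ∃ k, l.count false = k + 1 := ⟨l.count false - 1, by omega⟩
        rw [hk, A6.Q_int k hL hs, mul_zero]
      · obtain ⟨k, hk⟩ : ∃ k, l.count true = k + 1 := ⟨l.count true - 1, by omega⟩
        rw [hk, A6.Q_int k hL hs, zero_mul]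

/-- joint continuity of the derivatives -/
theorem Dp_cont {L : ℝ} (hL : 0 < L) (l : List Bool) (hl : l.length ≤ 2) :
    ContinuousOn (fun v : ℝ × (ℝ × ℝ) × (ℝ × ℝ) => Ds l (p L v.1 v.2.1) v.2.2) (Ioi 0 ×ˢ univ) := by
  have h1 : ∀ (j : ℕ) (g : ℝ × (ℝ × ℝ) × (ℝ × ℝ) → ℝ), Continuous g → ContinuousOn
      (fun v : ℝ × (ℝ × ℝ) × (ℝ × ℝ) => A6.Sk j L v.1 (g v)) (Ioi 0 ×ˢ univ) := fun j g hg =>
    (A6.Sk_cont j hL).comp (continuous_fst.prodMk hg).continuousOn (fun v hv => ⟨hv.1, mem_univ _⟩)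
  have h2 : ContinuousOn (fun v : ℝ × (ℝ × ℝ) × (ℝ × ℝ) =>
      A6.Q 0 (l.count true) L v.1 v.2.1.1 v.2.2.1 * A6.Q 0 (l.count false) L v.1 v.2.1.2 v.2.2.2)
      (Ioi 0 ×ˢ univ) := by
    unfold A6.Q
    exact ((continuousOn_const.mul (h1 _ _ (by fun_prop))).add (h1 _ _ (by fun_prop))).mul
      ((continuousOn_const.mul (h1 _ _ (by fun_prop))).add (h1 _ _ (by fun_prop)))
  refine h2.congr fun v hv => ?_
  have hv0 : 0 < v.1 := hv.1
  simp only
  rw [A6.Ds_y l hL hv0 v.2.1]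

end Pool.Agent.Lib.H77M
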