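import Pool.Agent.Lib.H77M.A5

/-!
# Project H77M, chunk A7: mixing and trace
-/

open MeasureTheory Set ProbabilityTheory HurwitzZeta
open scoped ContDiff Real

namespace Pool.Agent.Lib.H77M

theorem a7_cos (a : ℝ) {t : ℝ} (ht : 1 / π ≤ t) :
    |cosKernel (a : ℝ) t - 1| ≤ 4 * Real.exp (-π * t) := by
  have hp := Real.pi_pos
  have ht0 : 0 < t := lt_of_lt_of_le (by positivity) ht
  have h1 := hasSum_nat_cosKernel₀ a ht0
  set r := Real.exp (-π * t) with hr
  have hr0 : 0 < r := Real.exp_pos _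
  have hpt : 1 ≤ π * t := by
    rw [div_le_iff₀ hp] at ht
    linarith
  have hr1 : r ≤ 1 / 2 := by
    have h2 : r ≤ Real.exp (-1) := Real.exp_le_exp.mpr (by linarith)
    have h3 : Real.exp (-1) ≤ 1 / 2 := by
      rw [Real.exp_neg, one_div]
      apply inv_anti₀ (by norm_num)
      have := Real.add_one_le_exp 1
      linarith
    linarith
  have h4 : HasSum (fun n : ℕ => 2 * r * r ^ n) (2 * r * (1 - r)⁻¹) :=
    (hasSum_geometric_of_lt_one hr0.le (by linarith)).mul_left _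
  have h5 : ∀ n : ℕ, |2 * Real.cos (2 * π * a * (n + 1)) * Real.exp (-π * (n + 1) ^ 2 * t)| ≤
      2 * r * r ^ n := by
    intro n
    rw [abs_mul, abs_mul, abs_of_pos (Real.exp_pos _), abs_of_pos (by norm_num : (0 : ℝ) < 2)]
    have h6 : Real.exp (-π * (n + 1) ^ 2 * t) ≤ r * r ^ n := by
      rw [← pow_succ', hr, ← Real.exp_nat_mul]
      apply Real.exp_le_exp.mpr
      push_cast
      have hn : (0 : ℝ) ≤ n := Nat.cast_nonneg n
      nlinarith [mul_nonneg hn (by linarith : (0 : ℝ) ≤ π * t),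
        mul_nonneg (mul_nonneg hn hn) (by linarith : (0 : ℝ) ≤ π * t)]
    have h7 := Real.abs_cos_le_one (2 * π * a * (n + 1))
    calc 2 * |Real.cos (2 * π * a * (n + 1))| * Real.exp (-π * (n + 1) ^ 2 * t)
        ≤ 2 * 1 * (r * r ^ n) := by gcongr
      _ = 2 * r * r ^ n := by ring
  have h8 : |cosKernel (a : ℝ) t - 1| ≤ 2 * r * (1 - r)⁻¹ := by
    rw [← Real.norm_eq_abs]
    exact h1.norm_le_of_bounded h4 h5
  refine h8.trans ?_
  have h9 : (1 - r)⁻¹ ≤ 2 := by
    rw [inv_le_comm₀ (by linarith) (by norm_num)]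
    linarith
  calc 2 * r * (1 - r)⁻¹ ≤ 2 * r * 2 := by gcongr
    _ = 4 * r := by ring

/-- deviation of the one dimensional kernel -/
theorem a7_Q_dev {L s : ℝ} (hL : 0 < L) (hs : L ^ 2 ≤ s) (u : ℝ) :
    |a5_Q L s u - 1 / (2 * L)| ≤ 2 / L * Real.exp (-(s / L ^ 2)) := by
  have hp := Real.pi_pos
  have hp3 := Real.pi_gt_three
  have hL2 : 0 < L ^ 2 := by positivity
  have hs0 : 0 < s := lt_of_lt_of_le hL2 hs
  have h1 : 1 ≤ s / L ^ 2 := by rwa [le_div_iff₀ hL2, one_mul]
  rw [a5_Q_cos hL hs0]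
  have h5 : (1 : ℝ) ≤ π * π := by nlinarith
  have h6 : s / L ^ 2 ≤ π * π * (s / L ^ 2) := le_mul_of_one_le_left (by positivity) h5
  have ht : 1 / π ≤ π * s / L ^ 2 := by
    rw [div_le_iff₀ hp, mul_div_assoc]
    linarith
  have h2 := a7_cos (u / (2 * L)) ht
  have h3 : cosKernel (u / (2 * L) : ℝ) (π * s / L ^ 2) / (2 * L) - 1 / (2 * L) =
      (cosKernel (u / (2 * L) : ℝ) (π * s / L ^ 2) - 1) / (2 * L) := by ring
  rw [h3, abs_div, abs_of_pos (by positivity : 0 < 2 * L)]
  have h4 : Real.exp (-π * (π * s / L ^ 2)) ≤ Real.exp (-(s / L ^ 2)) := by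
    apply Real.exp_le_exp.mpr
    rw [mul_div_assoc]
    linarith
  calc |cosKernel (u / (2 * L) : ℝ) (π * s / L ^ 2) - 1| / (2 * L)
      ≤ (4 * Real.exp (-(s / L ^ 2))) / (2 * L) := by
        apply div_le_div_of_nonneg_right _ (by positivity)
        linarith
    _ = 2 / L * Real.exp (-(s / L ^ 2)) := by
        field_simp
        ring

theorem a7_q_dev {L s : ℝ} (hL : 0 < L) (hs : L ^ 2 ≤ s) (a b : ℝ) :
    |q L s a b - 1 / L| ≤ 4 / L * Real.exp (-(s / L ^ 2)) := by
  have hs0 : 0 < s := lt_of_lt_of_le (by positivity) hs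
  rw [a5_q_eq hL hs0]
  have h1 := a7_Q_dev hL hs (b - a)
  have h2 := a7_Q_dev hL hs (b + a)
  have h3 : a5_Q L s (b - a) + a5_Q L s (b + a) - 1 / L =
      (a5_Q L s (b - a) - 1 / (2 * L)) + (a5_Q L s (b + a) - 1 / (2 * L)) := by
    field_simp
    ring
  rw [h3]
  refine (abs_add_le _ _).trans ?_
  have h4 : 4 / L * Real.exp (-(s / L ^ 2)) = 2 / L * Real.exp (-(s / L ^ 2)) +
      2 / L * Real.exp (-(s / L ^ 2)) := by ring
  linarith

/-- the mixing bound with explicit constants -/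
theorem a7_mix {L s : ℝ} (hL : 0 < L) (hs : L ^ 2 ≤ s) (x y : ℝ × ℝ) :
    |p L s x y - 1 / L ^ 2| ≤ 24 / L ^ 2 * Real.exp (-(s / L ^ 2)) := by
  have hL2 : 0 < L ^ 2 := by positivity
  have h1 := a7_q_dev hL hs x.1 y.1
  have h2 := a7_q_dev hL hs x.2 y.2
  set ε := Real.exp (-(s / L ^ 2)) with hε
  have hε0 : 0 < ε := Real.exp_pos _
  have hε1 : ε ≤ 1 := by
    rw [hε, Real.exp_le_one_iff]
    have : 0 ≤ s / L ^ 2 := div_nonneg ((sq_nonneg L).trans hs) hL2.le
    linarith
  unfold p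
  have h3 : q L s x.1 y.1 * q L s x.2 y.2 - 1 / L ^ 2 =
      (q L s x.1 y.1 - 1 / L) * (q L s x.2 y.2 - 1 / L) + (1 / L) * (q L s x.1 y.1 - 1 / L) +
        (1 / L) * (q L s x.2 y.2 - 1 / L) := by
    field_simp
    ring
  rw [h3]
  calc |(q L s x.1 y.1 - 1 / L) * (q L s x.2 y.2 - 1 / L) + (1 / L) * (q L s x.1 y.1 - 1 / L) +
        (1 / L) * (q L s x.2 y.2 - 1 / L)|
      ≤ |q L s x.1 y.1 - 1 / L| * |q L s x.2 y.2 - 1 / L| + (1 / L) * |q L s x.1 y.1 - 1 / L| +
        (1 / L) * |q L s x.2 y.2 - 1 / L| := by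
        refine (abs_add_three _ _ _).trans ?_
        rw [abs_mul, abs_mul, abs_mul, abs_of_pos (by positivity : 0 < 1 / L)]
    _ ≤ (4 / L * ε) * (4 / L * ε) + (1 / L) * (4 / L * ε) + (1 / L) * (4 / L * ε) := by
        gcongr
    _ ≤ (4 / L * ε) * (4 / L * 1) + (1 / L) * (4 / L * ε) + (1 / L) * (4 / L * ε) := by
        gcongr
    _ = 24 / L ^ 2 * ε := by
        field_simp
        ring

/-- mixing of the kernel -/
theorem p_mix : ∃ c C : ℝ, 0 < c ∧ 0 < C ∧ ∀ (L : ℝ), 0 < L → ∀ s, L ^ 2 ≤ s → ∀ x y : ℝ × ℝ,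
    |p L s x y - 1 / L ^ 2| ≤ C / L ^ 2 * Real.exp (-c * (s / L ^ 2)) := by
  refine ⟨1, 24, one_pos, by norm_num, fun L hL s hs x y => ?_⟩
  have := a7_mix hL hs x y
  rwa [neg_mul, one_mul]

theorem a7_Q_le {L s : ℝ} (hL : 0 < L) (hs : 0 < s) (u : ℝ) :
    a5_Q L s u ≤ 5 * (1 / √s + 1 / L) := by
  have hp := Real.pi_pos
  have hp3 := Real.pi_gt_three
  have hL2 : 0 < L ^ 2 := by positivity
  have hsq : 0 < √s := by positivity
  have h0 : a5_Q L s u ≤ a5_Q L s 0 := (le_abs_self _).trans (a5_Q_le hL hs u)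
  refine h0.trans ?_
  rcases le_total s (L ^ 2) with h | h
  · have h1 : a5_Q L s 0 = cosKernel (0 : ℝ) (L ^ 2 / (π * s)) / √(4 * π * s) := by
      rw [a5_Q_eq hL hs, zero_div]
      rw [show ((0 : ℝ) : UnitAddCircle) = 0 from AddCircle.coe_zero _,
        evenKernel_eq_cosKernel_of_zero]
    have ht : 1 / π ≤ L ^ 2 / (π * s) := by
      rw [div_le_div_iff₀ hp (by positivity)]
      nlinarith
    have h2 := a7_cos 0 ht
    have h3 : Real.exp (-π * (L ^ 2 / (π * s))) ≤ 1 := by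
      rw [Real.exp_le_one_iff]
      have : 0 ≤ π * (L ^ 2 / (π * s)) := by positivity
      linarith
    have h4 : cosKernel (0 : ℝ) (L ^ 2 / (π * s)) ≤ 5 := by
      have := (abs_le.mp h2).2
      linarith
    rw [h1]
    have h5 : √s ≤ √(4 * π * s) := by
      apply Real.sqrt_le_sqrt
      nlinarith
    calc cosKernel (0 : ℝ) (L ^ 2 / (π * s)) / √(4 * π * s) ≤ 5 / √(4 * π * s) := by gcongr
      _ ≤ 5 / √s := by gcongr
      _ = 5 * (1 / √s) := by ring
      _ ≤ 5 * (1 / √s + 1 / L) := by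
        have : 0 < 1 / L := by positivity
        nlinarith
  · have h1 := a7_Q_dev hL h 0
    have h3 : Real.exp (-(s / L ^ 2)) ≤ 1 := by
      rw [Real.exp_le_one_iff]
      have : 0 ≤ s / L ^ 2 := by positivity
      linarith
    have h2 := (abs_le.mp h1).2
    have h4 : 2 / L * Real.exp (-(s / L ^ 2)) ≤ 2 / L * 1 := by gcongr
    have h5 : 1 / (2 * L) = 1 / 2 * (1 / L) := by field_simp
    have h6 : 2 / L = 2 * (1 / L) := by ring
    have h7 : 0 < 1 / L := by positivity
    have h8 : 0 < 1 / √s := by positivity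
    rw [h5] at h2
    rw [h6] at h2 h4
    linarith

theorem a7_q_le {L s : ℝ} (hL : 0 < L) (hs : 0 < s) (a b : ℝ) :
    q L s a b ≤ 10 * (1 / √s + 1 / L) := by
  rw [a5_q_eq hL hs]
  have h1 := a7_Q_le hL hs (b - a)
  have h2 := a7_Q_le hL hs (b + a)
  linarith

theorem a7_p_le {L s : ℝ} (hL : 0 < L) (hs : 0 < s) (x y : ℝ × ℝ) :
    p L s x y ≤ 200 * (1 / s + 1 / L ^ 2) := by
  have hsq : 0 < √s := by positivity
  have h1 := a7_q_le hL hs x.1 y.1
  have h2 := a7_q_le hL hs x.2 y.2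
  unfold p
  calc q L s x.1 y.1 * q L s x.2 y.2
      ≤ (10 * (1 / √s + 1 / L)) * (10 * (1 / √s + 1 / L)) :=
        mul_le_mul h1 h2 (a5_q_pos hL hs _ _).le (by positivity)
    _ ≤ 200 * ((1 / √s) ^ 2 + (1 / L) ^ 2) := by
        nlinarith [sq_nonneg (1 / √s - 1 / L)]
    _ = 200 * (1 / s + 1 / L ^ 2) := by
        rw [div_pow, div_pow, one_pow, Real.sq_sqrt hs.le]

theorem p_le : ∃ C : ℝ, 0 < C ∧ ∀ (L : ℝ), 0 < L → ∀ s, 0 < s → ∀ x y : ℝ × ℝ,
    p L s x y ≤ C * (1 / s + 1 / L ^ 2) :=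
  ⟨200, by norm_num, fun _ hL _ hs x y => a7_p_le hL hs x y⟩

theorem a7_box (L : ℝ) : (volume : Measure (ℝ × ℝ)).restrict (box L) =
    ((volume : Measure ℝ).restrict (Icc 0 L)).prod ((volume : Measure ℝ).restrict (Icc 0 L)) := by
  rw [Measure.prod_restrict]
  rfl

theorem a7_int_Q {L s : ℝ} (hL : 0 < L) (hs : 0 < s) : ∫ b in (0 : ℝ)..L, a5_Q L s b = 1 / 2 := by
  have h := a5_int_q hL hs (g := fun _ => (1 : ℝ)) measurable_const (M := 1)
    (fun _ => by simp) (fun _ => rfl) (fun _ => rfl) 0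
  simp only [mul_one, integral_const, probReal_univ, smul_eq_mul, a5_q_eq hL hs, sub_zero,
    add_zero] at h
  rw [integral_Icc_eq_integral_Ioc, ← intervalIntegral.integral_of_le hL.le] at h
  have h2 : ∀ b, a5_Q L s b + a5_Q L s b = 2 * a5_Q L s b := fun b => by ring
  simp only [h2] at h
  rw [intervalIntegral.integral_const_mul] at h
  linarith

theorem a7_int_Q2 {L s : ℝ} (hL : 0 < L) (hs : 0 < s) :
    ∫ a in (0 : ℝ)..L, a5_Q L s (2 * a) = 1 / 2 := by
  have hc := a5_Q_cont2 hL hs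
  rw [intervalIntegral.integral_comp_mul_left (fun a => a5_Q L s a) two_ne_zero, mul_zero,
    ← intervalIntegral.integral_add_adjacent_intervals (hc.intervalIntegrable 0 L)
      (hc.intervalIntegrable L (2 * L)), a7_int_Q hL hs]
  have h1 : ∫ a in L..(2 * L), a5_Q L s a = ∫ a in (0 : ℝ)..L, a5_Q L s a := by
    have h2 := intervalIntegral.integral_comp_sub_left (a := 0) (b := L)
      (fun a => a5_Q L s a) (2 * L)
    have h3 : 2 * L - L = L := by ring
    rw [h3, sub_zero] at h2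
    rw [← h2]
    congr 1
    funext a
    rw [← a5_Q_neg hL hs a, ← a5_Q_per hL hs (-a)]
    congr 1
    ring
  rw [h1, a7_int_Q hL hs]
  norm_num

theorem a7_theta {L s : ℝ} (hL : 0 < L) (hs : 0 < s) :
    theta (s / L ^ 2) = 1 / 2 + L * a5_Q L s 0 := by
  have hp := Real.pi_pos
  unfold theta a5_Q
  rw [← tsum_mul_left]
  congr 2
  funext m
  unfold G
  have h1 : √(4 * π * (s / L ^ 2)) = √(4 * π * s) / L := by
    rw [← mul_div_assoc, Real.sqrt_div (by positivity), Real.sqrt_sq hL.le]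
  have h2 : -(0 + 2 * (m : ℝ) * L) ^ 2 / (4 * s) = -(m : ℝ) ^ 2 / (s / L ^ 2) := by
    field_simp
    ring
  rw [h1, h2]
  field_simp

/-- trace of the heat kernel -/
theorem p_trace {L s : ℝ} (hL : 0 < L) (hs : 0 < s) :
    ∫ x in box L, p L s x x = theta (s / L ^ 2) ^ 2 := by
  have h1 : ∫ a in Icc (0 : ℝ) L, q L s a a = theta (s / L ^ 2) := by
    rw [a7_theta hL hs, integral_Icc_eq_integral_Ioc, ← intervalIntegral.integral_of_le hL.le]
    have e : ∀ a, q L s a a = a5_Q L s 0 + a5_Q L s (2 * a) := fun a => by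
      rw [a5_q_eq hL hs, sub_self, two_mul]
    simp only [e]
    have hc : Continuous (fun a => a5_Q L s (2 * a)) := (a5_Q_cont2 hL hs).comp (by fun_prop)
    rw [intervalIntegral.integral_add (by simp) (hc.intervalIntegrable _ _), a7_int_Q2 hL hs]
    simp
    ring
  rw [a7_box]
  unfold p
  rw [integral_prod_mul (fun a => q L s a a) (fun a => q L s a a), h1, pow_two (theta _)]

/-- Mixing (Doeblin: the kernel of `P (L ^ 2)` is bounded below by `c / L ^ 2`). -/
theorem mixing : ∃ c C : ℝ, 0 < c ∧ 0 < C ∧ ∀ (L : ℝ), 0 < L → ∀ f : ℝ × ℝ → ℝ, CP L f → ∀ D : ℝ,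
    (∀ x y, f x - f y ≤ D) → ∀ s : ℝ, 0 ≤ s → ∀ x,
      |P s f x - (∫ y in box L, f y) / L ^ 2| ≤ C * Real.exp (-c * (s / L ^ 2)) * D := by
  refine ⟨1, 24, one_pos, by norm_num, fun L hL f hf D hD s hs x => ?_⟩
  rw [neg_mul, one_mul]
  have hL2 : 0 < L ^ 2 := by positivity
  have hD0 : 0 ≤ D := by
    have := hD 0 0
    linarith
  have hvol : (volume : Measure (ℝ × ℝ)).real (box L) = L ^ 2 := by
    have : (volume : Measure (ℝ × ℝ)) = (volume : Measure ℝ).prod volume := rfl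
    rw [this, box, measureReal_prod_prod, Real.volume_real_Icc_of_le hL.le]
    ring
  have hfi : IntegrableOn f (box L) :=
    hf.cont.continuousOn.integrableOn_compact (isCompact_Icc.prod isCompact_Icc)
  have hfin : (volume : Measure (ℝ × ℝ)) (box L) < ⊤ :=
    (isCompact_Icc.prod isCompact_Icc).measure_lt_top
  have hci : ∀ c : ℝ, IntegrableOn (fun _ : ℝ × ℝ => c) (box L) := fun c =>
    continuousOn_const.integrableOn_compact (isCompact_Icc.prod isCompact_Icc)
  rcases le_total (L ^ 2) s with h | h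
  · have hs0 : 0 < s := lt_of_lt_of_le hL2 h
    have h1 := int_p hL hs0 hf x
    have h2 := int_p hL hs0 (CP_const L 1) x
    rw [P_const] at h2
    simp only [mul_one] at h2
    have hpi : IntegrableOn (p L s x) (box L) :=
      (a5_p_CP hL hs0 x).cont.continuousOn.integrableOn_compact (isCompact_Icc.prod isCompact_Icc)
    have hpfi : IntegrableOn (fun y => p L s x y * f y) (box L) :=
      ((a5_p_CP hL hs0 x).cont.mul hf.cont).continuousOn.integrableOn_compact
        (isCompact_Icc.prod isCompact_Icc)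
    have h3 : P s f x - (∫ y in box L, f y) / L ^ 2 =
        ∫ y in box L, (p L s x y - 1 / L ^ 2) * (f y - f 0) := by
      have e : ∀ y, (p L s x y - 1 / L ^ 2) * (f y - f 0) =
          (p L s x y * f y - 1 / L ^ 2 * f y) - (f 0 * p L s x y - 1 / L ^ 2 * f 0) := fun y => by
        ring
      have i1 : IntegrableOn (fun y => p L s x y * f y - 1 / L ^ 2 * f y) (box L) :=
        hpfi.sub (hfi.const_mul _)
      have i2 : IntegrableOn (fun y => f 0 * p L s x y - 1 / L ^ 2 * f 0) (box L) :=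
        (hpi.const_mul _).sub (hci _)
      simp_rw [e]
      rw [integral_sub i1 i2,
        integral_sub hpfi (hfi.const_mul _), integral_sub (hpi.const_mul _) (hci _),
        integral_const_mul, integral_const_mul, h1, h2, setIntegral_const, hvol, smul_eq_mul]
      field_simp
      ring
    rw [h3, ← Real.norm_eq_abs]
    have h4 := norm_setIntegral_le_of_norm_le_const (μ := (volume : Measure (ℝ × ℝ)))
      (s := box L) (f := fun y => (p L s x y - 1 / L ^ 2) * (f y - f 0))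
      (C := 24 / L ^ 2 * Real.exp (-(s / L ^ 2)) * D) hfin (fun y _ => ?_)
    · refine h4.trans (le_of_eq ?_)
      rw [hvol]
      field_simp
    · rw [Real.norm_eq_abs, abs_mul]
      refine mul_le_mul (a7_mix hL h x y) ?_ (abs_nonneg _) (by positivity)
      rw [abs_le]
      have h5 := hD y 0
      have h6 := hD 0 y
      constructor <;> linarith
  · have h1 : ∀ y, |P s f x - f y| ≤ D := by
      intro y
      have h2 := P_mono s hL hf (CP_const L (f y + D)) (fun z => by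
        have := hD z y
        linarith) x
      have h3 := P_mono s hL (CP_const L (f y - D)) hf (fun z => by
        have := hD y z
        linarith) x
      rw [P_const] at h2 h3
      rw [abs_le]
      constructor <;> linarith
    have h2 : P s f x - (∫ y in box L, f y) / L ^ 2 =
        (∫ y in box L, (P s f x - f y)) / L ^ 2 := by
      rw [integral_sub (hci _) hfi, setIntegral_const, hvol, smul_eq_mul]
      field_simp
    have h3 := norm_setIntegral_le_of_norm_le_const (μ := (volume : Measure (ℝ × ℝ)))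
      (s := box L) (f := fun y => P s f x - f y) (C := D) hfin (fun y _ => h1 y)
    rw [hvol, Real.norm_eq_abs] at h3
    rw [h2, abs_div, abs_of_pos hL2, div_le_iff₀ hL2]
    refine h3.trans ?_
    have h4 : 1 ≤ 24 * Real.exp (-(s / L ^ 2)) := by
      have h5 : Real.exp (-1) ≤ Real.exp (-(s / L ^ 2)) := by
        apply Real.exp_le_exp.mpr
        have : s / L ^ 2 ≤ 1 := by rwa [div_le_one hL2]
        linarith
      have h6 := Real.exp_one_lt_d9
      have h7 : (1 : ℝ) / 24 ≤ Real.exp (-1) := by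
        rw [Real.exp_neg, one_div]
        apply inv_anti₀ (Real.exp_pos _)
        linarith
      linarith
    nlinarith [mul_nonneg hD0 hL2.le]

theorem a7_theta1 {v : ℝ} (hv : 0 < v) : theta v = 1 / 2 + a5_Q 1 v 0 := by
  have := a7_theta (L := 1) one_pos hv
  rwa [one_pow, div_one, one_mul] at this

/-- the trace function is continuous and `theta ^ 2 - 1` is integrable at infinity -/
theorem theta_int {s : ℝ} (hs : 0 < s) :
    IntegrableOn (fun v => theta v ^ 2 - 1) (Ioi s) := by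
  refine integrable_of_isBigO_exp_neg (b := 1) one_pos ?_ ?_
  · have h1 : ContinuousOn (fun v : ℝ => a5_Q 1 v 0) (Ici s) :=
      (a5_Q_cont (L := 1) one_pos).comp (f := fun v : ℝ => (v, (0 : ℝ))) (by fun_prop)
        (fun v hv => ⟨lt_of_lt_of_le hs hv, mem_univ _⟩)
    have h2 : ContinuousOn (fun v : ℝ => (1 / 2 + a5_Q 1 v 0) ^ 2 - 1) (Ici s) :=
      ((continuousOn_const.add h1).pow 2).sub continuousOn_const
    refine h2.congr fun v hv => ?_
    simp only
    rw [a7_theta1 (lt_of_lt_of_le hs hv)]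
  · rw [Asymptotics.isBigO_iff]
    refine ⟨8, ?_⟩
    filter_upwards [Filter.eventually_ge_atTop 1] with v hv
    have hv0 : 0 < v := by linarith
    have h1 := a7_Q_dev (L := 1) one_pos (s := v) (by simpa using hv) 0
    simp only [mul_one, one_pow, div_one] at h1
    rw [a7_theta1 hv0, Real.norm_eq_abs, Real.norm_eq_abs, abs_of_pos (Real.exp_pos _), neg_mul,
      one_mul]
    have h2 : Real.exp (-v) ≤ 1 := by
      rw [Real.exp_le_one_iff]
      linarith
    have h3 : (1 / 2 + a5_Q 1 v 0) ^ 2 - 1 = (a5_Q 1 v 0 - 1 / 2) * (a5_Q 1 v 0 - 1 / 2 + 2) := by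
      ring
    rw [h3, abs_mul]
    have h4 : |a5_Q 1 v 0 - 1 / 2 + 2| ≤ 4 := by
      refine (abs_add_le _ _).trans ?_
      rw [abs_of_pos (by norm_num : (0 : ℝ) < 2)]
      linarith
    calc |a5_Q 1 v 0 - 1 / 2| * |a5_Q 1 v 0 - 1 / 2 + 2| ≤ (2 * Real.exp (-v)) * 4 := by
          gcongr
      _ = 8 * Real.exp (-v) := by ring

end Pool.Agent.Lib.H77M
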