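import Pool.Agent.Lib.H77M.A5

/-!
# Project H77M, chunk A8: comparison of the kernels of the big box and of a cell
-/

open MeasureTheory Set ProbabilityTheory
open scoped ContDiff

namespace Pool.Agent.Lib.H77M

theorem a8_G_nonneg {s : ℝ} (u : ℝ) : 0 ≤ G s u := by
  unfold G; positivity

theorem a8_summable {L s : ℝ} (hL : 0 < L) (hs : 0 < s) (c : ℝ) :
    Summable (fun m : ℤ => G s (c + 2 * m * L)) := by
  have hpi := Real.pi_pos
  set τ : ℂ := ⟨0, L ^ 2 / (Real.pi * s)⟩ with hτ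
  set z : ℂ := ⟨0, c * L / (2 * Real.pi * s)⟩ with hz
  have h1 : Summable (fun m : ℤ => jacobiTheta₂_term m z τ) :=
    (summable_jacobiTheta₂_term_iff z τ).mpr (by simp only [hτ]; positivity)
  have h2 := h1.norm.mul_left (Real.exp (-c ^ 2 / (4 * s)) / √(4 * Real.pi * s))
  refine h2.congr (fun m => ?_)
  rw [norm_jacobiTheta₂_term]
  unfold G
  rw [div_mul_eq_mul_div, ← Real.exp_add]
  congr 2
  simp only [hτ, hz]
  field_simp
  ring

/-- the part of the kernel of the images different from the point -/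
noncomputable def a8_r (L s a b : ℝ) : ℝ :=
  ∑' m : ℤ, ((if m = 0 then 0 else G s (b - a + 2 * m * L)) + G s (b + a + 2 * m * L))

theorem a8_summable_r {L s : ℝ} (hL : 0 < L) (hs : 0 < s) (a b : ℝ) :
    Summable (fun m : ℤ => (if m = 0 then 0 else G s (b - a + 2 * m * L)) +
      G s (b + a + 2 * m * L)) := by
  refine Summable.add ?_ (a8_summable hL hs _)
  refine Summable.of_nonneg_of_le (fun m => ?_) (fun m => ?_) (a8_summable hL hs (b - a))
  · split_ifs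
    · exact le_rfl
    · exact a8_G_nonneg _
  · split_ifs
    · exact a8_G_nonneg _
    · exact le_rfl

theorem a8_split {L s : ℝ} (hL : 0 < L) (hs : 0 < s) (a b : ℝ) :
    q L s a b = G s (b - a) + a8_r L s a b := by
  unfold q a8_r
  have h0 : HasSum (fun m : ℤ => if m = 0 then G s (b - a) else 0) (G s (b - a)) :=
    hasSum_ite_eq 0 _
  have h1 := (a8_summable_r hL hs a b).hasSum
  have h2 := h0.add h1
  rw [← h2.tsum_eq]
  refine tsum_congr (fun m => ?_)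
  by_cases hm : m = 0
  · subst hm; simp
  · simp [hm]

theorem a8_r_nonneg {L s : ℝ} (a b : ℝ) : 0 ≤ a8_r L s a b := by
  refine tsum_nonneg (fun m => ?_)
  have h1 := a8_G_nonneg (s := s) (b - a + 2 * m * L)
  have h2 := a8_G_nonneg (s := s) (b + a + 2 * m * L)
  split_ifs <;> linarith

theorem a8_G_eq {t : ℝ} (ht : 0 < t) (u : ℝ) :
    G t u = √2 * Real.exp (-u ^ 2 / (8 * t)) * G (2 * t) u := by
  unfold G
  have hpi := Real.pi_pos
  have h1 : √(4 * Real.pi * (2 * t)) = √2 * √(4 * Real.pi * t) := by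
    rw [← Real.sqrt_mul (by norm_num)]
    congr 1
    ring
  have h2 : Real.exp (-u ^ 2 / (4 * t)) =
      Real.exp (-u ^ 2 / (8 * t)) * Real.exp (-u ^ 2 / (4 * (2 * t))) := by
    rw [← Real.exp_add]
    congr 1
    field_simp
    ring
  rw [h1, h2]
  have h3 : √(4 * Real.pi * t) ≠ 0 := (Real.sqrt_pos.mpr (by positivity)).ne'
  have h4 : √2 ≠ 0 := (Real.sqrt_pos.mpr (by norm_num)).ne'
  field_simp

theorem a8_G_le {t d : ℝ} (ht : 0 < t) (hd : 0 ≤ d) {u : ℝ} (hu : d ≤ |u|) :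
    G t u ≤ √2 * Real.exp (-d ^ 2 / (8 * t)) * G (2 * t) u := by
  rw [a8_G_eq ht]
  refine mul_le_mul_of_nonneg_right ?_ (a8_G_nonneg _)
  refine mul_le_mul_of_nonneg_left ?_ (Real.sqrt_nonneg _)
  refine Real.exp_le_exp.mpr ?_
  refine div_le_div_of_nonneg_right ?_ (by positivity)
  have := sq_le_sq' (by linarith [abs_nonneg u]) hu
  rw [sq_abs] at this
  linarith

theorem a8_r_le {L t d : ℝ} (hL : 0 < L) (ht : 0 < t) (hd : 0 ≤ d) (a b : ℝ)
    (h1 : ∀ m : ℤ, m ≠ 0 → d ≤ |b - a + 2 * m * L|) (h2 : ∀ m : ℤ, d ≤ |b + a + 2 * m * L|) :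
    a8_r L t a b ≤ √2 * Real.exp (-d ^ 2 / (8 * t)) * a8_r L (2 * t) a b := by
  unfold a8_r
  rw [← tsum_mul_left]
  refine Summable.tsum_le_tsum (fun m => ?_) (a8_summable_r hL ht a b)
    ((a8_summable_r hL (by positivity) a b).mul_left _)
  rw [mul_add]
  refine add_le_add ?_ (a8_G_le ht hd (h2 m))
  by_cases hm : m = 0
  · simp [hm]
  · simp only [hm, if_false]
    exact a8_G_le ht hd (h1 m hm)

/-- distances of the images -/
theorem a8_dist {L d a b : ℝ} (hL : 0 < L) (ha : 0 ≤ a) (ha' : a < L) (hb : d ≤ b)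
    (hb' : b ≤ L - d) : (∀ m : ℤ, m ≠ 0 → d ≤ |b - a + 2 * m * L|) ∧
      (∀ m : ℤ, d ≤ |b + a + 2 * m * L|) := by
  constructor
  · intro m hm
    rcases lt_or_gt_of_ne hm with h | h
    · have : (m : ℝ) ≤ -1 := by exact_mod_cast (by omega : m ≤ -1)
      rw [le_abs]
      right
      nlinarith
    · have : (1 : ℝ) ≤ m := by exact_mod_cast (by omega : 1 ≤ m)
      rw [le_abs]
      left
      nlinarith
  · intro m
    rcases lt_or_ge m 0 with h | h
    · have : (m : ℝ) ≤ -1 := by exact_mod_cast (by omega : m ≤ -1)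
      rw [le_abs]
      right
      nlinarith
    · have : (0 : ℝ) ≤ m := by exact_mod_cast h
      rw [le_abs]
      left
      nlinarith [mul_nonneg this hL.le]

theorem a8_r_le' {L t d a b : ℝ} (hL : 0 < L) (ht : 0 < t) (hd : 0 ≤ d) (ha : 0 ≤ a)
    (ha' : a < L) (hb : d ≤ b) (hb' : b ≤ L - d) :
    a8_r L t a b ≤ √2 * Real.exp (-d ^ 2 / (8 * t)) * a8_r L (2 * t) a b :=
  a8_r_le hL ht hd a b (a8_dist hL ha ha' hb hb').1 (a8_dist hL ha ha' hb hb').2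

theorem a8_q_nonneg {L s : ℝ} (a b : ℝ) : 0 ≤ q L s a b := by
  refine tsum_nonneg (fun m => ?_)
  have h1 := a8_G_nonneg (s := s) (b - a + 2 * m * L)
  have h2 := a8_G_nonneg (s := s) (b + a + 2 * m * L)
  linarith

/-- if the point itself is also far -/
theorem a8_q_le {L t d a b : ℝ} (hL : 0 < L) (ht : 0 < t) (hd : 0 ≤ d) (ha : 0 ≤ a)
    (ha' : a < L) (hb : d ≤ b) (hb' : b ≤ L - d) (hab : d ≤ |b - a|) :
    q L t a b ≤ √2 * Real.exp (-d ^ 2 / (8 * t)) * q L (2 * t) a b := by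
  rw [a8_split hL ht, a8_split hL (by positivity : 0 < 2 * t), mul_add]
  exact add_le_add (a8_G_le ht hd hab) (a8_r_le' hL ht hd ha ha' hb hb')

/-- without the gain -/
theorem a8_q_le0 {L t a b : ℝ} (hL : 0 < L) (ht : 0 < t) (ha : 0 ≤ a)
    (ha' : a < L) (hb : 0 ≤ b) (hb' : b ≤ L) :
    q L t a b ≤ √2 * q L (2 * t) a b := by
  have := a8_q_le hL ht le_rfl ha ha' hb (by simpa using hb') (abs_nonneg (b - a))
  simpa using this

theorem a8_G_le0 {t : ℝ} (ht : 0 < t) (u : ℝ) : G t u ≤ √2 * G (2 * t) u := by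
  have := a8_G_le ht le_rfl (abs_nonneg u)
  simpa using this

/-- the one-cell estimate: `p - (identity term)` -/
theorem a8_p_sub {L t d : ℝ} (hL : 0 < L) (ht : 0 < t) (hd : 0 ≤ d) {x y : ℝ × ℝ}
    (hx : x ∈ hbox L) (hy1 : d ≤ y.1 ∧ y.1 ≤ L - d) (hy2 : d ≤ y.2 ∧ y.2 ≤ L - d) :
    0 ≤ p L t x y - G t (y.1 - x.1) * G t (y.2 - x.2) ∧
    p L t x y - G t (y.1 - x.1) * G t (y.2 - x.2) ≤
      2 * Real.exp (-d ^ 2 / (8 * t)) * p L (2 * t) x y := by
  obtain ⟨⟨hx1, hx1'⟩, ⟨hx2, hx2'⟩⟩ := hx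
  have ht2 : 0 < 2 * t := by positivity
  set E := Real.exp (-d ^ 2 / (8 * t)) with hE
  have hE0 : 0 < E := Real.exp_pos _
  have hE1 : E ≤ 1 := by
    rw [hE]
    refine Real.exp_le_one_iff.mpr ?_
    exact div_nonpos_of_nonpos_of_nonneg (by nlinarith [sq_nonneg d]) (by positivity)
  have g1 := a8_G_nonneg (s := t) (y.1 - x.1)
  have g2 := a8_G_nonneg (s := t) (y.2 - x.2)
  have g1' := a8_G_nonneg (s := 2 * t) (y.1 - x.1)
  have g2' := a8_G_nonneg (s := 2 * t) (y.2 - x.2)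
  have r1 := a8_r_nonneg (L := L) (s := t) x.1 y.1
  have r2 := a8_r_nonneg (L := L) (s := t) x.2 y.2
  have r1' := a8_r_nonneg (L := L) (s := 2 * t) x.1 y.1
  have r2' := a8_r_nonneg (L := L) (s := 2 * t) x.2 y.2
  have e1 := a8_r_le' hL ht hd hx1 hx1' hy1.1 hy1.2
  have e2 := a8_r_le' hL ht hd hx2 hx2' hy2.1 hy2.2
  rw [← hE] at e1 e2
  have f1 := a8_G_le0 ht (y.1 - x.1)
  have f2 := a8_G_le0 ht (y.2 - x.2)
  have k2 : q L t x.2 y.2 ≤ √2 * q L (2 * t) x.2 y.2 :=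
    a8_q_le0 hL ht hx2 hx2' (by linarith [hy2.1]) (by linarith [hy2.2])
  have n2 := a8_q_nonneg (L := L) (s := t) x.2 y.2
  have n2' := a8_q_nonneg (L := L) (s := 2 * t) x.2 y.2
  have hs2 : √2 * √2 = (2 : ℝ) := Real.mul_self_sqrt (by norm_num)
  have hs0 : 0 ≤ √(2 : ℝ) := Real.sqrt_nonneg _
  have key : p L t x y - G t (y.1 - x.1) * G t (y.2 - x.2) =
      a8_r L t x.1 y.1 * q L t x.2 y.2 + G t (y.1 - x.1) * a8_r L t x.2 y.2 := by
    unfold p
    rw [a8_split hL ht x.1 y.1, a8_split hL ht x.2 y.2]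
    ring
  have key' : p L (2 * t) x y = G (2 * t) (y.1 - x.1) * G (2 * t) (y.2 - x.2) +
      (a8_r L (2 * t) x.1 y.1 * q L (2 * t) x.2 y.2 +
        G (2 * t) (y.1 - x.1) * a8_r L (2 * t) x.2 y.2) := by
    unfold p
    rw [a8_split hL ht2 x.1 y.1, a8_split hL ht2 x.2 y.2]
    ring
  rw [key]
  refine ⟨by positivity, ?_⟩
  rw [key']
  have i1 : a8_r L t x.1 y.1 * q L t x.2 y.2 ≤
      (√2 * E * a8_r L (2 * t) x.1 y.1) * (√2 * q L (2 * t) x.2 y.2) :=
    mul_le_mul e1 k2 n2 (by positivity)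
  have i2 : G t (y.1 - x.1) * a8_r L t x.2 y.2 ≤
      (√2 * G (2 * t) (y.1 - x.1)) * (√2 * E * a8_r L (2 * t) x.2 y.2) :=
    mul_le_mul f1 e2 r2 (by positivity)
  have j1 : (√2 * E * a8_r L (2 * t) x.1 y.1) * (√2 * q L (2 * t) x.2 y.2) =
      2 * E * (a8_r L (2 * t) x.1 y.1 * q L (2 * t) x.2 y.2) := by
    linear_combination (E * (a8_r L (2 * t) x.1 y.1 * q L (2 * t) x.2 y.2)) * hs2
  have j2 : (√2 * G (2 * t) (y.1 - x.1)) * (√2 * E * a8_r L (2 * t) x.2 y.2) =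
      2 * E * (G (2 * t) (y.1 - x.1) * a8_r L (2 * t) x.2 y.2) := by
    linear_combination (E * (G (2 * t) (y.1 - x.1) * a8_r L (2 * t) x.2 y.2)) * hs2
  have j3 : 0 ≤ 2 * E * (G (2 * t) (y.1 - x.1) * G (2 * t) (y.2 - x.2)) := by positivity
  nlinarith [i1, i2, j1, j2, j3]

/-- a source out of the cell -/
theorem a8_p_far {L t d : ℝ} (hL : 0 < L) (ht : 0 < t) (hd : 0 ≤ d) {x y : ℝ × ℝ}
    (hx : x ∈ hbox L) (hy1 : d ≤ y.1 ∧ y.1 ≤ L - d) (hy2 : d ≤ y.2 ∧ y.2 ≤ L - d)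
    (hxy : d ≤ |y.1 - x.1| ∨ d ≤ |y.2 - x.2|) :
    p L t x y ≤ 2 * Real.exp (-d ^ 2 / (8 * t)) * p L (2 * t) x y := by
  obtain ⟨⟨hx1, hx1'⟩, ⟨hx2, hx2'⟩⟩ := hx
  set E := Real.exp (-d ^ 2 / (8 * t)) with hE
  have hE0 : 0 < E := Real.exp_pos _
  have hs2 : √2 * √2 = (2 : ℝ) := Real.mul_self_sqrt (by norm_num)
  have n1 := a8_q_nonneg (L := L) (s := t) x.1 y.1
  have n1' := a8_q_nonneg (L := L) (s := 2 * t) x.1 y.1
  have n2 := a8_q_nonneg (L := L) (s := t) x.2 y.2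
  have n2' := a8_q_nonneg (L := L) (s := 2 * t) x.2 y.2
  have k1 : q L t x.1 y.1 ≤ √2 * q L (2 * t) x.1 y.1 :=
    a8_q_le0 hL ht hx1 hx1' (by linarith [hy1.1]) (by linarith [hy1.2])
  have k2 : q L t x.2 y.2 ≤ √2 * q L (2 * t) x.2 y.2 :=
    a8_q_le0 hL ht hx2 hx2' (by linarith [hy2.1]) (by linarith [hy2.2])
  unfold p
  rcases hxy with h | h
  · have m1 := a8_q_le hL ht hd hx1 hx1' hy1.1 hy1.2 h
    rw [← hE] at m1
    calc q L t x.1 y.1 * q L t x.2 y.2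
        ≤ (√2 * E * q L (2 * t) x.1 y.1) * (√2 * q L (2 * t) x.2 y.2) :=
          mul_le_mul m1 k2 n2 (by positivity)
      _ = (√2 * √2) * E * (q L (2 * t) x.1 y.1 * q L (2 * t) x.2 y.2) := by ring
      _ = _ := by rw [hs2]
  · have m2 := a8_q_le hL ht hd hx2 hx2' hy2.1 hy2.2 h
    rw [← hE] at m2
    calc q L t x.1 y.1 * q L t x.2 y.2
        ≤ (√2 * q L (2 * t) x.1 y.1) * (√2 * E * q L (2 * t) x.2 y.2) :=
          mul_le_mul k1 m2 n2 (by positivity)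
      _ = (√2 * √2) * E * (q L (2 * t) x.1 y.1 * q L (2 * t) x.2 y.2) := by ring
      _ = _ := by rw [hs2]

/-- (LOCK) The sources which are not points of the cell are at distance at least `d` from `y`; use
`G2_t(u) ≤ 2 e^{-d²/8t} G2_{2t}(u)`. -/
theorem rho_lock {l t d : ℝ} (k : ℕ) (hl : 0 < l) (ht : 0 < t) (hd : 0 ≤ d) {ι : Type} [Fintype ι]
    (X : ι → ℝ × ℝ) (hX : ∀ i, X i ∈ hbox (k * l)) (a b : ℕ) (ha : a < k) (hb : b < k)
    (y : ℝ × ℝ) (hy1 : d ≤ y.1 ∧ y.1 ≤ l - d) (hy2 : d ≤ y.2 ∧ y.2 ≤ l - d) :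
    |rho (k * l) t X (y.1 + a * l, y.2 + b * l) - rho l t (CX l X a b) y| ≤
      2 * Real.exp (-d ^ 2 / (8 * t)) *
        (rho (k * l) (2 * t) X (y.1 + a * l, y.2 + b * l) + rho l (2 * t) (CX l X a b) y) := by
  classical
  set E := Real.exp (-d ^ 2 / (8 * t)) with hE
  have hkl : (0 : ℝ) < k * l := by
    have : (0 : ℝ) < k := by exact_mod_cast (by omega : 0 < k)
    positivity
  have hak : (a : ℝ) * l + l ≤ k * l := by
    have : (a : ℝ) + 1 ≤ k := by exact_mod_cast ha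
    nlinarith
  have hbk : (b : ℝ) * l + l ≤ k * l := by
    have : (b : ℝ) + 1 ≤ k := by exact_mod_cast hb
    nlinarith
  have hal : 0 ≤ (a : ℝ) * l := by positivity
  have hbl : 0 ≤ (b : ℝ) * l := by positivity
  have hsum : ∀ s : ℝ, rho l s (CX l X a b) y = ∑ i, (if X i ∈ cell l a b then
      p l s ((X i).1 - a * l, (X i).2 - b * l) y else 0) := by
    intro s
    unfold rho
    rw [← Finset.sum_filter]
    rw [Finset.sum_subtype (Finset.univ.filter fun i => X i ∈ cell l a b)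
      (p := fun i => X i ∈ cell l a b) (by simp)]
    exact Fintype.sum_equiv (Equiv.refl {i : ι // X i ∈ cell l a b}) _ _ (fun _ => rfl)
  rw [hsum t, hsum (2 * t)]
  unfold rho
  rw [← Finset.sum_sub_distrib, ← Finset.sum_add_distrib, Finset.mul_sum]
  refine (Finset.abs_sum_le_sum_abs _ _).trans (Finset.sum_le_sum fun i _ => ?_)
  have hyb1 : d ≤ y.1 + a * l ∧ y.1 + a * l ≤ k * l - d := ⟨by linarith [hy1.1], by linarith [hy1.2]⟩
  have hyb2 : d ≤ y.2 + b * l ∧ y.2 + b * l ≤ k * l - d := ⟨by linarith [hy2.1], by linarith [hy2.2]⟩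
  by_cases hc : X i ∈ cell l a b
  · rw [if_pos hc, if_pos hc]
    obtain ⟨⟨c1, c1'⟩, ⟨c2, c2'⟩⟩ := hc
    have A := a8_p_sub hkl ht hd (x := X i) (y := (y.1 + a * l, y.2 + b * l)) (hX i) hyb1 hyb2
    have B := a8_p_sub hl ht hd (x := ((X i).1 - a * l, (X i).2 - b * l)) (y := y)
      ⟨⟨by simpa using c1, by simp; linarith⟩, ⟨by simpa using c2, by simp; linarith⟩⟩ hy1 hy2
    rw [← hE] at A B
    simp only at A B
    have e1 : y.1 + a * l - (X i).1 = y.1 - ((X i).1 - a * l) := by ring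
    have e2 : y.2 + b * l - (X i).2 = y.2 - ((X i).2 - b * l) := by ring
    rw [e1, e2] at A
    rw [abs_le]
    constructor <;> nlinarith [A.1, A.2, B.1, B.2]
  · rw [if_neg hc, if_neg hc, sub_zero, add_zero]
    have hp0 : 0 ≤ p (k * l) t (X i) (y.1 + a * l, y.2 + b * l) :=
      mul_nonneg (a8_q_nonneg _ _) (a8_q_nonneg _ _)
    rw [abs_of_nonneg hp0]
    refine a8_p_far hkl ht hd (hX i) hyb1 hyb2 ?_
    simp only
    by_contra hcon
    push Not at hcon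
    obtain ⟨u1, u2⟩ := hcon
    rw [abs_lt] at u1 u2
    apply hc
    refine ⟨⟨?_, ?_⟩, ⟨?_, ?_⟩⟩
    · linarith [hy1.1]
    · linarith [hy1.2]
    · linarith [hy2.1]
    · linarith [hy2.2]

end Pool.Agent.Lib.H77M
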