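import Pool.Agent.Lib.H77M.A6

/-!
# Project H77M, chunk A9: the big semigroup against the cell semigroups
-/

open MeasureTheory Set ProbabilityTheory
open scoped ContDiff ENNReal

namespace Pool.Agent.Lib.H77M

/-- the set of points of the big box at distance at most `R` from the grid lines -/
def layer (l R : ℝ) (k : ℕ) : Set (ℝ × ℝ) :=
  {y | y ∈ box (k * l) ∧ ∃ m : ℕ, m ≤ k ∧ (|y.1 - m * l| ≤ R ∨ |y.2 - m * l| ≤ R)}

namespace A9

/-- the Gaussian density in the plane -/
noncomputable def GG (t : ℝ) (x y : ℝ × ℝ) : ℝ := G t (y.1 - x.1) * G t (y.2 - x.2)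

theorem GG_nonneg {t : ℝ} (ht : 0 < t) (x y : ℝ × ℝ) : 0 ≤ GG t x y :=
  mul_nonneg (A6.G_pos ht _).le (A6.G_pos ht _).le

theorem G_cont (t : ℝ) : Continuous (G t) := by
  unfold G; fun_prop

theorem GG_cont (t : ℝ) (x : ℝ × ℝ) : Continuous (GG t x) := by
  have := G_cont t
  unfold GG; fun_prop

theorem G_integrable {t : ℝ} (ht : 0 < t) : Integrable (G t) := by
  have h := (integrable_exp_neg_mul_sq (show 0 < 1 / (4 * t) by positivity)).div_const
    (√(4 * Real.pi * t))
  refine h.congr (Filter.Eventually.of_forall fun u => ?_)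
  simp only [G]
  congr 2
  field_simp

theorem GG_integrable {t : ℝ} (ht : 0 < t) (x : ℝ × ℝ) : Integrable (GG t x) := by
  have h1 := (G_integrable ht).comp_sub_right x.1
  have h2 := (G_integrable ht).comp_sub_right x.2
  exact h1.mul_prod h2

theorem gauss1 {t : ℝ} (ht : 0 < t) (h : ℝ → ℝ) (x : ℝ) :
    ∫ z, h (x + √(2 * t) * z) ∂(gaussianReal 0 1) = ∫ y, h y * G t (y - x) := by
  rw [integral_gaussianReal_eq_integral_smul one_ne_zero]
  have hr : 0 < √(2 * t) := by positivity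
  have hr2 : √(2 * t) * √(2 * t) = 2 * t := Real.mul_self_sqrt (by positivity)
  have e : ∀ z, gaussianPDFReal 0 1 z • h (x + √(2 * t) * z) =
      √(2 * t) * (fun w => h (x + w) * G t w) (√(2 * t) * z) := by
    intro z
    simp only [gaussianPDFReal, G, smul_eq_mul, sub_zero, NNReal.coe_one, mul_one]
    have e1 : √(4 * Real.pi * t) = √(2 * Real.pi) * √(2 * t) := by
      rw [← Real.sqrt_mul (by positivity)]; congr 1; ring
    have e2 : -(√(2 * t) * z) ^ 2 / (4 * t) = -z ^ 2 / 2 := by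
      rw [mul_pow, pow_two (√(2 * t)), hr2]; field_simp; ring
    rw [e1, e2]
    field_simp
  simp_rw [e]
  rw [integral_const_mul, Measure.integral_comp_mul_left (fun w => h (x + w) * G t w) (√(2 * t)),
    abs_of_pos (by positivity), smul_eq_mul, ← mul_assoc, mul_inv_cancel₀ hr.ne', one_mul,
    ← integral_add_left_eq_self (fun y => h y * G t (y - x)) x]
  simp only [add_sub_cancel_left]

theorem gauss2 {t : ℝ} (ht : 0 < t) {g : ℝ × ℝ → ℝ} (hg : Measurable g) {B : ℝ}
    (hB : ∀ y, |g y| ≤ B) (x : ℝ × ℝ) :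
    ∫ z, g (x.1 + √(2 * t) * z.1, x.2 + √(2 * t) * z.2) ∂gam = ∫ y, g y * GG t x y := by
  have i1 : Integrable (fun z : ℝ × ℝ => g (x.1 + √(2 * t) * z.1, x.2 + √(2 * t) * z.2))
      ((gaussianReal 0 1).prod (gaussianReal 0 1)) := by
    refine Integrable.of_bound (C := B) ?_ (Filter.Eventually.of_forall fun z => hB _)
    exact (hg.comp (by fun_prop)).aestronglyMeasurable
  have i2 : Integrable (fun y : ℝ × ℝ => g y * GG t x y)
      ((volume : Measure ℝ).prod (volume : Measure ℝ)) := by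
    have := (GG_integrable ht x).bdd_mul hg.aestronglyMeasurable
      (Filter.Eventually.of_forall fun z => (hB z : ‖g z‖ ≤ B))
    exact this
  unfold gam
  rw [integral_prod _ i1, Measure.volume_eq_prod, integral_prod _ i2]
  simp only
  have e1 : ∀ u : ℝ, ∫ y, g (x.1 + √(2 * t) * u, x.2 + √(2 * t) * y) ∂(gaussianReal 0 1) =
      ∫ y, g (x.1 + √(2 * t) * u, y) * G t (y - x.2) := fun u =>
    gauss1 ht (fun w => g (x.1 + √(2 * t) * u, w)) x.2
  simp_rw [e1]
  rw [gauss1 ht (fun v => ∫ y, g (v, y) * G t (y - x.2)) x.1]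
  congr 1
  funext v
  rw [← integral_mul_const]
  congr 1
  funext y
  unfold GG
  ring

/-- the exponential majorant of the tail -/
noncomputable def E (r z : ℝ) : ℝ := Real.exp (r * z - r ^ 2) + Real.exp (-(r * z) - r ^ 2)

theorem E_nonneg (r z : ℝ) : 0 ≤ E r z := by unfold E; positivity

theorem one_le_E {r z : ℝ} (hr : 0 ≤ r) (h : r ≤ |z|) : 1 ≤ E r z := by
  unfold E
  rcases le_abs.1 h with h1 | h1
  · have : 1 ≤ Real.exp (r * z - r ^ 2) := by
      apply Real.one_le_exp; nlinarith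
    have h2 := Real.exp_pos (-(r * z) - r ^ 2)
    linarith
  · have : 1 ≤ Real.exp (-(r * z) - r ^ 2) := by
      apply Real.one_le_exp; nlinarith
    have h2 := Real.exp_pos (r * z - r ^ 2)
    linarith

theorem E_int (r : ℝ) : Integrable (E r) (gaussianReal 0 1) ∧
    ∫ z, E r z ∂(gaussianReal 0 1) = 2 * Real.exp (-r ^ 2 / 2) := by
  have e : ∀ z, E r z = Real.exp (-r ^ 2) * Real.exp (r * z) + Real.exp (-r ^ 2) * Real.exp (-r * z) := by
    intro z
    unfold E
    rw [← Real.exp_add, ← Real.exp_add]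
    congr 2 <;> ring
  have i1 : Integrable (fun z => Real.exp (-r ^ 2) * Real.exp (r * z)) (gaussianReal 0 1) :=
    (integrable_exp_mul_gaussianReal r).const_mul _
  have i2 : Integrable (fun z => Real.exp (-r ^ 2) * Real.exp (-r * z)) (gaussianReal 0 1) :=
    (integrable_exp_mul_gaussianReal (-r)).const_mul _
  have m : ∀ c : ℝ, ∫ z, Real.exp (c * z) ∂(gaussianReal 0 1) = Real.exp (c ^ 2 / 2) := by
    intro c
    have h1 := congrFun (mgf_id_gaussianReal (μ := 0) (v := 1)) c
    simp only [mgf, id, NNReal.coe_one, zero_mul, zero_add, one_mul] at h1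
    exact h1
  refine ⟨(i1.add i2).congr (Filter.Eventually.of_forall fun z => (e z).symm), ?_⟩
  simp_rw [e]
  rw [integral_add i1 i2, integral_const_mul, integral_const_mul, m, m, ← Real.exp_add,
    ← Real.exp_add]
  have : -r ^ 2 + r ^ 2 / 2 = -r ^ 2 / 2 := by ring
  have h2 : -r ^ 2 + (-r) ^ 2 / 2 = -r ^ 2 / 2 := by ring
  rw [this, h2]; ring

theorem E2_int (r : ℝ) : Integrable (fun z : ℝ × ℝ => E r z.1 + E r z.2) gam ∧
    ∫ z, (E r z.1 + E r z.2) ∂gam = 4 * Real.exp (-r ^ 2 / 2) := by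
  obtain ⟨h1, h2⟩ := E_int r
  have i1 : Integrable (fun z : ℝ × ℝ => E r z.1) gam := h1.comp_fst _
  have i2 : Integrable (fun z : ℝ × ℝ => E r z.2) gam := h1.comp_snd _
  refine ⟨i1.add i2, ?_⟩
  rw [integral_add i1 i2]
  unfold gam
  rw [integral_fun_fst (E r), integral_fun_snd (E r), h2]
  simp only [probReal_univ, one_smul]
  ring

/-- the Gaussian density is below the kernel -/
theorem GG_le_p {L t : ℝ} (hL : 0 < L) (ht : 0 < t) (x y : ℝ × ℝ) : GG t x y ≤ p L t x y := by
  have h : ∀ a b : ℝ, G t (b - a) ≤ q L t a b := by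
    intro a b
    have s1 := A6.Sk_summable 0 hL ht (b - a)
    have s2 := A6.Sk_summable 0 hL ht (b + a)
    simp only [A6.Gk_zero] at s1 s2
    have h1 := (s1.add s2).le_tsum 0 (fun m _ => add_nonneg (A6.G_pos ht _).le (A6.G_pos ht _).le)
    refine le_trans ?_ h1
    have h2 := (A6.G_pos ht (b + a + 2 * ((0 : ℤ) : ℝ) * L)).le
    simp only [Int.cast_zero, mul_zero, zero_mul, add_zero] at h2 ⊢
    linarith
  exact mul_le_mul (h _ _) (h _ _) (A6.G_pos ht _).le (A6.q_nonneg ht _ _)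

/-- the folding of the line onto `[0, l]` -/
noncomputable def fd (l u : ℝ) : ℝ := ‖(u : AddCircle (2 * l))‖

theorem fd_cont (l : ℝ) : Continuous (fd l) :=
  continuous_norm.comp (AddCircle.continuous_mk' (2 * l))

theorem fd_neg (l u : ℝ) : fd l (-u) = fd l u := by
  unfold fd; rw [AddCircle.coe_neg, norm_neg]

theorem fd_per (l u : ℝ) : fd l (u + 2 * l) = fd l u := by
  unfold fd; rw [AddCircle.coe_add_period]

theorem fd_id {l u : ℝ} (hl : 0 < l) (h0 : 0 ≤ u) (h1 : u ≤ l) : fd l u = u := by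
  unfold fd
  rw [(AddCircle.norm_coe_eq_abs_iff (2 * l) (by positivity)).2, abs_of_nonneg h0]
  rw [abs_of_nonneg h0, abs_of_pos (by positivity)]
  linarith

theorem fd_left {l u : ℝ} (hl : 0 < l) (h0 : u ≤ 0) (h1 : -l ≤ u) : fd l u = -u := by
  rw [← fd_neg, fd_id hl (by linarith) (by linarith)]

theorem fd_right {l u : ℝ} (hl : 0 < l) (h0 : l ≤ u) (h1 : u ≤ 2 * l) : fd l u = 2 * l - u := by
  have h := fd_per l (u - 2 * l)
  rw [sub_add_cancel] at h
  rw [h, fd_left hl (by linarith) (by linarith)]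
  ring

/-- the function on the box of side `l` obtained by folding -/
noncomputable def FF (l A B : ℝ) (f : ℝ × ℝ → ℝ) (y : ℝ × ℝ) : ℝ := f (A + fd l y.1, B + fd l y.2)

theorem FF_CP (l A B : ℝ) {f : ℝ × ℝ → ℝ} (hf : Continuous f) : CP l (FF l A B f) := by
  have h := fd_cont l
  refine ⟨by unfold FF; fun_prop, fun a b => ?_, fun a b => ?_, fun a b => ?_, fun a b => ?_⟩
  · simp only [FF, fd_neg]
  · simp only [FF, fd_neg]
  · simp only [FF, fd_per]
  · simp only [FF, fd_per]

/-- the difference between a function and its folding -/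
noncomputable def De (l A B : ℝ) (f : ℝ × ℝ → ℝ) (y : ℝ × ℝ) : ℝ :=
  |f y - f (A + fd l (y.1 - A), B + fd l (y.2 - B))|

theorem De_cont (l A B : ℝ) {f : ℝ × ℝ → ℝ} (hf : Continuous f) : Continuous (De l A B f) := by
  have h := fd_cont l
  unfold De
  fun_prop

/-- the fat cell -/
def NN (l R A B : ℝ) : Set (ℝ × ℝ) := Icc (A - R) (A + l + R) ×ˢ Icc (B - R) (B + l + R)

theorem NN_compact (l R A B : ℝ) : IsCompact (NN l R A B) := isCompact_Icc.prod isCompact_Icc

theorem one_point {l t R M A B : ℝ} (ht : 0 < t) (hR : 0 < R) {f : ℝ × ℝ → ℝ}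
    (hf : Continuous f) (hM : ∀ y, |f y| ≤ M) {X : ℝ × ℝ} (hX1 : X.1 ∈ Icc A (A + l))
    (hX2 : X.2 ∈ Icc B (B + l)) :
    |P t f X - P t (FF l A B f) (X.1 - A, X.2 - B)| ≤
      8 * M * Real.exp (-R ^ 2 / (4 * t)) + ∫ y in NN l R A B, De l A B f y * GG t X y := by
  have hM0 : 0 ≤ M := (abs_nonneg _).trans (hM 0)
  have hc := fd_cont l
  have hr : 0 < √(2 * t) := by positivity
  have : IsProbabilityMeasure gam := by unfold gam; infer_instance
  have cT : Continuous (fun z : ℝ × ℝ => (X.1 + √(2 * t) * z.1, X.2 + √(2 * t) * z.2)) := by fun_prop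
  have ii : ∀ g : ℝ × ℝ → ℝ, Continuous g → (∀ y, |g y| ≤ M) → Integrable g gam := fun g hg h =>
    Integrable.of_bound hg.aestronglyMeasurable M (Filter.Eventually.of_forall h)
  have cF : Continuous (FF l A B f) := (FF_CP l A B hf).cont
  have i1 := ii (fun z => f (X.1 + √(2 * t) * z.1, X.2 + √(2 * t) * z.2)) (by fun_prop) (fun _ => hM _)
  have i2 := ii (fun z => FF l A B f (X.1 - A + √(2 * t) * z.1, X.2 - B + √(2 * t) * z.2))
    (by fun_prop) (fun _ => hM _)
  have e1 : P t f X - P t (FF l A B f) (X.1 - A, X.2 - B) =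
      ∫ z, (f (X.1 + √(2 * t) * z.1, X.2 + √(2 * t) * z.2) -
        FF l A B f (X.1 - A + √(2 * t) * z.1, X.2 - B + √(2 * t) * z.2)) ∂gam := by
    unfold P
    rw [← integral_sub i1 i2]
  set r : ℝ := R / √(2 * t) with hrdef
  have hr0 : 0 ≤ r := by positivity
  set D : ℝ × ℝ → ℝ := (NN l R A B).indicator (De l A B f) with hD
  have hDm : Measurable D := (De_cont l A B hf).measurable.indicator (NN_compact l R A B).measurableSet
  have hDe : ∀ y, |De l A B f y| ≤ 2 * M := fun y => by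
    unfold De
    rw [abs_abs]
    exact (abs_sub _ _).trans (by linarith [hM y, hM (A + fd l (y.1 - A), B + fd l (y.2 - B))])
  have hDb : ∀ y, |D y| ≤ 2 * M := fun y => by
    rw [hD]
    by_cases hy : y ∈ NN l R A B
    · rw [indicator_of_mem hy]; exact hDe y
    · rw [indicator_of_notMem hy, abs_zero]; linarith
  have i3 : Integrable (fun z : ℝ × ℝ => D (X.1 + √(2 * t) * z.1, X.2 + √(2 * t) * z.2)) gam :=
    Integrable.of_bound (hDm.comp cT.measurable).aestronglyMeasurable (2 * M)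
      (Filter.Eventually.of_forall fun z => hDb _)
  obtain ⟨E1, E2⟩ := E2_int r
  have i4 := E1.const_mul (2 * M)
  have pt : ∀ z : ℝ × ℝ, ‖f (X.1 + √(2 * t) * z.1, X.2 + √(2 * t) * z.2) -
        FF l A B f (X.1 - A + √(2 * t) * z.1, X.2 - B + √(2 * t) * z.2)‖ ≤
      2 * M * (E r z.1 + E r z.2) + D (X.1 + √(2 * t) * z.1, X.2 + √(2 * t) * z.2) := by
    intro z
    have e2 : ‖f (X.1 + √(2 * t) * z.1, X.2 + √(2 * t) * z.2) -
        FF l A B f (X.1 - A + √(2 * t) * z.1, X.2 - B + √(2 * t) * z.2)‖ =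
        De l A B f (X.1 + √(2 * t) * z.1, X.2 + √(2 * t) * z.2) := by
      unfold De FF
      rw [Real.norm_eq_abs]
      simp only
      rw [show X.1 - A + √(2 * t) * z.1 = X.1 + √(2 * t) * z.1 - A by ring,
        show X.2 - B + √(2 * t) * z.2 = X.2 + √(2 * t) * z.2 - B by ring]
    rw [e2]
    have hE1 := E_nonneg r z.1
    have hE2 := E_nonneg r z.2
    by_cases hy : (X.1 + √(2 * t) * z.1, X.2 + √(2 * t) * z.2) ∈ NN l R A B
    · rw [hD, indicator_of_mem hy]
      have : 0 ≤ 2 * M * (E r z.1 + E r z.2) := by positivity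
      linarith
    · rw [hD, indicator_of_notMem hy, add_zero]
      have h5 : 1 ≤ E r z.1 + E r z.2 := by
        by_contra h6
        push Not at h6
        apply hy
        have h7 : ∀ w, E r w < 1 → |√(2 * t) * w| ≤ R := by
          intro w hw
          by_contra h8
          push Not at h8
          rw [abs_mul, abs_of_pos hr] at h8
          have h9 : r ≤ |w| := by
            rw [hrdef, div_le_iff₀ hr]; linarith
          linarith [one_le_E hr0 h9]
        have h8 := abs_le.1 (h7 z.1 (by linarith))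
        have h9 := abs_le.1 (h7 z.2 (by linarith))
        exact ⟨⟨by linarith [hX1.1], by linarith [hX1.2]⟩, ⟨by linarith [hX2.1], by linarith [hX2.2]⟩⟩
      calc De l A B f (X.1 + √(2 * t) * z.1, X.2 + √(2 * t) * z.2) ≤ 2 * M :=
            (le_abs_self _).trans (hDe _)
        _ ≤ 2 * M * (E r z.1 + E r z.2) := by nlinarith
  have er : -r ^ 2 / 2 = -R ^ 2 / (4 * t) := by
    rw [hrdef, div_pow, Real.sq_sqrt (by positivity)]
    field_simp
    ring
  calc |P t f X - P t (FF l A B f) (X.1 - A, X.2 - B)|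
      ≤ ∫ z, ‖f (X.1 + √(2 * t) * z.1, X.2 + √(2 * t) * z.2) -
        FF l A B f (X.1 - A + √(2 * t) * z.1, X.2 - B + √(2 * t) * z.2)‖ ∂gam := by
        rw [e1, ← Real.norm_eq_abs]; exact norm_integral_le_integral_norm _
    _ ≤ ∫ z, (2 * M * (E r z.1 + E r z.2) +
          D (X.1 + √(2 * t) * z.1, X.2 + √(2 * t) * z.2)) ∂gam :=
        integral_mono (i1.sub i2).norm (i4.add i3) pt
    _ = 8 * M * Real.exp (-R ^ 2 / (4 * t)) + ∫ y, D y * GG t X y := by
        rw [integral_add i4 i3, integral_const_mul, E2, gauss2 ht hDm hDb X, er]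
        ring
    _ = _ := by
        congr 1
        rw [← integral_indicator (NN_compact l R A B).measurableSet]
        congr 1
        funext y
        rw [hD]
        by_cases hy : y ∈ NN l R A B
        · rw [indicator_of_mem hy, indicator_of_mem hy]
        · rw [indicator_of_notMem hy, indicator_of_notMem hy, zero_mul]

/-- reflection across a wall, bounded by the integral of the derivative -/
theorem seg {φ φ' : ℝ → ℝ} (h : ∀ u, HasDerivAt φ (φ' u) u) (hc : Continuous φ') {w R u : ℝ}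
    (hu : |u - w| ≤ R) : |φ u - φ (2 * w - u)| ≤ ∫ v in Icc (w - R) (w + R), |φ' v| := by
  have h1 := intervalIntegral.integral_eq_sub_of_hasDerivAt (fun v _ => h v)
    (hc.intervalIntegrable (2 * w - u) u)
  rw [← h1, ← Real.norm_eq_abs]
  refine (intervalIntegral.norm_integral_le_integral_norm_uIoc).trans ?_
  have hi : IntegrableOn (fun v => |φ' v|) (Icc (w - R) (w + R)) :=
    hc.abs.continuousOn.integrableOn_compact isCompact_Icc
  refine setIntegral_mono_set hi (Filter.Eventually.of_forall fun v => abs_nonneg _) ?_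
  refine HasSubset.Subset.eventuallyLE ?_
  refine uIoc_subset_uIcc.trans ?_
  have h2 := abs_le.1 hu
  refine uIcc_subset_Icc ⟨by linarith, by linarith⟩ ⟨by linarith, by linarith⟩

/-- the two strips around the walls of a cell -/
noncomputable def KK (l R A : ℝ) (φ' : ℝ → ℝ) : ℝ :=
  (∫ v in Icc (A - R) (A + R), |φ' v|) + ∫ v in Icc (A + l - R) (A + l + R), |φ' v|

/-- the indicator of the outside of the cell -/
noncomputable def ee (l A : ℝ) (u : ℝ) : ℝ := (Iic A ∪ Ici (A + l)).indicator (fun _ => 1) u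

theorem fold1 {φ φ' : ℝ → ℝ} (h : ∀ u, HasDerivAt φ (φ' u) u) (hc : Continuous φ') {l R A u : ℝ}
    (hl : 0 < l) (hR : R ≤ l / 2) (hu : u ∈ Icc (A - R) (A + l + R)) :
    |φ u - φ (A + fd l (u - A))| ≤ ee l A u * KK l R A φ' := by
  have k1 : 0 ≤ ∫ v in Icc (A - R) (A + R), |φ' v| := integral_nonneg fun v => abs_nonneg _
  have k2 : 0 ≤ ∫ v in Icc (A + l - R) (A + l + R), |φ' v| := integral_nonneg fun v => abs_nonneg _
  by_cases h1 : u ≤ A
  · have e1 : fd l (u - A) = A - u := by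
      rw [fd_left hl (by linarith) (by linarith [hu.1])]; ring
    have e2 : ee l A u = 1 := indicator_of_mem (show u ∈ Iic A ∪ Ici (A + l) from Or.inl h1) _
    rw [e1, e2, one_mul, show A + (A - u) = 2 * A - u by ring]
    have h3 := seg h hc (w := A) (R := R) (u := u) (abs_le.2 ⟨by linarith [hu.1], by linarith [hu.1]⟩)
    unfold KK
    linarith
  · push Not at h1
    by_cases h2 : A + l ≤ u
    · have e1 : fd l (u - A) = 2 * l - (u - A) :=
        fd_right hl (by linarith) (by linarith [hu.2])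
      have e2 : ee l A u = 1 := indicator_of_mem (show u ∈ Iic A ∪ Ici (A + l) from Or.inr h2) _
      rw [e1, e2, one_mul, show A + (2 * l - (u - A)) = 2 * (A + l) - u by ring]
      have h3 := seg h hc (w := A + l) (R := R) (u := u)
        (abs_le.2 ⟨by linarith [hu.2], by linarith [hu.2]⟩)
      unfold KK
      linarith
    · push Not at h2
      have e1 : fd l (u - A) = u - A := fd_id hl (by linarith) (by linarith)
      have e2 : ee l A u = 0 := by
        refine indicator_of_notMem ?_ _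
        rintro (h3 | h3)
        · exact absurd h3 (not_le.2 h1)
        · exact absurd h3 (not_le.2 h2)
      rw [e1, e2, zero_mul, show A + (u - A) = u by ring, sub_self, abs_zero]

theorem ee_meas (l A : ℝ) : Measurable (ee l A) :=
  measurable_const.indicator (measurableSet_Iic.union measurableSet_Ici)

theorem ee_bound (l A u : ℝ) : 0 ≤ ee l A u ∧ ee l A u ≤ 1 := by
  unfold ee
  by_cases h : u ∈ Iic A ∪ Ici (A + l)
  · rw [indicator_of_mem h]; exact ⟨zero_le_one, le_rfl⟩
  · rw [indicator_of_notMem h]; exact ⟨le_rfl, zero_le_one⟩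

theorem ee_int {l R A : ℝ} (hR : 0 < R) :
    ∫ u in Icc (A - R) (A + l + R), ee l A u ≤ 2 * R := by
  unfold ee
  rw [setIntegral_indicator (measurableSet_Iic.union measurableSet_Ici), setIntegral_const,
    smul_eq_mul, mul_one]
  have h1 : Icc (A - R) (A + l + R) ∩ (Iic A ∪ Ici (A + l)) ⊆
      Icc (A - R) A ∪ Icc (A + l) (A + l + R) := by
    rintro u ⟨hu, h | h⟩
    · exact Or.inl ⟨hu.1, h⟩
    · exact Or.inr ⟨h, hu.2⟩
  refine (measureReal_mono h1 (by
    rw [← lt_top_iff_ne_top]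
    exact (measure_union_le _ _).trans_lt (by
      rw [Real.volume_Icc, Real.volume_Icc]; exact ENNReal.add_lt_top.2 ⟨ENNReal.ofReal_lt_top, ENNReal.ofReal_lt_top⟩))).trans ?_
  refine (measureReal_union_le _ _).trans ?_
  rw [Real.volume_real_Icc_of_le (by linarith), Real.volume_real_Icc_of_le (by linarith)]
  linarith

/-- folding increases integrals at most by the factor 3 -/
theorem fold_int {l R A : ℝ} (hl : 0 < l) (hR0 : 0 < R) (hR : R ≤ l / 2) {K : ℝ → ℝ}
    (hK : Continuous K) (hK0 : ∀ u, 0 ≤ K u) :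
    ∫ u in Icc (A - R) (A + l + R), K (A + fd l (u - A)) ≤ 3 * ∫ u in Icc A (A + l), K u := by
  have hc := fd_cont l
  have hcc : Continuous (fun u => K (A + fd l (u - A))) := by fun_prop
  rw [integral_Icc_eq_integral_Ioc, ← intervalIntegral.integral_of_le (by linarith),
    integral_Icc_eq_integral_Ioc, ← intervalIntegral.integral_of_le (by linarith),
    ← intervalIntegral.integral_add_adjacent_intervals (hcc.intervalIntegrable (A - R) A)
      (hcc.intervalIntegrable A (A + l + R)),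
    ← intervalIntegral.integral_add_adjacent_intervals (hcc.intervalIntegrable A (A + l))
      (hcc.intervalIntegrable (A + l) (A + l + R))]
  have e1 : ∫ u in (A - R)..A, K (A + fd l (u - A)) = ∫ u in A..(A + R), K u := by
    have : ∫ u in (A - R)..A, K (A + fd l (u - A)) = ∫ u in (A - R)..A, K (2 * A - u) := by
      apply intervalIntegral.integral_congr
      intro u hu
      rw [uIcc_of_le (by linarith)] at hu
      simp only
      rw [fd_left hl (by linarith [hu.2]) (by linarith [hu.1])]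
      congr 1; ring
    rw [this, intervalIntegral.integral_comp_sub_left (fun u => K u) (2 * A)]
    congr 1 <;> ring
  have e2 : ∫ u in A..(A + l), K (A + fd l (u - A)) = ∫ u in A..(A + l), K u := by
    apply intervalIntegral.integral_congr
    intro u hu
    rw [uIcc_of_le (by linarith)] at hu
    simp only
    rw [fd_id hl (by linarith [hu.1]) (by linarith [hu.2])]
    congr 1; ring
  have e3 : ∫ u in (A + l)..(A + l + R), K (A + fd l (u - A)) = ∫ u in (A + l - R)..(A + l), K u := by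
    have : ∫ u in (A + l)..(A + l + R), K (A + fd l (u - A)) =
        ∫ u in (A + l)..(A + l + R), K (2 * (A + l) - u) := by
      apply intervalIntegral.integral_congr
      intro u hu
      rw [uIcc_of_le (by linarith)] at hu
      simp only
      rw [fd_right hl (by linarith [hu.1]) (by linarith [hu.2])]
      congr 1; ring
    rw [this, intervalIntegral.integral_comp_sub_left (fun u => K u) (2 * (A + l))]
    congr 1 <;> ring
  have m : ∀ a b c d : ℝ, c ≤ a → a ≤ b → b ≤ d → ∫ u in a..b, K u ≤ ∫ u in c..d, K u := fun a b c d h1 h2 h3 =>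
    intervalIntegral.integral_mono_interval h1 h2 h3 (Filter.Eventually.of_forall hK0)
      (hK.intervalIntegrable c d)
  rw [e1, e2, e3]
  have m1 := m A (A + R) A (A + l) le_rfl (by linarith) (by linarith)
  have m2 := m (A + l - R) (A + l) A (A + l) (by linarith) (by linarith) le_rfl
  linarith

/-- the full plane layer -/
def Lr (l R : ℝ) : Set (ℝ × ℝ) := {y | ∃ m : ℤ, |y.1 - m * l| ≤ R ∨ |y.2 - m * l| ≤ R}

theorem Lr_meas (l R : ℝ) : MeasurableSet (Lr l R) := by
  have : Lr l R = ⋃ m : ℤ, ({y : ℝ × ℝ | |y.1 - m * l| ≤ R} ∪ {y : ℝ × ℝ | |y.2 - m * l| ≤ R}) := by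
    ext y
    simp only [Lr, mem_ofPred_eq, mem_iUnion, mem_union]
  rw [this]
  refine MeasurableSet.iUnion fun m => MeasurableSet.union ?_ ?_
  · exact measurableSet_le (by fun_prop) measurable_const
  · exact measurableSet_le (by fun_prop) measurable_const

/-- the very fat cell -/
def N3 (l A B : ℝ) : Set (ℝ × ℝ) := Icc (A - l) (A + 2 * l) ×ˢ Icc (B - l) (B + 2 * l)

theorem swap_box {g : ℝ × ℝ → ℝ} (hg : Continuous g) (a b c d : ℝ) :
    ∫ v in Icc c d, ∫ u in Icc a b, g (u, v) = ∫ y in Icc a b ×ˢ Icc c d, g y := by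
  have h1 : IntegrableOn g (Icc a b ×ˢ Icc c d) ((volume : Measure ℝ).prod (volume : Measure ℝ)) :=
    hg.continuousOn.integrableOn_compact (isCompact_Icc.prod isCompact_Icc)
  rw [Measure.volume_eq_prod, setIntegral_prod _ h1]
  have h2 : Integrable (Function.uncurry fun u v => g (u, v))
      ((volume.restrict (Icc a b)).prod (volume.restrict (Icc c d))) := by
    rw [Measure.prod_restrict]
    exact h1
  exact (integral_integral_swap h2).symm

theorem box_le {g g' : ℝ × ℝ → ℝ} (hg : Continuous g) (hg' : Continuous g') (h : ∀ y, g y ≤ g' y)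
    (h0 : ∀ y, 0 ≤ g' y) {l R A B a b c d : ℝ} (hs : Icc a b ×ˢ Icc c d ⊆ N3 l A B ∩ Lr l R) :
    ∫ y in Icc a b ×ˢ Icc c d, g y ≤ ∫ y in N3 l A B ∩ Lr l R, g' y := by
  have c1 : IsCompact (Icc a b ×ˢ Icc c d) := isCompact_Icc.prod isCompact_Icc
  have c2 : IsCompact (N3 l A B) := isCompact_Icc.prod isCompact_Icc
  have i2 : IntegrableOn g' (N3 l A B ∩ Lr l R) :=
    (hg'.continuousOn.integrableOn_compact c2).mono_set inter_subset_left
  calc ∫ y in Icc a b ×ˢ Icc c d, g y ≤ ∫ y in Icc a b ×ˢ Icc c d, g' y :=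
        setIntegral_mono (hg.continuousOn.integrableOn_compact c1)
          (hg'.continuousOn.integrableOn_compact c1) h
    _ ≤ _ := setIntegral_mono_set i2 (Filter.Eventually.of_forall h0) hs.eventuallyLE

theorem near_wall {l R u : ℝ} {m : ℤ} (h : u ∈ Icc (m * l - R) (m * l + R)) : |u - m * l| ≤ R :=
  abs_le.2 ⟨by linarith [h.1], by linarith [h.2]⟩

/-- the deterministic estimate in one cell -/
theorem cell2D {l R : ℝ} (hl : 0 < l) (hR0 : 0 < R) (hR : R ≤ l / 2) {f : ℝ × ℝ → ℝ}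
    (hf : ContDiff ℝ ∞ f) (a b : ℤ) :
    ∫ y in NN l R (a * l) (b * l), De l (a * l) (b * l) f y ≤
      16 * R * ∫ y in N3 l (a * l) (b * l) ∩ Lr l R, gabs f y := by
  set A : ℝ := a * l with hA
  set B : ℝ := b * l with hB
  obtain ⟨s1, s2, -⟩ := D_smooth hf
  have c1 : Continuous (D1 f) := s1.continuous
  have c2 : Continuous (D2 f) := s2.continuous
  have cg : Continuous (gabs f) := by unfold gabs; fun_prop
  have fc : Continuous f := hf.continuous
  have fdc := fd_cont l
  have hfd : Differentiable ℝ f := hf.differentiable (by simp)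
  have d1 : ∀ v u : ℝ, HasDerivAt (fun u => f (u, v)) (D1 f (u, v)) u := fun v u => by
    have h1 : HasDerivAt (fun u : ℝ => ((u, v) : ℝ × ℝ)) (1, 0) u :=
      (hasDerivAt_id u).prodMk (hasDerivAt_const u v)
    exact (hfd (u, v)).hasFDerivAt.comp_hasDerivAt u h1
  have d2 : ∀ v u : ℝ, HasDerivAt (fun u => f (v, u)) (D2 f (v, u)) u := fun v u => by
    have h1 : HasDerivAt (fun u : ℝ => ((v, u) : ℝ × ℝ)) (0, 1) u :=
      (hasDerivAt_const u v).prodMk (hasDerivAt_id u)
    exact (hfd (v, u)).hasFDerivAt.comp_hasDerivAt u h1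
  set K1 : ℝ → ℝ := fun v => KK l R A (fun u => D1 f (u, v)) with hK1
  set K2 : ℝ → ℝ := fun v => KK l R B (fun u => D2 f (v, u)) with hK2
  have p1 : ∀ c d : ℝ, Continuous (fun v => ∫ u in Icc c d, |D1 f (u, v)|) := fun c d =>
    continuous_parametric_integral_of_continuous (f := fun v u => |D1 f (u, v)|)
      (by unfold Function.uncurry; fun_prop) isCompact_Icc
  have p2 : ∀ c d : ℝ, Continuous (fun v => ∫ u in Icc c d, |D2 f (v, u)|) := fun c d =>
    continuous_parametric_integral_of_continuous (f := fun v u => |D2 f (v, u)|)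
      (by unfold Function.uncurry; fun_prop) isCompact_Icc
  have q1 : Continuous K1 := (p1 _ _).add (p1 _ _)
  have q2 : Continuous K2 := (p2 _ _).add (p2 _ _)
  have n1 : ∀ v, 0 ≤ K1 v := fun v => add_nonneg (integral_nonneg fun _ => abs_nonneg _)
    (integral_nonneg fun _ => abs_nonneg _)
  have n2 : ∀ v, 0 ≤ K2 v := fun v => add_nonneg (integral_nonneg fun _ => abs_nonneg _)
    (integral_nonneg fun _ => abs_nonneg _)
  set J : ℝ := ∫ y in N3 l A B ∩ Lr l R, gabs f y with hJ
  have g1 : ∀ y, |D1 f y| ≤ gabs f y := fun y => le_add_of_nonneg_right (abs_nonneg _)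
  have g2 : ∀ y, |D2 f y| ≤ gabs f y := fun y => le_add_of_nonneg_left (abs_nonneg _)
  have g0 : ∀ y, 0 ≤ gabs f y := fun y => add_nonneg (abs_nonneg _) (abs_nonneg _)
  have hA1 : A + l = ((a + 1 : ℤ) : ℝ) * l := by rw [hA]; push_cast; ring
  have hB1 : B + l = ((b + 1 : ℤ) : ℝ) * l := by rw [hB]; push_cast; ring
  -- the two strip integrals
  have J1 : ∫ v in Icc (B - R) (B + l + R), K1 v ≤ 2 * J := by
    have i1 : ∀ c d : ℝ, IntegrableOn (fun v => ∫ u in Icc c d, |D1 f (u, v)|)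
        (Icc (B - R) (B + l + R)) := fun c d =>
      (p1 c d).continuousOn.integrableOn_compact isCompact_Icc
    have e1 : ∫ v in Icc (B - R) (B + l + R), K1 v =
        (∫ v in Icc (B - R) (B + l + R), ∫ u in Icc (A - R) (A + R), |D1 f (u, v)|) +
        ∫ v in Icc (B - R) (B + l + R), ∫ u in Icc (A + l - R) (A + l + R), |D1 f (u, v)| :=
      integral_add (i1 _ _) (i1 _ _)
    rw [e1, swap_box (g := fun y => |D1 f y|) c1.abs, swap_box (g := fun y => |D1 f y|) c1.abs]
    have h1 := box_le (g := fun y => |D1 f y|) c1.abs cg g1 g0 (l := l) (R := R) (A := A) (B := B)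
      (a := A - R) (b := A + R) (c := B - R) (d := B + l + R) (by
        rintro ⟨u, v⟩ ⟨hu, hv⟩
        simp only [mem_Icc] at hu hv
        refine ⟨⟨⟨by simp only; linarith [hu.1], by simp only; linarith [hu.2]⟩,
          ⟨by simp only; linarith [hv.1], by simp only; linarith [hv.2]⟩⟩, a, Or.inl ?_⟩
        exact near_wall hu)
    have h2 := box_le (g := fun y => |D1 f y|) c1.abs cg g1 g0 (l := l) (R := R) (A := A) (B := B)
      (a := A + l - R) (b := A + l + R) (c := B - R) (d := B + l + R) (by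
        rintro ⟨u, v⟩ ⟨hu, hv⟩
        simp only [mem_Icc] at hu hv
        refine ⟨⟨⟨by simp only; linarith [hu.1], by simp only; linarith [hu.2]⟩,
          ⟨by simp only; linarith [hv.1], by simp only; linarith [hv.2]⟩⟩, a + 1, Or.inl ?_⟩
        rw [hA1] at hu
        exact near_wall hu)
    linarith
  have J2 : ∫ v in Icc A (A + l), K2 v ≤ 2 * J := by
    have i1 : ∀ c d : ℝ, IntegrableOn (fun v => ∫ u in Icc c d, |D2 f (v, u)|)
        (Icc A (A + l)) := fun c d =>
      (p2 c d).continuousOn.integrableOn_compact isCompact_Icc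
    have e1 : ∫ v in Icc A (A + l), K2 v =
        (∫ v in Icc A (A + l), ∫ u in Icc (B - R) (B + R), |D2 f (v, u)|) +
        ∫ v in Icc A (A + l), ∫ u in Icc (B + l - R) (B + l + R), |D2 f (v, u)| :=
      integral_add (i1 _ _) (i1 _ _)
    have sp : ∀ c d : ℝ, ∫ v in Icc A (A + l), ∫ u in Icc c d, |D2 f (v, u)| =
        ∫ y in Icc A (A + l) ×ˢ Icc c d, |D2 f y| := fun c d => by
      have h1 : IntegrableOn (fun y => |D2 f y|) (Icc A (A + l) ×ˢ Icc c d)
          ((volume : Measure ℝ).prod (volume : Measure ℝ)) :=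
        c2.abs.continuousOn.integrableOn_compact (isCompact_Icc.prod isCompact_Icc)
      rw [Measure.volume_eq_prod, setIntegral_prod _ h1]
    rw [e1, sp, sp]
    have h1 := box_le (g := fun y => |D2 f y|) c2.abs cg g2 g0 (l := l) (R := R) (A := A) (B := B)
      (a := A) (b := A + l) (c := B - R) (d := B + R) (by
        rintro ⟨u, v⟩ ⟨hu, hv⟩
        simp only [mem_Icc] at hu hv
        refine ⟨⟨⟨by simp only; linarith [hu.1], by simp only; linarith [hu.2]⟩,
          ⟨by simp only; linarith [hv.1], by simp only; linarith [hv.2]⟩⟩, b, Or.inr ?_⟩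
        exact near_wall hv)
    have h2 := box_le (g := fun y => |D2 f y|) c2.abs cg g2 g0 (l := l) (R := R) (A := A) (B := B)
      (a := A) (b := A + l) (c := B + l - R) (d := B + l + R) (by
        rintro ⟨u, v⟩ ⟨hu, hv⟩
        simp only [mem_Icc] at hu hv
        refine ⟨⟨⟨by simp only; linarith [hu.1], by simp only; linarith [hu.2]⟩,
          ⟨by simp only; linarith [hv.1], by simp only; linarith [hv.2]⟩⟩, b + 1, Or.inr ?_⟩
        rw [hB1] at hv
        exact near_wall hv)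
    linarith
  have J3 := fold_int hl hR0 hR (A := A) q2 n2
  -- pointwise
  have pt : ∀ y ∈ NN l R A B, De l A B f y ≤
      ee l A y.1 * K1 y.2 + K2 (A + fd l (y.1 - A)) * ee l B y.2 := by
    rintro ⟨u, v⟩ ⟨hu, hv⟩
    simp only at hu hv ⊢
    have h1 := fold1 (d1 v) (by fun_prop) hl hR hu (A := A)
    have h2 := fold1 (d2 (A + fd l (u - A))) (by fun_prop) hl hR hv (A := B)
    unfold De
    simp only
    calc |f (u, v) - f (A + fd l (u - A), B + fd l (v - B))|
        = |(f (u, v) - f (A + fd l (u - A), v)) +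
            (f (A + fd l (u - A), v) - f (A + fd l (u - A), B + fd l (v - B)))| := by congr 1; ring
      _ ≤ _ := abs_add_le _ _
      _ ≤ _ := add_le_add h1 (by rw [mul_comm]; exact h2)
  have ie : ∀ c : ℝ, IntegrableOn (ee l c) (Icc (c - R) (c + l + R)) := fun c =>
    Integrable.of_bound (ee_meas l c).aestronglyMeasurable 1 (Filter.Eventually.of_forall fun u => by
      rw [Real.norm_eq_abs, abs_of_nonneg (ee_bound l c u).1]; exact (ee_bound l c u).2)
  have qq : Continuous (fun u => K2 (A + fd l (u - A))) := by fun_prop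
  have I1 : IntegrableOn (fun y : ℝ × ℝ => ee l A y.1 * K1 y.2) (NN l R A B) := by
    unfold IntegrableOn NN
    rw [Measure.volume_eq_prod, ← Measure.prod_restrict]
    exact (ie A).mul_prod (q1.continuousOn.integrableOn_compact isCompact_Icc)
  have I2 : IntegrableOn (fun y : ℝ × ℝ => K2 (A + fd l (y.1 - A)) * ee l B y.2) (NN l R A B) := by
    unfold IntegrableOn NN
    rw [Measure.volume_eq_prod, ← Measure.prod_restrict]
    exact Integrable.mul_prod (qq.continuousOn.integrableOn_compact isCompact_Icc) (ie B)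
  have I0 : IntegrableOn (De l A B f) (NN l R A B) :=
    (De_cont l A B fc).continuousOn.integrableOn_compact (NN_compact l R A B)
  have E1 : ∫ y in NN l R A B, ee l A y.1 * K1 y.2 =
      (∫ u in Icc (A - R) (A + l + R), ee l A u) * ∫ v in Icc (B - R) (B + l + R), K1 v := by
    unfold NN
    rw [Measure.volume_eq_prod]
    exact setIntegral_prod_mul (ee l A) K1 _ _
  have E2 : ∫ y in NN l R A B, K2 (A + fd l (y.1 - A)) * ee l B y.2 =
      (∫ u in Icc (A - R) (A + l + R), K2 (A + fd l (u - A))) *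
        ∫ v in Icc (B - R) (B + l + R), ee l B v := by
    unfold NN
    rw [Measure.volume_eq_prod]
    exact setIntegral_prod_mul (fun u => K2 (A + fd l (u - A))) (ee l B) _ _
  have hJ0 : 0 ≤ J := integral_nonneg g0
  have eA := ee_int (l := l) (A := A) hR0
  have eB := ee_int (l := l) (A := B) hR0
  have eA0 : 0 ≤ ∫ u in Icc (A - R) (A + l + R), ee l A u := integral_nonneg fun u => (ee_bound l A u).1
  have eB0 : 0 ≤ ∫ u in Icc (B - R) (B + l + R), ee l B u := integral_nonneg fun u => (ee_bound l B u).1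
  have K10 : 0 ≤ ∫ v in Icc (B - R) (B + l + R), K1 v := integral_nonneg n1
  have K20 : 0 ≤ ∫ u in Icc (A - R) (A + l + R), K2 (A + fd l (u - A)) := integral_nonneg fun u => n2 _
  calc ∫ y in NN l R A B, De l A B f y
      ≤ ∫ y in NN l R A B, (ee l A y.1 * K1 y.2 + K2 (A + fd l (y.1 - A)) * ee l B y.2) :=
        setIntegral_mono_on I0 (I1.add I2) (NN_compact l R A B).measurableSet pt
    _ = (∫ u in Icc (A - R) (A + l + R), ee l A u) * (∫ v in Icc (B - R) (B + l + R), K1 v) +
        (∫ u in Icc (A - R) (A + l + R), K2 (A + fd l (u - A))) *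
        ∫ v in Icc (B - R) (B + l + R), ee l B v := by
        rw [integral_add I1 I2, E1, E2]
    _ ≤ (2 * R) * (2 * J) + (6 * J) * (2 * R) := by
        apply add_le_add
        · exact mul_le_mul eA J1 K10 (by positivity)
        · exact mul_le_mul (by linarith) eB eB0 (by positivity)
    _ = 16 * R * J := by ring

/-- one dimensional sum over neighbours with reflecting boundary -/
theorem smear (h : ℤ → ℝ≥0∞) (k : ℕ) (h0 : h (-1) = h 0) (hk : h k = h (k - 1)) :
    ∑ a ∈ Finset.range k, (h ((a : ℤ) - 1) + h a + h ((a : ℤ) + 1)) ≤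
      5 * ∑ a ∈ Finset.range k, h a := by
  rcases k with _ | k
  · simp
  set S := ∑ a ∈ Finset.range (k + 1), h (a : ℤ) with hS
  have e1 : ∑ a ∈ Finset.range (k + 1), h ((a : ℤ) - 1) ≤ 2 * S := by
    rw [Finset.sum_range_succ']
    have h1 : ∑ a ∈ Finset.range k, h (((a + 1 : ℕ) : ℤ) - 1) ≤ S := by
      have h2 : ∑ a ∈ Finset.range k, h (((a + 1 : ℕ) : ℤ) - 1) = ∑ a ∈ Finset.range k, h (a : ℤ) :=
        Finset.sum_congr rfl fun a _ => by push_cast; rw [add_sub_cancel_right]
      rw [h2, hS, Finset.sum_range_succ]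
      exact le_self_add
    have h3 : h (((0 : ℕ) : ℤ) - 1) ≤ S := by
      have : (((0 : ℕ) : ℤ) - 1) = -1 := by norm_num
      rw [this, h0]
      have h4 := Finset.single_le_sum (f := fun a : ℕ => h (a : ℤ)) (fun a _ => zero_le)
        (Finset.mem_range.2 (Nat.succ_pos k))
      exact h4
    calc _ ≤ S + S := add_le_add h1 h3
      _ = 2 * S := (two_mul S).symm
  have e2 : ∑ a ∈ Finset.range (k + 1), h ((a : ℤ) + 1) ≤ 2 * S := by
    rw [Finset.sum_range_succ]
    have h1 : ∑ a ∈ Finset.range k, h ((a : ℤ) + 1) ≤ S := by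
      rw [hS, Finset.sum_range_succ']
      have h2 : ∑ a ∈ Finset.range k, h ((a : ℤ) + 1) =
          ∑ a ∈ Finset.range k, h (((a + 1 : ℕ) : ℤ)) :=
        Finset.sum_congr rfl fun a _ => by push_cast; rfl
      rw [h2]
      exact le_self_add
    have h3 : h ((k : ℤ) + 1) ≤ S := by
      have h5 : h ((k : ℤ) + 1) = h (k : ℤ) := by
        have h6 := hk
        push_cast at h6
        rw [add_sub_cancel_right] at h6
        exact h6
      rw [h5]
      exact Finset.single_le_sum (f := fun a : ℕ => h (a : ℤ)) (fun a _ => zero_le)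
        (Finset.mem_range.2 (Nat.lt_succ_self k))
    calc _ ≤ S + S := add_le_add h1 h3
      _ = 2 * S := (two_mul S).symm
  rw [Finset.sum_add_distrib, Finset.sum_add_distrib]
  calc _ ≤ 2 * S + S + 2 * S := add_le_add (add_le_add e1 le_rfl) e2
    _ = 5 * S := by ring

/-- the closed cell -/
def cc (l : ℝ) (a b : ℤ) : Set (ℝ × ℝ) := Icc (a * l) ((a + 1) * l) ×ˢ Icc (b * l) ((b + 1) * l)

/-- the weight measure -/
noncomputable def nu (f : ℝ × ℝ → ℝ) : Measure (ℝ × ℝ) :=
  (volume : Measure (ℝ × ℝ)).withDensity (fun y => ENNReal.ofReal (gabs f y))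

theorem refl_nu1 {f : ℝ × ℝ → ℝ} (hg : Continuous (gabs f)) {w : ℝ}
    (hw : ∀ y : ℝ × ℝ, gabs f (w - y.1, y.2) = gabs f y) {s : Set (ℝ × ℝ)} (hs : MeasurableSet s) :
    nu f ((fun y : ℝ × ℝ => (w - y.1, y.2)) ⁻¹' s) = nu f s := by
  have hT : MeasurePreserving (fun y : ℝ × ℝ => (w - y.1, y.2)) (volume : Measure (ℝ × ℝ)) volume := by
    rw [Measure.volume_eq_prod]
    exact (Measure.measurePreserving_sub_left (volume : Measure ℝ) w).prod (MeasurePreserving.id _)
  unfold nu
  rw [withDensity_apply _ (hT.measurable hs), withDensity_apply _ hs,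
    ← hT.setLIntegral_comp_preimage (f := fun y => ENNReal.ofReal (gabs f y)) hs
      (ENNReal.measurable_ofReal.comp hg.measurable)]
  simp only [hw]

theorem refl_nu2 {f : ℝ × ℝ → ℝ} (hg : Continuous (gabs f)) {w : ℝ}
    (hw : ∀ y : ℝ × ℝ, gabs f (y.1, w - y.2) = gabs f y) {s : Set (ℝ × ℝ)} (hs : MeasurableSet s) :
    nu f ((fun y : ℝ × ℝ => (y.1, w - y.2)) ⁻¹' s) = nu f s := by
  have hT : MeasurePreserving (fun y : ℝ × ℝ => (y.1, w - y.2)) (volume : Measure (ℝ × ℝ)) volume := by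
    rw [Measure.volume_eq_prod]
    exact (MeasurePreserving.id _).prod (Measure.measurePreserving_sub_left (volume : Measure ℝ) w)
  unfold nu
  rw [withDensity_apply _ (hT.measurable hs), withDensity_apply _ hs,
    ← hT.setLIntegral_comp_preimage (f := fun y => ENNReal.ofReal (gabs f y)) hs
      (ENNReal.measurable_ofReal.comp hg.measurable)]
  simp only [hw]

theorem cc_meas (l : ℝ) (a b : ℤ) : MeasurableSet (cc l a b) := measurableSet_Icc.prod measurableSet_Icc

/-- weight of a cell -/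
noncomputable def Hc (f : ℝ × ℝ → ℝ) (l R : ℝ) (a b : ℤ) : ℝ≥0∞ := nu f (cc l a b ∩ Lr l R)

theorem Hc_refl1 {f : ℝ × ℝ → ℝ} {l R : ℝ} (hg : Continuous (gabs f)) (n : ℤ)
    (hw : ∀ y : ℝ × ℝ, gabs f (n * l - y.1, y.2) = gabs f y) (a b : ℤ) :
    Hc f l R (n - 1 - a) b = Hc f l R a b := by
  unfold Hc
  rw [← refl_nu1 hg hw ((cc_meas l a b).inter (Lr_meas l R))]
  congr 1
  ext y
  simp only [cc, Lr, mem_inter_iff, mem_preimage, mem_prod, mem_Icc, mem_ofPred_eq]
  constructor
  · rintro ⟨⟨⟨h1, h2⟩, h3⟩, m, h4⟩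
    push_cast at h1 h2
    refine ⟨⟨⟨by linarith, by linarith⟩, h3⟩, ?_⟩
    rcases h4 with h4 | h4
    · refine ⟨n - m, Or.inl ?_⟩
      rw [← abs_neg]
      have : -(n * l - y.1 - ((n - m : ℤ) : ℝ) * l) = y.1 - m * l := by push_cast; ring
      rwa [this]
    · exact ⟨m, Or.inr h4⟩
  · rintro ⟨⟨⟨h1, h2⟩, h3⟩, m, h4⟩
    refine ⟨⟨⟨by push_cast; linarith, by push_cast; linarith⟩, h3⟩, ?_⟩
    rcases h4 with h4 | h4
    · refine ⟨n - m, Or.inl ?_⟩
      rw [← abs_neg]
      have : -(y.1 - ((n - m : ℤ) : ℝ) * l) = n * l - y.1 - m * l := by push_cast; ring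
      rwa [this]
    · exact ⟨m, Or.inr h4⟩

theorem Hc_refl2 {f : ℝ × ℝ → ℝ} {l R : ℝ} (hg : Continuous (gabs f)) (n : ℤ)
    (hw : ∀ y : ℝ × ℝ, gabs f (y.1, n * l - y.2) = gabs f y) (a b : ℤ) :
    Hc f l R a (n - 1 - b) = Hc f l R a b := by
  unfold Hc
  rw [← refl_nu2 hg hw ((cc_meas l a b).inter (Lr_meas l R))]
  congr 1
  ext y
  simp only [cc, Lr, mem_inter_iff, mem_preimage, mem_prod, mem_Icc, mem_ofPred_eq]
  constructor
  · rintro ⟨⟨h3, ⟨h1, h2⟩⟩, m, h4⟩
    push_cast at h1 h2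
    refine ⟨⟨h3, ⟨by linarith, by linarith⟩⟩, ?_⟩
    rcases h4 with h4 | h4
    · exact ⟨m, Or.inl h4⟩
    · refine ⟨n - m, Or.inr ?_⟩
      rw [← abs_neg]
      have : -(n * l - y.2 - ((n - m : ℤ) : ℝ) * l) = y.2 - m * l := by push_cast; ring
      rwa [this]
  · rintro ⟨⟨h3, ⟨h1, h2⟩⟩, m, h4⟩
    refine ⟨⟨h3, ⟨by push_cast; linarith, by push_cast; linarith⟩⟩, ?_⟩
    rcases h4 with h4 | h4
    · exact ⟨m, Or.inl h4⟩
    · refine ⟨n - m, Or.inr ?_⟩
      rw [← abs_neg]
      have : -(y.2 - ((n - m : ℤ) : ℝ) * l) = n * l - y.2 - m * l := by push_cast; ring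
      rwa [this]

theorem cover1 {l x : ℝ} {a : ℤ} (h1 : (a : ℝ) * l - l ≤ x) (h2 : x ≤ a * l + 2 * l) :
    (((a - 1 : ℤ) : ℝ) * l ≤ x ∧ x ≤ (((a - 1 : ℤ) : ℝ) + 1) * l) ∨
    ((a : ℝ) * l ≤ x ∧ x ≤ ((a : ℝ) + 1) * l) ∨
    (((a + 1 : ℤ) : ℝ) * l ≤ x ∧ x ≤ (((a + 1 : ℤ) : ℝ) + 1) * l) := by
  push_cast
  by_cases h3 : x ≤ a * l
  · left; constructor <;> linarith
  · push Not at h3
    by_cases h4 : x ≤ (a + 1) * l
    · right; left; exact ⟨h3.le, h4⟩
    · push Not at h4
      right; right; constructor <;> linarith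

/-- the sum over the fat cells -/
theorem sum_cells {f : ℝ × ℝ → ℝ} {l R : ℝ} {k : ℕ} (hg : CP (k * l) (gabs f)) :
    ∑ a ∈ Finset.range k, ∑ b ∈ Finset.range k, nu f (N3 l (a * l) (b * l) ∩ Lr l R) ≤
      25 * ∑ a ∈ Finset.range k, ∑ b ∈ Finset.range k, Hc f l R a b := by
  have hc := hg.cont
  have w1 : ∀ y : ℝ × ℝ, gabs f (((0 : ℤ) : ℝ) * l - y.1, y.2) = gabs f y := fun y => by
    rw [Int.cast_zero, zero_mul, zero_sub]; exact hg.even1 _ _
  have w2 : ∀ y : ℝ × ℝ, gabs f (((2 * k : ℤ) : ℝ) * l - y.1, y.2) = gabs f y := fun y => by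
    have h1 := hg.per1 (-y.1) y.2
    have h2 := hg.even1 y.1 y.2
    rw [show ((2 * k : ℤ) : ℝ) * l - y.1 = -y.1 + 2 * (k * l) by push_cast; ring, h1, h2]
  have w3 : ∀ y : ℝ × ℝ, gabs f (y.1, ((0 : ℤ) : ℝ) * l - y.2) = gabs f y := fun y => by
    rw [Int.cast_zero, zero_mul, zero_sub]; exact hg.even2 _ _
  have w4 : ∀ y : ℝ × ℝ, gabs f (y.1, ((2 * k : ℤ) : ℝ) * l - y.2) = gabs f y := fun y => by
    have h1 := hg.per2 y.1 (-y.2)
    have h2 := hg.even2 y.1 y.2
    rw [show ((2 * k : ℤ) : ℝ) * l - y.2 = -y.2 + 2 * (k * l) by push_cast; ring, h1, h2]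
  have r1 : ∀ b, Hc f l R (-1) b = Hc f l R 0 b := fun b => by
    have := Hc_refl1 (R := R) hc 0 w1 0 b
    simpa using this
  have r2 : ∀ b, Hc f l R k b = Hc f l R (k - 1) b := fun b => by
    have := Hc_refl1 (R := R) hc (2 * k) w2 k b
    rw [show 2 * (k : ℤ) - 1 - k = k - 1 by ring] at this
    exact this.symm
  have r3 : ∀ a, Hc f l R a (-1) = Hc f l R a 0 := fun a => by
    have := Hc_refl2 (R := R) hc 0 w3 a 0
    simpa using this
  have r4 : ∀ a, Hc f l R a k = Hc f l R a (k - 1) := fun a => by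
    have := Hc_refl2 (R := R) hc (2 * k) w4 a k
    rw [show 2 * (k : ℤ) - 1 - k = k - 1 by ring] at this
    exact this.symm
  set h1 : ℤ → ℝ≥0∞ := fun a => ∑ b ∈ Finset.range k, Hc f l R a b with hh1
  have s1 := smear h1 k (by simp only [hh1, r1]) (by simp only [hh1, r2])
  have s2 : ∀ a : ℤ, ∑ b ∈ Finset.range k, (Hc f l R a ((b : ℤ) - 1) + Hc f l R a b +
      Hc f l R a ((b : ℤ) + 1)) ≤ 5 * h1 a := fun a => smear (Hc f l R a) k (r3 a) (r4 a)
  have cov : ∀ a b : ℕ, nu f (N3 l (a * l) (b * l) ∩ Lr l R) ≤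
      ((Hc f l R ((a : ℤ) - 1) ((b : ℤ) - 1) + Hc f l R ((a : ℤ) - 1) b +
        Hc f l R ((a : ℤ) - 1) ((b : ℤ) + 1)) +
      (Hc f l R (a : ℤ) ((b : ℤ) - 1) + Hc f l R (a : ℤ) b + Hc f l R (a : ℤ) ((b : ℤ) + 1))) +
      (Hc f l R ((a : ℤ) + 1) ((b : ℤ) - 1) + Hc f l R ((a : ℤ) + 1) b +
        Hc f l R ((a : ℤ) + 1) ((b : ℤ) + 1)) := by
    intro a b
    have sub : N3 l (a * l) (b * l) ∩ Lr l R ⊆
        ((((cc l ((a : ℤ) - 1) ((b : ℤ) - 1) ∩ Lr l R) ∪ (cc l ((a : ℤ) - 1) b ∩ Lr l R)) ∪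
          (cc l ((a : ℤ) - 1) ((b : ℤ) + 1) ∩ Lr l R)) ∪
        (((cc l (a : ℤ) ((b : ℤ) - 1) ∩ Lr l R) ∪ (cc l (a : ℤ) b ∩ Lr l R)) ∪
          (cc l (a : ℤ) ((b : ℤ) + 1) ∩ Lr l R))) ∪
        (((cc l ((a : ℤ) + 1) ((b : ℤ) - 1) ∩ Lr l R) ∪ (cc l ((a : ℤ) + 1) b ∩ Lr l R)) ∪
          (cc l ((a : ℤ) + 1) ((b : ℤ) + 1) ∩ Lr l R)) := by
      rintro y ⟨⟨hy1, hy2⟩, hy3⟩
      have c1 := cover1 (a := (a : ℤ)) (by simpa using hy1.1) (by simpa using hy1.2)
      have c2 := cover1 (a := (b : ℤ)) (by simpa using hy2.1) (by simpa using hy2.2)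
      simp only [cc, mem_union, mem_inter_iff, mem_prod, mem_Icc]
      rcases c1 with c1 | c1 | c1
      · left; left
        rcases c2 with c2 | c2 | c2
        · left; left; exact ⟨⟨c1, c2⟩, hy3⟩
        · left; right; exact ⟨⟨c1, c2⟩, hy3⟩
        · right; exact ⟨⟨c1, c2⟩, hy3⟩
      · left; right
        rcases c2 with c2 | c2 | c2
        · left; left; exact ⟨⟨c1, c2⟩, hy3⟩
        · left; right; exact ⟨⟨c1, c2⟩, hy3⟩
        · right; exact ⟨⟨c1, c2⟩, hy3⟩
      · right
        rcases c2 with c2 | c2 | c2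
        · left; left; exact ⟨⟨c1, c2⟩, hy3⟩
        · left; right; exact ⟨⟨c1, c2⟩, hy3⟩
        · right; exact ⟨⟨c1, c2⟩, hy3⟩
    have u3 : ∀ s1 s2 s3 : Set (ℝ × ℝ), nu f (s1 ∪ s2 ∪ s3) ≤ nu f s1 + nu f s2 + nu f s3 :=
      fun s1 s2 s3 => (measure_union_le _ _).trans (add_le_add (measure_union_le _ _) le_rfl)
    refine (measure_mono sub).trans ((u3 _ _ _).trans ?_)
    exact add_le_add (add_le_add (u3 _ _ _) (u3 _ _ _)) (u3 _ _ _)
  calc ∑ a ∈ Finset.range k, ∑ b ∈ Finset.range k, nu f (N3 l (a * l) (b * l) ∩ Lr l R)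
      ≤ ∑ a ∈ Finset.range k, (5 * h1 ((a : ℤ) - 1) + 5 * h1 (a : ℤ) + 5 * h1 ((a : ℤ) + 1)) := by
        refine Finset.sum_le_sum fun a _ => ?_
        refine (Finset.sum_le_sum fun b _ => cov a b).trans ?_
        rw [Finset.sum_add_distrib, Finset.sum_add_distrib]
        exact add_le_add (add_le_add (s2 _) (s2 _)) (s2 _)
    _ = 5 * ∑ a ∈ Finset.range k, (h1 ((a : ℤ) - 1) + h1 (a : ℤ) + h1 ((a : ℤ) + 1)) := by
        rw [Finset.mul_sum]
        refine Finset.sum_congr rfl fun a _ => ?_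
        rw [mul_add, mul_add]
    _ ≤ 5 * (5 * ∑ a ∈ Finset.range k, h1 (a : ℤ)) := by gcongr
    _ = 25 * ∑ a ∈ Finset.range k, h1 (a : ℤ) := by rw [← mul_assoc]; norm_num
    _ = _ := rfl

theorem sum_layer {f : ℝ × ℝ → ℝ} {l R : ℝ} {k : ℕ} (hl : 0 < l) (hR : R ≤ l / 2) :
    ∑ a ∈ Finset.range k, ∑ b ∈ Finset.range k, Hc f l R a b ≤ nu f (layer l R k) := by
  have h1 : ∀ a b : ℕ, Hc f l R a b = nu f (cell l a b ∩ Lr l R) := by
    intro a b
    have h2 : (cc l a b : Set (ℝ × ℝ)) =ᵐ[volume] cell l a b := by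
      unfold cc cell
      rw [Measure.volume_eq_prod]
      have h3 := Measure.set_prod_ae_eq (μ := (volume : Measure ℝ)) (ν := (volume : Measure ℝ))
        (Ico_ae_eq_Icc (a := ((a : ℤ) : ℝ) * l) (b := (((a : ℤ) : ℝ) + 1) * l)).symm
        (Ico_ae_eq_Icc (a := ((b : ℤ) : ℝ) * l) (b := (((b : ℤ) : ℝ) + 1) * l)).symm
      simpa using h3
    have h3 : (cc l a b : Set (ℝ × ℝ)) =ᵐ[nu f] cell l a b :=
      (withDensity_absolutelyContinuous _ _).ae_eq h2
    exact measure_congr (h3.inter (Filter.EventuallyEq.refl _ _))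
  simp_rw [h1]
  rw [← Finset.sum_product', ← measure_biUnion_finset]
  · refine measure_mono ?_
    intro y hy
    simp only [mem_iUnion, Finset.mem_product, Finset.mem_range, exists_prop] at hy
    obtain ⟨⟨a, b⟩, ⟨ha, hb⟩, ⟨⟨hy1, hy2⟩, m, hm⟩⟩ := hy
    simp only at ha hb hy1 hy2
    have ha1 : (a : ℝ) + 1 ≤ k := by exact_mod_cast ha
    have hb1 : (b : ℝ) + 1 ≤ k := by exact_mod_cast hb
    have ha0 : (0 : ℝ) ≤ a := Nat.cast_nonneg a
    have hb0 : (0 : ℝ) ≤ b := Nat.cast_nonneg b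
    have y1 : 0 ≤ y.1 ∧ y.1 ≤ k * l := ⟨(mul_nonneg ha0 hl.le).trans hy1.1,
      hy1.2.le.trans (mul_le_mul_of_nonneg_right ha1 hl.le)⟩
    have y2 : 0 ≤ y.2 ∧ y.2 ≤ k * l := ⟨(mul_nonneg hb0 hl.le).trans hy2.1,
      hy2.2.le.trans (mul_le_mul_of_nonneg_right hb1 hl.le)⟩
    have key : ∀ u : ℝ, 0 ≤ u → u ≤ k * l → |u - m * l| ≤ R → ∃ n : ℕ, n ≤ k ∧ (m : ℝ) = n := by
      intro u h0 h1 h2
      have h3 := abs_le.1 h2
      have h4 : (-1 : ℝ) < m := by
        by_contra h5
        push Not at h5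
        nlinarith
      have h5 : (m : ℝ) < k + 1 := by
        by_contra h5
        push Not at h5
        nlinarith
      have h6 : -1 < m := by exact_mod_cast h4
      have h7 : m < k + 1 := by exact_mod_cast h5
      refine ⟨m.toNat, by omega, ?_⟩
      have h8 : ((m.toNat : ℕ) : ℤ) = m := Int.toNat_of_nonneg (by omega)
      exact_mod_cast h8.symm
    refine ⟨⟨y1, y2⟩, ?_⟩
    rcases hm with hm | hm
    · obtain ⟨n, hn1, hn2⟩ := key y.1 y1.1 y1.2 hm
      rw [hn2] at hm
      exact ⟨n, hn1, Or.inl hm⟩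
    · obtain ⟨n, hn1, hn2⟩ := key y.2 y2.1 y2.2 hm
      rw [hn2] at hm
      exact ⟨n, hn1, Or.inr hm⟩
  · have key : ∀ a a' : ℕ, ∀ u : ℝ, u ∈ Ico ((a : ℝ) * l) (((a : ℝ) + 1) * l) →
        u ∈ Ico ((a' : ℝ) * l) (((a' : ℝ) + 1) * l) → a = a' := by
      intro a a' u h1 h2
      have h3 : (a : ℝ) < a' + 1 := by
        have := h1.1.trans_lt h2.2
        exact lt_of_mul_lt_mul_right this hl.le
      have h4 : (a' : ℝ) < a + 1 := by
        have := h2.1.trans_lt h1.2
        exact lt_of_mul_lt_mul_right this hl.le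
      have h5 : a < a' + 1 := by exact_mod_cast h3
      have h6 : a' < a + 1 := by exact_mod_cast h4
      omega
    rintro ⟨a, b⟩ _ ⟨a', b'⟩ _ hne
    refine Set.disjoint_left.2 ?_
    rintro y ⟨⟨h1, h2⟩, _⟩ ⟨⟨h3, h4⟩, _⟩
    exact hne (Prod.ext (key a a' y.1 h1 h3) (key b b' y.2 h2 h4))
  · rintro ⟨a, b⟩ _
    exact (measurableSet_Ico.prod measurableSet_Ico).inter (Lr_meas l R)

/-- the deterministic estimate -/
theorem geom {f : ℝ × ℝ → ℝ} {l R : ℝ} {k : ℕ} (hl : 0 < l) (hR0 : 0 < R) (hR : R ≤ l / 2)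
    (hf : EP (k * l) f) :
    ∑ a ∈ Finset.range k, ∑ b ∈ Finset.range k,
      ∫ y in NN l R (a * l) (b * l), De l (a * l) (b * l) f y ≤
      400 * R * ∫ y in layer l R k, gabs f y := by
  have hg := CP_gabs hf
  have g0 : ∀ y, 0 ≤ gabs f y := fun y => add_nonneg (abs_nonneg _) (abs_nonneg _)
  have cbox : IsCompact (box (k * l)) := isCompact_Icc.prod isCompact_Icc
  have conv : ∀ (s c : Set (ℝ × ℝ)), s ⊆ c → IsCompact c →
      ENNReal.ofReal (∫ y in s, gabs f y) = nu f s := by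
    intro s c hsc hc
    have h1 : IntegrableOn (gabs f) s := (hg.cont.continuousOn.integrableOn_compact hc).mono_set hsc
    rw [ofReal_integral_eq_lintegral_ofReal h1 (Filter.Eventually.of_forall g0)]
    unfold nu
    rw [withDensity_apply' _ s]
  have hN : ∀ a b : ℕ, ENNReal.ofReal (∫ y in N3 l (a * l) (b * l) ∩ Lr l R, gabs f y) =
      nu f (N3 l (a * l) (b * l) ∩ Lr l R) := fun a b =>
    conv _ _ inter_subset_left (isCompact_Icc.prod isCompact_Icc)
  have hlay := conv (layer l R k) _ (fun y hy => hy.1) cbox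
  have J0 : ∀ s : Set (ℝ × ℝ), 0 ≤ ∫ y in s, gabs f y := fun s => integral_nonneg g0
  have tot : ∑ a ∈ Finset.range k, ∑ b ∈ Finset.range k,
      (∫ y in N3 l (a * l) (b * l) ∩ Lr l R, gabs f y) ≤ 25 * ∫ y in layer l R k, gabs f y := by
    rw [← ENNReal.ofReal_le_ofReal_iff (mul_nonneg (by norm_num) (J0 _)),
      ENNReal.ofReal_mul (by norm_num), hlay, ENNReal.ofReal_sum_of_nonneg
        (fun a _ => Finset.sum_nonneg fun b _ => J0 _)]
    have e1 : ∀ a ∈ Finset.range k, ENNReal.ofReal (∑ b ∈ Finset.range k,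
        (∫ y in N3 l (a * l) (b * l) ∩ Lr l R, gabs f y)) =
        ∑ b ∈ Finset.range k, nu f (N3 l (a * l) (b * l) ∩ Lr l R) := fun a _ => by
      rw [ENNReal.ofReal_sum_of_nonneg (fun b _ => J0 _)]
      exact Finset.sum_congr rfl fun b _ => hN a b
    rw [Finset.sum_congr rfl e1]
    refine (sum_cells hg).trans ?_
    have h25 : ENNReal.ofReal 25 = 25 := by norm_num
    rw [h25]
    gcongr
    exact sum_layer hl hR
  calc ∑ a ∈ Finset.range k, ∑ b ∈ Finset.range k,
        ∫ y in NN l R (a * l) (b * l), De l (a * l) (b * l) f y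
      ≤ ∑ a ∈ Finset.range k, ∑ b ∈ Finset.range k,
        16 * R * ∫ y in N3 l (a * l) (b * l) ∩ Lr l R, gabs f y := by
        refine Finset.sum_le_sum fun a _ => Finset.sum_le_sum fun b _ => ?_
        have h := cell2D hl hR0 hR hf.smooth (a : ℤ) (b : ℤ)
        simpa using h
    _ = 16 * R * ∑ a ∈ Finset.range k, ∑ b ∈ Finset.range k,
        ∫ y in N3 l (a * l) (b * l) ∩ Lr l R, gabs f y := by
        rw [Finset.mul_sum]
        refine Finset.sum_congr rfl fun a _ => ?_
        rw [Finset.mul_sum]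
    _ ≤ 16 * R * (25 * ∫ y in layer l R k, gabs f y) :=
        mul_le_mul_of_nonneg_left tot (by positivity)
    _ = _ := by ring

end A9

/-- (UP2) the big semigroup against the cell semigroups, on a smooth function. With
`Y_i = X_i + √(2t) Z` and `R_c` the folding of the plane onto the cell, the difference is
`∑ E [f (Y_i) - f (R_c Y_i)]`. If `|√(2t) Z|_∞ ≤ R`, bound by the integral of `|∇ f|` along the
horizontal and then the vertical segment from `Y_i` to `R_c Y_i`, using that the density of the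
`Y_i` (`i` in the cell) is at most the (periodically extended) `rho ≤ 2`; otherwise by `2 M`. -/
theorem fold_diff : ∃ C : ℝ, 0 < C ∧ ∀ (l t R M : ℝ) (k : ℕ), 0 < l → 0 < t → 0 < R → R ≤ l / 2 →
    ∀ {ι : Type} [Fintype ι] (X : ι → ℝ × ℝ), (∀ i, X i ∈ hbox (k * l)) →
    (∀ y, rho (k * l) t X y ≤ 2) → ∀ f : ℝ × ℝ → ℝ, EP (k * l) f → (∀ x, |f x| ≤ M) →
    |(∫ y in box (k * l), f y * rho (k * l) t X y) -
      ∑ a ∈ Finset.range k, ∑ b ∈ Finset.range k,
        ∫ y in box l, f (y.1 + a * l, y.2 + b * l) * rho l t (CX l X a b) y| ≤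
      C * R * (∫ y in layer l R k, gabs f y) +
        C * M * Fintype.card ι * Real.exp (-R ^ 2 / (4 * t)) := by
  classical
  refine ⟨800, by norm_num, fun l t R M k hl ht hR0 hR ι _ X hX hrho f hf hM => ?_⟩
  rcases Nat.eq_zero_or_pos k with hk | hk
  · subst hk
    have : IsEmpty ι := ⟨fun i => by
      have h := (hX i).1
      simp only [Nat.cast_zero, zero_mul] at h
      exact absurd (h.1.trans_lt h.2) (lt_irrefl 0)⟩
    have g0 : ∀ y, 0 ≤ gabs f y := fun y => add_nonneg (abs_nonneg _) (abs_nonneg _)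
    have h1 : 0 ≤ ∫ y in layer l R 0, gabs f y := integral_nonneg g0
    simp only [rho, Finset.univ_eq_empty, Finset.sum_empty, mul_zero, integral_zero,
      Finset.range_zero, sub_zero, abs_zero, Fintype.card_of_isEmpty, Nat.cast_zero, zero_mul, add_zero]
    positivity
  have hkl : 0 < (k : ℝ) * l := mul_pos (Nat.cast_pos.2 hk) hl
  have hM0 : 0 ≤ M := (abs_nonneg _).trans (hM 0)
  have hfc := hf.cont
  -- the big integral
  have pint : ∀ {L : ℝ}, 0 < L → ∀ (x : ℝ × ℝ) (g : ℝ × ℝ → ℝ), Continuous g →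
      IntegrableOn (fun y => p L t x y * g y) (box L) := fun {L} hL x g hg =>
    ((p_EP hL ht x).cont.mul hg).continuousOn.integrableOn_compact
      (isCompact_Icc.prod isCompact_Icc)
  have big : ∫ y in box (k * l), f y * rho (k * l) t X y = ∑ i, P t f (X i) := by
    have e1 : ∀ y, f y * rho (k * l) t X y = ∑ i, p (k * l) t (X i) y * f y := fun y => by
      unfold rho
      rw [Finset.mul_sum]
      exact Finset.sum_congr rfl fun i _ => mul_comm _ _
    simp_rw [e1]
    rw [integral_finsetSum _ fun i _ => pint hkl (X i) f hfc]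
    exact Finset.sum_congr rfl fun i _ => int_p hkl ht hf.toCP (X i)
  -- the small integrals
  have small : ∀ a b : ℕ, ∫ y in box l, f (y.1 + a * l, y.2 + b * l) * rho l t (CX l X a b) y =
      ∑ i : CI l X a b, P t (A9.FF l (a * l) (b * l) f) (CX l X a b i) := by
    intro a b
    have cF := A9.FF_CP l (a * l) (b * l) hfc
    have e1 : ∀ y ∈ box l, f (y.1 + a * l, y.2 + b * l) * rho l t (CX l X a b) y =
        ∑ i, p l t (CX l X a b i) y * A9.FF l (a * l) (b * l) f y := fun y hy => by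
      unfold rho A9.FF
      rw [A9.fd_id hl hy.1.1 hy.1.2, A9.fd_id hl hy.2.1 hy.2.2, Finset.mul_sum, add_comm y.1,
        add_comm y.2]
      exact Finset.sum_congr rfl fun i _ => mul_comm _ _
    have mb : MeasurableSet (box l) := measurableSet_Icc.prod measurableSet_Icc
    rw [setIntegral_congr_fun mb e1,
      integral_finsetSum _ fun i _ => pint hl _ _ cF.cont]
    exact Finset.sum_congr rfl fun i _ => int_p hl ht cF _
  -- partition of the points
  have part : ∀ φ : ι → ℝ, ∑ i, φ i =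
      ∑ a ∈ Finset.range k, ∑ b ∈ Finset.range k, ∑ i : CI l X a b, φ i.1 := by
    intro φ
    have e1 : ∀ a b : ℕ, ∑ i : CI l X a b, φ i.1 = ∑ i, if X i ∈ cell l a b then φ i else 0 := by
      intro a b
      rw [← Finset.sum_filter]
      exact (Finset.sum_subtype (Finset.univ.filter fun i => X i ∈ cell l a b)
        (fun i => by simp) φ).symm
    have e2 : ∀ i, ∑ a ∈ Finset.range k, ∑ b ∈ Finset.range k,
        (if X i ∈ cell l a b then φ i else 0) = φ i := by
      intro i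
      have fl : ∀ u : ℝ, u ∈ Ico 0 ((k : ℝ) * l) → ⌊u / l⌋₊ ∈ Finset.range k ∧
          ∀ a : ℕ, u ∈ Ico ((a : ℝ) * l) (((a : ℝ) + 1) * l) ↔ a = ⌊u / l⌋₊ := by
        intro u hu
        have h0 : 0 ≤ u / l := div_nonneg hu.1 hl.le
        refine ⟨Finset.mem_range.2 ((Nat.floor_lt h0).2 ((div_lt_iff₀ hl).2 hu.2)), fun a => ?_⟩
        rw [eq_comm, Nat.floor_eq_iff h0, mem_Ico, le_div_iff₀ hl, div_lt_iff₀ hl]
      obtain ⟨f1, f2⟩ := fl (X i).1 (hX i).1
      obtain ⟨f3, f4⟩ := fl (X i).2 (hX i).2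
      have mem : ∀ a b : ℕ, X i ∈ cell l a b ↔ a = ⌊(X i).1 / l⌋₊ ∧ b = ⌊(X i).2 / l⌋₊ := by
        intro a b
        unfold cell
        rw [mem_prod, f2 a, f4 b]
      rw [Finset.sum_eq_single ⌊(X i).1 / l⌋₊, Finset.sum_eq_single ⌊(X i).2 / l⌋₊]
      · rw [if_pos ((mem _ _).2 ⟨rfl, rfl⟩)]
      · intro b _ hb
        rw [if_neg fun h => hb ((mem _ _).1 h).2]
      · intro h; exact absurd f3 h
      · intro a _ ha
        exact Finset.sum_eq_zero fun b _ => if_neg fun h => ha ((mem _ _).1 h).1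
      · intro h; exact absurd f1 h
    simp_rw [e1]
    rw [← Finset.sum_congr rfl fun i _ => e2 i, Finset.sum_comm]
    refine Finset.sum_congr rfl fun a _ => ?_
    rw [Finset.sum_comm]
  -- one cell
  have onecell : ∀ a b : ℕ, |∑ i : CI l X a b, (P t f (X i.1) -
      P t (A9.FF l (a * l) (b * l) f) (CX l X a b i))| ≤
      ∑ i : CI l X a b, 8 * M * Real.exp (-R ^ 2 / (4 * t)) +
        2 * ∫ y in A9.NN l R (a * l) (b * l), A9.De l (a * l) (b * l) f y := by
    intro a b
    have cD := A9.De_cont l (a * l) (b * l) hfc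
    have cN := A9.NN_compact l R (a * l) (b * l)
    have D0 : ∀ y, 0 ≤ A9.De l (a * l) (b * l) f y := fun y => abs_nonneg _
    have e1 : ∀ i : CI l X a b, |P t f (X i.1) - P t (A9.FF l (a * l) (b * l) f) (CX l X a b i)| ≤
        8 * M * Real.exp (-R ^ 2 / (4 * t)) +
          ∫ y in A9.NN l R (a * l) (b * l), A9.De l (a * l) (b * l) f y * A9.GG t (X i.1) y := by
      intro i
      have h1 : X i.1 ∈ cell l a b := i.2
      refine A9.one_point ht hR0 hfc hM ?_ ?_
      · exact ⟨h1.1.1, h1.1.2.le.trans (by linarith)⟩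
      · exact ⟨h1.2.1, h1.2.2.le.trans (by linarith)⟩
    have e2 : ∑ i : CI l X a b,
        (∫ y in A9.NN l R (a * l) (b * l), A9.De l (a * l) (b * l) f y * A9.GG t (X i.1) y) ≤
        2 * ∫ y in A9.NN l R (a * l) (b * l), A9.De l (a * l) (b * l) f y := by
      rw [← integral_finsetSum _ fun i _ =>
        ((cD.mul (A9.GG_cont t (X i.1))).continuousOn.integrableOn_compact cN), ← integral_const_mul]
      refine setIntegral_mono (integrable_finsetSum _ fun i _ =>
        ((cD.mul (A9.GG_cont t (X i.1))).continuousOn.integrableOn_compact cN))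
        ((continuous_const.mul cD).continuousOn.integrableOn_compact cN) fun y => ?_
      simp only
      rw [← Finset.mul_sum, mul_comm 2]
      refine mul_le_mul_of_nonneg_left ?_ (D0 y)
      refine le_trans ?_ (hrho y)
      calc ∑ i : CI l X a b, A9.GG t (X i.1) y
          = ∑ i ∈ Finset.univ.filter fun i => X i ∈ cell l a b, A9.GG t (X i) y :=
            (Finset.sum_subtype (Finset.univ.filter fun i => X i ∈ cell l a b)
              (fun i => by simp) (fun i => A9.GG t (X i) y)).symm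
        _ ≤ ∑ i, A9.GG t (X i) y := Finset.sum_le_sum_of_subset_of_nonneg (Finset.filter_subset _ _)
            fun i _ _ => A9.GG_nonneg ht _ _
        _ ≤ rho (k * l) t X y := Finset.sum_le_sum fun i _ => A9.GG_le_p hkl ht _ _
    refine (Finset.abs_sum_le_sum_abs _ _).trans ((Finset.sum_le_sum fun i _ => e1 i).trans ?_)
    rw [Finset.sum_add_distrib]
    linarith
  have tot : (∫ y in box (k * l), f y * rho (k * l) t X y) -
      ∑ a ∈ Finset.range k, ∑ b ∈ Finset.range k,
        ∫ y in box l, f (y.1 + a * l, y.2 + b * l) * rho l t (CX l X a b) y =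
      ∑ a ∈ Finset.range k, ∑ b ∈ Finset.range k, ∑ i : CI l X a b, (P t f (X i.1) -
        P t (A9.FF l (a * l) (b * l) f) (CX l X a b i)) := by
    rw [big, part fun i => P t f (X i), ← Finset.sum_sub_distrib]
    refine Finset.sum_congr rfl fun a _ => ?_
    rw [← Finset.sum_sub_distrib]
    refine Finset.sum_congr rfl fun b _ => ?_
    rw [small a b, ← Finset.sum_sub_distrib]
  have hcard : (Fintype.card ι : ℝ) * (8 * M * Real.exp (-R ^ 2 / (4 * t))) =
      ∑ a ∈ Finset.range k, ∑ b ∈ Finset.range k,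
        ∑ i : CI l X a b, 8 * M * Real.exp (-R ^ 2 / (4 * t)) := by
    rw [← part fun _ => 8 * M * Real.exp (-R ^ 2 / (4 * t)), Finset.sum_const, nsmul_eq_mul,
      Finset.card_univ]
  have hgeom := A9.geom hl hR0 hR hf
  have hE := Real.exp_pos (-R ^ 2 / (4 * t))
  have hcn : (0 : ℝ) ≤ Fintype.card ι := Nat.cast_nonneg _
  rw [tot]
  calc _ ≤ ∑ a ∈ Finset.range k, ∑ b ∈ Finset.range k,
        (∑ i : CI l X a b, 8 * M * Real.exp (-R ^ 2 / (4 * t)) +
        2 * ∫ y in A9.NN l R (a * l) (b * l), A9.De l (a * l) (b * l) f y) := by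
        refine (Finset.abs_sum_le_sum_abs _ _).trans (Finset.sum_le_sum fun a _ => ?_)
        exact (Finset.abs_sum_le_sum_abs _ _).trans (Finset.sum_le_sum fun b _ => onecell a b)
    _ = (Fintype.card ι : ℝ) * (8 * M * Real.exp (-R ^ 2 / (4 * t))) +
        2 * ∑ a ∈ Finset.range k, ∑ b ∈ Finset.range k,
          ∫ y in A9.NN l R (a * l) (b * l), A9.De l (a * l) (b * l) f y := by
        rw [hcard, Finset.mul_sum, ← Finset.sum_add_distrib]
        refine Finset.sum_congr rfl fun a _ => ?_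
        rw [Finset.mul_sum, ← Finset.sum_add_distrib]
    _ ≤ (Fintype.card ι : ℝ) * (8 * M * Real.exp (-R ^ 2 / (4 * t))) +
        2 * (400 * R * ∫ y in layer l R k, gabs f y) := by linarith
    _ ≤ _ := by
        have h8 : (Fintype.card ι : ℝ) * (8 * M * Real.exp (-R ^ 2 / (4 * t))) ≤
            800 * M * Fintype.card ι * Real.exp (-R ^ 2 / (4 * t)) := by
          have : 0 ≤ (Fintype.card ι : ℝ) * (M * Real.exp (-R ^ 2 / (4 * t))) := by positivity
          nlinarith
        linarith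

end Pool.Agent.Lib.H77M
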