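import Pool.Agent.Lib.H77M.B2

/-!
# Project H77M, chunk B1: existence of optimal potentials (semi-discrete optimal transport)
-/

open MeasureTheory Set ProbabilityTheory
open scoped ContDiff

namespace Pool.Agent.Lib.H77M

theorem B1_attain {ι : Type} [Fintype ι] [Nonempty ι] (X : ι → ℝ × ℝ) (ψ : ι → ℝ) (y : ℝ × ℝ) :
    ∃ i, upot X ψ y = sqd (X i) y / 2 - ψ i := by
  obtain ⟨i, hi⟩ := exists_eq_ciInf_of_finite (f := fun i => sqd (X i) y / 2 - ψ i)
  exact ⟨i, hi.symm⟩

theorem B1_le_upot {ι : Type} [Fintype ι] [Nonempty ι] {X : ι → ℝ × ℝ} {ψ : ι → ℝ} {y : ℝ × ℝ}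
    {c : ℝ} (h : ∀ i, c ≤ sqd (X i) y / 2 - ψ i) : c ≤ upot X ψ y := le_ciInf h

theorem B1_shift {ι : Type} [Fintype ι] [Nonempty ι] (X : ι → ℝ × ℝ) (ψ : ι → ℝ) (y : ℝ × ℝ)
    (c : ℝ) : upot X (fun i => ψ i - c) y = upot X ψ y + c := by
  apply le_antisymm
  · obtain ⟨i, hi⟩ := B1_attain X ψ y
    have := upot_le X (fun i => ψ i - c) i y
    rw [hi]
    linarith
  · apply B1_le_upot
    intro i
    have := upot_le X ψ i y
    linarith

theorem B1_joint {ι : Type} [Fintype ι] [Nonempty ι] (X : ι → ℝ × ℝ) :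
    Continuous (fun q : (ι → ℝ) × (ℝ × ℝ) => upot X q.1 q.2) := by
  have : (fun q : (ι → ℝ) × (ℝ × ℝ) => upot X q.1 q.2) = fun q => Finset.univ.inf'
      Finset.univ_nonempty (fun i => sqd (X i) q.2 / 2 - q.1 i) := by
    funext q
    unfold upot
    exact (Finset.inf'_univ_eq_ciInf _).symm
  rw [this]
  apply Continuous.finset_inf'_apply
  intro i _
  have h1 := B2_sqd_cont (X i)
  exact ((h1.comp continuous_snd).div_const 2).sub ((continuous_apply i).comp continuous_fst)

/-- a line is a null set -/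
theorem B1_line {a b c : ℝ} (h : a ≠ 0 ∨ b ≠ 0) :
    volume {y : ℝ × ℝ | a * y.1 + b * y.2 = c} = 0 := by
  have hm : MeasurableSet {y : ℝ × ℝ | a * y.1 + b * y.2 = c} :=
    measurableSet_eq_fun (by fun_prop) measurable_const
  rw [Measure.volume_eq_prod, Measure.measure_prod_null hm]
  by_cases hb : b = 0
  · have ha : a ≠ 0 := by
      rcases h with h | h
      · exact h
      · exact absurd hb h
    have h0 : ∀ᵐ x : ℝ, x ≠ c / a := by
      rw [ae_iff]
      simp
    filter_upwards [h0] with x hx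
    have : Prod.mk x ⁻¹' {y : ℝ × ℝ | a * y.1 + b * y.2 = c} = ∅ := by
      ext z
      simp only [mem_preimage, mem_setOf_eq, mem_empty_iff_false, iff_false, hb, zero_mul, add_zero]
      intro h
      apply hx
      rw [← h]
      field_simp
    rw [this, measure_empty]
    rfl
  · filter_upwards with x
    have : Prod.mk x ⁻¹' {y : ℝ × ℝ | a * y.1 + b * y.2 = c} ⊆ {(c - a * x) / b} := by
      intro z hz
      simp only [mem_preimage, mem_setOf_eq] at hz
      rw [mem_singleton_iff, eq_div_iff hb]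
      linarith
    exact measure_mono_null this (by simp)

theorem B1_bisector {x x' : ℝ × ℝ} (h : x ≠ x') (c c' : ℝ) :
    volume {y : ℝ × ℝ | sqd x y / 2 - c = sqd x' y / 2 - c'} = 0 := by
  have h' : x'.1 - x.1 ≠ 0 ∨ x'.2 - x.2 ≠ 0 := by
    by_contra hcon
    push Not at hcon
    apply h
    ext
    · linarith [hcon.1]
    · linarith [hcon.2]
  refine measure_mono_null ?_ (B1_line (c := (x'.1 ^ 2 + x'.2 ^ 2 - x.1 ^ 2 - x.2 ^ 2) / 2 + c - c') h')
  intro y hy
  simp only [mem_setOf_eq, sqd] at hy ⊢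
  nlinarith [hy]

/-- the closed cell -/
def B1C {ι : Type} (X : ι → ℝ × ℝ) (ψ : ι → ℝ) (i : ι) : Set (ℝ × ℝ) :=
  {y | upot X ψ y = sqd (X i) y / 2 - ψ i}

theorem B1C_meas {ι : Type} [Fintype ι] (X : ι → ℝ × ℝ) (ψ : ι → ℝ) (i : ι) :
    MeasurableSet (B1C X ψ i) := by
  apply measurableSet_eq_fun (upot_cont X ψ).measurable
  exact (((B2_sqd_cont (X i)).div_const 2).sub continuous_const).measurable

/-- a measurable choice of a minimiser -/
theorem B1_T {ι : Type} [Fintype ι] [Nonempty ι] (X : ι → ℝ × ℝ) (ψ : ι → ℝ) :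
    ∃ T : ℝ × ℝ → ι, (∀ i, MeasurableSet {y | T y = i}) ∧
      ∀ y, upot X ψ y = sqd (X (T y)) y / 2 - ψ (T y) := by
  classical
  let e := Fintype.equivFin ι
  let A : ℝ × ℝ → Finset (Fin (Fintype.card ι)) := fun y =>
    Finset.univ.filter (fun k => y ∈ B1C X ψ (e.symm k))
  have hA : ∀ y, (A y).Nonempty := by
    intro y
    obtain ⟨i, hi⟩ := B1_attain X ψ y
    refine ⟨e i, Finset.mem_filter.2 ⟨Finset.mem_univ _, ?_⟩⟩
    rw [e.symm_apply_apply]
    exact hi
  refine ⟨fun y => e.symm ((A y).min' (hA y)), ?_, ?_⟩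
  · intro i
    have : {y | e.symm ((A y).min' (hA y)) = i} =
        B1C X ψ i ∩ ⋂ j : ι, {y | e j < e i → y ∉ B1C X ψ j} := by
      ext y
      simp only [mem_setOf_eq, mem_inter_iff, mem_iInter]
      constructor
      · intro h
        have h1 : (A y).min' (hA y) = e i := by rw [← h, e.apply_symm_apply]
        have h2 := (A y).min'_mem (hA y)
        rw [h1] at h2
        have h3 := (Finset.mem_filter.1 h2).2
        rw [e.symm_apply_apply] at h3
        refine ⟨h3, fun j hj hjC => ?_⟩
        have h4 : e j ∈ A y := Finset.mem_filter.2 ⟨Finset.mem_univ _, by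
          rw [e.symm_apply_apply]; exact hjC⟩
        have h5 := (A y).min'_le _ h4
        rw [h1] at h5
        exact absurd hj (not_lt.2 h5)
      · rintro ⟨h1, h2⟩
        rw [Equiv.symm_apply_eq]
        apply le_antisymm
        · apply Finset.min'_le
          exact Finset.mem_filter.2 ⟨Finset.mem_univ _, by rw [e.symm_apply_apply]; exact h1⟩
        · by_contra hlt
          push Not at hlt
          have h3 := (Finset.mem_filter.1 ((A y).min'_mem (hA y))).2
          refine h2 (e.symm ((A y).min' (hA y))) ?_ h3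
          rw [e.apply_symm_apply]
          exact hlt
    rw [this]
    refine (B1C_meas X ψ i).inter (MeasurableSet.iInter fun j => ?_)
    by_cases hj : e j < e i
    · have : {y | e j < e i → y ∉ B1C X ψ j} = (B1C X ψ j)ᶜ := by
        ext y
        simp [hj]
      rw [this]
      exact (B1C_meas X ψ j).compl
    · have : {y : ℝ × ℝ | e j < e i → y ∉ B1C X ψ j} = univ := by
        ext y
        simp [hj]
      rw [this]
      exact MeasurableSet.univ
  · intro y
    exact (Finset.mem_filter.1 ((A y).min'_mem (hA y))).2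

theorem B1_int (L : ℝ) {ι : Type} [Fintype ι] (X : ι → ℝ × ℝ) (ψ : ι → ℝ) {r : ℝ × ℝ → ℝ}
    (hr : Continuous r) : IntegrableOn (fun y => upot X ψ y * r y) (box L) :=
  B2_cont_int ((upot_cont X ψ).mul hr)

/-- the dual functional -/
noncomputable def B1Phi (L : ℝ) {ι : Type} [Fintype ι] (X : ι → ℝ × ℝ) (r : ℝ × ℝ → ℝ) (ψ : ι → ℝ) : ℝ :=
  ∑ i, ψ i + ∫ y in box L, upot X ψ y * r y

theorem B1Phi_cont (L : ℝ) {ι : Type} [Fintype ι] [Nonempty ι] (X : ι → ℝ × ℝ) {r : ℝ × ℝ → ℝ}
    (hr : Continuous r) : Continuous (B1Phi L X r) := by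
  unfold B1Phi
  refine (continuous_finset_sum _ fun i _ => continuous_apply i).add ?_
  refine continuous_parametric_integral_of_continuous (f := fun ψ y => upot X ψ y * r y)
    ?_ (B2_compact_box L)
  exact (B1_joint X).mul (hr.comp continuous_snd)

theorem B1Phi_shift (L : ℝ) {ι : Type} [Fintype ι] [Nonempty ι] (X : ι → ℝ × ℝ) {r : ℝ × ℝ → ℝ}
    (hr : Continuous r) (hmass : ∫ y in box L, r y = Fintype.card ι) (ψ : ι → ℝ) (c : ℝ) :
    B1Phi L X r (fun i => ψ i - c) = B1Phi L X r ψ := by
  unfold B1Phi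
  have h1 : ∫ y in box L, upot X (fun i => ψ i - c) y * r y =
      (∫ y in box L, upot X ψ y * r y) + c * Fintype.card ι := by
    rw [← hmass, ← integral_const_mul, ← integral_add]
    · apply setIntegral_congr_fun (B2_meas_box L)
      intro y _
      simp only
      rw [B1_shift]
      ring
    · exact B2_cont_int ((upot_cont X ψ).mul hr)
    · exact B2_cont_int (continuous_const.mul hr)
  rw [h1, Finset.sum_sub_distrib, Finset.sum_const, Finset.card_univ, nsmul_eq_mul]
  ring

/-- existence of a maximiser -/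
theorem B1_max {L : ℝ} {ι : Type} [Fintype ι] [Nonempty ι] (X : ι → ℝ × ℝ)
    {r : ℝ × ℝ → ℝ} (hr : Continuous r) (hpos : ∀ y ∈ box L, 0 < r y)
    (hmass : ∫ y in box L, r y = Fintype.card ι) :
    ∃ ψ : ι → ℝ, ∀ ψ', B1Phi L X r ψ' ≤ B1Phi L X r ψ := by
  classical
  -- a bound for the cost
  obtain ⟨D, hD0, hD⟩ : ∃ D : ℝ, 0 ≤ D ∧ ∀ i, ∀ y ∈ box L, sqd (X i) y / 2 ≤ D := by
    have h1 : ∀ i, ∃ C, ∀ y ∈ box L, ‖sqd (X i) y / 2‖ ≤ C := fun i =>
      (B2_compact_box L).exists_bound_of_continuousOn ((B2_sqd_cont (X i)).div_const 2).continuousOn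
    choose C hC using h1
    refine ⟨∑ i, |C i|, Finset.sum_nonneg fun i _ => abs_nonneg _, fun i y hy => ?_⟩
    calc sqd (X i) y / 2 ≤ ‖sqd (X i) y / 2‖ := le_abs_self _
      _ ≤ C i := hC i y hy
      _ ≤ |C i| := le_abs_self _
      _ ≤ ∑ i, |C i| := Finset.single_le_sum (f := fun i => |C i|)
        (fun i _ => abs_nonneg _) (Finset.mem_univ i)
  set N : ℝ := ((Fintype.card ι : ℕ) : ℝ) with hN
  have hN0 : 0 < N := by rw [hN]; exact_mod_cast Fintype.card_pos
  have hcomp : IsCompact (Set.Icc (fun _ => -(D * N)) (fun _ => 0) : Set (ι → ℝ)) := isCompact_Icc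
  have hDN : 0 ≤ D * N := by positivity
  have h0mem : (fun _ => 0 : ι → ℝ) ∈ (Set.Icc (fun _ => -(D * N)) (fun _ => 0) : Set (ι → ℝ)) :=
    ⟨fun i => by show -(D * N) ≤ 0; linarith, fun i => le_rfl⟩
  obtain ⟨ψ, hψ, hmax⟩ := hcomp.exists_isMaxOn ⟨_, h0mem⟩ (B1Phi_cont L X hr).continuousOn
  have hΦ0 : 0 ≤ B1Phi L X r (fun _ => 0) := by
    unfold B1Phi
    rw [Finset.sum_const_zero, zero_add]
    apply setIntegral_nonneg (B2_meas_box L)
    intro y hy
    refine mul_nonneg (B1_le_upot fun i => ?_) (hpos y hy).le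
    have := B2_sqd_nonneg (X i) y
    linarith
  refine ⟨ψ, fun ψ' => ?_⟩
  -- normalise
  obtain ⟨i0, hi0⟩ := Finite.exists_max ψ'
  rw [← B1Phi_shift L X hr hmass ψ' (ψ' i0)]
  by_cases hin : ∀ k, -(D * N) ≤ ψ' k - ψ' i0
  · apply hmax
    exact ⟨fun k => hin k, fun k => by show ψ' k - ψ' i0 ≤ 0; linarith [hi0 k]⟩
  · push Not at hin
    obtain ⟨k, hk⟩ := hin
    have h1 : B1Phi L X r (fun i => ψ' i - ψ' i0) ≤ 0 := by
      unfold B1Phi
      have h2 : ∑ i, (ψ' i - ψ' i0) ≤ ψ' k - ψ' i0 := by
        rw [← Finset.add_sum_erase _ _ (Finset.mem_univ k)]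
        have : ∑ i ∈ Finset.univ.erase k, (ψ' i - ψ' i0) ≤ 0 :=
          Finset.sum_nonpos fun i _ => by linarith [hi0 i]
        linarith
      have h3 : ∫ y in box L, upot X (fun i => ψ' i - ψ' i0) y * r y ≤ ∫ y in box L, D * r y := by
        apply setIntegral_mono_on (B2_cont_int ((upot_cont X _).mul hr))
          (B2_cont_int (continuous_const.mul hr)) (B2_meas_box L)
        intro y hy
        refine mul_le_mul_of_nonneg_right ?_ (hpos y hy).le
        refine (upot_le X _ i0 y).trans ?_
        rw [sub_self, sub_zero]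
        exact hD i0 y hy
      rw [integral_const_mul, hmass] at h3
      linarith
    exact h1.trans (hΦ0.trans (hmax h0mem))

/-- at a maximiser the closed cells have mass at least one -/
theorem B1_mass {L : ℝ} {ι : Type} [Fintype ι] [Nonempty ι] {X : ι → ℝ × ℝ}
    {r : ℝ × ℝ → ℝ} (hr : Continuous r) (hpos : ∀ y ∈ box L, 0 < r y) {ψ : ι → ℝ}
    (hmax : ∀ ψ', B1Phi L X r ψ' ≤ B1Phi L X r ψ) (i : ι) :
    1 ≤ ∫ y in box L ∩ B1C X ψ i, r y := by
  classical
  let ψs : ℝ → ι → ℝ := fun s => Function.update ψ i (ψ i + s)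
  have hrb : IntegrableOn r (box L) := B2_cont_int hr
  -- step 1
  have step1 : ∀ s : ℝ, 0 < s → 1 ≤ ∫ y in box L ∩ B1C X (ψs s) i, r y := by
    intro s hs
    have h1 : ∀ y, upot X ψ y - s * (B1C X (ψs s) i).indicator (fun _ => (1 : ℝ)) y ≤
        upot X (ψs s) y := by
      intro y
      by_cases hy : y ∈ B1C X (ψs s) i
      · rw [indicator_of_mem hy, mul_one, (hy : upot X (ψs s) y = _)]
        have := upot_le X ψ i y
        have e : ψs s i = ψ i + s := Function.update_self _ _ _
        rw [e]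
        linarith
      · rw [indicator_of_notMem hy, mul_zero, sub_zero]
        obtain ⟨j, hj⟩ := B1_attain X (ψs s) y
        have hji : j ≠ i := by
          rintro rfl
          exact hy hj
        have e : ψs s j = ψ j := Function.update_of_ne hji _ _
        rw [hj, e]
        exact upot_le X ψ j y
    have hsum : ∑ j, ψs s j = ∑ j, ψ j + s := by
      rw [← Finset.add_sum_erase _ _ (Finset.mem_univ i),
        ← Finset.add_sum_erase Finset.univ ψ (Finset.mem_univ i)]
      have e : ψs s i = ψ i + s := Function.update_self _ _ _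
      have e2 : ∑ x ∈ Finset.univ.erase i, ψs s x = ∑ x ∈ Finset.univ.erase i, ψ x :=
        Finset.sum_congr rfl fun j hj => Function.update_of_ne (Finset.ne_of_mem_erase hj) _ _
      rw [e, e2]
      ring
    have hmeas := B1C_meas X (ψs s) i
    have hint : IntegrableOn (fun y => (B1C X (ψs s) i).indicator (fun _ => (1 : ℝ)) y * r y)
        (box L) := by
      have : (fun y => (B1C X (ψs s) i).indicator (fun _ => (1 : ℝ)) y * r y) =
          (B1C X (ψs s) i).indicator r := by
        funext y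
        by_cases hy : y ∈ B1C X (ψs s) i
        · rw [indicator_of_mem hy, indicator_of_mem hy, one_mul]
        · rw [indicator_of_notMem hy, indicator_of_notMem hy, zero_mul]
      rw [this]
      exact hrb.indicator hmeas
    have h2 : ∫ y in box L, (upot X ψ y * r y -
        s * ((B1C X (ψs s) i).indicator (fun _ => (1 : ℝ)) y * r y)) ≤
        ∫ y in box L, upot X (ψs s) y * r y := by
      apply setIntegral_mono_on _ (B1_int L X _ hr) (B2_meas_box L)
      · intro y hy
        have := mul_le_mul_of_nonneg_right (h1 y) (hpos y hy).le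
        linarith
      · exact (B1_int L X _ hr).sub (hint.const_mul s)
    rw [integral_sub (B1_int L X _ hr) (hint.const_mul s),
      integral_const_mul] at h2
    have h3 : ∫ y in box L, (B1C X (ψs s) i).indicator (fun _ => (1 : ℝ)) y * r y =
        ∫ y in box L ∩ B1C X (ψs s) i, r y := by
      rw [← setIntegral_indicator hmeas]
      apply setIntegral_congr_fun (B2_meas_box L)
      intro y _
      simp only
      by_cases hy : y ∈ B1C X (ψs s) i
      · rw [indicator_of_mem hy, indicator_of_mem hy, one_mul]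
      · rw [indicator_of_notMem hy, indicator_of_notMem hy, zero_mul]
    rw [h3] at h2
    have h4 := hmax (ψs s)
    unfold B1Phi at h4
    rw [hsum] at h4
    have h5 : s * 1 ≤ s * ∫ y in box L ∩ B1C X (ψs s) i, r y := by linarith
    exact le_of_mul_le_mul_left h5 hs
  -- step 2
  have hC : ∀ s : ℝ, 0 ≤ s → ∀ y, y ∈ B1C X (ψs s) i ↔
      ∀ j, j ≠ i → sqd (X i) y / 2 - ψ i - s ≤ sqd (X j) y / 2 - ψ j := by
    intro s hs y
    have e : ψs s i = ψ i + s := Function.update_self _ _ _
    have e' : ∀ j, j ≠ i → ψs s j = ψ j := fun j hj => Function.update_of_ne hj _ _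
    constructor
    · intro hy j hj
      have h1 := upot_le X (ψs s) j y
      rw [(hy : upot X (ψs s) y = _), e, e' j hj] at h1
      linarith
    · intro h
      apply le_antisymm (upot_le X (ψs s) i y)
      apply B1_le_upot
      intro j
      by_cases hj : j = i
      · rw [hj]
      · rw [e, e' j hj]
        linarith [h j hj]
  have hψ0 : ψs 0 = ψ := by
    show Function.update ψ i (ψ i + 0) = ψ
    rw [add_zero, Function.update_eq_self]
  set S : ℕ → Set (ℝ × ℝ) := fun n => box L ∩ B1C X (ψs (1 / ((n : ℝ) + 1))) i with hS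
  have hpos' : ∀ n : ℕ, 0 < 1 / ((n : ℝ) + 1) := fun n => by positivity
  have hanti : Antitone S := by
    intro m n hmn y hy
    refine ⟨hy.1, ?_⟩
    rw [hC _ (hpos' m).le]
    have h1 := (hC _ (hpos' n).le y).1 hy.2
    intro j hj
    have h2 := h1 j hj
    have h3 : 1 / ((n : ℝ) + 1) ≤ 1 / ((m : ℝ) + 1) := by
      apply one_div_le_one_div_of_le (by positivity)
      have : (m : ℝ) ≤ n := by exact_mod_cast hmn
      linarith
    linarith
  have hinter : ⋂ n, S n = box L ∩ B1C X ψ i := by
    ext y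
    simp only [mem_iInter]
    constructor
    · intro h
      refine ⟨(h 0).1, ?_⟩
      rw [← hψ0, hC 0 le_rfl]
      intro j hj
      rw [sub_zero]
      have h1 : Filter.Tendsto (fun n : ℕ => sqd (X i) y / 2 - ψ i - 1 / ((n : ℝ) + 1))
          Filter.atTop (nhds (sqd (X i) y / 2 - ψ i - 0)) :=
        tendsto_const_nhds.sub tendsto_one_div_add_atTop_nhds_zero_nat
      rw [sub_zero] at h1
      apply le_of_tendsto h1
      filter_upwards with n
      exact (hC _ (hpos' n).le y).1 (h n).2 j hj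
    · rintro ⟨h1, h2⟩ n
      refine ⟨h1, ?_⟩
      rw [← hψ0, hC 0 le_rfl] at h2
      rw [hC _ (hpos' n).le]
      intro j hj
      have := h2 j hj
      have := hpos' n
      linarith
  have hlim := tendsto_setIntegral_of_antitone (μ := volume) (f := r) (s := S)
    (fun n => (B2_meas_box L).inter (B1C_meas X (ψs (1 / ((n : ℝ) + 1))) i)) hanti
    ⟨0, hrb.mono_set inter_subset_left⟩
  rw [hinter] at hlim
  apply ge_of_tendsto hlim
  filter_upwards with n
  exact step1 _ (hpos' n)

/-- Existence of optimal potentials: maximise the concave function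
`ψ ↦ ∑ i, ψ i + ∫ upot X ψ * r` (normalised, coercive); at the maximum the cells
`{upot = sqd (X i) / 2 - ψ i}` (which overlap in null sets, `X` being injective) have mass `1`. -/
theorem exists_opt {L : ℝ} (hL : 0 < L) {ι : Type} [Fintype ι] [Nonempty ι] {X : ι → ℝ × ℝ}
    (hX : Function.Injective X) {r : ℝ × ℝ → ℝ} (hr : Continuous r) (hpos : ∀ y ∈ box L, 0 < r y)
    (hmass : ∫ y in box L, r y = Fintype.card ι) :
    ∃ (ψ : ι → ℝ) (T : ℝ × ℝ → ι), IsOpt L X r ψ T ∧ ∫ y in box L, upot X ψ y = 0 := by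
  classical
  obtain ⟨ψ, hmax⟩ := B1_max X hr hpos hmass
  obtain ⟨T, hT1, hT2⟩ := B1_T X ψ
  have hrb : IntegrableOn r (box L) := B2_cont_int hr
  have hae : ∀ i, ∫ y in box L ∩ {y | T y = i}, r y = ∫ y in box L ∩ B1C X ψ i, r y := by
    intro i
    apply setIntegral_congr_set
    have hnull : ∀ᵐ y : ℝ × ℝ, ∀ j, j ≠ i → sqd (X i) y / 2 - ψ i ≠ sqd (X j) y / 2 - ψ j := by
      rw [ae_all_iff]
      intro j
      by_cases hj : j = i
      · filter_upwards with y h
        exact absurd hj h
      · have := B1_bisector (fun h => hj (hX h).symm) (x := X i) (x' := X j) (ψ i) (ψ j)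
        have h2 : ∀ᵐ y : ℝ × ℝ, ¬ (sqd (X i) y / 2 - ψ i = sqd (X j) y / 2 - ψ j) := by
          rw [ae_iff]
          simpa using this
        filter_upwards [h2] with y hy _
        exact hy
    filter_upwards [hnull] with y hy
    apply propext
    constructor
    · rintro ⟨h1, h2⟩
      refine ⟨h1, ?_⟩
      have h2' : T y = i := h2
      show upot X ψ y = _
      rw [hT2 y, h2']
    · rintro ⟨h1, h2⟩
      refine ⟨h1, ?_⟩
      by_contra h3
      have h4 : upot X ψ y = sqd (X i) y / 2 - ψ i := h2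
      exact hy (T y) h3 (h4.symm.trans (hT2 y))
  have hge : ∀ i, 1 ≤ ∫ y in box L ∩ {y | T y = i}, r y := by
    intro i
    rw [hae i]
    exact B1_mass hr hpos hmax i
  have hsum : ∑ i, ∫ y in box L ∩ {y | T y = i}, r y = Fintype.card ι := by
    rw [← hmass]
    have h1 : ∀ i, ∫ y in box L ∩ {y | T y = i}, r y =
        ∫ y in box L, ({y | T y = i}).indicator r y := fun i => (setIntegral_indicator (hT1 i)).symm
    rw [Finset.sum_congr rfl fun i _ => h1 i, ← integral_finsetSum]
    · apply setIntegral_congr_fun (B2_meas_box L)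
      intro y _
      simp only
      rw [Finset.sum_eq_single (T y)]
      · rw [indicator_of_mem]; rfl
      · intro j _ hj
        rw [indicator_of_notMem]
        intro h
        exact hj (h : T y = j).symm
      · intro h
        exact absurd (Finset.mem_univ _) h
    · intro i _
      exact hrb.indicator (hT1 i)
  have hone : ∀ i, ∫ y in box L ∩ {y | T y = i}, r y = 1 := by
    have h1 : ∑ i, ((∫ y in box L ∩ {y | T y = i}, r y) - 1) = 0 := by
      rw [Finset.sum_sub_distrib, hsum, Finset.sum_const, Finset.card_univ, nsmul_eq_mul, mul_one,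
        sub_self]
    have h2 := (Finset.sum_eq_zero_iff_of_nonneg (fun i _ => by linarith [hge i])).1 h1
    intro i
    linarith [h2 i (Finset.mem_univ i)]
  -- normalisation
  set c : ℝ := -(∫ y in box L, upot X ψ y) / L ^ 2 with hc
  refine ⟨fun i => ψ i - c, T, ⟨hT1, fun y => ?_, hone⟩, ?_⟩
  · rw [B1_shift, hT2 y]
    ring
  · have h1 : ∫ y in box L, upot X (fun i => ψ i - c) y = (∫ y in box L, upot X ψ y) + c * L ^ 2 := by
      have e : ∫ y in box L, (upot X ψ y + c) = (∫ y in box L, upot X ψ y) + ∫ _y in box L, c :=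
        integral_add (B2_cont_int (upot_cont X ψ)) (B2_cont_int continuous_const)
      have e2 : ∫ _y in box L, c = c * L ^ 2 := by
        rw [setIntegral_const, smul_eq_mul]
        have : (volume : Measure (ℝ × ℝ)).real (box L) = L ^ 2 := by
          unfold box
          rw [Measure.real, Measure.volume_eq_prod, Measure.prod_prod, Real.volume_Icc, sub_zero,
            ENNReal.toReal_mul, ENNReal.toReal_ofReal hL.le]
          ring
        rw [this]
        ring
      rw [← e2, ← e]
      apply setIntegral_congr_fun (B2_meas_box L)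
      intro y _
      exact B1_shift X ψ y c
    rw [h1, hc]
    field_simp
    ring

end Pool.Agent.Lib.H77M
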