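import Pool.Agent.Lib.H77M.Defs

/-!
# Project H77M, chunk B2: duality
-/

open MeasureTheory Set ProbabilityTheory
open scoped ContDiff

namespace Pool.Agent.Lib.H77M

theorem B2_meas_box (L : ℝ) : MeasurableSet (box L) := measurableSet_Icc.prod measurableSet_Icc

theorem B2_compact_box (L : ℝ) : IsCompact (box L) := isCompact_Icc.prod isCompact_Icc

theorem B2_cont_int {L : ℝ} {f : ℝ × ℝ → ℝ} (hf : Continuous f) : IntegrableOn f (box L) :=
  hf.continuousOn.integrableOn_compact (B2_compact_box L)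

theorem B2_sqd_nonneg (x y : ℝ × ℝ) : 0 ≤ sqd x y := by
  unfold sqd
  positivity

theorem B2_sqd_cont (x : ℝ × ℝ) : Continuous (sqd x) := by
  unfold sqd
  fun_prop

theorem B2_plan_int {L : ℝ} {ι : Type} [Fintype ι] {r : ℝ × ℝ → ℝ} {w : ι → ℝ × ℝ → ℝ}
    (h : IsPlan L r w) (i : ι) : IntegrableOn (fun y => w i y * r y) (box L) := by
  by_contra hc
  have h1 := h.mass i
  rw [integral_undef hc] at h1
  exact zero_ne_one h1

/-- bounded continuous function times plan -/
theorem B2_plan_mul_int {L : ℝ} {ι : Type} [Fintype ι] {r : ℝ × ℝ → ℝ} {w : ι → ℝ × ℝ → ℝ}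
    (h : IsPlan L r w) (i : ι) {g : ℝ × ℝ → ℝ} (hg : Continuous g) :
    IntegrableOn (fun y => g y * (w i y * r y)) (box L) := by
  obtain ⟨C, hC⟩ := (B2_compact_box L).exists_bound_of_continuousOn hg.continuousOn
  refine Integrable.bdd_mul (c := C) (B2_plan_int h i) hg.aestronglyMeasurable ?_
  exact (ae_restrict_iff' (B2_meas_box L)).mpr (Filter.Eventually.of_forall fun y hy => hC y hy)

theorem upot_le {ι : Type} [Fintype ι] (X : ι → ℝ × ℝ) (ψ : ι → ℝ) (i : ι) (y : ℝ × ℝ) :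
    upot X ψ y ≤ sqd (X i) y / 2 - ψ i :=
  ciInf_le (Set.finite_range _).bddBelow i

theorem upot_cont {ι : Type} [Fintype ι] (X : ι → ℝ × ℝ) (ψ : ι → ℝ) : Continuous (upot X ψ) := by
  rcases isEmpty_or_nonempty ι with h | h
  · have : upot X ψ = fun _ => 0 := by
      funext y
      unfold upot
      exact Real.iInf_of_isEmpty _
    rw [this]
    exact continuous_const
  · have : upot X ψ = fun y => Finset.univ.inf' Finset.univ_nonempty
        (fun i => sqd (X i) y / 2 - ψ i) := by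
      funext y
      unfold upot
      exact (Finset.inf'_univ_eq_ciInf _).symm
    rw [this]
    apply Continuous.finset_inf'_apply
    intro i _
    exact ((B2_sqd_cont (X i)).div_const 2).sub continuous_const

theorem B2_cost_nonneg {L : ℝ} {ι : Type} [Fintype ι] (X : ι → ℝ × ℝ) {r : ℝ × ℝ → ℝ}
    (hpos : ∀ y ∈ box L, 0 ≤ r y) {w : ι → ℝ × ℝ → ℝ} (hw : IsPlan L r w) :
    0 ≤ cost L X r w := by
  unfold cost
  apply Finset.sum_nonneg
  intro i _
  apply setIntegral_nonneg (B2_meas_box L)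
  intro y hy
  exact mul_nonneg (B2_sqd_nonneg _ _) (mul_nonneg (hw.nonneg i y) (hpos y hy))

theorem B2_bdd {L : ℝ} {ι : Type} [Fintype ι] (X : ι → ℝ × ℝ) {r : ℝ × ℝ → ℝ}
    (hpos : ∀ y ∈ box L, 0 ≤ r y) :
    BddBelow {c | ∃ w : ι → ℝ × ℝ → ℝ, IsPlan L r w ∧ c = cost L X r w} := by
  refine ⟨0, ?_⟩
  rintro c ⟨w, hw, rfl⟩
  exact B2_cost_nonneg X hpos hw

theorem W_nonneg {L : ℝ} {ι : Type} [Fintype ι] (X : ι → ℝ × ℝ) {r : ℝ × ℝ → ℝ}
    (hpos : ∀ y ∈ box L, 0 ≤ r y) : 0 ≤ W L X r := by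
  unfold W
  apply Real.sInf_nonneg
  rintro c ⟨w, hw, rfl⟩
  exact B2_cost_nonneg X hpos hw

theorem B2_sqd_le {L : ℝ} {x y : ℝ × ℝ} (hx : x ∈ box L) (hy : y ∈ box L) :
    sqd x y ≤ 2 * L ^ 2 := by
  obtain ⟨⟨a1, a2⟩, ⟨a3, a4⟩⟩ := hx
  obtain ⟨⟨b1, b2⟩, ⟨b3, b4⟩⟩ := hy
  unfold sqd
  have h1 : (x.1 - y.1) ^ 2 ≤ L ^ 2 := sq_le_sq' (by linarith) (by linarith)
  have h2 : (x.2 - y.2) ^ 2 ≤ L ^ 2 := sq_le_sq' (by linarith) (by linarith)
  linarith

theorem W_le_triv {L : ℝ} (hL : 0 < L) {ι : Type} [Fintype ι] {X : ι → ℝ × ℝ}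
    (hX : ∀ i, X i ∈ box L) {r : ℝ × ℝ → ℝ} (hr : Continuous r) (hpos : ∀ y ∈ box L, 0 ≤ r y) :
    W L X r ≤ 2 * L ^ 2 * Fintype.card ι := by
  unfold W
  rcases Set.eq_empty_or_nonempty {c | ∃ w : ι → ℝ × ℝ → ℝ, IsPlan L r w ∧ c = cost L X r w}
    with h | ⟨c, w, hw, rfl⟩
  · rw [h, Real.sInf_empty]
    positivity
  · refine (csInf_le (B2_bdd X hpos) ⟨w, hw, rfl⟩).trans ?_
    unfold cost
    have h1 : ∀ i, ∫ y in box L, sqd (X i) y * (w i y * r y) ≤ 2 * L ^ 2 := by
      intro i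
      calc ∫ y in box L, sqd (X i) y * (w i y * r y)
          ≤ ∫ y in box L, 2 * L ^ 2 * (w i y * r y) := by
            apply setIntegral_mono_on (B2_plan_mul_int hw i (B2_sqd_cont (X i)))
              ((B2_plan_int hw i).const_mul _) (B2_meas_box L)
            intro y hy
            exact mul_le_mul_of_nonneg_right (B2_sqd_le (hX i) hy)
              (mul_nonneg (hw.nonneg i y) (hpos y hy))
        _ = 2 * L ^ 2 := by rw [integral_const_mul, hw.mass i, mul_one]
    calc ∑ i, ∫ y in box L, sqd (X i) y * (w i y * r y) ≤ ∑ _i : ι, 2 * L ^ 2 :=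
          Finset.sum_le_sum fun i _ => h1 i
      _ = 2 * L ^ 2 * Fintype.card ι := by
          rw [Finset.sum_const, Finset.card_univ, nsmul_eq_mul, mul_comm]

/-- `W` only depends on the density in the box -/
theorem W_congr {L : ℝ} {ι : Type} [Fintype ι] (X : ι → ℝ × ℝ) {r r' : ℝ × ℝ → ℝ}
    (h : ∀ y ∈ box L, r y = r' y) : W L X r = W L X r' := by
  have key : ∀ {r r' : ℝ × ℝ → ℝ}, (∀ y ∈ box L, r y = r' y) → ∀ w : ι → ℝ × ℝ → ℝ,
      IsPlan L r w → IsPlan L r' w ∧ cost L X r w = cost L X r' w := by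
    intro r r' h w hw
    refine ⟨⟨hw.meas, hw.nonneg, hw.sum, fun i => ?_⟩, ?_⟩
    · rw [← hw.mass i]
      apply setIntegral_congr_fun (B2_meas_box L)
      intro y hy
      simp only
      rw [h y hy]
    · unfold cost
      refine Finset.sum_congr rfl fun i _ => ?_
      apply setIntegral_congr_fun (B2_meas_box L)
      intro y hy
      simp only
      rw [h y hy]
  unfold W
  congr 1
  ext c
  constructor
  · rintro ⟨w, hw, rfl⟩
    obtain ⟨h1, h2⟩ := key h w hw
    exact ⟨w, h1, h2⟩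
  · rintro ⟨w, hw, rfl⟩
    obtain ⟨h1, h2⟩ := key (fun y hy => (h y hy).symm) w hw
    exact ⟨w, h1, h2⟩

theorem B2_weak {L : ℝ} {ι : Type} [Fintype ι] [Nonempty ι] {X : ι → ℝ × ℝ}
    {r : ℝ × ℝ → ℝ} (hpos : ∀ y ∈ box L, 0 ≤ r y)
    (hmass : ∫ y in box L, r y = Fintype.card ι) {f : ι → ℝ} {g : ℝ × ℝ → ℝ} (hg : Continuous g)
    (hfg : ∀ i, ∀ y ∈ box L, f i + g y ≤ sqd (X i) y / 2) :
    2 * (∑ i, f i + ∫ y in box L, g y * r y) ≤ W L X r := by
  unfold W
  have hN : (Fintype.card ι : ℝ) ≠ 0 := by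
    have : 0 < Fintype.card ι := Fintype.card_pos
    positivity
  apply le_csInf
  · refine ⟨_, fun _ _ => 1 / (Fintype.card ι : ℝ), ⟨fun i => measurable_const,
      fun i y => by positivity, fun y _ => ?_, fun i => ?_⟩, rfl⟩
    · rw [Finset.sum_const, Finset.card_univ, nsmul_eq_mul]
      field_simp
    · rw [integral_const_mul, hmass]
      field_simp
  · rintro c ⟨w, hw, rfl⟩
    have h1 : ∀ i, ∫ y in box L, (2 * f i * (w i y * r y) + 2 * (g y * (w i y * r y))) ≤
        ∫ y in box L, sqd (X i) y * (w i y * r y) := by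
      intro i
      apply setIntegral_mono_on
        (((B2_plan_int hw i).const_mul _).add ((B2_plan_mul_int hw i hg).const_mul _))
        (B2_plan_mul_int hw i (B2_sqd_cont (X i))) (B2_meas_box L)
      intro y hy
      have h2 := hfg i y hy
      have h3 : 0 ≤ w i y * r y := mul_nonneg (hw.nonneg i y) (hpos y hy)
      have h4 := mul_le_mul_of_nonneg_right h2 h3
      simp only [Pi.add_apply]
      linarith
    have h4 : ∀ i, ∫ y in box L, (2 * f i * (w i y * r y) + 2 * (g y * (w i y * r y))) =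
        2 * f i + 2 * ∫ y in box L, g y * (w i y * r y) := by
      intro i
      rw [integral_add ((B2_plan_int hw i).const_mul _) ((B2_plan_mul_int hw i hg).const_mul _),
        integral_const_mul, integral_const_mul, hw.mass i, mul_one]
    have h5 : ∑ i, ∫ y in box L, g y * (w i y * r y) = ∫ y in box L, g y * r y := by
      rw [← integral_finsetSum _ fun i _ => B2_plan_mul_int hw i hg]
      apply setIntegral_congr_fun (B2_meas_box L)
      intro y hy
      simp only
      rw [← Finset.mul_sum, ← Finset.sum_mul, hw.sum y hy, one_mul]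
    unfold cost
    calc 2 * (∑ i, f i + ∫ y in box L, g y * r y)
        = ∑ i, (2 * f i + 2 * ∫ y in box L, g y * (w i y * r y)) := by
          rw [Finset.sum_add_distrib, ← Finset.mul_sum, ← Finset.mul_sum, h5]
          ring
      _ ≤ ∑ i, ∫ y in box L, sqd (X i) y * (w i y * r y) := by
          refine Finset.sum_le_sum fun i _ => ?_
          rw [← h4 i]
          exact h1 i

/-- weak duality -/
theorem weak_duality {L : ℝ} (hL : 0 < L) {ι : Type} [Fintype ι] [Nonempty ι] {X : ι → ℝ × ℝ}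
    {r : ℝ × ℝ → ℝ} (hr : Continuous r) (hpos : ∀ y ∈ box L, 0 ≤ r y)
    (hmass : ∫ y in box L, r y = Fintype.card ι) {f : ι → ℝ} {g : ℝ × ℝ → ℝ} (hg : Continuous g)
    (hfg : ∀ i, ∀ y ∈ box L, f i + g y ≤ sqd (X i) y / 2) :
    2 * (∑ i, f i + ∫ y in box L, g y * r y) ≤ W L X r :=
  B2_weak hpos hmass hg hfg

theorem B2_sum_ind {ι : Type} [Fintype ι] (T : ℝ × ℝ → ι) (F : ι → ℝ × ℝ → ℝ) (y : ℝ × ℝ) :
    F (T y) y = ∑ i, ({y | T y = i} : Set (ℝ × ℝ)).indicator (F i) y := by
  classical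
  rw [Finset.sum_eq_single (T y)]
  · rw [Set.indicator_of_mem]
    rfl
  · intro i _ hi
    apply Set.indicator_of_notMem
    intro h
    exact hi h.symm
  · intro h
    exact absurd (Finset.mem_univ _) h

/-- functions of `(T y, y)` which are continuous in `y` are integrable -/
theorem B2_integrable {L : ℝ} {ι : Type} [Fintype ι] {T : ℝ × ℝ → ι}
    (hT : ∀ i, MeasurableSet {y | T y = i}) {F : ι → ℝ × ℝ → ℝ} (hF : ∀ i, Continuous (F i)) :
    Measurable (fun y => F (T y) y) ∧ IntegrableOn (fun y => F (T y) y) (box L) := by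
  have h1 : (fun y => F (T y) y) = fun y => ∑ i, ({y | T y = i} : Set (ℝ × ℝ)).indicator (F i) y :=
    funext fun y => B2_sum_ind T F y
  rw [h1]
  constructor
  · exact Finset.measurable_sum _ fun i _ => (hF i).measurable.indicator (hT i)
  · exact integrable_finsetSum _ fun i _ => (B2_cont_int (hF i)).indicator (hT i)

/-- the integral of a function of `(T y, y)` -/
theorem B2_integral {L : ℝ} {ι : Type} [Fintype ι] {T : ℝ × ℝ → ι}
    (hT : ∀ i, MeasurableSet {y | T y = i}) {F : ι → ℝ × ℝ → ℝ} (hF : ∀ i, Continuous (F i)) :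
    ∫ y in box L, F (T y) y = ∑ i, ∫ y in box L ∩ {y | T y = i}, F i y := by
  have h1 : (fun y => F (T y) y) = fun y => ∑ i, ({y | T y = i} : Set (ℝ × ℝ)).indicator (F i) y :=
    funext fun y => B2_sum_ind T F y
  rw [h1, integral_finsetSum _ fun i _ => (B2_cont_int (hF i)).indicator (hT i)]
  refine Finset.sum_congr rfl fun i _ => ?_
  exact setIntegral_indicator (hT i)

/-- integration of functions of the target -/
theorem opt_int {L : ℝ} {ι : Type} [Fintype ι] {X : ι → ℝ × ℝ} {r : ℝ × ℝ → ℝ} {ψ : ι → ℝ}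
    {T : ℝ × ℝ → ι} (h : IsOpt L X r ψ T) (hr : Continuous r) (f : ι → ℝ) :
    ∫ y in box L, f (T y) * r y = ∑ i, f i := by
  rw [B2_integral (F := fun i y => f i * r y) h.meas fun i => hr.const_mul (f i)]
  refine Finset.sum_congr rfl fun i _ => ?_
  rw [integral_const_mul, h.mass i, mul_one]

theorem opt_mass {L : ℝ} {ι : Type} [Fintype ι] {X : ι → ℝ × ℝ} {r : ℝ × ℝ → ℝ} {ψ : ι → ℝ}
    {T : ℝ × ℝ → ι} (h : IsOpt L X r ψ T) (hr : Continuous r) :
    ∫ y in box L, r y = Fintype.card ι := by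
  have h1 := opt_int h hr fun _ => 1
  simp only [one_mul, Finset.sum_const, Finset.card_univ, nsmul_eq_mul, mul_one] at h1
  exact h1

theorem B2_dual_eq {L : ℝ} {ι : Type} [Fintype ι] {X : ι → ℝ × ℝ} {r : ℝ × ℝ → ℝ} {ψ : ι → ℝ}
    {T : ℝ × ℝ → ι} (h : IsOpt L X r ψ T) (hr : Continuous r) :
    2 * (∑ i, ψ i + ∫ y in box L, upot X ψ y * r y) = ∫ y in box L, sqd (X (T y)) y * r y := by
  rw [← opt_int h hr ψ]
  have i1 : IntegrableOn (fun y => ψ (T y) * r y) (box L) :=
    (B2_integrable (F := fun i y => ψ i * r y) h.meas fun i => hr.const_mul (ψ i)).2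
  have i2 : IntegrableOn (fun y => upot X ψ y * r y) (box L) :=
    B2_cont_int ((upot_cont X ψ).mul hr)
  rw [← integral_add i1 i2, ← integral_const_mul]
  apply setIntegral_congr_fun (B2_meas_box L)
  intro y _
  simp only
  rw [h.eq y]
  ring

theorem opt_cost {L : ℝ} {ι : Type} [Fintype ι] {X : ι → ℝ × ℝ} {r : ℝ × ℝ → ℝ} {ψ : ι → ℝ}
    {T : ℝ × ℝ → ι} (h : IsOpt L X r ψ T) (hr : Continuous r) (hpos : ∀ y ∈ box L, 0 ≤ r y) :
    W L X r = ∫ y in box L, sqd (X (T y)) y * r y := by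
  have : Nonempty ι := ⟨T 0⟩
  apply le_antisymm
  · have hplan : IsPlan L r (fun i => ({y | T y = i} : Set (ℝ × ℝ)).indicator fun _ => 1) := by
      refine ⟨fun i => measurable_const.indicator (h.meas i), fun i y => ?_, fun y _ => ?_,
        fun i => ?_⟩
      · exact Set.indicator_nonneg (fun _ _ => zero_le_one) y
      · have := B2_sum_ind T (fun _ _ => (1 : ℝ)) y
        exact this.symm
      · have h1 : (fun y => ({y | T y = i} : Set (ℝ × ℝ)).indicator (fun _ => (1 : ℝ)) y * r y) =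
            ({y | T y = i} : Set (ℝ × ℝ)).indicator r := by
          funext y
          by_cases hy : T y = i
          · rw [Set.indicator_of_mem (show y ∈ {y | T y = i} from hy),
              Set.indicator_of_mem (show y ∈ {y | T y = i} from hy), one_mul]
          · rw [Set.indicator_of_notMem (show y ∉ {y | T y = i} from hy),
              Set.indicator_of_notMem (show y ∉ {y | T y = i} from hy), zero_mul]
        rw [h1, setIntegral_indicator (h.meas i)]
        exact h.mass i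
    refine (csInf_le (B2_bdd X hpos) ⟨_, hplan, rfl⟩).trans (le_of_eq ?_)
    unfold cost
    rw [B2_integral (F := fun i y => sqd (X i) y * r y) h.meas
      fun i => (B2_sqd_cont (X i)).mul hr]
    refine Finset.sum_congr rfl fun i _ => ?_
    rw [← setIntegral_indicator (h.meas i)]
    apply setIntegral_congr_fun (B2_meas_box L)
    intro y _
    simp only
    by_cases hy : T y = i
    · rw [Set.indicator_of_mem (show y ∈ {y | T y = i} from hy),
        Set.indicator_of_mem (show y ∈ {y | T y = i} from hy), one_mul]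
    · rw [Set.indicator_of_notMem (show y ∉ {y | T y = i} from hy),
        Set.indicator_of_notMem (show y ∉ {y | T y = i} from hy), zero_mul, mul_zero]
  · rw [← B2_dual_eq h hr]
    apply B2_weak hpos (opt_mass h hr) (upot_cont X ψ)
    intro i y _
    have := upot_le X ψ i y
    linarith

theorem opt_dual {L : ℝ} {ι : Type} [Fintype ι] {X : ι → ℝ × ℝ} {r : ℝ × ℝ → ℝ} {ψ : ι → ℝ}
    {T : ℝ × ℝ → ι} (h : IsOpt L X r ψ T) (hr : Continuous r) (hpos : ∀ y ∈ box L, 0 ≤ r y) :
    W L X r = 2 * (∑ i, ψ i + ∫ y in box L, upot X ψ y * r y) := by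
  rw [opt_cost h hr hpos, B2_dual_eq h hr]

/-- functions of `(T y, y)` which are continuous in `y` are integrable -/
theorem opt_integrable {L : ℝ} {ι : Type} [Fintype ι] {X : ι → ℝ × ℝ} {r : ℝ × ℝ → ℝ} {ψ : ι → ℝ}
    {T : ℝ × ℝ → ι} (h : IsOpt L X r ψ T) {F : ι → ℝ × ℝ → ℝ} (hF : ∀ i, Continuous (F i)) :
    Measurable (fun y => F (T y) y) ∧ IntegrableOn (fun y => F (T y) y) (box L) :=
  B2_integrable h.meas hF

end Pool.Agent.Lib.H77M
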