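import Pool.Agent.Lib.H77M.A2
import Pool.Agent.Lib.H77M.B2

/-!
# Project H77M, chunk B3: smooth approximation of the potentials
-/

open MeasureTheory Set ProbabilityTheory
open scoped ContDiff

namespace Pool.Agent.Lib.H77M

/-! ### folding -/

/-- even `2L`-periodic folding of the line onto `[0, L]` -/
noncomputable def b3fold (L a : ℝ) : ℝ := ‖(a : AddCircle (2 * L))‖

theorem b3fold_of_mem {L a : ℝ} (hL : 0 < L) (h0 : 0 ≤ a) (h1 : a ≤ L) : b3fold L a = a := by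
  unfold b3fold
  have h : |a| ≤ |2 * L| / 2 := by
    rw [abs_of_nonneg h0, abs_of_pos (by positivity)]
    linarith
  rw [(AddCircle.norm_coe_eq_abs_iff (2 * L) (by positivity)).2 h, abs_of_nonneg h0]

theorem b3fold_neg (L a : ℝ) : b3fold L (-a) = b3fold L a := by
  unfold b3fold
  rw [AddCircle.coe_neg, norm_neg]

theorem b3fold_per (L a : ℝ) : b3fold L (a + 2 * L) = b3fold L a := by
  unfold b3fold
  rw [AddCircle.coe_add, AddCircle.coe_period, add_zero]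

theorem b3fold_mem {L : ℝ} (hL : 0 < L) (a : ℝ) : 0 ≤ b3fold L a ∧ b3fold L a ≤ L := by
  unfold b3fold
  refine ⟨norm_nonneg _, ?_⟩
  have h := AddCircle.norm_le_half_period (2 * L) (x := (a : AddCircle (2 * L))) (by positivity)
  rw [abs_of_pos (by positivity)] at h
  linarith

theorem b3fold_lip (L a b : ℝ) : |b3fold L a - b3fold L b| ≤ |a - b| := by
  unfold b3fold
  have h := abs_norm_sub_norm_le (a : AddCircle (2 * L)) (b : AddCircle (2 * L))
  refine h.trans ?_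
  rw [← AddCircle.coe_sub]
  exact QuotientAddGroup.norm_mk_le_norm

theorem b3fold_cont (L : ℝ) : Continuous (b3fold L) := by
  unfold b3fold
  exact continuous_norm.comp (AddCircle.continuous_mk' (2 * L))

/-! ### Lipschitz bounds for the potential -/

theorem b3_tele {g : ℝ → ℝ} {A B : ℝ}
    (h : ∀ s ∈ Icc (0 : ℝ) 1, ∀ t ∈ Icc (0 : ℝ) 1, g t - g s ≤ A * |t - s| + B * (t - s) ^ 2) :
    g 1 - g 0 ≤ A := by
  have key : ∀ n : ℕ, 0 < n → g 1 - g 0 ≤ A + B / n := by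
    intro n hn
    have hn' : (0 : ℝ) < n := by exact_mod_cast hn
    have h1 : g 1 - g 0 = ∑ k ∈ Finset.range n, (g ((k + 1 : ℕ) / n) - g ((k : ℕ) / n)) := by
      rw [Finset.sum_range_sub (fun k : ℕ => g ((k : ℝ) / n))]
      simp [div_self hn'.ne']
    rw [h1]
    have h2 : ∀ k ∈ Finset.range n, g ((k + 1 : ℕ) / n) - g ((k : ℕ) / n) ≤
        A / n + B / n ^ 2 := by
      intro k hk
      rw [Finset.mem_range] at hk
      have hk' : ((k : ℝ) + 1) ≤ n := by exact_mod_cast hk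
      have h3 := h ((k : ℕ) / n) ⟨by positivity, by rw [div_le_one hn']; linarith⟩
        ((k + 1 : ℕ) / n) ⟨by positivity, by rw [div_le_one hn']; push_cast; linarith⟩
      have h4 : ((k + 1 : ℕ) : ℝ) / n - (k : ℕ) / n = 1 / n := by
        push_cast; ring
      rw [h4, abs_of_pos (by positivity)] at h3
      calc _ ≤ _ := h3
        _ = A / n + B / n ^ 2 := by ring
    calc _ ≤ ∑ k ∈ Finset.range n, (A / n + B / n ^ 2) := Finset.sum_le_sum h2
      _ = A + B / n := by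
        rw [Finset.sum_const, Finset.card_range, nsmul_eq_mul]
        field_simp
  have lim : Filter.Tendsto (fun n : ℕ => A + B / n) Filter.atTop (nhds (A + 0)) :=
    Filter.Tendsto.const_add A (tendsto_const_div_atTop_nhds_zero_nat B)
  rw [add_zero] at lim
  exact ge_of_tendsto lim (Filter.eventually_atTop.2 ⟨1, fun n hn => key n hn⟩)

theorem b3_step {L : ℝ} {ι : Type} [Fintype ι] {X : ι → ℝ × ℝ} {r : ℝ × ℝ → ℝ}
    {ψ : ι → ℝ} {T : ℝ × ℝ → ι} (h : IsOpt L X r ψ T) (y z : ℝ × ℝ) :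
    upot X ψ z - upot X ψ y ≤ (y.1 - (X (T y)).1) * (z.1 - y.1) + (z.1 - y.1) ^ 2 / 2 +
      ((y.2 - (X (T y)).2) * (z.2 - y.2) + (z.2 - y.2) ^ 2 / 2) := by
  have h1 := upot_le X ψ (T y) z
  have h2 := h.eq y
  rw [h2]
  unfold sqd at *
  nlinarith

theorem b3_lip1 {L : ℝ} {ι : Type} [Fintype ι] {X : ι → ℝ × ℝ} {r : ℝ × ℝ → ℝ}
    {ψ : ι → ℝ} {T : ℝ × ℝ → ι} (h : IsOpt L X r ψ T) {M : ℝ}
    (hM : ∀ y ∈ box L, |y.1 - (X (T y)).1| ≤ M ∧ |y.2 - (X (T y)).2| ≤ M) {a a' b : ℝ}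
    (ha : a ∈ Icc 0 L) (ha' : a' ∈ Icc 0 L) (hb : b ∈ Icc 0 L) :
    upot X ψ (a', b) - upot X ψ (a, b) ≤ M * |a' - a| := by
  have hg := b3_tele (g := fun t => upot X ψ (a + t * (a' - a), b)) (A := M * |a' - a|)
    (B := (a' - a) ^ 2 / 2) ?_
  · simpa using hg
  intro s hs t ht
  have hmem : (a + s * (a' - a), b) ∈ box L := by
    refine ⟨⟨?_, ?_⟩, hb⟩
    · have : a + s * (a' - a) = (1 - s) * a + s * a' := by ring
      simp only [this]
      have := hs.1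
      have := hs.2
      have := ha.1
      have := ha'.1
      nlinarith
    · have : a + s * (a' - a) = (1 - s) * a + s * a' := by ring
      simp only [this]
      have := hs.1
      have := hs.2
      have := ha.2
      have := ha'.2
      nlinarith
  have h1 := b3_step h (a + s * (a' - a), b) (a + t * (a' - a), b)
  have h2 := (hM _ hmem).1
  simp only at h1 h2
  set w := a + s * (a' - a) - (X (T (a + s * (a' - a), b))).1 with hw
  have e1 : a + t * (a' - a) - (a + s * (a' - a)) = (t - s) * (a' - a) := by ring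
  rw [e1] at h1
  have h3 : w * ((t - s) * (a' - a)) ≤ M * |a' - a| * |t - s| := by
    calc w * ((t - s) * (a' - a)) ≤ |w * ((t - s) * (a' - a))| := le_abs_self _
      _ = |w| * (|t - s| * |a' - a|) := by rw [abs_mul, abs_mul]
      _ ≤ M * (|t - s| * |a' - a|) := by gcongr
      _ = _ := by ring
  calc _ ≤ _ := h1
    _ ≤ _ := by
      have : ((t - s) * (a' - a)) ^ 2 / 2 = (a' - a) ^ 2 / 2 * (t - s) ^ 2 := by ring
      rw [this, sub_self]
      linarith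

theorem b3_lip2 {L : ℝ} {ι : Type} [Fintype ι] {X : ι → ℝ × ℝ} {r : ℝ × ℝ → ℝ}
    {ψ : ι → ℝ} {T : ℝ × ℝ → ι} (h : IsOpt L X r ψ T) {M : ℝ}
    (hM : ∀ y ∈ box L, |y.1 - (X (T y)).1| ≤ M ∧ |y.2 - (X (T y)).2| ≤ M) {a b b' : ℝ}
    (ha : a ∈ Icc 0 L) (hb : b ∈ Icc 0 L) (hb' : b' ∈ Icc 0 L) :
    upot X ψ (a, b') - upot X ψ (a, b) ≤ M * |b' - b| := by
  have hg := b3_tele (g := fun t => upot X ψ (a, b + t * (b' - b))) (A := M * |b' - b|)
    (B := (b' - b) ^ 2 / 2) ?_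
  · simpa using hg
  intro s hs t ht
  have hmem : (a, b + s * (b' - b)) ∈ box L := by
    refine ⟨ha, ⟨?_, ?_⟩⟩
    · have : b + s * (b' - b) = (1 - s) * b + s * b' := by ring
      simp only [this]
      have := hs.1
      have := hs.2
      have := hb.1
      have := hb'.1
      nlinarith
    · have : b + s * (b' - b) = (1 - s) * b + s * b' := by ring
      simp only [this]
      have := hs.1
      have := hs.2
      have := hb.2
      have := hb'.2
      nlinarith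
  have h1 := b3_step h (a, b + s * (b' - b)) (a, b + t * (b' - b))
  have h2 := (hM _ hmem).2
  simp only at h1 h2
  set w := b + s * (b' - b) - (X (T (a, b + s * (b' - b)))).2 with hw
  have e1 : b + t * (b' - b) - (b + s * (b' - b)) = (t - s) * (b' - b) := by ring
  rw [e1] at h1
  have h3 : w * ((t - s) * (b' - b)) ≤ M * |b' - b| * |t - s| := by
    calc w * ((t - s) * (b' - b)) ≤ |w * ((t - s) * (b' - b))| := le_abs_self _
      _ = |w| * (|t - s| * |b' - b|) := by rw [abs_mul, abs_mul]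
      _ ≤ M * (|t - s| * |b' - b|) := by gcongr
      _ = _ := by ring
  calc _ ≤ _ := h1
    _ ≤ _ := by
      have : ((t - s) * (b' - b)) ^ 2 / 2 = (b' - b) ^ 2 / 2 * (t - s) ^ 2 := by ring
      rw [this, sub_self]
      linarith

/-- the extended potential -/
noncomputable def b3f (L : ℝ) {ι : Type} [Fintype ι] (X : ι → ℝ × ℝ) (ψ : ι → ℝ) (x : ℝ × ℝ) : ℝ :=
  upot X ψ (b3fold L x.1, b3fold L x.2)

theorem b3f_CP (L : ℝ) {ι : Type} [Fintype ι] (X : ι → ℝ × ℝ) (ψ : ι → ℝ) :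
    CP L (b3f L X ψ) where
  cont := by
    have h1 := b3fold_cont L
    have h2 := upot_cont X ψ
    unfold b3f
    exact h2.comp (by fun_prop)
  even1 := by intro a b; unfold b3f; simp only [b3fold_neg]
  even2 := by intro a b; unfold b3f; simp only [b3fold_neg]
  per1 := by intro a b; unfold b3f; simp only [b3fold_per]
  per2 := by intro a b; unfold b3f; simp only [b3fold_per]

theorem b3f_box {L : ℝ} (hL : 0 < L) {ι : Type} [Fintype ι] (X : ι → ℝ × ℝ) (ψ : ι → ℝ)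
    {y : ℝ × ℝ} (hy : y ∈ box L) : b3f L X ψ y = upot X ψ y := by
  unfold b3f
  rw [b3fold_of_mem hL hy.1.1 hy.1.2, b3fold_of_mem hL hy.2.1 hy.2.2]

section lip

variable {L : ℝ} {ι : Type} [Fintype ι] {X : ι → ℝ × ℝ} {r : ℝ × ℝ → ℝ}
    {ψ : ι → ℝ} {T : ℝ × ℝ → ι} {M : ℝ}

theorem b3f_lip1 (hL : 0 < L) (h : IsOpt L X r ψ T)
    (hM : ∀ y ∈ box L, |y.1 - (X (T y)).1| ≤ M ∧ |y.2 - (X (T y)).2| ≤ M) (a a' b : ℝ) :
    |b3f L X ψ (a', b) - b3f L X ψ (a, b)| ≤ M * |a' - a| := by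
  have hM0 : 0 ≤ M := (abs_nonneg _).trans (hM (0, 0) ⟨⟨le_refl _, hL.le⟩, ⟨le_refl _, hL.le⟩⟩).1
  have h1 := b3_lip1 h hM (b3fold_mem hL a) (b3fold_mem hL a') (b3fold_mem hL b)
  have h2 := b3_lip1 h hM (b3fold_mem hL a') (b3fold_mem hL a) (b3fold_mem hL b)
  have h3 := b3fold_lip L a' a
  have h4 := mul_le_mul_of_nonneg_left h3 hM0
  rw [abs_sub_comm (b3fold L a)] at h2
  unfold b3f
  rw [abs_le]
  constructor
  · linarith
  · linarith

theorem b3f_lip2 (hL : 0 < L) (h : IsOpt L X r ψ T)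
    (hM : ∀ y ∈ box L, |y.1 - (X (T y)).1| ≤ M ∧ |y.2 - (X (T y)).2| ≤ M) (a b b' : ℝ) :
    |b3f L X ψ (a, b') - b3f L X ψ (a, b)| ≤ M * |b' - b| := by
  have hM0 : 0 ≤ M := (abs_nonneg _).trans (hM (0, 0) ⟨⟨le_refl _, hL.le⟩, ⟨le_refl _, hL.le⟩⟩).1
  have h1 := b3_lip2 h hM (b3fold_mem hL a) (b3fold_mem hL b) (b3fold_mem hL b')
  have h2 := b3_lip2 h hM (b3fold_mem hL a) (b3fold_mem hL b') (b3fold_mem hL b)
  have h3 := b3fold_lip L b' b
  have h4 := mul_le_mul_of_nonneg_left h3 hM0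
  rw [abs_sub_comm (b3fold L b)] at h2
  unfold b3f
  rw [abs_le]
  constructor
  · linarith
  · linarith

theorem b3_grad (hL : 0 < L) (h : IsOpt L X r ψ T)
    (hM : ∀ y ∈ box L, |y.1 - (X (T y)).1| ≤ M ∧ |y.2 - (X (T y)).2| ≤ M) {s : ℝ} (hs : 0 < s) :
    Grad (P s (b3f L X ψ)) M := by
  have hM0 : 0 ≤ M := (abs_nonneg _).trans (hM (0, 0) ⟨⟨le_refl _, hL.le⟩, ⟨le_refl _, hL.le⟩⟩).1
  obtain ⟨B, hB0, hB⟩ := CP_bdd hL (b3f_CP L X ψ)
  have hc := (b3f_CP L X ψ).cont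
  have hd : Differentiable ℝ (P s (b3f L X ψ)) := P_diff hs hc hB
  intro y
  constructor
  · have h1 := a2_hasD1 hd y.1 y.2
    refine h1.le_of_lip' hM0 (Filter.Eventually.of_forall fun t => ?_)
    rw [Real.norm_eq_abs, Real.norm_eq_abs]
    unfold P
    rw [← integral_sub (P_int hc hB (t, y.2)) (P_int hc hB (y.1, y.2))]
    have : ∀ z : ℝ × ℝ, ‖b3f L X ψ (t + √(2 * s) * z.1, y.2 + √(2 * s) * z.2) -
        b3f L X ψ (y.1 + √(2 * s) * z.1, y.2 + √(2 * s) * z.2)‖ ≤ M * |t - y.1| := by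
      intro z
      have := b3f_lip1 hL h hM (y.1 + √(2 * s) * z.1) (t + √(2 * s) * z.1) (y.2 + √(2 * s) * z.2)
      rw [Real.norm_eq_abs]
      rwa [add_sub_add_right_eq_sub] at this
    have h2 := norm_integral_le_of_norm_le_const (μ := gam) (Filter.Eventually.of_forall this)
    simpa using h2
  · have h1 := a2_hasD2 hd y.1 y.2
    refine h1.le_of_lip' hM0 (Filter.Eventually.of_forall fun t => ?_)
    rw [Real.norm_eq_abs, Real.norm_eq_abs]
    unfold P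
    rw [← integral_sub (P_int hc hB (y.1, t)) (P_int hc hB (y.1, y.2))]
    have : ∀ z : ℝ × ℝ, ‖b3f L X ψ (y.1 + √(2 * s) * z.1, t + √(2 * s) * z.2) -
        b3f L X ψ (y.1 + √(2 * s) * z.1, y.2 + √(2 * s) * z.2)‖ ≤ M * |t - y.2| := by
      intro z
      have := b3f_lip2 hL h hM (y.1 + √(2 * s) * z.1) (y.2 + √(2 * s) * z.2) (t + √(2 * s) * z.2)
      rw [Real.norm_eq_abs]
      rwa [add_sub_add_right_eq_sub] at this
    have h2 := norm_integral_le_of_norm_le_const (μ := gam) (Filter.Eventually.of_forall this)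
    simpa using h2

theorem b3f_lip (hL : 0 < L) (h : IsOpt L X r ψ T)
    (hM : ∀ y ∈ box L, |y.1 - (X (T y)).1| ≤ M ∧ |y.2 - (X (T y)).2| ≤ M) (x y : ℝ × ℝ) :
    |b3f L X ψ x - b3f L X ψ y| ≤ M * (|x.1 - y.1| + |x.2 - y.2|) := by
  have h1 := b3f_lip1 hL h hM y.1 x.1 x.2
  have h2 := b3f_lip2 hL h hM y.1 y.2 x.2
  have h3 := abs_add_le (b3f L X ψ (x.1, x.2) - b3f L X ψ (y.1, x.2))
    (b3f L X ψ (y.1, x.2) - b3f L X ψ (y.1, y.2))
  have e : b3f L X ψ x - b3f L X ψ y = (b3f L X ψ (x.1, x.2) - b3f L X ψ (y.1, x.2)) +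
    (b3f L X ψ (y.1, x.2) - b3f L X ψ (y.1, y.2)) := by
    have e1 : x = (x.1, x.2) := rfl
    have e2 : y = (y.1, y.2) := rfl
    rw [← e1, ← e2]; ring
  rw [e]
  linarith

theorem b3_ae_diff (hL : 0 < L) (h : IsOpt L X r ψ T)
    (hM : ∀ y ∈ box L, |y.1 - (X (T y)).1| ≤ M ∧ |y.2 - (X (T y)).2| ≤ M) :
    ∀ᵐ y : ℝ × ℝ, DifferentiableAt ℝ (b3f L X ψ) y := by
  have hM0 : 0 ≤ M := (abs_nonneg _).trans (hM (0, 0) ⟨⟨le_refl _, hL.le⟩, ⟨le_refl _, hL.le⟩⟩).1
  have hlip : LipschitzWith ⟨2 * M, by positivity⟩ (b3f L X ψ) := by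
    apply LipschitzWith.of_dist_le_mul
    intro x y
    rw [Real.dist_eq]
    refine (b3f_lip hL h hM x y).trans ?_
    have h1 : |x.1 - y.1| ≤ dist x y := by
      rw [← Real.dist_eq]; exact le_max_left _ _
    have h2 : |x.2 - y.2| ≤ dist x y := by
      rw [← Real.dist_eq]; exact le_max_right _ _
    have h3 : M * (|x.1 - y.1| + |x.2 - y.2|) ≤ M * (dist x y + dist x y) := by gcongr
    refine h3.trans (le_of_eq ?_)
    change M * (dist x y + dist x y) = 2 * M * dist x y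
    ring
  exact hlip.ae_differentiableAt

/-- at a differentiability point in the interior -/
theorem b3_deriv (hL : 0 < L) (h : IsOpt L X r ψ T) {y : ℝ × ℝ}
    (hy : y ∈ Ioo 0 L ×ˢ Ioo 0 L) (hd : DifferentiableAt ℝ (b3f L X ψ) y) :
    D1 (b3f L X ψ) y = y.1 - (X (T y)).1 ∧ D2 (b3f L X ψ) y = y.2 - (X (T y)).2 := by
  have ho : IsOpen (Ioo (0 : ℝ) L ×ˢ Ioo (0 : ℝ) L) := isOpen_Ioo.prod isOpen_Ioo
  have hbox : ∀ z ∈ Ioo (0 : ℝ) L ×ˢ Ioo (0 : ℝ) L, z ∈ box L := fun z hz =>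
    ⟨Ioo_subset_Icc_self hz.1, Ioo_subset_Icc_self hz.2⟩
  set i := T y with hi
  have hmin : IsLocalMin (fun z => (sqd (X i) z / 2 - ψ i) - b3f L X ψ z) y := by
    filter_upwards [ho.mem_nhds hy] with z hz
    rw [b3f_box hL X ψ (hbox z hz), b3f_box hL X ψ (hbox y hy), h.eq y]
    have := upot_le X ψ i z
    linarith
  have hs : HasFDerivAt (fun z : ℝ × ℝ => sqd (X i) z / 2 - ψ i)
      ((y.1 - (X i).1) • ContinuousLinearMap.fst ℝ ℝ ℝ +
        (y.2 - (X i).2) • ContinuousLinearMap.snd ℝ ℝ ℝ) y := by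
    have e : (fun z : ℝ × ℝ => sqd (X i) z / 2 - ψ i) =
        fun z : ℝ × ℝ => (1 / 2 : ℝ) * (((X i).1 - z.1) ^ 2 + ((X i).2 - z.2) ^ 2) - ψ i := by
      funext z
      unfold sqd
      ring
    rw [e]
    have h1 : HasFDerivAt (fun z : ℝ × ℝ => z.1) (ContinuousLinearMap.fst ℝ ℝ ℝ) y :=
      hasFDerivAt_fst
    have h2 : HasFDerivAt (fun z : ℝ × ℝ => z.2) (ContinuousLinearMap.snd ℝ ℝ ℝ) y :=
      hasFDerivAt_snd
    have h3 := ((((h1.const_sub (X i).1).pow 2).add ((h2.const_sub (X i).2).pow 2)).const_mul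
      (1 / 2 : ℝ)).sub_const (ψ i)
    refine h3.congr_fderiv ?_
    ext <;> simp
  have hd2 := hs.sub hd.hasFDerivAt
  have h0 := hmin.hasFDerivAt_eq_zero hd2
  have h1 : fderiv ℝ (b3f L X ψ) y = (y.1 - (X i).1) • ContinuousLinearMap.fst ℝ ℝ ℝ +
        (y.2 - (X i).2) • ContinuousLinearMap.snd ℝ ℝ ℝ := (sub_eq_zero.1 h0).symm
  unfold D1 D2
  rw [h1]
  constructor
  · simp
  · simp

/-- pointwise convergence of the derivatives -/
theorem b3_lim (f : ℝ × ℝ → ℝ) (hc : Continuous f) {B : ℝ} (hB : ∀ x, |f x| ≤ B) {K : ℝ}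
    (hK : ∀ x y : ℝ × ℝ, |f x - f y| ≤ K * (|x.1 - y.1| + |x.2 - y.2|)) {y : ℝ × ℝ}
    (hd : DifferentiableAt ℝ f y) (a b : ℕ) (hm : ∫ z, z.1 ^ a * z.2 ^ b ∂gam = 0) :
    Filter.Tendsto (fun c : ℝ => c⁻¹ * a2A a b c f y) (nhdsWithin 0 (Ioi 0))
      (nhds (∫ z, z.1 ^ a * z.2 ^ b * (fderiv ℝ f y z) ∂gam)) := by
  have hK0 : 0 ≤ K := by
    have := (abs_nonneg _).trans (hK (1, 0) (0, 0))
    simpa using this
  have e : ∀ᶠ c : ℝ in nhdsWithin 0 (Ioi 0), ∫ z : ℝ × ℝ, z.1 ^ a * z.2 ^ b *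
      (c⁻¹ * (f (y.1 + c * z.1, y.2 + c * z.2) - f y)) ∂gam = c⁻¹ * a2A a b c f y := by
    filter_upwards with c
    have h1 := a2A_int a b c hc hB y
    have h2 : Integrable (fun z : ℝ × ℝ => z.1 ^ a * z.2 ^ b * f y) gam := by
      have := (a2A_int a b 0 (f := fun _ => f y) continuous_const (M := B) (fun _ => hB y) y)
      simpa using this
    unfold a2A
    rw [← integral_const_mul]
    have h3 : ∫ z : ℝ × ℝ, c⁻¹ * (z.1 ^ a * z.2 ^ b * f y) ∂gam = 0 := by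
      rw [integral_const_mul, integral_mul_const, hm]
      ring
    rw [← sub_zero (∫ z : ℝ × ℝ, c⁻¹ * (z.1 ^ a * z.2 ^ b *
      f (y.1 + c * z.1, y.2 + c * z.2)) ∂gam), ← h3, ← integral_sub (h1.const_mul _)
      (h2.const_mul _)]
    congr 1
    funext z
    ring
  refine Filter.Tendsto.congr' e ?_
  have hbi : Integrable (fun z : ℝ × ℝ => |z.1| ^ a * |z.2| ^ b * (K * (|z.1| + |z.2|))) gam := by
    have h1 := (a2_mom2 (a + 1) b).const_mul K
    have h2 := (a2_mom2 a (b + 1)).const_mul K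
    refine (h1.add h2).congr (Filter.Eventually.of_forall fun z => ?_)
    simp only [Pi.add_apply]
    ring
  apply tendsto_integral_filter_of_dominated_convergence _ _ _ hbi
  · -- pointwise convergence
    filter_upwards with z
    apply Filter.Tendsto.const_mul
    have hline : HasDerivAt (fun c : ℝ => f (y.1 + c * z.1, y.2 + c * z.2)) (fderiv ℝ f y z) 0 := by
      have h1 : HasDerivAt (fun c : ℝ => ((y.1 + c * z.1, y.2 + c * z.2) : ℝ × ℝ)) z 0 := by
        have h2 : HasDerivAt (fun c : ℝ => y.1 + c * z.1) z.1 0 := by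
          simpa using ((hasDerivAt_id (0 : ℝ)).mul_const z.1).const_add y.1
        have h3 : HasDerivAt (fun c : ℝ => y.2 + c * z.2) z.2 0 := by
          simpa using ((hasDerivAt_id (0 : ℝ)).mul_const z.2).const_add y.2
        exact h2.prodMk h3
      have h4 : HasFDerivAt f (fderiv ℝ f y) ((fun c : ℝ => ((y.1 + c * z.1, y.2 + c * z.2) : ℝ × ℝ)) 0) := by
        simpa using hd.hasFDerivAt
      exact h4.comp_hasDerivAt 0 h1
    have h5 := hline.tendsto_slope_zero_right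
    simpa using h5
  · filter_upwards with c
    exact (by fun_prop : Continuous fun z : ℝ × ℝ => z.1 ^ a * z.2 ^ b *
      (c⁻¹ * (f (y.1 + c * z.1, y.2 + c * z.2) - f y))).aestronglyMeasurable
  · filter_upwards [self_mem_nhdsWithin] with c hc0
    filter_upwards with z
    have hc0' : 0 < c := hc0
    have h6 := hK (y.1 + c * z.1, y.2 + c * z.2) y
    simp only [add_sub_cancel_left, abs_mul, abs_of_pos hc0'] at h6
    rw [Real.norm_eq_abs, abs_mul, abs_mul, abs_pow, abs_pow, abs_mul, abs_of_pos (inv_pos.2 hc0')]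
    have h7 : c⁻¹ * |f (y.1 + c * z.1, y.2 + c * z.2) - f y| ≤ K * (|z.1| + |z.2|) := by
      rw [inv_mul_le_iff₀ hc0']
      calc _ ≤ _ := h6
        _ = _ := by ring
    gcongr

theorem b3_mom (a b : ℕ) : ∫ z : ℝ × ℝ, z.1 ^ a * z.2 ^ b ∂gam =
    (∫ z, z ^ a ∂(gaussianReal 0 1)) * (∫ z, z ^ b ∂(gaussianReal 0 1)) := by
  unfold gam
  exact integral_prod_mul (fun z : ℝ => z ^ a) (fun z : ℝ => z ^ b)

theorem b3_m0 : ∫ z : ℝ, z ^ 0 ∂(gaussianReal 0 1) = 1 := by simp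

theorem b3_m1 : ∫ z : ℝ, z ^ 1 ∂(gaussianReal 0 1) = 0 := by
  simp only [pow_one]
  exact integral_id_gaussianReal

theorem b3_m2 : ∫ z : ℝ, z ^ 2 ∂(gaussianReal 0 1) = 1 := by
  have h := a2m_two
  unfold a2m at h
  simpa using h

theorem b3_mi (a b : ℕ) : Integrable (fun z : ℝ × ℝ => z.1 ^ a * z.2 ^ b) gam := by
  have := a2A_int a b 0 (f := fun _ => (1 : ℝ)) continuous_const (M := 1) (by simp) (0, 0)
  simpa using this

theorem b3_lin (g : (ℝ × ℝ) →L[ℝ] ℝ) (z : ℝ × ℝ) : g z = z.1 * g (1, 0) + z.2 * g (0, 1) := by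
  have : z = z.1 • ((1, 0) : ℝ × ℝ) + z.2 • ((0, 1) : ℝ × ℝ) := by
    ext <;> simp
  conv_lhs => rw [this]
  rw [map_add, map_smul, map_smul, smul_eq_mul, smul_eq_mul]

theorem b3_int1 (g : (ℝ × ℝ) →L[ℝ] ℝ) : ∫ z : ℝ × ℝ, z.1 ^ 1 * z.2 ^ 0 * (g z) ∂gam = g (1, 0) := by
  have e : ∀ z : ℝ × ℝ, z.1 ^ 1 * z.2 ^ 0 * (g z) =
      g (1, 0) * (z.1 ^ 2 * z.2 ^ 0) + g (0, 1) * (z.1 ^ 1 * z.2 ^ 1) := by
    intro z
    rw [b3_lin g z]
    ring
  simp_rw [e]
  rw [integral_add ((b3_mi 2 0).const_mul _) ((b3_mi 1 1).const_mul _), integral_const_mul,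
    integral_const_mul, b3_mom, b3_mom, b3_m0, b3_m1, b3_m2]
  ring

theorem b3_int2 (g : (ℝ × ℝ) →L[ℝ] ℝ) : ∫ z : ℝ × ℝ, z.1 ^ 0 * z.2 ^ 1 * (g z) ∂gam = g (0, 1) := by
  have e : ∀ z : ℝ × ℝ, z.1 ^ 0 * z.2 ^ 1 * (g z) =
      g (1, 0) * (z.1 ^ 1 * z.2 ^ 1) + g (0, 1) * (z.1 ^ 0 * z.2 ^ 2) := by
    intro z
    rw [b3_lin g z]
    ring
  simp_rw [e]
  rw [integral_add ((b3_mi 1 1).const_mul _) ((b3_mi 0 2).const_mul _), integral_const_mul,
    integral_const_mul, b3_mom, b3_mom, b3_m0, b3_m1, b3_m2]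
  ring

theorem b3_sqrt_lim : Filter.Tendsto (fun s : ℝ => √(2 * s)) (nhdsWithin 0 (Ioi 0))
    (nhdsWithin 0 (Ioi 0)) := by
  apply tendsto_nhdsWithin_iff.2
  constructor
  · have h : Continuous (fun s : ℝ => √(2 * s)) := by fun_prop
    have h2 := h.tendsto 0
    simp only [mul_zero, Real.sqrt_zero] at h2
    exact h2.mono_left nhdsWithin_le_nhds
  · filter_upwards [self_mem_nhdsWithin] with s hs
    have hs' : 0 < s := hs
    exact Real.sqrt_pos.2 (by positivity)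

/-- `v = P_τ` of the even periodic extension of `upot X ψ`, for a small time `τ` -/
theorem smooth_pot {L : ℝ} (hL : 0 < L) {ι : Type} [Fintype ι] {X : ι → ℝ × ℝ} {r : ℝ × ℝ → ℝ}
    {ψ : ι → ℝ} {T : ℝ × ℝ → ι} (h : IsOpt L X r ψ T) {δ : ℝ} (hδ : 0 < δ) :
    ∃ v : ℝ × ℝ → ℝ, EP L v ∧ (∀ y ∈ box L, |v y - upot X ψ y| ≤ δ) ∧
      ∫ y in box L, ((D1 v y - (y.1 - (X (T y)).1)) ^ 2 + (D2 v y - (y.2 - (X (T y)).2)) ^ 2) ≤ δ ∧
      ∀ M : ℝ, (∀ y ∈ box L, |y.1 - (X (T y)).1| ≤ M ∧ |y.2 - (X (T y)).2| ≤ M) → Grad v M := by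
  -- a bound
  obtain ⟨M0, hM0⟩ : ∃ M0 : ℝ, ∀ y ∈ box L, |y.1 - (X (T y)).1| ≤ M0 ∧ |y.2 - (X (T y)).2| ≤ M0 := by
    refine ⟨L + ∑ i, (|(X i).1| + |(X i).2|), fun y hy => ?_⟩
    have h1 : |(X (T y)).1| + |(X (T y)).2| ≤ ∑ i, (|(X i).1| + |(X i).2|) :=
      Finset.single_le_sum (f := fun i => |(X i).1| + |(X i).2|) (fun i _ => by positivity)
        (Finset.mem_univ (T y))
    have h2 := abs_nonneg (X (T y)).1
    have h3 := abs_nonneg (X (T y)).2
    have h4 := abs_sub y.1 (X (T y)).1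
    have h5 := abs_sub y.2 (X (T y)).2
    have h6 : |y.1| ≤ L := by rw [abs_of_nonneg hy.1.1]; exact hy.1.2
    have h7 : |y.2| ≤ L := by rw [abs_of_nonneg hy.2.1]; exact hy.2.2
    constructor <;> linarith
  have hM0' : 0 ≤ M0 := (abs_nonneg _).trans (hM0 (0, 0) ⟨⟨le_refl _, hL.le⟩, ⟨le_refl _, hL.le⟩⟩).1
  set f := b3f L X ψ with hf
  have hCP : CP L f := b3f_CP L X ψ
  obtain ⟨B, hB0, hB⟩ := CP_bdd hL hCP
  -- uniform closeness
  have hclose : ∀ᶠ s : ℝ in nhdsWithin 0 (Ioi 0), ∀ y ∈ box L, |P s f y - upot X ψ y| ≤ δ := by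
    have hU : IsOpen {v : ℝ × (ℝ × ℝ) | |P v.1 f v.2 - f v.2| < δ} := by
      have h1 := P_cont hL hCP
      have h2 : Continuous (fun v : ℝ × (ℝ × ℝ) => f v.2) := hCP.cont.comp continuous_snd
      exact isOpen_lt (continuous_abs.comp (h1.sub h2)) continuous_const
    have hsub : ({0} : Set ℝ) ×ˢ box L ⊆ {v : ℝ × (ℝ × ℝ) | |P v.1 f v.2 - f v.2| < δ} := by
      rintro ⟨s, y⟩ ⟨hs, _⟩
      have : s = 0 := hs
      subst this
      simp only [mem_ofPred_eq, P_zero, sub_self, abs_zero]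
      exact hδ
    obtain ⟨u, v, hu, hv, h0u, hbv, huv⟩ := generalized_tube_lemma isCompact_singleton
      (B2_compact_box L) hU hsub
    have hu0 : u ∈ nhdsWithin (0 : ℝ) (Ioi 0) :=
      nhdsWithin_le_nhds (hu.mem_nhds (h0u (mem_singleton 0)))
    filter_upwards [hu0] with s hs y hy
    have h3 : ((s, y) : ℝ × (ℝ × ℝ)) ∈ u ×ˢ v := ⟨hs, hbv hy⟩
    have h4 := huv h3
    simp only [mem_ofPred_eq] at h4
    rw [hf, b3f_box hL X ψ hy] at h4
    exact h4.le
  -- convergence of the derivatives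
  have hgrad : Filter.Tendsto (fun s : ℝ => ∫ y in box L, ((D1 (P s f) y - (y.1 - (X (T y)).1)) ^ 2 +
      (D2 (P s f) y - (y.2 - (X (T y)).2)) ^ 2)) (nhdsWithin 0 (Ioi 0)) (nhds 0) := by
    have hae : (Ioo (0 : ℝ) L ×ˢ Ioo (0 : ℝ) L : Set (ℝ × ℝ)) =ᵐ[volume] box L := by
      unfold box
      rw [Measure.volume_eq_prod]
      exact Measure.set_prod_ae_eq Ioo_ae_eq_Icc Ioo_ae_eq_Icc
    have hr := Measure.restrict_congr_set hae
    have hfin : volume (Ioo (0 : ℝ) L ×ˢ Ioo (0 : ℝ) L : Set (ℝ × ℝ)) ≠ ⊤ := by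
      rw [measure_congr hae]
      exact (B2_compact_box L).measure_lt_top.ne
    have : IsFiniteMeasure ((volume : Measure (ℝ × ℝ)).restrict (Ioo (0 : ℝ) L ×ˢ Ioo (0 : ℝ) L)) :=
      ⟨by rw [Measure.restrict_apply_univ]; exact lt_top_iff_ne_top.2 hfin⟩
    have hm : MeasurableSet (Ioo (0 : ℝ) L ×ˢ Ioo (0 : ℝ) L : Set (ℝ × ℝ)) :=
      measurableSet_Ioo.prod measurableSet_Ioo
    rw [← hr]
    suffices hsuff : Filter.Tendsto (fun s : ℝ => ∫ y in Ioo (0 : ℝ) L ×ˢ Ioo (0 : ℝ) L,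
        ((D1 (P s f) y - (y.1 - (X (T y)).1)) ^ 2 + (D2 (P s f) y - (y.2 - (X (T y)).2)) ^ 2))
        (nhdsWithin 0 (Ioi 0)) (nhds (∫ y in Ioo (0 : ℝ) L ×ˢ Ioo (0 : ℝ) L, (0 : ℝ))) by
      simpa using hsuff
    apply tendsto_integral_filter_of_dominated_convergence (fun _ => 8 * M0 ^ 2)
    · filter_upwards [self_mem_nhdsWithin] with s hs
      have hE := P_EP hL hs hCP
      have hs1 := (a2_cont_D1 (hE.smooth.of_le (by simp)))
      have hs2 := (a2_cont_D2 (hE.smooth.of_le (by simp)))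
      have h1 := (opt_integrable h (F := fun i y => (D1 (P s f) y - (y.1 - (X i).1)) ^ 2 +
        (D2 (P s f) y - (y.2 - (X i).2)) ^ 2) (fun i => by fun_prop)).1
      exact h1.aestronglyMeasurable
    · filter_upwards [self_mem_nhdsWithin] with s hs
      filter_upwards [ae_restrict_mem hm] with y hy
      have hyb : y ∈ box L := ⟨Ioo_subset_Icc_self hy.1, Ioo_subset_Icc_self hy.2⟩
      have h1 := b3_grad hL h hM0 hs y
      have h2 := hM0 y hyb
      rw [Real.norm_eq_abs, abs_of_nonneg (by positivity)]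
      have h3 : |D1 (P s f) y - (y.1 - (X (T y)).1)| ≤ 2 * M0 := by
        have := abs_sub (D1 (P s f) y) (y.1 - (X (T y)).1)
        linarith [h1.1, h2.1]
      have h4 : |D2 (P s f) y - (y.2 - (X (T y)).2)| ≤ 2 * M0 := by
        have := abs_sub (D2 (P s f) y) (y.2 - (X (T y)).2)
        linarith [h1.2, h2.2]
      have h5 := sq_le_sq' (by linarith [neg_abs_le (D1 (P s f) y - (y.1 - (X (T y)).1))])
        ((le_abs_self _).trans h3)
      have h6 := sq_le_sq' (by linarith [neg_abs_le (D2 (P s f) y - (y.2 - (X (T y)).2))])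
        ((le_abs_self _).trans h4)
      linarith
    · exact integrable_const _
    · filter_upwards [ae_restrict_mem hm, ae_restrict_of_ae (b3_ae_diff hL h hM0)] with y hy hd
      have hder := b3_deriv hL h hy hd
      have hlip := b3f_lip hL h hM0
      have l1 := b3_lim f hCP.cont hB hlip hd 1 0 (by rw [b3_mom, b3_m1, zero_mul])
      have l2 := b3_lim f hCP.cont hB hlip hd 0 1 (by rw [b3_mom, b3_m1, mul_zero])
      rw [b3_int1] at l1
      rw [b3_int2] at l2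
      have l1' := l1.comp b3_sqrt_lim
      have l2' := l2.comp b3_sqrt_lim
      have c1 : Filter.Tendsto (fun s => D1 (P s f) y) (nhdsWithin 0 (Ioi 0))
          (nhds (y.1 - (X (T y)).1)) := by
        rw [← hder.1]
        refine l1'.congr' ?_
        filter_upwards [self_mem_nhdsWithin] with s hs
        have hs' : 0 < s := hs
        have hc : 0 < √(2 * s) := Real.sqrt_pos.2 (by positivity)
        rw [P_eq_a2A, a2A_D1 0 0 hc hCP.cont hB]
        simp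
      have c2 : Filter.Tendsto (fun s => D2 (P s f) y) (nhdsWithin 0 (Ioi 0))
          (nhds (y.2 - (X (T y)).2)) := by
        rw [← hder.2]
        refine l2'.congr' ?_
        filter_upwards [self_mem_nhdsWithin] with s hs
        have hs' : 0 < s := hs
        have hc : 0 < √(2 * s) := Real.sqrt_pos.2 (by positivity)
        rw [P_eq_a2A, a2A_D2 0 0 hc hCP.cont hB]
        simp
      have c3 := ((c1.sub_const (y.1 - (X (T y)).1)).pow 2).add
        ((c2.sub_const (y.2 - (X (T y)).2)).pow 2)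
      simpa using c3
  have hev : ∀ᶠ s : ℝ in nhdsWithin 0 (Ioi 0), ∫ y in box L, ((D1 (P s f) y - (y.1 - (X (T y)).1)) ^ 2 +
      (D2 (P s f) y - (y.2 - (X (T y)).2)) ^ 2) < δ := hgrad.eventually_lt_const hδ
  obtain ⟨s, ⟨h1, h2⟩, h3⟩ := ((hclose.and hev).and self_mem_nhdsWithin).exists
  exact ⟨P s f, P_EP hL h3 hCP, h1, h2.le, fun M hM => b3_grad hL h hM h3⟩

end lip

end Pool.Agent.Lib.H77M
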