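import Pool.Agent.Lib.H77M.A1

/-!
# Project H77M, chunk D1: discrepancy lemma (D1), (D2) of PROOF.md
-/

open MeasureTheory Set ProbabilityTheory
open scoped ContDiff

namespace Pool.Agent.Lib.H77M

/-! ### auxiliary lemmas -/

theorem D1c_log {L : ℝ} (hL : 1 ≤ L) : (2 : ℝ) ^ (lev L) ≤ L ∧ L < 2 ^ (lev L + 1) := by
  have h1 : 1 ≤ ⌊L⌋₊ := Nat.le_floor (by simpa using hL)
  have h2 : 2 ^ (lev L) ≤ ⌊L⌋₊ := Nat.pow_log_le_self 2 (by omega)
  have h3 : ⌊L⌋₊ < 2 ^ (lev L + 1) := Nat.lt_pow_succ_log_self (by norm_num) ⌊L⌋₊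
  have h6 : (⌊L⌋₊ : ℝ) ≤ L := Nat.floor_le (by linarith)
  constructor
  · have h5 : (2 : ℝ) ^ (lev L) ≤ ⌊L⌋₊ := by exact_mod_cast h2
    linarith
  · have h4 := Nat.lt_floor_add_one L
    have h5 : (⌊L⌋₊ : ℝ) + 1 ≤ 2 ^ (lev L + 1) := by exact_mod_cast h3
    linarith

theorem sd_spec {L : ℝ} (hL : 1 ≤ L) : 1 ≤ sd L ∧ sd L < 2 := by
  obtain ⟨h1, h2⟩ := D1c_log hL
  have hp : (0 : ℝ) < 2 ^ lev L := by positivity
  unfold sd
  constructor
  · rw [le_div_iff₀ hp]; linarith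
  · rw [div_lt_iff₀ hp]; rw [pow_succ] at h2; linarith

theorem D1c_floor {s t : ℝ} (hs : 0 < s) (ht : 0 ≤ t) :
    (⌊t / s⌋₊ : ℝ) * s ≤ t ∧ t < ((⌊t / s⌋₊ : ℝ) + 1) * s := by
  have h1 := Nat.floor_le (div_nonneg ht hs.le)
  have h2 := Nat.lt_floor_add_one (t / s)
  exact ⟨(le_div_iff₀ hs).1 h1, (div_lt_iff₀ hs).1 h2⟩

theorem D1c_floor_lt {L t : ℝ} (hL : 1 ≤ L) (ht : 0 ≤ t) (ht' : t < L) :
    ⌊t / sd L⌋₊ < 2 ^ lev L := by
  have hs : 0 < sd L := lt_of_lt_of_le one_pos (sd_spec hL).1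
  have h1 := (D1c_floor hs ht).1
  have h2 : (⌊t / sd L⌋₊ : ℝ) * sd L < 2 ^ lev L * sd L := by
    have : (2 : ℝ) ^ lev L * sd L = L := by
      unfold sd
      field_simp
    rw [this]
    linarith
  have h3 := lt_of_mul_lt_mul_right h2 hs.le
  exact_mod_cast h3

theorem D1c_sub {L : ℝ} (hL : 0 ≤ L) {j a b : ℕ} (ha : a < 2 ^ j) (hb : b < 2 ^ j) :
    sq L j a b ⊆ hbox L := by
  have key : ∀ c : ℕ, c < 2 ^ j → ((c : ℝ) + 1) * (L / 2 ^ j) ≤ L := by
    intro c hc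
    have h1 : (c : ℝ) + 1 ≤ 2 ^ j := by exact_mod_cast hc
    calc ((c : ℝ) + 1) * (L / 2 ^ j) ≤ 2 ^ j * (L / 2 ^ j) :=
          mul_le_mul_of_nonneg_right h1 (by positivity)
      _ = L := by field_simp
  rintro ⟨y1, y2⟩ ⟨⟨h1, h2⟩, ⟨h3, h4⟩⟩
  refine ⟨⟨le_trans (by positivity) h1, lt_of_lt_of_le h2 (key a ha)⟩,
    ⟨le_trans (by positivity) h3, lt_of_lt_of_le h4 (key b hb)⟩⟩

theorem D1c_meas (L : ℝ) (j a b : ℕ) : MeasurableSet (sq L j a b) :=
  measurableSet_Ico.prod measurableSet_Ico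

theorem D1c_vol {L : ℝ} (hL : 0 ≤ L) (j a b : ℕ) :
    volume (sq L j a b) = ENNReal.ofReal ((L / 2 ^ j) ^ 2) := by
  unfold sq
  rw [Measure.volume_eq_prod, Measure.prod_prod, Real.volume_Ico, Real.volume_Ico,
    ← ENNReal.ofReal_mul (by
      have : 0 ≤ L / 2 ^ j := by positivity
      linarith)]
  congr 1
  ring

theorem D1c_int {f : ℝ × ℝ → ℝ} (hf : Continuous f) (L : ℝ) (j a b : ℕ) :
    IntegrableOn f (sq L j a b) :=
  (hf.continuousOn.integrableOn_compact (isCompact_Icc.prod isCompact_Icc)).mono_set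
    (prod_mono Ico_subset_Icc_self Ico_subset_Icc_self)

theorem D1c_intbox {f : ℝ × ℝ → ℝ} (hf : Continuous f) (L : ℝ) : IntegrableOn f (box L) :=
  hf.continuousOn.integrableOn_compact (isCompact_Icc.prod isCompact_Icc)

theorem D1c_box (L : ℝ) (f : ℝ × ℝ → ℝ) : ∫ y in box L, f y = ∫ y in hbox L, f y := by
  apply setIntegral_congr_set
  unfold box hbox
  rw [Measure.volume_eq_prod]
  exact Measure.set_prod_ae_eq Ico_ae_eq_Icc.symm Ico_ae_eq_Icc.symm

theorem ssq_spec {L : ℝ} (hL : 1 ≤ L) {x : ℝ × ℝ} (hx : x ∈ hbox L) :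
    x ∈ ssq L x ∧ ssq L x ⊆ hbox L ∧ (∀ y ∈ ssq L x, |x.1 - y.1| ≤ 2 ∧ |x.2 - y.2| ≤ 2) ∧
      MeasurableSet (ssq L x) ∧ volume (ssq L x) = ENNReal.ofReal (sd L ^ 2) := by
  obtain ⟨⟨h1, h2⟩, ⟨h3, h4⟩⟩ := hx
  have hs2 := (sd_spec hL).2
  have hs : 0 < sd L := lt_of_lt_of_le one_pos (sd_spec hL).1
  obtain ⟨a1, a2⟩ := D1c_floor hs h1
  obtain ⟨b1, b2⟩ := D1c_floor hs h3
  refine ⟨⟨⟨a1, a2⟩, ⟨b1, b2⟩⟩,
    D1c_sub (by linarith) (D1c_floor_lt hL h1 h2) (D1c_floor_lt hL h3 h4), ?_,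
    D1c_meas _ _ _ _, D1c_vol (by linarith) _ _ _⟩
  rintro y ⟨⟨c1, c2⟩, ⟨d1, d2⟩⟩
  change _ * sd L ≤ _ at c1 d1
  change _ < _ * sd L at c2 d2
  constructor
  · rw [abs_le]
    constructor <;> nlinarith
  · rw [abs_le]
    constructor <;> nlinarith

theorem D1c_av (L : ℝ) (f : ℝ × ℝ → ℝ) (x : ℝ × ℝ) :
    av L f x = (∫ y in sq L (lev L) ⌊x.1 / sd L⌋₊ ⌊x.2 / sd L⌋₊, f y) / (L / 2 ^ lev L) ^ 2 := rfl

theorem av_const {L : ℝ} (hL : 1 ≤ L) (c : ℝ) {x : ℝ × ℝ} (hx : x ∈ hbox L) :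
    av L (fun _ => c) x = c := by
  have hs : 0 < sd L := lt_of_lt_of_le one_pos (sd_spec hL).1
  have hv := (ssq_spec hL hx).2.2.2.2
  unfold av
  rw [setIntegral_const, measureReal_def, hv, ENNReal.toReal_ofReal (sq_nonneg _), smul_eq_mul]
  field_simp

theorem av_mono {L : ℝ} (hL : 1 ≤ L) {f g : ℝ × ℝ → ℝ} (hf : Continuous f) (hg : Continuous g)
    {x : ℝ × ℝ} (hx : x ∈ hbox L) (h : ∀ y ∈ ssq L x, f y ≤ g y) : av L f x ≤ av L g x := by
  unfold av
  exact div_le_div_of_nonneg_right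
    (setIntegral_mono_on (D1c_int hf _ _ _ _) (D1c_int hg _ _ _ _) (ssq_spec hL hx).2.2.2.1 h)
    (sq_nonneg _)

theorem av_add {L : ℝ} (hL : 1 ≤ L) {f g : ℝ × ℝ → ℝ} (hf : Continuous f) (hg : Continuous g)
    {x : ℝ × ℝ} (hx : x ∈ hbox L) : av L (fun y => f y + g y) x = av L f x + av L g x := by
  have h := integral_add (D1c_int hf L (lev L) ⌊x.1 / sd L⌋₊ ⌊x.2 / sd L⌋₊)
    (D1c_int hg L (lev L) ⌊x.1 / sd L⌋₊ ⌊x.2 / sd L⌋₊)
  simp only [D1c_av]
  rw [← add_div, ← h]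

/-- the one-dimensional indicator -/
noncomputable def D1cI (s : ℝ) (a : ℕ) (t : ℝ) : ℝ :=
  (Ico ((a : ℝ) * s) (((a : ℝ) + 1) * s)).indicator (fun _ => (1 : ℝ)) t

theorem D1c_I_split {s : ℝ} (hs : 0 ≤ s) (a : ℕ) (t : ℝ) :
    D1cI s a t = D1cI (s / 2) (2 * a) t + D1cI (s / 2) (2 * a + 1) t := by
  unfold D1cI
  simp only [indicator_apply, mem_Ico]
  push_cast
  have e1 : (2 * (a : ℝ)) * (s / 2) = a * s := by ring
  have e2 : (2 * (a : ℝ) + 1 + 1) * (s / 2) = (a + 1) * s := by ring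
  rw [e1, e2]
  have h1 : (a : ℝ) * s ≤ (2 * a + 1) * (s / 2) := by nlinarith
  have h2 : (2 * (a : ℝ) + 1) * (s / 2) ≤ (a + 1) * s := by nlinarith
  rcases lt_or_ge t ((2 * (a : ℝ) + 1) * (s / 2)) with h | h
  · have h3 : t < ((a : ℝ) + 1) * s := by linarith
    have h4 : ¬ ((2 * (a : ℝ) + 1) * (s / 2) ≤ t) := not_le.2 h
    simp [h, h3, h4]
  · have h3 : (a : ℝ) * s ≤ t := by linarith
    have h4 : ¬ (t < (2 * (a : ℝ) + 1) * (s / 2)) := not_lt.2 h
    simp [h, h3, h4]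

theorem D1c_ind (L : ℝ) (j a b : ℕ) (g : ℝ × ℝ → ℝ) (y : ℝ × ℝ) :
    (sq L j a b).indicator g y = D1cI (L / 2 ^ j) a y.1 * D1cI (L / 2 ^ j) b y.2 * g y := by
  unfold D1cI sq
  simp only [indicator_apply, mem_prod]
  by_cases h1 : y.1 ∈ Ico ((a : ℝ) * (L / 2 ^ j)) (((a : ℝ) + 1) * (L / 2 ^ j)) <;>
  by_cases h2 : y.2 ∈ Ico ((b : ℝ) * (L / 2 ^ j)) (((b : ℝ) + 1) * (L / 2 ^ j)) <;>
  simp [h1, h2]

theorem D1c_ind_split {L : ℝ} (hL : 0 ≤ L) (j a b : ℕ) (g : ℝ × ℝ → ℝ) (y : ℝ × ℝ) :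
    (sq L j a b).indicator g y = (sq L (j + 1) (2 * a) (2 * b)).indicator g y +
      (sq L (j + 1) (2 * a) (2 * b + 1)).indicator g y +
      ((sq L (j + 1) (2 * a + 1) (2 * b)).indicator g y +
      (sq L (j + 1) (2 * a + 1) (2 * b + 1)).indicator g y) := by
  simp only [D1c_ind]
  have e : L / 2 ^ (j + 1) = L / 2 ^ j / 2 := by
    rw [pow_succ]
    field_simp
  have hs : 0 ≤ L / 2 ^ j := by positivity
  rw [e, D1c_I_split hs a, D1c_I_split hs b]
  ring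

theorem D1c_int_split {L : ℝ} (hL : 0 ≤ L) (j a b : ℕ) {g : ℝ × ℝ → ℝ} (hg : Continuous g) :
    ∫ y in sq L j a b, g y = (∫ y in sq L (j + 1) (2 * a) (2 * b), g y) +
      (∫ y in sq L (j + 1) (2 * a) (2 * b + 1), g y) +
      ((∫ y in sq L (j + 1) (2 * a + 1) (2 * b), g y) +
      (∫ y in sq L (j + 1) (2 * a + 1) (2 * b + 1), g y)) := by
  have hi : ∀ j a b, Integrable ((sq L j a b).indicator g) := fun j a b =>
    (D1c_int hg L j a b).integrable_indicator (D1c_meas _ _ _ _)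
  have hr : ∀ j a b, ∫ y in sq L j a b, g y = ∫ y, (sq L j a b).indicator g y := fun j a b =>
    (integral_indicator (D1c_meas _ _ _ _)).symm
  simp only [hr]
  have i1 := hi (j + 1) (2 * a) (2 * b)
  have i2 := hi (j + 1) (2 * a) (2 * b + 1)
  have i3 := hi (j + 1) (2 * a + 1) (2 * b)
  have i4 := hi (j + 1) (2 * a + 1) (2 * b + 1)
  rw [integral_congr_ae (Filter.Eventually.of_forall fun y => D1c_ind_split hL j a b g y),
    ← integral_add i1 i2, ← integral_add i3 i4]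
  exact integral_add (i1.add i2) (i3.add i4)

theorem D1c_cnt_split {L : ℝ} (hL : 0 ≤ L) {ι : Type} [Fintype ι] (X : ι → ℝ × ℝ) (j a b : ℕ) :
    cnt X (sq L j a b) = cnt X (sq L (j + 1) (2 * a) (2 * b)) +
      cnt X (sq L (j + 1) (2 * a) (2 * b + 1)) +
      (cnt X (sq L (j + 1) (2 * a + 1) (2 * b)) +
      cnt X (sq L (j + 1) (2 * a + 1) (2 * b + 1))) := by
  unfold cnt
  rw [← Finset.sum_add_distrib, ← Finset.sum_add_distrib, ← Finset.sum_add_distrib]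
  exact Finset.sum_congr rfl fun i _ => D1c_ind_split hL j a b _ _

theorem D1c_range (n : ℕ) (g : ℕ → ℝ) :
    ∑ a ∈ Finset.range (2 * n), g a = ∑ a ∈ Finset.range n, (g (2 * a) + g (2 * a + 1)) := by
  induction n with
  | zero => simp
  | succ n ih =>
    rw [show 2 * (n + 1) = 2 * n + 1 + 1 by ring, Finset.sum_range_succ, Finset.sum_range_succ,
      Finset.sum_range_succ, ih]
    ring

theorem D1c_range2 (j : ℕ) (g : ℕ → ℕ → ℝ) :
    ∑ a ∈ Finset.range (2 ^ (j + 1)), ∑ b ∈ Finset.range (2 ^ (j + 1)), g a b =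
      ∑ a ∈ Finset.range (2 ^ j), ∑ b ∈ Finset.range (2 ^ j),
        (g (2 * a) (2 * b) + g (2 * a) (2 * b + 1) +
          (g (2 * a + 1) (2 * b) + g (2 * a + 1) (2 * b + 1))) := by
  rw [pow_succ, mul_comm, D1c_range]
  refine Finset.sum_congr rfl fun a _ => ?_
  rw [D1c_range, D1c_range, ← Finset.sum_add_distrib]

theorem D1c_zero (L : ℝ) : sq L 0 0 0 = hbox L := by
  unfold sq hbox
  simp

theorem D1c_part {L : ℝ} (hL : 0 ≤ L) {g : ℝ × ℝ → ℝ} (hg : Continuous g) (j : ℕ) :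
    ∑ a ∈ Finset.range (2 ^ j), ∑ b ∈ Finset.range (2 ^ j), ∫ y in sq L j a b, g y =
      ∫ y in box L, g y := by
  induction j with
  | zero => simp [D1c_zero, D1c_box]
  | succ j ih =>
    rw [D1c_range2, ← ih]
    exact Finset.sum_congr rfl fun a _ => Finset.sum_congr rfl fun b _ =>
      (D1c_int_split hL j a b hg).symm

theorem D1c_cnt_box {K L : ℝ} {ι : Type} [Fintype ι] {X : ι → ℝ × ℝ} (h : Reg K L X) :
    cnt X (hbox L) = Fintype.card ι := by
  unfold cnt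
  rw [Finset.sum_congr rfl fun i _ => indicator_of_mem (h.mem i) (fun _ => (1 : ℝ))]
  simp

/-- the number of points is `L ^ 2 + O (K L)` -/
theorem Reg_card {K L : ℝ} {ι : Type} [Fintype ι] {X : ι → ℝ × ℝ} (h : Reg K L X) :
    |(Fintype.card ι : ℝ) - L ^ 2| ≤ K * L := by
  have h1 := h.disc 0 0 0 (by norm_num) (by norm_num) (by simpa using h.one_le)
  rw [D1c_zero, D1c_cnt_box h] at h1
  simpa using h1

theorem D1c_one {K L : ℝ} {ι : Type} [Fintype ι] {X : ι → ℝ × ℝ} (h : Reg K L X) : 1 ≤ K := by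
  have h1 := h.log_le
  have h2 := Real.log_nonneg h.one_le
  linarith

theorem D1c_mem_iff {L : ℝ} (hL : 1 ≤ L) {x : ℝ × ℝ} (hx : x ∈ hbox L) (a b : ℕ) :
    x ∈ sq L (lev L) a b ↔ a = ⌊x.1 / sd L⌋₊ ∧ b = ⌊x.2 / sd L⌋₊ := by
  have hs : 0 < sd L := lt_of_lt_of_le one_pos (sd_spec hL).1
  have key : ∀ (t : ℝ) (c : ℕ), 0 ≤ t →
      (t ∈ Ico ((c : ℝ) * sd L) (((c : ℝ) + 1) * sd L) ↔ c = ⌊t / sd L⌋₊) := by
    intro t c ht
    rw [eq_comm, Nat.floor_eq_iff (div_nonneg ht hs.le), le_div_iff₀ hs, div_lt_iff₀ hs, mem_Ico]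
  unfold sq
  rw [mem_prod]
  exact and_congr (key x.1 a hx.1.1) (key x.2 b hx.2.1)

theorem D1c_top {K L : ℝ} {ι : Type} [Fintype ι] {X : ι → ℝ × ℝ} (h : Reg K L X)
    (f : ℝ × ℝ → ℝ) :
    ∑ i, av L f (X i) = ∑ a ∈ Finset.range (2 ^ lev L), ∑ b ∈ Finset.range (2 ^ lev L),
      cnt X (sq L (lev L) a b) * ((∫ y in sq L (lev L) a b, f y) / (L / 2 ^ lev L) ^ 2) := by
  have h1 : ∀ i, av L f (X i) = ∑ a ∈ Finset.range (2 ^ lev L), ∑ b ∈ Finset.range (2 ^ lev L),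
      (sq L (lev L) a b).indicator (fun _ => (1 : ℝ)) (X i) *
        ((∫ y in sq L (lev L) a b, f y) / (L / 2 ^ lev L) ^ 2) := by
    intro i
    have hx := h.mem i
    have ha := D1c_floor_lt h.one_le hx.1.1 hx.1.2
    have hb := D1c_floor_lt h.one_le hx.2.1 hx.2.2
    rw [D1c_av, Finset.sum_eq_single ⌊(X i).1 / sd L⌋₊, Finset.sum_eq_single ⌊(X i).2 / sd L⌋₊,
      indicator_of_mem ((D1c_mem_iff h.one_le hx _ _).2 ⟨rfl, rfl⟩), one_mul]
    · intro b _ hb'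
      rw [indicator_of_notMem, zero_mul]
      rw [D1c_mem_iff h.one_le hx]
      exact fun h => hb' h.2
    · intro h'
      exact absurd (Finset.mem_range.2 hb) h'
    · intro a _ ha'
      refine Finset.sum_eq_zero fun b _ => ?_
      rw [indicator_of_notMem, zero_mul]
      rw [D1c_mem_iff h.one_le hx]
      exact fun h => ha' h.1
    · intro h'
      exact absurd (Finset.mem_range.2 ha) h'
  rw [Finset.sum_congr rfl fun i _ => h1 i, Finset.sum_comm]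
  refine Finset.sum_congr rfl fun a _ => ?_
  rw [Finset.sum_comm]
  refine Finset.sum_congr rfl fun b _ => ?_
  unfold cnt
  rw [Finset.sum_mul]

/-- every smallest square contains at most `6 K` points -/
theorem sum_av_le {K L : ℝ} {ι : Type} [Fintype ι] {X : ι → ℝ × ℝ} (h : Reg K L X) {f : ℝ × ℝ → ℝ}
    (hf : Continuous f) (h0 : ∀ y ∈ box L, 0 ≤ f y) :
    ∑ i, av L f (X i) ≤ 6 * K * ∫ y in box L, f y := by
  have hL := h.one_le
  have hK := D1c_one h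
  obtain ⟨hs1, hs2⟩ := sd_spec hL
  rw [D1c_top h, ← D1c_part (by linarith) hf (lev L), Finset.mul_sum]
  refine Finset.sum_le_sum fun a ha => ?_
  rw [Finset.mul_sum]
  refine Finset.sum_le_sum fun b hb => ?_
  have ha' := Finset.mem_range.1 ha
  have hb' := Finset.mem_range.1 hb
  have h1 := h.disc (lev L) a b ha' hb' hs1
  have hsub := D1c_sub (L := L) (by linarith) ha' hb'
  have h2 : 0 ≤ ∫ y in sq L (lev L) a b, f y := by
    apply setIntegral_nonneg (D1c_meas _ _ _ _)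
    intro y hy
    have := hsub hy
    exact h0 y ⟨⟨this.1.1, this.1.2.le⟩, ⟨this.2.1, this.2.2.le⟩⟩
  change |_ - sd L ^ 2| ≤ K * sd L at h1
  change _ * (_ / sd L ^ 2) ≤ _
  have h3 : cnt X (sq L (lev L) a b) ≤ 6 * K := by
    have := (abs_le.1 h1).2
    nlinarith
  have h4 : (∫ y in sq L (lev L) a b, f y) / sd L ^ 2 ≤ ∫ y in sq L (lev L) a b, f y :=
    div_le_self h2 (by nlinarith)
  have h5 : 0 ≤ (∫ y in sq L (lev L) a b, f y) / sd L ^ 2 := div_nonneg h2 (sq_nonneg _)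
  calc cnt X (sq L (lev L) a b) * ((∫ y in sq L (lev L) a b, f y) / sd L ^ 2)
      ≤ 6 * K * ((∫ y in sq L (lev L) a b, f y) / sd L ^ 2) := mul_le_mul_of_nonneg_right h3 h5
    _ ≤ 6 * K * ∫ y in sq L (lev L) a b, f y := mul_le_mul_of_nonneg_left h4 (by linarith)

/-! ### the L1 Poincare inequality -/

theorem D1c_trans (w : ℝ × ℝ) (Q : Set (ℝ × ℝ)) (g : ℝ × ℝ → ℝ) :
    ∫ y in (fun y => y + w) ⁻¹' Q, g (y + w) = ∫ y in Q, g y :=
  (measurePreserving_add_right (volume : Measure (ℝ × ℝ)) w).setIntegral_preimage_emb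
    (measurableEmbedding_addRight w) g Q

theorem D1c_shift {f : ℝ × ℝ → ℝ} (hf : ContDiff ℝ 1 f) {R Q Z : Set (ℝ × ℝ)}
    (hR : MeasurableSet R) (hZ : IsCompact Z) (hRZ : R ⊆ Z) (hQZ : Q ⊆ Z) (v : ℝ × ℝ) {h : ℝ}
    (hh : 0 ≤ h) (hsub : ∀ u ∈ Icc (0 : ℝ) h, ∀ y ∈ R, y + u • v ∈ Q) :
    |∫ y in R, (f (y + h • v) - f y)| ≤ h * ∫ y in Q, |fderiv ℝ f y v| := by
  set g : ℝ × ℝ → ℝ := fun y => |fderiv ℝ f y v| with hg
  have hfc : Continuous fun y => fderiv ℝ f y v :=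
    (hf.continuous_fderiv one_ne_zero).clm_apply continuous_const
  have hgc : Continuous g := hfc.abs
  have hQi : IntegrableOn g Q := (hgc.continuousOn.integrableOn_compact hZ).mono_set hQZ
  have h1 : ∀ y, |f (y + h • v) - f y| ≤ ∫ u in Ioc 0 h, g (y + u • v) := by
    intro y
    have hd : ∀ u ∈ uIcc 0 h,
        HasDerivAt (fun u : ℝ => f (y + u • v)) (fderiv ℝ f (y + u • v) v) u := by
      intro u _
      have e1 : HasFDerivAt f (fderiv ℝ f (y + u • v)) (y + u • v) :=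
        (hf.differentiable one_ne_zero _).hasFDerivAt
      have e2 : HasDerivAt (fun u : ℝ => y + u • v) v u := by
        simpa using ((hasDerivAt_id u).smul_const v).const_add y
      exact e1.comp_hasDerivAt u e2
    have hc : Continuous fun u : ℝ => fderiv ℝ f (y + u • v) v :=
      hfc.comp (by fun_prop : Continuous fun u : ℝ => y + u • v)
    have e := intervalIntegral.integral_eq_sub_of_hasDerivAt hd (hc.intervalIntegrable _ _)
    simp only [zero_smul, add_zero] at e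
    rw [← e, intervalIntegral.integral_of_le hh]
    exact abs_integral_le_integral_abs
  have hc2 : Continuous fun z : (ℝ × ℝ) × ℝ => g (z.1 + z.2 • v) :=
    hgc.comp (by fun_prop)
  have hint : Integrable (fun z : (ℝ × ℝ) × ℝ => g (z.1 + z.2 • v))
      ((volume.restrict R).prod (volume.restrict (Ioc 0 h))) := by
    rw [Measure.prod_restrict]
    exact (hc2.continuousOn.integrableOn_compact (hZ.prod isCompact_Icc)).mono_set
      (prod_mono hRZ Ioc_subset_Icc_self)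
  calc |∫ y in R, (f (y + h • v) - f y)| ≤ ∫ y in R, |f (y + h • v) - f y| :=
        abs_integral_le_integral_abs
    _ ≤ ∫ y in R, ∫ u in Ioc 0 h, g (y + u • v) := by
        apply setIntegral_mono_on _ hint.integral_prod_left hR fun y _ => h1 y
        have hc3 : Continuous fun y => |f (y + h • v) - f y| := by
          have := hf.continuous
          fun_prop
        exact (hc3.continuousOn.integrableOn_compact hZ).mono_set hRZ
    _ = ∫ u in Ioc 0 h, ∫ y in R, g (y + u • v) :=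
        integral_integral_swap (f := fun y u => g (y + u • v)) hint
    _ ≤ ∫ u in Ioc 0 h, ∫ y in Q, g y := by
        apply setIntegral_mono_on hint.integral_prod_right _ measurableSet_Ioc
        · intro u hu
          rw [← D1c_trans (u • v) Q g]
          apply setIntegral_mono_set
          · exact ((measurePreserving_add_right (volume : Measure (ℝ × ℝ)) (u • v)
              ).integrableOn_comp_preimage (measurableEmbedding_addRight (u • v))).2 hQi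
          · exact Filter.Eventually.of_forall fun y => abs_nonneg _
          · exact (show R ⊆ _ from fun y hy => hsub u ⟨hu.1.le, hu.2⟩ y hy).eventuallyLE
        · exact integrableOn_const (by simp)
    _ = h * ∫ y in Q, g y := by
        rw [setIntegral_const, measureReal_def, Real.volume_Ioc, sub_zero,
          ENNReal.toReal_ofReal hh, smul_eq_mul]

/-- squares with corner `(a, b)` and side `s` -/
def D1cR (a b s : ℝ) : Set (ℝ × ℝ) := Ico a (a + s) ×ˢ Ico b (b + s)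

theorem D1c_R_trans (a b c d s : ℝ) (g : ℝ × ℝ → ℝ) :
    ∫ y in D1cR (a + c) (b + d) s, g y = ∫ y in D1cR a b s, g (y + (c, d)) := by
  rw [← D1c_trans (c, d) (D1cR (a + c) (b + d) s) g]
  congr 2
  ext ⟨y1, y2⟩
  simp only [D1cR, mem_preimage, Prod.mk_add_mk, mem_prod, mem_Ico]
  constructor
  · rintro ⟨⟨h1, h2⟩, h3, h4⟩
    exact ⟨⟨by linarith, by linarith⟩, by linarith, by linarith⟩
  · rintro ⟨⟨h1, h2⟩, h3, h4⟩
    exact ⟨⟨by linarith, by linarith⟩, by linarith, by linarith⟩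

theorem D1c_Rint {f : ℝ × ℝ → ℝ} (hf : Continuous f) (a b s : ℝ) : IntegrableOn f (D1cR a b s) :=
  (hf.continuousOn.integrableOn_compact (isCompact_Icc.prod isCompact_Icc)).mono_set
    (prod_mono Ico_subset_Icc_self Ico_subset_Icc_self)

theorem D1c_h1 {f : ℝ × ℝ → ℝ} (hf : ContDiff ℝ 1 f) (a b : ℝ) {h d : ℝ} (hh : 0 ≤ h)
    (hd : 0 ≤ d) (hd' : d ≤ h) :
    |(∫ y in D1cR (a + h) (b + d) h, f y) - ∫ y in D1cR a (b + d) h, f y| ≤
      h * ∫ y in D1cR a b (2 * h), |D1 f y| := by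
  have e : ∫ y in D1cR (a + h) (b + d) h, f y =
      ∫ y in D1cR a (b + d) h, f (y + h • ((1 : ℝ), (0 : ℝ))) := by
    have := D1c_R_trans a (b + d) h 0 h f
    rw [add_zero] at this
    rw [this]
    simp
  have hc : Continuous fun y : ℝ × ℝ => f (y + h • ((1 : ℝ), (0 : ℝ))) :=
    hf.continuous.comp (by fun_prop)
  rw [e, ← integral_sub (D1c_Rint hc _ _ _) (D1c_Rint hf.continuous _ _ _)]
  refine D1c_shift hf (measurableSet_Ico.prod measurableSet_Ico)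
    (Z := Icc a (a + 2 * h) ×ˢ Icc b (b + 2 * h)) (isCompact_Icc.prod isCompact_Icc) ?_ ?_
    ((1 : ℝ), (0 : ℝ)) hh ?_
  · rintro ⟨y1, y2⟩ ⟨⟨h1, h2⟩, ⟨h3, h4⟩⟩
    simp only at h1 h2 h3 h4
    exact ⟨⟨h1, by simp only; linarith⟩, ⟨by simp only; linarith, by simp only; linarith⟩⟩
  · exact prod_mono Ico_subset_Icc_self Ico_subset_Icc_self
  · rintro u ⟨hu1, hu2⟩ ⟨y1, y2⟩ ⟨⟨h1, h2⟩, ⟨h3, h4⟩⟩
    simp only at h1 h2 h3 h4
    simp only [D1cR, Prod.smul_mk, smul_eq_mul, mul_one, mul_zero, Prod.mk_add_mk, add_zero,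
      mem_prod, mem_Ico]
    exact ⟨⟨by linarith, by linarith⟩, by linarith, by linarith⟩

theorem D1c_h2 {f : ℝ × ℝ → ℝ} (hf : ContDiff ℝ 1 f) (a b : ℝ) {h d : ℝ} (hh : 0 ≤ h)
    (hd : 0 ≤ d) (hd' : d ≤ h) :
    |(∫ y in D1cR (a + d) (b + h) h, f y) - ∫ y in D1cR (a + d) b h, f y| ≤
      h * ∫ y in D1cR a b (2 * h), |D2 f y| := by
  have e : ∫ y in D1cR (a + d) (b + h) h, f y =
      ∫ y in D1cR (a + d) b h, f (y + h • ((0 : ℝ), (1 : ℝ))) := by
    have := D1c_R_trans (a + d) b 0 h h f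
    rw [add_zero] at this
    rw [this]
    simp
  have hc : Continuous fun y : ℝ × ℝ => f (y + h • ((0 : ℝ), (1 : ℝ))) :=
    hf.continuous.comp (by fun_prop)
  rw [e, ← integral_sub (D1c_Rint hc _ _ _) (D1c_Rint hf.continuous _ _ _)]
  refine D1c_shift hf (measurableSet_Ico.prod measurableSet_Ico)
    (Z := Icc a (a + 2 * h) ×ˢ Icc b (b + 2 * h)) (isCompact_Icc.prod isCompact_Icc) ?_ ?_
    ((0 : ℝ), (1 : ℝ)) hh ?_
  · rintro ⟨y1, y2⟩ ⟨⟨h1, h2⟩, ⟨h3, h4⟩⟩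
    simp only at h1 h2 h3 h4
    exact ⟨⟨by simp only; linarith, by simp only; linarith⟩, ⟨h3, by simp only; linarith⟩⟩
  · exact prod_mono Ico_subset_Icc_self Ico_subset_Icc_self
  · rintro u ⟨hu1, hu2⟩ ⟨y1, y2⟩ ⟨⟨h1, h2⟩, ⟨h3, h4⟩⟩
    simp only at h1 h2 h3 h4
    simp only [D1cR, Prod.smul_mk, smul_eq_mul, mul_one, mul_zero, Prod.mk_add_mk, add_zero,
      mem_prod, mem_Ico]
    exact ⟨⟨by linarith, by linarith⟩, by linarith, by linarith⟩

theorem D1c_gabs {f : ℝ × ℝ → ℝ} (hf : ContDiff ℝ 1 f) : Continuous (gabs f) := by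
  have hfc : ∀ v, Continuous fun y => |fderiv ℝ f y v| := fun v =>
    ((hf.continuous_fderiv one_ne_zero).clm_apply continuous_const).abs
  exact (hfc _).add (hfc _)

/-- the four children of a square -/
theorem D1c_four {f : ℝ × ℝ → ℝ} (hf : ContDiff ℝ 1 f) (a b : ℝ) {h : ℝ} (hh : 0 < h)
    {K A00 A01 A10 A11 : ℝ} (hK : 0 ≤ K) (h00 : |A00 - h ^ 2| ≤ K * h) (h01 : |A01 - h ^ 2| ≤ K * h)
    (h10 : |A10 - h ^ 2| ≤ K * h) (h11 : |A11 - h ^ 2| ≤ K * h) {m00 m01 m10 m11 : ℝ}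
    (e00 : m00 = ∫ y in D1cR a b h, f y) (e01 : m01 = ∫ y in D1cR a (b + h) h, f y)
    (e10 : m10 = ∫ y in D1cR (a + h) b h, f y) (e11 : m11 = ∫ y in D1cR (a + h) (b + h) h, f y) :
    |(A00 * (m00 / h ^ 2) + A01 * (m01 / h ^ 2) + (A10 * (m10 / h ^ 2) + A11 * (m11 / h ^ 2))) -
      (A00 + A01 + (A10 + A11)) * ((m00 + m01 + (m10 + m11)) / (2 * h) ^ 2)| ≤
      4 * K * ∫ y in D1cR a b (2 * h), gabs f y := by
  have i1 := D1c_h1 hf a b hh.le le_rfl hh.le
  have i2 := D1c_h1 hf a b hh.le hh.le le_rfl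
  have i3 := D1c_h2 hf a b hh.le le_rfl hh.le
  have i4 := D1c_h2 hf a b hh.le hh.le le_rfl
  rw [add_zero] at i1 i3
  rw [← e00, ← e10] at i1
  rw [← e01, ← e11] at i2
  rw [← e00, ← e01] at i3
  rw [← e10, ← e11] at i4
  have hfc : ∀ v, Continuous fun y => |fderiv ℝ f y v| := fun v =>
    ((hf.continuous_fderiv one_ne_zero).clm_apply continuous_const).abs
  have hg : ∫ y in D1cR a b (2 * h), gabs f y = (∫ y in D1cR a b (2 * h), |D1 f y|) +
      ∫ y in D1cR a b (2 * h), |D2 f y| :=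
    integral_add (D1c_Rint (hfc _) _ _ _) (D1c_Rint (hfc _) _ _ _)
  rw [hg]
  have p1 : 0 ≤ ∫ y in D1cR a b (2 * h), |D1 f y| := integral_nonneg fun y => abs_nonneg _
  have p2 : 0 ≤ ∫ y in D1cR a b (2 * h), |D2 f y| := integral_nonneg fun y => abs_nonneg _
  set I1 := ∫ y in D1cR a b (2 * h), |D1 f y|
  set I2 := ∫ y in D1cR a b (2 * h), |D2 f y|
  set M := (m00 + m01 + (m10 + m11)) / 4 with hM
  have q1 : 0 ≤ h * I1 := mul_nonneg hh.le p1
  have q2 : 0 ≤ h * I2 := mul_nonneg hh.le p2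
  have j1 := abs_le.1 i1
  have j2 := abs_le.1 i2
  have j3 := abs_le.1 i3
  have j4 := abs_le.1 i4
  have k00 : |m00 - M| ≤ h * (I1 + I2) := by
    rw [abs_le, hM]
    constructor <;> linarith [j1.1, j1.2, j2.1, j2.2, j3.1, j3.2, j4.1, j4.2]
  have k01 : |m01 - M| ≤ h * (I1 + I2) := by
    rw [abs_le, hM]
    constructor <;> linarith [j1.1, j1.2, j2.1, j2.2, j3.1, j3.2, j4.1, j4.2]
  have k10 : |m10 - M| ≤ h * (I1 + I2) := by
    rw [abs_le, hM]
    constructor <;> linarith [j1.1, j1.2, j2.1, j2.2, j3.1, j3.2, j4.1, j4.2]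
  have k11 : |m11 - M| ≤ h * (I1 + I2) := by
    rw [abs_le, hM]
    constructor <;> linarith [j1.1, j1.2, j2.1, j2.2, j3.1, j3.2, j4.1, j4.2]
  have e : (A00 * (m00 / h ^ 2) + A01 * (m01 / h ^ 2) + (A10 * (m10 / h ^ 2) +
      A11 * (m11 / h ^ 2))) -
      (A00 + A01 + (A10 + A11)) * ((m00 + m01 + (m10 + m11)) / (2 * h) ^ 2) =
      ((A00 - h ^ 2) * (m00 - M) + (A01 - h ^ 2) * (m01 - M) + ((A10 - h ^ 2) * (m10 - M) +
        (A11 - h ^ 2) * (m11 - M))) / h ^ 2 := by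
    rw [hM]
    field_simp
    ring
  have t : ∀ A m : ℝ, |A - h ^ 2| ≤ K * h → |m - M| ≤ h * (I1 + I2) →
      |(A - h ^ 2) * (m - M)| ≤ K * h * (h * (I1 + I2)) := by
    intro A m h1 h2
    rw [abs_mul]
    exact mul_le_mul h1 h2 (abs_nonneg _) (by positivity)
  rw [e, abs_div, abs_of_pos (by positivity : (0 : ℝ) < h ^ 2), div_le_iff₀ (by positivity)]
  have u1 := t _ _ h00 k00
  have u2 := t _ _ h01 k01
  have u3 := t _ _ h10 k10
  have u4 := t _ _ h11 k11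
  refine (abs_add_le _ _).trans ?_
  refine (add_le_add (abs_add_le _ _) (abs_add_le _ _)).trans ?_
  nlinarith

theorem D1c_step {K L : ℝ} {ι : Type} [Fintype ι] {X : ι → ℝ × ℝ} (hX : Reg K L X)
    {f : ℝ × ℝ → ℝ} (hf : ContDiff ℝ 1 f) (j : ℕ) (hj : j < lev L) :
    |(∑ a ∈ Finset.range (2 ^ (j + 1)), ∑ b ∈ Finset.range (2 ^ (j + 1)),
        cnt X (sq L (j + 1) a b) * ((∫ y in sq L (j + 1) a b, f y) / (L / 2 ^ (j + 1)) ^ 2)) -
      ∑ a ∈ Finset.range (2 ^ j), ∑ b ∈ Finset.range (2 ^ j),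
        cnt X (sq L j a b) * ((∫ y in sq L j a b, f y) / (L / 2 ^ j) ^ 2)| ≤
      4 * K * ∫ y in box L, gabs f y := by
  have hL := hX.one_le
  have hK := D1c_one hX
  have hL0 : 0 ≤ L := by linarith
  have hside : 1 ≤ L / 2 ^ (j + 1) := by
    have h1 := (D1c_log hL).1
    rw [le_div_iff₀ (by positivity), one_mul]
    exact (pow_le_pow_right₀ (by norm_num) (by omega)).trans h1
  rw [D1c_range2, ← Finset.sum_sub_distrib]
  simp only [← Finset.sum_sub_distrib]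
  rw [← D1c_part hL0 (D1c_gabs hf) j, Finset.mul_sum]
  refine (Finset.abs_sum_le_sum_abs _ _).trans (Finset.sum_le_sum fun a ha => ?_)
  rw [Finset.mul_sum]
  refine (Finset.abs_sum_le_sum_abs _ _).trans (Finset.sum_le_sum fun b hb => ?_)
  have ha' := Finset.mem_range.1 ha
  have hb' := Finset.mem_range.1 hb
  have hp : 2 ^ (j + 1) = 2 * 2 ^ j := by rw [pow_succ]; ring
  set h := L / 2 ^ (j + 1) with hh
  have e2 : L / 2 ^ j = 2 * h := by
    rw [hh, pow_succ]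
    field_simp
  have hsq : ∀ c d : ℕ, sq L (j + 1) c d = D1cR (c * h) (d * h) h := by
    intro c d
    unfold sq D1cR
    rw [← hh, show ((c : ℝ) + 1) * h = c * h + h by ring, show ((d : ℝ) + 1) * h = d * h + h by ring]
  have hsq' : sq L j a b = D1cR (((2 * a : ℕ) : ℝ) * h) (((2 * b : ℕ) : ℝ) * h) (2 * h) := by
    unfold sq D1cR
    rw [e2]
    push_cast
    rw [show (a : ℝ) * (2 * h) = 2 * a * h by ring, show (b : ℝ) * (2 * h) = 2 * b * h by ring,
      show ((a : ℝ) + 1) * (2 * h) = 2 * a * h + 2 * h by ring,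
      show ((b : ℝ) + 1) * (2 * h) = 2 * b * h + 2 * h by ring]
  have h1 : ((2 * a + 1 : ℕ) : ℝ) * h = ((2 * a : ℕ) : ℝ) * h + h := by push_cast; ring
  have h2 : ((2 * b + 1 : ℕ) : ℝ) * h = ((2 * b : ℕ) : ℝ) * h + h := by push_cast; ring
  have key := D1c_four hf (((2 * a : ℕ) : ℝ) * h) (((2 * b : ℕ) : ℝ) * h) (h := h) (by linarith)
    (K := K) (by linarith)
    (hX.disc (j + 1) (2 * a) (2 * b) (by omega) (by omega) hside)
    (hX.disc (j + 1) (2 * a) (2 * b + 1) (by omega) (by omega) hside)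
    (hX.disc (j + 1) (2 * a + 1) (2 * b) (by omega) (by omega) hside)
    (hX.disc (j + 1) (2 * a + 1) (2 * b + 1) (by omega) (by omega) hside)
    (m00 := ∫ y in sq L (j + 1) (2 * a) (2 * b), f y)
    (m01 := ∫ y in sq L (j + 1) (2 * a) (2 * b + 1), f y)
    (m10 := ∫ y in sq L (j + 1) (2 * a + 1) (2 * b), f y)
    (m11 := ∫ y in sq L (j + 1) (2 * a + 1) (2 * b + 1), f y)
    (by rw [hsq]) (by rw [hsq, h2]) (by rw [hsq, h1]) (by rw [hsq, h1, h2])
  rw [← hsq', ← D1c_cnt_split hL0, ← D1c_int_split hL0 j a b hf.continuous, ← e2] at key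
  exact key

theorem D1c_lev {K L : ℝ} {ι : Type} [Fintype ι] {X : ι → ℝ × ℝ} (h : Reg K L X) :
    (lev L : ℝ) ≤ 2 * K := by
  have h1 := (D1c_log h.one_le).1
  have h2 := Real.log_le_log (by positivity) h1
  rw [Real.log_pow] at h2
  have h3 := h.log_le
  have h4 := Real.log_two_gt_d9
  have h5 : (0 : ℝ) ≤ lev L := Nat.cast_nonneg _
  nlinarith

/-- the discrepancy lemma -/
theorem disc1 : ∃ C : ℝ, 0 < C ∧ ∀ (K L : ℝ) {ι : Type} [Fintype ι] (X : ι → ℝ × ℝ), Reg K L X →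
    ∀ f : ℝ × ℝ → ℝ, ContDiff ℝ 1 f →
      |∑ i, av L f (X i) - (Fintype.card ι : ℝ) / L ^ 2 * ∫ y in box L, f y| ≤
        C * K ^ 2 * ∫ y in box L, gabs f y := by
  refine ⟨8, by norm_num, fun K L ι _ X hX f hf => ?_⟩
  have hK := D1c_one hX
  have h0 : (Fintype.card ι : ℝ) / L ^ 2 * ∫ y in box L, f y =
      ∑ a ∈ Finset.range (2 ^ 0), ∑ b ∈ Finset.range (2 ^ 0),
        cnt X (sq L 0 a b) * ((∫ y in sq L 0 a b, f y) / (L / 2 ^ 0) ^ 2) := by
    simp only [pow_zero, Finset.range_one, Finset.sum_singleton, div_one]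
    rw [D1c_zero, D1c_cnt_box hX, D1c_box]
    ring
  have hI : 0 ≤ ∫ y in box L, gabs f y :=
    integral_nonneg fun y => add_nonneg (abs_nonneg _) (abs_nonneg _)
  have key : ∀ j ≤ lev L,
      |(∑ a ∈ Finset.range (2 ^ j), ∑ b ∈ Finset.range (2 ^ j),
        cnt X (sq L j a b) * ((∫ y in sq L j a b, f y) / (L / 2 ^ j) ^ 2)) -
        (Fintype.card ι : ℝ) / L ^ 2 * ∫ y in box L, f y| ≤
        j * (4 * K * ∫ y in box L, gabs f y) := by
    intro j
    induction j with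
    | zero =>
      intro _
      rw [← h0]
      simp
    | succ j ih =>
      intro hj
      have h1 := ih (by omega)
      have h2 := D1c_step hX hf j (by omega)
      have h3 := abs_add_le _ _ |>.trans (add_le_add h2 h1)
      rw [sub_add_sub_cancel] at h3
      push_cast
      linarith
  rw [D1c_top hX]
  refine (key (lev L) le_rfl).trans ?_
  have h1 := D1c_lev hX
  have h2 : 0 ≤ 4 * K * ∫ y in box L, gabs f y := by positivity
  calc (lev L : ℝ) * (4 * K * ∫ y in box L, gabs f y) ≤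
        2 * K * (4 * K * ∫ y in box L, gabs f y) := mul_le_mul_of_nonneg_right h1 h2
    _ = 8 * K ^ 2 * ∫ y in box L, gabs f y := by ring

theorem D1c_near {L : ℝ} (hL : 1 ≤ L) {f h : ℝ × ℝ → ℝ} (hf : ContDiff ℝ 1 f)
    (hfh : ∀ z ∈ box L, ∀ x ∈ box L, |z.1 - x.1| ≤ 3 → |z.2 - x.2| ≤ 3 → gabs f z ≤ h x)
    {x : ℝ × ℝ} (hx : x ∈ hbox L) {y y' : ℝ × ℝ} (hy : y ∈ ssq L x) (hy' : y' ∈ ssq L x) :
    |f x - f y| ≤ 2 * h y' := by
  obtain ⟨hx1, hsub, hnear, -, -⟩ := ssq_spec hL hx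
  have hconv : Convex ℝ (ssq L x) := (convex_Ico _ _).prod (convex_Ico _ _)
  have hsb : ssq L x ⊆ box L := fun z hz =>
    ⟨⟨(hsub hz).1.1, (hsub hz).1.2.le⟩, ⟨(hsub hz).2.1, (hsub hz).2.2.le⟩⟩
  have hs2 := (sd_spec hL).2
  have hdist : ∀ z ∈ ssq L x, ∀ z' ∈ ssq L x, |z.1 - z'.1| ≤ 2 ∧ |z.2 - z'.2| ≤ 2 := by
    rintro z ⟨⟨c1, c2⟩, ⟨d1, d2⟩⟩ z' ⟨⟨c1', c2'⟩, ⟨d1', d2'⟩⟩
    change _ * sd L ≤ _ at c1 d1 c1' d1'
    change _ < _ * sd L at c2 d2 c2' d2'
    constructor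
    · rw [abs_le]
      constructor <;> nlinarith
    · rw [abs_le]
      constructor <;> nlinarith
  have hgz : ∀ z ∈ ssq L x, gabs f z ≤ h y' := fun z hz =>
    hfh z (hsb hz) y' (hsb hy') ((hdist z hz y' hy').1.trans (by norm_num))
      ((hdist z hz y' hy').2.trans (by norm_num))
  have hpos : 0 ≤ h y' := le_trans (add_nonneg (abs_nonneg _) (abs_nonneg _)) (hgz x hx1)
  -- mean value on the segment
  have hdir : ∀ z ∈ ssq L x, ‖fderiv ℝ f z‖ ≤ h y' := by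
    intro z hz
    refine ContinuousLinearMap.opNorm_le_bound _ hpos fun v => ?_
    have e : v = v.1 • ((1 : ℝ), (0 : ℝ)) + v.2 • ((0 : ℝ), (1 : ℝ)) := by
      ext <;> simp
    have e2 : fderiv ℝ f z v = v.1 * D1 f z + v.2 * D2 f z := by
      conv_lhs => rw [e]
      rw [map_add, map_smul, map_smul]
      rfl
    rw [e2, Real.norm_eq_abs]
    have n1 : |v.1| ≤ ‖v‖ := norm_fst_le v
    have n2 : |v.2| ≤ ‖v‖ := norm_snd_le v
    have g1 := hgz z hz
    unfold gabs at g1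
    calc |v.1 * D1 f z + v.2 * D2 f z| ≤ |v.1 * D1 f z| + |v.2 * D2 f z| := abs_add_le _ _
      _ = |v.1| * |D1 f z| + |v.2| * |D2 f z| := by rw [abs_mul, abs_mul]
      _ ≤ ‖v‖ * |D1 f z| + ‖v‖ * |D2 f z| :=
          add_le_add (mul_le_mul_of_nonneg_right n1 (abs_nonneg _))
            (mul_le_mul_of_nonneg_right n2 (abs_nonneg _))
      _ = (|D1 f z| + |D2 f z|) * ‖v‖ := by ring
      _ ≤ h y' * ‖v‖ := mul_le_mul_of_nonneg_right g1 (norm_nonneg _)
  have hmv := hconv.norm_image_sub_le_of_norm_fderiv_le (𝕜 := ℝ) (f := f) (C := h y')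
    (fun z _ => hf.differentiable one_ne_zero z) hdir hy hx1
  have hn : ‖x - y‖ ≤ 2 := by
    rw [Prod.norm_def]
    exact max_le (hnear y hy).1 (hnear y hy).2
  rw [Real.norm_eq_abs] at hmv
  nlinarith

/-- the discrepancy lemma for point evaluations, with a majorant `h` of the gradient -/
theorem disc2 : ∃ C : ℝ, 0 < C ∧ ∀ (K L : ℝ) {ι : Type} [Fintype ι] (X : ι → ℝ × ℝ), Reg K L X →
    ∀ f h : ℝ × ℝ → ℝ, ContDiff ℝ 1 f → Continuous h →
      (∀ z ∈ box L, ∀ x ∈ box L, |z.1 - x.1| ≤ 3 → |z.2 - x.2| ≤ 3 → gabs f z ≤ h x) →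
      |∑ i, f (X i) - (Fintype.card ι : ℝ) / L ^ 2 * ∫ y in box L, f y| ≤
        C * K ^ 2 * ∫ y in box L, h y := by
  obtain ⟨C, hC, hd⟩ := disc1
  refine ⟨C + 12, by linarith, fun K L ι _ X hX f h hf hh hfh => ?_⟩
  have hK := D1c_one hX
  have hL := hX.one_le
  have hh0 : ∀ x ∈ box L, 0 ≤ h x := fun x hx =>
    le_trans (add_nonneg (abs_nonneg _) (abs_nonneg _)) (hfh x hx x hx (by simp) (by simp))
  have h1 := hd K L X hX f hf
  have h2 := sum_av_le hX hh hh0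
  have h3 : ∫ y in box L, gabs f y ≤ ∫ y in box L, h y :=
    setIntegral_mono_on (D1c_intbox (D1c_gabs hf) L) (D1c_intbox hh L)
      (measurableSet_Icc.prod measurableSet_Icc) fun x hx => hfh x hx x hx (by simp) (by simp)
  have h4 : ∀ i, |f (X i) - av L f (X i)| ≤ 2 * av L h (X i) := by
    intro i
    have hx := hX.mem i
    have hc : Continuous fun y => 2 * h y := by fun_prop
    have hb : ∀ y' ∈ ssq L (X i), |f (X i) - av L f (X i)| ≤ 2 * h y' := by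
      intro y' hy'
      rw [abs_le]
      constructor
      · have : av L f (X i) ≤ av L (fun _ => f (X i) + 2 * h y') (X i) := by
          refine av_mono hL hf.continuous continuous_const hx fun y hy => ?_
          have := (abs_le.1 (D1c_near hL hf hfh hx hy hy')).1
          linarith
        rw [av_const hL _ hx] at this
        linarith
      · have : av L (fun _ => f (X i) - 2 * h y') (X i) ≤ av L f (X i) := by
          refine av_mono hL continuous_const hf.continuous hx fun y hy => ?_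
          have := (abs_le.1 (D1c_near hL hf hfh hx hy hy')).2
          linarith
        rw [av_const hL _ hx] at this
        linarith
    have h5 : av L (fun _ => |f (X i) - av L f (X i)|) (X i) ≤ av L (fun y => 2 * h y) (X i) :=
      av_mono hL continuous_const hc hx hb
    rw [av_const hL _ hx] at h5
    have h6 : av L (fun y => 2 * h y) (X i) = 2 * av L h (X i) := by
      unfold av
      rw [integral_const_mul]
      ring
    rw [h6] at h5
    exact h5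
  have h5 : |∑ i, f (X i) - ∑ i, av L f (X i)| ≤ 12 * K * ∫ y in box L, h y := by
    rw [← Finset.sum_sub_distrib]
    refine (Finset.abs_sum_le_sum_abs _ _).trans ?_
    refine (Finset.sum_le_sum fun i _ => h4 i).trans ?_
    rw [← Finset.mul_sum]
    linarith
  have hI : 0 ≤ ∫ y in box L, h y :=
    setIntegral_nonneg (measurableSet_Icc.prod measurableSet_Icc) hh0
  have h6 := (abs_add_le _ _).trans (add_le_add h5 h1)
  rw [sub_add_sub_cancel] at h6
  refine h6.trans ?_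
  have h7 : C * K ^ 2 * ∫ y in box L, gabs f y ≤ C * K ^ 2 * ∫ y in box L, h y :=
    mul_le_mul_of_nonneg_left h3 (by positivity)
  have h8 : 12 * K * ∫ y in box L, h y ≤ 12 * K ^ 2 * ∫ y in box L, h y := by
    apply mul_le_mul_of_nonneg_right _ hI
    nlinarith
  linarith

end Pool.Agent.Lib.H77M
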