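import Pool.Agent.Lib.H77M.B2
import Pool.Agent.Lib.H77M.D1

/-!
# Project H77M, chunk B4: (P1) and (P2) of PROOF.md
-/

open MeasureTheory Set ProbabilityTheory
open scoped ContDiff

namespace Pool.Agent.Lib.H77M

/-- (P1) -/
theorem psi_le {L : ℝ} (hL : 1 ≤ L) {ι : Type} [Fintype ι] {X : ι → ℝ × ℝ}
    (hX : ∀ i, X i ∈ hbox L) (ψ : ι → ℝ) (i : ι) : ψ i ≤ 4 - av L (upot X ψ) (X i) := by
  have h1 : av L (upot X ψ) (X i) ≤ av L (fun _ => 4 - ψ i) (X i) := by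
    refine av_mono hL (upot_cont X ψ) continuous_const (hX i) fun y hy => ?_
    obtain ⟨h2, h3⟩ := (ssq_spec hL (hX i)).2.2.1 y hy
    have h4 := upot_le X ψ i y
    have h5 : sqd (X i) y ≤ 8 := by
      unfold sqd
      have h6 : ((X i).1 - y.1) ^ 2 ≤ 2 ^ 2 := by
        rw [← sq_abs]
        exact pow_le_pow_left₀ (abs_nonneg _) h2 2
      have h7 : ((X i).2 - y.2) ^ 2 ≤ 2 ^ 2 := by
        rw [← sq_abs]
        exact pow_le_pow_left₀ (abs_nonneg _) h3 2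
      linarith
    linarith
  rw [av_const hL _ (hX i)] at h1
  linarith

/-- a dyadic side comparable to `d / 12` -/
theorem b4_level {L d : ℝ} (hL : 0 < L) (hd : 0 < d) (hdL : d ≤ 2 * L) :
    ∃ j : ℕ, L / 2 ^ j ≤ d / 12 ∧ d / 24 < L / 2 ^ j := by
  classical
  have hex : ∃ j : ℕ, L / 2 ^ j ≤ d / 12 := by
    obtain ⟨n, hn⟩ := pow_unbounded_of_one_lt (12 * L / d) (by norm_num : (1 : ℝ) < 2)
    refine ⟨n, ?_⟩
    rw [div_le_div_iff₀ (by positivity) (by norm_num)]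
    rw [div_lt_iff₀ hd] at hn
    linarith
  have h1 := Nat.find_spec hex
  have h2 : Nat.find hex ≠ 0 := by
    intro h0
    rw [h0] at h1
    norm_num at h1
    linarith
  obtain ⟨m, hm⟩ := Nat.exists_eq_succ_of_ne_zero h2
  have h3 : ¬ (L / 2 ^ m ≤ d / 12) := Nat.find_min hex (by omega)
  refine ⟨Nat.find hex, h1, ?_⟩
  rw [hm, pow_succ]
  push Not at h3
  have h4 : L / (2 ^ m * 2) = (L / 2 ^ m) / 2 := by
    rw [div_div]
  rw [h4]
  linarith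

theorem b4_cs (a b c d : ℝ) : (a * c + b * d) ^ 2 ≤ (a ^ 2 + b ^ 2) * (c ^ 2 + d ^ 2) := by
  have : (a ^ 2 + b ^ 2) * (c ^ 2 + d ^ 2) = (a * c + b * d) ^ 2 + (a * d - b * c) ^ 2 := by ring
  rw [this]
  have := sq_nonneg (a * d - b * c)
  linarith

theorem b4_mono {x0 y0 xi y : ℝ × ℝ} {u v : ℝ} (h6 : sqd xi y / 2 - u ≤ sqd x0 y / 2 - v)
    (h8 : sqd x0 y0 / 2 - v ≤ sqd xi y0 / 2 - u) :
    0 ≤ (xi.1 - x0.1) * (y.1 - y0.1) + (xi.2 - x0.2) * (y.2 - y0.2) := by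
  have h : (sqd x0 y - sqd xi y + sqd xi y0 - sqd x0 y0) / 2 =
      (xi.1 - x0.1) * (y.1 - y0.1) + (xi.2 - x0.2) * (y.2 - y0.2) := by
    unfold sqd
    ring
  rw [← h]
  linarith

theorem b4_fin1 {K s : ℝ} (h1 : 1 ≤ K) (h2 : 2 * K ≤ s) : K * s ≤ s ^ 2 / 2 := by nlinarith

theorem b4_fin2 {d2 c w : ℝ} (h0 : 0 < d2) (h1 : d2 / 1152 ≤ c) (h2 : c * (d2 / 16) ≤ w) :
    d2 / 136 ≤ √w := by
  apply Real.le_sqrt_of_sq_le
  have h3 : (d2 / 1152) * (d2 / 16) ≤ c * (d2 / 16) := mul_le_mul_of_nonneg_right h1 (by positivity)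
  have h4 : (d2 / 136) ^ 2 ≤ (d2 / 1152) * (d2 / 16) := by
    have h5 : (d2 / 1152) * (d2 / 16) = (d2 / 136) ^ 2 + d2 ^ 2 * (1 / 18432 - 1 / 18496) := by ring
    rw [h5]
    have : 0 ≤ d2 ^ 2 * (1 / 18432 - 1 / 18496) := by positivity
    linarith
  linarith

/-- the geometric estimate in (P2) -/
theorem b4_geo {x0 y0 xi y : ℝ × ℝ} {d2 : ℝ} (hd : sqd x0 y0 = d2) (hd0 : 0 < d2)
    (hxi1 : |xi.1 - (x0.1 + (y0.1 - x0.1) / 4)| ^ 2 ≤ d2 / 144)
    (hxi2 : |xi.2 - (x0.2 + (y0.2 - x0.2) / 4)| ^ 2 ≤ d2 / 144)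
    (hm : 0 ≤ (xi.1 - x0.1) * (y.1 - y0.1) + (xi.2 - x0.2) * (y.2 - y0.2)) :
    d2 / 16 ≤ sqd xi y := by
  rw [sq_abs] at hxi1 hxi2
  unfold sqd at *
  set e1 := y0.1 - x0.1 with he1
  set e2 := y0.2 - x0.2 with he2
  set a := xi.1 - (x0.1 + e1 / 4) with ha
  set b := xi.2 - (x0.2 + e2 / 4) with hb
  have hx1 : xi.1 - x0.1 = e1 / 4 + a := by rw [ha]; ring
  have hx2 : xi.2 - x0.2 = e2 / 4 + b := by rw [hb]; ring
  have hy1 : y.1 - y0.1 = (y.1 - xi.1) - (3 * e1 / 4 - a) := by rw [ha, he1]; ring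
  have hy2 : y.2 - y0.2 = (y.2 - xi.2) - (3 * e2 / 4 - b) := by rw [hb, he2]; ring
  rw [hx1, hx2, hy1, hy2] at hm
  have hde : e1 ^ 2 + e2 ^ 2 = d2 := by rw [← hd, he1, he2]; ring
  have hgoal : (xi.1 - y.1) ^ 2 + (xi.2 - y.2) ^ 2 = (y.1 - xi.1) ^ 2 + (y.2 - xi.2) ^ 2 := by ring
  rw [hgoal]
  generalize y.1 - xi.1 = p at *
  generalize y.2 - xi.2 = q at *
  have hab : a ^ 2 + b ^ 2 ≤ d2 / 72 := by linarith
  -- inner product of `η` and `e`
  have hcs : (a * e1 + b * e2) ^ 2 ≤ (d2 / 8) ^ 2 := by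
    have h1 : (a * e1 + b * e2) ^ 2 ≤ (a ^ 2 + b ^ 2) * (e1 ^ 2 + e2 ^ 2) := b4_cs _ _ _ _
    have h2 : (a ^ 2 + b ^ 2) * (e1 ^ 2 + e2 ^ 2) ≤ (d2 / 72) * d2 := by
      rw [hde]
      exact mul_le_mul_of_nonneg_right hab hd0.le
    have h3 : (d2 / 72) * d2 ≤ (d2 / 8) ^ 2 := by
      have : (d2 / 8) ^ 2 = (d2 / 72) * d2 + d2 ^ 2 / 576 := by ring
      rw [this]
      have := sq_nonneg d2
      linarith
    linarith
  have hcs2 : -(d2 / 8) ≤ a * e1 + b * e2 ∧ a * e1 + b * e2 ≤ d2 / 8 :=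
    abs_le_of_sq_le_sq' hcs (by positivity)
  -- lower bound of `⟨v, y - x_i⟩`
  have h3 : 7 / 64 * d2 ≤ (e1 / 4 + a) * p + (e2 / 4 + b) * q := by
    have h4 : (e1 / 4 + a) * (3 * e1 / 4 - a) + (e2 / 4 + b) * (3 * e2 / 4 - b) =
        3 / 16 * d2 + (a * e1 + b * e2) / 2 - (a ^ 2 + b ^ 2) := by
      rw [← hde]; ring
    have h5 : (e1 / 4 + a) * (p - (3 * e1 / 4 - a)) + (e2 / 4 + b) * (q - (3 * e2 / 4 - b)) =
        (e1 / 4 + a) * p + (e2 / 4 + b) * q -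
          ((e1 / 4 + a) * (3 * e1 / 4 - a) + (e2 / 4 + b) * (3 * e2 / 4 - b)) := by ring
    rw [h5, h4] at hm
    linarith [hcs2.1]
  have h6 : (e1 / 4 + a) ^ 2 + (e2 / 4 + b) ^ 2 ≤ 9 / 64 * d2 := by
    have : (e1 / 4 + a) ^ 2 + (e2 / 4 + b) ^ 2 =
        d2 / 16 + (a * e1 + b * e2) / 2 + (a ^ 2 + b ^ 2) := by
      rw [← hde]; ring
    rw [this]
    linarith [hcs2.2]
  have h7 : (7 / 64 * d2) ^ 2 ≤ (9 / 64 * d2) * (p ^ 2 + q ^ 2) := by
    have h8 : (7 / 64 * d2) ^ 2 ≤ ((e1 / 4 + a) * p + (e2 / 4 + b) * q) ^ 2 :=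
      pow_le_pow_left₀ (by positivity) h3 2
    have h9 : ((e1 / 4 + a) * p + (e2 / 4 + b) * q) ^ 2 ≤
        ((e1 / 4 + a) ^ 2 + (e2 / 4 + b) ^ 2) * (p ^ 2 + q ^ 2) := b4_cs _ _ _ _
    have h10 : ((e1 / 4 + a) ^ 2 + (e2 / 4 + b) ^ 2) * (p ^ 2 + q ^ 2) ≤
        (9 / 64 * d2) * (p ^ 2 + q ^ 2) := mul_le_mul_of_nonneg_right h6 (by positivity)
    linarith
  have h11 : d2 * (49 / 4096 * d2) ≤ d2 * (9 / 64 * (p ^ 2 + q ^ 2)) := by
    calc d2 * (49 / 4096 * d2) = (7 / 64 * d2) ^ 2 := by ring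
      _ ≤ (9 / 64 * d2) * (p ^ 2 + q ^ 2) := h7
      _ = d2 * (9 / 64 * (p ^ 2 + q ^ 2)) := by ring
  have h12 := le_of_mul_le_mul_left h11 hd0
  linarith

/-- (P2). Monotonicity: `⟨y - y₀, x_i - x_0⟩ ≥ 0` for `T y = i`, `T y₀ = 0`. If `d = |x_0 - y_0|` is
at least `C K`, the `≥ c d ^ 2` points `x_i` in a dyadic square of side `≈ c d` near
`x_0 + (y_0 - x_0) / 4` all travel at least `d / 2`. -/
theorem DM : ∃ C : ℝ, 0 < C ∧ ∀ (K L : ℝ) {ι : Type} [Fintype ι] (X : ι → ℝ × ℝ)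
    (r : ℝ × ℝ → ℝ) (ψ : ι → ℝ) (T : ℝ × ℝ → ι), Reg K L X → Continuous r →
    (∀ y ∈ box L, 0 ≤ r y) → IsOpt L X r ψ T →
    ∀ y ∈ box L, sqd (X (T y)) y ≤ C * (K ^ 2 + √(W L X r)) := by
  refine ⟨2304, by norm_num, ?_⟩
  intro K L ι _ X r ψ T hreg hr hpos hopt y0 hy0
  have hL : 1 ≤ L := hreg.one_le
  have hLpos : 0 < L := by linarith
  have hK : 1 ≤ K := by
    have := hreg.log_le
    have h2 := Real.log_nonneg hL
    linarith
  set d2 := sqd (X (T y0)) y0 with hd2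
  have hd20 : 0 ≤ d2 := by rw [hd2]; unfold sqd; positivity
  have hWs : 0 ≤ √(W L X r) := Real.sqrt_nonneg _
  by_cases hbig : d2 ≤ (48 * K) ^ 2
  · have h1 : (48 * K) ^ 2 = 2304 * K ^ 2 := by ring
    linarith
  push Not at hbig
  set d := √d2 with hd
  have hdd : d ^ 2 = d2 := Real.sq_sqrt hd20
  have hd0 : 0 ≤ d := Real.sqrt_nonneg _
  have hdK : 48 * K < d := by
    by_contra hcon
    push Not at hcon
    have : d ^ 2 ≤ (48 * K) ^ 2 := pow_le_pow_left₀ hd0 hcon 2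
    linarith
  have hdpos : 0 < d := by linarith
  have hd2pos : 0 < d2 := by rw [← hdd]; positivity
  have hx0 := hreg.mem (T y0)
  obtain ⟨⟨hx01, hx02⟩, ⟨hx03, hx04⟩⟩ := hx0
  obtain ⟨⟨hy01, hy02⟩, ⟨hy03, hy04⟩⟩ := hy0
  have hdL : d ≤ 2 * L := by
    have h1 : d2 ≤ (2 * L) ^ 2 := by
      rw [hd2]; unfold sqd
      have h2 : ((X (T y0)).1 - y0.1) ^ 2 ≤ L ^ 2 := by
        apply sq_le_sq'
        · linarith
        · linarith
      have h3 : ((X (T y0)).2 - y0.2) ^ 2 ≤ L ^ 2 := by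
        apply sq_le_sq'
        · linarith
        · linarith
      have h5 : (2 * L) ^ 2 = L ^ 2 + L ^ 2 + 2 * L ^ 2 := by ring
      have h6 : 0 ≤ L ^ 2 := sq_nonneg L
      linarith
    rw [← hdd] at h1
    exact le_of_sq_le_sq h1 (by positivity)
  obtain ⟨j, hj1, hj2⟩ := b4_level hLpos hdpos hdL
  set s := L / 2 ^ j with hs
  have hspos : 0 < s := by rw [hs]; positivity
  have hs2K : 2 * K ≤ s := by linarith
  have hs1 : 1 ≤ s := by linarith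
  have hLs : (2 : ℝ) ^ j * s = L := by
    rw [hs]; field_simp
  -- the point `z0`
  set z1 := (X (T y0)).1 + (y0.1 - (X (T y0)).1) / 4 with hz1
  set z2 := (X (T y0)).2 + (y0.2 - (X (T y0)).2) / 4 with hz2
  have hz1a : 0 ≤ z1 := by rw [hz1]; linarith
  have hz1b : z1 < L := by rw [hz1]; linarith
  have hz2a : 0 ≤ z2 := by rw [hz2]; linarith
  have hz2b : z2 < L := by rw [hz2]; linarith
  set a := ⌊z1 / s⌋₊ with ha
  set b := ⌊z2 / s⌋₊ with hb
  have ha1 : (a : ℝ) * s ≤ z1 := by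
    have := Nat.floor_le (show 0 ≤ z1 / s by positivity)
    rwa [le_div_iff₀ hspos] at this
  have ha2 : z1 < ((a : ℝ) + 1) * s := by
    have := Nat.lt_floor_add_one (z1 / s)
    rwa [div_lt_iff₀ hspos] at this
  have hb1 : (b : ℝ) * s ≤ z2 := by
    have := Nat.floor_le (show 0 ≤ z2 / s by positivity)
    rwa [le_div_iff₀ hspos] at this
  have hb2 : z2 < ((b : ℝ) + 1) * s := by
    have := Nat.lt_floor_add_one (z2 / s)
    rwa [div_lt_iff₀ hspos] at this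
  have ha3 : a < 2 ^ j := by
    have h1 : (a : ℝ) * s < 2 ^ j * s := by rw [hLs]; linarith
    have h2 := lt_of_mul_lt_mul_right h1 hspos.le
    exact_mod_cast h2
  have hb3 : b < 2 ^ j := by
    have h1 : (b : ℝ) * s < 2 ^ j * s := by rw [hLs]; linarith
    have h2 := lt_of_mul_lt_mul_right h1 hspos.le
    exact_mod_cast h2
  have hdisc := abs_le.1 (hreg.disc j a b ha3 hb3 hs1)
  have hcnt : s ^ 2 / 2 ≤ cnt X (sq L j a b) := by
    have h1 := hdisc.1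
    have h2 : K * (L / 2 ^ j) ≤ s ^ 2 / 2 := b4_fin1 hK hs2K
    rw [← hs] at h1 h2
    linarith
  -- the points in the square travel far
  have hfar : ∀ y, X (T y) ∈ sq L j a b → d2 / 16 ≤ sqd (X (T y)) y := by
    rintro y ⟨⟨h1, h2⟩, ⟨h3, h4⟩⟩
    rw [← hs] at h1 h2 h3 h4
    refine b4_geo (x0 := X (T y0)) (y0 := y0) (xi := X (T y)) hd2.symm hd2pos ?_ ?_ ?_
    · rw [← hz1]
      have h5 : |(X (T y)).1 - z1| ≤ s := by
        rw [abs_le]
        constructor <;> linarith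
      have h6 : |(X (T y)).1 - z1| ^ 2 ≤ s ^ 2 := pow_le_pow_left₀ (abs_nonneg _) h5 2
      have h7 : s ^ 2 ≤ (d / 12) ^ 2 := pow_le_pow_left₀ hspos.le hj1 2
      rw [← hdd]
      linarith [show (d / 12) ^ 2 = d ^ 2 / 144 by ring]
    · rw [← hz2]
      have h5 : |(X (T y)).2 - z2| ≤ s := by
        rw [abs_le]
        constructor <;> linarith
      have h6 : |(X (T y)).2 - z2| ^ 2 ≤ s ^ 2 := pow_le_pow_left₀ (abs_nonneg _) h5 2
      have h7 : s ^ 2 ≤ (d / 12) ^ 2 := pow_le_pow_left₀ hspos.le hj1 2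
      rw [← hdd]
      linarith [show (d / 12) ^ 2 = d ^ 2 / 144 by ring]
    · have h5 := hopt.eq y
      have h6 := upot_le X ψ (T y0) y
      have h7 := hopt.eq y0
      have h8 := upot_le X ψ (T y) y0
      rw [h5] at h6
      rw [h7] at h8
      exact b4_mono h6 h8
  -- lower bound of the cost
  have hcost := opt_cost hopt hr hpos
  classical
  set f : ι → ℝ := fun i => (sq L j a b).indicator (fun _ => (1 : ℝ)) (X i) * (d2 / 16) with hf
  have hsum : ∑ i, f i = cnt X (sq L j a b) * (d2 / 16) := by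
    rw [hf]
    simp only
    rw [← Finset.sum_mul]
    rfl
  have hint := opt_int hopt hr f
  have hle : ∫ y in box L, f (T y) * r y ≤ ∫ y in box L, sqd (X (T y)) y * r y := by
    have hI1 : IntegrableOn (fun y => f (T y) * r y) (box L) :=
      (opt_integrable hopt (F := fun i y => f i * r y) (fun i => continuous_const.mul hr)).2
    have hI2 : IntegrableOn (fun y => sqd (X (T y)) y * r y) (box L) :=
      (opt_integrable hopt (F := fun i y => sqd (X i) y * r y) (fun i => by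
        unfold sqd
        fun_prop)).2
    have hmb : MeasurableSet (box L) := by
      unfold box
      exact measurableSet_Icc.prod measurableSet_Icc
    refine setIntegral_mono_on hI1 hI2 hmb fun y hy => ?_
    refine mul_le_mul_of_nonneg_right ?_ (hpos y hy)
    rw [hf]
    simp only
    by_cases hmem : X (T y) ∈ sq L j a b
    · rw [indicator_of_mem hmem, one_mul]
      exact hfar y hmem
    · rw [indicator_of_notMem hmem, zero_mul]
      unfold sqd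
      positivity
  rw [hint, hsum, ← hcost] at hle
  have h1 : d2 / 1152 ≤ cnt X (sq L j a b) := by
    have h2 : (d / 24) ^ 2 ≤ s ^ 2 := pow_le_pow_left₀ (by positivity) hj2.le 2
    have h3 : (d / 24) ^ 2 = d2 / 576 := by rw [← hdd]; ring
    linarith
  have h3 : d2 / 136 ≤ √(W L X r) := b4_fin2 hd2pos h1 hle
  have h4 : 0 ≤ K ^ 2 := sq_nonneg K
  linarith

end Pool.Agent.Lib.H77M
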