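import Pool.Agent.Lib.H77M.A6
import Pool.Agent.Lib.H77M.A7
import Pool.Agent.Lib.H77M.D1

/-!
# Project H77M, chunk D2: the smoothed configuration, (D3) of PROOF.md
-/

open MeasureTheory Set ProbabilityTheory
open scoped ContDiff

namespace Pool.Agent.Lib.H77M

/-! ### auxiliary lemmas -/

theorem D2c_Ds_smooth {f : ℝ × ℝ → ℝ} (hf : ContDiff ℝ ∞ f) (l : List Bool) :
    ContDiff ℝ ∞ (Ds l f) := by
  induction l with
  | nil => exact hf
  | cons b l ih =>
    have e : Ds (b :: l) f = if b then D1 (Ds l f) else D2 (Ds l f) := rfl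
    rw [e]
    split_ifs
    · exact (D_smooth ih).1
    · exact (D_smooth ih).2.1

theorem D2c_sum {ι : Type} [Fintype ι] {g : ι → ℝ × ℝ → ℝ} (hg : ∀ i, ContDiff ℝ ∞ (g i))
    (l : List Bool) : Ds l (fun y => ∑ i, g i y) = fun y => ∑ i, Ds l (g i) y := by
  induction l with
  | nil => rfl
  | cons b l ih =>
    have e : ∀ f, Ds (b :: l) f = if b then D1 (Ds l f) else D2 (Ds l f) := fun _ => rfl
    simp only [e]
    rw [ih]
    have hs : ∀ i, Differentiable ℝ (Ds l (g i)) := fun i =>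
      (D2c_Ds_smooth (hg i) l).differentiable (by simp)
    have key : ∀ p, fderiv ℝ (fun y => ∑ i, Ds l (g i) y) p = ∑ i, fderiv ℝ (Ds l (g i)) p :=
      fun p => fderiv_fun_sum fun i _ => hs i p
    cases b
    · funext p
      simp only [Bool.false_eq_true, if_false, D2, key, sum_apply]
    · funext p
      simp only [if_true, D1, key, sum_apply]

theorem rho_EP {L s : ℝ} (hL : 0 < L) (hs : 0 < s) {ι : Type} [Fintype ι] (X : ι → ℝ × ℝ) :
    EP L (rho L s X) :=
  EP_sum fun i => p_EP hL hs (X i)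

theorem rho_pos {L s : ℝ} (hL : 0 < L) (hs : 0 < s) {ι : Type} [Fintype ι] [Nonempty ι]
    (X : ι → ℝ × ℝ) (y : ℝ × ℝ) : 0 < rho L s X y :=
  Finset.sum_pos (fun i _ => p_pos hL hs (X i) y) Finset.univ_nonempty

theorem int_mul_rho {L s : ℝ} (hL : 0 < L) (hs : 0 < s) {ι : Type} [Fintype ι] (X : ι → ℝ × ℝ)
    {f : ℝ × ℝ → ℝ} (hf : CP L f) : ∫ y in box L, f y * rho L s X y = ∑ i, P s f (X i) := by
  unfold rho
  simp only [Finset.mul_sum]
  rw [integral_finsetSum]
  · refine Finset.sum_congr rfl fun i _ => ?_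
    rw [← int_p hL hs hf]
    exact integral_congr_ae (Filter.Eventually.of_forall fun y => mul_comm _ _)
  · intro i _
    exact D1c_intbox (hf.cont.mul (p_EP hL hs (X i)).cont) L

theorem int_rho {L s : ℝ} (hL : 0 < L) (hs : 0 < s) {ι : Type} [Fintype ι] (X : ι → ℝ × ℝ) :
    ∫ y in box L, rho L s X y = Fintype.card ι := by
  have h := int_mul_rho hL hs X (CP_const L 1)
  simp only [one_mul, P_const, Finset.sum_const, Finset.card_univ, nsmul_eq_mul, mul_one] at h
  exact h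

theorem D2c_int_p {L s : ℝ} (hL : 0 < L) (hs : 0 < s) (x : ℝ × ℝ) :
    ∫ y in box L, p L s x y = 1 := by
  have h := int_p hL hs (CP_const L 1) x
  simp only [mul_one, P_const] at h
  exact h

theorem D2c_P_dom : ∃ C : ℝ, 0 < C ∧ ∀ (L t : ℝ), 0 < L → 1 ≤ t → ∀ g : ℝ × ℝ → ℝ, CP L g →
    (∀ y, 0 ≤ g y) → ∀ z x : ℝ × ℝ, |z.1 - x.1| ≤ 3 → |z.2 - x.2| ≤ 3 →
      P t g z ≤ C * P (4 * t) g x := by
  obtain ⟨C, hC, h⟩ := p_dom
  refine ⟨C, hC, fun L t hL ht g hg hg0 z x h1 h2 => ?_⟩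
  have ht0 : 0 < t := by linarith
  rw [← int_p hL ht0 hg, ← int_p hL (by linarith : 0 < 4 * t) hg, ← integral_const_mul]
  apply setIntegral_mono_on
  · exact D1c_intbox ((p_EP hL ht0 z).cont.mul hg.cont) L
  · exact D1c_intbox (((p_EP hL (by linarith : 0 < 4 * t) x).cont.mul hg.cont).const_mul C) L
  · exact measurableSet_Icc.prod measurableSet_Icc
  · intro y _
    have h3 := h L t hL ht [] [] (by simp) (by simp) z x y h1 h2
    have h4 : (t : ℝ) ^ (-((([] : List Bool).length + ([] : List Bool).length : ℕ) : ℝ) / 2) = 1 := by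
      simp
    rw [h4, mul_one] at h3
    have h5 : p L t z y ≤ C * p L (4 * t) x y := le_trans (le_abs_self _) h3
    have h6 := mul_le_mul_of_nonneg_right h5 (hg0 y)
    linarith

/-- (D3) for `EP` functions: use `disc2` for `P t f`, whose gradient near `x` is at most
`C * P (4 t) (gabs f) x` -/
theorem disc_P : ∃ C : ℝ, 0 < C ∧ ∀ (K L : ℝ) {ι : Type} [Fintype ι] (X : ι → ℝ × ℝ), Reg K L X →
    ∀ f : ℝ × ℝ → ℝ, EP L f → ∀ t : ℝ, 1 ≤ t →
      |∑ i, P t f (X i) - (Fintype.card ι : ℝ) / L ^ 2 * ∫ y in box L, f y| ≤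
        C * K ^ 2 * ∫ y in box L, gabs f y := by
  obtain ⟨C1, hC1, h1⟩ := disc2
  obtain ⟨C2, hC2, h2⟩ := D2c_P_dom
  refine ⟨C1 * C2, mul_pos hC1 hC2, fun K L ι _ X hX f hf t ht => ?_⟩
  have hL : 0 < L := by linarith [hX.one_le]
  have ht0 : 0 < t := by linarith
  have hg := CP_gabs hf
  have h3 := h1 K L X hX (P t f) (fun x => C2 * P (4 * t) (gabs f) x)
    ((P_EP hL ht0 hf.toCP).smooth.of_le (by exact_mod_cast le_top))
    (continuous_const.mul (P_CP hL (by linarith) hg).cont)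
    (fun z _ x _ h4 h5 => (gabs_P_le hL ht0.le hf z).trans
      (h2 L t hL ht (gabs f) hg (fun y => add_nonneg (abs_nonneg _) (abs_nonneg _)) z x h4 h5))
  rw [int_P hL ht0.le hf.toCP, integral_const_mul, int_P hL (by linarith) hg] at h3
  calc _ ≤ C1 * K ^ 2 * (C2 * ∫ x in box L, gabs f x) := h3
    _ = _ := by ring

/-- (D3) for the kernel: `disc2` for `v ↦ Ds l (p L s v) y` -/
theorem rho_bd : ∃ C : ℝ, 0 < C ∧ ∀ (K L : ℝ) {ι : Type} [Fintype ι] (X : ι → ℝ × ℝ), Reg K L X →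
    ∀ s : ℝ, 1 ≤ s → ∀ l : List Bool, l.length ≤ 2 → ∀ y,
      |Ds l (rho L s X) y - (if l = [] then (Fintype.card ι : ℝ) / L ^ 2 else 0)| ≤
        C * K ^ 2 * s ^ (-((1 + l.length : ℕ) : ℝ) / 2) := by
  obtain ⟨C1, hC1, h1⟩ := disc2
  obtain ⟨C2, hC2, h2⟩ := p_dom
  refine ⟨C1 * (2 * C2), by positivity, fun K L ι _ X hX s hs l hl y => ?_⟩
  have hL : 0 < L := by linarith [hX.one_le]
  have hs0 : 0 < s := by linarith
  have hs4 : 0 < 4 * s := by linarith
  obtain ⟨hsm, hint⟩ := Dp_int hL hs0 l hl y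
  set e : ℝ := s ^ (-((1 + l.length : ℕ) : ℝ) / 2) with he
  have h3 := h1 K L X hX (fun v => Ds l (p L s v) y) (fun x => 2 * C2 * e * p L (4 * s) y x)
    (hsm.of_le (by exact_mod_cast le_top))
    (continuous_const.mul (p_EP hL hs4 y).cont)
    (fun z _ x _ h4 h5 => by
      have h6 := h2 L s hL hs l [true] hl (by simp) z x y h4 h5
      have h7 := h2 L s hL hs l [false] hl (by simp) z x y h4 h5
      have e1 : s ^ (-((l.length + [true].length : ℕ) : ℝ) / 2) = e := by
        rw [he, List.length_singleton, add_comm]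
      have e2 : s ^ (-((l.length + [false].length : ℕ) : ℝ) / 2) = e := by
        rw [he, List.length_singleton, add_comm]
      rw [e1, p_symm hL hs4] at h6
      rw [e2, p_symm hL hs4] at h7
      have h8 : |D1 (fun v => Ds l (p L s v) y) z| ≤ C2 * e * p L (4 * s) y x := h6
      have h9 : |D2 (fun v => Ds l (p L s v) y) z| ≤ C2 * e * p L (4 * s) y x := h7
      unfold gabs
      linarith)
  rw [hint, integral_const_mul, D2c_int_p hL hs4, mul_one] at h3
  have h4 : Ds l (rho L s X) y = ∑ i, Ds l (p L s (X i)) y :=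
    congrFun (D2c_sum (fun i => (p_EP hL hs0 (X i)).smooth) l) y
  have h5 : (Fintype.card ι : ℝ) / L ^ 2 * (if l = [] then 1 else 0) =
      if l = [] then (Fintype.card ι : ℝ) / L ^ 2 else 0 := by
    split_ifs <;> simp
  rw [h4, ← h5]
  calc _ ≤ C1 * K ^ 2 * (2 * C2 * e) := h3
    _ = _ := by ring

theorem D2c_P_rho {L s r : ℝ} (hL : 0 < L) (hs : 0 < s) (hr : 0 ≤ r) {ι : Type} [Fintype ι]
    (X : ι → ℝ × ℝ) : P r (rho L s X) = rho L (s + r) X := by
  funext x
  have h1 : P r (rho L s X) x = ∑ i, P r (p L s (X i)) x := by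
    unfold P rho
    rw [integral_finsetSum]
    intro i _
    obtain ⟨M, -, hM⟩ := CP_bdd hL (p_EP hL hs (X i)).toCP
    exact P_int (p_EP hL hs (X i)).cont hM x
  rw [h1]
  unfold rho
  exact Finset.sum_congr rfl fun i _ => congrFun (P_p hL hs hr (X i)) x

theorem D2c_sqrt {s : ℝ} (hs : 0 < s) (n : ℕ) : s ^ (-(n : ℝ) / 2) = (1 / √s) ^ n := by
  rw [Real.sqrt_eq_rpow, one_div, ← Real.rpow_neg hs.le, ← Real.rpow_natCast, ← Real.rpow_mul hs.le]
  congr 1
  ring

theorem D2c_sub_const {f : ℝ × ℝ → ℝ} (c : ℝ) :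
    D1 (fun y => f y - c) = D1 f ∧ D2 (fun y => f y - c) = D2 f := by
  constructor
  · funext y
    unfold D1
    rw [fderiv_sub_const]
  · funext y
    unfold D2
    rw [fderiv_sub_const]

/-- large times -/
theorem rho_large : ∃ c C : ℝ, 0 < c ∧ 0 < C ∧ ∀ (K L : ℝ) {ι : Type} [Fintype ι]
    (X : ι → ℝ × ℝ), Reg K L X → ∀ s : ℝ, L ^ 2 ≤ s → ∀ l : List Bool, l.length ≤ 2 → ∀ y,
      |Ds l (rho L s X) y - (if l = [] then (Fintype.card ι : ℝ) / L ^ 2 else 0)| ≤
        C * K ^ 2 * (1 / L) ^ (1 + l.length) * Real.exp (-c * (s / L ^ 2)) := by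
  obtain ⟨C1, hC1, h1⟩ := rho_bd
  obtain ⟨c, C2, hc, hC2, h2⟩ := mixing
  -- the case `l = []`
  have key0 : ∀ (K L : ℝ) {ι : Type} [Fintype ι] (X : ι → ℝ × ℝ), Reg K L X → ∀ s : ℝ, L ^ 2 ≤ s →
      ∀ y, |rho L s X y - (Fintype.card ι : ℝ) / L ^ 2| ≤
        (2 * C1 * C2 * Real.exp c) * K ^ 2 * (1 / L) * Real.exp (-c * (s / L ^ 2)) := by
    intro K L ι _ X hX s hs y
    have hL1 := hX.one_le
    have hL : 0 < L := by linarith
    have hL2 : 1 ≤ L ^ 2 := by nlinarith
    have hL20 : 0 < L ^ 2 := by positivity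
    have h3 : ∀ x, |rho L (L ^ 2) X x - (Fintype.card ι : ℝ) / L ^ 2| ≤ C1 * K ^ 2 * (1 / L) := by
      intro x
      have h4 := h1 K L X hX (L ^ 2) hL2 [] (by simp) x
      rw [D2c_sqrt hL20, Real.sqrt_sq hL.le] at h4
      simp only [if_true, List.length_nil, add_zero, pow_one] at h4
      exact h4
    have h5 := h2 L hL (rho L (L ^ 2) X) (rho_EP hL hL20 X).toCP (2 * (C1 * K ^ 2 * (1 / L)))
      (fun x x' => by
        have := (abs_le.1 (h3 x)).2
        have := (abs_le.1 (h3 x')).1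
        linarith) (s - L ^ 2) (by linarith) y
    rw [D2c_P_rho hL hL20 (by linarith), int_rho hL hL20, add_sub_cancel] at h5
    refine h5.trans (le_of_eq ?_)
    have h6 : -c * ((s - L ^ 2) / L ^ 2) = c + -c * (s / L ^ 2) := by
      field_simp
      ring
    rw [h6, Real.exp_add]
    ring
  -- the constant
  set A := 2 * C1 * C2 * Real.exp c with hA
  have hA0 : 0 < A := by positivity
  set C := (2 * A * Real.exp c + C1 * Real.exp (2 * c)) with hCdef
  have he1 : 1 ≤ Real.exp c := Real.one_le_exp hc.le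
  refine ⟨c, C, hc, by positivity, fun K L ι _ X hX s hs l hl y => ?_⟩
  have hL1 := hX.one_le
  have hL : 0 < L := by linarith
  have hL2 : 1 ≤ L ^ 2 := by nlinarith
  have hL20 : 0 < L ^ 2 := by positivity
  have hK := D1c_one hX
  have hexp : 0 < Real.exp (-c * (s / L ^ 2)) := Real.exp_pos _
  by_cases hs2 : 2 * L ^ 2 ≤ s
  · -- large
    have h3 : ∀ x, |rho L (s - L ^ 2) X x - (Fintype.card ι : ℝ) / L ^ 2| ≤
        A * Real.exp c * K ^ 2 * (1 / L) * Real.exp (-c * (s / L ^ 2)) := by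
      intro x
      refine (key0 K L X hX (s - L ^ 2) (by linarith) x).trans (le_of_eq ?_)
      have h6 : -c * ((s - L ^ 2) / L ^ 2) = c + -c * (s / L ^ 2) := by
        field_simp
        ring
      rw [h6, Real.exp_add]
      ring
    set M := A * Real.exp c * K ^ 2 * (1 / L) * Real.exp (-c * (s / L ^ 2)) with hM
    have hM0 : 0 ≤ M := by positivity
    set g : ℝ × ℝ → ℝ := fun x => rho L (s - L ^ 2) X x - (Fintype.card ι : ℝ) / L ^ 2 with hg
    have hsL : 0 < s - L ^ 2 := by linarith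
    have hgEP : EP L g := EP_sub (rho_EP hL hsL X) (EP_const L _)
    have hPg : P (L ^ 2) g = fun x => rho L s X x - (Fintype.card ι : ℝ) / L ^ 2 := by
      funext x
      have h4 := P_add (L ^ 2) hL (rho_EP hL hsL X).toCP
        (CP_const L (-((Fintype.card ι : ℝ) / L ^ 2))) x
      rw [D2c_P_rho hL hsL (by linarith), P_const, sub_add_cancel] at h4
      simp only [← sub_eq_add_neg] at h4
      exact h4
    have hgr := Grad_P hL hL20 hgEP.toCP h3
    have hhe := Hess_P hL hL20 hgEP.toCP h3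
    rw [hPg, Real.sqrt_sq hL.le] at hgr
    rw [hPg] at hhe
    obtain ⟨d1, d2⟩ := D2c_sub_const (f := rho L s X) ((Fintype.card ι : ℝ) / L ^ 2)
    have hCA : A * Real.exp c ≤ C := by
      rw [hCdef]
      have : 0 < C1 * Real.exp (2 * c) := by positivity
      have : 0 < A * Real.exp c := by positivity
      linarith
    have hCA2 : 2 * (A * Real.exp c) ≤ C := by
      rw [hCdef]
      have : 0 < C1 * Real.exp (2 * c) := by positivity
      linarith
    match l, hl with
    | [], _ =>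
      have h4 := (key0 K L X hX s hs y)
      simp only [if_true, List.length_nil, add_zero, pow_one]
      refine h4.trans ?_
      have : A ≤ C := le_trans (by nlinarith) hCA
      gcongr
    | [b], _ =>
      have h5 : |Ds [b] (rho L s X) y| ≤ M / L := by
        cases b
        · have := (hgr y).2
          rw [d2] at this
          exact this
        · have := (hgr y).1
          rw [d1] at this
          exact this
      simp only [List.cons_ne_nil, if_false, sub_zero, List.length_singleton]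
      refine h5.trans ?_
      have h6 : M / L = A * Real.exp c * K ^ 2 * (1 / L) ^ 2 * Real.exp (-c * (s / L ^ 2)) := by
        rw [hM]
        field_simp
      rw [h6]
      gcongr
    | [b, b'], _ =>
      have h5 : |Ds [b, b'] (rho L s X) y| ≤ 2 * M / L ^ 2 := by
        obtain ⟨g1, g2, g3, g4⟩ := hhe y
        rw [d1] at g1 g3
        rw [d2] at g2 g4
        cases b <;> cases b'
        · exact g4
        · exact g3
        · exact g2
        · exact g1
      have h7 : ([b, b'] : List Bool).length = 2 := rfl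
      simp only [List.cons_ne_nil, if_false, sub_zero, h7]
      refine h5.trans ?_
      have h6 : 2 * M / L ^ 2 =
          2 * (A * Real.exp c) * K ^ 2 * (1 / L) ^ (1 + 2) * Real.exp (-c * (s / L ^ 2)) := by
        have h8 : (1 / L) ^ (1 + 2) = 1 / L ^ 3 := by
          rw [show 1 + 2 = 3 from rfl, div_pow, one_pow]
        rw [hM, h8]
        field_simp
      rw [h6]
      gcongr
  · -- intermediate
    push Not at hs2
    have hs0 : 0 < s := by linarith
    refine (h1 K L X hX s (by linarith) l hl y).trans ?_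
    rw [D2c_sqrt hs0]
    have h3 : 1 / √s ≤ 1 / L := by
      apply one_div_le_one_div_of_le hL
      exact Real.le_sqrt_of_sq_le hs
    have h4 : (1 / √s) ^ (1 + l.length) ≤ (1 / L) ^ (1 + l.length) :=
      pow_le_pow_left₀ (by positivity) h3 _
    have h5 : 1 ≤ Real.exp (2 * c) * Real.exp (-c * (s / L ^ 2)) := by
      rw [← Real.exp_add]
      apply Real.one_le_exp
      have : s / L ^ 2 ≤ 2 := by
        rw [div_le_iff₀ hL20]
        exact hs2.le
      nlinarith
    have h6 : C1 * Real.exp (2 * c) ≤ C := by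
      rw [hCdef]
      have : 0 < 2 * A * Real.exp c := by positivity
      linarith
    calc C1 * K ^ 2 * (1 / √s) ^ (1 + l.length) ≤ C1 * K ^ 2 * (1 / L) ^ (1 + l.length) := by
          gcongr
      _ ≤ C1 * K ^ 2 * (1 / L) ^ (1 + l.length) *
          (Real.exp (2 * c) * Real.exp (-c * (s / L ^ 2))) :=
          le_mul_of_one_le_right (by positivity) h5
      _ = C1 * Real.exp (2 * c) * K ^ 2 * (1 / L) ^ (1 + l.length) *
          Real.exp (-c * (s / L ^ 2)) := by ring
      _ ≤ C * K ^ 2 * (1 / L) ^ (1 + l.length) * Real.exp (-c * (s / L ^ 2)) := by gcongr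

/-- the smoothed configuration is close to `1` -/
theorem rho_near : ∃ C : ℝ, 0 < C ∧ ∀ (K L : ℝ) {ι : Type} [Fintype ι] (X : ι → ℝ × ℝ), Reg K L X →
    ∀ s : ℝ, 1 ≤ s → s ≤ L ^ 2 → ∀ y, |rho L s X y - 1| ≤ C * K ^ 2 / √s ∧
      |rho L s X y - (Fintype.card ι : ℝ) / L ^ 2| ≤ C * K ^ 2 / √s := by
  obtain ⟨C, hC, h⟩ := rho_bd
  refine ⟨C + 1, by linarith, fun K L ι _ X hX s hs hsL y => ?_⟩
  have hL1 := hX.one_le
  have hL : 0 < L := by linarith
  have hL20 : 0 < L ^ 2 := by positivity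
  have hK := D1c_one hX
  have hs0 : 0 < s := by linarith
  have hss : 0 < √s := Real.sqrt_pos.2 hs0
  have h1 : |rho L s X y - (Fintype.card ι : ℝ) / L ^ 2| ≤ C * K ^ 2 / √s := by
    have h2 := h K L X hX s hs [] (by simp) y
    rw [D2c_sqrt hs0] at h2
    simp only [if_true, List.length_nil, add_zero, pow_one] at h2
    have e : C * K ^ 2 * (1 / √s) = C * K ^ 2 / √s := by ring
    rw [← e]
    exact h2
  have h2 : |(Fintype.card ι : ℝ) / L ^ 2 - 1| ≤ K ^ 2 / √s := by
    have h3 := Reg_card hX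
    have e : (Fintype.card ι : ℝ) / L ^ 2 - 1 = ((Fintype.card ι : ℝ) - L ^ 2) / L ^ 2 := by
      field_simp
    rw [e, abs_div, abs_of_pos hL20, div_le_div_iff₀ hL20 hss]
    have h4 : √s ≤ L := (Real.sqrt_le_left hL.le).2 hsL
    calc |(Fintype.card ι : ℝ) - L ^ 2| * √s ≤ K * L * L :=
          mul_le_mul h3 h4 hss.le (by positivity)
      _ = K * L ^ 2 := by ring
      _ ≤ K ^ 2 * L ^ 2 := by
          apply mul_le_mul_of_nonneg_right _ hL20.le
          nlinarith
  constructor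
  · have h3 := (abs_add_le _ _).trans (add_le_add h1 h2)
    rw [sub_add_sub_cancel] at h3
    refine h3.trans (le_of_eq ?_)
    ring
  · refine h1.trans ?_
    apply div_le_div_of_nonneg_right _ hss.le
    nlinarith [sq_nonneg K]

/-- `1 / 2 ≤ rho ≤ 2` -/
theorem rho_two : ∃ K0 : ℝ, 1 ≤ K0 ∧ ∀ (K L : ℝ) {ι : Type} [Fintype ι] (X : ι → ℝ × ℝ),
    Reg K L X → K0 ≤ K → ∀ s : ℝ, K ^ 8 ≤ s → s ≤ L ^ 2 → ∀ y,
      1 / 2 ≤ rho L s X y ∧ rho L s X y ≤ 2 := by
  obtain ⟨C, hC, h⟩ := rho_near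
  refine ⟨1 + 2 * C, by linarith, fun K L ι _ X hX hK s hs hsL y => ?_⟩
  have hK1 : 1 ≤ K := by linarith
  have hK8 : 1 ≤ K ^ 8 := one_le_pow₀ hK1
  have h1 := (h K L X hX s (hK8.trans hs) hsL y).1
  have h2 : K ^ 4 ≤ √s := by
    apply Real.le_sqrt_of_sq_le
    calc (K ^ 4) ^ 2 = K ^ 8 := by ring
      _ ≤ s := hs
  have hss : 0 < √s := Real.sqrt_pos.2 (by linarith)
  have h3 : C * K ^ 2 / √s ≤ 1 / 2 := by
    rw [div_le_iff₀ hss]
    have h4 : 2 * C ≤ K ^ 2 := by nlinarith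
    have h5 : C * K ^ 2 ≤ 1 / 2 * K ^ 4 := by nlinarith [sq_nonneg K]
    linarith
  have h4 := abs_le.1 (h1.trans h3)
  constructor
  · linarith [h4.1]
  · linarith [h4.2]

/-- `1 / 2 ≤ N / L ^ 2 ≤ 2` -/
theorem lam_two {K L : ℝ} {ι : Type} [Fintype ι] {X : ι → ℝ × ℝ} (h : Reg K L X)
    (hK : 2 * K ≤ L) : 1 / 2 ≤ (Fintype.card ι : ℝ) / L ^ 2 ∧ (Fintype.card ι : ℝ) / L ^ 2 ≤ 2 := by
  have hL : 0 < L := by linarith [h.one_le]
  have hL20 : 0 < L ^ 2 := by positivity
  have h1 := abs_le.1 (Reg_card h)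
  have h2 : K * L ≤ 1 / 2 * L ^ 2 := by nlinarith
  constructor
  · rw [le_div_iff₀ hL20]
    linarith [h1.1]
  · rw [div_le_iff₀ hL20]
    nlinarith [h1.2]

end Pool.Agent.Lib.H77M
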