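import Pool.Agent.Lib.H77M.B1
import Pool.Agent.Lib.H77M.B3
import Pool.Agent.Lib.H77M.B4
import Pool.Agent.Lib.H77M.D2

/-!
# Project H77M, chunk B5: (P3) of PROOF.md
-/

open MeasureTheory Set ProbabilityTheory
open scoped ContDiff

namespace Pool.Agent.Lib.H77M

theorem b5_int_one {L : ℝ} (hL : 0 < L) (c : ℝ) : ∫ _ in box L, c = c * L ^ 2 := by
  rw [setIntegral_const, smul_eq_mul]
  unfold box
  rw [Measure.real, Measure.volume_eq_prod, Measure.prod_prod, Real.volume_Icc, sub_zero,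
    ENNReal.toReal_mul, ENNReal.toReal_ofReal hL.le]
  ring

theorem b5_pt (A a : ℝ) : A * |a| ≤ 4 * A ^ 2 + a ^ 2 / 16 := by
  have h := sq_nonneg (2 * A - |a| / 4)
  have h2 := sq_abs a
  nlinarith

theorem b5_core {K L C1 : ℝ} {ι : Type} [Fintype ι] [Nonempty ι] {X : ι → ℝ × ℝ}
    (hC1 : 0 ≤ C1) (hreg : Reg K L X) (hK : 1 ≤ K) {r : ℝ × ℝ → ℝ} (hr : Continuous r)
    (hr2 : ∀ y ∈ box L, 1 / 2 ≤ r y) (hmass : ∫ y in box L, r y = Fintype.card ι)
    (hN : (Fintype.card ι : ℝ) ≤ 2 * L ^ 2)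
    (hd : ∀ v : ℝ × ℝ → ℝ, EP L v →
      |∑ i, av L v (X i) - (Fintype.card ι : ℝ) / L ^ 2 * ∫ y in box L, v y| ≤
        C1 * K ^ 2 * ∫ y in box L, gabs v y)
    (he : ∀ v : ℝ × ℝ → ℝ, EP L v →
      |(∫ y in box L, v y * r y) - (Fintype.card ι : ℝ) / L ^ 2 * ∫ y in box L, v y| ≤
        C1 * K ^ 2 * ∫ y in box L, gabs v y) :
    W L X r ≤ (49 + 128 * C1 ^ 2) * K ^ 4 * L ^ 2 := by
  have hL1 : 1 ≤ L := hreg.one_le
  have hL : 0 < L := by linarith
  have hpos : ∀ y ∈ box L, 0 < r y := fun y hy => lt_of_lt_of_le (by norm_num) (hr2 y hy)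
  have hpos' : ∀ y ∈ box L, 0 ≤ r y := fun y hy => (hpos y hy).le
  obtain ⟨ψ, T, hopt, -⟩ := exists_opt hL hreg.inj hr hpos hmass
  obtain ⟨v, hv, hv1, hv2, -⟩ := smooth_pot hL hopt one_pos
  have hW := opt_dual hopt hr hpos'
  have hcost := opt_cost hopt hr hpos'
  have hvc : Continuous v := hv.toCP.cont
  have huc := upot_cont X ψ
  have hi : ∀ {f : ℝ × ℝ → ℝ}, Continuous f → IntegrableOn f (box L) := fun hf => B2_cont_int hf
  set I := ∫ y in box L, gabs v y with hI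
  set N : ℝ := (Fintype.card ι : ℝ) with hNdef
  -- (a), (b)
  have ha : ∀ i, ψ i ≤ 5 - av L v (X i) := by
    intro i
    have h1 := psi_le hL1 hreg.mem ψ i
    have hx := hreg.mem i
    have hsp := ssq_spec hL1 hx
    have h2 : av L (fun y => v y + (-1)) (X i) ≤ av L (upot X ψ) (X i) := by
      have hv' : Continuous (fun y => v y + (-1 : ℝ)) := by fun_prop
      apply av_mono hL1 hv' huc hx
      intro y hy
      have hyb : y ∈ box L := by
        have := hsp.2.1 hy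
        exact ⟨Ico_subset_Icc_self this.1, Ico_subset_Icc_self this.2⟩
      have := (abs_le.1 (hv1 y hyb)).2
      linarith
    rw [av_add hL1 hvc continuous_const hx, av_const hL1 (-1) hx] at h2
    linarith
  have hb : ∑ i, ψ i ≤ 5 * N - ∑ i, av L v (X i) := by
    calc ∑ i, ψ i ≤ ∑ i, (5 - av L v (X i)) := Finset.sum_le_sum fun i _ => ha i
      _ = _ := by
        rw [Finset.sum_sub_distrib, Finset.sum_const, Finset.card_univ, nsmul_eq_mul]
        ring
  -- (c)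
  have hc := (abs_le.1 (hd v hv)).1
  -- (d)
  have hdd : ∫ y in box L, upot X ψ y * r y ≤ (∫ y in box L, v y * r y) + N := by
    have i1 : IntegrableOn (fun y => v y * r y) (box L) := hi (hvc.mul hr)
    have i2 : IntegrableOn (fun y => upot X ψ y * r y) (box L) := hi (huc.mul hr)
    have i3 : IntegrableOn (fun y => v y * r y + r y) (box L) := i1.add (hi hr)
    rw [← hmass, ← integral_add i1 (hi hr)]
    apply setIntegral_mono_on i2 i3 (B2_meas_box L)
    intro y hy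
    have h1 := (abs_le.1 (hv1 y hy)).1
    have h2 := hpos' y hy
    nlinarith
  -- (e)
  have hee := (abs_le.1 (he v hv)).2
  -- (f)
  have hgabs : Continuous (gabs v) := (CP_gabs hv).cont
  have hcD1 := a2_cont_D1 (hv.smooth.of_le (by simp))
  have hcD2 := a2_cont_D2 (hv.smooth.of_le (by simp))
  have hf : (2 * C1 * K ^ 2) * I ≤ 8 * (2 * C1 * K ^ 2) ^ 2 * L ^ 2 + W L X r / 4 + 1 / 8 := by
    set A := 2 * C1 * K ^ 2 with hA
    have hE := (opt_integrable hopt (F := fun i y => (D1 v y - (y.1 - (X i).1)) ^ 2 +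
        (D2 v y - (y.2 - (X i).2)) ^ 2) (fun i => by fun_prop)).2
    have hS := (opt_integrable hopt (F := fun i y => sqd (X i) y * r y)
      (fun i => (B2_sqd_cont (X i)).mul hr)).2
    have j1 : IntegrableOn (fun y => sqd (X (T y)) y * r y / 4 +
        ((D1 v y - (y.1 - (X (T y)).1)) ^ 2 + (D2 v y - (y.2 - (X (T y)).2)) ^ 2) / 8) (box L) :=
      (hS.div_const 4).add (hE.div_const 8)
    have j0 : IntegrableOn (fun _ : ℝ × ℝ => 8 * A ^ 2) (box L) := hi continuous_const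
    have j2 : IntegrableOn (fun y => 8 * A ^ 2 + (sqd (X (T y)) y * r y / 4 +
        ((D1 v y - (y.1 - (X (T y)).1)) ^ 2 + (D2 v y - (y.2 - (X (T y)).2)) ^ 2) / 8)) (box L) :=
      j0.add j1
    have j3 : IntegrableOn (fun y => A * gabs v y) (box L) := (hi hgabs).const_mul A
    have h1 : A * I ≤ ∫ y in box L, (8 * A ^ 2 + (sqd (X (T y)) y * r y / 4 +
        ((D1 v y - (y.1 - (X (T y)).1)) ^ 2 + (D2 v y - (y.2 - (X (T y)).2)) ^ 2) / 8)) := by
      rw [hI, ← integral_const_mul]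
      apply setIntegral_mono_on j3 j2 (B2_meas_box L)
      intro y hy
      have e1 := b5_pt A (D1 v y)
      have e2 := b5_pt A (D2 v y)
      have e3 : D1 v y ^ 2 ≤ 2 * (y.1 - (X (T y)).1) ^ 2 + 2 * (D1 v y - (y.1 - (X (T y)).1)) ^ 2 := by
        nlinarith [sq_nonneg (D1 v y - 2 * (y.1 - (X (T y)).1))]
      have e4 : D2 v y ^ 2 ≤ 2 * (y.2 - (X (T y)).2) ^ 2 + 2 * (D2 v y - (y.2 - (X (T y)).2)) ^ 2 := by
        nlinarith [sq_nonneg (D2 v y - 2 * (y.2 - (X (T y)).2))]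
      have e5 : sqd (X (T y)) y ≤ 2 * (sqd (X (T y)) y * r y) := by
        have h0 := B2_sqd_nonneg (X (T y)) y
        have h1 := hr2 y hy
        nlinarith
      have e6 : sqd (X (T y)) y = (y.1 - (X (T y)).1) ^ 2 + (y.2 - (X (T y)).2) ^ 2 := by
        unfold sqd; ring
      unfold gabs
      rw [mul_add]
      nlinarith
    have h2 : ∫ y in box L, (8 * A ^ 2 + (sqd (X (T y)) y * r y / 4 +
        ((D1 v y - (y.1 - (X (T y)).1)) ^ 2 + (D2 v y - (y.2 - (X (T y)).2)) ^ 2) / 8)) =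
        8 * A ^ 2 * L ^ 2 + (W L X r / 4 + (∫ y in box L, ((D1 v y - (y.1 - (X (T y)).1)) ^ 2 +
          (D2 v y - (y.2 - (X (T y)).2)) ^ 2)) / 8) := by
      rw [integral_add j0 j1,
        integral_add (hS.div_const 4) (hE.div_const 8), b5_int_one hL, integral_div, integral_div,
        ← hcost]
    rw [h2] at h1
    linarith
  -- (g)
  have hK2 : 1 ≤ K ^ 2 := by nlinarith
  have hK4 : 1 ≤ K ^ 4 := by nlinarith
  have hL2 : 1 ≤ L ^ 2 := by nlinarith
  have g1 : W L X r / 2 ≤ 6 * N + 2 * C1 * K ^ 2 * I := by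
    rw [hW]
    linarith
  have g2 : W L X r ≤ 48 * L ^ 2 + 32 * (2 * C1 * K ^ 2) ^ 2 * L ^ 2 + 1 / 2 := by linarith
  have g3 : (2 * C1 * K ^ 2) ^ 2 = 4 * C1 ^ 2 * K ^ 4 := by ring
  rw [g3] at g2
  have g4 : L ^ 2 ≤ K ^ 4 * L ^ 2 := by nlinarith
  nlinarith

/-- (P3) for the constant density -/
theorem crude_one : ∃ C K0 : ℝ, 0 < C ∧ 1 ≤ K0 ∧ ∀ (K L : ℝ) {ι : Type} [Fintype ι]
    (X : ι → ℝ × ℝ), Reg K L X → K0 ≤ K → K ^ 4 ≤ L →
    W L X (fun _ => (Fintype.card ι : ℝ) / L ^ 2) ≤ C * K ^ 4 * L ^ 2 := by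
  obtain ⟨C1, hC1, h1⟩ := disc1
  refine ⟨49 + 128 * C1 ^ 2, 2, by positivity, by norm_num, fun K L ι _ X hreg hK hKL => ?_⟩
  have hL1 : 1 ≤ L := hreg.one_le
  have hL : 0 < L := by linarith
  have hK1 : 1 ≤ K := by linarith
  have h2K : 2 * K ≤ L := by
    have : K ^ 4 = K * K ^ 3 := by ring
    have h3 : 2 ≤ K ^ 3 := by nlinarith [sq_nonneg K, mul_self_nonneg (K - 2), mul_pos (show 0 < K by linarith) (show 0 < K by linarith)]
    nlinarith
  obtain ⟨hl1, hl2⟩ := lam_two hreg h2K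
  have hL2 : 0 < L ^ 2 := by positivity
  have hne : Nonempty ι := by
    by_contra hc
    rw [not_nonempty_iff] at hc
    have : Fintype.card ι = 0 := Fintype.card_eq_zero
    rw [this] at hl1
    norm_num at hl1
  have hN : (Fintype.card ι : ℝ) ≤ 2 * L ^ 2 := by
    rwa [div_le_iff₀ hL2] at hl2
  apply b5_core hC1.le hreg hK1 continuous_const (fun y _ => hl1) _ hN
  · intro v hv
    exact h1 K L X hreg v (hv.smooth.of_le (by simp))
  · intro v hv
    rw [integral_mul_const]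
    have e : (∫ y in box L, v y) * ((Fintype.card ι : ℝ) / L ^ 2) -
      (Fintype.card ι : ℝ) / L ^ 2 * ∫ y in box L, v y = 0 := by ring
    rw [e, abs_zero]
    have : 0 ≤ ∫ y in box L, gabs v y := integral_nonneg fun y => by unfold gabs; positivity
    positivity
  · rw [b5_int_one hL]
    field_simp

/-- (P3) for the smoothed configuration -/
theorem crude_rho : ∃ C K0 : ℝ, 0 < C ∧ 1 ≤ K0 ∧ ∀ (K L : ℝ) {ι : Type} [Fintype ι]
    (X : ι → ℝ × ℝ), Reg K L X → K0 ≤ K → ∀ t : ℝ, K ^ 8 ≤ t → t ≤ L ^ 2 →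
    W L X (rho L t X) ≤ C * K ^ 4 * L ^ 2 := by
  obtain ⟨C1, hC1, h1⟩ := disc1
  obtain ⟨C2, hC2, h2⟩ := disc_P
  obtain ⟨K0, hK0, h3⟩ := rho_two
  refine ⟨49 + 128 * (C1 + C2) ^ 2, max K0 2, by positivity, le_max_of_le_left hK0,
    fun K L ι _ X hreg hK t ht1 ht2 => ?_⟩
  have hKK0 : K0 ≤ K := (le_max_left _ _).trans hK
  have hK2 : 2 ≤ K := (le_max_right _ _).trans hK
  have hL1 : 1 ≤ L := hreg.one_le
  have hL : 0 < L := by linarith
  have hK1 : 1 ≤ K := by linarith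
  have ht : 1 ≤ t := (one_le_pow₀ hK1).trans ht1
  have ht0 : 0 < t := by linarith
  have h2K : 2 * K ≤ L := by
    have e1 : K ^ 4 ≤ L := by
      have : (K ^ 4) ^ 2 ≤ L ^ 2 := by
        calc (K ^ 4) ^ 2 = K ^ 8 := by ring
          _ ≤ L ^ 2 := ht1.trans ht2
      exact (pow_le_pow_iff_left₀ (by positivity) hL.le two_ne_zero).1 this
    have : K ^ 4 = K * K ^ 3 := by ring
    have h3 : 2 ≤ K ^ 3 := by nlinarith [sq_nonneg K, mul_self_nonneg (K - 2), mul_pos (show 0 < K by linarith) (show 0 < K by linarith)]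
    nlinarith
  obtain ⟨hl1, hl2⟩ := lam_two hreg h2K
  have hL2 : 0 < L ^ 2 := by positivity
  have hne : Nonempty ι := by
    by_contra hc
    rw [not_nonempty_iff] at hc
    have : Fintype.card ι = 0 := Fintype.card_eq_zero
    rw [this] at hl1
    norm_num at hl1
  have hN : (Fintype.card ι : ℝ) ≤ 2 * L ^ 2 := by
    rwa [div_le_iff₀ hL2] at hl2
  have hg : ∀ v : ℝ × ℝ → ℝ, 0 ≤ K ^ 2 * ∫ y in box L, gabs v y := by
    intro v
    have : 0 ≤ ∫ y in box L, gabs v y := integral_nonneg fun y => by unfold gabs; positivity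
    positivity
  apply b5_core (by positivity) hreg hK1 (rho_EP hL ht0 X).toCP.cont
    (fun y _ => (h3 K L X hreg hKK0 t ht1 ht2 y).1) (int_rho hL ht0 X) hN
  · intro v hv
    refine (h1 K L X hreg v (hv.smooth.of_le (by simp))).trans ?_
    nlinarith [hg v]
  · intro v hv
    rw [int_mul_rho hL ht0 X hv.toCP]
    refine (h2 K L X hreg v hv t ht).trans ?_
    nlinarith [hg v]

end Pool.Agent.Lib.H77M
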