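import Pool.Agent.Lib.H77M.DefsD

/-!
# Project H77M, chunk C1: binomial weights
-/

open MeasureTheory Set ProbabilityTheory

namespace Pool.Agent.Lib.H77M

theorem C1_p {k : ℕ} (hk : 1 ≤ k) : 0 ≤ 1 / (k : ℝ) ^ 2 ∧ 1 / (k : ℝ) ^ 2 ≤ 1 := by
  have hk1 : (1 : ℝ) ≤ k := by exact_mod_cast hk
  refine ⟨by positivity, ?_⟩
  rw [div_le_one (by positivity)]
  nlinarith

theorem bw_nonneg {n k m : ℕ} (hk : 1 ≤ k) : 0 ≤ bw n k m := by
  obtain ⟨h1, h2⟩ := C1_p hk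
  unfold bw
  have h3 : 0 ≤ 1 - 1 / (k : ℝ) ^ 2 := by linarith
  positivity

theorem C1_mgf (n k : ℕ) (z : ℝ) :
    ∑ m ∈ Finset.range (n + 1), bw n k m * z ^ m =
      (1 - 1 / (k : ℝ) ^ 2 + 1 / (k : ℝ) ^ 2 * z) ^ n := by
  rw [add_comm (1 - 1 / (k : ℝ) ^ 2), add_pow]
  refine Finset.sum_congr rfl fun m _ => ?_
  unfold bw
  rw [mul_pow]
  ring

theorem bw_sum {n k : ℕ} (hk : 1 ≤ k) : ∑ m ∈ Finset.range (n + 1), bw n k m = 1 := by
  have h := C1_mgf n k 1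
  simpa using h

theorem bw_mean {n k : ℕ} (hk : 1 ≤ k) :
    ∑ m ∈ Finset.range (n + 1), bw n k m * m = (n : ℝ) / (k : ℝ) ^ 2 := by
  rcases Nat.eq_zero_or_pos n with rfl | hn
  · simp
  obtain ⟨N, rfl⟩ : ∃ N, n = N + 1 := ⟨n - 1, by omega⟩
  rw [Finset.sum_range_succ']
  simp only [Nat.cast_zero, mul_zero, add_zero]
  have h1 : ∀ m ∈ Finset.range (N + 1), bw (N + 1) k (m + 1) * ((m + 1 : ℕ) : ℝ) =
      ((N + 1 : ℕ) : ℝ) * (1 / (k : ℝ) ^ 2) * bw N k m := by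
    intro m hm
    unfold bw
    have h2 : ((N + 1).choose (m + 1) : ℝ) * ((m + 1 : ℕ) : ℝ) = ((N + 1 : ℕ) : ℝ) * (N.choose m) := by
      have := Nat.add_one_mul_choose_eq N m
      exact_mod_cast this.symm
    have h3 : N + 1 - (m + 1) = N - m := by omega
    rw [h3, pow_succ]
    calc ((N + 1).choose (m + 1) : ℝ) * ((1 / (k : ℝ) ^ 2) ^ m * (1 / (k : ℝ) ^ 2)) *
          (1 - 1 / (k : ℝ) ^ 2) ^ (N - m) * ((m + 1 : ℕ) : ℝ)
        = (((N + 1).choose (m + 1) : ℝ) * ((m + 1 : ℕ) : ℝ)) *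
          ((1 / (k : ℝ) ^ 2) ^ m * (1 / (k : ℝ) ^ 2)) * (1 - 1 / (k : ℝ) ^ 2) ^ (N - m) := by ring
      _ = _ := by rw [h2]; ring
  rw [Finset.sum_congr rfl h1, ← Finset.mul_sum, bw_sum hk]
  ring

theorem bw_zero_le {n k : ℕ} (hk : 1 ≤ k) : bw n k 0 ≤ Real.exp (-((n : ℝ) / (k : ℝ) ^ 2)) := by
  obtain ⟨h1, h2⟩ := C1_p hk
  unfold bw
  simp only [Nat.choose_zero_right, Nat.cast_one, pow_zero, mul_one, one_mul, Nat.sub_zero]
  have h3 : 1 - 1 / (k : ℝ) ^ 2 ≤ Real.exp (-(1 / (k : ℝ) ^ 2)) := Real.one_sub_le_exp_neg _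
  calc (1 - 1 / (k : ℝ) ^ 2) ^ n ≤ Real.exp (-(1 / (k : ℝ) ^ 2)) ^ n :=
        pow_le_pow_left₀ (by linarith) h3 n
    _ = _ := by
      rw [← Real.exp_nat_mul]
      congr 1
      ring

/-- bound for the exponential moment -/
theorem C1_exp {p : ℝ} (hp : 0 ≤ p) (hp1 : p ≤ 1) (n : ℕ) {θ : ℝ} (hθ : |θ| ≤ 1) :
    Real.exp (-(θ * (n * p))) * (1 - p + p * Real.exp θ) ^ n ≤ Real.exp (n * p * θ ^ 2) := by
  have h1 : 1 - p + p * Real.exp θ ≤ Real.exp (p * (Real.exp θ - 1)) := by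
    have := Real.add_one_le_exp (p * (Real.exp θ - 1))
    linarith
  have h0 : 0 ≤ 1 - p + p * Real.exp θ := by
    have := Real.exp_pos θ
    nlinarith
  have h2 : Real.exp θ - 1 - θ ≤ θ ^ 2 := by
    have := Real.abs_exp_sub_one_sub_id_le hθ
    exact (le_abs_self _).trans this
  calc Real.exp (-(θ * (n * p))) * (1 - p + p * Real.exp θ) ^ n
      ≤ Real.exp (-(θ * (n * p))) * Real.exp (p * (Real.exp θ - 1)) ^ n :=
        mul_le_mul_of_nonneg_left (pow_le_pow_left₀ h0 h1 n) (Real.exp_pos _).le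
    _ = Real.exp (n * p * (Real.exp θ - 1 - θ)) := by
        rw [← Real.exp_nat_mul, ← Real.exp_add]
        congr 1
        ring
    _ ≤ _ := Real.exp_le_exp.2 (mul_le_mul_of_nonneg_left h2 (by positivity))

/-- exponential moments: `∑ bw e^{θ (m - M)} ≤ e^{M (e^θ - 1 - θ)} ≤ e^{M θ²}`, `M = n / k²`,
`θ = ± M^{-1/2}` -/
theorem bw_tail {n k : ℕ} (hk : 1 ≤ k) (hM : 1 ≤ (n : ℝ) / (k : ℝ) ^ 2) {κ : ℝ} (hκ : 0 ≤ κ) :
    ∑ m ∈ (Finset.range (n + 1)).filter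
      (fun m : ℕ => κ * √((n : ℝ) / (k : ℝ) ^ 2) ≤ |(m : ℝ) - (n : ℝ) / (k : ℝ) ^ 2|), bw n k m ≤
      2 * Real.exp (1 - κ) := by
  obtain ⟨h1, h2⟩ := C1_p hk
  set p : ℝ := 1 / (k : ℝ) ^ 2 with hp
  have hMp : (n : ℝ) / (k : ℝ) ^ 2 = n * p := by rw [hp]; ring
  set M : ℝ := (n : ℝ) / (k : ℝ) ^ 2 with hMd
  have hs : 1 ≤ √M := Real.one_le_sqrt.2 hM
  have hs0 : 0 < √M := by linarith
  set θ : ℝ := (√M)⁻¹ with hθ
  have hθ0 : 0 < θ := inv_pos.2 hs0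
  have hθ1 : θ ≤ 1 := inv_le_one_of_one_le₀ hs
  have hθM : M * θ ^ 2 = 1 := by
    have : M = √M ^ 2 := (Real.sq_sqrt (by linarith)).symm
    rw [hθ]
    nth_rewrite 1 [this]
    rw [← mul_pow, mul_inv_cancel₀ hs0.ne', one_pow]
  have key : ∀ t : ℝ, |t| ≤ 1 → t ^ 2 = θ ^ 2 →
      ∑ m ∈ Finset.range (n + 1), bw n k m * Real.exp (t * (m - M)) ≤ Real.exp 1 := by
    intro t ht ht2
    have h3 := C1_exp h1 h2 n ht
    have h4 := C1_mgf n k (Real.exp t)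
    have h5 : ∑ m ∈ Finset.range (n + 1), bw n k m * Real.exp (t * (m - M)) =
        Real.exp (-(t * (n * p))) * (1 - p + p * Real.exp t) ^ n := by
      rw [hp, ← h4, Finset.mul_sum]
      refine Finset.sum_congr rfl fun m _ => ?_
      rw [← Real.exp_nat_mul, mul_left_comm, ← Real.exp_add]
      congr 2
      rw [hMp, hp]
      ring
    rw [h5]
    refine h3.trans ?_
    rw [← hMp, ht2, hθM]
  have k1 := key θ (by rw [abs_of_pos hθ0]; exact hθ1) rfl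
  have k2 := key (-θ) (by rw [abs_neg, abs_of_pos hθ0]; exact hθ1) (by ring)
  have h6 : Real.exp κ * ∑ m ∈ (Finset.range (n + 1)).filter
      (fun m : ℕ => κ * √M ≤ |(m : ℝ) - M|), bw n k m ≤
      ∑ m ∈ Finset.range (n + 1), (bw n k m * Real.exp (θ * (m - M)) +
        bw n k m * Real.exp (-θ * (m - M))) := by
    rw [Finset.mul_sum]
    refine (Finset.sum_le_sum (g := fun m : ℕ => (bw n k m * Real.exp (θ * (m - M)) +
        bw n k m * Real.exp (-θ * (m - M)))) ?_).trans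
      (Finset.sum_le_sum_of_subset_of_nonneg (Finset.filter_subset _ _) ?_)
    · intro m hm
      have hm2 := (Finset.mem_filter.1 hm).2
      have hb : 0 ≤ bw n k m := bw_nonneg hk
      have h7 : κ ≤ θ * |(m : ℝ) - M| := by
        rw [hθ, inv_mul_eq_div, le_div_iff₀ hs0]
        exact hm2
      rw [← mul_add, mul_comm]
      refine mul_le_mul_of_nonneg_left ?_ hb
      have e1 := Real.exp_pos (θ * (m - M))
      have e2 := Real.exp_pos (-θ * (m - M))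
      rcases abs_cases ((m : ℝ) - M) with ⟨ha, _⟩ | ⟨ha, _⟩
      · rw [ha] at h7
        have := Real.exp_le_exp.2 h7
        linarith
      · rw [ha] at h7
        have h8 : κ ≤ -θ * (m - M) := by linarith
        have := Real.exp_le_exp.2 h8
        linarith
    · intro m _ _
      have hb : 0 ≤ bw n k m := bw_nonneg hk
      positivity
  rw [Finset.sum_add_distrib] at h6
  have h9 : Real.exp κ * ∑ m ∈ (Finset.range (n + 1)).filter
      (fun m : ℕ => κ * √M ≤ |(m : ℝ) - M|), bw n k m ≤ Real.exp κ * (2 * Real.exp (1 - κ)) := by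
    have h10 : Real.exp κ * (2 * Real.exp (1 - κ)) = 2 * Real.exp 1 := by
      rw [mul_left_comm, ← Real.exp_add]
      congr 2
      ring
    rw [h10]
    linarith
  exact le_of_mul_le_mul_left h9 (Real.exp_pos κ)

end Pool.Agent.Lib.H77M
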