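import Pool.Agent.Lib.H77M.DefsD

/-!
# Project H77M, chunk C2: random configurations are regular
-/

open MeasureTheory Set ProbabilityTheory

namespace Pool.Agent.Lib.H77M

instance : IsProbabilityMeasure U := by
  constructor
  unfold U
  rw [Measure.restrict_apply_univ, Measure.volume_eq_prod, Measure.prod_prod, Real.volume_Icc]
  simp

instance (ι : Type) [Fintype ι] : IsProbabilityMeasure (UU ι) := by
  unfold UU
  infer_instance

theorem C2_meas_cnt {n : ℕ} {S : Set (ℝ × ℝ)} (hS : MeasurableSet S) :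
    Measurable fun X : Fin n → ℝ × ℝ => cnt X S := by
  unfold cnt
  refine Finset.measurable_sum _ fun i _ => ?_
  exact (measurable_const.indicator hS).comp (measurable_pi_apply i)

theorem C2_mgf {n : ℕ} {α : ℝ} {S : Set (ℝ × ℝ)} (hS : MeasurableSet S)
    (hα : (U S).toReal = α) (θ : ℝ) :
    Integrable (fun X : Fin n → ℝ × ℝ => Real.exp (θ * cnt X S)) (UU (Fin n)) ∧
      ∫ X, Real.exp (θ * cnt X S) ∂(UU (Fin n)) = (1 - α + α * Real.exp θ) ^ n := by
  set g : ℝ × ℝ → ℝ := fun x => Real.exp (θ * S.indicator (fun _ => (1 : ℝ)) x) with hg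
  have hg1 : ∀ x, g x = 1 + S.indicator (fun _ => Real.exp θ - 1) x := by
    intro x
    by_cases hx : x ∈ S
    · simp [hg, hx]
    · simp [hg, hx]
  have hgi : Integrable g U := by
    have h1 : Integrable (fun x => 1 + S.indicator (fun _ => Real.exp θ - 1) x) U :=
      (integrable_const 1).add ((integrable_const _).indicator hS)
    exact h1.congr (Filter.Eventually.of_forall fun x => (hg1 x).symm)
  have hgv : ∫ x, g x ∂U = 1 - α + α * Real.exp θ := by
    rw [integral_congr_ae (Filter.Eventually.of_forall hg1),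
      integral_add (integrable_const 1) ((integrable_const _).indicator hS), integral_const,
      integral_indicator_const _ hS]
    simp only [measureReal_def, measure_univ, ENNReal.toReal_one, hα, smul_eq_mul]
    ring
  have hprod : ∀ X : Fin n → ℝ × ℝ, Real.exp (θ * cnt X S) = ∏ i, g (X i) := by
    intro X
    rw [cnt, Finset.mul_sum, Real.exp_sum]
  constructor
  · have h2 : Integrable (fun X : Fin n → ℝ × ℝ => ∏ i, g (X i)) (UU (Fin n)) :=
      Integrable.fintype_prod fun _ => hgi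
    exact h2.congr (Filter.Eventually.of_forall fun X => (hprod X).symm)
  · simp only [hprod]
    have h3 := integral_fintype_prod_eq_prod (𝕜 := ℝ) (ι := Fin n) (μ := fun _ => U) (fun _ => g)
    unfold UU
    rw [h3, Finset.prod_const, Finset.card_univ, Fintype.card_fin, hgv]

/-- bound for the exponential moment -/
theorem C2_exp {p : ℝ} (hp : 0 ≤ p) (hp1 : p ≤ 1) (n : ℕ) {θ : ℝ} (hθ : |θ| ≤ 1) :
    Real.exp (-(θ * (n * p))) * (1 - p + p * Real.exp θ) ^ n ≤ Real.exp (n * p * θ ^ 2) := by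
  have h1 : 1 - p + p * Real.exp θ ≤ Real.exp (p * (Real.exp θ - 1)) := by
    have := Real.add_one_le_exp (p * (Real.exp θ - 1))
    linarith
  have h0 : 0 ≤ 1 - p + p * Real.exp θ := by
    have := Real.exp_pos θ
    nlinarith
  have h2 : Real.exp θ - 1 - θ ≤ θ ^ 2 := by
    have := Real.abs_exp_sub_one_sub_id_le hθ
    exact (le_abs_self _).trans this
  calc Real.exp (-(θ * (n * p))) * (1 - p + p * Real.exp θ) ^ n
      ≤ Real.exp (-(θ * (n * p))) * Real.exp (p * (Real.exp θ - 1)) ^ n :=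
        mul_le_mul_of_nonneg_left (pow_le_pow_left₀ h0 h1 n) (Real.exp_pos _).le
    _ = Real.exp (n * p * (Real.exp θ - 1 - θ)) := by
        rw [← Real.exp_nat_mul, ← Real.exp_add]
        congr 1
        ring
    _ ≤ _ := Real.exp_le_exp.2 (mul_le_mul_of_nonneg_left h2 (by positivity))

/-- exponential moments of the number of points in a set: the expectation of the exponential of
`θ (cnt X S)` is `(1 + α (e^θ - 1))^n` -/
theorem cnt_tail {n : ℕ} {α : ℝ} {S : Set (ℝ × ℝ)} (hS : MeasurableSet S)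
    (hα : (U S).toReal = α) (h1 : 1 ≤ n * α) {κ : ℝ} (hκ : 0 ≤ κ) :
    (UU (Fin n)).real {X | κ * √(n * α) ≤ |cnt X S - n * α|} ≤ 2 * Real.exp (1 - κ) := by
  have hα0 : 0 ≤ α := by rw [← hα]; exact ENNReal.toReal_nonneg
  have hα1 : α ≤ 1 := by
    rw [← hα]
    exact ENNReal.toReal_le_of_le_ofReal zero_le_one (by simpa using prob_le_one)
  set M : ℝ := n * α with hMd
  have hs : 1 ≤ √M := Real.one_le_sqrt.2 h1
  have hs0 : 0 < √M := by linarith
  set θ : ℝ := (√M)⁻¹ with hθ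
  have hθ0 : 0 < θ := inv_pos.2 hs0
  have hθ1 : θ ≤ 1 := inv_le_one_of_one_le₀ hs
  have hθM : M * θ ^ 2 = 1 := by
    have : M = √M ^ 2 := (Real.sq_sqrt (by linarith)).symm
    rw [hθ]
    nth_rewrite 1 [this]
    rw [← mul_pow, mul_inv_cancel₀ hs0.ne', one_pow]
  have key : ∀ t : ℝ, |t| ≤ 1 → t ^ 2 = θ ^ 2 →
      Integrable (fun X : Fin n → ℝ × ℝ => Real.exp (t * (cnt X S - M))) (UU (Fin n)) ∧
      ∫ X, Real.exp (t * (cnt X S - M)) ∂(UU (Fin n)) ≤ Real.exp 1 := by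
    intro t ht ht2
    obtain ⟨hi, hv⟩ := C2_mgf (n := n) hS hα t
    have h5 : ∀ X : Fin n → ℝ × ℝ, Real.exp (t * (cnt X S - M)) =
        Real.exp (-(t * M)) * Real.exp (t * cnt X S) := by
      intro X
      rw [← Real.exp_add]
      congr 1
      ring
    simp only [h5]
    refine ⟨hi.const_mul _, ?_⟩
    rw [integral_const_mul, hv]
    have h3 := C2_exp hα0 hα1 n ht
    refine h3.trans ?_
    rw [← hMd, ht2, hθM]
  obtain ⟨i1, k1⟩ := key θ (by rw [abs_of_pos hθ0]; exact hθ1) rfl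
  obtain ⟨i2, k2⟩ := key (-θ) (by rw [abs_neg, abs_of_pos hθ0]; exact hθ1) (by ring)
  set f : (Fin n → ℝ × ℝ) → ℝ := fun X =>
    Real.exp (θ * (cnt X S - M)) + Real.exp (-θ * (cnt X S - M)) with hf
  have hfi : Integrable f (UU (Fin n)) := i1.add i2
  have hf0 : 0 ≤ᵐ[UU (Fin n)] f := Filter.Eventually.of_forall fun X => by
    simp only [hf, Pi.zero_apply]
    positivity
  have h6 := mul_meas_ge_le_integral_of_nonneg hf0 hfi (Real.exp κ)
  have h7 : ∫ X, f X ∂(UU (Fin n)) ≤ 2 * Real.exp 1 := by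
    simp only [hf]
    rw [integral_add i1 i2]
    linarith
  have hsub : {X : Fin n → ℝ × ℝ | κ * √M ≤ |cnt X S - M|} ⊆ {X | Real.exp κ ≤ f X} := by
    intro X hX
    have hm2 : κ * √M ≤ |cnt X S - M| := hX
    show Real.exp κ ≤ Real.exp (θ * (cnt X S - M)) + Real.exp (-θ * (cnt X S - M))
    have h7 : κ ≤ θ * |cnt X S - M| := by
      rw [hθ, inv_mul_eq_div, le_div_iff₀ hs0]
      exact hm2
    have e1 := Real.exp_pos (θ * (cnt X S - M))
    have e2 := Real.exp_pos (-θ * (cnt X S - M))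
    rcases abs_cases (cnt X S - M) with ⟨ha, _⟩ | ⟨ha, _⟩
    · rw [ha] at h7
      have := Real.exp_le_exp.2 h7
      linarith
    · rw [ha] at h7
      have h8 : κ ≤ -θ * (cnt X S - M) := by linarith
      have := Real.exp_le_exp.2 h8
      linarith
  have h8 := measureReal_mono (μ := UU (Fin n)) hsub
  refine h8.trans ?_
  have h9 : Real.exp κ * (UU (Fin n)).real {X | Real.exp κ ≤ f X} ≤
      Real.exp κ * (2 * Real.exp (1 - κ)) := by
    have h10 : Real.exp κ * (2 * Real.exp (1 - κ)) = 2 * Real.exp 1 := by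
      rw [mul_left_comm, ← Real.exp_add]
      congr 2
      ring
    rw [h10]
    linarith
  exact le_of_mul_le_mul_left h9 (Real.exp_pos κ)

theorem C2_ae_eval {n : ℕ} (i : Fin n) {p : ℝ × ℝ → Prop} (h : ∀ᵐ x ∂U, p x) :
    ∀ᵐ X ∂(UU (Fin n)), p (X i) := by
  have h1 : MeasurePreserving (Function.eval i) (Measure.pi fun _ : Fin n => U) U :=
    measurePreserving_eval (fun _ : Fin n => U) i
  exact h1.quasiMeasurePreserving.ae h

/-- almost surely the points are distinct and in the half open unit square -/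
theorem ae_inj (n : ℕ) : ∀ᵐ X ∂(UU (Fin n)), Function.Injective X ∧ ∀ i, X i ∈ hbox 1 := by
  have h1 : ∀ i : Fin n, ∀ᵐ X ∂(UU (Fin n)), X i ∈ hbox 1 := by
    intro i
    refine C2_ae_eval i ?_
    unfold U hbox
    have h2 : (Icc (0 : ℝ) 1 ×ˢ Icc (0 : ℝ) 1 : Set (ℝ × ℝ)) =ᵐ[volume]
        (Ico (0 : ℝ) 1 ×ˢ Ico (0 : ℝ) 1 : Set (ℝ × ℝ)) := by
      rw [Measure.volume_eq_prod]
      exact Measure.set_prod_ae_eq Ico_ae_eq_Icc.symm Ico_ae_eq_Icc.symm
    rw [Measure.restrict_congr_set h2]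
    exact ae_restrict_mem (measurableSet_Ico.prod measurableSet_Ico)
  have h2 : ∀ i j : Fin n, i ≠ j → ∀ᵐ X ∂(UU (Fin n)), X i ≠ X j := by
    intro i j hij
    have hind : iIndepFun (fun (i : Fin n) (ω : Fin n → ℝ × ℝ) => (id (ω i) : ℝ × ℝ))
        (Measure.pi fun _ : Fin n => U) :=
      iIndepFun_pi (μ := fun _ : Fin n => U) (X := fun _ => id) fun _ => aemeasurable_id
    have h3 := (hind.indepFun hij).map_prod_eq_prod_map_map
      (measurable_pi_apply i).aemeasurable (measurable_pi_apply j).aemeasurable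
    have h4 : ∀ i : Fin n, Measure.map (fun ω : Fin n → ℝ × ℝ => ω i)
        (Measure.pi fun _ : Fin n => U) = U := fun i =>
      (measurePreserving_eval (fun _ : Fin n => U) i).map_eq
    rw [h4 i, h4 j] at h3
    have hdiag : MeasurableSet {q : (ℝ × ℝ) × (ℝ × ℝ) | q.1 = q.2} :=
      measurableSet_eq_fun measurable_fst measurable_snd
    have h5 : (U.prod U) {q : (ℝ × ℝ) × (ℝ × ℝ) | q.1 = q.2} = 0 := by
      rw [Measure.measure_prod_null hdiag]
      refine Filter.Eventually.of_forall fun x => ?_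
      have : (Prod.mk x ⁻¹' {q : (ℝ × ℝ) × (ℝ × ℝ) | q.1 = q.2}) = {x} := by
        ext y
        simp [eq_comm]
      show U (Prod.mk x ⁻¹' {q : (ℝ × ℝ) × (ℝ × ℝ) | q.1 = q.2}) = 0
      rw [this]
      refine le_antisymm ((Measure.restrict_apply_le _ _).trans ?_) zero_le
      rw [measure_singleton]
    rw [← h3, Measure.map_apply
      ((measurable_pi_apply i).prodMk (measurable_pi_apply j)) hdiag] at h5
    have h6 : UU (Fin n) {X | X i = X j} = 0 := h5
    exact (measure_eq_zero_iff_ae_notMem.1 h6).mono fun X hX => hX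
  have h3 : ∀ᵐ X ∂(UU (Fin n)), ∀ i, X i ∈ hbox 1 := ae_all_iff.2 h1
  have h4 : ∀ᵐ X ∂(UU (Fin n)), ∀ i j : Fin n, i ≠ j → X i ≠ X j := by
    refine ae_all_iff.2 fun i => ae_all_iff.2 fun j => ?_
    by_cases hij : i = j
    · exact Filter.Eventually.of_forall fun X h => absurd hij h
    · exact (h2 i j hij).mono fun X hX _ => hX
  filter_upwards [h3, h4] with X hX hX'
  refine ⟨fun i j hij => ?_, hX⟩
  by_contra hne
  exact hX' i j hne hij

/-- the points whose image under scaling is in the square with corner `(u, v)` and side `s` -/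
def C2Q (L u v s : ℝ) : Set (ℝ × ℝ) :=
  {x | (L * x.1, L * x.2) ∈ Ico u (u + s) ×ˢ Ico v (v + s)}

theorem C2Q_meas (L u v s : ℝ) : MeasurableSet (C2Q L u v s) := by
  have h : Measurable fun x : ℝ × ℝ => (L * x.1, L * x.2) := by fun_prop
  exact h (measurableSet_Ico.prod measurableSet_Ico)

theorem C2Q_U {L u v s : ℝ} (hL : 0 < L) (hs : 0 ≤ s) (hu : 0 ≤ u) (hu' : u + s ≤ L) (hv : 0 ≤ v)
    (hv' : v + s ≤ L) : (U (C2Q L u v s)).toReal = s ^ 2 / L ^ 2 := by
  have h1 : C2Q L u v s = Ico (u / L) ((u + s) / L) ×ˢ Ico (v / L) ((v + s) / L) := by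
    ext ⟨x, y⟩
    simp only [C2Q, mem_prod, mem_Ico, Set.mem_ofPred_eq, div_le_iff₀ hL, lt_div_iff₀ hL]
    constructor <;> rintro ⟨⟨a, b⟩, c, d⟩ <;> refine ⟨⟨?_, ?_⟩, ?_, ?_⟩ <;> linarith
  have h2 : C2Q L u v s ⊆ Icc (0 : ℝ) 1 ×ˢ Icc (0 : ℝ) 1 := by
    rw [h1]
    refine prod_mono ?_ ?_
    · intro x hx
      exact ⟨(div_nonneg hu hL.le).trans hx.1, hx.2.le.trans ((div_le_one hL).2 hu')⟩
    · intro x hx
      exact ⟨(div_nonneg hv hL.le).trans hx.1, hx.2.le.trans ((div_le_one hL).2 hv')⟩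
  unfold U
  rw [Measure.restrict_apply (C2Q_meas _ _ _ _), inter_eq_self_of_subset_left h2, h1,
    Measure.volume_eq_prod, Measure.prod_prod, Real.volume_Ico, Real.volume_Ico,
    ENNReal.toReal_mul, ENNReal.toReal_ofReal, ENNReal.toReal_ofReal]
  · field_simp
    ring
  · rw [← sub_div]; exact div_nonneg (by linarith) hL.le
  · rw [← sub_div]; exact div_nonneg (by linarith) hL.le

theorem C2_sq_tail {n : ℕ} (hn : 1 ≤ n) {K u v s : ℝ} (hK : 0 ≤ K) (hs : 1 ≤ s) (hu : 0 ≤ u)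
    (hu' : u + s ≤ √n) (hv : 0 ≤ v) (hv' : v + s ≤ √n) :
    (UU (Fin n)).real {X | K * s ≤ |cnt X (C2Q (√n) u v s) - s ^ 2|} ≤ 2 * Real.exp (1 - K) := by
  have hn0 : (0 : ℝ) < n := by exact_mod_cast hn
  have hL : 0 < √(n : ℝ) := Real.sqrt_pos.2 hn0
  have h1 := C2Q_U (u := u) (v := v) hL (by linarith : (0:ℝ) ≤ s) hu hu' hv hv'
  rw [Real.sq_sqrt hn0.le] at h1
  have h2 : (n : ℝ) * (s ^ 2 / n) = s ^ 2 := by field_simp
  have h3 := cnt_tail (n := n) (C2Q_meas (√n) u v s) h1 (by rw [h2]; nlinarith) hK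
  rw [h2, Real.sqrt_sq (by linarith)] at h3
  exact h3

theorem C2_geom (N : ℕ) : ∑ j ∈ Finset.range (N + 1), (4 : ℝ) ^ j ≤ 2 * 4 ^ N := by
  induction N with
  | zero => norm_num
  | succ N ih =>
    rw [Finset.sum_range_succ, pow_succ]
    have : (0 : ℝ) < 4 ^ N := by positivity
    linarith

open Classical in
theorem C2_geom' (N : ℕ) {l : ℝ} (hl : 0 ≤ l) :
    ∑ j ∈ (Finset.range N).filter (fun j : ℕ => (2 : ℝ) ^ j ≤ l), (4 : ℝ) ^ j ≤ 2 * l ^ 2 := by
  induction N with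
  | zero => simp; positivity
  | succ N ih =>
    by_cases h : (2 : ℝ) ^ N ≤ l
    · have h1 : ∑ j ∈ (Finset.range (N + 1)).filter (fun j : ℕ => (2 : ℝ) ^ j ≤ l), (4 : ℝ) ^ j ≤
          ∑ j ∈ Finset.range (N + 1), (4 : ℝ) ^ j :=
        Finset.sum_le_sum_of_subset_of_nonneg (Finset.filter_subset _ _) fun _ _ _ => by positivity
      have h2 : (4 : ℝ) ^ N ≤ l ^ 2 := by
        have : (4 : ℝ) ^ N = (2 ^ N) ^ 2 := by rw [← pow_mul, mul_comm, pow_mul]; norm_num
        rw [this]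
        exact pow_le_pow_left₀ (by positivity) h 2
      have := C2_geom N
      linarith
    · rw [Finset.range_add_one, Finset.filter_insert, if_neg h]
      exact ih

/-- the bad event -/
def C2E (n : ℕ) (K l : ℝ) (j : ℕ) (a0 b0 a b : ℕ) : Set (Fin n → ℝ × ℝ) :=
  {X | K * (l / 2 ^ j) ≤ |cnt X (C2Q (√n) (a0 * l + a * (l / 2 ^ j)) (b0 * l + b * (l / 2 ^ j))
    (l / 2 ^ j)) - (l / 2 ^ j) ^ 2|}

theorem C2_pos {a0 k a J : ℕ} {l : ℝ} (hl : 0 ≤ l) (ha0 : a0 < k) (ha : a < 2 ^ J) :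
    a0 * l + a * (l / 2 ^ J) + l / 2 ^ J ≤ k * l := by
  have h1 : (a0 : ℝ) + 1 ≤ k := by exact_mod_cast ha0
  have h2 : (a : ℝ) + 1 ≤ 2 ^ J := by exact_mod_cast ha
  have h3 : ((a : ℝ) + 1) * (l / 2 ^ J) ≤ 2 ^ J * (l / 2 ^ J) :=
    mul_le_mul_of_nonneg_right h2 (by positivity)
  have h4 : (2 : ℝ) ^ J * (l / 2 ^ J) = l := by field_simp
  nlinarith

open Classical in
theorem C2_union {n k : ℕ} (hk : 1 ≤ k) (hkn : k ^ 2 ≤ n) {K : ℝ} (hK : 0 ≤ K) :
    (UU (Fin n)).real (⋃ a0 ∈ Finset.range k, ⋃ b0 ∈ Finset.range k,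
      ⋃ j ∈ (Finset.range (n + 1)).filter (fun j : ℕ => (2 : ℝ) ^ j ≤ √n / k),
      ⋃ a ∈ Finset.range (2 ^ j), ⋃ b ∈ Finset.range (2 ^ j), C2E n K (√n / k) j a0 b0 a b) ≤
    4 * n * Real.exp (1 - K) := by
  have hn : 1 ≤ n := le_trans (Nat.one_le_pow _ _ hk) hkn
  have hn0 : (0 : ℝ) < n := by exact_mod_cast hn
  have hk0 : (0 : ℝ) < k := by exact_mod_cast hk
  have hL : 0 < √(n : ℝ) := Real.sqrt_pos.2 hn0
  set l : ℝ := √n / k with hl
  have hl0 : 0 < l := by positivity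
  have hkl : k * l = √n := by rw [hl]; field_simp
  have hbase : ∀ a0 ∈ Finset.range k, ∀ b0 ∈ Finset.range k,
      ∀ j ∈ (Finset.range (n + 1)).filter (fun j : ℕ => (2 : ℝ) ^ j ≤ l),
      ∀ a ∈ Finset.range (2 ^ j), ∀ b ∈ Finset.range (2 ^ j),
      (UU (Fin n)).real (C2E n K l j a0 b0 a b) ≤ 2 * Real.exp (1 - K) := by
    intro a0 ha0 b0 hb0 j hj a ha b hb
    rw [Finset.mem_range] at ha0 hb0 ha hb
    have hj2 := (Finset.mem_filter.1 hj).2
    refine C2_sq_tail hn hK ?_ (by positivity) ?_ (by positivity) ?_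
    · rw [le_div_iff₀ (by positivity), one_mul]; exact hj2
    · rw [← hkl]; exact C2_pos hl0.le ha0 ha
    · rw [← hkl]; exact C2_pos hl0.le hb0 hb
  calc (UU (Fin n)).real (⋃ a0 ∈ Finset.range k, ⋃ b0 ∈ Finset.range k,
      ⋃ j ∈ (Finset.range (n + 1)).filter (fun j : ℕ => (2 : ℝ) ^ j ≤ l),
      ⋃ a ∈ Finset.range (2 ^ j), ⋃ b ∈ Finset.range (2 ^ j), C2E n K l j a0 b0 a b)
      ≤ ∑ a0 ∈ Finset.range k, ∑ b0 ∈ Finset.range k,
        ∑ j ∈ (Finset.range (n + 1)).filter (fun j : ℕ => (2 : ℝ) ^ j ≤ l),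
        ∑ a ∈ Finset.range (2 ^ j), ∑ b ∈ Finset.range (2 ^ j), 2 * Real.exp (1 - K) := by
        refine (measureReal_biUnion_finset_le _ _).trans (Finset.sum_le_sum fun a0 ha0 => ?_)
        refine (measureReal_biUnion_finset_le _ _).trans (Finset.sum_le_sum fun b0 hb0 => ?_)
        refine (measureReal_biUnion_finset_le _ _).trans (Finset.sum_le_sum fun j hj => ?_)
        refine (measureReal_biUnion_finset_le _ _).trans (Finset.sum_le_sum fun a ha => ?_)
        refine (measureReal_biUnion_finset_le _ _).trans (Finset.sum_le_sum fun b hb => ?_)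
        exact hbase a0 ha0 b0 hb0 j hj a ha b hb
    _ = k ^ 2 * (∑ j ∈ (Finset.range (n + 1)).filter (fun j : ℕ => (2 : ℝ) ^ j ≤ l), (4 : ℝ) ^ j) *
        (2 * Real.exp (1 - K)) := by
        simp only [Finset.sum_const, Finset.card_range, nsmul_eq_mul]
        rw [Finset.mul_sum, Finset.mul_sum, Finset.mul_sum, Finset.sum_mul]
        refine Finset.sum_congr rfl fun j _ => ?_
        have : (4 : ℝ) ^ j = 2 ^ j * 2 ^ j := by rw [← mul_pow]; norm_num
        rw [this]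
        push_cast
        ring
    _ ≤ k ^ 2 * (2 * l ^ 2) * (2 * Real.exp (1 - K)) :=
        mul_le_mul_of_nonneg_right (mul_le_mul_of_nonneg_left (C2_geom' _ hl0.le) (by positivity))
          (by positivity)
    _ = 4 * (k * l) ^ 2 * Real.exp (1 - K) := by ring
    _ = _ := by rw [hkl, Real.sq_sqrt hn0.le]

theorem C2_cnt_CX (l : ℝ) {ι : Type} [Fintype ι] (Y : ι → ℝ × ℝ) (a0 b0 : ℕ) (S T : Set (ℝ × ℝ))
    (h : ∀ y, y ∈ T ↔ y ∈ cell l a0 b0 ∧ (y.1 - a0 * l, y.2 - b0 * l) ∈ S) :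
    cnt (CX l Y a0 b0) S = cnt Y T := by
  classical
  unfold cnt
  have h1 : ∑ i : CI l Y a0 b0, S.indicator (fun _ => (1 : ℝ)) (CX l Y a0 b0 i) =
      ∑ i ∈ Finset.univ.filter (fun i => Y i ∈ cell l a0 b0),
        S.indicator (fun _ => (1 : ℝ)) ((Y i).1 - a0 * l, (Y i).2 - b0 * l) :=
    (Finset.sum_subtype (Finset.univ.filter fun i => Y i ∈ cell l a0 b0) (fun i => by simp)
      (fun i => S.indicator (fun _ => (1 : ℝ)) ((Y i).1 - a0 * l, (Y i).2 - b0 * l))).symm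
  rw [h1, Finset.sum_filter]
  refine Finset.sum_congr rfl fun i _ => ?_
  by_cases hT : Y i ∈ T
  · obtain ⟨h2, h3⟩ := (h _).1 hT
    rw [if_pos h2, indicator_of_mem h3, indicator_of_mem hT]
  · rw [indicator_of_notMem hT]
    split_ifs with h2
    · refine indicator_of_notMem (fun h3 => hT ((h _).2 ⟨h2, h3⟩)) _
    · rfl

theorem C2_reg {n k : ℕ} (hk : 1 ≤ k) (hkn : k ^ 2 ≤ n) {K : ℝ} (hK : 1 + Real.log n ≤ K)
    {X : Fin n → ℝ × ℝ} (hinj : Function.Injective X) {a0 b0 : ℕ} (ha0 : a0 < k) (hb0 : b0 < k)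
    (hE : ∀ j ∈ (Finset.range (n + 1)), (2 : ℝ) ^ j ≤ √n / k → ∀ a ∈ Finset.range (2 ^ j),
      ∀ b ∈ Finset.range (2 ^ j), X ∉ C2E n K (√n / k) j a0 b0 a b) :
    Reg K (√n / k) (CX (√n / k) (scl (√n) X) a0 b0) := by
  have hn : 1 ≤ n := le_trans (Nat.one_le_pow _ _ hk) hkn
  have hn0 : (0 : ℝ) < n := by exact_mod_cast hn
  have hn1 : (1 : ℝ) ≤ n := by exact_mod_cast hn
  have hk0 : (0 : ℝ) < k := by exact_mod_cast hk
  have hk1 : (1 : ℝ) ≤ k := by exact_mod_cast hk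
  have hL : 0 < √(n : ℝ) := Real.sqrt_pos.2 hn0
  have hkn' : (k : ℝ) ≤ √n := by
    refine Real.le_sqrt_of_sq_le ?_
    exact_mod_cast hkn
  have hsn : √(n : ℝ) ≤ n := by
    rw [Real.sqrt_le_left hn0.le]
    nlinarith
  set l : ℝ := √n / k with hl
  have hl1 : 1 ≤ l := by rw [hl, le_div_iff₀ hk0]; linarith
  have hl0 : 0 < l := by linarith
  have hln : l ≤ n := (div_le_self hL.le hk1).trans hsn
  refine ⟨hl1, ?_, ?_, ?_, ?_⟩
  · have := Real.log_le_log hl0 hln
    linarith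
  · intro i
    have hi : scl (√n) X i.1 ∈ cell l a0 b0 := i.2
    unfold cell at hi
    obtain ⟨⟨h1, h2⟩, h3, h4⟩ := hi
    unfold hbox CX
    refine ⟨⟨?_, ?_⟩, ?_, ?_⟩ <;> simp only <;> linarith
  · intro i i' hii
    have h1 : scl (√n) X i.1 = scl (√n) X i'.1 := by
      unfold CX at hii
      have h2 := congrArg Prod.fst hii
      have h3 := congrArg Prod.snd hii
      simp only at h2 h3
      exact Prod.ext (by linarith) (by linarith)
    have h2 : X i.1 = X i'.1 := by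
      unfold scl at h1
      have h3 := congrArg Prod.fst h1
      have h4 := congrArg Prod.snd h1
      simp only at h3 h4
      exact Prod.ext (mul_left_cancel₀ hL.ne' h3) (mul_left_cancel₀ hL.ne' h4)
    exact Subtype.ext (hinj h2)
  · intro j a b ha hb hj
    have hj2 : (2 : ℝ) ^ j ≤ l := by
      rw [le_div_iff₀ (by positivity), one_mul] at hj
      exact hj
    have hjn : j ∈ Finset.range (n + 1) := by
      rw [Finset.mem_range]
      have h1 : ((2 ^ j : ℕ) : ℝ) ≤ n := by push_cast; exact hj2.trans hln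
      have h2 : 2 ^ j ≤ n := by exact_mod_cast h1
      have h3 := Nat.lt_two_pow_self (n := j)
      omega
    have h1 := hE j hjn hj2 a (Finset.mem_range.2 ha) b (Finset.mem_range.2 hb)
    have h2 : cnt (CX l (scl (√n) X) a0 b0) (sq l j a b) =
        cnt X (C2Q (√n) (a0 * l + a * (l / 2 ^ j)) (b0 * l + b * (l / 2 ^ j)) (l / 2 ^ j)) := by
      rw [C2_cnt_CX l (scl (√n) X) a0 b0 (sq l j a b)
        (Ico (a0 * l + a * (l / 2 ^ j)) (a0 * l + a * (l / 2 ^ j) + l / 2 ^ j) ×ˢ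
          Ico (b0 * l + b * (l / 2 ^ j)) (b0 * l + b * (l / 2 ^ j) + l / 2 ^ j))]
      · unfold cnt
        rfl
      · rintro ⟨y1, y2⟩
        have p1 := C2_pos hl0.le (Nat.lt_succ_self a0) ha
        have p2 := C2_pos hl0.le (Nat.lt_succ_self b0) hb
        push_cast at p1 p2
        have q1 : 0 ≤ (a : ℝ) * (l / 2 ^ j) := by positivity
        have q2 : 0 ≤ (b : ℝ) * (l / 2 ^ j) := by positivity
        simp only [cell, sq, mem_prod, mem_Ico]
        constructor
        · rintro ⟨⟨h1, h2⟩, h3, h4⟩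
          refine ⟨⟨⟨?_, ?_⟩, ?_, ?_⟩, ⟨?_, ?_⟩, ?_, ?_⟩ <;> linarith
        · rintro ⟨-, ⟨h1, h2⟩, h3, h4⟩
          refine ⟨⟨?_, ?_⟩, ?_, ?_⟩ <;> linarith
    rw [h2]
    unfold C2E at h1
    simp only [Set.mem_ofPred_eq, not_le] at h1
    exact h1.le

/-- union bound over the `≤ 8 n / 3` dyadic squares (of the big box and of the cells) of side
`s ≥ 1`; a square of side `s` in the box of side `√n` has `α = s² / n` -/
theorem good_prob : ∃ C : ℝ, 0 < C ∧ ∀ (n k : ℕ) (K : ℝ), 1 ≤ k → k ^ 2 ≤ n → 1 + Real.log n ≤ K →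
    (UU (Fin n)).real {X | ¬ Good K (√n / k) k (scl (√n) X)} ≤ C * n * Real.exp (-K) := by
  classical
  refine ⟨8 * Real.exp 1, by positivity, ?_⟩
  intro n k K hk hkn hK
  have hn : 1 ≤ n := le_trans (Nat.one_le_pow _ _ hk) hkn
  have hn0 : (0 : ℝ) < n := by exact_mod_cast hn
  have hn1 : (1 : ℝ) ≤ n := by exact_mod_cast hn
  have hk0 : (0 : ℝ) < k := by exact_mod_cast hk
  have hL : 0 < √(n : ℝ) := Real.sqrt_pos.2 hn0
  have hK0 : 0 ≤ K := by
    have := Real.log_nonneg hn1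
    linarith
  have hE1 := C2_union (n := n) (k := 1) le_rfl (by simpa using hn) hK0
  have hE2 := C2_union hk hkn hK0
  set E1 := ⋃ a0 ∈ Finset.range 1, ⋃ b0 ∈ Finset.range 1,
      ⋃ j ∈ (Finset.range (n + 1)).filter (fun j : ℕ => (2 : ℝ) ^ j ≤ √n / (1 : ℕ)),
      ⋃ a ∈ Finset.range (2 ^ j), ⋃ b ∈ Finset.range (2 ^ j), C2E n K (√n / (1 : ℕ)) j a0 b0 a b
    with hE1d
  set E2 := ⋃ a0 ∈ Finset.range k, ⋃ b0 ∈ Finset.range k,
      ⋃ j ∈ (Finset.range (n + 1)).filter (fun j : ℕ => (2 : ℝ) ^ j ≤ √n / k),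
      ⋃ a ∈ Finset.range (2 ^ j), ⋃ b ∈ Finset.range (2 ^ j), C2E n K (√n / k) j a0 b0 a b
    with hE2d
  set N : Set (Fin n → ℝ × ℝ) := {X | ¬ (Function.Injective X ∧ ∀ i, X i ∈ hbox 1)} with hN
  have hN0 : (UU (Fin n)).real N = 0 := by
    rw [measureReal_def]
    have : UU (Fin n) N = 0 := ae_iff.1 (ae_inj n)
    rw [this]
    rfl
  have hsub : {X | ¬ Good K (√n / k) k (scl (√n) X)} ⊆ N ∪ (E1 ∪ E2) := by
    intro X hX
    by_contra hcon
    simp only [mem_union, not_or] at hcon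
    obtain ⟨c1, c2, c3⟩ := hcon
    rw [hN, Set.mem_ofPred_eq, not_not] at c1
    obtain ⟨hinj, hmem⟩ := c1
    apply hX
    rw [hE1d] at c2
    rw [hE2d] at c3
    simp only [mem_iUnion, Finset.mem_filter, not_exists] at c2 c3
    have hkl : (k : ℝ) * (√n / k) = √n := by field_simp
    refine ⟨?_, ?_⟩
    · rw [hkl]
      have h1 := C2_reg (n := n) (k := 1) le_rfl (by simpa using hn) hK hinj (a0 := 0) (b0 := 0)
        zero_lt_one zero_lt_one (fun j hj hj2 a ha b hb =>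
          c2 0 (Finset.mem_range.2 zero_lt_one) 0 (Finset.mem_range.2 zero_lt_one) j ⟨hj, hj2⟩
            a ha b hb)
      have e1 : √(n : ℝ) / (1 : ℕ) = √n := by simp
      rw [e1] at h1
      refine ⟨h1.one_le, h1.log_le, ?_, ?_, ?_⟩
      · intro i
        obtain ⟨⟨p1, p2⟩, p3, p4⟩ := hmem i
        unfold hbox scl
        refine ⟨⟨?_, ?_⟩, ?_, ?_⟩ <;> simp only
        · positivity
        · nlinarith
        · positivity
        · nlinarith
      · intro i i' hii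
        apply hinj
        unfold scl at hii
        have h3 := congrArg Prod.fst hii
        have h4 := congrArg Prod.snd hii
        simp only at h3 h4
        exact Prod.ext (mul_left_cancel₀ hL.ne' h3) (mul_left_cancel₀ hL.ne' h4)
      · intro j a b ha hb hj
        have h2 := h1.disc j a b ha hb hj
        rw [C2_cnt_CX (√n) (scl (√n) X) 0 0 (sq (√n) j a b) (sq (√n) j a b)] at h2
        · exact h2
        · rintro ⟨y1, y2⟩
          have p1 := C2_pos (a0 := 0) (k := 1) hL.le zero_lt_one ha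
          have p2 := C2_pos (a0 := 0) (k := 1) hL.le zero_lt_one hb
          push_cast at p1 p2
          have q1 : 0 ≤ (a : ℝ) * (√n / 2 ^ j) := by positivity
          have q2 : 0 ≤ (b : ℝ) * (√n / 2 ^ j) := by positivity
          simp only [cell, sq, mem_prod, mem_Ico, Nat.cast_zero, zero_mul, sub_zero]
          constructor
          · rintro ⟨⟨h1, h2⟩, h3, h4⟩
            refine ⟨⟨⟨?_, ?_⟩, ?_, ?_⟩, ⟨?_, ?_⟩, ?_, ?_⟩ <;> linarith
          · rintro ⟨-, h⟩
            exact h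
    · intro a0 ha0 b0 hb0
      exact C2_reg hk hkn hK hinj ha0 hb0 (fun j hj hj2 a ha b hb =>
          c3 a0 (Finset.mem_range.2 ha0) b0 (Finset.mem_range.2 hb0) j ⟨hj, hj2⟩
            a ha b hb)
  have h1 := measureReal_mono (μ := UU (Fin n)) hsub
  have h2 := measureReal_union_le (μ := UU (Fin n)) N (E1 ∪ E2)
  have h3 := measureReal_union_le (μ := UU (Fin n)) E1 E2
  have h4 : Real.exp (1 - K) = Real.exp 1 * Real.exp (-K) := by rw [← Real.exp_add]; rfl
  have h5 : 8 * Real.exp 1 * n * Real.exp (-K) = 8 * n * Real.exp (1 - K) := by rw [h4]; ring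
  rw [h5]
  linarith

end Pool.Agent.Lib.H77M
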