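import Pool.Agent.Lib.H77M.C2

/-!
# Project H77M, chunk C3: conditioning on the points of a cell
-/

open MeasureTheory Set ProbabilityTheory

namespace Pool.Agent.Lib.H77M

/-- the affine map of the cell `(a, b)` onto the half open unit square -/
private noncomputable def c3_ti (k a b : ℕ) (x : ℝ × ℝ) : ℝ × ℝ :=
  ((k : ℝ) * (x.1 - a * (1 / (k : ℝ))), (k : ℝ) * (x.2 - b * (1 / (k : ℝ))))

private theorem c3_ti_meas (k a b : ℕ) : Measurable (c3_ti k a b) := by
  unfold c3_ti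
  fun_prop

private theorem c3_one {k : ℕ} (hk : 1 ≤ k) (a : ℕ) (x : ℝ) :
    x ∈ Ico ((a : ℝ) * (1 / (k : ℝ))) (((a : ℝ) + 1) * (1 / (k : ℝ))) ↔
      (k : ℝ) * (x - a * (1 / (k : ℝ))) ∈ Ico (0 : ℝ) 1 := by
  have hk0 : (0 : ℝ) < k := by exact_mod_cast hk
  have h1 : (k : ℝ) * (1 / (k : ℝ)) = 1 := by field_simp
  have h2 : (0 : ℝ) < 1 / (k : ℝ) := by positivity
  simp only [mem_Ico]
  constructor
  · rintro ⟨ha, hb⟩
    constructor
    · exact mul_nonneg hk0.le (by linarith)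
    · have : (k : ℝ) * (x - a * (1 / (k : ℝ))) < k * (1 / (k : ℝ)) := by
        apply mul_lt_mul_of_pos_left _ hk0
        linarith
      linarith
  · rintro ⟨ha, hb⟩
    constructor
    · by_contra hc
      push Not at hc
      have : (k : ℝ) * (x - a * (1 / (k : ℝ))) < 0 := mul_neg_of_pos_of_neg hk0 (by linarith)
      linarith
    · by_contra hc
      push Not at hc
      have : (k : ℝ) * (1 / (k : ℝ)) ≤ (k : ℝ) * (x - a * (1 / (k : ℝ))) := by
        apply mul_le_mul_of_nonneg_left _ hk0.le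
        linarith
      linarith

private theorem c3_cell {k : ℕ} (hk : 1 ≤ k) (a b : ℕ) :
    cell (1 / (k : ℝ)) a b = c3_ti k a b ⁻¹' hbox 1 := by
  ext x
  unfold cell hbox c3_ti
  rw [mem_prod, mem_preimage, mem_prod, c3_one hk a, c3_one hk b]

private theorem c3_cell_meas (l : ℝ) (a b : ℕ) : MeasurableSet (cell l a b) :=
  measurableSet_Ico.prod measurableSet_Ico

private theorem c3_vol {k : ℕ} (hk : 1 ≤ k) (a b : ℕ) (B : Set (ℝ × ℝ)) :
    volume (c3_ti k a b ⁻¹' B) = ENNReal.ofReal (1 / (k : ℝ) ^ 2) * volume B := by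
  have hk0 : (0 : ℝ) < k := by exact_mod_cast hk
  have h0 : ∀ x : ℝ × ℝ, c3_ti k a b x =
      (k : ℝ) • (x + (-((a : ℝ) * (1 / (k : ℝ))), -((b : ℝ) * (1 / (k : ℝ))))) := by
    intro x
    unfold c3_ti
    refine Prod.ext ?_ ?_
    · show (k : ℝ) * (x.1 - a * (1 / (k : ℝ))) = (k : ℝ) * (x.1 + -((a : ℝ) * (1 / (k : ℝ))))
      ring
    · show (k : ℝ) * (x.2 - b * (1 / (k : ℝ))) = (k : ℝ) * (x.2 + -((b : ℝ) * (1 / (k : ℝ))))
      ring
  have h1 : c3_ti k a b ⁻¹' B =
      (fun x : ℝ × ℝ => x + (-((a : ℝ) * (1 / (k : ℝ))), -((b : ℝ) * (1 / (k : ℝ))))) ⁻¹'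
        ((fun x : ℝ × ℝ => (k : ℝ) • x) ⁻¹' B) := by
    ext x
    simp only [mem_preimage, h0]
  rw [h1, measure_preimage_add_right, Measure.addHaar_preimage_smul volume hk0.ne' B]
  congr 2
  simp

private theorem c3_U_cell {k : ℕ} (hk : 1 ≤ k) {a b : ℕ} (ha : a < k) (hb : b < k)
    {s : Set (ℝ × ℝ)} (hs : MeasurableSet s) :
    U (cell (1 / (k : ℝ)) a b ∩ c3_ti k a b ⁻¹' s) = ENNReal.ofReal (1 / (k : ℝ) ^ 2) * U s := by
  have hk0 : (0 : ℝ) < k := by exact_mod_cast hk
  have hm : MeasurableSet (cell (1 / (k : ℝ)) a b ∩ c3_ti k a b ⁻¹' s) :=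
    (c3_cell_meas _ _ _).inter (c3_ti_meas k a b hs)
  unfold U
  rw [Measure.restrict_apply hm, Measure.restrict_apply hs]
  have hsub : cell (1 / (k : ℝ)) a b ⊆ Icc (0 : ℝ) 1 ×ˢ Icc (0 : ℝ) 1 := by
    rintro ⟨x, y⟩ ⟨⟨hx1, hx2⟩, ⟨hy1, hy2⟩⟩
    have key : ∀ c : ℕ, c < k → ((c : ℝ) + 1) * (1 / (k : ℝ)) ≤ 1 := by
      intro c hc
      have : (c : ℝ) + 1 ≤ k := by exact_mod_cast hc
      rw [mul_one_div, div_le_one hk0]
      exact this
    have key0 : ∀ c : ℕ, 0 ≤ (c : ℝ) * (1 / (k : ℝ)) := fun c => by positivity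
    refine ⟨⟨?_, ?_⟩, ⟨?_, ?_⟩⟩
    · exact (key0 a).trans hx1
    · exact hx2.le.trans (key a ha)
    · exact (key0 b).trans hy1
    · exact hy2.le.trans (key b hb)
  rw [inter_eq_self_of_subset_left (inter_subset_left.trans hsub), c3_cell hk, ← preimage_inter,
    c3_vol hk]
  congr 1
  have hae : (hbox 1 : Set (ℝ × ℝ)) =ᵐ[volume] (Icc (0 : ℝ) 1 ×ˢ Icc (0 : ℝ) 1 : Set (ℝ × ℝ)) := by
    unfold hbox
    exact Measure.set_prod_ae_eq Ico_ae_eq_Icc Ico_ae_eq_Icc
  rw [inter_comm]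
  exact measure_congr (Filter.EventuallyEq.rfl.inter hae)

private def c3_ES (C : Set (ℝ × ℝ)) {n : ℕ} (S : Finset (Fin n)) : Set (Fin n → ℝ × ℝ) :=
  Set.univ.pi (fun i => if i ∈ S then C else Cᶜ)

private theorem c3_mem_ES {C : Set (ℝ × ℝ)} {n : ℕ} {S : Finset (Fin n)} {X : Fin n → ℝ × ℝ} :
    X ∈ c3_ES C S ↔ ∀ i, (i ∈ S ↔ X i ∈ C) := by
  unfold c3_ES
  simp only [Set.mem_pi, mem_univ, forall_true_left]
  refine forall_congr' fun i => ?_
  by_cases h : i ∈ S
  · simp [h]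
  · simp [h]

private theorem c3_ES_meas {C : Set (ℝ × ℝ)} (hC : MeasurableSet C) {n : ℕ} (S : Finset (Fin n)) :
    MeasurableSet (c3_ES C S) := by
  refine MeasurableSet.univ_pi fun i => ?_
  split_ifs
  · exact hC
  · exact hC.compl

/-- the points with indices in `S`, moved to the unit square -/
private noncomputable def c3_R (k a b : ℕ) {n : ℕ} (S : Finset (Fin n)) (X : Fin n → ℝ × ℝ)
    (j : Fin S.card) : ℝ × ℝ :=
  c3_ti k a b (X (S.equivFin.symm j))

private theorem c3_R_meas (k a b : ℕ) {n : ℕ} (S : Finset (Fin n)) :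
    Measurable (c3_R k a b S) := by
  refine measurable_pi_lambda _ fun j => ?_
  exact (c3_ti_meas k a b).comp (measurable_pi_apply _)

private theorem c3_map {n k : ℕ} (hk : 1 ≤ k) {a b : ℕ} (ha : a < k) (hb : b < k)
    (S : Finset (Fin n)) :
    Measure.map (c3_R k a b S) ((UU (Fin n)).restrict (c3_ES (cell (1 / (k : ℝ)) a b) S)) =
      (ENNReal.ofReal (1 / (k : ℝ) ^ 2) ^ S.card *
        U (cell (1 / (k : ℝ)) a b)ᶜ ^ (n - S.card)) • UU (Fin S.card) := by
  have hrect : ∀ s : Fin S.card → Set (ℝ × ℝ), (∀ j, MeasurableSet (s j)) →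
      Measure.map (c3_R k a b S) ((UU (Fin n)).restrict (c3_ES (cell (1 / (k : ℝ)) a b) S))
        (Set.univ.pi s) =
      ((ENNReal.ofReal (1 / (k : ℝ) ^ 2) ^ S.card *
        U (cell (1 / (k : ℝ)) a b)ᶜ ^ (n - S.card)) • UU (Fin S.card)) (Set.univ.pi s) := by
    intro s hs
    have hms : MeasurableSet (Set.univ.pi s) := MeasurableSet.univ_pi hs
    rw [Measure.map_apply (c3_R_meas k a b S) hms,
      Measure.restrict_apply (c3_R_meas k a b S hms)]
    have hset : c3_R k a b S ⁻¹' (Set.univ.pi s) ∩ c3_ES (cell (1 / (k : ℝ)) a b) S =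
        Set.univ.pi (fun i : Fin n => if h : i ∈ S then
          cell (1 / (k : ℝ)) a b ∩ c3_ti k a b ⁻¹' (s (S.equivFin ⟨i, h⟩))
          else (cell (1 / (k : ℝ)) a b)ᶜ) := by
      ext X
      simp only [mem_inter_iff, mem_preimage, Set.mem_pi, mem_univ, forall_true_left, c3_mem_ES]
      constructor
      · rintro ⟨h1, h2⟩ i
        by_cases h : i ∈ S
        · rw [dif_pos h]
          refine ⟨(h2 i).1 h, ?_⟩
          have := h1 (S.equivFin ⟨i, h⟩)
          unfold c3_R at this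
          rw [Equiv.symm_apply_apply] at this
          exact this
        · rw [dif_neg h]
          exact fun hc => h ((h2 i).2 hc)
      · intro h
        constructor
        · intro j
          have h3 := h (S.equivFin.symm j)
          rw [dif_pos (S.equivFin.symm j).2] at h3
          have h4 := h3.2
          rw [mem_preimage] at h4
          have h5 : S.equivFin ⟨(S.equivFin.symm j).1, (S.equivFin.symm j).2⟩ = j :=
            Equiv.apply_symm_apply _ _
          rw [h5] at h4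
          exact h4
        · intro i
          have h3 := h i
          by_cases h' : i ∈ S
          · rw [dif_pos h'] at h3
            exact ⟨fun _ => h3.1, fun _ => h'⟩
          · rw [dif_neg h'] at h3
            exact ⟨fun h'' => absurd h'' h', fun h'' => absurd h'' h3⟩
    rw [hset]
    unfold UU
    rw [Measure.pi_pi, Measure.smul_apply, Measure.pi_pi, smul_eq_mul,
      ← Fintype.prod_subtype_mul_prod_subtype (fun i : Fin n => i ∈ S)]
    have e1 : ∏ i : {x : Fin n // x ∈ S}, U (if h : i.1 ∈ S then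
          cell (1 / (k : ℝ)) a b ∩ c3_ti k a b ⁻¹' (s (S.equivFin ⟨i.1, h⟩))
          else (cell (1 / (k : ℝ)) a b)ᶜ) =
        ENNReal.ofReal (1 / (k : ℝ) ^ 2) ^ S.card * ∏ j, U (s j) := by
      have e2 : ∀ i : {x : Fin n // x ∈ S}, U (if h : i.1 ∈ S then
          cell (1 / (k : ℝ)) a b ∩ c3_ti k a b ⁻¹' (s (S.equivFin ⟨i.1, h⟩))
          else (cell (1 / (k : ℝ)) a b)ᶜ) =
          ENNReal.ofReal (1 / (k : ℝ) ^ 2) * U (s (S.equivFin i)) := by
        intro i
        rw [dif_pos i.2]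
        exact c3_U_cell hk ha hb (hs _)
      rw [Finset.prod_congr rfl (fun i _ => e2 i), Finset.prod_mul_distrib, Finset.prod_const,
        Equiv.prod_comp S.equivFin (fun j => U (s j)), Finset.card_univ, Fintype.card_coe]
    have e3 : ∏ i : {x : Fin n // ¬ x ∈ S}, U (if h : i.1 ∈ S then
          cell (1 / (k : ℝ)) a b ∩ c3_ti k a b ⁻¹' (s (S.equivFin ⟨i.1, h⟩))
          else (cell (1 / (k : ℝ)) a b)ᶜ) =
        U (cell (1 / (k : ℝ)) a b)ᶜ ^ (n - S.card) := by
      have e2 : ∀ i : {x : Fin n // ¬ x ∈ S}, U (if h : i.1 ∈ S then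
          cell (1 / (k : ℝ)) a b ∩ c3_ti k a b ⁻¹' (s (S.equivFin ⟨i.1, h⟩))
          else (cell (1 / (k : ℝ)) a b)ᶜ) = U (cell (1 / (k : ℝ)) a b)ᶜ := by
        intro i
        rw [dif_neg i.2]
      rw [Finset.prod_congr rfl (fun i _ => e2 i), Finset.prod_const, Finset.card_univ,
        Fintype.card_subtype_compl, Fintype.card_fin, Fintype.card_coe]
    have e1' : ∀ inst : Fintype {x : Fin n // x ∈ S},
        (@Finset.univ _ inst).prod (fun i => U (if h : i.1 ∈ S then
          cell (1 / (k : ℝ)) a b ∩ c3_ti k a b ⁻¹' (s (S.equivFin ⟨i.1, h⟩))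
          else (cell (1 / (k : ℝ)) a b)ᶜ)) =
        ENNReal.ofReal (1 / (k : ℝ) ^ 2) ^ S.card * ∏ j, U (s j) := by
      intro inst
      rw [Subsingleton.elim inst (Finset.fintypeCoeSort S)]
      exact e1
    rw [e1', e3]
    ring
  refine ext_of_generate_finite _ generateFrom_pi.symm isPiSystem_pi ?_ ?_
  · rintro _ ⟨s, hs, rfl⟩
    exact hrect s (fun j => hs j (mem_univ j))
  · have := hrect (fun _ => univ) (fun _ => MeasurableSet.univ)
    rwa [Set.pi_univ] at this

/-- Decompose according to the set `S` of the indices of the points in the cell; on this event the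
points `k (X i - corner)`, `i ∈ S`, are (up to the factor `k^{-2 |S|} (1 - k^{-2})^{n - |S|}`)
independent and uniform in the unit square. -/
theorem cond {n k : ℕ} (hk : 1 ≤ k) (Φ : ∀ (ι : Type) [Fintype ι], (ι → ℝ × ℝ) → ℝ) (hΦ : Inv Φ)
    (hint : ∀ m, Integrable (Φ (Fin m)) (UU (Fin m))) {a b : ℕ} (ha : a < k) (hb : b < k) :
    Integrable (fun X : Fin n → ℝ × ℝ =>
      Φ (CI (1 / (k : ℝ)) X a b) (scl k (CX (1 / (k : ℝ)) X a b))) (UU (Fin n)) ∧
    ∫ X, Φ (CI (1 / (k : ℝ)) X a b) (scl k (CX (1 / (k : ℝ)) X a b)) ∂(UU (Fin n)) =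
      ∑ m ∈ Finset.range (n + 1), bw n k m * ∫ X, Φ (Fin m) X ∂(UU (Fin m)) := by
  classical
  have hk0 : (0 : ℝ) < k := by exact_mod_cast hk
  have hk1 : (1 : ℝ) ≤ k := by exact_mod_cast hk
  set C : Set (ℝ × ℝ) := cell (1 / (k : ℝ)) a b with hC
  have hCm : MeasurableSet C := c3_cell_meas _ _ _
  set f : (Fin n → ℝ × ℝ) → ℝ := fun X =>
    Φ (CI (1 / (k : ℝ)) X a b) (scl k (CX (1 / (k : ℝ)) X a b)) with hf
  -- the law restricted to the events `ES`
  have hsum : UU (Fin n) = ∑ S : Finset (Fin n), (UU (Fin n)).restrict (c3_ES C S) := by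
    have h1 : (⋃ S : Finset (Fin n), c3_ES C S) = univ := by
      rw [eq_univ_iff_forall]
      intro X
      rw [mem_iUnion]
      refine ⟨Finset.univ.filter (fun i => X i ∈ C), ?_⟩
      rw [c3_mem_ES]
      intro i
      simp
    have h2 : Pairwise (Function.onFun Disjoint (fun S : Finset (Fin n) => c3_ES C S)) := by
      intro S S' hne
      rw [Function.onFun, Set.disjoint_left]
      intro X hX hX'
      apply hne
      ext i
      rw [c3_mem_ES] at hX hX'
      rw [hX i, hX' i]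
    have h3 := Measure.restrict_iUnion (μ := UU (Fin n)) h2 (fun S => c3_ES_meas hCm S)
    rw [h1, Measure.restrict_univ, Measure.sum_fintype] at h3
    exact h3
  have hUC : U C = ENNReal.ofReal (1 / (k : ℝ) ^ 2) := by
    have := c3_U_cell hk ha hb MeasurableSet.univ
    rwa [preimage_univ, inter_univ, measure_univ, mul_one] at this
  have hc1 : (1 : ℝ) / (k : ℝ) ^ 2 ≤ 1 := by
    rw [div_le_one (by positivity)]
    nlinarith
  have hc0 : (0 : ℝ) ≤ 1 / (k : ℝ) ^ 2 := by positivity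
  have hUCc : U Cᶜ = ENNReal.ofReal (1 - 1 / (k : ℝ) ^ 2) := by
    rw [prob_compl_eq_one_sub hCm, hUC, ENNReal.ofReal_sub _ hc0, ENNReal.ofReal_one]
  have hw : ∀ S : Finset (Fin n), (ENNReal.ofReal (1 / (k : ℝ) ^ 2) ^ S.card *
      U Cᶜ ^ (n - S.card)) =
      ENNReal.ofReal ((1 / (k : ℝ) ^ 2) ^ S.card * (1 - 1 / (k : ℝ) ^ 2) ^ (n - S.card)) := by
    intro S
    rw [hUCc, ENNReal.ofReal_mul (by positivity), ENNReal.ofReal_pow hc0,
      ENNReal.ofReal_pow (by linarith)]
  -- on `ES`, the functional is a function of the moved points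
  have hES : ∀ S : Finset (Fin n), ∀ X ∈ c3_ES C S, f X = Φ (Fin S.card) (c3_R k a b S X) := by
    intro S X hX
    rw [c3_mem_ES] at hX
    let e : Fin S.card ≃ CI (1 / (k : ℝ)) X a b :=
      S.equivFin.symm.trans (Equiv.subtypeEquivRight fun i => hX i)
    exact (hΦ (Fin S.card) (CI (1 / (k : ℝ)) X a b) e (scl k (CX (1 / (k : ℝ)) X a b))).symm
  have hae : ∀ S : Finset (Fin n), f =ᵐ[(UU (Fin n)).restrict (c3_ES C S)]
      fun X => Φ (Fin S.card) (c3_R k a b S X) := by
    intro S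
    rw [Filter.EventuallyEq, ae_restrict_iff' (c3_ES_meas hCm S)]
    exact Filter.Eventually.of_forall fun X hX => hES S X hX
  have hmap : ∀ S : Finset (Fin n),
      Measure.map (c3_R k a b S) ((UU (Fin n)).restrict (c3_ES C S)) =
      ENNReal.ofReal ((1 / (k : ℝ) ^ 2) ^ S.card * (1 - 1 / (k : ℝ) ^ 2) ^ (n - S.card)) •
        UU (Fin S.card) := by
    intro S
    rw [← hw S]
    exact c3_map hk ha hb S
  have hintS : ∀ S : Finset (Fin n), Integrable f ((UU (Fin n)).restrict (c3_ES C S)) := by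
    intro S
    refine Integrable.congr ?_ (hae S).symm
    have h1 : Integrable (Φ (Fin S.card))
        (Measure.map (c3_R k a b S) ((UU (Fin n)).restrict (c3_ES C S))) := by
      rw [hmap S]
      exact (hint S.card).smul_measure ENNReal.ofReal_ne_top
    exact (integrable_map_measure h1.aestronglyMeasurable
      (c3_R_meas k a b S).aemeasurable).1 h1
  have hintegS : ∀ S : Finset (Fin n), ∫ X, f X ∂((UU (Fin n)).restrict (c3_ES C S)) =
      ((1 / (k : ℝ) ^ 2) ^ S.card * (1 - 1 / (k : ℝ) ^ 2) ^ (n - S.card)) *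
        ∫ X, Φ (Fin S.card) X ∂(UU (Fin S.card)) := by
    intro S
    have h1 : Integrable (Φ (Fin S.card))
        (Measure.map (c3_R k a b S) ((UU (Fin n)).restrict (c3_ES C S))) := by
      rw [hmap S]
      exact (hint S.card).smul_measure ENNReal.ofReal_ne_top
    rw [integral_congr_ae (hae S),
      ← integral_map (c3_R_meas k a b S).aemeasurable h1.aestronglyMeasurable, hmap S,
      integral_smul_measure, ENNReal.toReal_ofReal, smul_eq_mul]
    have : (0 : ℝ) ≤ 1 - 1 / (k : ℝ) ^ 2 := by linarith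
    positivity
  have hintf : Integrable f (UU (Fin n)) := by
    rw [hsum]
    exact integrable_finsetSum_measure.2 fun S _ => hintS S
  refine ⟨hintf, ?_⟩
  have hI : ∫ X, f X ∂(UU (Fin n)) =
      ∑ S : Finset (Fin n), ∫ X, f X ∂((UU (Fin n)).restrict (c3_ES C S)) := by
    conv_lhs => rw [hsum]
    exact integral_finsetSum_measure fun S _ => hintS S
  rw [hI, Finset.sum_congr rfl (fun S _ => hintegS S), ← Finset.powerset_univ,
    Finset.sum_powerset_apply_card (fun m => ((1 / (k : ℝ) ^ 2) ^ m *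
      (1 - 1 / (k : ℝ) ^ 2) ^ (n - m)) * ∫ X, Φ (Fin m) X ∂(UU (Fin m))), Finset.card_univ,
    Fintype.card_fin]
  refine Finset.sum_congr rfl fun m _ => ?_
  unfold bw
  rw [nsmul_eq_mul]
  ring

end Pool.Agent.Lib.H77M
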