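import Pool.Agent.Lib.H77M.A4
import Pool.Agent.Lib.H77M.A7

/-!
# Project H77M, chunk D3: the smoothed Green function `kk`
-/

open MeasureTheory Set ProbabilityTheory
open scoped ContDiff

namespace Pool.Agent.Lib.H77M

/-- dominating function -/
noncomputable def d3G (c C1 C2 L s : ℝ) : ℝ :=
  (Iic (L ^ 2)).indicator (fun s => C1 * (1 / s + 1 / L ^ 2) + 1 / L ^ 2) s +
    C2 / L ^ 2 * Real.exp (-c * (s / L ^ 2))

theorem d3_bound : ∃ c C1 C2 : ℝ, 0 < c ∧ 0 < C1 ∧ 0 < C2 ∧ ∀ L : ℝ, 0 < L → ∀ s : ℝ, 0 < s →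
    ∀ x y : ℝ × ℝ, |p L s x y - 1 / L ^ 2| ≤ d3G c C1 C2 L s := by
  obtain ⟨c, C2, hc, hC2, h2⟩ := p_mix
  obtain ⟨C1, hC1, h1⟩ := p_le
  refine ⟨c, C1, C2, hc, hC1, hC2, fun L hL s hs x y => ?_⟩
  unfold d3G
  have e0 : 0 ≤ C2 / L ^ 2 * Real.exp (-c * (s / L ^ 2)) := by positivity
  rcases le_or_gt s (L ^ 2) with h | h
  · rw [indicator_of_mem (show s ∈ Iic (L ^ 2) from h)]
    have h3 := h1 L hL s hs x y
    have h4 := (p_pos hL hs x y).le
    have h5 : 0 < 1 / L ^ 2 := by positivity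
    rw [abs_le]
    constructor
    · have : 0 ≤ C1 * (1 / s + 1 / L ^ 2) := by positivity
      linarith
    · linarith
  · rw [indicator_of_notMem (show s ∉ Iic (L ^ 2) from not_le.2 h), zero_add]
    exact h2 L hL s h.le x y

theorem d3_G_nonneg {c C1 C2 L s : ℝ} (hC1 : 0 < C1) (hC2 : 0 < C2) (hs : 0 < s) :
    0 ≤ d3G c C1 C2 L s := by
  unfold d3G
  have : 0 ≤ (Iic (L ^ 2)).indicator (fun s => C1 * (1 / s + 1 / L ^ 2) + 1 / L ^ 2) s := by
    apply indicator_apply_nonneg
    intro _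
    positivity
  positivity

theorem d3_G_int1 {C1 L t : ℝ} (ht : 0 < t) :
    IntegrableOn (fun s => (Iic (L ^ 2)).indicator
      (fun s => C1 * (1 / s + 1 / L ^ 2) + 1 / L ^ 2) s) (Ioi t) := by
  have h : IntegrableOn (fun s : ℝ => C1 * (1 / s + 1 / L ^ 2) + 1 / L ^ 2) (Icc t (L ^ 2)) := by
    apply ContinuousOn.integrableOn_compact isCompact_Icc
    apply ContinuousOn.add _ continuousOn_const
    apply ContinuousOn.mul continuousOn_const
    apply ContinuousOn.add _ continuousOn_const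
    apply ContinuousOn.div continuousOn_const continuousOn_id
    intro s hs
    have : 0 < s := lt_of_lt_of_le ht hs.1
    exact this.ne'
  unfold IntegrableOn
  rw [integrable_indicator_iff measurableSet_Iic]
  unfold IntegrableOn
  rw [Measure.restrict_restrict measurableSet_Iic]
  apply h.mono_set
  rintro s ⟨h1, h2⟩
  exact ⟨(le_of_lt h2), h1⟩

theorem d3_G_int2 {c C2 L t : ℝ} (hL : 0 < L) (hc : 0 < c) :
    IntegrableOn (fun s => C2 / L ^ 2 * Real.exp (-c * (s / L ^ 2))) (Ioi t) := by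
  have h := integrableOn_exp_mul_Ioi (a := -(c / L ^ 2)) (by have : 0 < c / L ^ 2 := by positivity
                                                             linarith) t
  have e : (fun s => C2 / L ^ 2 * Real.exp (-c * (s / L ^ 2))) =
      fun s => C2 / L ^ 2 * Real.exp (-(c / L ^ 2) * s) := by
    funext s
    congr 2
    ring
  rw [e]
  exact h.const_mul _

theorem d3_G_int {c C1 C2 L t : ℝ} (hL : 0 < L) (ht : 0 < t) (hc : 0 < c) :
    IntegrableOn (d3G c C1 C2 L) (Ioi t) :=
  (d3_G_int1 ht).add (d3_G_int2 hL hc)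

theorem d3_meas {L t : ℝ} (hL : 0 < L) (ht : 0 < t) (x y : ℝ × ℝ) :
    ContinuousOn (fun s => p L s x y - 1 / L ^ 2) (Ioi t) := by
  apply ContinuousOn.sub _ continuousOn_const
  have h : ContinuousOn (fun s : ℝ => ((s, (x, y)) : ℝ × (ℝ × ℝ) × (ℝ × ℝ))) (Ioi t) := by
    fun_prop
  have h2 := (p_cont hL).comp h (fun s hs => ⟨lt_trans ht (mem_Ioi.1 hs), mem_univ _⟩)
  simp only [Function.comp_def] at h2
  exact h2

/-- the integrand defining `kk` is integrable -/
theorem kk_integrable {L t : ℝ} (hL : 0 < L) (ht : 0 < t) (x y : ℝ × ℝ) :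
    IntegrableOn (fun s => p L s x y - 1 / L ^ 2) (Ioi t) := by
  obtain ⟨c, C1, C2, hc, hC1, hC2, hb⟩ := d3_bound
  apply Integrable.mono' (d3_G_int (C1 := C1) (C2 := C2) hL ht hc)
  · exact (d3_meas hL ht x y).aestronglyMeasurable measurableSet_Ioi
  · filter_upwards [ae_restrict_mem measurableSet_Ioi] with s hs
    exact hb L hL s (lt_trans ht (mem_Ioi.1 hs)) x y

theorem kk_cont {L t : ℝ} (hL : 0 < L) (ht : 0 < t) :
    Continuous (fun v : (ℝ × ℝ) × (ℝ × ℝ) => kk L t v.1 v.2) := by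
  obtain ⟨c, C1, C2, hc, hC1, hC2, hb⟩ := d3_bound
  unfold kk
  apply continuous_of_dominated (bound := d3G c C1 C2 L)
  · intro v
    exact (d3_meas hL ht v.1 v.2).aestronglyMeasurable measurableSet_Ioi
  · intro v
    filter_upwards [ae_restrict_mem measurableSet_Ioi] with s hs
    exact hb L hL s (lt_trans ht (mem_Ioi.1 hs)) v.1 v.2
  · exact d3_G_int hL ht hc
  · filter_upwards [ae_restrict_mem measurableSet_Ioi] with s hs
    apply Continuous.sub _ continuous_const
    have h : Continuous (fun v : (ℝ × ℝ) × (ℝ × ℝ) => ((s, v) : ℝ × (ℝ × ℝ) × (ℝ × ℝ))) := by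
      fun_prop
    rw [← continuousOn_univ]
    have h2 := (p_cont hL).comp (h.continuousOn (s := univ)) (fun v _ => ⟨lt_trans ht (mem_Ioi.1 hs), mem_univ _⟩)
    simp only [Function.comp_def] at h2
    exact h2

theorem kk_symm {L t : ℝ} (hL : 0 < L) (ht : 0 < t) (x y : ℝ × ℝ) :
    kk L t x y = kk L t y x := by
  unfold kk
  apply setIntegral_congr_fun measurableSet_Ioi
  intro s hs
  have hs' : 0 < s := lt_trans ht (mem_Ioi.1 hs)
  change p L s x y - 1 / L ^ 2 = p L s y x - 1 / L ^ 2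
  rw [p_symm hL hs' x y]

theorem d3_CP {L t : ℝ} (hL : 0 < L) (ht : 0 < t) (x : ℝ × ℝ) : CP L (kk L t x) where
  cont := by
    have h : Continuous (fun y : ℝ × ℝ => ((x, y) : (ℝ × ℝ) × (ℝ × ℝ))) := by fun_prop
    have h2 := (kk_cont hL ht).comp h
    simp only [Function.comp_def] at h2
    exact h2
  even1 := by
    intro a b
    unfold kk
    apply setIntegral_congr_fun measurableSet_Ioi
    intro s hs
    have hs' : 0 < s := lt_trans ht (mem_Ioi.1 hs)
    change p L s x (-a, b) - 1 / L ^ 2 = p L s x (a, b) - 1 / L ^ 2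
    rw [(p_EP hL hs' x).even1 a b]
  even2 := by
    intro a b
    unfold kk
    apply setIntegral_congr_fun measurableSet_Ioi
    intro s hs
    have hs' : 0 < s := lt_trans ht (mem_Ioi.1 hs)
    change p L s x (a, -b) - 1 / L ^ 2 = p L s x (a, b) - 1 / L ^ 2
    rw [(p_EP hL hs' x).even2 a b]
  per1 := by
    intro a b
    unfold kk
    apply setIntegral_congr_fun measurableSet_Ioi
    intro s hs
    have hs' : 0 < s := lt_trans ht (mem_Ioi.1 hs)
    change p L s x (a + 2 * L, b) - 1 / L ^ 2 = p L s x (a, b) - 1 / L ^ 2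
    rw [(p_EP hL hs' x).per1 a b]
  per2 := by
    intro a b
    unfold kk
    apply setIntegral_congr_fun measurableSet_Ioi
    intro s hs
    have hs' : 0 < s := lt_trans ht (mem_Ioi.1 hs)
    change p L s x (a, b + 2 * L) - 1 / L ^ 2 = p L s x (a, b) - 1 / L ^ 2
    rw [(p_EP hL hs' x).per2 a b]


theorem d3_box_vol {L : ℝ} (hL : 0 < L) : ∫ _ in box L, (1 : ℝ) = L ^ 2 := by
  rw [integral_const, smul_eq_mul, mul_one, measureReal_restrict_apply_univ]
  unfold box
  rw [Measure.real, Measure.volume_eq_prod, Measure.prod_prod, Real.volume_Icc, sub_zero,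
    ENNReal.toReal_mul, ENNReal.toReal_ofReal hL.le]
  ring

theorem d3_int_p_one {L s : ℝ} (hL : 0 < L) (hs : 0 < s) (x : ℝ × ℝ) :
    ∫ y in box L, p L s x y = 1 := by
  have h := int_p hL hs (CP_const L 1) x
  rw [P_const] at h
  rw [← h]
  congr 1
  funext y
  ring

theorem d3_box_fin (L : ℝ) : volume (box L) ≠ ⊤ := by
  unfold box
  exact (isCompact_Icc.prod isCompact_Icc).measure_lt_top.ne

theorem d3_inst (L : ℝ) : IsFiniteMeasure ((volume : Measure (ℝ × ℝ)).restrict (box L)) :=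
  ⟨by rw [Measure.restrict_apply_univ]; exact lt_top_iff_ne_top.2 (d3_box_fin L)⟩

theorem d3_inst2 : IsProbabilityMeasure gam := by
  unfold gam; infer_instance

attribute [local instance] d3_inst d3_inst2

/-- joint integrability -/
theorem d3_prod_int {L t : ℝ} (hL : 0 < L) (ht : 0 < t) {β : Type*} [MeasurableSpace β]
    [TopologicalSpace β] [BorelSpace β] [SecondCountableTopology β]
    (μ : Measure β) [IsFiniteMeasure μ] {u v : β → ℝ × ℝ} (hu : Continuous u) (hv : Continuous v) :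
    Integrable (fun z : β × ℝ => p L z.2 (u z.1) (v z.1) - 1 / L ^ 2)
      (μ.prod (volume.restrict (Ioi t))) := by
  obtain ⟨c, C1, C2, hc, hC1, hC2, hb⟩ := d3_bound
  have hG : Integrable (fun z : β × ℝ => d3G c C1 C2 L z.2) (μ.prod (volume.restrict (Ioi t))) :=
    Integrable.comp_snd (d3_G_int (C1 := C1) (C2 := C2) hL ht hc) μ
  have hr : μ.prod (volume.restrict (Ioi t)) = (μ.prod volume).restrict (univ ×ˢ Ioi t) := by
    rw [← Measure.prod_restrict, Measure.restrict_univ]
  have hm : MeasurableSet ((univ : Set β) ×ˢ Ioi t) := MeasurableSet.univ.prod measurableSet_Ioi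
  refine Integrable.mono' hG ?_ ?_
  · rw [hr]
    apply ContinuousOn.aestronglyMeasurable _ hm
    apply ContinuousOn.sub _ continuousOn_const
    have h : Continuous (fun z : β × ℝ => ((z.2, (u z.1, v z.1)) : ℝ × (ℝ × ℝ) × (ℝ × ℝ))) := by
      fun_prop
    have h2 := (p_cont hL).comp (h.continuousOn (s := univ ×ˢ Ioi t))
      (fun z hz => ⟨lt_trans ht (mem_Ioi.1 hz.2), mem_univ _⟩)
    simp only [Function.comp_def] at h2
    exact h2
  · rw [hr]
    filter_upwards [ae_restrict_mem hm] with z hz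
    exact hb L hL z.2 (lt_trans ht (mem_Ioi.1 hz.2)) (u z.1) (v z.1)

theorem int_kk {L t : ℝ} (hL : 0 < L) (ht : 0 < t) (x : ℝ × ℝ) :
    ∫ y in box L, kk L t x y = 0 := by
  unfold kk
  rw [integral_integral_swap (f := fun y s => p L s x y - 1 / L ^ 2)
    (d3_prod_int hL ht _ (u := fun _ => x) (v := fun y => y) continuous_const continuous_id)]
  rw [setIntegral_eq_zero_of_forall_eq_zero]
  intro s hs
  have hs' : 0 < s := lt_trans ht (mem_Ioi.1 hs)
  have hi : Integrable (fun y => p L s x y) (volume.restrict (box L)) := by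
    obtain ⟨M, _, hM⟩ := CP_bdd hL (p_EP hL hs' x).toCP
    apply Integrable.of_bound ((p_EP hL hs' x).toCP.cont.aestronglyMeasurable) M
    filter_upwards with y
    exact hM y
  rw [integral_sub hi (integrable_const _), d3_int_p_one hL hs']
  have : ∫ _ in box L, (1 / L ^ 2 : ℝ) = 1 / L ^ 2 * ∫ _ in box L, (1 : ℝ) := by
    rw [← integral_const_mul]
    simp
  rw [this, d3_box_vol hL]
  have : L ^ 2 ≠ 0 := by positivity
  field_simp
  ring

theorem d3_shift (f : ℝ → ℝ) (t r : ℝ) : ∫ s in Ioi t, f (s + r) = ∫ s in Ioi (t + r), f s := by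
  have h := (measurePreserving_add_right (volume : Measure ℝ) r).setIntegral_preimage_emb
    (measurableEmbedding_addRight r) f (Ioi (t + r))
  rw [← h]
  congr 1
  have : (fun x => x + r) ⁻¹' Ioi (t + r) = Ioi t := by
    ext s; simp
  rw [this]

theorem P_kk {L t r : ℝ} (hL : 0 < L) (ht : 0 < t) (hr : 0 ≤ r) (x : ℝ × ℝ) :
    P r (kk L t x) = kk L (t + r) x := by
  funext y
  have e1 : P r (kk L t x) y = ∫ z, (∫ s in Ioi t,
      (p L s x (y.1 + √(2 * r) * z.1, y.2 + √(2 * r) * z.2) - 1 / L ^ 2)) ∂gam := rfl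
  have hv : Continuous (fun z : ℝ × ℝ => ((y.1 + √(2 * r) * z.1, y.2 + √(2 * r) * z.2) : ℝ × ℝ)) := by
    fun_prop
  have hint := d3_prod_int hL ht gam (u := fun _ => x) continuous_const hv
  have hint' : Integrable (Function.uncurry (fun (z : ℝ × ℝ) (s : ℝ) =>
      p L s x (y.1 + √(2 * r) * z.1, y.2 + √(2 * r) * z.2) - 1 / L ^ 2))
      (gam.prod (volume.restrict (Ioi t))) := by
    refine hint.congr (Filter.Eventually.of_forall fun z => ?_)
    simp only [Function.uncurry]
  rw [e1, integral_integral_swap hint']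
  have e2 : ∫ s in Ioi t, ∫ z, (p L s x (y.1 + √(2 * r) * z.1, y.2 + √(2 * r) * z.2) -
      1 / L ^ 2) ∂gam = ∫ s in Ioi t, (p L (s + r) x y - 1 / L ^ 2) := by
    apply setIntegral_congr_fun measurableSet_Ioi
    intro s hs
    have hs' : 0 < s := lt_trans ht (mem_Ioi.1 hs)
    have h1 := P_add r hL (p_EP hL hs' x).toCP (CP_const L (-(1 / L ^ 2))) y
    rw [P_const, P_p hL hs' hr x] at h1
    change P r (fun y => p L s x y - 1 / L ^ 2) y = p L (s + r) x y - 1 / L ^ 2
    simp only [sub_eq_add_neg]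
    exact h1
  rw [e2]
  unfold kk
  exact d3_shift (fun s => p L s x y - 1 / L ^ 2) t r

theorem kk_EP {L t : ℝ} (hL : 0 < L) (ht : 0 < t) (x : ℝ × ℝ) : EP L (kk L t x) := by
  have h := P_kk hL (half_pos ht) (half_pos ht).le x
  rw [add_halves] at h
  rw [← h]
  exact P_EP hL (half_pos ht) (d3_CP hL (half_pos ht) x)


theorem d3_D1_add {f g : ℝ × ℝ → ℝ} (hf : ContDiff ℝ ∞ f) (hg : ContDiff ℝ ∞ g) (c : ℝ) :
    D1 (fun y => f y + c + g y) = fun y => D1 f y + D1 g y := by
  funext y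
  unfold D1
  have h1 : DifferentiableAt ℝ f y := (hf.differentiable (by simp)).differentiableAt
  have h2 : DifferentiableAt ℝ g y := (hg.differentiable (by simp)).differentiableAt
  rw [fderiv_fun_add (h1.add_const c) h2, fderiv_add_const]
  rfl

theorem d3_D2_add {f g : ℝ × ℝ → ℝ} (hf : ContDiff ℝ ∞ f) (hg : ContDiff ℝ ∞ g) (c : ℝ) :
    D2 (fun y => f y + c + g y) = fun y => D2 f y + D2 g y := by
  funext y
  unfold D2
  have h1 : DifferentiableAt ℝ f y := (hf.differentiable (by simp)).differentiableAt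
  have h2 : DifferentiableAt ℝ g y := (hg.differentiable (by simp)).differentiableAt
  rw [fderiv_fun_add (h1.add_const c) h2, fderiv_add_const]
  rfl

theorem d3_lap_add {f g : ℝ × ℝ → ℝ} (hf : ContDiff ℝ ∞ f) (hg : ContDiff ℝ ∞ g) (c : ℝ)
    (y : ℝ × ℝ) : lap (fun y => f y + c + g y) y = lap f y + lap g y := by
  unfold lap
  rw [d3_D1_add hf hg c, d3_D2_add hf hg c]
  have h1 := d3_D1_add (D_smooth hf).1 (D_smooth hg).1 0
  have h2 := d3_D2_add (D_smooth hf).2.1 (D_smooth hg).2.1 0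
  simp only [add_zero] at h1 h2
  rw [h1, h2]
  ring

theorem d3_split {L t T : ℝ} (hL : 0 < L) (ht : 0 < t) (hT : t ≤ T) (x y : ℝ × ℝ) :
    kk L t x y = (∫ s in t..T, P (s - t / 2) (p L (t / 2) x) y) + (-((T - t) / L ^ 2)) +
      kk L T x y := by
  have h1 : kk L t x y = (∫ s in t..T, (p L s x y - 1 / L ^ 2)) + kk L T x y := by
    have hU : Ioi t = Ioc t T ∪ Ioi T := (Ioc_union_Ioi_eq_Ioi hT).symm
    unfold kk
    rw [intervalIntegral.integral_of_le hT, hU, setIntegral_union _ measurableSet_Ioi]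
    · exact (kk_integrable hL ht x y).mono_set Ioc_subset_Ioi_self
    · exact (kk_integrable hL ht x y).mono_set (Ioi_subset_Ioi hT)
    · rw [Set.disjoint_left]
      intro s h2 h3
      exact absurd h2.2 (not_le.2 h3)
  have hi : IntervalIntegrable (fun s => p L s x y) volume t T := by
    rw [intervalIntegrable_iff_integrableOn_Ioc_of_le hT]
    have h3 := (kk_integrable hL ht x y).mono_set (Ioc_subset_Ioi_self : Ioc t T ⊆ Ioi t)
    have h4 := h3.add (integrable_const (c := 1 / L ^ 2) (μ := volume.restrict (Ioc t T)))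
    refine h4.congr (Filter.Eventually.of_forall fun s => ?_)
    simp
  rw [h1, intervalIntegral.integral_sub hi (by simp), intervalIntegral.integral_const,
    smul_eq_mul]
  have h5 : ∫ s in t..T, p L s x y = ∫ s in t..T, P (s - t / 2) (p L (t / 2) x) y := by
    apply intervalIntegral.integral_congr
    intro s hs
    rw [uIcc_of_le hT] at hs
    have h6 : 0 ≤ s - t / 2 := by linarith [hs.1]
    have h7 := P_p hL (half_pos ht) h6 x
    rw [show t / 2 + (s - t / 2) = s by ring] at h7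
    change p L s x y = P (s - t / 2) (p L (t / 2) x) y
    rw [h7]
  rw [h5]
  ring

theorem d3_lap_eq {L t T : ℝ} (hL : 0 < L) (ht : 0 < t) (hT : t ≤ T) (x y : ℝ × ℝ) :
    lap (kk L t x) y = p L T x y - p L t x y + lap (kk L T x) y := by
  have hT0 : 0 < T := lt_of_lt_of_le ht hT
  have hT' : t / 2 ≤ T - t / 2 := by linarith
  obtain ⟨hE, hl, _⟩ := timeint hL (half_pos ht) hT' (p_EP hL (half_pos ht) x).toCP
  have e : kk L t x = fun y => (∫ s in (t / 2)..(T - t / 2), P s (p L (t / 2) x) y) +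
      (-((T - t) / L ^ 2)) + kk L T x y := by
    funext y
    rw [d3_split hL ht hT x y]
    congr 2
    have h := intervalIntegral.integral_comp_sub_right
      (a := t) (b := T) (fun s => P s (p L (t / 2) x) y) (t / 2)
    rw [h, sub_half]
  rw [e, d3_lap_add hE.smooth (kk_EP hL hT0 x).smooth, hl y, P_p hL (half_pos ht) (by linarith) x,
    P_p hL (half_pos ht) (half_pos ht).le x, add_halves]
  congr 3
  ring_nf

theorem d3_lap_small {L t T M : ℝ} (hL : 0 < L) (ht : 0 < t) (hT : t < T) (x y : ℝ × ℝ)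
    (hM : ∀ y, |kk L t x y| ≤ M) : |lap (kk L T x) y| ≤ 4 * M / (T - t) := by
  have h := P_kk hL ht (sub_nonneg.2 hT.le) x
  rw [show t + (T - t) = T by ring] at h
  have h2 := Hess_P hL (sub_pos.2 hT) (kk_EP hL ht x).toCP hM y
  rw [h] at h2
  unfold lap
  have h3 := abs_add_le (D1 (D1 (kk L T x)) y) (D2 (D2 (kk L T x)) y)
  have h4 : 2 * M / (T - t) + 2 * M / (T - t) = 4 * M / (T - t) := by ring
  linarith [h2.1, h2.2.2.2]

theorem lap_kk {L t : ℝ} (hL : 0 < L) (ht : 0 < t) (x y : ℝ × ℝ) :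
    lap (kk L t x) y = 1 / L ^ 2 - p L t x y := by
  obtain ⟨M, hM0, hM⟩ := CP_bdd hL (kk_EP hL ht x).toCP
  obtain ⟨c, C, hc, hC, hmix⟩ := p_mix
  have key : ∀ T : ℝ, max (L ^ 2) (t + 1) ≤ T → |lap (kk L t x) y - (1 / L ^ 2 - p L t x y)| ≤
      C / L ^ 2 * Real.exp (-c * (T / L ^ 2)) + 4 * M / (T - t) := by
    intro T hT
    have h1 : L ^ 2 ≤ T := le_trans (le_max_left _ _) hT
    have h2 : t < T := by have := le_trans (le_max_right _ _) hT; linarith
    have h3 := d3_lap_eq hL ht h2.le x y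
    have h4 := d3_lap_small hL ht h2 x y hM
    have h5 := hmix L hL T h1 x y
    have e : lap (kk L t x) y - (1 / L ^ 2 - p L t x y) =
        (p L T x y - 1 / L ^ 2) + lap (kk L T x) y := by rw [h3]; ring
    rw [e]
    exact (abs_add_le _ _).trans (add_le_add h5 h4)
  have lim : Filter.Tendsto (fun T : ℝ => C / L ^ 2 * Real.exp (-c * (T / L ^ 2)) +
      4 * M / (T - t)) Filter.atTop (nhds (C / L ^ 2 * 0 + 0)) := by
    apply Filter.Tendsto.add
    · apply Filter.Tendsto.const_mul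
      apply Real.tendsto_exp_atBot.comp
      have : (fun T : ℝ => -c * (T / L ^ 2)) = fun T : ℝ => (-(c / L ^ 2)) * T := by
        funext T; ring
      rw [this]
      apply Filter.Tendsto.const_mul_atTop_of_neg _ Filter.tendsto_id
      have : 0 < c / L ^ 2 := by positivity
      linarith
    · apply Filter.Tendsto.const_div_atTop
      exact Filter.tendsto_atTop_add_const_right _ (-t) Filter.tendsto_id
  have h := ge_of_tendsto lim (Filter.eventually_atTop.2 ⟨_, key⟩)
  rw [mul_zero, add_zero] at h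
  have h0 := abs_nonpos_iff.1 h
  linarith

theorem kk_le : ∃ C : ℝ, 0 < C ∧ ∀ (L t : ℝ), 1 ≤ L → 1 ≤ t → ∀ x y : ℝ × ℝ,
    |kk L t x y| ≤ C * (1 + Real.log L) := by
  obtain ⟨c, C1, C2, hc, hC1, hC2, hb⟩ := d3_bound
  refine ⟨2 * C1 + 1 + C2 / c, by positivity, fun L t hL ht x y => ?_⟩
  have hL0 : 0 < L := by linarith
  have ht0 : 0 < t := by linarith
  have hlog : 0 ≤ Real.log L := Real.log_nonneg hL
  have hL2 : 1 ≤ L ^ 2 := by nlinarith
  -- absolute value inside
  have s1 : |kk L t x y| ≤ ∫ s in Ioi t, d3G c C1 C2 L s := by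
    unfold kk
    apply (abs_integral_le_integral_abs).trans
    apply setIntegral_mono_on (kk_integrable hL0 ht0 x y).abs (d3_G_int hL0 ht0 hc)
      measurableSet_Ioi
    intro s hs
    exact hb L hL0 s (lt_trans ht0 (mem_Ioi.1 hs)) x y
  have s2 : ∫ s in Ioi t, d3G c C1 C2 L s ≤ ∫ s in Ioi (1 : ℝ), d3G c C1 C2 L s := by
    apply setIntegral_mono_set (d3_G_int hL0 one_pos hc)
    · filter_upwards [ae_restrict_mem measurableSet_Ioi] with s hs
      exact d3_G_nonneg hC1 hC2 (lt_trans one_pos (mem_Ioi.1 hs))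
    · exact (Ioi_subset_Ioi ht).eventuallyLE
  have s3 : ∫ s in Ioi (1 : ℝ), d3G c C1 C2 L s =
      (∫ s in Ioi (1 : ℝ), (Iic (L ^ 2)).indicator
        (fun s => C1 * (1 / s + 1 / L ^ 2) + 1 / L ^ 2) s) +
      ∫ s in Ioi (1 : ℝ), C2 / L ^ 2 * Real.exp (-c * (s / L ^ 2)) := by
    unfold d3G
    exact integral_add (d3_G_int1 one_pos) (d3_G_int2 hL0 hc)
  have s4 : (∫ s in Ioi (1 : ℝ), (Iic (L ^ 2)).indicator
        (fun s => C1 * (1 / s + 1 / L ^ 2) + 1 / L ^ 2) s) =
      ∫ s in (1 : ℝ)..(L ^ 2), (C1 * (1 / s + 1 / L ^ 2) + 1 / L ^ 2) := by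
    rw [setIntegral_indicator measurableSet_Iic, intervalIntegral.integral_of_le hL2]
    rfl
  have s5 : ∫ s in (1 : ℝ)..(L ^ 2), (C1 * (1 / s + 1 / L ^ 2) + 1 / L ^ 2) =
      C1 * Real.log (L ^ 2) + (L ^ 2 - 1) * ((C1 + 1) / L ^ 2) := by
    have hi : IntervalIntegrable (fun s : ℝ => C1 * (1 / s)) volume 1 (L ^ 2) := by
      apply ContinuousOn.intervalIntegrable
      rw [uIcc_of_le hL2]
      apply ContinuousOn.mul continuousOn_const
      apply ContinuousOn.div continuousOn_const continuousOn_id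
      intro s hs
      have : 0 < s := lt_of_lt_of_le one_pos hs.1
      exact this.ne'
    have e : (fun s : ℝ => C1 * (1 / s + 1 / L ^ 2) + 1 / L ^ 2) =
        fun s : ℝ => C1 * (1 / s) + (C1 + 1) / L ^ 2 := by
      funext s; ring
    rw [e, intervalIntegral.integral_add hi (by simp), intervalIntegral.integral_const,
      intervalIntegral.integral_const_mul, integral_one_div_of_pos one_pos (by positivity)]
    simp
  have s6 : ∫ s in Ioi (1 : ℝ), C2 / L ^ 2 * Real.exp (-c * (s / L ^ 2)) ≤ C2 / c := by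
    have e : (fun s => C2 / L ^ 2 * Real.exp (-c * (s / L ^ 2))) =
        fun s => C2 / L ^ 2 * Real.exp (-(c / L ^ 2) * s) := by
      funext s
      congr 2
      ring
    have hneg : -(c / L ^ 2) < 0 := by
      have : 0 < c / L ^ 2 := by positivity
      linarith
    rw [e, integral_const_mul, integral_exp_mul_Ioi hneg]
    have h1 : Real.exp (-(c / L ^ 2) * 1) ≤ 1 := by
      rw [Real.exp_le_one_iff]; linarith
    have h2 : C2 / L ^ 2 * (-Real.exp (-(c / L ^ 2) * 1) / -(c / L ^ 2)) =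
        C2 / c * Real.exp (-(c / L ^ 2) * 1) := by
      field_simp
    rw [h2]
    have h3 : 0 < C2 / c := by positivity
    nlinarith
  have s7 : (L ^ 2 - 1) * ((C1 + 1) / L ^ 2) ≤ C1 + 1 := by
    rw [mul_div_assoc', div_le_iff₀ (by positivity)]
    nlinarith
  have s8 : Real.log (L ^ 2) = 2 * Real.log L := by
    rw [Real.log_pow]; norm_num
  have hq : 0 < C2 / c := by positivity
  have f1 : |kk L t x y| ≤ C1 * (2 * Real.log L) + (C1 + 1) + C2 / c := by
    rw [← s8]
    calc |kk L t x y| ≤ _ := s1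
      _ ≤ _ := s2
      _ = _ := s3
      _ ≤ C1 * Real.log (L ^ 2) + (C1 + 1) + C2 / c := by
        rw [s4, s5]; linarith
  nlinarith [mul_nonneg hq.le hlog, mul_nonneg hC1.le hlog]

theorem kk_trace {L t : ℝ} (hL : 0 < L) (ht : 0 < t) :
    ∫ x in box L, kk L t x x = L ^ 2 * sig (t / L ^ 2) := by
  unfold kk
  have hint := d3_prod_int hL ht (volume.restrict (box L)) (u := fun x : ℝ × ℝ => x)
    (v := fun x : ℝ × ℝ => x) continuous_id continuous_id
  have hint' : Integrable (Function.uncurry (fun (x : ℝ × ℝ) (s : ℝ) =>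
      p L s x x - 1 / L ^ 2))
      ((volume.restrict (box L)).prod (volume.restrict (Ioi t))) := by
    refine hint.congr (Filter.Eventually.of_forall fun z => ?_)
    simp only [Function.uncurry]
  rw [integral_integral_swap hint']
  have hL2 : 0 < L ^ 2 := by positivity
  have e : ∫ s in Ioi t, ∫ x in box L, (p L s x x - 1 / L ^ 2) =
      ∫ s in Ioi t, (theta (s * (1 / L ^ 2)) ^ 2 - 1) := by
    apply setIntegral_congr_fun measurableSet_Ioi
    intro s hs
    have hs' : 0 < s := lt_trans ht (mem_Ioi.1 hs)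
    have hcont : Continuous (fun x : ℝ × ℝ => p L s x x) := by
      have h : Continuous (fun x : ℝ × ℝ => ((s, (x, x)) : ℝ × (ℝ × ℝ) × (ℝ × ℝ))) := by
        fun_prop
      have h2 := (p_cont hL).comp (h.continuousOn (s := univ))
        (fun z hz => ⟨hs', mem_univ _⟩)
      simp only [Function.comp_def] at h2
      exact continuousOn_univ.1 h2
    have hi : Integrable (fun x => p L s x x) (volume.restrict (box L)) := by
      have hk : IsCompact (box L) := isCompact_Icc.prod isCompact_Icc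
      exact hcont.continuousOn.integrableOn_compact hk
    change ∫ x in box L, (p L s x x - 1 / L ^ 2) = theta (s * (1 / L ^ 2)) ^ 2 - 1
    rw [integral_sub hi (integrable_const _), p_trace hL hs']
    have h3 : ∫ _ in box L, (1 / L ^ 2 : ℝ) = 1 := by
      have h4 : ∫ _ in box L, (1 / L ^ 2 : ℝ) = 1 / L ^ 2 * ∫ _ in box L, (1 : ℝ) := by
        rw [← integral_const_mul]
        simp
      rw [h4, d3_box_vol hL]
      field_simp
    rw [h3, mul_one_div]
  rw [e, integral_comp_mul_right_Ioi (fun v => theta v ^ 2 - 1) t (by positivity : 0 < 1 / L ^ 2)]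
  unfold sig
  rw [mul_one_div, smul_eq_mul, one_div, inv_inv]

end Pool.Agent.Lib.H77M
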