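import Pool.Agent.Lib.H77M.DefsD
import Pool.Agent.Lib.H77M.B2
import Pool.Agent.Lib.H77M.C2
import Pool.Agent.Lib.H77M.D3

/-!
# Project H77M, chunk C4: relabelling, scaling and measurability of `W` and `En`
-/

open MeasureTheory Set ProbabilityTheory
open scoped Pointwise

namespace Pool.Agent.Lib.H77M

theorem C4_reindex_aux {L : ℝ} {ι κ : Type} [Fintype ι] [Fintype κ] (e : ι ≃ κ) (X : κ → ℝ × ℝ)
    {r : ℝ × ℝ → ℝ} {w : κ → ℝ × ℝ → ℝ} (hw : IsPlan L r w) :
    IsPlan L r (fun i => w (e i)) ∧ cost L X r w = cost L (fun i => X (e i)) r (fun i => w (e i)) := by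
  refine ⟨⟨fun i => hw.meas (e i), fun i y => hw.nonneg (e i) y, fun y hy => ?_,
    fun i => hw.mass (e i)⟩, ?_⟩
  · rw [← hw.sum y hy]
    exact Equiv.sum_comp e (fun k => w k y)
  · unfold cost
    exact (Equiv.sum_comp e (fun k => ∫ y in box L, sqd (X k) y * (w k y * r y))).symm

theorem W_reindex {L : ℝ} {ι κ : Type} [Fintype ι] [Fintype κ] (e : ι ≃ κ) (X : κ → ℝ × ℝ)
    (r : ℝ × ℝ → ℝ) : W L (fun i => X (e i)) r = W L X r := by
  unfold W
  congr 1
  ext c
  constructor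
  · rintro ⟨w, hw, rfl⟩
    obtain ⟨h1, h2⟩ := C4_reindex_aux e.symm (fun i => X (e i)) hw
    refine ⟨_, h1, ?_⟩
    rw [h2]
    simp
  · rintro ⟨w, hw, rfl⟩
    obtain ⟨h1, h2⟩ := C4_reindex_aux e X hw
    exact ⟨_, h1, h2⟩

theorem En_reindex {L t : ℝ} {ι κ : Type} [Fintype ι] [Fintype κ] (e : ι ≃ κ) (X : κ → ℝ × ℝ) :
    En L t (fun i => X (e i)) = En L t X := by
  unfold En
  rw [← Equiv.sum_comp e (fun i => ∑ j, kk L t (X i) (X j))]
  refine Finset.sum_congr rfl fun i _ => ?_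
  exact Equiv.sum_comp e (fun j => kk L t (X (e i)) (X j))

theorem C4_smul_box {L : ℝ} (hL : 0 < L) : L • box 1 = box L := by
  ext y
  rw [mem_smul_set_iff_inv_smul_mem₀ hL.ne']
  unfold box
  simp only [Set.mem_prod, Set.mem_Icc, Prod.smul_fst, Prod.smul_snd, smul_eq_mul]
  have h : ∀ a : ℝ, (0 ≤ L⁻¹ * a ∧ L⁻¹ * a ≤ 1) ↔ (0 ≤ a ∧ a ≤ L) := by
    intro a
    rw [inv_mul_eq_div, div_le_one hL, le_div_iff₀ hL, zero_mul]
  rw [h, h]

theorem C4_cov {L : ℝ} (hL : 0 < L) (f : ℝ × ℝ → ℝ) :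
    ∫ y in box 1, f (L • y) = (L ^ 2)⁻¹ * ∫ y in box L, f y := by
  rw [Measure.setIntegral_comp_smul_of_pos volume f (box 1) hL, C4_smul_box hL]
  simp

theorem C4_mem_smul {L : ℝ} (hL : 0 < L) {y : ℝ × ℝ} : L • y ∈ box L ↔ y ∈ box 1 := by
  rw [← C4_smul_box hL, Set.smul_mem_smul_set_iff₀ hL.ne']

/-- plans and scaling -/
theorem C4_plan_scale {L : ℝ} (hL : 0 < L) {ι : Type} [Fintype ι] (c : ℝ)
    (w : ι → ℝ × ℝ → ℝ) :
    IsPlan L (fun _ => c / L ^ 2) w ↔ IsPlan 1 (fun _ => c) (fun i y => w i (L • y)) := by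
  have hmass : ∀ i, ∫ y in box 1, w i (L • y) * c = ∫ y in box L, w i y * (c / L ^ 2) := by
    intro i
    rw [C4_cov hL (fun y => w i y * c), ← integral_const_mul]
    congr 1
    ext y
    field_simp
  have hcont : Continuous fun y : ℝ × ℝ => L • y := continuous_const_smul L
  constructor
  · intro h
    refine ⟨fun i => (h.meas i).comp hcont.measurable, fun i y => h.nonneg i _,
      fun y hy => h.sum _ ((C4_mem_smul hL).mpr hy), fun i => ?_⟩
    rw [hmass i, h.mass i]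
  · intro h
    have hy : ∀ y : ℝ × ℝ, L • (L⁻¹ • y) = y := fun y => smul_inv_smul₀ hL.ne' y
    refine ⟨fun i => ?_, fun i y => ?_, fun y hy' => ?_, fun i => ?_⟩
    · have h1 : w i = fun y => w i (L • (L⁻¹ • y)) := by
        funext y
        rw [hy y]
      rw [h1]
      exact (h.meas i).comp (continuous_const_smul L⁻¹).measurable
    · have := h.nonneg i (L⁻¹ • y)
      simpa only [hy y] using this
    · have h2 : L⁻¹ • y ∈ box 1 := by
        rw [← C4_mem_smul hL, hy y]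
        exact hy'
      have := h.sum _ h2
      simpa only [hy y] using this
    · rw [← hmass i, h.mass i]

theorem C4_cost_scale {L : ℝ} (hL : 0 < L) {ι : Type} [Fintype ι] (X : ι → ℝ × ℝ) (c : ℝ)
    (w : ι → ℝ × ℝ → ℝ) :
    cost L (scl L X) (fun _ => c / L ^ 2) w =
      L ^ 2 * cost 1 X (fun _ => c) (fun i y => w i (L • y)) := by
  unfold cost
  rw [Finset.mul_sum]
  refine Finset.sum_congr rfl fun i _ => ?_
  have h1 : ∫ y in box 1, sqd (X i) y * (w i (L • y) * c) =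
      ∫ y in box 1, (fun z => (L ^ 2)⁻¹ * (sqd (scl L X i) z * (w i z * c))) (L • y) := by
    congr 1
    ext y
    simp only [sqd, scl, Prod.smul_fst, Prod.smul_snd, smul_eq_mul]
    field_simp
  rw [h1, C4_cov hL (fun z => (L ^ 2)⁻¹ * (sqd (scl L X i) z * (w i z * c))),
    ← integral_const_mul, ← integral_const_mul]
  congr 1
  ext y
  field_simp

theorem W_scale {L : ℝ} (hL : 0 < L) {ι : Type} [Fintype ι] (X : ι → ℝ × ℝ) (c : ℝ) :
    W L (scl L X) (fun _ => c / L ^ 2) = L ^ 2 * W 1 X (fun _ => c) := by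
  unfold W
  rw [← smul_eq_mul (L ^ 2), ← Real.sInf_smul_of_nonneg (by positivity)]
  congr 1
  ext v
  rw [Set.mem_smul_set]
  constructor
  · rintro ⟨w, hw, rfl⟩
    refine ⟨_, ⟨_, (C4_plan_scale hL c w).mp hw, rfl⟩, ?_⟩
    rw [smul_eq_mul, C4_cost_scale hL]
  · rintro ⟨_, ⟨w, hw, rfl⟩, rfl⟩
    have h1 : (fun i y => (fun i y => w i (L⁻¹ • y)) i (L • y)) = w := by
      funext i y
      simp only [inv_smul_smul₀ hL.ne']
    refine ⟨fun i y => w i (L⁻¹ • y), ?_, ?_⟩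
    · rw [C4_plan_scale hL, h1]
      exact hw
    · rw [C4_cost_scale hL, h1, smul_eq_mul]

theorem C4_G_scale {L : ℝ} (hL : 0 < L) (s u : ℝ) :
    G s (L * u) = L⁻¹ * G (s / L ^ 2) u := by
  unfold G
  have h1 : √(4 * Real.pi * s) = L * √(4 * Real.pi * (s / L ^ 2)) := by
    have h2 : 4 * Real.pi * s = L ^ 2 * (4 * Real.pi * (s / L ^ 2)) := by
      field_simp
    rw [h2, Real.sqrt_mul (by positivity), Real.sqrt_sq hL.le]
  rw [h1]
  have h3 : -(L * u) ^ 2 / (4 * s) = -u ^ 2 / (4 * (s / L ^ 2)) := by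
    rcases eq_or_ne s 0 with hs | hs
    · subst hs
      simp
    · field_simp
  rw [h3]
  rcases eq_or_ne (√(4 * Real.pi * (s / L ^ 2))) 0 with h4 | h4
  · rw [h4]
    simp
  · field_simp

theorem C4_q_scale {L : ℝ} (hL : 0 < L) (s a b : ℝ) :
    q L s (L * a) (L * b) = L⁻¹ * q 1 (s / L ^ 2) a b := by
  unfold q
  rw [← tsum_mul_left]
  congr 1
  ext m
  rw [mul_add, ← C4_G_scale hL, ← C4_G_scale hL]
  congr 2 <;> ring

theorem C4_p_scale {L : ℝ} (hL : 0 < L) (s : ℝ) (x y : ℝ × ℝ) :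
    p L s (L * x.1, L * x.2) (L * y.1, L * y.2) = (L ^ 2)⁻¹ * p 1 (s / L ^ 2) x y := by
  unfold p
  rw [C4_q_scale hL, C4_q_scale hL]
  have : (L ^ 2)⁻¹ = L⁻¹ * L⁻¹ := by
    rw [pow_two, mul_inv]
  rw [this]
  ring

theorem kk_scale {L t : ℝ} (hL : 0 < L) (ht : 0 < t) (x y : ℝ × ℝ) :
    kk L t (L * x.1, L * x.2) (L * y.1, L * y.2) = kk 1 (t / L ^ 2) x y := by
  unfold kk
  have hL2 : (0 : ℝ) < (L ^ 2)⁻¹ := by positivity
  have h := integral_comp_mul_left_Ioi' (fun s => p 1 s x y - 1 / 1 ^ 2) t hL2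
  have e1 : (L ^ 2)⁻¹ * t = t / L ^ 2 := by rw [inv_mul_eq_div]
  rw [e1] at h
  rw [← h, smul_eq_mul, ← integral_const_mul]
  congr 1
  ext s
  rw [C4_p_scale hL]
  rw [inv_mul_eq_div (L ^ 2) s]
  ring

theorem En_scale {L t : ℝ} (hL : 0 < L) (ht : 0 < t) {ι : Type} [Fintype ι] (X : ι → ℝ × ℝ) :
    En L t (scl L X) = En 1 (t / L ^ 2) X := by
  unfold En
  refine Finset.sum_congr rfl fun i _ => Finset.sum_congr rfl fun j _ => ?_
  exact kk_scale hL ht (X i) (X j)

theorem C4_mem_cell {L : ℝ} (hL : 0 < L) {k : ℕ} (hk : 1 ≤ k) {ι : Type} (X : ι → ℝ × ℝ)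
    (a b : ℕ) (i : ι) : scl L X i ∈ cell (L / k) a b ↔ X i ∈ cell (1 / (k : ℝ)) a b := by
  have hk' : (0 : ℝ) < k := by exact_mod_cast hk
  unfold cell scl
  simp only [Set.mem_prod, Set.mem_Ico]
  have h1 : ∀ (c : ℝ) (u : ℝ), c * (L / k) ≤ L * u ↔ c * (1 / k) ≤ u := by
    intro c u
    have : c * (L / k) = L * (c * (1 / k)) := by ring
    rw [this]
    exact mul_le_mul_iff_right₀ hL
  have h2 : ∀ (c : ℝ) (u : ℝ), L * u < c * (L / k) ↔ u < c * (1 / k) := by
    intro c u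
    have : c * (L / k) = L * (c * (1 / k)) := by ring
    rw [this]
    exact mul_lt_mul_iff_right₀ hL
  rw [h1, h1, h2, h2]

/-- the cells of the scaled configuration have the same indices -/
def C4_equiv {L : ℝ} (hL : 0 < L) {k : ℕ} (hk : 1 ≤ k) {ι : Type} (X : ι → ℝ × ℝ)
    (a b : ℕ) : CI (L / k) (scl L X) a b ≃ CI (1 / (k : ℝ)) X a b :=
  Equiv.subtypeEquivRight fun i => C4_mem_cell hL hk X a b i

theorem C4_equiv_val {L : ℝ} (hL : 0 < L) {k : ℕ} (hk : 1 ≤ k) {ι : Type} (X : ι → ℝ × ℝ)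
    (a b : ℕ) (i : CI (L / k) (scl L X) a b) : (C4_equiv hL hk X a b i).1 = i.1 := rfl

theorem C4_CX {L : ℝ} (hL : 0 < L) {k : ℕ} (hk : 1 ≤ k) {ι : Type} (X : ι → ℝ × ℝ)
    (a b : ℕ) : CX (L / k) (scl L X) a b =
      fun i => scl (L / k) (scl k (CX (1 / (k : ℝ)) X a b)) (C4_equiv hL hk X a b i) := by
  have hk' : (0 : ℝ) < k := by exact_mod_cast hk
  funext i
  have h1 : ∀ (u : ℝ) (c : ℕ), L * u - c * (L / k) = L / k * (k * (u - c * (1 / k))) := by
    intro u c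
    field_simp
  exact Prod.ext (h1 (X i.1).1 a) (h1 (X i.1).2 b)

/-- the cells of the scaled configuration -/
theorem W_cell {L : ℝ} (hL : 0 < L) {k : ℕ} (hk : 1 ≤ k) {ι : Type} [Fintype ι] (X : ι → ℝ × ℝ)
    (a b : ℕ) :
    W (L / k) (CX (L / k) (scl L X) a b)
        (fun _ => (Fintype.card (CI (L / k) (scl L X) a b) : ℝ) / (L / k) ^ 2) =
      (L / k) ^ 2 * W 1 (scl k (CX (1 / (k : ℝ)) X a b))
        (fun _ => (Fintype.card (CI (1 / (k : ℝ)) X a b) : ℝ)) := by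
  have hk' : (0 : ℝ) < k := by exact_mod_cast hk
  have hLk : 0 < L / k := by positivity
  rw [C4_CX hL hk, W_reindex (C4_equiv hL hk X a b), W_scale hLk,
    Fintype.card_congr (C4_equiv hL hk X a b)]

theorem En_cell {L t : ℝ} (hL : 0 < L) (ht : 0 < t) {k : ℕ} (hk : 1 ≤ k) {ι : Type} [Fintype ι]
    (X : ι → ℝ × ℝ) (a b : ℕ) :
    En (L / k) t (CX (L / k) (scl L X) a b) =
      En 1 (t / (L / k) ^ 2) (scl k (CX (1 / (k : ℝ)) X a b)) ∧
    Fintype.card (CI (L / k) (scl L X) a b) = Fintype.card (CI (1 / (k : ℝ)) X a b) := by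
  have hk' : (0 : ℝ) < k := by exact_mod_cast hk
  have hLk : 0 < L / k := by positivity
  refine ⟨?_, Fintype.card_congr (C4_equiv hL hk X a b)⟩
  rw [C4_CX hL hk, En_reindex (C4_equiv hL hk X a b), En_scale hLk ht]

theorem C4_cost_cont {L : ℝ} {ι : Type} [Fintype ι] {r : ℝ × ℝ → ℝ} {w : ι → ℝ × ℝ → ℝ}
    (hw : IsPlan L r w) : Continuous (fun X : ι → ℝ × ℝ => cost L X r w) := by
  unfold cost
  refine continuous_finsetSum _ fun i _ => ?_
  have h1 := B2_plan_mul_int hw i (g := fun y => y.1) continuous_fst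
  have h2 := B2_plan_mul_int hw i (g := fun y => y.2) continuous_snd
  have h3 := B2_plan_mul_int hw i (g := fun y => y.1 ^ 2 + y.2 ^ 2) (by fun_prop)
  have h0 := B2_plan_int hw i
  have key : ∀ x : ℝ × ℝ, ∫ y in box L, sqd x y * (w i y * r y) =
      (x.1 ^ 2 + x.2 ^ 2) * (∫ y in box L, w i y * r y) -
        (2 * x.1) * (∫ y in box L, y.1 * (w i y * r y)) -
        (2 * x.2) * (∫ y in box L, y.2 * (w i y * r y)) +
        ∫ y in box L, (y.1 ^ 2 + y.2 ^ 2) * (w i y * r y) := by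
    intro x
    have e1 : ∫ y in box L, sqd x y * (w i y * r y) =
        ∫ y in box L, ((((x.1 ^ 2 + x.2 ^ 2) * (w i y * r y) -
          (2 * x.1) * (y.1 * (w i y * r y))) - (2 * x.2) * (y.2 * (w i y * r y))) +
          (y.1 ^ 2 + y.2 ^ 2) * (w i y * r y)) := by
      congr 1
      ext y
      unfold sqd
      ring
    have i0 : Integrable (fun y => (x.1 ^ 2 + x.2 ^ 2) * (w i y * r y))
        (volume.restrict (box L)) := h0.const_mul _
    have i1 : Integrable (fun y : ℝ × ℝ => (2 * x.1) * (y.1 * (w i y * r y)))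
        (volume.restrict (box L)) := h1.const_mul _
    have i2 : Integrable (fun y : ℝ × ℝ => (2 * x.2) * (y.2 * (w i y * r y)))
        (volume.restrict (box L)) := h2.const_mul _
    have i01 : Integrable (fun y : ℝ × ℝ => (x.1 ^ 2 + x.2 ^ 2) * (w i y * r y) -
        (2 * x.1) * (y.1 * (w i y * r y))) (volume.restrict (box L)) := i0.sub i1
    have i012 : Integrable (fun y : ℝ × ℝ => ((x.1 ^ 2 + x.2 ^ 2) * (w i y * r y) -
        (2 * x.1) * (y.1 * (w i y * r y))) - (2 * x.2) * (y.2 * (w i y * r y)))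
        (volume.restrict (box L)) := i01.sub i2
    rw [e1, integral_add i012 h3, integral_sub i01 i2, integral_sub i0 i1, integral_const_mul,
      integral_const_mul, integral_const_mul]
  simp only [key]
  have hx1 : Continuous fun X : ι → ℝ × ℝ => (X i).1 := continuous_fst.comp (continuous_apply i)
  have hx2 : Continuous fun X : ι → ℝ × ℝ => (X i).2 := continuous_snd.comp (continuous_apply i)
  exact ((((hx1.pow 2).add (hx2.pow 2)).mul continuous_const).sub
    ((continuous_const.mul hx1).mul continuous_const)).sub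
    ((continuous_const.mul hx2).mul continuous_const) |>.add continuous_const

/-- `W` is an infimum of continuous functions of the configuration -/
theorem W_meas {L : ℝ} (hL : 0 < L) {ι : Type} [Fintype ι] {r : ℝ × ℝ → ℝ} (hr : Continuous r)
    (hpos : ∀ y ∈ box L, 0 ≤ r y) : Measurable (fun X : ι → ℝ × ℝ => W L X r) := by
  by_cases hex : ∃ w : ι → ℝ × ℝ → ℝ, IsPlan L r w
  · obtain ⟨w₀, hw₀⟩ := hex
    refine measurable_of_Iio fun c => ?_
    have h1 : (fun X : ι → ℝ × ℝ => W L X r) ⁻¹' Iio c =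
        ⋃ w : {w : ι → ℝ × ℝ → ℝ // IsPlan L r w},
          (fun X : ι → ℝ × ℝ => cost L X r w.1) ⁻¹' Iio c := by
      ext X
      simp only [mem_preimage, mem_Iio, mem_iUnion, Subtype.exists, exists_prop]
      unfold W
      rw [csInf_lt_iff (B2_bdd X hpos) ⟨_, w₀, hw₀, rfl⟩]
      constructor
      · rintro ⟨_, ⟨w, hw, rfl⟩, h⟩
        exact ⟨w, hw, h⟩
      · rintro ⟨w, hw, h⟩
        exact ⟨_, ⟨w, hw, rfl⟩, h⟩
    rw [h1]
    exact (isOpen_iUnion fun w => isOpen_Iio.preimage (C4_cost_cont w.2)).measurableSet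
  · have h1 : (fun X : ι → ℝ × ℝ => W L X r) = fun _ => 0 := by
      funext X
      unfold W
      have : {c | ∃ w : ι → ℝ × ℝ → ℝ, IsPlan L r w ∧ c = cost L X r w} = ∅ := by
        ext c
        simp only [mem_setOf_eq, mem_empty_iff_false, iff_false]
        rintro ⟨w, hw, _⟩
        exact hex ⟨w, hw⟩
      rw [this, Real.sInf_empty]
    rw [h1]
    exact measurable_const

theorem C4_ae_box (ι : Type) [Fintype ι] : ∀ᵐ X ∂(UU ι), ∀ i, X i ∈ box 1 := by
  rw [ae_all_iff]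
  intro i
  have h1 : ∀ᵐ x ∂U, x ∈ box 1 := by
    unfold U
    exact ae_restrict_mem (B2_meas_box 1)
  exact (measurePreserving_eval (fun _ : ι => U) i).quasiMeasurePreserving.ae h1

theorem W_integrable {ι : Type} [Fintype ι] {c : ℝ} (hc : 0 ≤ c) :
    Integrable (fun X : ι → ℝ × ℝ => W 1 X (fun _ => c)) (UU ι) := by
  refine Integrable.of_bound
    (W_meas one_pos continuous_const (fun _ _ => hc)).aestronglyMeasurable
    (2 * 1 ^ 2 * Fintype.card ι) ?_
  filter_upwards [C4_ae_box ι] with X hX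
  rw [Real.norm_eq_abs, abs_of_nonneg (W_nonneg X (fun _ _ => hc))]
  exact W_le_triv one_pos hX continuous_const (fun _ _ => hc)

theorem C4_kc {t : ℝ} (ht : 0 < t) :
    Continuous (fun v : (ℝ × ℝ) × (ℝ × ℝ) => kk 1 t v.1 v.2) :=
  kk_cont (L := 1) one_pos ht

theorem C4_kk_bound {t : ℝ} (ht : 0 < t) :
    ∃ C : ℝ, ∀ x ∈ box 1, ∀ y ∈ box 1, ‖kk 1 t x y‖ ≤ C := by
  obtain ⟨C, hC⟩ := ((B2_compact_box 1).prod (B2_compact_box 1)).exists_bound_of_continuousOn
    (f := fun v : (ℝ × ℝ) × (ℝ × ℝ) => kk 1 t v.1 v.2)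
    (C4_kc ht).continuousOn
  refine ⟨C, fun x hx y hy => ?_⟩
  have h := hC (x, y) (Set.mk_mem_prod hx hy)
  exact h

theorem C4_kk_comp_cont {t : ℝ} (ht : 0 < t) {n : ℕ} (i j : Fin n) :
    Continuous (fun X : Fin n → ℝ × ℝ => kk 1 t (X i) (X j)) := by
  have h1 : Continuous (fun X : Fin n → ℝ × ℝ => (X i, X j)) :=
    (continuous_apply i).prodMk (continuous_apply j)
  have h2 := (C4_kc ht).comp h1
  exact h2

theorem C4_kk_diag_cont {t : ℝ} (ht : 0 < t) :
    Continuous (fun x : ℝ × ℝ => kk 1 t x x) := by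
  have h1 : Continuous (fun x : ℝ × ℝ => (x, x)) := continuous_id.prodMk continuous_id
  have h2 := (C4_kc ht).comp h1
  exact h2

theorem C4_kk_int {t : ℝ} (ht : 0 < t) {n : ℕ} (i j : Fin n) :
    Integrable (fun X : Fin n → ℝ × ℝ => kk 1 t (X i) (X j)) (UU (Fin n)) := by
  obtain ⟨C, hC⟩ := C4_kk_bound ht
  have hc := C4_kk_comp_cont ht i j
  refine Integrable.of_bound hc.aestronglyMeasurable C ?_
  filter_upwards [C4_ae_box (Fin n)] with X hX
  exact hC (X i) (hX i) (X j) (hX j)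

theorem C4_diag {t : ℝ} (ht : 0 < t) {n : ℕ} (i : Fin n) :
    ∫ X, kk 1 t (X i) (X i) ∂(UU (Fin n)) = sig t := by
  have h1 : ∫ X, kk 1 t (X i) (X i) ∂(UU (Fin n)) = ∫ x, kk 1 t x x ∂U := by
    have hc := C4_kk_diag_cont ht
    have hm : AEMeasurable (fun X : Fin n → ℝ × ℝ => X i) (UU (Fin n)) :=
      (measurable_pi_apply i).aemeasurable
    have h2 : Measure.map (fun X : Fin n → ℝ × ℝ => X i) (UU (Fin n)) = U :=
      (measurePreserving_eval (fun _ : Fin n => U) i).map_eq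
    have h4 : ∫ x, kk 1 t x x ∂(Measure.map (fun X : Fin n → ℝ × ℝ => X i) (UU (Fin n))) =
        ∫ X, kk 1 t (X i) (X i) ∂(UU (Fin n)) :=
      integral_map (f := fun x : ℝ × ℝ => kk 1 t x x) hm hc.aestronglyMeasurable
    rw [← h4, h2]
  rw [h1]
  have h3 := kk_trace (L := 1) (t := t) one_pos ht
  rw [one_pow, one_mul, div_one] at h3
  unfold U
  unfold box at h3
  exact h3

theorem C4_offdiag {t : ℝ} (ht : 0 < t) {n : ℕ} {i j : Fin n} (hij : i ≠ j) :
    ∫ X, kk 1 t (X i) (X j) ∂(UU (Fin n)) = 0 := by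
  have hind : iIndepFun (fun (i : Fin n) (ω : Fin n → ℝ × ℝ) => ω i)
      (Measure.pi fun _ : Fin n => U) :=
    iIndepFun_pi (X := fun _ => id) (fun _ => aemeasurable_id)
  have h1 := (hind.indepFun hij).map_prod_eq_prod_map_map
    (measurable_pi_apply i).aemeasurable (measurable_pi_apply j).aemeasurable
  have hi : Measure.map (fun ω : Fin n → ℝ × ℝ => ω i) (Measure.pi fun _ : Fin n => U) = U :=
    (measurePreserving_eval (fun _ : Fin n => U) i).map_eq
  have hj : Measure.map (fun ω : Fin n → ℝ × ℝ => ω j) (Measure.pi fun _ : Fin n => U) = U :=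
    (measurePreserving_eval (fun _ : Fin n => U) j).map_eq
  rw [hi, hj] at h1
  have hm : AEMeasurable (fun X : Fin n → ℝ × ℝ => (X i, X j)) (UU (Fin n)) :=
    ((measurable_pi_apply i).prodMk (measurable_pi_apply j)).aemeasurable
  have h1' : Measure.map (fun X : Fin n → ℝ × ℝ => (X i, X j)) (UU (Fin n)) = U.prod U := h1
  have hk := C4_kc ht
  have h4 : ∫ v, kk 1 t v.1 v.2 ∂(Measure.map (fun X : Fin n → ℝ × ℝ => (X i, X j))
      (UU (Fin n))) = ∫ X, kk 1 t (X i) (X j) ∂(UU (Fin n)) :=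
    integral_map (f := fun v : (ℝ × ℝ) × (ℝ × ℝ) => kk 1 t v.1 v.2) hm hk.aestronglyMeasurable
  have hint : Integrable (fun v : (ℝ × ℝ) × (ℝ × ℝ) => kk 1 t v.1 v.2) (U.prod U) := by
    rw [← h1', integrable_map_measure hk.aestronglyMeasurable hm]
    exact C4_kk_int ht i j
  rw [← h4, h1', integral_prod _ hint]
  have h3 : ∀ x : ℝ × ℝ, ∫ y, kk 1 t x y ∂U = 0 := by
    intro x
    have h5 := int_kk (L := 1) (t := t) one_pos ht x
    unfold U
    unfold box at h5
    exact h5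
  simp only [h3, integral_zero]

/-- the off-diagonal terms have mean zero -/
theorem En_mean {t : ℝ} (ht : 0 < t) (n : ℕ) :
    Integrable (fun X : Fin n → ℝ × ℝ => En 1 t X) (UU (Fin n)) ∧
      ∫ X, En 1 t X ∂(UU (Fin n)) = n * sig t := by
  unfold En
  refine ⟨integrable_finsetSum _ fun i _ => integrable_finsetSum _ fun j _ => C4_kk_int ht i j,
    ?_⟩
  rw [integral_finsetSum _ fun i _ => integrable_finsetSum _ fun j _ => C4_kk_int ht i j]
  have h1 : ∀ i : Fin n, ∫ X, ∑ j, kk 1 t (X i) (X j) ∂(UU (Fin n)) = sig t := by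
    intro i
    rw [integral_finsetSum _ fun j _ => C4_kk_int ht i j, Finset.sum_eq_single i]
    · exact C4_diag ht i
    · intro j _ hj
      exact C4_offdiag ht hj.symm
    · intro h
      exact absurd (Finset.mem_univ i) h
  simp only [h1]
  simp

end Pool.Agent.Lib.H77M
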