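import Pool.Agent.Lib.H77M.C4
import Pool.Agent.Lib.H77M.B5

/-!
# Project H77M, chunk C5: first properties of `F`
-/

open MeasureTheory Set ProbabilityTheory

namespace Pool.Agent.Lib.H77M

theorem F_nonneg (n : ℕ) : 0 ≤ F n := by
  unfold F
  exact integral_nonneg fun X => W_nonneg X (fun y _ => Nat.cast_nonneg n)

theorem c5_hbox_sub {L : ℝ} {x : ℝ × ℝ} (hx : x ∈ hbox L) : x ∈ box L :=
  ⟨⟨hx.1.1, hx.1.2.le⟩, ⟨hx.2.1, hx.2.2.le⟩⟩

theorem c5_W_le (n : ℕ) : ∀ᵐ X ∂(UU (Fin n)), W 1 X (fun _ => (n : ℝ)) ≤ 2 * n := by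
  filter_upwards [ae_inj n] with X hX
  have h := W_le_triv (L := 1) one_pos (X := X) (fun i => c5_hbox_sub (hX.2 i))
    (r := fun _ => (n : ℝ)) continuous_const (fun _ _ => Nat.cast_nonneg n)
  simpa using h

theorem F_le (n : ℕ) : F n ≤ 2 * n := by
  have h : ∫ X, W 1 X (fun _ => (n : ℝ)) ∂(UU (Fin n)) ≤ ∫ _X, (2 * n : ℝ) ∂(UU (Fin n)) :=
    integral_mono_ae (W_integrable (Nat.cast_nonneg n)) (integrable_const _) (c5_W_le n)
  unfold F
  refine h.trans (le_of_eq ?_)
  rw [integral_const]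
  simp

/-- the uniform plan -/
theorem c5_unif {n : ℕ} (hn : 1 ≤ n) : IsPlan 1 (ι := Fin n) (fun _ => (n : ℝ)) (fun _ _ => 1 / n) := by
  have hn0 : (n : ℝ) ≠ 0 := by
    have : 0 < n := hn
    positivity
  refine ⟨fun _ => measurable_const, fun _ _ => by positivity, fun y _ => ?_, fun i => ?_⟩
  · rw [Finset.sum_const, Finset.card_univ, Fintype.card_fin, nsmul_eq_mul]
    field_simp
  · have h1 : (1 / (n : ℝ)) * n = 1 := by field_simp
    simp only [h1]
    have h2 : (volume (Icc (0 : ℝ) 1 ×ˢ Icc (0 : ℝ) 1 : Set (ℝ × ℝ))) = 1 := by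
      rw [Measure.volume_eq_prod, Measure.prod_prod]; simp
    unfold box
    rw [integral_const, measureReal_restrict_apply_univ, Measure.real, h2]
    simp

/-- leave one out, pointwise -/
theorem c5_loo {n : ℕ} (hn : 1 ≤ n) (X : Fin (n + 1) → ℝ × ℝ) :
    W 1 X (fun _ => ((n + 1 : ℕ) : ℝ)) ≤
      1 / n * ∑ j : Fin (n + 1), W 1 (fun i => X (j.succAbove i)) (fun _ => (n : ℝ)) := by
  have hnpos : (0 : ℝ) < n := by exact_mod_cast hn
  have hn0 : (n : ℝ) ≠ 0 := hnpos.ne'
  have hn1 : (n : ℝ) + 1 ≠ 0 := by positivity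
  refine le_of_forall_pos_le_add fun ε hε => ?_
  have hε' : 0 < ε * n / (n + 1) := by positivity
  have hex : ∀ j : Fin (n + 1), ∃ w : Fin n → ℝ × ℝ → ℝ, IsPlan 1 (fun _ => (n : ℝ)) w ∧
      cost 1 (fun i => X (j.succAbove i)) (fun _ => (n : ℝ)) w <
        W 1 (fun i => X (j.succAbove i)) (fun _ => (n : ℝ)) + ε * n / (n + 1) := by
    intro j
    have hne : {c | ∃ w : Fin n → ℝ × ℝ → ℝ, IsPlan 1 (fun _ => (n : ℝ)) w ∧
        c = cost 1 (fun i => X (j.succAbove i)) (fun _ => (n : ℝ)) w}.Nonempty :=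
      ⟨_, _, c5_unif hn, rfl⟩
    obtain ⟨c, ⟨w, hw, rfl⟩, hc⟩ := exists_lt_of_csInf_lt hne
      (b := W 1 (fun i => X (j.succAbove i)) (fun _ => (n : ℝ)) + ε * n / (n + 1))
      (by unfold W; linarith)
    exact ⟨w, hw, hc⟩
  choose w hw hwc using hex
  -- the combined plan
  obtain ⟨w', hw'⟩ : ∃ w' : Fin (n + 1) → ℝ × ℝ → ℝ, ∀ i y, w' i y = 1 / ((n : ℝ) + 1) *
      ∑ j : Fin (n + 1), ∑ i' : Fin n, (if j.succAbove i' = i then w j i' y else 0) :=
    ⟨_, fun _ _ => rfl⟩
  have hcard : ∀ i : Fin (n + 1), ∑ j : Fin (n + 1), ∑ i' : Fin n,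
      (if j.succAbove i' = i then (1 : ℝ) else 0) = n := by
    intro i
    have h1 : ∀ j : Fin (n + 1), ∑ i' : Fin n, (if j.succAbove i' = i then (1 : ℝ) else 0)
        = if j = i then 0 else 1 := by
      intro j
      by_cases hj : j = i
      · rw [if_pos hj]
        apply Finset.sum_eq_zero
        intro i' _
        rw [if_neg]
        rw [hj]
        exact Fin.succAbove_ne i i'
      · rw [if_neg hj]
        obtain ⟨z, hz⟩ := Fin.exists_succAbove_eq (Ne.symm hj)
        rw [Finset.sum_eq_single z]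
        · rw [if_pos hz]
        · intro b _ hb
          rw [if_neg]
          intro hb2
          exact hb (Fin.succAbove_right_injective (hb2.trans hz.symm))
        · intro h; exact absurd (Finset.mem_univ _) h
    simp only [h1]
    rw [Finset.sum_ite, Finset.sum_const_zero, zero_add, Finset.sum_const, nsmul_eq_mul, mul_one]
    have : (Finset.univ.filter fun j : Fin (n + 1) => ¬ j = i) = Finset.univ.erase i := by
      ext j; simp
    rw [this, Finset.card_erase_of_mem (Finset.mem_univ _), Finset.card_univ, Fintype.card_fin]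
    simp
  have hterm : ∀ i y, w' i y * ((n + 1 : ℕ) : ℝ) = ∑ j : Fin (n + 1), ∑ i' : Fin n,
      (if j.succAbove i' = i then 1 / (n : ℝ) * (w j i' y * n) else 0) := by
    intro i y
    rw [hw']
    have h1 : ∀ S : ℝ, 1 / ((n : ℝ) + 1) * S * ((n + 1 : ℕ) : ℝ) = S := by
      intro S; push_cast; field_simp
    rw [h1]
    refine Finset.sum_congr rfl fun j _ => Finset.sum_congr rfl fun i' _ => ?_
    split_ifs
    · field_simp
    · rfl
  have hI : ∀ (j : Fin (n + 1)) (i' : Fin n), IntegrableOn (fun y => w j i' y * (n : ℝ)) (box 1) :=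
    fun j i' => B2_plan_int (hw j) i'
  have hplan : IsPlan 1 (fun _ => ((n + 1 : ℕ) : ℝ)) w' := by
    refine ⟨fun i => ?_, fun i y => ?_, fun y hy => ?_, fun i => ?_⟩
    · have : w' i = fun y => 1 / ((n : ℝ) + 1) *
          ∑ j : Fin (n + 1), ∑ i' : Fin n, (if j.succAbove i' = i then w j i' y else 0) :=
        funext fun y => hw' i y
      rw [this]
      refine measurable_const.mul (Finset.measurable_fun_sum _ fun j _ =>
        Finset.measurable_fun_sum _ fun i' _ => ?_)
      split_ifs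
      · exact (hw j).meas i'
      · exact measurable_const
    · rw [hw']
      refine mul_nonneg (by positivity) (Finset.sum_nonneg fun j _ =>
        Finset.sum_nonneg fun i' _ => ?_)
      split_ifs
      · exact (hw j).nonneg i' y
      · exact le_rfl
    · simp only [hw']
      rw [← Finset.mul_sum, Finset.sum_comm]
      have h1 : ∀ j : Fin (n + 1), ∑ i : Fin (n + 1), ∑ i' : Fin n,
          (if j.succAbove i' = i then w j i' y else 0) = 1 := by
        intro j
        rw [Finset.sum_comm]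
        rw [← (hw j).sum y hy]
        refine Finset.sum_congr rfl fun i' _ => ?_
        rw [Finset.sum_ite_eq]
        simp
      simp only [h1]
      rw [Finset.sum_const, Finset.card_univ, Fintype.card_fin, nsmul_eq_mul]
      push_cast
      field_simp
    · have h1 : (fun y => w' i y * ((n + 1 : ℕ) : ℝ)) = fun y => ∑ j : Fin (n + 1), ∑ i' : Fin n,
        (if j.succAbove i' = i then 1 / (n : ℝ) * (w j i' y * n) else 0) := funext fun y => hterm i y
      show ∫ y in box 1, (fun y => w' i y * ((n + 1 : ℕ) : ℝ)) y = 1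
      rw [h1]
      have hI2 : ∀ (j : Fin (n + 1)) (i' : Fin n), Integrable (fun y =>
          (if j.succAbove i' = i then 1 / (n : ℝ) * (w j i' y * n) else 0))
          (volume.restrict (box 1)) := by
        intro j i'
        split_ifs
        · exact (hI j i').const_mul _
        · exact integrable_zero _ _ _
      rw [integral_finsetSum _ fun j _ => integrable_finsetSum _ fun i' _ => hI2 j i']
      have h2 : ∀ j : Fin (n + 1), ∫ y in box 1, ∑ i' : Fin n,
          (if j.succAbove i' = i then 1 / (n : ℝ) * (w j i' y * n) else 0) =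
          ∑ i' : Fin n, 1 / (n : ℝ) * (if j.succAbove i' = i then (1 : ℝ) else 0) := by
        intro j
        rw [integral_finsetSum _ fun i' _ => hI2 j i']
        refine Finset.sum_congr rfl fun i' _ => ?_
        split_ifs
        · rw [integral_const_mul, (hw j).mass i']
        · simp
      simp only [h2, ← Finset.mul_sum]
      rw [hcard i]
      field_simp
  refine (csInf_le (B2_bdd X fun _ _ => Nat.cast_nonneg (n + 1)) ⟨w', hplan, rfl⟩).trans ?_
  have hcost : cost 1 X (fun _ => ((n + 1 : ℕ) : ℝ)) w' =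
      1 / n * ∑ j : Fin (n + 1), cost 1 (fun i => X (j.succAbove i)) (fun _ => (n : ℝ)) (w j) := by
    unfold cost
    have hJ : ∀ (x : ℝ × ℝ) (j : Fin (n + 1)) (i' : Fin n),
        IntegrableOn (fun y => sqd x y * (w j i' y * (n : ℝ))) (box 1) :=
      fun x j i' => B2_plan_mul_int (hw j) i' (B2_sqd_cont x)
    have h1 : ∀ i : Fin (n + 1), ∫ y in box 1, sqd (X i) y * (w' i y * ((n + 1 : ℕ) : ℝ)) =
        ∑ j : Fin (n + 1), ∑ i' : Fin n, (if j.succAbove i' = i then
          1 / (n : ℝ) * ∫ y in box 1, sqd (X (j.succAbove i')) y * (w j i' y * n) else 0) := by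
      intro i
      have h2 : (fun y => sqd (X i) y * (w' i y * ((n + 1 : ℕ) : ℝ))) = fun y =>
          ∑ j : Fin (n + 1), ∑ i' : Fin n, (if j.succAbove i' = i then
            1 / (n : ℝ) * (sqd (X i) y * (w j i' y * n)) else 0) := by
        funext y
        rw [hterm, Finset.mul_sum]
        refine Finset.sum_congr rfl fun j _ => ?_
        rw [Finset.mul_sum]
        refine Finset.sum_congr rfl fun i' _ => ?_
        split_ifs
        · ring
        · ring
      have hI2 : ∀ (j : Fin (n + 1)) (i' : Fin n), Integrable (fun y =>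
          (if j.succAbove i' = i then 1 / (n : ℝ) * (sqd (X i) y * (w j i' y * n)) else 0))
          (volume.restrict (box 1)) := by
        intro j i'
        split_ifs
        · exact (hJ _ j i').const_mul _
        · exact integrable_zero _ _ _
      rw [h2, integral_finsetSum _ fun j _ => integrable_finsetSum _ fun i' _ => hI2 j i']
      refine Finset.sum_congr rfl fun j _ => ?_
      rw [integral_finsetSum _ fun i' _ => hI2 j i']
      refine Finset.sum_congr rfl fun i' _ => ?_
      split_ifs with h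
      · rw [integral_const_mul, h]
      · simp
    simp only [h1]
    rw [Finset.sum_comm, Finset.mul_sum]
    refine Finset.sum_congr rfl fun j _ => ?_
    rw [Finset.sum_comm, Finset.mul_sum]
    refine Finset.sum_congr rfl fun i' _ => ?_
    rw [Finset.sum_ite_eq]
    simp
  rw [hcost]
  have h3 : ∑ j : Fin (n + 1), cost 1 (fun i => X (j.succAbove i)) (fun _ => (n : ℝ)) (w j) ≤
      ∑ j : Fin (n + 1), (W 1 (fun i => X (j.succAbove i)) (fun _ => (n : ℝ)) +
        ε * n / (n + 1)) := Finset.sum_le_sum fun j _ => (hwc j).le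
  rw [Finset.sum_add_distrib, Finset.sum_const, Finset.card_univ, Fintype.card_fin,
    nsmul_eq_mul] at h3
  have h4 : (((n + 1 : ℕ) : ℝ)) * (ε * n / (n + 1)) = ε * n := by push_cast; field_simp
  rw [h4] at h3
  calc 1 / n * ∑ j : Fin (n + 1), cost 1 (fun i => X (j.succAbove i)) (fun _ => (n : ℝ)) (w j)
      ≤ 1 / n * ((∑ j : Fin (n + 1), W 1 (fun i => X (j.succAbove i)) (fun _ => (n : ℝ))) +
        ε * n) := mul_le_mul_of_nonneg_left h3 (by positivity)
    _ = _ := by field_simp

/-- removing a point preserves the law -/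
theorem c5_mp (n : ℕ) (j : Fin (n + 1)) : MeasurePreserving
    (fun (X : Fin (n + 1) → ℝ × ℝ) (i : Fin n) => X (j.succAbove i)) (UU (Fin (n + 1)))
    (UU (Fin n)) := by
  have h1 := measurePreserving_piFinSuccAbove (fun _ : Fin (n + 1) => U) j
  have h2 : MeasurePreserving (Prod.snd : (ℝ × ℝ) × (Fin n → ℝ × ℝ) → (Fin n → ℝ × ℝ))
      (U.prod (Measure.pi fun _ : Fin n => U)) (Measure.pi fun _ : Fin n => U) :=
    measurePreserving_snd
  exact h2.comp h1

theorem c5_int (n : ℕ) (j : Fin (n + 1)) :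
    ∫ X, W 1 (fun i => X (j.succAbove i)) (fun _ => (n : ℝ)) ∂(UU (Fin (n + 1))) = F n := by
  have hm := c5_mp n j
  unfold F
  rw [← hm.map_eq, integral_map hm.measurable.aemeasurable]
  exact (W_meas one_pos continuous_const fun _ _ => Nat.cast_nonneg n).aestronglyMeasurable

/-- leave one out: average the plans of the `n + 1` configurations with one point removed -/
theorem F_mono {n : ℕ} (hn : 1 ≤ n) : F (n + 1) / ((n : ℝ) + 1) ≤ F n / n := by
  have hnpos : (0 : ℝ) < n := by exact_mod_cast hn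
  have hI : ∀ j : Fin (n + 1), Integrable
      (fun X : Fin (n + 1) → ℝ × ℝ => W 1 (fun i => X (j.succAbove i)) (fun _ => (n : ℝ)))
      (UU (Fin (n + 1))) := fun j =>
    (c5_mp n j).integrable_comp_of_integrable (W_integrable (Nat.cast_nonneg n))
  have h1 : F (n + 1) ≤ 1 / n * (((n : ℝ) + 1) * F n) := by
    have h2 : F (n + 1) ≤ ∫ X, (1 / n * ∑ j : Fin (n + 1),
        W 1 (fun i => X (j.succAbove i)) (fun _ => (n : ℝ))) ∂(UU (Fin (n + 1))) :=
      integral_mono (W_integrable (Nat.cast_nonneg (n + 1)))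
        ((integrable_finsetSum _ fun j _ => hI j).const_mul _) (fun X => c5_loo hn X)
    refine h2.trans (le_of_eq ?_)
    rw [integral_const_mul, integral_finsetSum _ fun j _ => hI j]
    simp only [c5_int]
    rw [Finset.sum_const, Finset.card_univ, Fintype.card_fin, nsmul_eq_mul]
    push_cast
    ring
  rw [div_le_div_iff₀ (by positivity) hnpos]
  calc F (n + 1) * n ≤ 1 / n * (((n : ℝ) + 1) * F n) * n :=
        mul_le_mul_of_nonneg_right h1 hnpos.le
    _ = F n * ((n : ℝ) + 1) := by field_simp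

/-- `crude_one` and `good_prob` with `k = 1`, `K = A (1 + log n)` -/
theorem F_log : ∃ C : ℝ, 0 < C ∧ ∀ n : ℕ, 1 ≤ n → F n ≤ C * (1 + Real.log n) ^ 4 := by
  obtain ⟨C1, K0, hC1, hK0, h1⟩ := crude_one
  obtain ⟨C2, hC2, h2⟩ := good_prob
  -- for large `n` the fourth power of the regularity constant is at most `√n`
  have hev : ∃ n0 : ℕ, ∀ n : ℕ, n0 ≤ n → ((2 + K0) * (1 + Real.log n)) ^ 4 ≤ √n := by
    have hlim : Filter.Tendsto (fun x : ℝ => Real.log x ^ 8 / (1 * x + 0)) Filter.atTop
        (nhds 0) := Real.tendsto_pow_log_div_mul_add_atTop 1 0 8 one_ne_zero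
    have hlim2 := hlim.comp tendsto_natCast_atTop_atTop
    have hpos : (0 : ℝ) < 1 / (2 * (2 + K0)) ^ 8 := by positivity
    have h3 := (hlim2.eventually (gt_mem_nhds hpos)).and
      (Filter.eventually_ge_atTop 3)
    obtain ⟨n0, hn0⟩ := Filter.eventually_atTop.mp h3
    refine ⟨n0, fun n hn => ?_⟩
    obtain ⟨h4, h5⟩ := hn0 n hn
    have hnpos : (0 : ℝ) < n := by
      have : 0 < n := by omega
      exact_mod_cast this
    have h6 : Real.log n ^ 8 / n < 1 / (2 * (2 + K0)) ^ 8 := by simpa using h4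
    have hlog1 : 1 ≤ Real.log n := by
      rw [Real.le_log_iff_exp_le hnpos]
      have h7 : (3 : ℝ) ≤ n := by exact_mod_cast h5
      linarith [Real.exp_one_lt_d9]
    have h8 : (2 * (2 + K0)) ^ 8 * Real.log n ^ 8 ≤ n := by
      rw [div_lt_div_iff₀ hnpos (by positivity)] at h6
      linarith
    apply Real.le_sqrt_of_sq_le
    have h9 : (2 + K0) * (1 + Real.log n) ≤ 2 * (2 + K0) * Real.log n := by nlinarith
    have h10 : 0 ≤ (2 + K0) * (1 + Real.log n) := by positivity
    calc (((2 + K0) * (1 + Real.log n)) ^ 4) ^ 2 = ((2 + K0) * (1 + Real.log n)) ^ 8 := by ring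
      _ ≤ (2 * (2 + K0) * Real.log n) ^ 8 := pow_le_pow_left₀ h10 h9 8
      _ = (2 * (2 + K0)) ^ 8 * Real.log n ^ 8 := by ring
      _ ≤ n := h8
  obtain ⟨n0, hn0⟩ := hev
  refine ⟨2 * n0 + C1 * (2 + K0) ^ 4 + 2 * C2 + 1, by positivity, fun n hn => ?_⟩
  have hnpos : (0 : ℝ) < n := by exact_mod_cast hn
  have hn1 : (1 : ℝ) ≤ n := by exact_mod_cast hn
  have hlog0 : 0 ≤ Real.log n := Real.log_nonneg hn1
  have hone : (1 : ℝ) ≤ (1 + Real.log n) ^ 4 := one_le_pow₀ (by linarith)
  rcases lt_or_ge n n0 with hlt | hge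
  · have h3 : F n ≤ 2 * n0 := (F_le n).trans (by
      have : (n : ℝ) ≤ n0 := by exact_mod_cast hlt.le
      linarith)
    have h4 : (0 : ℝ) ≤ C1 * (2 + K0) ^ 4 + 2 * C2 + 1 := by positivity
    calc F n ≤ 2 * n0 * 1 := by linarith
      _ ≤ (2 * n0 + C1 * (2 + K0) ^ 4 + 2 * C2 + 1) * (1 + Real.log n) ^ 4 :=
        mul_le_mul (by linarith) hone (by norm_num) (by positivity)
  · obtain ⟨K, hK⟩ : ∃ K, K = (2 + K0) * (1 + Real.log n) := ⟨_, rfl⟩
    have hK4 : K ^ 4 ≤ √n := by rw [hK]; exact hn0 n hge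
    have hKK0 : K0 ≤ K := by rw [hK]; nlinarith
    have hKlog : 1 + Real.log n ≤ K := by rw [hK]; nlinarith
    have hK2 : 2 * (1 + Real.log n) ≤ K := by rw [hK]; nlinarith
    have hprob := h2 n 1 K le_rfl (by simpa using hn) hKlog
    set bad : Set (Fin n → ℝ × ℝ) := {X | ¬ Good K (√n / (1 : ℕ)) 1 (scl (√n) X)} with hbad
    set B := toMeasurable (UU (Fin n)) bad with hB
    have hBm : MeasurableSet B := measurableSet_toMeasurable _ _
    have hBr : (UU (Fin n)).real B ≤ C2 * n * Real.exp (-K) := by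
      rw [Measure.real, hB, measure_toMeasurable]
      exact hprob
    have hsn : √(n : ℝ) ^ 2 = n := Real.sq_sqrt hnpos.le
    have hsn0 : 0 < √(n : ℝ) := Real.sqrt_pos.mpr hnpos
    have hpt : ∀ᵐ X ∂(UU (Fin n)), W 1 X (fun _ => (n : ℝ)) ≤
        C1 * K ^ 4 + B.indicator (fun _ => (2 * n : ℝ)) X := by
      filter_upwards [c5_W_le n] with X hX
      by_cases hXB : X ∈ B
      · rw [Set.indicator_of_mem hXB]
        have : 0 ≤ C1 * K ^ 4 := by positivity
        linarith
      · rw [Set.indicator_of_notMem hXB, add_zero]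
        have hgood : Good K (√n / (1 : ℕ)) 1 (scl (√n) X) := by
          by_contra hcon
          exact hXB (subset_toMeasurable _ _ hcon)
        have hreg : Reg K (√n) (scl (√n) X) := by
          have h5 := hgood.1
          have h6 : (((1 : ℕ) : ℝ)) * (√n / (1 : ℕ)) = √n := by simp
          rw [h6] at h5
          exact h5
        have h7 := h1 K (√n) (scl (√n) X) hreg hKK0 hK4
        rw [hsn] at h7
        have h8 := W_scale hsn0 X (n : ℝ)
        rw [hsn] at h8
        rw [Fintype.card_fin, h8] at h7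
        have h9 : (n : ℝ) * W 1 X (fun _ => (n : ℝ)) ≤ n * (C1 * K ^ 4) := by linarith
        exact le_of_mul_le_mul_left h9 hnpos
    have hF : F n ≤ C1 * K ^ 4 + 2 * n * (UU (Fin n)).real B := by
      have h5 : F n ≤ ∫ X, (C1 * K ^ 4 + B.indicator (fun _ => (2 * n : ℝ)) X) ∂(UU (Fin n)) :=
        integral_mono_ae (W_integrable (Nat.cast_nonneg n))
          ((integrable_const _).add ((integrable_const _).indicator hBm)) hpt
      refine h5.trans (le_of_eq ?_)
      rw [integral_add (integrable_const _) ((integrable_const _).indicator hBm),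
        integral_indicator hBm, setIntegral_const, integral_const]
      simp
      ring
    have hexp : Real.exp (-K) ≤ 1 / (n : ℝ) ^ 2 := by
      have h5 : Real.exp (-K) ≤ Real.exp (-(2 * Real.log n)) :=
        Real.exp_le_exp.mpr (by linarith)
      refine h5.trans (le_of_eq ?_)
      rw [Real.exp_neg, ← Real.log_rpow hnpos, Real.exp_log (by positivity)]
      rw [one_div]
      norm_cast
    have hfin : 2 * n * (UU (Fin n)).real B ≤ 2 * C2 := by
      calc 2 * n * (UU (Fin n)).real B ≤ 2 * n * (C2 * n * (1 / (n : ℝ) ^ 2)) := by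
            apply mul_le_mul_of_nonneg_left _ (by positivity)
            exact hBr.trans (mul_le_mul_of_nonneg_left hexp (by positivity))
        _ = 2 * C2 := by field_simp
    have hK4' : K ^ 4 = (2 + K0) ^ 4 * (1 + Real.log n) ^ 4 := by rw [hK]; ring
    calc F n ≤ C1 * K ^ 4 + 2 * C2 := by linarith
      _ = C1 * (2 + K0) ^ 4 * (1 + Real.log n) ^ 4 + 2 * C2 * 1 := by rw [hK4']; ring
      _ ≤ C1 * (2 + K0) ^ 4 * (1 + Real.log n) ^ 4 + 2 * C2 * (1 + Real.log n) ^ 4 := by
          have := mul_le_mul_of_nonneg_left hone (by positivity : (0:ℝ) ≤ 2 * C2)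
          linarith
      _ ≤ (2 * n0 + C1 * (2 + K0) ^ 4 + 2 * C2 + 1) * (1 + Real.log n) ^ 4 := by
          have : (0 : ℝ) ≤ (2 * n0 + 1) * (1 + Real.log n) ^ 4 := by positivity
          nlinarith

end Pool.Agent.Lib.H77M
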