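import Pool.Agent.Lib.H77M.A7

/-!
# Project H77M, chunk C6: asymptotics of `sig`
-/

open MeasureTheory Set ProbabilityTheory

namespace Pool.Agent.Lib.H77M

theorem C6_exp_le {x : ℝ} (hx : 0 < x) : Real.exp (-x) ≤ 1 / x := by
  rw [Real.exp_neg, one_div]
  apply inv_anti₀ hx
  have := Real.add_one_le_exp x
  linarith

theorem C6_summable : Summable fun m : ℤ => 1 / (m : ℝ) ^ 2 :=
  Real.summable_one_div_int_pow.2 (by norm_num)

noncomputable def C6_Z : ℝ := ∑' m : ℤ, 1 / (m : ℝ) ^ 2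

theorem C6_Z_nonneg : 0 ≤ C6_Z := tsum_nonneg fun m => by positivity

theorem C6_term {v : ℝ} (hv : 0 < v) (m : ℤ) :
    Real.exp (-(m : ℝ) ^ 2 / v) ≤ (if m = 0 then (1 : ℝ) else 0) + v * (1 / (m : ℝ) ^ 2) := by
  split_ifs with h
  · subst h
    simp
  · have hm : (0 : ℝ) < (m : ℝ) ^ 2 := by positivity
    have h1 : Real.exp (-((m : ℝ) ^ 2 / v)) ≤ 1 / ((m : ℝ) ^ 2 / v) := C6_exp_le (by positivity)
    rw [neg_div, zero_add]
    refine h1.trans (le_of_eq ?_)
    field_simp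

theorem C6_dom (v : ℝ) :
    HasSum (fun m : ℤ => (if m = 0 then (1 : ℝ) else 0) + v * (1 / (m : ℝ) ^ 2)) (1 + v * C6_Z) := by
  refine HasSum.add ?_ (C6_summable.hasSum.mul_left v)
  exact hasSum_ite_eq (0 : ℤ) (1 : ℝ)

theorem C6_sum {v : ℝ} (hv : 0 < v) : Summable fun m : ℤ => Real.exp (-(m : ℝ) ^ 2 / v) :=
  Summable.of_nonneg_of_le (fun m => (Real.exp_pos _).le) (C6_term hv) (C6_dom v).summable

theorem C6_S {v : ℝ} (hv : 0 < v) : 1 ≤ ∑' m : ℤ, Real.exp (-(m : ℝ) ^ 2 / v) ∧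
    ∑' m : ℤ, Real.exp (-(m : ℝ) ^ 2 / v) ≤ 1 + v * C6_Z := by
  constructor
  · have h := (C6_sum hv).le_tsum (0 : ℤ) (fun m _ => (Real.exp_pos _).le)
    simpa using h
  · rw [← (C6_dom v).tsum_eq]
    exact (C6_sum hv).tsum_le_tsum (C6_term hv) (C6_dom v).summable

theorem C6_theta {v : ℝ} (hv : 0 < v) (hv1 : v ≤ 1) :
    |theta v ^ 2 - 1 - 1 / (4 * Real.pi * v)| ≤ (2 + 2 * C6_Z + C6_Z * (2 + C6_Z)) * (1 / √v) := by
  obtain ⟨h1, h2⟩ := C6_S hv
  set S := ∑' m : ℤ, Real.exp (-(m : ℝ) ^ 2 / v) with hS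
  have hZ := C6_Z_nonneg
  have hpi := Real.pi_gt_three
  have hq : 0 < 4 * Real.pi * v := by positivity
  have hsv : 0 < √v := Real.sqrt_pos.2 hv
  have hsv1 : √v ≤ 1 := Real.sqrt_le_one.2 hv1
  have hth : theta v = 1 / 2 + S / √(4 * Real.pi * v) := by
    unfold theta
    rw [hS, tsum_div_const]
  set a := 1 / √(4 * Real.pi * v) with ha
  have ha0 : 0 < a := by positivity
  have hth' : theta v = 1 / 2 + a * S := by rw [hth, ha]; ring
  have ha2 : a ^ 2 = 1 / (4 * Real.pi * v) := by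
    rw [ha, div_pow, Real.sq_sqrt hq.le, one_pow]
  have hav : a ≤ 1 / √v := by
    rw [ha]
    apply one_div_le_one_div_of_le hsv
    apply Real.sqrt_le_sqrt
    nlinarith
  have h1v : 1 ≤ 1 / √v := by
    rw [le_div_iff₀ hsv]
    linarith
  have e1 : theta v ^ 2 - 1 - 1 / (4 * Real.pi * v) = -(3 / 4) + a * S + a ^ 2 * (S ^ 2 - 1) := by
    rw [hth', ← ha2]
    ring
  have hvZ : v * C6_Z ≤ C6_Z := by nlinarith
  have hS2 : S ≤ 1 + C6_Z := by linarith
  have b1 : a * S ≤ (1 / √v) * (1 + C6_Z) := by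
    apply mul_le_mul hav hS2 (by linarith) (by positivity)
  have b2 : a ^ 2 * (S ^ 2 - 1) ≤ C6_Z * (2 + C6_Z) * (1 / √v) := by
    have h3 : a ^ 2 * (S ^ 2 - 1) = a ^ 2 * ((S - 1) * (S + 1)) := by ring
    have h4 : (S - 1) * (S + 1) ≤ (v * C6_Z) * (2 + C6_Z) := by
      apply mul_le_mul (by linarith) (by linarith) (by linarith) (by positivity)
    have h5 : a ^ 2 * v ≤ 1 := by
      rw [ha2, div_mul_eq_mul_div, one_mul, div_le_one hq]
      nlinarith
    calc a ^ 2 * (S ^ 2 - 1) ≤ a ^ 2 * ((v * C6_Z) * (2 + C6_Z)) := by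
          rw [h3]
          exact mul_le_mul_of_nonneg_left h4 (by positivity)
      _ = (a ^ 2 * v) * (C6_Z * (2 + C6_Z)) := by ring
      _ ≤ 1 * (C6_Z * (2 + C6_Z)) := mul_le_mul_of_nonneg_right h5 (by positivity)
      _ = C6_Z * (2 + C6_Z) * 1 := by ring
      _ ≤ C6_Z * (2 + C6_Z) * (1 / √v) := mul_le_mul_of_nonneg_left h1v (by positivity)
  have b3 : 0 ≤ a * S := by positivity
  have b4 : 0 ≤ a ^ 2 * (S ^ 2 - 1) := by
    apply mul_nonneg (by positivity)
    nlinarith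
  rw [e1, abs_le]
  have hZv : 0 ≤ C6_Z * (1 / √v) := by positivity
  have hZv2 : 0 ≤ C6_Z * (2 + C6_Z) * (1 / √v) := by positivity
  constructor
  · nlinarith
  · nlinarith

/-- for `v ≤ 1`: `theta v ^ 2 - 1 = 1 / (4 π v) + O (v ^ (-1/2))` -/
theorem sig_asymp : ∃ C : ℝ, 0 < C ∧ ∀ s s' : ℝ, 0 < s → s ≤ s' → s' ≤ 1 →
    |sig s - sig s' - Real.log (s' / s) / (4 * Real.pi)| ≤ C * √s' := by
  have hZ := C6_Z_nonneg
  set C0 := 2 + 2 * C6_Z + C6_Z * (2 + C6_Z) with hC0
  have hC0p : 0 < C0 := by positivity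
  refine ⟨2 * C0, by positivity, ?_⟩
  intro s s' hs hss hs1
  have hs' : 0 < s' := lt_of_lt_of_le hs hss
  have hint := theta_int hs
  have hint' := theta_int hs'
  have hsub : Ioc s s' ⊆ Ioi s := Ioc_subset_Ioi_self
  have hunion : Ioi s = Ioc s s' ∪ Ioi s' := (Ioc_union_Ioi_eq_Ioi hss).symm
  have e1 : sig s = (∫ v in Ioc s s', (theta v ^ 2 - 1)) + sig s' := by
    unfold sig
    rw [hunion]
    apply setIntegral_union (Ioc_disjoint_Ioi le_rfl) measurableSet_Ioi
    · exact hint.mono_set hsub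
    · exact hint'
  have e2 : sig s - sig s' = ∫ v in s..s', (theta v ^ 2 - 1) := by
    rw [intervalIntegral.integral_of_le hss, e1]
    ring
  have hI1 : IntervalIntegrable (fun v => theta v ^ 2 - 1) volume s s' := by
    rw [intervalIntegrable_iff_integrableOn_Ioc_of_le hss]
    exact hint.mono_set hsub
  have hne : ∀ v ∈ uIcc s s', v ≠ 0 := by
    intro v hv
    rw [uIcc_of_le hss] at hv
    linarith [hv.1]
  have hI2 : IntervalIntegrable (fun v : ℝ => 1 / (4 * Real.pi * v)) volume s s' := by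
    apply ContinuousOn.intervalIntegrable
    apply ContinuousOn.div continuousOn_const (by fun_prop)
    intro v hv
    have := hne v hv
    have := Real.pi_pos
    positivity
  have e3 : ∫ v in s..s', (1 / (4 * Real.pi * v)) = Real.log (s' / s) / (4 * Real.pi) := by
    have h1 : (fun v : ℝ => 1 / (4 * Real.pi * v)) = fun v => (1 / (4 * Real.pi)) * (1 / v) := by
      funext v
      rw [one_div_mul_one_div]
    rw [h1, intervalIntegral.integral_const_mul, integral_one_div_of_pos hs hs']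
    ring
  have hI3 : IntervalIntegrable (fun v : ℝ => C0 * (1 / √v)) volume s s' := by
    apply ContinuousOn.intervalIntegrable
    apply ContinuousOn.mul continuousOn_const
    apply ContinuousOn.div continuousOn_const Real.continuous_sqrt.continuousOn
    intro v hv
    rw [uIcc_of_le hss] at hv
    exact (Real.sqrt_pos.2 (lt_of_lt_of_le hs hv.1)).ne'
  have e4 : ∫ v in s..s', (1 / √v) = 2 * √s' - 2 * √s := by
    have h1 : ∀ v ∈ uIcc s s', HasDerivAt (fun v => 2 * √v) (1 / √v) v := by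
      intro v hv
      have h2 := (Real.hasDerivAt_sqrt (hne v hv)).const_mul 2
      have h3 : 2 * (1 / (2 * √v)) = 1 / √v := by
        rw [uIcc_of_le hss] at hv
        have : √v ≠ 0 := (Real.sqrt_pos.2 (lt_of_lt_of_le hs hv.1)).ne'
        field_simp
      rw [h3] at h2
      exact h2
    rw [intervalIntegral.integral_eq_sub_of_hasDerivAt h1]
    apply ContinuousOn.intervalIntegrable
    apply ContinuousOn.div continuousOn_const Real.continuous_sqrt.continuousOn
    intro v hv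
    rw [uIcc_of_le hss] at hv
    exact (Real.sqrt_pos.2 (lt_of_lt_of_le hs hv.1)).ne'
  rw [e2, ← e3, ← intervalIntegral.integral_sub hI1 hI2]
  have h5 : |∫ v in s..s', (theta v ^ 2 - 1 - 1 / (4 * Real.pi * v))| ≤
      ∫ v in s..s', C0 * (1 / √v) := by
    rw [← Real.norm_eq_abs]
    refine (intervalIntegral.norm_integral_le_integral_norm hss).trans ?_
    apply intervalIntegral.integral_mono_on hss (hI1.sub hI2).norm hI3
    intro v hv
    rw [Real.norm_eq_abs]
    exact C6_theta (lt_of_lt_of_le hs hv.1) (hv.2.trans hs1)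
  refine h5.trans ?_
  rw [intervalIntegral.integral_const_mul, e4]
  have := Real.sqrt_nonneg s
  nlinarith

end Pool.Agent.Lib.H77M
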