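import Pool.Agent.Lib.H77M.C1
import Pool.Agent.Lib.H77M.C3
import Pool.Agent.Lib.H77M.C4

/-!
# Project H77M, chunk C7a: the expectation of `DD`
-/

open MeasureTheory Set ProbabilityTheory

namespace Pool.Agent.Lib.H77M

theorem c7a_En_le {C L t : ℝ} (hC : 0 < C) (hL : 1 ≤ L)
    (hkk : ∀ x y : ℝ × ℝ, |kk L t x y| ≤ C * (1 + Real.log L)) {ι : Type} [Fintype ι]
    (X : ι → ℝ × ℝ) : |En L t X| ≤ C * L * (Fintype.card ι : ℝ) ^ 2 := by
  have hlog : 1 + Real.log L ≤ L := by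
    have := Real.log_le_sub_one_of_pos (lt_of_lt_of_le one_pos hL)
    linarith
  have h1 : ∀ x y : ℝ × ℝ, |kk L t x y| ≤ C * L := fun x y =>
    (hkk x y).trans (mul_le_mul_of_nonneg_left hlog hC.le)
  unfold En
  calc |∑ i, ∑ j, kk L t (X i) (X j)| ≤ ∑ i, |∑ j, kk L t (X i) (X j)| :=
        Finset.abs_sum_le_sum_abs _ _
    _ ≤ ∑ _i : ι, ∑ _j : ι, C * L := Finset.sum_le_sum fun i _ =>
        (Finset.abs_sum_le_sum_abs _ _).trans (Finset.sum_le_sum fun j _ => h1 _ _)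
    _ = C * L * (Fintype.card ι : ℝ) ^ 2 := by
        simp only [Finset.sum_const, Finset.card_univ, nsmul_eq_mul]
        ring

theorem c7a_cell_mem {l : ℝ} {ι : Type} {X : ι → ℝ × ℝ} {a b : ℕ} (i : CI l X a b) :
    CX l X a b i ∈ box l := by
  obtain ⟨i, hi⟩ := i
  obtain ⟨⟨h1, h2⟩, ⟨h3, h4⟩⟩ := hi
  unfold CX
  refine ⟨⟨?_, ?_⟩, ⟨?_, ?_⟩⟩
  · show 0 ≤ (X i).1 - a * l
    linarith
  · show (X i).1 - a * l ≤ l
    linarith
  · show 0 ≤ (X i).2 - b * l
    linarith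
  · show (X i).2 - b * l ≤ l
    linarith

theorem c7a_card_le {l : ℝ} {ι : Type} [Fintype ι] {X : ι → ℝ × ℝ} {a b : ℕ} :
    Fintype.card (CI l X a b) ≤ Fintype.card ι :=
  Fintype.card_le_of_injective (fun i : CI l X a b => i.1) (fun _ _ h => Subtype.ext h)

/-- crude bound on all configurations -/
theorem DD_crude : ∃ C : ℝ, 0 < C ∧ ∀ (n k : ℕ) (t : ℝ) (X : Fin n → ℝ × ℝ), 1 ≤ k → k ^ 2 ≤ n →
    1 ≤ t → (∀ i, X i ∈ hbox 1) → |DD (√n / k) t k (scl (√n) X)| ≤ C * (n : ℝ) ^ 4 := by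
  obtain ⟨C, hC, hkk⟩ := kk_le
  refine ⟨4 + 6 * C, by positivity, ?_⟩
  intro n k t X hk hkn ht hX
  have hkpos : (0 : ℝ) < k := by exact_mod_cast hk
  have hn1 : 1 ≤ n := le_trans (Nat.one_le_pow _ _ hk) hkn
  have hn1' : (1 : ℝ) ≤ n := by exact_mod_cast hn1
  have hnpos : (0 : ℝ) < n := by linarith
  obtain ⟨L, hL⟩ : ∃ L, L = √(n : ℝ) := ⟨_, rfl⟩
  have hL2 : L ^ 2 = n := by rw [hL]; exact Real.sq_sqrt hnpos.le
  have hL0 : 0 < L := by rw [hL]; exact Real.sqrt_pos.mpr hnpos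
  have hL1 : 1 ≤ L := by nlinarith
  have hLn : L ≤ n := by nlinarith
  have hkL : (k : ℝ) ≤ L := by
    have : ((k : ℝ)) ^ 2 ≤ n := by exact_mod_cast hkn
    rw [← hL2] at this
    exact le_of_sq_le_sq this hL0.le
  rw [← hL]
  obtain ⟨l, hl⟩ : ∃ l, l = L / k := ⟨_, rfl⟩
  have hl1 : 1 ≤ l := by rw [hl, le_div_iff₀ hkpos]; linarith
  have hl0 : 0 < l := by linarith
  have hkl : (k : ℝ) * l = L := by rw [hl]; field_simp
  have hk1 : (1 : ℝ) ≤ k := by exact_mod_cast hk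
  have hlL : l ≤ L := by nlinarith
  rw [← hl]
  unfold DD
  rw [hkl]
  have ht2 : 1 ≤ 2 * t := by linarith
  -- first term
  have hT1 : |W L (scl L X) (fun _ => 1)| ≤ 2 * (n : ℝ) ^ 2 := by
    rw [abs_of_nonneg (W_nonneg _ fun _ _ => zero_le_one)]
    refine (W_le_triv hL0 (fun i => ?_) continuous_const (fun _ _ => zero_le_one)).trans ?_
    · obtain ⟨⟨h1, h2⟩, ⟨h3, h4⟩⟩ := hX i
      unfold scl
      refine ⟨⟨?_, ?_⟩, ⟨?_, ?_⟩⟩
      · show 0 ≤ L * (X i).1
        positivity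
      · show L * (X i).1 ≤ L
        nlinarith
      · show 0 ≤ L * (X i).2
        positivity
      · show L * (X i).2 ≤ L
        nlinarith
    · rw [Fintype.card_fin, hL2]
      nlinarith
  -- cells
  have hcard : ∀ a b, (Fintype.card (CI l (scl L X) a b) : ℝ) ≤ n := by
    intro a b
    have := c7a_card_le (l := l) (X := scl L X) (a := a) (b := b)
    rw [Fintype.card_fin] at this
    exact_mod_cast this
  have hkk2 : (k : ℝ) * (k * l ^ 2) = n := by
    rw [← hL2, ← hkl]; ring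
  have hT2 : |∑ a ∈ Finset.range k, ∑ b ∈ Finset.range k,
      W l (CX l (scl L X) a b) (fun _ => (Fintype.card (CI l (scl L X) a b) : ℝ) / l ^ 2)| ≤
      2 * (n : ℝ) ^ 2 := by
    have h1 : ∀ a b, |W l (CX l (scl L X) a b)
        (fun _ => (Fintype.card (CI l (scl L X) a b) : ℝ) / l ^ 2)| ≤ 2 * l ^ 2 * n := by
      intro a b
      have hc0 : (0 : ℝ) ≤ (Fintype.card (CI l (scl L X) a b) : ℝ) / l ^ 2 := by positivity
      rw [abs_of_nonneg (W_nonneg _ fun _ _ => hc0)]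
      refine (W_le_triv hl0 (fun i => c7a_cell_mem i) continuous_const (fun _ _ => hc0)).trans ?_
      exact mul_le_mul_of_nonneg_left (hcard a b) (by positivity)
    calc _ ≤ ∑ a ∈ Finset.range k, ∑ b ∈ Finset.range k, 2 * l ^ 2 * (n : ℝ) :=
          (Finset.abs_sum_le_sum_abs _ _).trans (Finset.sum_le_sum fun a _ =>
            (Finset.abs_sum_le_sum_abs _ _).trans (Finset.sum_le_sum fun b _ => h1 a b))
      _ = 2 * (k * (k * l ^ 2)) * n := by
          simp only [Finset.sum_const, Finset.card_range, nsmul_eq_mul]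
          ring
      _ = 2 * (n : ℝ) ^ 2 := by rw [hkk2]; ring
  have hT3 : |2 * En L t (scl L X) - En L (2 * t) (scl L X)| ≤ 3 * C * (n : ℝ) ^ 3 := by
    have h1 := c7a_En_le hC hL1 (hkk L t hL1 ht) (scl L X)
    have h2 := c7a_En_le hC hL1 (hkk L (2 * t) hL1 ht2) (scl L X)
    rw [Fintype.card_fin] at h1 h2
    have h3 : C * L * (n : ℝ) ^ 2 ≤ C * (n : ℝ) ^ 3 := by
      have : C * L * (n : ℝ) ^ 2 ≤ C * n * (n : ℝ) ^ 2 := by gcongr
      calc _ ≤ _ := this
        _ = _ := by ring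
    calc |2 * En L t (scl L X) - En L (2 * t) (scl L X)|
        ≤ |2 * En L t (scl L X)| + |En L (2 * t) (scl L X)| := abs_sub _ _
      _ = 2 * |En L t (scl L X)| + |En L (2 * t) (scl L X)| := by rw [abs_mul]; norm_num
      _ ≤ 3 * C * (n : ℝ) ^ 3 := by linarith
  have hT4 : |∑ a ∈ Finset.range k, ∑ b ∈ Finset.range k,
      l ^ 2 / (Fintype.card (CI l (scl L X) a b) : ℝ) *
      (2 * En l t (CX l (scl L X) a b) - En l (2 * t) (CX l (scl L X) a b))| ≤
      3 * C * (n : ℝ) ^ 3 := by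
    have h1 : ∀ a b, |l ^ 2 / (Fintype.card (CI l (scl L X) a b) : ℝ) *
      (2 * En l t (CX l (scl L X) a b) - En l (2 * t) (CX l (scl L X) a b))| ≤
        l ^ 2 * (3 * C * (n : ℝ) ^ 2) := by
      intro a b
      have e1 := c7a_En_le hC hl1 (hkk l t hl1 ht) (CX l (scl L X) a b)
      have e2 := c7a_En_le hC hl1 (hkk l (2 * t) hl1 ht2) (CX l (scl L X) a b)
      have e3 := hcard a b
      have e0 : (0 : ℝ) ≤ (Fintype.card (CI l (scl L X) a b) : ℝ) := Nat.cast_nonneg _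
      generalize (Fintype.card (CI l (scl L X) a b) : ℝ) = c at e0 e1 e2 e3 ⊢
      rcases eq_or_ne c 0 with hc | hc
      · rw [hc, div_zero, zero_mul, abs_zero]
        positivity
      · rw [abs_mul, abs_div]
        have e4 : |2 * En l t (CX l (scl L X) a b) - En l (2 * t) (CX l (scl L X) a b)| ≤
            3 * (C * l * c ^ 2) := by
          calc _ ≤ |2 * En l t (CX l (scl L X) a b)| + |En l (2 * t) (CX l (scl L X) a b)| :=
                abs_sub _ _
            _ = 2 * |En l t (CX l (scl L X) a b)| + |En l (2 * t) (CX l (scl L X) a b)| := by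
                rw [abs_mul]; norm_num
            _ ≤ _ := by linarith
        have hcabs : 0 < |c| := abs_pos.mpr hc
        have hcc : c ^ 2 = |c| * |c| := by rw [← pow_two, sq_abs]
        have hl2 : |l ^ 2| = l ^ 2 := abs_of_nonneg (by positivity)
        rw [hl2]
        calc l ^ 2 / |c| * |2 * En l t (CX l (scl L X) a b) - En l (2 * t) (CX l (scl L X) a b)|
            ≤ l ^ 2 / |c| * (3 * (C * l * c ^ 2)) :=
              mul_le_mul_of_nonneg_left e4 (by positivity)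
          _ = l ^ 2 * (3 * C * l * |c|) := by rw [hcc]; field_simp
          _ ≤ l ^ 2 * (3 * C * n * n) := by
              have e5 : |c| ≤ n := by rw [abs_of_nonneg e0]; exact e3
              have e7 : l ≤ n := hlL.trans hLn
              gcongr
          _ = l ^ 2 * (3 * C * (n : ℝ) ^ 2) := by ring
    calc _ ≤ ∑ a ∈ Finset.range k, ∑ b ∈ Finset.range k, l ^ 2 * (3 * C * (n : ℝ) ^ 2) :=
          (Finset.abs_sum_le_sum_abs _ _).trans (Finset.sum_le_sum fun a _ =>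
            (Finset.abs_sum_le_sum_abs _ _).trans (Finset.sum_le_sum fun b _ => h1 a b))
      _ = (k * (k * l ^ 2)) * (3 * C * (n : ℝ) ^ 2) := by
          simp only [Finset.sum_const, Finset.card_range, nsmul_eq_mul]
          ring
      _ = 3 * C * (n : ℝ) ^ 3 := by rw [hkk2]; ring
  have hn2 : (n : ℝ) ^ 2 ≤ (n : ℝ) ^ 4 := pow_le_pow_right₀ hn1' (by norm_num)
  have hn3 : (n : ℝ) ^ 3 ≤ (n : ℝ) ^ 4 := pow_le_pow_right₀ hn1' (by norm_num)
  have hC3 : C * (n : ℝ) ^ 3 ≤ C * (n : ℝ) ^ 4 := mul_le_mul_of_nonneg_left hn3 hC.le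
  rw [abs_le] at hT1 hT2 hT3 hT4 ⊢
  constructor
  · linarith [hT1.1, hT2.2, hT3.2, hT4.1]
  · linarith [hT1.2, hT2.1, hT3.1, hT4.2]

theorem c7a_int4 {Ω : Type*} [MeasurableSpace Ω] {μ : Measure Ω} {f g h k : Ω → ℝ}
    (hf : Integrable f μ) (hg : Integrable g μ) (hh : Integrable h μ) (hk : Integrable k μ) :
    Integrable (fun X => f X - g X - h X + k X) μ ∧
    ∫ X, (f X - g X - h X + k X) ∂μ = ∫ X, f X ∂μ - ∫ X, g X ∂μ - ∫ X, h X ∂μ + ∫ X, k X ∂μ := by
  refine ⟨((hf.sub hg).sub hh).add hk, ?_⟩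
  have h1 : ∫ X, (f X - g X - h X + k X) ∂μ = ∫ X, (f X - g X - h X) ∂μ + ∫ X, k X ∂μ :=
    integral_add ((hf.sub hg).sub hh) hk
  have h2 : ∫ X, (f X - g X - h X) ∂μ = ∫ X, (f X - g X) ∂μ - ∫ X, h X ∂μ :=
    integral_sub (hf.sub hg) hh
  have h3 : ∫ X, (f X - g X) ∂μ = ∫ X, f X ∂μ - ∫ X, g X ∂μ := integral_sub hf hg
  rw [h1, h2, h3]

theorem c7a_sum_bw {n k : ℕ} (hk : 1 ≤ k) (c : ℝ) :
    ∑ m ∈ Finset.range (n + 1), bw n k m * (1 / (m : ℝ) * (m * c)) = (1 - bw n k 0) * c := by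
  have h1 : ∀ m ∈ Finset.range (n + 1), bw n k m * (1 / (m : ℝ) * (m * c)) =
      bw n k m * c - (if m = 0 then bw n k 0 * c else 0) := by
    intro m _
    by_cases hm : m = 0
    · rw [if_pos hm, hm]; simp
    · rw [if_neg hm]
      have : (m : ℝ) ≠ 0 := by exact_mod_cast hm
      field_simp
      ring
  rw [Finset.sum_congr rfl h1, Finset.sum_sub_distrib, ← Finset.sum_mul, bw_sum hk,
    Finset.sum_ite_eq' (Finset.range (n + 1)) 0]
  simp
  ring

/-- the expectation: `F`, `En_mean`, and `cond` for the cells with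
`Φ ι X = W 1 X (card ι)` and `Φ ι X = 1 / card ι * En 1 s X` -/
theorem DD_mean {n k : ℕ} (hk : 1 ≤ k) (hn : k ^ 2 ≤ n) {t : ℝ} (ht : 0 < t) :
    Integrable (fun X : Fin n → ℝ × ℝ => DD (√n / k) t k (scl (√n) X)) (UU (Fin n)) ∧
    ∫ X, DD (√n / k) t k (scl (√n) X) ∂(UU (Fin n)) =
      n * (F n - ∑ m ∈ Finset.range (n + 1), bw n k m * F m) -
        n * (2 * sig (t / n) - sig (2 * t / n)) +
        n * (1 - bw n k 0) * (2 * sig (t / (n / (k : ℝ) ^ 2)) - sig (2 * t / (n / (k : ℝ) ^ 2))) := by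
  have hkpos : (0 : ℝ) < k := by exact_mod_cast hk
  have hn1 : 1 ≤ n := le_trans (Nat.one_le_pow _ _ hk) hn
  have hnpos : (0 : ℝ) < n := by exact_mod_cast hn1
  obtain ⟨L, hL⟩ : ∃ L, L = √(n : ℝ) := ⟨_, rfl⟩
  have hL2 : L ^ 2 = n := by rw [hL]; exact Real.sq_sqrt hnpos.le
  have hL0 : 0 < L := by rw [hL]; exact Real.sqrt_pos.mpr hnpos
  rw [← hL]
  have ht2 : 0 < 2 * t := by linarith
  have hM : (L / k) ^ 2 = n / (k : ℝ) ^ 2 := by rw [div_pow, hL2]
  have hMpos : 0 < (n : ℝ) / (k : ℝ) ^ 2 := by positivity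
  obtain ⟨M, hMdef⟩ : ∃ M : ℝ, M = n / (k : ℝ) ^ 2 := ⟨_, rfl⟩
  rw [← hMdef] at hM hMpos ⊢
  have hkM : (k : ℝ) * (k * M) = n := by rw [hMdef]; field_simp
  -- the functional of a configuration
  have hDD : ∀ X : Fin n → ℝ × ℝ, DD (L / k) t k (scl L X) =
      n * W 1 X (fun _ => (n : ℝ)) -
      ∑ a ∈ Finset.range k, ∑ b ∈ Finset.range k, M * W 1 (scl k (CX (1 / (k : ℝ)) X a b))
        (fun _ => (Fintype.card (CI (1 / (k : ℝ)) X a b) : ℝ)) -
      (2 * En 1 (t / n) X - En 1 (2 * t / n) X) +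
      ∑ a ∈ Finset.range k, ∑ b ∈ Finset.range k, M *
        (2 * (1 / (Fintype.card (CI (1 / (k : ℝ)) X a b) : ℝ) *
          En 1 (t / M) (scl k (CX (1 / (k : ℝ)) X a b))) -
        1 / (Fintype.card (CI (1 / (k : ℝ)) X a b) : ℝ) *
          En 1 (2 * t / M) (scl k (CX (1 / (k : ℝ)) X a b))) := by
    intro X
    unfold DD
    have h1 : (k : ℝ) * (L / k) = L := by field_simp
    rw [h1]
    have h2 : W L (scl L X) (fun _ => 1) = n * W 1 X (fun _ => (n : ℝ)) := by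
      have h3 := W_scale hL0 X (n : ℝ)
      rw [hL2, div_self hnpos.ne'] at h3
      exact h3
    have h4 : ∀ a b, W (L / k) (CX (L / k) (scl L X) a b)
        (fun _ => (Fintype.card (CI (L / k) (scl L X) a b) : ℝ) / (L / k) ^ 2) =
        M * W 1 (scl k (CX (1 / (k : ℝ)) X a b))
        (fun _ => (Fintype.card (CI (1 / (k : ℝ)) X a b) : ℝ)) := by
      intro a b
      rw [W_cell hL0 hk X a b, hM]
    have h5 : En L t (scl L X) = En 1 (t / n) X := by rw [En_scale hL0 ht, hL2]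
    have h6 : En L (2 * t) (scl L X) = En 1 (2 * t / n) X := by rw [En_scale hL0 ht2, hL2]
    have h7 : ∀ a b, (L / k) ^ 2 / (Fintype.card (CI (L / k) (scl L X) a b) : ℝ) *
        (2 * En (L / k) t (CX (L / k) (scl L X) a b) -
          En (L / k) (2 * t) (CX (L / k) (scl L X) a b)) =
        M * (2 * (1 / (Fintype.card (CI (1 / (k : ℝ)) X a b) : ℝ) *
          En 1 (t / M) (scl k (CX (1 / (k : ℝ)) X a b))) -
        1 / (Fintype.card (CI (1 / (k : ℝ)) X a b) : ℝ) *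
          En 1 (2 * t / M) (scl k (CX (1 / (k : ℝ)) X a b))) := by
      intro a b
      obtain ⟨e1, e2⟩ := En_cell hL0 ht hk X a b
      obtain ⟨e3, -⟩ := En_cell hL0 ht2 hk X a b
      rw [e1, e3, e2, hM]
      ring
    simp only [h4, h7, h2, h5, h6]
  have hfun : (fun X : Fin n → ℝ × ℝ => DD (L / k) t k (scl L X)) = fun X =>
      n * W 1 X (fun _ => (n : ℝ)) -
      ∑ a ∈ Finset.range k, ∑ b ∈ Finset.range k, M * W 1 (scl k (CX (1 / (k : ℝ)) X a b))
        (fun _ => (Fintype.card (CI (1 / (k : ℝ)) X a b) : ℝ)) -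
      (2 * En 1 (t / n) X - En 1 (2 * t / n) X) +
      ∑ a ∈ Finset.range k, ∑ b ∈ Finset.range k, M *
        (2 * (1 / (Fintype.card (CI (1 / (k : ℝ)) X a b) : ℝ) *
          En 1 (t / M) (scl k (CX (1 / (k : ℝ)) X a b))) -
        1 / (Fintype.card (CI (1 / (k : ℝ)) X a b) : ℝ) *
          En 1 (2 * t / M) (scl k (CX (1 / (k : ℝ)) X a b))) := funext hDD
  rw [hfun]
  -- the pieces
  have iW : Integrable (fun X : Fin n → ℝ × ℝ => W 1 X (fun _ => (n : ℝ))) (UU (Fin n)) :=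
    W_integrable (Nat.cast_nonneg n)
  have hcW : ∀ a b, a < k → b < k → Integrable (fun X : Fin n → ℝ × ℝ =>
      W 1 (scl k (CX (1 / (k : ℝ)) X a b))
        (fun _ => (Fintype.card (CI (1 / (k : ℝ)) X a b) : ℝ))) (UU (Fin n)) ∧
      ∫ X, W 1 (scl k (CX (1 / (k : ℝ)) X a b))
        (fun _ => (Fintype.card (CI (1 / (k : ℝ)) X a b) : ℝ)) ∂(UU (Fin n)) =
      ∑ m ∈ Finset.range (n + 1), bw n k m * F m := by
    intro a b ha hb
    have h1 := cond (n := n) hk (fun ι [Fintype ι] X => W 1 X (fun _ => (Fintype.card ι : ℝ)))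
      (by
        intro ι κ _ _ e X
        show W 1 (fun i => X (e i)) (fun _ => (Fintype.card ι : ℝ)) =
          W 1 X (fun _ => (Fintype.card κ : ℝ))
        rw [W_reindex e X, Fintype.card_congr e])
      (by
        intro m
        show Integrable (fun X : Fin m → ℝ × ℝ =>
          W 1 X (fun _ => (Fintype.card (Fin m) : ℝ))) (UU (Fin m))
        rw [Fintype.card_fin]
        exact W_integrable (Nat.cast_nonneg m)) ha hb
    refine ⟨h1.1, h1.2.trans ?_⟩
    refine Finset.sum_congr rfl fun m _ => ?_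
    show bw n k m * ∫ X, W 1 X (fun _ => (Fintype.card (Fin m) : ℝ)) ∂(UU (Fin m)) = _
    rw [Fintype.card_fin]
    rfl
  have hcE : ∀ s : ℝ, 0 < s → ∀ a b, a < k → b < k → Integrable (fun X : Fin n → ℝ × ℝ =>
      1 / (Fintype.card (CI (1 / (k : ℝ)) X a b) : ℝ) *
        En 1 s (scl k (CX (1 / (k : ℝ)) X a b))) (UU (Fin n)) ∧
      ∫ X, 1 / (Fintype.card (CI (1 / (k : ℝ)) X a b) : ℝ) *
        En 1 s (scl k (CX (1 / (k : ℝ)) X a b)) ∂(UU (Fin n)) = (1 - bw n k 0) * sig s := by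
    intro s hs a b ha hb
    have h1 := cond (n := n) hk (fun ι [Fintype ι] X => 1 / (Fintype.card ι : ℝ) * En 1 s X)
      (by
        intro ι κ _ _ e X
        show 1 / (Fintype.card ι : ℝ) * En 1 s (fun i => X (e i)) =
          1 / (Fintype.card κ : ℝ) * En 1 s X
        rw [En_reindex e X, Fintype.card_congr e])
      (by
        intro m
        exact (En_mean hs m).1.const_mul _) ha hb
    refine ⟨h1.1, h1.2.trans ?_⟩
    rw [← c7a_sum_bw hk (sig s)]
    refine Finset.sum_congr rfl fun m _ => ?_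
    show bw n k m * ∫ X, 1 / (Fintype.card (Fin m) : ℝ) * En 1 s X ∂(UU (Fin m)) = _
    rw [integral_const_mul, (En_mean hs m).2, Fintype.card_fin]
  have hs1 : 0 < t / n := by positivity
  have hs2 : 0 < 2 * t / n := by positivity
  have hs3 : 0 < t / M := by positivity
  have hs4 : 0 < 2 * t / M := by positivity
  have iA : Integrable (fun X : Fin n → ℝ × ℝ => (n : ℝ) * W 1 X (fun _ => (n : ℝ)))
      (UU (Fin n)) := iW.const_mul _
  have iB : ∀ a ∈ Finset.range k, ∀ b ∈ Finset.range k, Integrable (fun X : Fin n → ℝ × ℝ =>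
      M * W 1 (scl k (CX (1 / (k : ℝ)) X a b))
        (fun _ => (Fintype.card (CI (1 / (k : ℝ)) X a b) : ℝ))) (UU (Fin n)) :=
    fun a ha b hb => (hcW a b (Finset.mem_range.mp ha) (Finset.mem_range.mp hb)).1.const_mul _
  have iC : Integrable (fun X : Fin n → ℝ × ℝ => 2 * En 1 (t / n) X - En 1 (2 * t / n) X)
      (UU (Fin n)) := ((En_mean hs1 n).1.const_mul _).sub (En_mean hs2 n).1
  have iD0 : ∀ a ∈ Finset.range k, ∀ b ∈ Finset.range k, Integrable (fun X : Fin n → ℝ × ℝ =>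
      2 * (1 / (Fintype.card (CI (1 / (k : ℝ)) X a b) : ℝ) *
          En 1 (t / M) (scl k (CX (1 / (k : ℝ)) X a b))) -
        1 / (Fintype.card (CI (1 / (k : ℝ)) X a b) : ℝ) *
          En 1 (2 * t / M) (scl k (CX (1 / (k : ℝ)) X a b))) (UU (Fin n)) :=
    fun a ha b hb =>
      ((hcE _ hs3 a b (Finset.mem_range.mp ha) (Finset.mem_range.mp hb)).1.const_mul _).sub
      (hcE _ hs4 a b (Finset.mem_range.mp ha) (Finset.mem_range.mp hb)).1
  have iD : ∀ a ∈ Finset.range k, ∀ b ∈ Finset.range k, Integrable (fun X : Fin n → ℝ × ℝ =>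
      M * (2 * (1 / (Fintype.card (CI (1 / (k : ℝ)) X a b) : ℝ) *
          En 1 (t / M) (scl k (CX (1 / (k : ℝ)) X a b))) -
        1 / (Fintype.card (CI (1 / (k : ℝ)) X a b) : ℝ) *
          En 1 (2 * t / M) (scl k (CX (1 / (k : ℝ)) X a b)))) (UU (Fin n)) :=
    fun a ha b hb => (iD0 a ha b hb).const_mul _
  have iBs : Integrable (fun X : Fin n → ℝ × ℝ => ∑ a ∈ Finset.range k, ∑ b ∈ Finset.range k,
      M * W 1 (scl k (CX (1 / (k : ℝ)) X a b))
        (fun _ => (Fintype.card (CI (1 / (k : ℝ)) X a b) : ℝ))) (UU (Fin n)) :=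
    integrable_finsetSum _ fun a ha => integrable_finsetSum _ fun b hb => iB a ha b hb
  have iDs : Integrable (fun X : Fin n → ℝ × ℝ => ∑ a ∈ Finset.range k, ∑ b ∈ Finset.range k,
      M * (2 * (1 / (Fintype.card (CI (1 / (k : ℝ)) X a b) : ℝ) *
          En 1 (t / M) (scl k (CX (1 / (k : ℝ)) X a b))) -
        1 / (Fintype.card (CI (1 / (k : ℝ)) X a b) : ℝ) *
          En 1 (2 * t / M) (scl k (CX (1 / (k : ℝ)) X a b)))) (UU (Fin n)) :=
    integrable_finsetSum _ fun a ha => integrable_finsetSum _ fun b hb => iD a ha b hb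
  have hsplit := c7a_int4 iA iBs iC iDs
  refine ⟨hsplit.1, ?_⟩
  rw [hsplit.2, integral_const_mul]
  have vB : ∫ X : Fin n → ℝ × ℝ, ∑ a ∈ Finset.range k, ∑ b ∈ Finset.range k,
      M * W 1 (scl k (CX (1 / (k : ℝ)) X a b))
        (fun _ => (Fintype.card (CI (1 / (k : ℝ)) X a b) : ℝ)) ∂(UU (Fin n)) =
      n * ∑ m ∈ Finset.range (n + 1), bw n k m * F m := by
    rw [integral_finsetSum _ fun a ha => integrable_finsetSum _ fun b hb => iB a ha b hb]
    have h1 : ∀ a ∈ Finset.range k, ∫ X : Fin n → ℝ × ℝ, ∑ b ∈ Finset.range k,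
        M * W 1 (scl k (CX (1 / (k : ℝ)) X a b))
        (fun _ => (Fintype.card (CI (1 / (k : ℝ)) X a b) : ℝ)) ∂(UU (Fin n)) =
        k * (M * ∑ m ∈ Finset.range (n + 1), bw n k m * F m) := by
      intro a ha
      rw [integral_finsetSum _ fun b hb => iB a ha b hb]
      have h2 : ∀ b ∈ Finset.range k, ∫ X : Fin n → ℝ × ℝ,
          M * W 1 (scl k (CX (1 / (k : ℝ)) X a b))
          (fun _ => (Fintype.card (CI (1 / (k : ℝ)) X a b) : ℝ)) ∂(UU (Fin n)) =
          M * ∑ m ∈ Finset.range (n + 1), bw n k m * F m := by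
        intro b hb
        rw [integral_const_mul, (hcW a b (Finset.mem_range.mp ha) (Finset.mem_range.mp hb)).2]
      rw [Finset.sum_congr rfl h2, Finset.sum_const, Finset.card_range, nsmul_eq_mul]
    rw [Finset.sum_congr rfl h1, Finset.sum_const, Finset.card_range, nsmul_eq_mul, ← hkM]
    ring
  have vC : ∫ X : Fin n → ℝ × ℝ, (2 * En 1 (t / n) X - En 1 (2 * t / n) X) ∂(UU (Fin n)) =
      n * (2 * sig (t / n) - sig (2 * t / n)) := by
    rw [integral_sub ((En_mean hs1 n).1.const_mul _) (En_mean hs2 n).1, integral_const_mul,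
      (En_mean hs1 n).2, (En_mean hs2 n).2]
    ring
  have vD : ∫ X : Fin n → ℝ × ℝ, ∑ a ∈ Finset.range k, ∑ b ∈ Finset.range k,
      M * (2 * (1 / (Fintype.card (CI (1 / (k : ℝ)) X a b) : ℝ) *
          En 1 (t / M) (scl k (CX (1 / (k : ℝ)) X a b))) -
        1 / (Fintype.card (CI (1 / (k : ℝ)) X a b) : ℝ) *
          En 1 (2 * t / M) (scl k (CX (1 / (k : ℝ)) X a b))) ∂(UU (Fin n)) =
      n * (1 - bw n k 0) * (2 * sig (t / M) - sig (2 * t / M)) := by
    rw [integral_finsetSum _ fun a ha => integrable_finsetSum _ fun b hb => iD a ha b hb]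
    have h1 : ∀ a ∈ Finset.range k, ∫ X : Fin n → ℝ × ℝ, ∑ b ∈ Finset.range k,
        M * (2 * (1 / (Fintype.card (CI (1 / (k : ℝ)) X a b) : ℝ) *
          En 1 (t / M) (scl k (CX (1 / (k : ℝ)) X a b))) -
        1 / (Fintype.card (CI (1 / (k : ℝ)) X a b) : ℝ) *
          En 1 (2 * t / M) (scl k (CX (1 / (k : ℝ)) X a b))) ∂(UU (Fin n)) =
        k * (M * (2 * ((1 - bw n k 0) * sig (t / M)) - (1 - bw n k 0) * sig (2 * t / M))) := by
      intro a ha
      rw [integral_finsetSum _ fun b hb => iD a ha b hb]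
      have h2 : ∀ b ∈ Finset.range k, ∫ X : Fin n → ℝ × ℝ,
          M * (2 * (1 / (Fintype.card (CI (1 / (k : ℝ)) X a b) : ℝ) *
            En 1 (t / M) (scl k (CX (1 / (k : ℝ)) X a b))) -
          1 / (Fintype.card (CI (1 / (k : ℝ)) X a b) : ℝ) *
            En 1 (2 * t / M) (scl k (CX (1 / (k : ℝ)) X a b))) ∂(UU (Fin n)) =
          M * (2 * ((1 - bw n k 0) * sig (t / M)) - (1 - bw n k 0) * sig (2 * t / M)) := by
        intro b hb
        have ha' := Finset.mem_range.mp ha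
        have hb' := Finset.mem_range.mp hb
        rw [integral_const_mul, integral_sub ((hcE _ hs3 a b ha' hb').1.const_mul _)
          (hcE _ hs4 a b ha' hb').1, integral_const_mul, (hcE _ hs3 a b ha' hb').2,
          (hcE _ hs4 a b ha' hb').2]
      rw [Finset.sum_congr rfl h2, Finset.sum_const, Finset.card_range, nsmul_eq_mul]
    rw [Finset.sum_congr rfl h1, Finset.sum_const, Finset.card_range, nsmul_eq_mul, ← hkM]
    ring
  rw [vB, vC, vD]
  unfold F
  ring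

end Pool.Agent.Lib.H77M
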