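import Pool.Agent.Lib.H77M.Defs

/-!
# Project H77M: further definitions
-/

open MeasureTheory Set ProbabilityTheory
open scoped ContDiff

namespace Pool.Agent.Lib.H77M

noncomputable section

/-- scaling of a configuration -/
def scl (L : ℝ) {ι : Type} (X : ι → ℝ × ℝ) (i : ι) : ℝ × ℝ := (L * (X i).1, L * (X i).2)

/-- the quantity estimated in Theorem 4 -/
def DD (l t : ℝ) (k : ℕ) {ι : Type} [Fintype ι] (X : ι → ℝ × ℝ) : ℝ :=
  W (k * l) X (fun _ => 1) -
    ∑ a ∈ Finset.range k, ∑ b ∈ Finset.range k,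
      W l (CX l X a b) (fun _ => (Fintype.card (CI l X a b) : ℝ) / l ^ 2) -
    (2 * En (k * l) t X - En (k * l) (2 * t) X) +
    ∑ a ∈ Finset.range k, ∑ b ∈ Finset.range k, l ^ 2 / (Fintype.card (CI l X a b) : ℝ) *
      (2 * En l t (CX l X a b) - En l (2 * t) (CX l X a b))

/-- functions of configurations which are invariant under relabelling -/
def Inv (Φ : ∀ (ι : Type) [Fintype ι], (ι → ℝ × ℝ) → ℝ) : Prop :=
  ∀ (ι κ : Type) [Fintype ι] [Fintype κ] (e : ι ≃ κ) (X : κ → ℝ × ℝ),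
    Φ ι (fun i => X (e i)) = Φ κ X

end

end Pool.Agent.Lib.H77M
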