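import Pool.Agent.Lib.H77M.O1a

/-!
# Project H77M, chunk O1b: Theorem 1 of PROOF.md, second inequality

With `e = ∇ φ / λ`, `(f, u)` the potentials of `(X, λ)` and `T'` the optimal map of `(X, rho)`:
integrate `f (T' y) + u (y - e y) ≤ sqd (X (T' y)) (y - e y) / 2` against `rho y dy`; expand the
square with `taylor2` for `φ`; use `lin2` for `u` (smoothed, `smooth_pot`) and `φ / λ`, since
`rho = λ (1 - lap (φ / λ))`; `∫ φ rho = En (2 t)`, `∑ φ (X i) = En t`,
`∫ |∇ φ| ^ 2 rho = λ En (2 t) + O (K ^ 2 / √t * K ^ 6 * L ^ 2)`.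
-/

open MeasureTheory Set ProbabilityTheory
open scoped ContDiff

namespace Pool.Agent.Lib.H77M

theorem one_b : ∃ C K0 : ℝ, 0 < C ∧ 1 ≤ K0 ∧ ∀ (K L t : ℝ) {ι : Type} [Fintype ι]
    (X : ι → ℝ × ℝ), Reg K L X → K0 ≤ K → K ^ 16 ≤ t → t ≤ L ^ 2 →
    W L X (fun _ => (Fintype.card ι : ℝ) / L ^ 2) ≤ W L X (rho L t X) +
      L ^ 2 / (Fintype.card ι : ℝ) * (2 * En L t X - En L (2 * t) X) + C * K ^ 8 / √t * L ^ 2 := by
  obtain ⟨C, K0, hC, hK0, hset⟩ := O1a_setup
  obtain ⟨C', hC', hlin⟩ := lin2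
  refine ⟨8 + 4 * C ^ 2 + 2 * (2 * (6 * C' * C ^ 2)) + 4 * C ^ 2, K0, by positivity, hK0, ?_⟩
  intro K L t ι _ X hX hK ht htL
  have S := hset K L t X hX hK ht htL
  have := S.ne
  have hL0 : 0 < L := by linarith [S.L1]
  have ht0 : 0 < t := by linarith [S.t1]
  have hst0 : 0 < √t := Real.sqrt_pos.2 ht0
  set N : ℝ := (Fintype.card ι : ℝ) with hN
  set l : ℝ := N / L ^ 2 with hl
  have hl1 : 1 / 2 ≤ l := S.lam1
  have hl2 : l ≤ 2 := S.lam2
  have hl0 : 0 < l := by linarith
  have hNl : N = l * L ^ 2 := by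
    rw [hl]
    field_simp
  have hlinv : L ^ 2 / N = 1 / l := by
    rw [hl, one_div_div]
  set φ := phi L t X with hφ
  set Φ : ℝ × ℝ → ℝ := fun y => φ y / l with hΦ
  have hEP : EP L φ := phi_EP hL0 ht0 X
  have hEPΦ : EP L Φ := S.EPP
  have hrEP : EP L (rho L t X) := rho_EP hL0 ht0 X
  have hr0 : ∀ y, 0 < rho L t X y := fun y => by linarith [S.rho1 y]
  obtain ⟨s1, s2, -⟩ := D_smooth hEP.smooth
  have c1 := s1.continuous
  have c2 := s2.continuous
  have hone : ∫ _ in box L, (1 : ℝ) = L ^ 2 := O1a_vol hL0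
  have hlint : ∫ _ in box L, l = N := by
    have h1 : ∫ _ in box L, l = ∫ _ in box L, l * 1 := by simp only [mul_one]
    rw [h1, integral_const_mul, hone, ← hNl]
  -- the potentials of `(X, λ)`
  obtain ⟨ψ, T, hopt, -⟩ := exists_opt (r := fun _ => l) hL0 hX.inj continuous_const
    (fun y _ => hl0) hlint
  -- the optimal map of `(X, rho)`
  obtain ⟨ψ', T', hopt', -⟩ := exists_opt hL0 hX.inj hrEP.cont
    (fun y _ => hr0 y) (int_rho hL0 ht0 X)
  set δ : ℝ := 1 / √t with hδ
  have hδ0 : 0 < δ := by positivity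
  obtain ⟨v, hv, hvu, hvg, -⟩ := smooth_pot hL0 hopt hδ0
  have hgv := int_gsq_le hopt continuous_const (fun y _ => hl1) hv hvg
  have hLin := hlin L (C * K ^ 2 / √t) hL0 S.small Φ v hEPΦ hv S.hessP
  have hErr := O1a_err hC hC' S.K1 S.L1 S.t1 S.Wl hδ hgv S.gsqP
  have hLin2 := (abs_le.1 (hLin.trans hErr)).1
  set E : ℝ := 6 * C' * C ^ 2 * K ^ 8 / √t * L ^ 2 with hE
  set u := upot X ψ with hu
  have hucont : Continuous u := upot_cont X ψ
  have hGc : Continuous (gmap (-1) Φ) := O1a_gmap_cont hEPΦ (-1)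
  have hbij := gmap_bij hL0 hEPΦ S.hessP S.small (s := -1) (by norm_num)
  -- lower bound for the left hand side
  have i1 : IntegrableOn (fun z => v (gmap (-1) Φ z) * rho L t X z) (box L) :=
    O0_int ((hv.cont.comp hGc).mul hrEP.cont)
  have i2 : IntegrableOn (fun z => u (gmap (-1) Φ z) * rho L t X z) (box L) :=
    O0_int ((hucont.comp hGc).mul hrEP.cont)
  have i4 : IntegrableOn (fun y => u y) (box L) := O0_int hucont
  have i5 : IntegrableOn (fun y => v y) (box L) := O0_int hv.cont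
  have i6 : IntegrableOn (fun y => δ * rho L t X y) (box L) := O0_int (hrEP.cont.const_mul δ)
  have i3 : IntegrableOn (fun _ : ℝ × ℝ => δ * 1) (box L) := O0_int continuous_const
  have i7 : IntegrableOn (fun z => v (gmap (-1) Φ z) * rho L t X z - δ * rho L t X z) (box L) :=
    i1.sub i6
  have i8 : IntegrableOn (fun y => u y - δ * 1) (box L) := i4.sub i3
  have hA1 : (∫ z in box L, v (gmap (-1) Φ z) * rho L t X z) - δ * N ≤
      ∫ z in box L, u (gmap (-1) Φ z) * rho L t X z := by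
    have h1 : (∫ z in box L, v (gmap (-1) Φ z) * rho L t X z) - δ * N =
        ∫ z in box L, (v (gmap (-1) Φ z) * rho L t X z - δ * rho L t X z) := by
      rw [integral_sub i1 i6, integral_const_mul, int_rho hL0 ht0 X]
    rw [h1]
    apply setIntegral_mono_on i7 i2 (O0_meas L)
    intro z hz
    have h2 := abs_le.1 (hvu (gmap (-1) Φ z) (hbij.mapsTo hz))
    have h4 : (v (gmap (-1) Φ z) - δ) * rho L t X z ≤ u (gmap (-1) Φ z) * rho L t X z :=
      mul_le_mul_of_nonneg_right (by linarith [h2.2]) (hr0 z).le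
    linarith
  have hA2 : (∫ y in box L, u y) - δ * L ^ 2 ≤ ∫ y in box L, v y := by
    have h1 : (∫ y in box L, u y) - δ * L ^ 2 = ∫ y in box L, (u y - δ * 1) := by
      rw [integral_sub i4 i3, integral_const_mul, hone]
    rw [h1]
    apply setIntegral_mono_on i8 i5 (O0_meas L)
    intro y hy
    have h2 := abs_le.1 (hvu y hy)
    linarith [h2.1]
  have hA3 : l * ∫ z in box L, v (gmap (-1) Φ z) * (1 - lap Φ z) =
      ∫ y in box L, v (gmap (-1) Φ y) * rho L t X y := by
    rw [← integral_const_mul]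
    apply setIntegral_congr_fun (O0_meas L)
    intro y _
    show l * (v (gmap (-1) Φ y) * (1 - lap Φ y)) = v (gmap (-1) Φ y) * rho L t X y
    rw [← S.lapP y]
    ring
  have hA4 : l * (∫ y in box L, u y) - 2 * δ * N - l * E ≤
      ∫ z in box L, u (gmap (-1) Φ z) * rho L t X z := by
    have h1 : l * ((∫ y in box L, u y) - δ * L ^ 2) ≤
        l * ∫ y in box L, v y := mul_le_mul_of_nonneg_left hA2 hl0.le
    have h2 : l * (-E) ≤ l * ((∫ z in box L, v (gmap (-1) Φ z) * (1 - lap Φ z)) -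
        ∫ z in box L, v z) := mul_le_mul_of_nonneg_left hLin2 hl0.le
    have h3 : l * (δ * L ^ 2) = δ * N := by rw [hNl]; ring
    rw [mul_sub, hA3] at h2
    rw [mul_sub, h3] at h1
    linarith
  -- the duality
  have hW := opt_dual hopt continuous_const (fun y _ => hl0.le)
  have hWc := opt_cost hopt' hrEP.cont (fun y _ => (hr0 y).le)
  have hsum := opt_int hopt' hrEP.cont ψ
  have hsumφ := opt_int hopt' hrEP.cont (fun i => φ (X i))
  have hen := phi_gsq hL0 ht0 X
  have hphir := phi_rho hL0 ht0 X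
  have hphis := phi_sum (L := L) (t := t) X
  have hsq : ∀ i, Continuous fun y => sqd (X i) y := fun i => by unfold sqd; fun_prop
  set ε : ℝ := C * K ^ 2 / √t with hε
  have hε0 : 0 ≤ ε := by
    have := S.K1
    positivity
  have hgc : Continuous (gsq φ) := (EP_gsq hEP).cont
  have j1 : IntegrableOn (fun y => ψ (T' y) * rho L t X y) (box L) :=
    (opt_integrable hopt' (F := fun i y => ψ i * rho L t X y)
      (fun i => continuous_const.mul hrEP.cont)).2
  have j2 : IntegrableOn (fun y => sqd (X (T' y)) y * rho L t X y) (box L) :=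
    (opt_integrable hopt' (F := fun i y => sqd (X i) y * rho L t X y)
    (fun i => (hsq i).mul hrEP.cont)).2
  have j3 : IntegrableOn (fun y => φ (X (T' y)) * rho L t X y) (box L) :=
    (opt_integrable hopt' (F := fun i y => φ (X i) * rho L t X y)
      (fun i => continuous_const.mul hrEP.cont)).2
  have j5 : IntegrableOn (fun z => φ z * rho L t X z) (box L) := O0_int (hEP.cont.mul hrEP.cont)
  have j6 : IntegrableOn (fun z => gsq φ z) (box L) := O0_int hgc
  have hpt : ∀ z ∈ box L, ψ (T' z) * rho L t X z + u (gmap (-1) Φ z) * rho L t X z ≤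
      (1 / 2 + ε / l) * (sqd (X (T' z)) z * rho L t X z) +
        (1 / l) * (φ (X (T' z)) * rho L t X z) - (1 / l) * (φ z * rho L t X z) +
        (1 / (2 * l) + ε / (2 * l ^ 2)) * gsq φ z := by
    intro z _
    have h1 := upot_le X ψ (T' z) (gmap (-1) Φ z)
    have h2 := (abs_le.1 (taylor2 hEP.smooth S.hess (X (T' z)) z)).1
    have h3 : sqd (X (T' z)) (gmap (-1) Φ z) = sqd (X (T' z)) z +
        2 / l * (D1 φ z * ((X (T' z)).1 - z.1) + D2 φ z * ((X (T' z)).2 - z.2)) +
        1 / l ^ 2 * gsq φ z := by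
      have e1 : D1 Φ z = D1 φ z / l := congrFun (O1a_D1_div hEP.smooth l) z
      have e2 : D2 Φ z = D2 φ z / l := congrFun (O1a_D2_div hEP.smooth l) z
      simp only [gmap, sqd, gsq, e1, e2]
      field_simp
      ring
    have h4 : ψ (T' z) + u (gmap (-1) Φ z) ≤ sqd (X (T' z)) z / 2 +
        (1 / l) * (φ (X (T' z)) - φ z + ε * sqd (X (T' z)) z) + 1 / (2 * l ^ 2) * gsq φ z := by
      have h5 : (1 / l) * (D1 φ z * ((X (T' z)).1 - z.1) + D2 φ z * ((X (T' z)).2 - z.2)) ≤
          (1 / l) * (φ (X (T' z)) - φ z + ε * sqd (X (T' z)) z) :=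
        mul_le_mul_of_nonneg_left (by linarith) (by positivity)
      rw [h3] at h1
      have h6 : (sqd (X (T' z)) z +
        2 / l * (D1 φ z * ((X (T' z)).1 - z.1) + D2 φ z * ((X (T' z)).2 - z.2)) +
        1 / l ^ 2 * gsq φ z) / 2 = sqd (X (T' z)) z / 2 +
        (1 / l) * (D1 φ z * ((X (T' z)).1 - z.1) + D2 φ z * ((X (T' z)).2 - z.2)) +
        1 / (2 * l ^ 2) * gsq φ z := by
        field_simp
      rw [h6] at h1
      linarith
    have h7 := mul_le_mul_of_nonneg_right h4 (hr0 z).le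
    have h8 : 1 / (2 * l ^ 2) * gsq φ z * rho L t X z ≤
        (1 / (2 * l) + ε / (2 * l ^ 2)) * gsq φ z := by
      have h9 : rho L t X z ≤ l + ε := by
        have := (abs_le.1 (S.rho3 z)).2
        linarith
      have h10 : 0 ≤ 1 / (2 * l ^ 2) * gsq φ z := by
        unfold gsq
        positivity
      calc 1 / (2 * l ^ 2) * gsq φ z * rho L t X z ≤ 1 / (2 * l ^ 2) * gsq φ z * (l + ε) :=
            mul_le_mul_of_nonneg_left h9 h10
        _ = (1 / (2 * l) + ε / (2 * l ^ 2)) * gsq φ z := by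
            field_simp
    have h11 : (sqd (X (T' z)) z / 2 +
        (1 / l) * (φ (X (T' z)) - φ z + ε * sqd (X (T' z)) z) + 1 / (2 * l ^ 2) * gsq φ z) *
        rho L t X z = (1 / 2 + ε / l) * (sqd (X (T' z)) z * rho L t X z) +
        (1 / l) * (φ (X (T' z)) * rho L t X z) - (1 / l) * (φ z * rho L t X z) +
        1 / (2 * l ^ 2) * gsq φ z * rho L t X z := by
      field_simp
      ring
    rw [h11] at h7
    linarith
  have k1 : IntegrableOn (fun z => (1 / 2 + ε / l) * (sqd (X (T' z)) z * rho L t X z)) (box L) :=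
    j2.const_mul _
  have k2 : IntegrableOn (fun z => (1 / l) * (φ (X (T' z)) * rho L t X z)) (box L) :=
    j3.const_mul _
  have k3 : IntegrableOn (fun z => (1 / (2 * l) + ε / (2 * l ^ 2)) * gsq φ z) (box L) :=
    j6.const_mul _
  have k3' : IntegrableOn (fun z => (1 / l) * (φ z * rho L t X z)) (box L) := j5.const_mul _
  have k4 : IntegrableOn (fun z => (1 / 2 + ε / l) * (sqd (X (T' z)) z * rho L t X z) +
      (1 / l) * (φ (X (T' z)) * rho L t X z)) (box L) := k1.add k2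
  have k5 : IntegrableOn (fun z => (1 / 2 + ε / l) * (sqd (X (T' z)) z * rho L t X z) +
      (1 / l) * (φ (X (T' z)) * rho L t X z) - (1 / l) * (φ z * rho L t X z)) (box L) :=
    k4.sub k3'
  have k6 : IntegrableOn (fun z => (1 / 2 + ε / l) * (sqd (X (T' z)) z * rho L t X z) +
      (1 / l) * (φ (X (T' z)) * rho L t X z) - (1 / l) * (φ z * rho L t X z) +
      (1 / (2 * l) + ε / (2 * l ^ 2)) * gsq φ z) (box L) := k5.add k3
  have k7 : IntegrableOn (fun z => ψ (T' z) * rho L t X z +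
      u (gmap (-1) Φ z) * rho L t X z) (box L) := j1.add i2
  have hint := setIntegral_mono_on k7 k6 (O0_meas L) hpt
  rw [integral_add j1 i2, integral_add k5 k3, integral_sub k4 k3', integral_add k1 k2,
    integral_const_mul, integral_const_mul, integral_const_mul, integral_const_mul, hsum, hsumφ,
    ← hWc, hphir, hphis, hen] at hint
  rw [hlinv]
  have hWr := S.Wr
  set Wl := W L X (fun _ => l) with hWldef
  set Wr := W L X (rho L t X) with hWrdef
  have hWr0 : 0 ≤ Wr := W_nonneg X (fun y _ => (hr0 y).le)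
  -- the errors
  have hK1 := S.K1
  have hK8 : 1 ≤ K ^ 8 := one_le_pow₀ S.K1
  have hL2 : 0 < L ^ 2 := by positivity
  have hul : ∫ y in box L, u y * l = l * ∫ y in box L, u y := by
    rw [← integral_const_mul]
    apply setIntegral_congr_fun (O0_meas L)
    intro y _
    exact mul_comm _ _
  rw [hul] at hW
  have e1 : 2 * δ * N ≤ 4 * (K ^ 8 / √t * L ^ 2) := by
    have h1 : N ≤ 2 * L ^ 2 := by
      rw [hNl]
      exact mul_le_mul_of_nonneg_right hl2 hL2.le
    have h2 : δ ≤ K ^ 8 / √t := by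
      rw [hδ]
      gcongr
    calc 2 * δ * N ≤ 2 * (K ^ 8 / √t) * (2 * L ^ 2) := by gcongr
      _ = 4 * (K ^ 8 / √t * L ^ 2) := by ring
  have e2 : l * E ≤ 2 * (6 * C' * C ^ 2) * (K ^ 8 / √t * L ^ 2) := by
    have h1 : 0 ≤ E := by
      rw [hE]
      positivity
    calc l * E ≤ 2 * E := mul_le_mul_of_nonneg_right hl2 h1
      _ = 2 * (6 * C' * C ^ 2) * (K ^ 8 / √t * L ^ 2) := by
          rw [hE]
          ring
  have e3 : ε / l * Wr ≤ 2 * C ^ 2 * (K ^ 8 / √t * L ^ 2) := by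
    have h1 : ε / l ≤ 2 * ε := by
      rw [div_le_iff₀ hl0]
      nlinarith
    have h2 : 0 ≤ C * K ^ 4 * L ^ 2 := by positivity
    calc ε / l * Wr ≤ ε / l * (C * K ^ 4 * L ^ 2) :=
          mul_le_mul_of_nonneg_left hWr (by positivity)
      _ ≤ 2 * ε * (C * K ^ 4 * L ^ 2) := mul_le_mul_of_nonneg_right h1 h2
      _ = 2 * C ^ 2 * (K ^ 6 / √t * L ^ 2) := by
          rw [hε]
          ring
      _ ≤ 2 * C ^ 2 * (K ^ 8 / √t * L ^ 2) := by
          apply mul_le_mul_of_nonneg_left _ (by positivity)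
          apply mul_le_mul_of_nonneg_right _ hL2.le
          apply div_le_div_of_nonneg_right _ hst0.le
          exact pow_le_pow_right₀ S.K1 (by norm_num)
  have e9 : ε / (2 * l ^ 2) * En L (2 * t) X ≤ 2 * C ^ 2 * (K ^ 8 / √t * L ^ 2) := by
    have h1 : ε / (2 * l ^ 2) ≤ 2 * ε := by
      rw [div_le_iff₀ (by positivity)]
      have h2 : 1 ≤ 4 * l ^ 2 := by nlinarith
      nlinarith
    calc ε / (2 * l ^ 2) * En L (2 * t) X ≤ 2 * ε * En L (2 * t) X :=
          mul_le_mul_of_nonneg_right h1 S.en0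
      _ ≤ 2 * ε * (C * K ^ 6 * L ^ 2) := mul_le_mul_of_nonneg_left S.en (by positivity)
      _ = 2 * C ^ 2 * (K ^ 8 / √t * L ^ 2) := by
          rw [hε]
          ring
  have e4 : (1 / (2 * l) + ε / (2 * l ^ 2)) * En L (2 * t) X = 1 / l * En L (2 * t) X / 2 +
      ε / (2 * l ^ 2) * En L (2 * t) X := by
    field_simp
  rw [e4] at hint
  have e5 : (1 / 2 + ε / l) * Wr = Wr / 2 + ε / l * Wr := by ring
  rw [e5] at hint
  have e6 : 1 / l * (2 * En L t X - En L (2 * t) X) = 2 * (1 / l * En L t X) -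
      1 / l * En L (2 * t) X := by ring
  rw [e6]
  have e7 : (8 + 4 * C ^ 2 + 2 * (2 * (6 * C' * C ^ 2)) + 4 * C ^ 2) * K ^ 8 / √t * L ^ 2 =
      2 * (4 * (K ^ 8 / √t * L ^ 2)) + 2 * (2 * C ^ 2 * (K ^ 8 / √t * L ^ 2)) +
      2 * (2 * (6 * C' * C ^ 2) * (K ^ 8 / √t * L ^ 2)) +
      2 * (2 * C ^ 2 * (K ^ 8 / √t * L ^ 2)) := by ring
  rw [e7]
  linarith

end Pool.Agent.Lib.H77M
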