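import Pool.Agent.Lib.H77M.O0
import Pool.Agent.Lib.H77M.A9
import Pool.Agent.Lib.H77M.B5

/-!
# Project H77M, chunk O3: Theorem 3 of PROOF.md, upper bound

`W (X, rho) / 2 = ∑ ψ + ∫ u rho ≤ ∑_c W_c / 2 + ∫ u rho - ∑_c ∫ u rho_c` (weak duality in every cell),
then `fold_diff` with `R = 20 K √t` for the smoothed `u`, the area of `layer l R k` is at most
`8 R (k l) ^ 2 / l`, Cauchy–Schwarz and `crude_rho`.
-/

open MeasureTheory Set ProbabilityTheory
open scoped ContDiff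

namespace Pool.Agent.Lib.H77M

/-! ### sums over the cells -/

theorem O3_mem_cell {l : ℝ} (hl : 0 < l) {x : ℝ} (hx : 0 ≤ x) (a : ℕ) :
    x ∈ Ico ((a : ℝ) * l) (((a : ℝ) + 1) * l) ↔ ⌊x / l⌋₊ = a := by
  rw [Nat.floor_eq_iff (div_nonneg hx hl.le), mem_Ico, le_div_iff₀ hl, div_lt_iff₀ hl]

theorem O3_cell_sum {l : ℝ} (hl : 0 < l) (k : ℕ) {ι : Type} [Fintype ι] (X : ι → ℝ × ℝ)
    (hX : ∀ i, X i ∈ hbox (k * l)) (f : ι → ℝ) :
    ∑ a ∈ Finset.range k, ∑ b ∈ Finset.range k, ∑ i : CI l X a b, f i.1 = ∑ i, f i := by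
  classical
  have h1 : ∀ a b, ∑ i : CI l X a b, f i.1 = ∑ i, if X i ∈ cell l a b then f i else 0 := by
    intro a b
    rw [← Finset.sum_filter]
    exact (Finset.sum_subtype (Finset.univ.filter fun i => X i ∈ cell l a b) (by simp) f).symm
  have h2 : ∀ i, ∀ a b : ℕ, (X i ∈ cell l a b) ↔ (⌊(X i).1 / l⌋₊ = a ∧ ⌊(X i).2 / l⌋₊ = b) := by
    intro i a b
    obtain ⟨⟨h3, -⟩, ⟨h4, -⟩⟩ := hX i
    unfold cell
    rw [mem_prod, O3_mem_cell hl h3, O3_mem_cell hl h4]
  have h3 : ∀ i, ⌊(X i).1 / l⌋₊ ∈ Finset.range k ∧ ⌊(X i).2 / l⌋₊ ∈ Finset.range k := by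
    intro i
    obtain ⟨⟨h3, h5⟩, ⟨h4, h6⟩⟩ := hX i
    rw [Finset.mem_range, Finset.mem_range, Nat.floor_lt (div_nonneg h3 hl.le),
      Nat.floor_lt (div_nonneg h4 hl.le), div_lt_iff₀ hl, div_lt_iff₀ hl]
    exact ⟨h5, h6⟩
  simp only [h1]
  have h4 : ∀ a, ∑ b ∈ Finset.range k, ∑ i, (if X i ∈ cell l a b then f i else 0) =
      ∑ i, ∑ b ∈ Finset.range k, (if X i ∈ cell l a b then f i else 0) := fun a => Finset.sum_comm
  simp only [h4]
  rw [Finset.sum_comm]
  refine Finset.sum_congr rfl fun i _ => ?_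
  have h5 : ∀ a, ∑ b ∈ Finset.range k, (if X i ∈ cell l a b then f i else 0) =
      if ⌊(X i).1 / l⌋₊ = a then f i else 0 := by
    intro a
    by_cases ha : ⌊(X i).1 / l⌋₊ = a
    · simp only [h2, ha, true_and, if_true]
      rw [Finset.sum_ite_eq, if_pos (h3 i).2]
    · simp only [h2, ha, false_and, if_false, Finset.sum_const_zero]
  simp only [h5]
  rw [Finset.sum_ite_eq, if_pos (h3 i).1]

/-! ### the layer -/

theorem O3_layer_eq (l R : ℝ) (k : ℕ) : layer l R k = box (k * l) ∩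
    ⋃ m ∈ Finset.range (k + 1), {y : ℝ × ℝ | |y.1 - m * l| ≤ R ∨ |y.2 - m * l| ≤ R} := by
  ext y
  unfold layer
  simp only [mem_ofPred_eq, mem_inter_iff, mem_iUnion, Finset.mem_range, exists_prop,
    Nat.lt_succ_iff]

theorem O3_layer_meas (l R : ℝ) (k : ℕ) : MeasurableSet (layer l R k) := by
  rw [O3_layer_eq]
  refine (measurableSet_Icc.prod measurableSet_Icc).inter ?_
  refine Finset.measurableSet_biUnion _ fun m _ => ?_
  have h1 : MeasurableSet {y : ℝ × ℝ | |y.1 - m * l| ≤ R} :=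
    measurableSet_le (by fun_prop) measurable_const
  have h2 : MeasurableSet {y : ℝ × ℝ | |y.2 - m * l| ≤ R} :=
    measurableSet_le (by fun_prop) measurable_const
  exact h1.union h2

theorem O3_layer_vol {l R : ℝ} (hl : 0 < l) (hR : 0 < R) {k : ℕ} (hk : 1 ≤ k) :
    (volume (layer l R k)).toReal ≤ 8 * k * R * (k * l) := by
  have hk0 : (1 : ℝ) ≤ k := by exact_mod_cast hk
  have hL : 0 ≤ (k : ℝ) * l := by positivity
  have h1 : volume (layer l R k) ≤ ∑ m ∈ Finset.range (k + 1),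
      ENNReal.ofReal (4 * R * (k * l)) := by
    rw [O3_layer_eq, inter_iUnion₂]
    refine (measure_biUnion_finset_le _ _).trans (Finset.sum_le_sum fun m _ => ?_)
    have h2 : box (k * l) ∩ {y : ℝ × ℝ | |y.1 - m * l| ≤ R ∨ |y.2 - m * l| ≤ R} ⊆
        (Icc (m * l - R) (m * l + R) ×ˢ Icc 0 (k * l)) ∪
          (Icc 0 (k * l) ×ˢ Icc (m * l - R) (m * l + R)) := by
      rintro ⟨y1, y2⟩ ⟨⟨hy1, hy2⟩, hy⟩
      simp only [mem_ofPred_eq] at hy
      rcases hy with hy | hy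
      · left
        rw [abs_le] at hy
        exact ⟨⟨by linarith [hy.1], by linarith [hy.2]⟩, hy2⟩
      · right
        rw [abs_le] at hy
        exact ⟨hy1, ⟨by linarith [hy.1], by linarith [hy.2]⟩⟩
    refine (measure_mono h2).trans ((measure_union_le _ _).trans ?_)
    rw [Measure.volume_eq_prod, Measure.prod_prod, Measure.prod_prod, Real.volume_Icc,
      Real.volume_Icc, ← ENNReal.ofReal_mul (by linarith), ← ENNReal.ofReal_mul (by linarith),
      ← ENNReal.ofReal_add (by nlinarith) (by nlinarith)]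
    apply ENNReal.ofReal_le_ofReal
    nlinarith
  rw [Finset.sum_const, Finset.card_range, nsmul_eq_mul] at h1
  have h3 : ((k + 1 : ℕ) : ENNReal) * ENNReal.ofReal (4 * R * (k * l)) =
      ENNReal.ofReal ((k + 1 : ℕ) * (4 * R * (k * l))) := by
    rw [ENNReal.ofReal_mul (p := ((k + 1 : ℕ) : ℝ)) (by positivity), ENNReal.ofReal_natCast]
  rw [h3] at h1
  have h4 := ENNReal.toReal_le_of_le_ofReal (by positivity) h1
  refine h4.trans ?_
  push_cast
  have : 0 ≤ R * (k * l) := by positivity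
  nlinarith

/-! ### bounds for the potential -/

theorem O3_ext {L M : ℝ} (hL : 0 < L) {f : ℝ × ℝ → ℝ} (hf : EP L f) (h : ∀ y ∈ box L, |f y| ≤ M)
    (y : ℝ × ℝ) : |f y| ≤ M := by
  have hL2 : 0 < 2 * L := by linarith
  have key : ∀ F : ℝ → (ℝ → ℝ), (∀ a b, F (-a) b = F a b) → (∀ a b, F (a + 2 * L) b = F a b) →
      ∀ a, ∃ a' ∈ Icc 0 L, F a = F a' := by
    intro F h1 h2 a
    have hp : Function.Periodic F (2 * L) := fun a => funext fun b => h2 a b
    obtain ⟨a', ha', e⟩ := hp.exists_mem_Ico₀ hL2 a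
    by_cases hc : a' ≤ L
    · exact ⟨a', ⟨ha'.1, hc⟩, e⟩
    · push Not at hc
      refine ⟨2 * L - a', ⟨by linarith [ha'.2], by linarith⟩, ?_⟩
      rw [e]
      have e1 : F (2 * L - a') = F (-a') := by
        have := hp (-a')
        rw [← this]
        congr 1
        ring
      rw [e1]
      exact (funext fun b => h1 a' b).symm
  obtain ⟨a, b⟩ := y
  obtain ⟨a', ha', e1⟩ := key (fun a b => f (a, b)) hf.even1 hf.per1 a
  obtain ⟨b', hb', e2⟩ := key (fun b a => f (a, b)) (fun b a => hf.even2 a b)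
    (fun b a => hf.per2 a b) b
  have e3 : f (a, b) = f (a', b) := congrFun e1 b
  have e4 : f (a', b) = f (a', b') := congrFun e2 a'
  rw [e3, e4]
  exact h (a', b') ⟨ha', hb'⟩

theorem O3_vol_box {L : ℝ} (hL : 0 ≤ L) : (volume (box L)).toReal = L ^ 2 := by
  unfold box
  rw [Measure.volume_eq_prod, Measure.prod_prod, Real.volume_Icc, sub_zero,
    ← ENNReal.ofReal_mul hL, ENNReal.toReal_ofReal (by positivity)]
  ring

theorem O3_int_const {L : ℝ} (hL : 0 ≤ L) (c : ℝ) : ∫ _y in box L, c = L ^ 2 * c := by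
  rw [setIntegral_const, smul_eq_mul, Measure.real, O3_vol_box hL]

/-- the oscillation of the potential is at most `L ^ 2` -/
theorem O3_osc {L : ℝ} {ι : Type} [Fintype ι] {X : ι → ℝ × ℝ} (hX : ∀ i, X i ∈ box L)
    {r : ℝ × ℝ → ℝ} {ψ : ι → ℝ} {T : ℝ × ℝ → ι} (h : IsOpt L X r ψ T) {y z : ℝ × ℝ}
    (hy : y ∈ box L) : upot X ψ y ≤ upot X ψ z + L ^ 2 := by
  have h1 := upot_le X ψ (T z) y
  have h2 := h.eq z
  have h3 := B2_sqd_le (hX (T z)) hy
  have h4 := B2_sqd_nonneg (X (T z)) z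
  linarith

theorem O3_upot_bd {L : ℝ} (hL : 0 < L) {ι : Type} [Fintype ι] {X : ι → ℝ × ℝ}
    (hX : ∀ i, X i ∈ box L) {r : ℝ × ℝ → ℝ} {ψ : ι → ℝ} {T : ℝ × ℝ → ι} (h : IsOpt L X r ψ T)
    (h0 : ∫ y in box L, upot X ψ y = 0) {y : ℝ × ℝ} (hy : y ∈ box L) : |upot X ψ y| ≤ L ^ 2 := by
  have hc : IntegrableOn (upot X ψ) (box L) := B2_cont_int (upot_cont X ψ)
  have hcc : ∀ c : ℝ, IntegrableOn (fun _ : ℝ × ℝ => c) (box L) := fun c =>
    B2_cont_int continuous_const
  have hL2 : 0 < L ^ 2 := by positivity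
  rw [abs_le]
  constructor
  · have h1 : ∫ z in box L, upot X ψ z ≤ ∫ _z in box L, (upot X ψ y + L ^ 2) :=
      setIntegral_mono_on hc (hcc _) (B2_meas_box L) fun z hz => O3_osc hX h hz
    rw [h0, O3_int_const hL.le] at h1
    nlinarith
  · have h1 : ∫ _z in box L, (upot X ψ y - L ^ 2) ≤ ∫ z in box L, upot X ψ z :=
      setIntegral_mono_on (hcc _) hc (B2_meas_box L) fun z hz => by
        have := O3_osc hX h hy (z := z)
        linarith
    rw [h0, O3_int_const hL.le] at h1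
    nlinarith

/-! ### the errors -/

theorem O3_main_err {K t l L R V E A : ℝ} (k : ℕ) (hK : 1 ≤ K) (ht : 1 ≤ t)
    (hl : t ^ 4 ≤ l) (hL : L = k * l) (hLp : 0 < L) (hR : R = 20 * K * √t) (hV : V ≤ 8 * k * R * L)
    (hA : 0 ≤ A) (hE : E ≤ A * K ^ 4 * L ^ 2) (hV0 : 0 ≤ V) (hE0 : 0 ≤ E) :
    R * (√V * √E) ≤ (64000 * A + 1) * K ^ 4 / t * L ^ 2 := by
  have ht0 : 0 < t := by linarith
  have hl0 : 0 < l := lt_of_lt_of_le (by positivity) hl
  have hs1 : √t ≤ t := by
    rw [Real.sqrt_le_left ht0.le]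
    nlinarith
  have hs0 : 0 ≤ √t := Real.sqrt_nonneg t
  have hs2 : √t ^ 2 = t := Real.sq_sqrt ht0.le
  have hR0 : 0 ≤ R := by rw [hR]; positivity
  have hk : (k : ℝ) = L / l := by rw [hL]; field_simp
  -- V bound
  have hV1 : V ≤ 160 * K * t * L ^ 2 / t ^ 4 := by
    calc V ≤ 8 * k * R * L := hV
      _ = 160 * K * √t * L ^ 2 / l := by rw [hk, hR]; ring
      _ ≤ 160 * K * t * L ^ 2 / l := by gcongr
      _ ≤ 160 * K * t * L ^ 2 / t ^ 4 := by gcongr
  have hsq : (R * (√V * √E)) ^ 2 ≤ ((64000 * A + 1) * K ^ 4 / t * L ^ 2) ^ 2 := by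
    have e1 : (R * (√V * √E)) ^ 2 = R ^ 2 * (V * E) := by
      rw [mul_pow, mul_pow, Real.sq_sqrt hV0, Real.sq_sqrt hE0]
    have e2 : R ^ 2 = 400 * K ^ 2 * t := by
      rw [hR, mul_pow, hs2]; ring
    rw [e1, e2]
    calc 400 * K ^ 2 * t * (V * E)
        ≤ 400 * K ^ 2 * t * ((160 * K * t * L ^ 2 / t ^ 4) * (A * K ^ 4 * L ^ 2)) := by gcongr
      _ = (64000 * A) * (K ^ 7 * (L ^ 2) ^ 2 / t ^ 2) := by field_simp; ring
      _ ≤ (64000 * A + 1) ^ 2 * (K ^ 8 * (L ^ 2) ^ 2 / t ^ 2) := by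
          have h7 : K ^ 7 ≤ K ^ 8 := pow_le_pow_right₀ hK (by norm_num)
          have hA2 : 64000 * A ≤ (64000 * A + 1) ^ 2 := by nlinarith
          gcongr
      _ = ((64000 * A + 1) * K ^ 4 / t * L ^ 2) ^ 2 := by ring
  exact le_of_sq_le_sq hsq (by positivity)

theorem O3_exp_err {K t L : ℝ} (hK : 1 ≤ K) (hL1 : 1 ≤ L) (hKL : 1 + Real.log L ≤ K) (ht0 : 0 < t)
    (htL : t ≤ L) : L ^ 2 * Real.exp (-(100 * K ^ 2)) ≤ 1 / t := by
  have hL0 : 0 < L := by linarith
  have h1 : 3 * Real.log L ≤ 100 * K ^ 2 := by nlinarith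
  have h2 : Real.exp (-(100 * K ^ 2)) ≤ Real.exp (-(3 * Real.log L)) :=
    Real.exp_le_exp.2 (by linarith)
  have h3 : Real.exp (-(3 * Real.log L)) = 1 / L ^ 3 := by
    rw [Real.exp_neg, show (3 : ℝ) * Real.log L = ((3 : ℕ) : ℝ) * Real.log L by norm_num,
      Real.exp_nat_mul, Real.exp_log hL0, one_div]
  rw [h3] at h2
  calc L ^ 2 * Real.exp (-(100 * K ^ 2)) ≤ L ^ 2 * (1 / L ^ 3) := by gcongr
    _ = 1 / L := by field_simp
    _ ≤ 1 / t := by gcongr

theorem up : ∃ C K0 : ℝ, 0 < C ∧ 1 ≤ K0 ∧ ∀ (K l t : ℝ) (k : ℕ) {ι : Type} [Fintype ι]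
    (X : ι → ℝ × ℝ), Good K l k X → 1 ≤ k → K0 ≤ K → K ^ 16 ≤ t → t ^ 4 ≤ l →
    W (k * l) X (rho (k * l) t X) ≤
      ∑ a ∈ Finset.range k, ∑ b ∈ Finset.range k, W l (CX l X a b) (rho l t (CX l X a b)) +
        C * K ^ 4 / t * (k * l) ^ 2 := by
  obtain ⟨C1, hC1, hfold⟩ := fold_diff
  obtain ⟨C2, K2, hC2, hK2, hcrude⟩ := crude_rho
  obtain ⟨K3, hK3, hrho⟩ := rho_two
  refine ⟨2 * C1 * (64000 * (8 * C2 + 4) + 1) + 8 * C1 + 8, max 40 (max K2 K3), by positivity,
    by simp, ?_⟩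
  intro K l t k ι _ X hG hk hKK ht hl
  have hK40 : 40 ≤ K := (le_max_left _ _).trans hKK
  have hKK2 : K2 ≤ K := ((le_max_left _ _).trans (le_max_right _ _)).trans hKK
  have hKK3 : K3 ≤ K := ((le_max_right _ _).trans (le_max_right _ _)).trans hKK
  have hK1 : 1 ≤ K := by linarith
  have hKt : K ≤ t := by
    calc K = K ^ 1 := (pow_one K).symm
      _ ≤ K ^ 16 := pow_le_pow_right₀ hK1 (by norm_num)
      _ ≤ t := ht
  have hK8 : K ^ 8 ≤ t := (pow_le_pow_right₀ hK1 (by norm_num)).trans ht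
  have ht1 : 1 ≤ t := by linarith
  have ht0 : 0 < t := by linarith
  have ht4 : t ≤ t ^ 4 := by
    calc t = t ^ 1 := (pow_one t).symm
      _ ≤ t ^ 4 := pow_le_pow_right₀ ht1 (by norm_num)
  have hl0 : 0 < l := by linarith
  have hkR : (1 : ℝ) ≤ k := by exact_mod_cast hk
  obtain ⟨hReg, hRegc⟩ := hG
  set L : ℝ := k * l with hLdef
  have hlL : l ≤ L := by rw [hLdef]; nlinarith
  have hL0 : 0 < L := by linarith
  have hL1 : 1 ≤ L := by linarith
  have htL : t ≤ L := by linarith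
  have htL2 : t ≤ L ^ 2 := by nlinarith
  have htl2 : t ≤ l ^ 2 := by nlinarith
  have h2KL : 2 * K ≤ L := by
    have : t ^ 4 ≥ t * t := by
      have : t ^ 2 ≤ t ^ 4 := pow_le_pow_right₀ ht1 (by norm_num)
      nlinarith
    nlinarith
  have h2Kl : 2 * K ≤ l := by
    have : t ^ 4 ≥ t * t := by
      have : t ^ 2 ≤ t ^ 4 := pow_le_pow_right₀ ht1 (by norm_num)
      nlinarith
    nlinarith
  have hlam := lam_two hReg h2KL
  set N : ℝ := (Fintype.card ι : ℝ) with hN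
  have hN2 : N ≤ 2 * L ^ 2 := by
    have := hlam.2
    rwa [div_le_iff₀ (by positivity)] at this
  have hNpos : 0 < N := by
    have := hlam.1
    rw [le_div_iff₀ (by positivity)] at this
    have : 0 < L ^ 2 := by positivity
    linarith
  have hne : Nonempty ι := by
    rw [← Fintype.card_pos_iff]
    have h3 : (0 : ℝ) < (Fintype.card ι : ℝ) := hNpos
    exact_mod_cast h3
  have hr2 := hrho K L X hReg hKK3 t hK8 htL2
  have hrEP : EP L (rho L t X) := rho_EP hL0 ht0 X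
  have hrc : Continuous (rho L t X) := hrEP.cont
  have hmass : ∫ y in box L, rho L t X y = Fintype.card ι := int_rho hL0 ht0 X
  have hWc := hcrude K L X hReg hKK2 t hK8 htL2
  have hW0 : 0 ≤ W L X (rho L t X) := W_nonneg X fun y _ => by linarith [(hr2 y).1]
  obtain ⟨ψ, T, hopt, hint0⟩ := exists_opt hL0 hReg.inj hrc
    (fun y _ => by linarith [(hr2 y).1]) hmass
  have hXbox : ∀ i, X i ∈ box L := fun i =>
    ⟨⟨(hReg.mem i).1.1, (hReg.mem i).1.2.le⟩, ⟨(hReg.mem i).2.1, (hReg.mem i).2.2.le⟩⟩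
  -- smoothing
  set δ : ℝ := 1 / t with hδ
  have hδ0 : 0 < δ := by positivity
  have hδ1 : δ ≤ 1 := by rw [hδ, div_le_one ht0]; exact ht1
  obtain ⟨v, hv, hvu, hvg, -⟩ := smooth_pot hL0 hopt hδ0
  have hdual := opt_dual hopt hrc (fun y _ => by linarith [(hr2 y).1])
  -- the big box
  have hu_int : IntegrableOn (fun y => upot X ψ y * rho L t X y) (box L) :=
    B2_cont_int ((upot_cont X ψ).mul hrc)
  have hv_int : IntegrableOn (fun y => v y * rho L t X y) (box L) :=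
    B2_cont_int (hv.cont.mul hrc)
  have hr_int : IntegrableOn (rho L t X) (box L) := B2_cont_int hrc
  have big : ∫ y in box L, upot X ψ y * rho L t X y ≤
      (∫ y in box L, v y * rho L t X y) + δ * N := by
    have h1 : ∫ y in box L, upot X ψ y * rho L t X y ≤
        ∫ y in box L, (v y * rho L t X y + δ * rho L t X y) := by
      refine setIntegral_mono_on hu_int (hv_int.add (hr_int.const_mul δ)) (B2_meas_box L) ?_
      intro y hy
      have h2 := (abs_le.1 (hvu y hy)).1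
      have h3 : 0 ≤ rho L t X y := by linarith [(hr2 y).1]
      have h4 : upot X ψ y ≤ v y + δ := by linarith
      calc upot X ψ y * rho L t X y ≤ (v y + δ) * rho L t X y :=
            mul_le_mul_of_nonneg_right h4 h3
        _ = v y * rho L t X y + δ * rho L t X y := by ring
    rw [integral_add hv_int (hr_int.const_mul δ), integral_const_mul, hmass] at h1
    exact h1
  -- the cells
  have hcell : ∀ a ∈ Finset.range k, ∀ b ∈ Finset.range k,
      2 * (∑ i : CI l X a b, ψ i.1 + ∫ y in box l, v (y.1 + a * l, y.2 + b * l) *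
        rho l t (CX l X a b) y) ≤ W l (CX l X a b) (rho l t (CX l X a b)) +
          2 * (δ * ∑ _i : CI l X a b, (1 : ℝ)) := by
    intro a ha b hb
    rw [Finset.mem_range] at ha hb
    have hRc := hRegc a ha b hb
    have hlamc := lam_two hRc h2Kl
    have hnec : Nonempty (CI l X a b) := by
      rw [← Fintype.card_pos_iff]
      have := hlamc.1
      rw [le_div_iff₀ (by positivity)] at this
      have h3 : 0 < l ^ 2 := by positivity
      have h4 : (0 : ℝ) < Fintype.card (CI l X a b) := by linarith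
      exact_mod_cast h4
    have hr2c := hrho K l (CX l X a b) hRc hKK3 t hK8 htl2
    have hrcc : Continuous (rho l t (CX l X a b)) := (rho_EP hl0 ht0 (CX l X a b)).cont
    have hmassc : ∫ y in box l, rho l t (CX l X a b) y = Fintype.card (CI l X a b) :=
      int_rho hl0 ht0 (CX l X a b)
    have hshift : Continuous fun y : ℝ × ℝ => (y.1 + a * l, y.2 + b * l) := by fun_prop
    have hub : ∀ y ∈ box l, (y.1 + a * l, y.2 + b * l) ∈ box L := by
      rintro ⟨y1, y2⟩ ⟨hy1, hy2⟩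
      have ha' : (a : ℝ) + 1 ≤ k := by exact_mod_cast ha
      have hb' : (b : ℝ) + 1 ≤ k := by exact_mod_cast hb
      have ha0 : (0 : ℝ) ≤ a := Nat.cast_nonneg a
      have hb0 : (0 : ℝ) ≤ b := Nat.cast_nonneg b
      have e1 : 0 ≤ (a : ℝ) * l := by positivity
      have e2 : 0 ≤ (b : ℝ) * l := by positivity
      have e3 : ((a : ℝ) + 1) * l ≤ k * l := by gcongr
      have e4 : ((b : ℝ) + 1) * l ≤ k * l := by gcongr
      refine ⟨⟨?_, ?_⟩, ⟨?_, ?_⟩⟩
      · have := hy1.1; simp only at this ⊢; linarith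
      · have := hy1.2; simp only at this ⊢; linarith
      · have := hy2.1; simp only at this ⊢; linarith
      · have := hy2.2; simp only at this ⊢; linarith
    have hwd := weak_duality hl0 (X := CX l X a b) hrcc (fun y _ => by linarith [(hr2c y).1])
      hmassc (f := fun i => ψ i.1) (g := fun y => upot X ψ (y.1 + a * l, y.2 + b * l))
      ((upot_cont X ψ).comp hshift) (by
        intro i y _
        have h1 := upot_le X ψ i.1 (y.1 + a * l, y.2 + b * l)
        have h2 : sqd (X i.1) (y.1 + a * l, y.2 + b * l) = sqd (CX l X a b i) y := by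
          unfold sqd CX
          ring
        rw [h2] at h1
        show ψ i.1 + upot X ψ (y.1 + a * l, y.2 + b * l) ≤ sqd (CX l X a b i) y / 2
        linarith)
    have i1 : IntegrableOn (fun y => upot X ψ (y.1 + a * l, y.2 + b * l) *
        rho l t (CX l X a b) y) (box l) := B2_cont_int (((upot_cont X ψ).comp hshift).mul hrcc)
    have i2 : IntegrableOn (fun y => v (y.1 + a * l, y.2 + b * l) *
        rho l t (CX l X a b) y) (box l) := B2_cont_int ((hv.cont.comp hshift).mul hrcc)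
    have i3 : IntegrableOn (rho l t (CX l X a b)) (box l) := B2_cont_int hrcc
    have small : ∫ y in box l, v (y.1 + a * l, y.2 + b * l) * rho l t (CX l X a b) y ≤
        (∫ y in box l, upot X ψ (y.1 + a * l, y.2 + b * l) * rho l t (CX l X a b) y) +
          δ * ∑ _i : CI l X a b, (1 : ℝ) := by
      have h1 : ∫ y in box l, v (y.1 + a * l, y.2 + b * l) * rho l t (CX l X a b) y ≤
          ∫ y in box l, (upot X ψ (y.1 + a * l, y.2 + b * l) * rho l t (CX l X a b) y +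
            δ * rho l t (CX l X a b) y) := by
        refine setIntegral_mono_on i2 (i1.add (i3.const_mul δ)) (B2_meas_box l) ?_
        intro y hy
        have h2 := (abs_le.1 (hvu _ (hub y hy))).2
        have h3 : 0 ≤ rho l t (CX l X a b) y := by linarith [(hr2c y).1]
        have h4 : v (y.1 + a * l, y.2 + b * l) ≤ upot X ψ (y.1 + a * l, y.2 + b * l) + δ := by
          linarith
        calc v (y.1 + a * l, y.2 + b * l) * rho l t (CX l X a b) y ≤
              (upot X ψ (y.1 + a * l, y.2 + b * l) + δ) * rho l t (CX l X a b) y :=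
              mul_le_mul_of_nonneg_right h4 h3
          _ = _ := by ring
      rw [integral_add i1 (i3.const_mul δ), integral_const_mul, hmassc] at h1
      have h5 : ∑ _i : CI l X a b, (1 : ℝ) = Fintype.card (CI l X a b) := by simp
      rw [h5]
      exact h1
    linarith
  -- sum over the cells
  have hsum := Finset.sum_le_sum fun a ha => Finset.sum_le_sum fun b hb => hcell a ha b hb
  simp only [mul_add, Finset.sum_add_distrib, ← Finset.mul_sum] at hsum
  rw [O3_cell_sum hl0 k X hReg.mem ψ, O3_cell_sum hl0 k X hReg.mem (fun _ => 1)] at hsum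
  have hcard : ∑ _i : ι, (1 : ℝ) = N := by simp [hN]
  rw [hcard] at hsum
  -- the bound of v
  have hvM : ∀ y, |v y| ≤ L ^ 2 + 1 := by
    refine O3_ext hL0 hv fun y hy => ?_
    have h1 := O3_upot_bd hL0 hXbox hopt hint0 hy
    have h2 := hvu y hy
    calc |v y| = |(v y - upot X ψ y) + upot X ψ y| := by ring_nf
      _ ≤ |v y - upot X ψ y| + |upot X ψ y| := abs_add_le _ _
      _ ≤ L ^ 2 + 1 := by linarith
  -- the folding lemma
  set R : ℝ := 20 * K * √t with hR
  have hst : √t ≤ t := by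
    rw [Real.sqrt_le_left ht0.le]
    nlinarith
  have hst0 : 0 < √t := Real.sqrt_pos.2 ht0
  have hR0 : 0 < R := by positivity
  have hRl : R ≤ l / 2 := by
    have h1 : R ≤ 20 * t * t := by
      rw [hR]
      gcongr
    have h2 : 40 * (t * t) ≤ t * (t * t) := by
      have : 40 ≤ t := by linarith
      nlinarith [mul_pos ht0 ht0]
    have h3 : t ^ 3 ≤ t ^ 4 := pow_le_pow_right₀ ht1 (by norm_num)
    have h4 : t * (t * t) = t ^ 3 := by ring
    nlinarith
  have hf := hfold l t R (L ^ 2 + 1) k hl0 ht0 hR0 hRl X hReg.mem (fun y => (hr2 y).2) v hv hvM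
  have hf' := (abs_le.1 hf).2
  -- main error
  have hlayer : ∫ y in layer l R k, gabs v y ≤
      √(volume (layer l R k)).toReal * √(∫ y in box L, gabs v y ^ 2) := by
    have hsub : layer l R k ⊆ box L := fun y hy => hy.1
    have h1 := cs_one (O3_layer_meas l R k) hsub (CP_gabs hv).cont
    have h2 : ∀ y, |gabs v y| = gabs v y := fun y =>
      abs_of_nonneg (by unfold gabs; positivity)
    simp only [h2] at h1
    exact h1
  have hE : ∫ y in box L, gabs v y ^ 2 ≤ (8 * C2 + 4) * K ^ 4 * L ^ 2 := by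
    have h1 := int_gsq_le hopt hrc (fun y _ => (hr2 y).1) hv hvg
    have h2 : ∫ y in box L, gabs v y ^ 2 ≤ ∫ y in box L, 2 * gsq v y :=
      setIntegral_mono_on (B2_cont_int ((CP_gabs hv).cont.pow 2))
        (B2_cont_int (continuous_const.mul (EP_gsq hv).cont)) (B2_meas_box L)
        fun y _ => gabs_le_gsq v y
    rw [integral_const_mul] at h2
    have hK4 : 1 ≤ K ^ 4 := one_le_pow₀ hK1
    have hL2 : 1 ≤ L ^ 2 := one_le_pow₀ hL1
    have h3 : 1 ≤ K ^ 4 * L ^ 2 := by nlinarith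
    calc ∫ y in box L, gabs v y ^ 2 ≤ 2 * (4 * W L X (rho L t X) + 2 * δ) := by linarith
      _ ≤ 2 * (4 * (C2 * K ^ 4 * L ^ 2) + 2 * (K ^ 4 * L ^ 2)) := by
          have : δ ≤ K ^ 4 * L ^ 2 := hδ1.trans h3
          linarith
      _ = (8 * C2 + 4) * K ^ 4 * L ^ 2 := by ring
  have hE0 : 0 ≤ ∫ y in box L, gabs v y ^ 2 :=
    integral_nonneg fun y => by positivity
  have hmain : R * (√(volume (layer l R k)).toReal * √(∫ y in box L, gabs v y ^ 2)) ≤
      (64000 * (8 * C2 + 4) + 1) * K ^ 4 / t * L ^ 2 :=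
    O3_main_err (l := l) k hK1 ht1 hl hLdef hL0 hR (O3_layer_vol hl0 hR0 hk) (by positivity) hE
      ENNReal.toReal_nonneg hE0
  have hmain2 : C1 * R * (∫ y in layer l R k, gabs v y) ≤
      C1 * ((64000 * (8 * C2 + 4) + 1) * K ^ 4 / t * L ^ 2) := by
    rw [mul_assoc]
    refine mul_le_mul_of_nonneg_left ((mul_le_mul_of_nonneg_left hlayer hR0.le).trans hmain) hC1.le
  -- the exponential error
  have hexp0 : -R ^ 2 / (4 * t) = -(100 * K ^ 2) := by
    have : R ^ 2 = 400 * K ^ 2 * t := by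
      rw [hR, mul_pow, Real.sq_sqrt ht0.le]; ring
    rw [this]
    field_simp
    ring
  have hexp : C1 * (L ^ 2 + 1) * N * Real.exp (-R ^ 2 / (4 * t)) ≤ 4 * C1 * (L ^ 2 / t) := by
    rw [hexp0]
    have h1 := O3_exp_err hK1 hL1 hReg.log_le ht0 htL
    have hL2 : 1 ≤ L ^ 2 := one_le_pow₀ hL1
    have hexp1 : 0 ≤ Real.exp (-(100 * K ^ 2)) := (Real.exp_pos _).le
    calc C1 * (L ^ 2 + 1) * N * Real.exp (-(100 * K ^ 2))
        ≤ C1 * (2 * L ^ 2) * (2 * L ^ 2) * Real.exp (-(100 * K ^ 2)) := by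
          gcongr
          linarith
      _ = 4 * C1 * L ^ 2 * (L ^ 2 * Real.exp (-(100 * K ^ 2))) := by ring
      _ ≤ 4 * C1 * L ^ 2 * (1 / t) := by gcongr
      _ = 4 * C1 * (L ^ 2 / t) := by ring
  -- assembly
  have hδN : δ * N ≤ 2 * (L ^ 2 / t) := by
    calc δ * N ≤ δ * (2 * L ^ 2) := by gcongr
      _ = 2 * (L ^ 2 / t) := by rw [hδ]; ring
  have hLt : L ^ 2 / t ≤ K ^ 4 / t * L ^ 2 := by
    have hK4 : 1 ≤ K ^ 4 := one_le_pow₀ hK1
    calc L ^ 2 / t = 1 / t * L ^ 2 := by ring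
      _ ≤ K ^ 4 / t * L ^ 2 := by gcongr
  have hfin : 2 * (C1 * ((64000 * (8 * C2 + 4) + 1) * K ^ 4 / t * L ^ 2)) +
      2 * (4 * C1 * (L ^ 2 / t)) + 4 * (2 * (L ^ 2 / t)) ≤
      (2 * C1 * (64000 * (8 * C2 + 4) + 1) + 8 * C1 + 8) * K ^ 4 / t * L ^ 2 := by
    have h1 : (8 * C1 + 8) * (L ^ 2 / t) ≤ (8 * C1 + 8) * (K ^ 4 / t * L ^ 2) := by gcongr
    calc 2 * (C1 * ((64000 * (8 * C2 + 4) + 1) * K ^ 4 / t * L ^ 2)) +
          2 * (4 * C1 * (L ^ 2 / t)) + 4 * (2 * (L ^ 2 / t))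
        = 2 * C1 * (64000 * (8 * C2 + 4) + 1) * (K ^ 4 / t * L ^ 2) +
            (8 * C1 + 8) * (L ^ 2 / t) := by ring
      _ ≤ 2 * C1 * (64000 * (8 * C2 + 4) + 1) * (K ^ 4 / t * L ^ 2) +
            (8 * C1 + 8) * (K ^ 4 / t * L ^ 2) := by linarith
      _ = (2 * C1 * (64000 * (8 * C2 + 4) + 1) + 8 * C1 + 8) * K ^ 4 / t * L ^ 2 := by ring
  linarith

end Pool.Agent.Lib.H77M
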