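import Pool.Agent.Lib.H77M.A1

/-!
# Project H77M, chunk O4a: cut-off functions
-/

open MeasureTheory Set ProbabilityTheory
open scoped ContDiff

namespace Pool.Agent.Lib.H77M

/-- `χ` is an admissible cut-off function for the box of side `l` with a frame of width `w` -/
structure Cut (l w M : ℝ) (χ : ℝ × ℝ → ℝ) : Prop where
  ep : EP l χ
  nonneg : ∀ y, 0 ≤ χ y
  le_one : ∀ y, χ y ≤ 1
  grad : ∀ y, gabs χ y ≤ M / w
  zero : ∀ y ∈ box l, (y.1 ≤ w / 2 ∨ y.2 ≤ w / 2 ∨ l - w / 2 ≤ y.1 ∨ l - w / 2 ≤ y.2) → χ y = 0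
  one : ∀ y, w ≤ y.1 → w ≤ y.2 → y.1 ≤ l - w → y.2 ≤ l - w → χ y = 1

/-! ### auxiliary lemmas -/

/-- the derivative of the smooth transition function is bounded and vanishes on the right -/
theorem O4a_trans : ∃ C : ℝ, 0 ≤ C ∧ (∀ x, |deriv Real.smoothTransition x| ≤ C) ∧
    ∀ x, 1 < x → deriv Real.smoothTransition x = 0 := by
  have hc : Continuous (deriv Real.smoothTransition) :=
    (Real.smoothTransition.contDiff (n := 1)).continuous_deriv (le_refl _)
  have h1 : ∀ x, 1 < x → deriv Real.smoothTransition x = 0 := by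
    intro x hx
    have : Real.smoothTransition =ᶠ[nhds x] fun _ => (1 : ℝ) := by
      filter_upwards [lt_mem_nhds hx] with y hy
      exact Real.smoothTransition.one_of_one_le hy.le
    rw [this.deriv_eq, deriv_const]
  have h0 : ∀ x, x < 0 → deriv Real.smoothTransition x = 0 := by
    intro x hx
    have : Real.smoothTransition =ᶠ[nhds x] fun _ => (0 : ℝ) := by
      filter_upwards [gt_mem_nhds hx] with y hy
      exact Real.smoothTransition.zero_of_nonpos hy.le
    rw [this.deriv_eq, deriv_const]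
  obtain ⟨C, hC⟩ := (isCompact_Icc (a := (0 : ℝ)) (b := 1)).exists_bound_of_continuousOn hc.continuousOn
  refine ⟨|C|, abs_nonneg _, fun x => ?_, h1⟩
  rcases lt_or_ge x 0 with hx | hx
  · rw [h0 x hx, abs_zero]; exact abs_nonneg _
  · rcases lt_or_ge 1 x with hx1 | hx1
    · rw [h1 x hx1, abs_zero]; exact abs_nonneg _
    · exact (hC x ⟨hx, hx1⟩).trans (le_abs_self C)

/-- the one-dimensional cut-off function -/
theorem O4a_one : ∃ M : ℝ, 0 ≤ M ∧ ∀ l w : ℝ, 0 < w → w ≤ l / 4 → ∃ h : ℝ → ℝ,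
    ContDiff ℝ ∞ h ∧ (∀ a, h (-a) = h a) ∧ (∀ a, h (a + 2 * l) = h a) ∧ (∀ a, 0 ≤ h a) ∧
    (∀ a, h a ≤ 1) ∧ (∀ a, |deriv h a| ≤ M / w) ∧
    (∀ a, 0 ≤ a → a ≤ l → (a ≤ w / 2 ∨ l - w / 2 ≤ a) → h a = 0) ∧
    (∀ a, w ≤ a → a ≤ l - w → h a = 1) := by
  obtain ⟨C, hC0, hC, hC1⟩ := O4a_trans
  refine ⟨4 * Real.pi * C, by positivity, fun l w hw hwl => ?_⟩
  have hl : 0 < l := by linarith
  have hpi := Real.pi_pos
  set θ : ℝ := Real.pi * w / (2 * l) with hθ
  have hθ0 : 0 < θ := by positivity
  have hθ1 : θ ≤ Real.pi / 8 := by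
    rw [hθ, div_le_div_iff₀ (by positivity) (by norm_num)]
    nlinarith [mul_le_mul_of_nonneg_left hwl hpi.le]
  have h2θ : 2 * θ = Real.pi * w / l := by rw [hθ]; field_simp
  have hs0 : 0 < Real.sin θ := Real.sin_pos_of_pos_of_lt_pi hθ0 (by linarith)
  have hcos : 1 / 2 ≤ Real.cos θ ^ 2 := by
    have h1 : Real.cos (Real.pi / 4) ≤ Real.cos θ :=
      Real.cos_le_cos_of_nonneg_of_le_pi hθ0.le (by linarith) (by linarith)
    rw [Real.cos_pi_div_four] at h1
    have h2 : (√2 / 2) ^ 2 ≤ Real.cos θ ^ 2 := pow_le_pow_left₀ (by positivity) h1 2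
    rw [div_pow, Real.sq_sqrt (by norm_num)] at h2
    linarith
  have hcos1 : 0 < Real.cos θ := Real.cos_pos_of_mem_Ioo ⟨by linarith, by linarith⟩
  set s0 : ℝ := Real.sin θ ^ 2 with hs0d
  set s1 : ℝ := Real.sin (2 * θ) ^ 2 with hs1d
  have hdiff : Real.sin θ ^ 2 ≤ s1 - s0 := by
    rw [hs1d, hs0d, Real.sin_two_mul]
    have := sq_nonneg (Real.sin θ)
    nlinarith [mul_le_mul_of_nonneg_left hcos this]
  have hd0 : 0 < s1 - s0 := lt_of_lt_of_le (by positivity) hdiff
  let S : ℝ → ℝ := fun a => Real.sin (Real.pi * a / l) ^ 2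
  let h : ℝ → ℝ := fun a => Real.smoothTransition ((S a - s0) / (s1 - s0))
  have hSs : ContDiff ℝ ∞ S := by
    have : ContDiff ℝ ∞ (fun a : ℝ => Real.sin (Real.pi * a / l)) :=
      Real.contDiff_sin.comp ((contDiff_const.mul contDiff_id).div_const l)
    exact this.pow 2
  have hSd : ∀ a, HasDerivAt S (2 * Real.sin (Real.pi * a / l) *
      (Real.cos (Real.pi * a / l) * (Real.pi / l))) a := by
    intro a
    have h1 : HasDerivAt (fun a : ℝ => Real.pi * a / l) (Real.pi / l) a := by
      have := ((hasDerivAt_id a).const_mul Real.pi).div_const l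
      simpa using this
    have h2 := (h1.sin).pow 2
    have e : ((2 : ℕ) : ℝ) * Real.sin (Real.pi * a / l) ^ (2 - 1) *
        (Real.cos (Real.pi * a / l) * (Real.pi / l)) = 2 * Real.sin (Real.pi * a / l) *
      (Real.cos (Real.pi * a / l) * (Real.pi / l)) := by norm_num
    rw [e] at h2
    exact h2
  have hsmooth : ContDiff ℝ ∞ h :=
    Real.smoothTransition.contDiff.comp ((hSs.sub contDiff_const).div_const _)
  have hSneg : ∀ a, S (-a) = S a := by
    intro a
    simp only [S]
    rw [show Real.pi * -a / l = -(Real.pi * a / l) by ring, Real.sin_neg, neg_sq]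
  have hSper : ∀ a, S (a + 2 * l) = S a := by
    intro a
    simp only [S]
    rw [show Real.pi * (a + 2 * l) / l = Real.pi * a / l + 2 * Real.pi by field_simp,
      Real.sin_add_two_pi]
  have hSrefl : ∀ a, S (l - a) = S a := by
    intro a
    simp only [S]
    rw [show Real.pi * (l - a) / l = Real.pi - Real.pi * a / l by field_simp, Real.sin_pi_sub]
  have hSmono : ∀ a b, 0 ≤ a → a ≤ b → b ≤ l / 2 → S a ≤ S b := by
    intro a b ha hab hb
    simp only [S]
    have e1 : Real.pi * a / l ≤ Real.pi * b / l := by gcongr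
    have e2 : Real.pi * b / l ≤ Real.pi / 2 := by
      rw [div_le_div_iff₀ hl (by norm_num)]
      nlinarith [mul_le_mul_of_nonneg_left hb hpi.le]
    have e0 : 0 ≤ Real.pi * a / l := by positivity
    have h1 : Real.sin (Real.pi * a / l) ≤ Real.sin (Real.pi * b / l) :=
      Real.sin_le_sin_of_le_of_le_pi_div_two (by linarith) e2 e1
    have h0 : 0 ≤ Real.sin (Real.pi * a / l) :=
      Real.sin_nonneg_of_nonneg_of_le_pi e0 (by linarith)
    exact pow_le_pow_left₀ h0 h1 2
  have hS0 : S (w / 2) = s0 := by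
    simp only [S, hs0d, hθ]
    congr 2
    field_simp
  have hS1 : S w = s1 := by
    simp only [S, hs1d, h2θ]
  refine ⟨h, hsmooth, fun a => ?_, fun a => ?_, fun a => Real.smoothTransition.nonneg _,
    fun a => Real.smoothTransition.le_one _, fun a => ?_, fun a ha hal hh => ?_, fun a ha hal => ?_⟩
  · simp only [h, hSneg]
  · simp only [h, hSper]
  · have hd : HasDerivAt h (deriv Real.smoothTransition ((S a - s0) / (s1 - s0)) *
        (2 * Real.sin (Real.pi * a / l) * (Real.cos (Real.pi * a / l) * (Real.pi / l)) /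
          (s1 - s0))) a := by
      have h1 := ((hSd a).sub_const s0).div_const (s1 - s0)
      have h2 : HasDerivAt Real.smoothTransition _ ((S a - s0) / (s1 - s0)) :=
        ((Real.smoothTransition.contDiff (n := 1)).differentiable (by simp) _).hasDerivAt
      exact h2.comp a h1
    rw [hd.deriv]
    rcases lt_or_ge s1 (S a) with hlt | hge
    · have : 1 < (S a - s0) / (s1 - s0) := by
        rw [lt_div_iff₀ hd0]; linarith
      rw [hC1 _ this, zero_mul, abs_zero]
      positivity
    · rw [abs_mul]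
      have hnn : 0 ≤ Real.sin (2 * θ) :=
        Real.sin_nonneg_of_nonneg_of_le_pi (by linarith) (by linarith)
      have k1 : |Real.sin (Real.pi * a / l)| ≤ Real.sin (2 * θ) := abs_le_of_sq_le_sq hge hnn
      have k2 : |Real.cos (Real.pi * a / l)| ≤ 1 := Real.abs_cos_le_one _
      have k3 : |2 * Real.sin (Real.pi * a / l) * (Real.cos (Real.pi * a / l) * (Real.pi / l)) /
          (s1 - s0)| ≤ 2 * Real.sin (2 * θ) * (Real.pi / l) / (s1 - s0) := by
        rw [abs_div, abs_of_pos hd0, abs_mul, abs_mul, abs_mul, abs_of_pos (by positivity : 0 < Real.pi / l),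
          abs_of_pos (by norm_num : (0 : ℝ) < 2)]
        have : 2 * |Real.sin (Real.pi * a / l)| * (|Real.cos (Real.pi * a / l)| * (Real.pi / l)) ≤
            2 * Real.sin (2 * θ) * (1 * (Real.pi / l)) := by gcongr
        rw [one_mul] at this
        gcongr
      have k4 : 2 * Real.sin (2 * θ) * (Real.pi / l) / (s1 - s0) ≤ 4 * Real.pi / w := by
        have m1 : Real.sin (2 * θ) / (s1 - s0) ≤ 2 / Real.sin θ := by
          rw [div_le_div_iff₀ hd0 hs0]
          have m2 : Real.sin (2 * θ) * Real.sin θ = 2 * Real.cos θ * Real.sin θ ^ 2 := by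
            rw [Real.sin_two_mul]; ring
          rw [m2]
          have m3 : Real.cos θ ≤ 1 := Real.cos_le_one _
          nlinarith [sq_nonneg (Real.sin θ), mul_le_mul_of_nonneg_right m3 (sq_nonneg (Real.sin θ))]
        have m4 : 2 / Real.pi * θ ≤ Real.sin θ := Real.mul_le_sin hθ0.le (by linarith)
        have m5 : 2 / Real.sin θ ≤ 2 * l / w := by
          rw [div_le_div_iff₀ hs0 hw]
          have m6 : 2 / Real.pi * θ = w / l := by
            rw [hθ]; field_simp
          rw [m6, div_le_iff₀ hl] at m4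
          linarith
        calc 2 * Real.sin (2 * θ) * (Real.pi / l) / (s1 - s0) =
            2 * (Real.pi / l) * (Real.sin (2 * θ) / (s1 - s0)) := by ring
          _ ≤ 2 * (Real.pi / l) * (2 * l / w) := by
              have := m1.trans m5
              gcongr
          _ = 4 * Real.pi / w := by field_simp; norm_num
      calc |deriv Real.smoothTransition ((S a - s0) / (s1 - s0))| *
          |2 * Real.sin (Real.pi * a / l) * (Real.cos (Real.pi * a / l) * (Real.pi / l)) /
            (s1 - s0)| ≤ C * (4 * Real.pi / w) :=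
          mul_le_mul (hC _) (k3.trans k4) (abs_nonneg _) hC0
        _ = 4 * Real.pi * C / w := by ring
  · apply Real.smoothTransition.zero_of_nonpos
    have : S a ≤ s0 := by
      rcases hh with hh | hh
      · rw [← hS0]
        exact hSmono _ _ ha hh (by linarith)
      · rw [← hS0, ← hSrefl a]
        exact hSmono _ _ (by linarith) (by linarith) (by linarith)
    exact div_nonpos_of_nonpos_of_nonneg (by linarith) hd0.le
  · apply Real.smoothTransition.one_of_one_le
    have : s1 ≤ S a := by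
      rcases le_total a (l / 2) with hh | hh
      · rw [← hS1]
        exact hSmono _ _ hw.le ha hh
      · rw [← hS1, ← hSrefl a]
        exact hSmono _ _ hw.le (by linarith) (by linarith)
    rw [one_le_div hd0]
    linarith

/-- existence of cut-off functions: `χ (a, b) = h a * h b`, where `h` is the even periodic
extension of a bump function (e.g. a smooth function of `cos (π a / l)`, or a sum of translates) -/
theorem cutoff : ∃ M : ℝ, 1 ≤ M ∧ ∀ l w : ℝ, 0 < w → w ≤ l / 4 → ∃ χ, Cut l w M χ := by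
  obtain ⟨M, hM0, hM⟩ := O4a_one
  refine ⟨2 * M + 1, by linarith, fun l w hw hwl => ?_⟩
  obtain ⟨h, hs, hneg, hper, h0, h1, hd, hz, ho⟩ := hM l w hw hwl
  have hdiff : Differentiable ℝ h := hs.differentiable (by simp)
  have hχs : ContDiff ℝ ∞ (fun y : ℝ × ℝ => h y.1 * h y.2) :=
    (hs.comp contDiff_fst).mul (hs.comp contDiff_snd)
  have hχd := A1_diff hχs
  refine ⟨fun y => h y.1 * h y.2, ⟨⟨hχs.continuous, ?_, ?_, ?_, ?_⟩, hχs⟩, fun y => ?_, fun y => ?_,
    ?_, ?_, ?_⟩
  · intro a b; simp only [hneg]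
  · intro a b; simp only [hneg]
  · intro a b; simp only [hper]
  · intro a b; simp only [hper]
  · exact mul_nonneg (h0 _) (h0 _)
  · exact mul_le_one₀ (h1 _) (h0 _) (h1 _)
  · rintro ⟨a, b⟩
    have e1 : D1 (fun y : ℝ × ℝ => h y.1 * h y.2) (a, b) = deriv h a * h b := by
      rw [A1_D1_deriv hχd]
      exact ((hdiff a).hasDerivAt.mul_const (h b)).deriv
    have e2 : D2 (fun y : ℝ × ℝ => h y.1 * h y.2) (a, b) = h a * deriv h b := by
      rw [A1_D2_deriv hχd]
      exact ((hdiff b).hasDerivAt.const_mul (h a)).deriv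
    have hMw : 0 ≤ M / w := by positivity
    rw [gabs, e1, e2, abs_mul, abs_mul, abs_of_nonneg (h0 a), abs_of_nonneg (h0 b)]
    have i1 : |deriv h a| * h b ≤ M / w * 1 := mul_le_mul (hd a) (h1 b) (h0 b) hMw
    have i2 : h a * |deriv h b| ≤ 1 * (M / w) := mul_le_mul (h1 a) (hd b) (abs_nonneg _) zero_le_one
    have i3 : 0 ≤ 1 / w := by positivity
    have : (2 * M + 1) / w = M / w + M / w + 1 / w := by ring
    rw [this]
    linarith
  · rintro ⟨a, b⟩ hab hh
    simp only [box, mem_prod, mem_Icc] at hab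
    obtain ⟨⟨ha0, hal⟩, hb0, hbl⟩ := hab
    simp only at hh ⊢
    rcases hh with hh | hh | hh | hh
    · rw [hz a ha0 hal (Or.inl hh), zero_mul]
    · rw [hz b hb0 hbl (Or.inl hh), mul_zero]
    · rw [hz a ha0 hal (Or.inr hh), zero_mul]
    · rw [hz b hb0 hbl (Or.inr hh), mul_zero]
  · rintro ⟨a, b⟩ ha hb ha' hb'
    simp only at ha hb ha' hb' ⊢
    rw [ho a ha ha', ho b hb hb', mul_one]

end Pool.Agent.Lib.H77M
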