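import Pool.Agent.Lib.H77M.O2
import Pool.Agent.Lib.H77M.O4a

/-!
# Project H77M, chunk O4c: the frame term `J_c`, and the size `V_c` of the potentials
-/

open MeasureTheory Set ProbabilityTheory
open scoped ContDiff

namespace Pool.Agent.Lib.H77M

/-! ### elementary facts -/

theorem O4c_params {K l t : ℝ} (hK : 2 ≤ K) (ht : K ^ 16 ≤ t) (hl : t ^ 4 ≤ l) :
    1 ≤ t ∧ K ≤ t ∧ K ^ 8 ≤ t ∧ t ≤ l ∧ t ≤ l ^ 2 ∧ 2 * K ≤ l ∧ 1 ≤ l ∧ K ^ 4 ≤ l := by
  have hK1 : 1 ≤ K := by linarith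
  have h16 : K ^ 2 ≤ K ^ 16 := pow_le_pow_right₀ hK1 (by norm_num)
  have hK16 : 2 * K ≤ K ^ 16 := by nlinarith
  have h1 : 1 ≤ t := by linarith
  have h2 : K ≤ t := by linarith
  have h3 : K ^ 8 ≤ t := (pow_le_pow_right₀ hK1 (by norm_num)).trans ht
  have h4 : t ≤ t ^ 4 := by
    calc t = t ^ 1 := (pow_one t).symm
      _ ≤ t ^ 4 := pow_le_pow_right₀ h1 (by norm_num)
  have h5 : t ≤ l := h4.trans hl
  have h6 : K ^ 4 ≤ K ^ 16 := pow_le_pow_right₀ hK1 (by norm_num)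
  refine ⟨h1, h2, h3, h5, by nlinarith, by linarith, by linarith, by linarith⟩

theorem O4c_basic : ∃ C K0 : ℝ, 1 ≤ C ∧ 2 ≤ K0 ∧ ∀ (K l t : ℝ) {ι : Type} [Fintype ι]
    (X : ι → ℝ × ℝ) (ψ : ι → ℝ) (T : ℝ × ℝ → ι), Reg K l X → K0 ≤ K → K ^ 16 ≤ t → t ^ 4 ≤ l →
    IsOpt l X (rho l t X) ψ T → ∫ y in box l, upot X ψ y = 0 →
    (∀ y ∈ box l, sqd (X (T y)) y ≤ C * K ^ 2 * l) ∧ W l X (rho l t X) ≤ C * K ^ 4 * l ^ 2 ∧
      (∀ y, 1 / 2 ≤ rho l t X y ∧ rho l t X y ≤ 2) ∧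
      ∫ y in box l, upot X ψ y ^ 2 ≤ C * K ^ 10 * l ^ 4 / t := by
  obtain ⟨C1, hC1, hDM⟩ := DM
  obtain ⟨C2, K2, hC2, hK2, hcrude⟩ := crude_rho
  obtain ⟨K3, hK3, hrho⟩ := rho_two
  obtain ⟨C4, K4, hC4, hK4, hpot⟩ := pot_small
  refine ⟨1 + C1 * (2 + C2) + C2 + C4, max 2 (max K2 (max K3 K4)), by nlinarith [mul_pos hC1 hC2],
    le_max_left _ _, ?_⟩
  intro K l t ι _ X ψ T hR hK ht hl hopt h0
  have hKa : 2 ≤ K := (le_max_left _ _).trans hK
  have hKb : K2 ≤ K := ((le_max_left _ _).trans (le_max_right _ _)).trans hK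
  have hKc : K3 ≤ K := (((le_max_left _ _).trans (le_max_right _ _)).trans (le_max_right _ _)).trans hK
  have hKd : K4 ≤ K := (((le_max_right _ _).trans (le_max_right _ _)).trans (le_max_right _ _)).trans hK
  obtain ⟨ht1, hKt, hK8, htl, htl2, h2Kl, hl1, hK4l⟩ := O4c_params hKa ht hl
  have hK1 : 1 ≤ K := by linarith
  have hl0 : 0 < l := by linarith
  have ht0 : 0 < t := by linarith
  have hr2 := hrho K l X hR hKc t hK8 htl2
  have hW := hcrude K l X hR hKb t hK8 htl2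
  have hrc : Continuous (rho l t X) := (rho_EP hl0 ht0 X).cont
  have hW0 : 0 ≤ W l X (rho l t X) := W_nonneg X fun y _ => by linarith [(hr2 y).1]
  refine ⟨?_, ?_, hr2, ?_⟩
  · intro y hy
    have h1 := hDM K l X (rho l t X) ψ T hR hrc (fun y _ => by linarith [(hr2 y).1]) hopt y hy
    have h2 : √(W l X (rho l t X)) ≤ (1 + C2) * K ^ 2 * l := by
      refine Real.sqrt_le_iff.2 ⟨by positivity, hW.trans ?_⟩
      have h3 : C2 ≤ (1 + C2) ^ 2 := by nlinarith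
      calc C2 * K ^ 4 * l ^ 2 ≤ (1 + C2) ^ 2 * K ^ 4 * l ^ 2 := by gcongr
        _ = ((1 + C2) * K ^ 2 * l) ^ 2 := by ring
    have h3 : K ^ 2 ≤ K ^ 2 * l := by nlinarith [sq_nonneg K]
    calc sqd (X (T y)) y ≤ C1 * (K ^ 2 + √(W l X (rho l t X))) := h1
      _ ≤ C1 * (K ^ 2 * l + (1 + C2) * K ^ 2 * l) := by gcongr
      _ = (C1 * (2 + C2)) * (K ^ 2 * l) := by ring
      _ ≤ (1 + C1 * (2 + C2) + C2 + C4) * (K ^ 2 * l) := by
          have : 0 ≤ K ^ 2 * l := by positivity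
          gcongr
          linarith
      _ = (1 + C1 * (2 + C2) + C2 + C4) * K ^ 2 * l := by ring
  · calc W l X (rho l t X) ≤ C2 * K ^ 4 * l ^ 2 := hW
      _ ≤ (1 + C1 * (2 + C2) + C2 + C4) * K ^ 4 * l ^ 2 := by
          have : 0 ≤ C1 * (2 + C2) := by positivity
          gcongr
          linarith
  · have := hpot K l t X ψ T hR hKd ht hl hopt h0
    calc ∫ y in box l, upot X ψ y ^ 2 ≤ C4 * K ^ 10 * l ^ 4 / t := this
      _ ≤ (1 + C1 * (2 + C2) + C2 + C4) * K ^ 10 * l ^ 4 / t := by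
          have : 0 ≤ C1 * (2 + C2) := by positivity
          gcongr
          linarith

/-- `V_c`: use `∑ ψ i ^ 2 = ∫ ψ (T y) ^ 2 rho y`, `ψ (T y) = sqd / 2 - upot`, `DM`, `crude_rho`,
`pot_small` -/
theorem V_bd : ∃ C K0 : ℝ, 0 < C ∧ 1 ≤ K0 ∧ ∀ (K l t : ℝ) {ι : Type} [Fintype ι]
    (X : ι → ℝ × ℝ) (ψ : ι → ℝ) (T : ℝ × ℝ → ι), Reg K l X → K0 ≤ K → K ^ 16 ≤ t → t ^ 4 ≤ l →
    IsOpt l X (rho l t X) ψ T → ∫ y in box l, upot X ψ y = 0 →
    ∑ i, ψ i ^ 2 + ∫ y in box l, upot X ψ y ^ 2 ≤ C * K ^ 10 * l ^ 4 / t := by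
  obtain ⟨C, K0, hC, hK0, hb⟩ := O4c_basic
  refine ⟨2 * C ^ 2 + 5 * C, K0, by nlinarith, by linarith, ?_⟩
  intro K l t ι _ X ψ T hR hK ht hl hopt h0
  obtain ⟨hsqd, hW, hr2, hpot⟩ := hb K l t X ψ T hR hK ht hl hopt h0
  obtain ⟨ht1, hKt, hK8, htl, htl2, h2Kl, hl1, hK4l⟩ := O4c_params (hK0.trans hK) ht hl
  have hK1 : 1 ≤ K := by linarith
  have hl0 : 0 < l := by linarith
  have ht0 : 0 < t := by linarith
  have hrc : Continuous (rho l t X) := (rho_EP hl0 ht0 X).cont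
  have hC0 : 0 < C := by linarith
  have e1 : ∑ i, ψ i ^ 2 = ∫ y in box l, ψ (T y) ^ 2 * rho l t X y :=
    (opt_int hopt hrc (fun i => ψ i ^ 2)).symm
  have i1 : IntegrableOn (fun y => ψ (T y) ^ 2 * rho l t X y) (box l) :=
    (opt_integrable hopt (F := fun i y => ψ i ^ 2 * rho l t X y)
      fun i => continuous_const.mul hrc).2
  have i2 : IntegrableOn (fun y => sqd (X (T y)) y) (box l) :=
    (opt_integrable hopt (F := fun i y => sqd (X i) y) fun i => B2_sqd_cont (X i)).2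
  have i3 : IntegrableOn (fun y => upot X ψ y ^ 2) (box l) :=
    B2_cont_int ((upot_cont X ψ).pow 2)
  have h1 : ∫ y in box l, ψ (T y) ^ 2 * rho l t X y ≤
      ∫ y in box l, (C * K ^ 2 * l * sqd (X (T y)) y + 4 * upot X ψ y ^ 2) := by
    refine setIntegral_mono_on i1 ((i2.const_mul _).add (i3.const_mul _)) (B2_meas_box l) ?_
    intro y hy
    have h2 := hopt.eq y
    have h3 : ψ (T y) = sqd (X (T y)) y / 2 - upot X ψ y := by linarith
    have h4 := hsqd y hy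
    have h5 := B2_sqd_nonneg (X (T y)) y
    have h6 : sqd (X (T y)) y ^ 2 ≤ C * K ^ 2 * l * sqd (X (T y)) y := by nlinarith
    have h7 : ψ (T y) ^ 2 ≤ sqd (X (T y)) y ^ 2 / 2 + 2 * upot X ψ y ^ 2 := by
      rw [h3]
      nlinarith [sq_nonneg (sqd (X (T y)) y / 2 + upot X ψ y)]
    calc ψ (T y) ^ 2 * rho l t X y ≤ ψ (T y) ^ 2 * 2 := by
          gcongr
          exact (hr2 y).2
      _ ≤ sqd (X (T y)) y ^ 2 + 4 * upot X ψ y ^ 2 := by linarith
      _ ≤ _ := by linarith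
  rw [integral_add (i2.const_mul _) (i3.const_mul _), integral_const_mul, integral_const_mul] at h1
  have h2 : ∫ y in box l, sqd (X (T y)) y ≤ 2 * W l X (rho l t X) :=
    int_sqd_le hopt hrc fun y _ => (hr2 y).1
  have h3 : C * K ^ 2 * l * ∫ y in box l, sqd (X (T y)) y ≤ 2 * C ^ 2 * K ^ 10 * l ^ 4 / t := by
    calc C * K ^ 2 * l * ∫ y in box l, sqd (X (T y)) y
        ≤ C * K ^ 2 * l * (2 * (C * K ^ 4 * l ^ 2)) := by
          gcongr
          linarith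
      _ = 2 * C ^ 2 * (K ^ 6 * l ^ 3) := by ring
      _ ≤ 2 * C ^ 2 * (K ^ 10 * (l ^ 4 / t)) := by
          have h6 : K ^ 6 ≤ K ^ 10 := pow_le_pow_right₀ hK1 (by norm_num)
          have h7 : l ^ 3 ≤ l ^ 4 / t := by
            rw [le_div_iff₀ ht0]
            calc l ^ 3 * t ≤ l ^ 3 * l := by gcongr
              _ = l ^ 4 := by ring
          gcongr
      _ = 2 * C ^ 2 * K ^ 10 * l ^ 4 / t := by ring
  calc ∑ i, ψ i ^ 2 + ∫ y in box l, upot X ψ y ^ 2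
      ≤ 2 * C ^ 2 * K ^ 10 * l ^ 4 / t + 5 * ∫ y in box l, upot X ψ y ^ 2 := by linarith
    _ ≤ 2 * C ^ 2 * K ^ 10 * l ^ 4 / t + 5 * (C * K ^ 10 * l ^ 4 / t) := by linarith
    _ = (2 * C ^ 2 + 5 * C) * K ^ 10 * l ^ 4 / t := by ring

theorem O4c_int_const {L : ℝ} (hL : 0 ≤ L) (c : ℝ) : ∫ _y in box L, c = L ^ 2 * c := by
  have h1 : (volume (box L)).toReal = L ^ 2 := by
    unfold box
    rw [Measure.volume_eq_prod, Measure.prod_prod, Real.volume_Icc, sub_zero,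
      ← ENNReal.ofReal_mul hL, ENNReal.toReal_ofReal (by positivity)]
    ring
  rw [setIntegral_const, smul_eq_mul, Measure.real, h1]

theorem O4c_int_one {L : ℝ} (hL : 0 ≤ L) : ∫ _y in box L, (1 : ℝ) = L ^ 2 := by
  rw [O4c_int_const hL, mul_one]

/-! ### averages -/

theorem O4c_av_mul (L c : ℝ) (f : ℝ × ℝ → ℝ) (x : ℝ × ℝ) :
    av L (fun y => c * f y) x = c * av L f x := by
  unfold av
  rw [integral_const_mul, mul_div_assoc]

theorem O4c_eta_int {l w M : ℝ} (hl : 0 < l) (hw : 0 < w) {χ : ℝ × ℝ → ℝ} (hχ : Cut l w M χ) :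
    ∫ y in box l, (1 - χ y) ≤ 4 * (w * l) := by
  set F : Set (ℝ × ℝ) := {y | y.1 < w ∨ y.2 < w ∨ l - w < y.1 ∨ l - w < y.2} with hF
  have hFm : MeasurableSet F := by
    have h1 : MeasurableSet {y : ℝ × ℝ | y.1 < w} := measurableSet_lt measurable_fst measurable_const
    have h2 : MeasurableSet {y : ℝ × ℝ | y.2 < w} := measurableSet_lt measurable_snd measurable_const
    have h3 : MeasurableSet {y : ℝ × ℝ | l - w < y.1} := measurableSet_lt measurable_const measurable_fst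
    have h4 : MeasurableSet {y : ℝ × ℝ | l - w < y.2} := measurableSet_lt measurable_const measurable_snd
    exact h1.union (h2.union (h3.union h4))
  have hbm := B2_meas_box l
  have h1 : ∫ y in box l, (1 - χ y) ≤ ∫ y in box l, F.indicator (fun _ => (1 : ℝ)) y := by
    refine setIntegral_mono_on (B2_cont_int (continuous_const.sub hχ.ep.cont))
      ((B2_cont_int continuous_const).indicator hFm) hbm ?_
    intro y hy
    by_cases hyF : y ∈ F
    · rw [indicator_of_mem hyF]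
      linarith [hχ.nonneg y]
    · rw [indicator_of_notMem hyF]
      have hyF' : ¬ (y.1 < w ∨ y.2 < w ∨ l - w < y.1 ∨ l - w < y.2) := hyF
      push Not at hyF'
      rw [hχ.one y hyF'.1 hyF'.2.1 hyF'.2.2.1 hyF'.2.2.2]
      simp
  have h2 : ∫ y in box l, F.indicator (fun _ => (1 : ℝ)) y = (volume (box l ∩ F)).toReal := by
    rw [setIntegral_indicator hFm, setIntegral_const, smul_eq_mul, mul_one, Measure.real]
  rw [h2] at h1
  refine h1.trans ?_
  have hsub : box l ∩ F ⊆ ((Icc 0 w ×ˢ Icc 0 l) ∪ (Icc 0 l ×ˢ Icc 0 w)) ∪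
      ((Icc (l - w) l ×ˢ Icc 0 l) ∪ (Icc 0 l ×ˢ Icc (l - w) l)) := by
    rintro ⟨y1, y2⟩ ⟨⟨hy1, hy2⟩, hy⟩
    have hy1' : 0 ≤ y1 ∧ y1 ≤ l := hy1
    have hy2' : 0 ≤ y2 ∧ y2 ≤ l := hy2
    have hy' : y1 < w ∨ y2 < w ∨ l - w < y1 ∨ l - w < y2 := hy
    rcases hy' with h | h | h | h
    · exact Or.inl (Or.inl ⟨⟨hy1'.1, h.le⟩, hy2⟩)
    · exact Or.inl (Or.inr ⟨hy1, ⟨hy2'.1, h.le⟩⟩)
    · exact Or.inr (Or.inl ⟨⟨h.le, hy1'.2⟩, hy2⟩)
    · exact Or.inr (Or.inr ⟨hy1, ⟨h.le, hy2'.2⟩⟩)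
  have h3 : volume (box l ∩ F) ≤ ENNReal.ofReal (4 * (w * l)) := by
    refine (measure_mono hsub).trans ((measure_union_le _ _).trans ?_)
    refine (add_le_add (measure_union_le _ _) (measure_union_le _ _)).trans ?_
    rw [Measure.volume_eq_prod, Measure.prod_prod, Measure.prod_prod, Measure.prod_prod,
      Measure.prod_prod, Real.volume_Icc, Real.volume_Icc, Real.volume_Icc,
      ← ENNReal.ofReal_mul (by linarith), ← ENNReal.ofReal_mul (by linarith),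
      ← ENNReal.ofReal_mul (by linarith), ← ENNReal.ofReal_mul (by linarith),
      ← ENNReal.ofReal_add (by nlinarith) (by nlinarith),
      ← ENNReal.ofReal_add (by nlinarith) (by nlinarith),
      ← ENNReal.ofReal_add (by nlinarith) (by nlinarith)]
    apply ENNReal.ofReal_le_ofReal
    nlinarith
  exact ENNReal.toReal_le_of_le_ofReal (by positivity) h3

theorem O4c_gabs_mul {f g : ℝ × ℝ → ℝ} (hf : ContDiff ℝ ∞ f) (hg : ContDiff ℝ ∞ g) (y : ℝ × ℝ) :
    gabs (fun y => f y * g y) y ≤ |f y| * gabs g y + |g y| * gabs f y := by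
  have h1 : HasFDerivAt (fun y => f y * g y) (f y • fderiv ℝ g y + g y • fderiv ℝ f y) y :=
    (A1_diff hf y).hasFDerivAt.mul (A1_diff hg y).hasFDerivAt
  unfold gabs D1 D2
  rw [h1.fderiv]
  simp only [add_apply, smul_apply, smul_eq_mul]
  have h2 := abs_add_le (f y * fderiv ℝ g y (1, 0)) (g y * fderiv ℝ f y (1, 0))
  have h3 := abs_add_le (f y * fderiv ℝ g y (0, 1)) (g y * fderiv ℝ f y (0, 1))
  rw [abs_mul, abs_mul] at h2 h3
  nlinarith

theorem O4c_gabs_eta {χ : ℝ × ℝ → ℝ} (y : ℝ × ℝ) : gabs (fun y => 1 - χ y) y = gabs χ y := by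
  unfold gabs D1 D2
  rw [fderiv_const_sub]
  simp only [neg_apply, abs_neg]

/-- the inequality for one point -/
theorem O4c_point {l w M δ : ℝ} (hl1 : 1 ≤ l) {ι : Type} [Fintype ι]
    {X : ι → ℝ × ℝ} (hX : ∀ i, X i ∈ hbox l) (ψ : ι → ℝ) {χ : ℝ × ℝ → ℝ} (hχ : Cut l w M χ)
    {v : ℝ × ℝ → ℝ} (hv : EP l v) (hvu : ∀ y ∈ box l, |v y - upot X ψ y| ≤ δ) (i : ι) :
    (1 - χ (X i)) * ψ i ≤ 4 * av l (fun y => 1 - χ y) (X i) + 16 * (M / w) -
      av l (fun y => (1 - χ y) * v y) (X i) +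
        (4 * (M / w) * av l (fun y => |upot X ψ y|) (X i) + δ) := by
  have hl0 : 0 < l := by linarith
  have hMw : 0 ≤ M / w := by
    have h1 := hχ.grad 0
    have h2 : 0 ≤ gabs χ 0 := by unfold gabs; positivity
    linarith
  have hχc := hχ.ep.cont
  have hgrad : Grad χ (M / w) := fun y => by
    have h1 := hχ.grad y
    unfold gabs at h1
    exact ⟨by linarith [abs_nonneg (D2 χ y)], by linarith [abs_nonneg (D1 χ y)]⟩
  obtain ⟨hx1, hsub, hdist, -, -⟩ := ssq_spec hl1 (hX i)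
  have hlip : ∀ y ∈ ssq l (X i), |χ (X i) - χ y| ≤ 4 * (M / w) := by
    intro y hy
    have h1 := lip_of_Grad hχ.ep.smooth hgrad (X i) y
    have h2 := hdist y hy
    calc |χ (X i) - χ y| ≤ M / w * (|(X i).1 - y.1| + |(X i).2 - y.2|) := h1
      _ ≤ M / w * (2 + 2) := by
          gcongr
          · exact h2.1
          · exact h2.2
      _ = 4 * (M / w) := by ring
  have huc := upot_cont X ψ
  have hbox : ∀ y ∈ ssq l (X i), y ∈ box l := fun y hy =>
    ⟨⟨(hsub hy).1.1, (hsub hy).1.2.le⟩, ⟨(hsub hy).2.1, (hsub hy).2.2.le⟩⟩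
  have hη0 : 0 ≤ 1 - χ (X i) := by linarith [hχ.le_one (X i)]
  -- first part
  have s1 : 1 - χ (X i) ≤ av l (fun y => 1 - χ y) (X i) + 4 * (M / w) := by
    have c0 : Continuous fun y => 1 - χ y := continuous_const.sub hχc
    have c3 : Continuous fun y => (1 - χ y) + 4 * (M / w) := c0.add continuous_const
    have h1 : av l (fun _ => 1 - χ (X i)) (X i) ≤
        av l (fun y => (1 - χ y) + 4 * (M / w)) (X i) := by
      refine av_mono (f := fun _ => 1 - χ (X i)) (g := fun y => (1 - χ y) + 4 * (M / w))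
        hl1 continuous_const c3 (hX i) fun y hy => ?_
      have := (abs_le.1 (hlip y hy)).1
      show 1 - χ (X i) ≤ (1 - χ y) + 4 * (M / w)
      linarith
    rw [av_const hl1 _ (hX i), av_add (f := fun y => 1 - χ y) (g := fun _ => 4 * (M / w))
      hl1 c0 continuous_const (hX i), av_const hl1 _ (hX i)] at h1
    exact h1
  -- second part
  have s2 : -(1 - χ (X i)) * av l (upot X ψ) (X i) ≤ -1 * av l (fun y => (1 - χ y) * v y) (X i) +
      (4 * (M / w) * av l (fun y => |upot X ψ y|) (X i) + δ) := by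
    have c1 : Continuous fun y => (1 - χ y) * v y := (continuous_const.sub hχc).mul hv.cont
    have c2 : Continuous fun y => |upot X ψ y| := huc.abs
    have c3 : Continuous fun y => -(1 - χ (X i)) * upot X ψ y := continuous_const.mul huc
    have c4 : Continuous fun y => -1 * ((1 - χ y) * v y) := continuous_const.mul c1
    have c5 : Continuous fun y => 4 * (M / w) * |upot X ψ y| := continuous_const.mul c2
    have c6 : Continuous fun y => 4 * (M / w) * |upot X ψ y| + δ := c5.add continuous_const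
    have h1 : av l (fun y => -(1 - χ (X i)) * upot X ψ y) (X i) ≤
        av l (fun y => -1 * ((1 - χ y) * v y) + (4 * (M / w) * |upot X ψ y| + δ)) (X i) := by
      refine av_mono (f := fun y => -(1 - χ (X i)) * upot X ψ y)
        (g := fun y => -1 * ((1 - χ y) * v y) + (4 * (M / w) * |upot X ψ y| + δ)) hl1 c3
        (c4.add (c5.add continuous_const)) (hX i) fun y hy => ?_
      show -(1 - χ (X i)) * upot X ψ y ≤ -1 * ((1 - χ y) * v y) + (4 * (M / w) * |upot X ψ y| + δ)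
      have h2 := hlip y hy
      have h3 : (χ (X i) - χ y) * upot X ψ y ≤ 4 * (M / w) * |upot X ψ y| := by
        calc (χ (X i) - χ y) * upot X ψ y ≤ |(χ (X i) - χ y) * upot X ψ y| := le_abs_self _
          _ = |χ (X i) - χ y| * |upot X ψ y| := abs_mul _ _
          _ ≤ 4 * (M / w) * |upot X ψ y| := by gcongr
      have h4 := hvu y (hbox y hy)
      have h5 : 0 ≤ 1 - χ y := by linarith [hχ.le_one y]
      have h6 : 1 - χ y ≤ 1 := by linarith [hχ.nonneg y]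
      have h7 : (1 - χ y) * (v y - upot X ψ y) ≤ δ := by
        calc (1 - χ y) * (v y - upot X ψ y) ≤ (1 - χ y) * |v y - upot X ψ y| := by
              gcongr
              exact le_abs_self _
          _ ≤ 1 * δ := by gcongr
          _ = δ := one_mul δ
      nlinarith
    rw [O4c_av_mul, av_add (f := fun y => -1 * ((1 - χ y) * v y))
      (g := fun y => 4 * (M / w) * |upot X ψ y| + δ) hl1 c4 c6 (hX i), O4c_av_mul,
      av_add (f := fun y => 4 * (M / w) * |upot X ψ y|) (g := fun _ => δ) hl1 c5 continuous_const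
        (hX i), O4c_av_mul, av_const hl1 _ (hX i)] at h1
    exact h1
  have p1 := psi_le hl1 hX ψ i
  have p2 := mul_le_mul_of_nonneg_left p1 hη0
  nlinarith

/-- the final arithmetic -/
theorem O4c_arith {K l s C M C3 : ℝ} (hK : 1 ≤ K) (hs : 1 ≤ s) (hl : s ^ 32 ≤ l) (hC : 1 ≤ C)
    (hM : 1 ≤ M) (hC3 : 0 ≤ C3) :
    96 * K * (l * (l / s ^ 2)) + 32 * M * (s ^ 2 / l) * l ^ 2 + 4 * (1 / s ^ 8 * l ^ 2) +
      24 * K * (M * (s ^ 2 / l)) * (C * K ^ 5 * l ^ 3 / s ^ 4) +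
        C3 * K ^ 2 * (2 * (l / s) * ((8 * C + 4) * K ^ 2 * l) +
          M * (s ^ 2 / l) * (C * K ^ 5 * l ^ 3 / s ^ 4 + 1 / s ^ 8 * l ^ 2)) ≤
      (96 + 32 * M + 4 + 24 * M * C + C3 * (2 * (8 * C + 4) + M * C + M)) *
        K ^ 7 * (1 / s) * l ^ 2 := by
  have hs0 : 0 < s := by linarith
  have hl0 : 0 < l := lt_of_lt_of_le (by positivity) hl
  have hK0 : 0 < K := by linarith
  have k7 : 1 ≤ K ^ 7 := one_le_pow₀ hK
  have k1 : K ≤ K ^ 7 := by
    calc K = K ^ 1 := (pow_one K).symm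
      _ ≤ K ^ 7 := pow_le_pow_right₀ hK (by norm_num)
  have k6 : K ^ 6 ≤ K ^ 7 := pow_le_pow_right₀ hK (by norm_num)
  have k4 : K ^ 4 ≤ K ^ 7 := pow_le_pow_right₀ hK (by norm_num)
  have k2 : K ^ 2 ≤ K ^ 7 := pow_le_pow_right₀ hK (by norm_num)
  have s1 : 1 / s ^ 2 ≤ 1 / s := by
    apply one_div_le_one_div_of_le hs0
    nlinarith
  have s8 : 1 / s ^ 8 ≤ 1 / s := by
    apply one_div_le_one_div_of_le hs0
    calc s = s ^ 1 := (pow_one s).symm
      _ ≤ s ^ 8 := pow_le_pow_right₀ hs (by norm_num)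
  have sl : s ^ 3 ≤ l := (pow_le_pow_right₀ hs (by norm_num)).trans hl
  have l1 : 1 ≤ l := (one_le_pow₀ hs).trans hl
  have t1 : 96 * K * (l * (l / s ^ 2)) ≤ 96 * (K ^ 7 * (1 / s) * l ^ 2) := by
    calc 96 * K * (l * (l / s ^ 2)) = 96 * (K * (1 / s ^ 2) * l ^ 2) := by ring
      _ ≤ 96 * (K ^ 7 * (1 / s) * l ^ 2) := by gcongr
  have t2 : 32 * M * (s ^ 2 / l) * l ^ 2 ≤ 32 * M * (K ^ 7 * (1 / s) * l ^ 2) := by
    have h1 : s ^ 2 / l ≤ 1 / s := by
      rw [div_le_div_iff₀ hl0 hs0]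
      calc s ^ 2 * s = s ^ 3 := by ring
        _ ≤ 1 * l := by linarith
    calc 32 * M * (s ^ 2 / l) * l ^ 2 ≤ 32 * M * (1 / s) * l ^ 2 := by gcongr
      _ = 32 * M * (1 * (1 / s) * l ^ 2) := by ring
      _ ≤ 32 * M * (K ^ 7 * (1 / s) * l ^ 2) := by gcongr
  have t3 : 4 * (1 / s ^ 8 * l ^ 2) ≤ 4 * (K ^ 7 * (1 / s) * l ^ 2) := by
    calc 4 * (1 / s ^ 8 * l ^ 2) = 4 * (1 * (1 / s ^ 8) * l ^ 2) := by ring
      _ ≤ 4 * (K ^ 7 * (1 / s) * l ^ 2) := by gcongr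
  have t4 : 24 * K * (M * (s ^ 2 / l)) * (C * K ^ 5 * l ^ 3 / s ^ 4) ≤
      24 * M * C * (K ^ 7 * (1 / s) * l ^ 2) := by
    calc 24 * K * (M * (s ^ 2 / l)) * (C * K ^ 5 * l ^ 3 / s ^ 4)
        = 24 * M * C * (K ^ 6 * (1 / s ^ 2) * l ^ 2) := by field_simp
      _ ≤ 24 * M * C * (K ^ 7 * (1 / s) * l ^ 2) := by gcongr
  have t5 : C3 * K ^ 2 * (2 * (l / s) * ((8 * C + 4) * K ^ 2 * l)) ≤
      C3 * (2 * (8 * C + 4)) * (K ^ 7 * (1 / s) * l ^ 2) := by
    calc C3 * K ^ 2 * (2 * (l / s) * ((8 * C + 4) * K ^ 2 * l))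
        = C3 * (2 * (8 * C + 4)) * (K ^ 4 * (1 / s) * l ^ 2) := by ring
      _ ≤ C3 * (2 * (8 * C + 4)) * (K ^ 7 * (1 / s) * l ^ 2) := by gcongr
  have t6 : C3 * K ^ 2 * (M * (s ^ 2 / l) * (C * K ^ 5 * l ^ 3 / s ^ 4)) ≤
      C3 * (M * C) * (K ^ 7 * (1 / s) * l ^ 2) := by
    calc C3 * K ^ 2 * (M * (s ^ 2 / l) * (C * K ^ 5 * l ^ 3 / s ^ 4))
        = C3 * (M * C) * (K ^ 7 * (1 / s ^ 2) * l ^ 2) := by field_simp
      _ ≤ C3 * (M * C) * (K ^ 7 * (1 / s) * l ^ 2) := by gcongr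
  have t7 : C3 * K ^ 2 * (M * (s ^ 2 / l) * (1 / s ^ 8 * l ^ 2)) ≤
      C3 * M * (K ^ 7 * (1 / s) * l ^ 2) := by
    have h1 : 1 / s ^ 6 ≤ 1 / s := by
      apply one_div_le_one_div_of_le hs0
      calc s = s ^ 1 := (pow_one s).symm
        _ ≤ s ^ 6 := pow_le_pow_right₀ hs (by norm_num)
    have h2 : l ≤ l ^ 2 := by nlinarith
    calc C3 * K ^ 2 * (M * (s ^ 2 / l) * (1 / s ^ 8 * l ^ 2))
        = C3 * M * (K ^ 2 * (1 / s ^ 6) * l) := by field_simp
      _ ≤ C3 * M * (K ^ 7 * (1 / s) * l ^ 2) := by gcongr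
  calc _ = 96 * K * (l * (l / s ^ 2)) + 32 * M * (s ^ 2 / l) * l ^ 2 + 4 * (1 / s ^ 8 * l ^ 2) +
      24 * K * (M * (s ^ 2 / l)) * (C * K ^ 5 * l ^ 3 / s ^ 4) +
        (C3 * K ^ 2 * (2 * (l / s) * ((8 * C + 4) * K ^ 2 * l)) +
          C3 * K ^ 2 * (M * (s ^ 2 / l) * (C * K ^ 5 * l ^ 3 / s ^ 4)) +
          C3 * K ^ 2 * (M * (s ^ 2 / l) * (1 / s ^ 8 * l ^ 2))) := by ring
    _ ≤ 96 * (K ^ 7 * (1 / s) * l ^ 2) + 32 * M * (K ^ 7 * (1 / s) * l ^ 2) +
        4 * (K ^ 7 * (1 / s) * l ^ 2) + 24 * M * C * (K ^ 7 * (1 / s) * l ^ 2) +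
        (C3 * (2 * (8 * C + 4)) * (K ^ 7 * (1 / s) * l ^ 2) +
          C3 * (M * C) * (K ^ 7 * (1 / s) * l ^ 2) + C3 * M * (K ^ 7 * (1 / s) * l ^ 2)) := by
        linarith
    _ = _ := by ring

/-- `J_c` -/
theorem J_bd : ∀ M : ℝ, 1 ≤ M → ∃ C K0 : ℝ, 0 < C ∧ 1 ≤ K0 ∧ ∀ (K l t w : ℝ) {ι : Type} [Fintype ι]
    (X : ι → ℝ × ℝ) (ψ : ι → ℝ) (T : ℝ × ℝ → ι) (χ : ℝ × ℝ → ℝ), Reg K l X → K0 ≤ K →
    K ^ 16 ≤ t → t ^ 4 ≤ l → w = l * t ^ (-(1 / 4) : ℝ) → Cut l w M χ →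
    IsOpt l X (rho l t X) ψ T → ∫ y in box l, upot X ψ y = 0 →
    ∑ i, (1 - χ (X i)) * ψ i + ∫ y in box l, (1 - χ y) * upot X ψ y * rho l t X y ≤
      C * K ^ 7 * t ^ (-(1 / 8) : ℝ) * l ^ 2 := by
  intro M hM
  obtain ⟨C, K0, hC, hK0, hb⟩ := O4c_basic
  obtain ⟨C3, hC3, hdisc1⟩ := disc1
  obtain ⟨C4, hC4, hdiscP⟩ := disc_P
  refine ⟨96 + 32 * M + 4 + 24 * M * C + (C3 + C4) * (2 * (8 * C + 4) + M * C + M), K0,
    by positivity, by linarith, ?_⟩
  intro K l t w ι _ X ψ T χ hR hK ht hl hw hχ hopt h0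
  obtain ⟨hsqd, hW, hr2, hpot⟩ := hb K l t X ψ T hR hK ht hl hopt h0
  obtain ⟨ht1, hKt, hK8, htl, htl2, h2Kl, hl1, hK4l⟩ := O4c_params (hK0.trans hK) ht hl
  have hK1 : 1 ≤ K := by linarith
  have hl0 : 0 < l := by linarith
  have ht0 : 0 < t := by linarith
  have hrc : Continuous (rho l t X) := (rho_EP hl0 ht0 X).cont
  have hC0 : 0 < C := by linarith
  -- the parameter `s`
  set s : ℝ := t ^ (1 / 8 : ℝ) with hs
  have hs0 : 0 < s := Real.rpow_pos_of_pos ht0 _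
  have hs1 : 1 ≤ s := Real.one_le_rpow ht1 (by norm_num)
  have hs8 : s ^ 8 = t := by
    rw [hs, ← Real.rpow_natCast, ← Real.rpow_mul ht0.le]
    norm_num
  have hs2 : t ^ (-(1 / 4) : ℝ) = 1 / s ^ 2 := by
    rw [hs, ← Real.rpow_natCast, ← Real.rpow_mul ht0.le, Real.rpow_neg ht0.le, one_div]
    norm_num
  have hs1' : t ^ (-(1 / 8) : ℝ) = 1 / s := by
    rw [Real.rpow_neg ht0.le, ← hs]
    exact (one_div s).symm
  have hs32 : s ^ 32 ≤ l := by
    calc s ^ 32 = (s ^ 8) ^ 4 := by ring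
      _ = t ^ 4 := by rw [hs8]
      _ ≤ l := hl
  rw [hs2] at hw
  rw [hs1']
  have hw0 : 0 < w := by rw [hw]; positivity
  have hMw : M / w = M * (s ^ 2 / l) := by rw [hw]; field_simp
  have hMw0 : 0 ≤ M / w := by positivity
  have hwl : w * l = l * (l / s ^ 2) := by rw [hw]; ring
  -- number of points
  set N : ℝ := (Fintype.card ι : ℝ) with hN
  have hN2 : N ≤ 2 * l ^ 2 := by
    have := (lam_two hR h2Kl).2
    rwa [div_le_iff₀ (by positivity)] at this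
  have hN0 : 0 ≤ N := Nat.cast_nonneg _
  -- smoothing
  set δ : ℝ := 1 / t with hδ
  have hδ0 : 0 < δ := by positivity
  have hδ1 : δ ≤ 1 := by rw [hδ, div_le_one ht0]; exact ht1
  have hδs : δ = 1 / s ^ 8 := by rw [hδ, hs8]
  obtain ⟨v, hv, hvu, hvg, -⟩ := smooth_pot hl0 hopt hδ0
  have huc := upot_cont X ψ
  have hχc := hχ.ep.cont
  have hη : EP l (fun y => 1 - χ y) := EP_sub (EP_const l 1) hχ.ep
  have hηv : EP l (fun y => (1 - χ y) * v y) := EP_mul hη hv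
  have hη0 : ∀ y, 0 ≤ 1 - χ y := fun y => by linarith [hχ.le_one y]
  have hη1 : ∀ y, 1 - χ y ≤ 1 := fun y => by linarith [hχ.nonneg y]
  -- sum over the points
  have hsum : ∑ i, (1 - χ (X i)) * ψ i ≤ 4 * ∑ i, av l (fun y => 1 - χ y) (X i) +
      16 * (M / w) * N - ∑ i, av l (fun y => (1 - χ y) * v y) (X i) +
        (4 * (M / w) * ∑ i, av l (fun y => |upot X ψ y|) (X i) + δ * N) := by
    have h1 := Finset.sum_le_sum fun i (_ : i ∈ Finset.univ) =>
      O4c_point hl1 hR.mem ψ hχ hv hvu i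
    simp only [Finset.sum_add_distrib, Finset.sum_sub_distrib, ← Finset.mul_sum,
      Finset.sum_const, Finset.card_univ, nsmul_eq_mul] at h1
    rw [← hN] at h1
    linarith
  have S1 : ∑ i, av l (fun y => 1 - χ y) (X i) ≤ 6 * K * (4 * (w * l)) := by
    refine (sum_av_le hR hη.cont fun y _ => hη0 y).trans ?_
    have := O4c_eta_int hl0 hw0 hχ
    gcongr
  have S2 : ∑ i, av l (fun y => |upot X ψ y|) (X i) ≤ 6 * K * ∫ y in box l, |upot X ψ y| :=
    sum_av_le hR huc.abs fun y _ => abs_nonneg _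
  -- the L1 norm of `u`
  have hone : √(∫ _y in box l, (1 : ℝ) ^ 2) = l := by
    rw [one_pow, O4c_int_one hl0.le, Real.sqrt_sq hl0.le]
  have hU : ∫ y in box l, |upot X ψ y| ≤ C * K ^ 5 * l ^ 3 / s ^ 4 := by
    have h1 := cs_box (L := l) huc.abs (continuous_const (y := (1 : ℝ)))
    simp only [mul_one, sq_abs] at h1
    rw [hone] at h1
    have h2 : √(∫ y in box l, upot X ψ y ^ 2) ≤ C * K ^ 5 * l ^ 2 / s ^ 4 := by
      refine Real.sqrt_le_iff.2 ⟨by positivity, hpot.trans ?_⟩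
      rw [← hs8]
      calc C * K ^ 10 * l ^ 4 / s ^ 8 ≤ C ^ 2 * K ^ 10 * l ^ 4 / s ^ 8 := by
            gcongr
            nlinarith
        _ = (C * K ^ 5 * l ^ 2 / s ^ 4) ^ 2 := by ring
    calc ∫ y in box l, |upot X ψ y| ≤ abs (∫ y in box l, |upot X ψ y|) := le_abs_self _
      _ ≤ √(∫ y in box l, upot X ψ y ^ 2) * l := h1
      _ ≤ C * K ^ 5 * l ^ 2 / s ^ 4 * l := by gcongr
      _ = C * K ^ 5 * l ^ 3 / s ^ 4 := by ring
  have hVv : ∫ y in box l, |v y| ≤ C * K ^ 5 * l ^ 3 / s ^ 4 + 1 / s ^ 8 * l ^ 2 := by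
    have h1 : (∫ y in box l, |v y|) ≤ ∫ y in box l, (|upot X ψ y| + δ) := by
      refine setIntegral_mono_on (B2_cont_int hv.cont.abs)
        (B2_cont_int (huc.abs.add continuous_const)) (B2_meas_box l) fun y hy => ?_
      have h2 := hvu y hy
      calc |v y| = |(v y - upot X ψ y) + upot X ψ y| := by ring_nf
        _ ≤ |v y - upot X ψ y| + |upot X ψ y| := abs_add_le _ _
        _ ≤ |upot X ψ y| + δ := by linarith
    rw [integral_add (B2_cont_int huc.abs) (B2_cont_int continuous_const),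
      O4c_int_const hl0.le] at h1
    rw [← hδs]
    linarith
  -- the gradient of `η v`
  have hG : ∫ y in box l, gabs (fun y => (1 - χ y) * v y) y ≤
      2 * (l / s) * ((8 * C + 4) * K ^ 2 * l) +
        M * (s ^ 2 / l) * (C * K ^ 5 * l ^ 3 / s ^ 4 + 1 / s ^ 8 * l ^ 2) := by
    have hgv : Continuous (gabs v) := (CP_gabs hv).cont
    have h1 : ∫ y in box l, gabs (fun y => (1 - χ y) * v y) y ≤
        ∫ y in box l, ((1 - χ y) * gabs v y + M / w * |v y|) := by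
      refine setIntegral_mono_on (B2_cont_int (CP_gabs hηv).cont)
        (B2_cont_int ((hη.cont.mul hgv).add (continuous_const.mul hv.cont.abs)))
        (B2_meas_box l) fun y _ => ?_
      have h2 := O4c_gabs_mul hη.smooth hv.smooth y
      rw [O4c_gabs_eta, abs_of_nonneg (hη0 y)] at h2
      have h3 := mul_le_mul_of_nonneg_left (hχ.grad y) (abs_nonneg (v y))
      linarith
    have j1 : IntegrableOn (fun y => (1 - χ y) * gabs v y) (box l) :=
      B2_cont_int (hη.cont.mul hgv)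
    have j2 : IntegrableOn (fun y => M / w * |v y|) (box l) :=
      B2_cont_int (continuous_const.mul hv.cont.abs)
    rw [integral_add j1 j2, integral_const_mul] at h1
    have h2 := cs_box (L := l) hη.cont hgv
    have h3 : √(∫ y in box l, (1 - χ y) ^ 2) ≤ 2 * (l / s) := by
      refine Real.sqrt_le_iff.2 ⟨by positivity, ?_⟩
      have h4 : ∫ y in box l, (1 - χ y) ^ 2 ≤ ∫ y in box l, (1 - χ y) :=
        setIntegral_mono_on (B2_cont_int (hη.cont.pow 2)) (B2_cont_int hη.cont)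
          (B2_meas_box l) fun y _ => by nlinarith [hη0 y, hη1 y]
      have h5 := O4c_eta_int hl0 hw0 hχ
      rw [hwl] at h5
      calc ∫ y in box l, (1 - χ y) ^ 2 ≤ 4 * (l * (l / s ^ 2)) := h4.trans h5
        _ = (2 * (l / s)) ^ 2 := by ring
    have h6 : √(∫ y in box l, gabs v y ^ 2) ≤ (8 * C + 4) * K ^ 2 * l := by
      refine Real.sqrt_le_iff.2 ⟨by positivity, ?_⟩
      have h7 := int_gsq_le hopt hrc (fun y _ => (hr2 y).1) hv hvg
      have h8 : ∫ y in box l, gabs v y ^ 2 ≤ ∫ y in box l, 2 * gsq v y :=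
        setIntegral_mono_on (B2_cont_int (hgv.pow 2))
          (B2_cont_int (continuous_const.mul (EP_gsq hv).cont)) (B2_meas_box l)
          fun y _ => gabs_le_gsq v y
      rw [integral_const_mul] at h8
      have hK4 : 1 ≤ K ^ 4 := one_le_pow₀ hK1
      have hl2 : 1 ≤ l ^ 2 := one_le_pow₀ hl1
      have h9 : 1 ≤ K ^ 4 * l ^ 2 := by nlinarith
      calc ∫ y in box l, gabs v y ^ 2 ≤ 2 * (4 * W l X (rho l t X) + 2 * δ) := by linarith
        _ ≤ 2 * (4 * (C * K ^ 4 * l ^ 2) + 2 * (K ^ 4 * l ^ 2)) := by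
            have : δ ≤ K ^ 4 * l ^ 2 := hδ1.trans h9
            linarith
        _ = (8 * C + 4) * (K ^ 4 * l ^ 2) := by ring
        _ ≤ (8 * C + 4) ^ 2 * (K ^ 4 * l ^ 2) := by
            gcongr
            nlinarith
        _ = ((8 * C + 4) * K ^ 2 * l) ^ 2 := by ring
    have h10 : ∫ y in box l, (1 - χ y) * gabs v y ≤
        2 * (l / s) * ((8 * C + 4) * K ^ 2 * l) := by
      refine (le_abs_self _).trans (h2.trans ?_)
      gcongr
    have h11 : M / w * ∫ y in box l, |v y| ≤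
        M * (s ^ 2 / l) * (C * K ^ 5 * l ^ 3 / s ^ 4 + 1 / s ^ 8 * l ^ 2) := by
      rw [hMw]
      gcongr
    linarith
  have hG0 : 0 ≤ ∫ y in box l, gabs (fun y => (1 - χ y) * v y) y :=
    integral_nonneg fun y => by unfold gabs; positivity
  -- the discrepancy estimates
  have hD := hdisc1 K l X hR (fun y => (1 - χ y) * v y) (hηv.smooth.of_le (by simp))
  have hE := hdiscP K l X hR (fun y => (1 - χ y) * v y) hηv t ht1
  rw [← int_mul_rho hl0 ht0 X hηv.toCP] at hE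
  have hD' := (abs_le.1 hD).1
  have hE' := (abs_le.1 hE).2
  -- the integral
  have hI : ∫ y in box l, (1 - χ y) * upot X ψ y * rho l t X y ≤
      (∫ y in box l, (1 - χ y) * v y * rho l t X y) + l ^ 2 * (2 * δ) := by
    have i1 : IntegrableOn (fun y => (1 - χ y) * upot X ψ y * rho l t X y) (box l) :=
      B2_cont_int ((hη.cont.mul huc).mul hrc)
    have i2 : IntegrableOn (fun y => (1 - χ y) * v y * rho l t X y) (box l) :=
      B2_cont_int ((hη.cont.mul hv.cont).mul hrc)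
    have h1 : ∫ y in box l, (1 - χ y) * upot X ψ y * rho l t X y ≤
        ∫ y in box l, ((1 - χ y) * v y * rho l t X y + 2 * δ) := by
      refine setIntegral_mono_on i1 (i2.add (B2_cont_int continuous_const)) (B2_meas_box l)
        fun y hy => ?_
      have h2 := (abs_le.1 (hvu y hy)).1
      have h3 : 0 ≤ rho l t X y := by linarith [(hr2 y).1]
      have h4 : (1 - χ y) * (upot X ψ y - v y) * rho l t X y ≤ 1 * δ * 2 := by
        have h5 : (1 - χ y) * (upot X ψ y - v y) ≤ 1 * δ := by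
          calc (1 - χ y) * (upot X ψ y - v y) ≤ (1 - χ y) * δ := by
                gcongr
                · exact hη0 y
                · linarith
            _ ≤ 1 * δ := by
                gcongr
                exact hη1 y
        calc (1 - χ y) * (upot X ψ y - v y) * rho l t X y ≤ 1 * δ * rho l t X y := by gcongr
          _ ≤ 1 * δ * 2 := by
              gcongr
              exact (hr2 y).2
      linarith
    rw [integral_add i2 (B2_cont_int continuous_const), O4c_int_const hl0.le] at h1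
    exact h1
  -- assembly
  have A := O4c_arith (C3 := C3 + C4) hK1 hs1 hs32 hC hM (by positivity)
  have B1 : 4 * ∑ i, av l (fun y => 1 - χ y) (X i) ≤ 96 * K * (l * (l / s ^ 2)) := by
    rw [hwl] at S1
    linarith
  have B2 : 16 * (M / w) * N ≤ 32 * M * (s ^ 2 / l) * l ^ 2 := by
    calc 16 * (M / w) * N ≤ 16 * (M / w) * (2 * l ^ 2) := by gcongr
      _ = 32 * M * (s ^ 2 / l) * l ^ 2 := by rw [hMw]; ring
  have B3 : δ * N + l ^ 2 * (2 * δ) ≤ 4 * (1 / s ^ 8 * l ^ 2) := by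
    rw [← hδs]
    have : δ * N ≤ δ * (2 * l ^ 2) := by gcongr
    linarith
  have B4 : 4 * (M / w) * ∑ i, av l (fun y => |upot X ψ y|) (X i) ≤
      24 * K * (M * (s ^ 2 / l)) * (C * K ^ 5 * l ^ 3 / s ^ 4) := by
    calc 4 * (M / w) * ∑ i, av l (fun y => |upot X ψ y|) (X i)
        ≤ 4 * (M / w) * (6 * K * (C * K ^ 5 * l ^ 3 / s ^ 4)) := by
          have : 6 * K * ∫ y in box l, |upot X ψ y| ≤ 6 * K * (C * K ^ 5 * l ^ 3 / s ^ 4) := by
            gcongr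
          have h5 := S2.trans this
          gcongr
      _ = 24 * K * (M * (s ^ 2 / l)) * (C * K ^ 5 * l ^ 3 / s ^ 4) := by rw [hMw]; ring
  have B5 : (C3 + C4) * K ^ 2 * ∫ y in box l, gabs (fun y => (1 - χ y) * v y) y ≤
      (C3 + C4) * K ^ 2 * (2 * (l / s) * ((8 * C + 4) * K ^ 2 * l) +
        M * (s ^ 2 / l) * (C * K ^ 5 * l ^ 3 / s ^ 4 + 1 / s ^ 8 * l ^ 2)) := by gcongr
  have B6 : (C3 + C4) * K ^ 2 * (∫ y in box l, gabs (fun y => (1 - χ y) * v y) y) =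
      C3 * K ^ 2 * (∫ y in box l, gabs (fun y => (1 - χ y) * v y) y) +
      C4 * K ^ 2 * (∫ y in box l, gabs (fun y => (1 - χ y) * v y) y) := by ring
  linarith

end Pool.Agent.Lib.H77M
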