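import Pool.Agent.Lib.H77M.O2
import Pool.Agent.Lib.H77M.O4a
import Pool.Agent.Lib.H77M.A8

/-!
# Project H77M, chunk O4d: the density of the big box against the density of the cell
-/

open MeasureTheory Set ProbabilityTheory
open scoped ContDiff

namespace Pool.Agent.Lib.H77M

theorem O4d_compact (l : ℝ) : IsCompact (box l) := isCompact_Icc.prod isCompact_Icc

theorem O4d_meas (l : ℝ) : MeasurableSet (box l) := measurableSet_Icc.prod measurableSet_Icc

theorem O4d_vol {l : ℝ} (hl : 0 ≤ l) : (volume (box l)).toReal = l ^ 2 := by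
  unfold box
  rw [Measure.volume_eq_prod, Measure.prod_prod, Real.volume_Icc, sub_zero, ENNReal.toReal_mul,
    ENNReal.toReal_ofReal hl]
  ring

theorem O4d_int {l : ℝ} {f : ℝ × ℝ → ℝ} (hf : Continuous f) : IntegrableOn f (box l) :=
  hf.continuousOn.integrableOn_compact (O4d_compact l)

/-- the exponential is at most `2048 / l ^ 2` -/
theorem O4d_exp {l t w : ℝ} (ht : 1 ≤ t) (htl : t ^ 4 ≤ l) (hw : w = l * t ^ (-(1 / 4) : ℝ)) :
    Real.exp (-(w / 2) ^ 2 / (8 * t)) ≤ 2048 / l ^ 2 := by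
  have ht0 : 0 < t := by linarith
  have hl1 : 1 ≤ l := (one_le_pow₀ ht).trans htl
  have hl0 : 0 < l := by linarith
  have h1 : (t ^ (-(1 / 4) : ℝ)) ^ 2 * t ^ (1 / 2 : ℝ) = 1 := by
    rw [← Real.rpow_natCast, ← Real.rpow_mul ht0.le, ← Real.rpow_add ht0]
    norm_num
  have h2 : t ^ (1 / 2 : ℝ) ≤ t := by
    conv_rhs => rw [← Real.rpow_one t]
    exact Real.rpow_le_rpow_of_exponent_le ht (by norm_num)
  have h3 : 1 / t ≤ (t ^ (-(1 / 4) : ℝ)) ^ 2 := by
    rw [div_le_iff₀ ht0]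
    have : 0 ≤ (t ^ (-(1 / 4) : ℝ)) ^ 2 := by positivity
    calc (1 : ℝ) = (t ^ (-(1 / 4) : ℝ)) ^ 2 * t ^ (1 / 2 : ℝ) := h1.symm
      _ ≤ (t ^ (-(1 / 4) : ℝ)) ^ 2 * t := by gcongr
  have h4 : l ≤ w ^ 2 / t := by
    rw [le_div_iff₀ ht0, hw, mul_pow]
    have h5 : l * t ≤ l ^ 2 * (1 / t) := by
      rw [mul_one_div, le_div_iff₀ ht0]
      have : t ^ 2 ≤ l := by
        refine le_trans ?_ htl
        exact pow_le_pow_right₀ ht (by norm_num)
      nlinarith
    refine h5.trans ?_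
    gcongr
  have h6 : -(w / 2) ^ 2 / (8 * t) ≤ -(l / 32) := by
    have : -(w / 2) ^ 2 / (8 * t) = -(w ^ 2 / t) / 32 := by
      field_simp
      ring
    rw [this]
    linarith
  refine (Real.exp_le_exp.2 h6).trans ?_
  rw [Real.exp_neg, inv_eq_one_div, div_le_div_iff₀ (Real.exp_pos _) (by positivity)]
  have h7 := Real.quadratic_le_exp_of_nonneg (show 0 ≤ l / 32 by positivity)
  nlinarith

/-- `rho_lock` with `d = w / 2` (if `χ y ≠ 0` then `y` is at distance at least `w / 2` from the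
boundary), `rho_two` at time `2 t`, `pot_small`; the exponential is at most `C / l ^ 2` -/
theorem lock_bd : ∀ M : ℝ, 1 ≤ M → ∃ C K0 : ℝ, 0 < C ∧ 1 ≤ K0 ∧ ∀ (K l t w : ℝ) (k : ℕ) {ι : Type}
    [Fintype ι] (X : ι → ℝ × ℝ) (a b : ℕ) (ψ : CI l X a b → ℝ) (T : ℝ × ℝ → CI l X a b)
    (χ : ℝ × ℝ → ℝ), Good K l k X → a < k → b < k → K0 ≤ K → K ^ 16 ≤ t → t ^ 4 ≤ l →
    w = l * t ^ (-(1 / 4) : ℝ) → Cut l w M χ →
    IsOpt l (CX l X a b) (rho l t (CX l X a b)) ψ T →
    ∫ y in box l, upot (CX l X a b) ψ y = 0 →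
    |(∫ y in box l, χ y * upot (CX l X a b) ψ y * rho (k * l) t X (y.1 + a * l, y.2 + b * l)) -
      ∫ y in box l, χ y * upot (CX l X a b) ψ y * rho l t (CX l X a b) y| ≤ C * l := by
  intro M _
  obtain ⟨C1, K1, hC1, hK1, h1⟩ := pot_small
  obtain ⟨K2, hK2, h2⟩ := rho_two
  refine ⟨16384 * √C1, max (max K1 K2) 2, by positivity,
    le_max_of_le_left (le_max_of_le_left hK1), ?_⟩
  intro K l t w k ι _ X a b ψ T χ hG hak hbk hK hKt htl hw hχ hopt h0
  have hKK1 : K1 ≤ K := (le_max_left _ _).trans ((le_max_left _ _).trans hK)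
  have hKK2 : K2 ≤ K := (le_max_right _ _).trans ((le_max_left _ _).trans hK)
  have hKtwo : 2 ≤ K := (le_max_right _ _).trans hK
  have hK1' : 1 ≤ K := hK1.trans hKK1
  have ht1 : 1 ≤ t := (one_le_pow₀ hK1').trans hKt
  have ht0 : 0 < t := by linarith
  have hl1 : 1 ≤ l := (one_le_pow₀ ht1).trans htl
  have hl0 : 0 < l := by linarith
  have hk1 : (1 : ℝ) ≤ k := by
    have : 1 ≤ k := by omega
    exact_mod_cast this
  have hkl : l ≤ k * l := by nlinarith
  have hkl0 : 0 < (k : ℝ) * l := by linarith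
  have hw0 : 0 ≤ w := by rw [hw]; positivity
  have htt : t ≤ t ^ 4 := le_self_pow₀ ht1 (by norm_num)
  have htl' : t ≤ l := htt.trans htl
  have hK8 : K ^ 8 ≤ 2 * t := by
    have : K ^ 8 ≤ K ^ 16 := pow_le_pow_right₀ hK1' (by norm_num)
    linarith
  have h2t : 2 * t ≤ l ^ 2 := by
    have h3 : l ≤ l ^ 2 := le_self_pow₀ hl1 (by norm_num)
    have ht2 : 2 ≤ t := by
      have : K ≤ K ^ 16 := le_self_pow₀ hK1' (by norm_num)
      linarith
    have h4 : t ^ 2 ≤ t ^ 4 := pow_le_pow_right₀ ht1 (by norm_num)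
    nlinarith
  have h2t' : 2 * t ≤ (k * l) ^ 2 := h2t.trans (pow_le_pow_left₀ hl0.le hkl 2)
  have hR := hG.2 a hak b hbk
  set u : ℝ × ℝ → ℝ := upot (CX l X a b) ψ with hu
  have hucont : Continuous u := upot_cont _ _
  have hχcont : Continuous χ := hχ.ep.cont
  have hrb : Continuous (fun y : ℝ × ℝ => rho (k * l) t X (y.1 + a * l, y.2 + b * l)) := by
    have := (rho_EP hkl0 ht0 X).cont
    fun_prop
  have hrc : Continuous (rho l t (CX l X a b)) := (rho_EP hl0 ht0 _).cont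
  have hI1 : IntegrableOn (fun y => χ y * u y * rho (k * l) t X (y.1 + a * l, y.2 + b * l))
      (box l) := O4d_int ((hχcont.mul hucont).mul hrb)
  have hI2 : IntegrableOn (fun y => χ y * u y * rho l t (CX l X a b) y) (box l) :=
    O4d_int ((hχcont.mul hucont).mul hrc)
  rw [← integral_sub hI1 hI2]
  set E := Real.exp (-(w / 2) ^ 2 / (8 * t)) with hE
  have hE0 : 0 < E := Real.exp_pos _
  have hpt : ∀ y ∈ box l, ‖χ y * u y * rho (k * l) t X (y.1 + a * l, y.2 + b * l) -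
      χ y * u y * rho l t (CX l X a b) y‖ ≤ 8 * E * |u y| := by
    intro y hy
    rw [← mul_sub, Real.norm_eq_abs, abs_mul, abs_mul]
    by_cases hz : y.1 ≤ w / 2 ∨ y.2 ≤ w / 2 ∨ l - w / 2 ≤ y.1 ∨ l - w / 2 ≤ y.2
    · rw [hχ.zero y hy hz]
      simp only [abs_zero, zero_mul]
      positivity
    · push Not at hz
      obtain ⟨z1, z2, z3, z4⟩ := hz
      have hlock := rho_lock (t := t) (d := w / 2) k hl0 ht0 (by positivity) X hG.1.mem a b hak hbk
        y ⟨z1.le, z3.le⟩ ⟨z2.le, z4.le⟩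
      have hb1 := (h2 K (k * l) X hG.1 hKK2 (2 * t) hK8 h2t' (y.1 + a * l, y.2 + b * l)).2
      have hb2 := (h2 K l (CX l X a b) hR hKK2 (2 * t) hK8 h2t y).2
      have hd : |rho (k * l) t X (y.1 + a * l, y.2 + b * l) - rho l t (CX l X a b) y| ≤ 8 * E := by
        refine hlock.trans ?_
        rw [← hE]
        nlinarith
      have hχ1 : |χ y| ≤ 1 := by
        rw [abs_of_nonneg (hχ.nonneg y)]
        exact hχ.le_one y
      calc |χ y| * |u y| * |rho (k * l) t X (y.1 + a * l, y.2 + b * l) - rho l t (CX l X a b) y|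
          ≤ 1 * |u y| * (8 * E) := by gcongr
        _ = 8 * E * |u y| := by ring
  have hI3 : IntegrableOn (fun y => 8 * E * |u y|) (box l) :=
    O4d_int (continuous_const.mul hucont.abs)
  have hint : ‖∫ y in box l, (χ y * u y * rho (k * l) t X (y.1 + a * l, y.2 + b * l) -
      χ y * u y * rho l t (CX l X a b) y)‖ ≤ ∫ y in box l, 8 * E * |u y| := by
    refine norm_integral_le_of_norm_le hI3 ?_
    filter_upwards [ae_restrict_mem (O4d_meas l)] with y hy
    exact hpt y hy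
  rw [Real.norm_eq_abs] at hint
  refine hint.trans ?_
  rw [integral_const_mul]
  have hcs := cs_one (L := l) (O4d_meas l) Subset.rfl hucont
  rw [O4d_vol hl0.le, Real.sqrt_sq hl0.le] at hcs
  have hps := h1 K l t (CX l X a b) ψ T hR hKK1 hKt htl hopt h0
  have hps' : ∫ y in box l, u y ^ 2 ≤ C1 * l ^ 4 := by
    refine hps.trans ?_
    rw [div_le_iff₀ ht0]
    have : K ^ 10 ≤ t := (pow_le_pow_right₀ hK1' (by norm_num)).trans hKt
    have h4 : 0 ≤ C1 * l ^ 4 := by positivity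
    nlinarith
  have hsq : √(∫ y in box l, u y ^ 2) ≤ √C1 * l ^ 2 := by
    refine (Real.sqrt_le_sqrt hps').trans ?_
    rw [Real.sqrt_mul hC1.le, show l ^ 4 = (l ^ 2) ^ 2 by ring, Real.sqrt_sq (by positivity)]
  have hexp := O4d_exp ht1 htl hw
  rw [← hE] at hexp
  calc 8 * E * ∫ y in box l, |u y| ≤ 8 * (2048 / l ^ 2) * (l * (√C1 * l ^ 2)) := by
        have : 0 ≤ ∫ y in box l, |u y| := integral_nonneg fun y => abs_nonneg _
        have h5 : ∫ y in box l, |u y| ≤ l * (√C1 * l ^ 2) := hcs.trans (by gcongr)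
        gcongr
    _ = 16384 * √C1 * l := by
        field_simp
        ring

end Pool.Agent.Lib.H77M
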