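import Pool.Agent.Lib.H77M.O4b
import Pool.Agent.Lib.H77M.O4c
import Pool.Agent.Lib.H77M.O4d
import Pool.Agent.Lib.H77M.B1

/-!
# Project H77M, chunk O4: Theorem 3 of PROOF.md, lower bound (combination)
-/

open MeasureTheory Set ProbabilityTheory
open scoped ContDiff

namespace Pool.Agent.Lib.H77M

/-- optimal potentials for `(X, rho)` -/
theorem O4_opt {K l t : ℝ} {ι : Type} [Fintype ι] {X : ι → ℝ × ℝ} (hR : Reg K l X) (ht : 0 < t)
    (hl0 : 0 < l) (hKl : K < l) : ∃ (ψ : ι → ℝ) (T : ℝ × ℝ → ι),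
      IsOpt l X (rho l t X) ψ T ∧ ∫ y in box l, upot X ψ y = 0 := by
  have hcard := Reg_card hR
  have hpos : (0 : ℝ) < Fintype.card ι := by
    have := (abs_le.1 hcard).1
    nlinarith
  have hne : Nonempty ι := by
    rw [← Fintype.card_pos_iff]
    exact_mod_cast hpos
  exact exists_opt hl0 hR.inj (rho_EP hl0 ht X).cont (fun y _ => rho_pos hl0 ht X y)
    (int_rho hl0 ht X)

theorem low : ∃ C K0 : ℝ, 0 < C ∧ 1 ≤ K0 ∧ ∀ (K l t : ℝ) (k : ℕ) {ι : Type} [Fintype ι]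
    (X : ι → ℝ × ℝ), Good K l k X → 1 ≤ k → K0 ≤ K → K ^ 16 ≤ t → t ^ 4 ≤ l →
    ∑ a ∈ Finset.range k, ∑ b ∈ Finset.range k, W l (CX l X a b) (rho l t (CX l X a b)) ≤
      W (k * l) X (rho (k * l) t X) + C * K ^ 7 * t ^ (-(1 / 8) : ℝ) * (k * l) ^ 2 := by
  obtain ⟨M, hM, hcut⟩ := cutoff
  obtain ⟨C1, hC1, hcal⟩ := calib
  obtain ⟨C2, K2, hC2, hK2, hV⟩ := V_bd
  obtain ⟨C3, K3, hC3, hK3, hJ⟩ := J_bd M hM
  obtain ⟨C4, K4, hC4, hK4, hlock⟩ := lock_bd M hM
  obtain ⟨C5, K5, hC5, hK5, hcr⟩ := crude_rho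
  obtain ⟨K6, hK6, hrho⟩ := rho_two
  refine ⟨2 * (C1 * M * √C5 * √C2 + C3 + C4), max (max (max K2 K3) (max K4 K5)) (max K6 2),
    by positivity, le_max_of_le_left (le_max_of_le_left (le_max_of_le_left hK2)), ?_⟩
  intro K l t k ι _ X hG hk hK hKt htl
  have hK2' : K2 ≤ K := (le_max_left _ _).trans ((le_max_left _ _).trans ((le_max_left _ _).trans hK))
  have hK3' : K3 ≤ K := (le_max_right _ _).trans ((le_max_left _ _).trans ((le_max_left _ _).trans hK))
  have hK4' : K4 ≤ K := (le_max_left _ _).trans ((le_max_right _ _).trans ((le_max_left _ _).trans hK))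
  have hK5' : K5 ≤ K := (le_max_right _ _).trans ((le_max_right _ _).trans ((le_max_left _ _).trans hK))
  have hK6' : K6 ≤ K := (le_max_left _ _).trans ((le_max_right _ _).trans hK)
  have hKtwo : 2 ≤ K := (le_max_right _ _).trans ((le_max_right _ _).trans hK)
  have hK1 : 1 ≤ K := by linarith
  have ht1 : 1 ≤ t := (one_le_pow₀ hK1).trans hKt
  have ht0 : 0 < t := by linarith
  have hl1 : 1 ≤ l := (one_le_pow₀ ht1).trans htl
  have hl0 : 0 < l := by linarith
  have hk1 : (1 : ℝ) ≤ k := by exact_mod_cast hk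
  have hkl : l ≤ k * l := by nlinarith
  have hkl0 : 0 < (k : ℝ) * l := by linarith
  have htt : t ≤ t ^ 4 := le_self_pow₀ ht1 (by norm_num)
  have htl' : t ≤ l := htt.trans htl
  have hll : l ≤ l ^ 2 := le_self_pow₀ hl1 (by norm_num)
  have hKt1 : K ≤ K ^ 16 := le_self_pow₀ hK1 (by norm_num)
  have ht256 : 256 ≤ t := by
    have : (2 : ℝ) ^ 16 ≤ K ^ 16 := pow_le_pow_left₀ (by norm_num) hKtwo 16
    norm_num at this
    linarith
  have hK8 : K ^ 8 ≤ t := (pow_le_pow_right₀ hK1 (by norm_num)).trans hKt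
  have hkl2 : l ^ 2 ≤ (k * l) ^ 2 := pow_le_pow_left₀ hl0.le hkl 2
  -- the width
  set w : ℝ := l * t ^ (-(1 / 4) : ℝ) with hw
  have hw0 : 0 < w := by rw [hw]; positivity
  have hwl : w ≤ l / 4 := by
    have h1 : t ^ (-(1 / 4) : ℝ) ≤ (256 : ℝ) ^ (-(1 / 4) : ℝ) :=
      Real.rpow_le_rpow_of_nonpos (by norm_num) ht256 (by norm_num)
    have h2 : (256 : ℝ) ^ (-(1 / 4) : ℝ) = 1 / 4 := by
      rw [show (256 : ℝ) = 4 ^ (4 : ℝ) by norm_num, ← Real.rpow_mul (by norm_num)]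
      norm_num
    rw [h2] at h1
    rw [hw]
    nlinarith
  obtain ⟨χ, hχ⟩ := hcut l w hw0 hwl
  -- the potentials
  have hKl : K < l := by
    have h1 : t < t ^ 4 := by
      have h5 : t ^ 2 ≤ t ^ 4 := pow_le_pow_right₀ ht1 (by norm_num)
      nlinarith
    linarith
  obtain ⟨ψ, T, hopt, -⟩ := O4_opt hG.1 ht0 hkl0 (hKl.trans_le hkl)
  have hex : ∀ a b : ℕ, ∃ f : CI l X a b → ℝ, a < k → b < k → ∃ T' : ℝ × ℝ → CI l X a b,
      IsOpt l (CX l X a b) (rho l t (CX l X a b)) f T' ∧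
        ∫ y in box l, upot (CX l X a b) f y = 0 := by
    intro a b
    by_cases hab : a < k ∧ b < k
    · obtain ⟨f, T', h1, h2⟩ := O4_opt (hG.2 a hab.1 b hab.2) ht0 hl0 hKl
      exact ⟨f, fun _ _ => ⟨T', h1, h2⟩⟩
    · exact ⟨fun _ => 0, fun h1 h2 => absurd ⟨h1, h2⟩ hab⟩
  choose f hf using hex
  have hrb := (rho_EP hkl0 ht0 X).cont
  have htL : t ≤ (k * l) ^ 2 := by linarith
  have hC := hcal l w M k X (rho (k * l) t X) ψ T χ f (fun a b => upot (CX l X a b) (f a b)) hl0 hw0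
    hM hG.1.mem hrb (fun y _ => ⟨by linarith [(hrho K (k * l) X hG.1 hK6' t hK8 htL y).1],
      (hrho K (k * l) X hG.1 hK6' t hK8 htL y).2⟩) hopt hχ (fun a _ b _ => upot_cont _ _)
    (fun a _ b _ i y _ => by
      have := upot_le (CX l X a b) (f a b) i y
      linarith)
  -- size of the cost
  have hWb := hcr K (k * l) X hG.1 hK5' t hK8 htL
  set Wb := W (k * l) X (rho (k * l) t X) with hWbdef
  set τ : ℝ := t ^ (-(1 / 8) : ℝ) with hτ
  have hτ0 : 0 < τ := Real.rpow_pos_of_pos ht0 _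
  have hsqW : √Wb ≤ √C5 * K ^ 2 * (k * l) := by
    refine (Real.sqrt_le_sqrt hWb).trans ?_
    rw [show C5 * K ^ 4 * (k * l) ^ 2 = C5 * (K ^ 2 * (k * l)) ^ 2 by ring,
      Real.sqrt_mul hC5.le, Real.sqrt_sq (by positivity)]
    exact le_of_eq (by ring)
  -- the sum of the squares
  have hVs : ∑ a ∈ Finset.range k, ∑ b ∈ Finset.range k, (∑ i : CI l X a b, f a b i ^ 2 +
      ∫ y in box l, upot (CX l X a b) (f a b) y ^ 2) ≤ k ^ 2 * (C2 * K ^ 10 * l ^ 4 / t) := by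
    have : ∑ a ∈ Finset.range k, ∑ b ∈ Finset.range k, (C2 * K ^ 10 * l ^ 4 / t) =
        k ^ 2 * (C2 * K ^ 10 * l ^ 4 / t) := by
      simp only [Finset.sum_const, Finset.card_range, nsmul_eq_mul]
      ring
    rw [← this]
    refine Finset.sum_le_sum fun a ha => Finset.sum_le_sum fun b hb => ?_
    have ha' := Finset.mem_range.1 ha
    have hb' := Finset.mem_range.1 hb
    obtain ⟨T', h1, h2⟩ := hf a b ha' hb'
    exact hV K l t (CX l X a b) (f a b) T' (hG.2 a ha' b hb') hK2' hKt htl h1 h2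
  have hsqV : √(∑ a ∈ Finset.range k, ∑ b ∈ Finset.range k, (∑ i : CI l X a b, f a b i ^ 2 +
      ∫ y in box l, upot (CX l X a b) (f a b) y ^ 2)) ≤ √C2 * K ^ 5 * (k * l ^ 2) / √t := by
    refine (Real.sqrt_le_sqrt hVs).trans ?_
    rw [show (k : ℝ) ^ 2 * (C2 * K ^ 10 * l ^ 4 / t) = C2 * (K ^ 5 * (k * l ^ 2)) ^ 2 / t by ring,
      Real.sqrt_div (by positivity), Real.sqrt_mul hC2.le, Real.sqrt_sq (by positivity)]
    exact le_of_eq (by ring)
  have hτ1 : t ^ (1 / 4 : ℝ) / √t ≤ τ := by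
    rw [Real.sqrt_eq_rpow, ← Real.rpow_sub ht0, hτ]
    exact Real.rpow_le_rpow_of_exponent_le ht1 (by norm_num)
  have hlw : l / w = t ^ (1 / 4 : ℝ) := by
    rw [hw, Real.rpow_neg ht0.le]
    field_simp
  have herr : C1 * M / w * √Wb * √(∑ a ∈ Finset.range k, ∑ b ∈ Finset.range k,
      (∑ i : CI l X a b, f a b i ^ 2 + ∫ y in box l, upot (CX l X a b) (f a b) y ^ 2)) ≤
      C1 * M * √C5 * √C2 * K ^ 7 * τ * (k * l) ^ 2 := by
    calc C1 * M / w * √Wb * √(∑ a ∈ Finset.range k, ∑ b ∈ Finset.range k,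
      (∑ i : CI l X a b, f a b i ^ 2 + ∫ y in box l, upot (CX l X a b) (f a b) y ^ 2))
        ≤ C1 * M / w * (√C5 * K ^ 2 * (k * l)) * (√C2 * K ^ 5 * (k * l ^ 2) / √t) := by
          gcongr
      _ = C1 * M * √C5 * √C2 * K ^ 7 * (k * l) ^ 2 * ((l / w) / √t) := by
          ring
      _ ≤ C1 * M * √C5 * √C2 * K ^ 7 * (k * l) ^ 2 * τ := by
          rw [hlw]
          gcongr
      _ = C1 * M * √C5 * √C2 * K ^ 7 * τ * (k * l) ^ 2 := by ring
  -- the cells
  have hlτ : l ≤ τ * l ^ 2 := by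
    have h1 : t⁻¹ ≤ τ := by
      rw [hτ, ← Real.rpow_neg_one]
      exact Real.rpow_le_rpow_of_exponent_le ht1 (by norm_num)
    have h2 : l ≤ t⁻¹ * l ^ 2 := by
      rw [inv_mul_eq_div, le_div_iff₀ ht0]
      nlinarith
    exact h2.trans (by gcongr)
  have hK7 : 1 ≤ K ^ 7 := one_le_pow₀ hK1
  have hcell : ∀ a ∈ Finset.range k, ∀ b ∈ Finset.range k,
      W l (CX l X a b) (rho l t (CX l X a b)) / 2 - (C3 + C4) * K ^ 7 * τ * l ^ 2 ≤
      ∑ i : CI l X a b, χ (CX l X a b i) * f a b i +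
        ∫ y in box l, χ y * upot (CX l X a b) (f a b) y * rho (k * l) t X
          (y.1 + a * l, y.2 + b * l) := by
    intro a ha b hb
    have ha' := Finset.mem_range.1 ha
    have hb' := Finset.mem_range.1 hb
    obtain ⟨T', h1, h2⟩ := hf a b ha' hb'
    have hR := hG.2 a ha' b hb'
    have hrc := (rho_EP hl0 ht0 (CX l X a b)).cont
    have hpos : ∀ y ∈ box l, 0 ≤ rho l t (CX l X a b) y := fun y _ => by
      linarith [(hrho K l (CX l X a b) hR hK6' t hK8 (by linarith) y).1]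
    have hdual := opt_dual h1 hrc hpos
    have hJ' := hJ K l t w (CX l X a b) (f a b) T' χ hR hK3' hKt htl rfl hχ h1 h2
    have hL' := hlock K l t w k X a b (f a b) T' χ hG ha' hb' hK4' hKt htl rfl hχ h1 h2
    have hL'' := (abs_le.1 hL').1
    have hu := upot_cont (CX l X a b) (f a b)
    have hχc := hχ.ep.cont
    have e1 : ∑ i : CI l X a b, (1 - χ (CX l X a b i)) * f a b i =
        ∑ i : CI l X a b, f a b i - ∑ i : CI l X a b, χ (CX l X a b i) * f a b i := by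
      rw [← Finset.sum_sub_distrib]
      exact Finset.sum_congr rfl fun i _ => by ring
    have e2 : ∫ y in box l, (1 - χ y) * upot (CX l X a b) (f a b) y * rho l t (CX l X a b) y =
        (∫ y in box l, upot (CX l X a b) (f a b) y * rho l t (CX l X a b) y) -
        ∫ y in box l, χ y * upot (CX l X a b) (f a b) y * rho l t (CX l X a b) y := by
      have i1 : IntegrableOn (fun y => upot (CX l X a b) (f a b) y * rho l t (CX l X a b) y)
          (box l) := O4d_int (hu.mul hrc)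
      have i2 : IntegrableOn (fun y => χ y * upot (CX l X a b) (f a b) y *
          rho l t (CX l X a b) y) (box l) := O4d_int ((hχc.mul hu).mul hrc)
      rw [← integral_sub i1 i2]
      exact integral_congr_ae (Filter.Eventually.of_forall fun y => by simp only; ring)
    rw [e1, e2] at hJ'
    have h5 : C4 * l ≤ C4 * K ^ 7 * τ * l ^ 2 := by
      calc C4 * l ≤ C4 * (1 * (τ * l ^ 2)) := by
            rw [one_mul]
            gcongr
        _ ≤ C4 * (K ^ 7 * (τ * l ^ 2)) := by gcongr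
        _ = C4 * K ^ 7 * τ * l ^ 2 := by ring
    have h6 : (C3 + C4) * K ^ 7 * τ * l ^ 2 = C3 * K ^ 7 * τ * l ^ 2 + C4 * K ^ 7 * τ * l ^ 2 := by ring
    rw [h6, hdual]
    linarith
  have hsum := Finset.sum_le_sum fun a ha => Finset.sum_le_sum (hcell a ha)
  have e3 : ∑ a ∈ Finset.range k, ∑ b ∈ Finset.range k,
      (W l (CX l X a b) (rho l t (CX l X a b)) / 2 - (C3 + C4) * K ^ 7 * τ * l ^ 2) =
      (∑ a ∈ Finset.range k, ∑ b ∈ Finset.range k, W l (CX l X a b) (rho l t (CX l X a b))) / 2 -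
        (C3 + C4) * K ^ 7 * τ * (k * l) ^ 2 := by
    simp only [Finset.sum_sub_distrib, Finset.sum_const, Finset.card_range, nsmul_eq_mul,
      Finset.sum_div]
    ring
  rw [e3] at hsum
  have hfin := hsum.trans (hC.trans (add_le_add_right herr (Wb / 2)))
  have e4 : 2 * (C1 * M * √C5 * √C2 + C3 + C4) * K ^ 7 * τ * (k * l) ^ 2 =
      2 * (C1 * M * √C5 * √C2 * K ^ 7 * τ * (k * l) ^ 2) +
        2 * ((C3 + C4) * K ^ 7 * τ * (k * l) ^ 2) := by ring
  rw [e4]
  linarith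

end Pool.Agent.Lib.H77M
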