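import Pool.Agent.Lib.H77M.O1a
import Pool.Agent.Lib.H77M.O1b
import Pool.Agent.Lib.H77M.O3
import Pool.Agent.Lib.H77M.O4
import Pool.Agent.Lib.H77M.DefsD

/-!
# Project H77M, chunk O5: Theorem 4 of PROOF.md (combination)
-/

open MeasureTheory Set ProbabilityTheory
open scoped ContDiff

namespace Pool.Agent.Lib.H77M

theorem O5_sqrt {t : ℝ} (ht : 1 ≤ t) : 1 / √t ≤ t ^ (-(1 / 8) : ℝ) := by
  have h0 : (0 : ℝ) < t := by linarith
  rw [Real.sqrt_eq_rpow, one_div, ← Real.rpow_neg h0.le]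
  exact Real.rpow_le_rpow_of_exponent_le ht (by norm_num)

theorem O5_inv {t : ℝ} (ht : 1 ≤ t) : 1 / t ≤ t ^ (-(1 / 8) : ℝ) := by
  have h0 : (0 : ℝ) < t := by linarith
  rw [one_div, ← Real.rpow_neg_one]
  exact Real.rpow_le_rpow_of_exponent_le ht (by norm_num)

theorem det : ∃ C K0 : ℝ, 0 < C ∧ 1 ≤ K0 ∧ ∀ (K l t : ℝ) (k : ℕ) {ι : Type} [Fintype ι]
    (X : ι → ℝ × ℝ), Good K l k X → 1 ≤ k → K0 ≤ K → K ^ 16 ≤ t → t ^ 4 ≤ l →
    (Fintype.card ι : ℝ) = (k * l) ^ 2 →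
    |DD l t k X| ≤ C * K ^ 8 * t ^ (-(1 / 8) : ℝ) * (k * l) ^ 2 := by
  obtain ⟨Ca, Ka, hCa, hKa, ha⟩ := one_a
  obtain ⟨Cb, Kb, hCb, hKb, hb⟩ := one_b
  obtain ⟨Cu, Ku, hCu, hKu, hu⟩ := up
  obtain ⟨Cl, Kl, hCl, hKl, hl⟩ := low
  refine ⟨2 * (Ca + Cb) + Cu + Cl, max (max Ka Kb) (max Ku Kl), by positivity,
    le_max_of_le_left (le_max_of_le_left hKa), ?_⟩
  intro K l t k ι _ X hG hk hK hKt htl hcard
  have hK1 : 1 ≤ K := hKa.trans ((le_max_left _ _).trans ((le_max_left _ _).trans hK))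
  have hKa' : Ka ≤ K := (le_max_left _ _).trans ((le_max_left _ _).trans hK)
  have hKb' : Kb ≤ K := (le_max_right _ _).trans ((le_max_left _ _).trans hK)
  have hKu' : Ku ≤ K := (le_max_left _ _).trans ((le_max_right _ _).trans hK)
  have hKl' : Kl ≤ K := (le_max_right _ _).trans ((le_max_right _ _).trans hK)
  have ht1 : 1 ≤ t := (one_le_pow₀ hK1).trans hKt
  have ht0 : 0 < t := by linarith
  have htt : t ≤ t ^ 4 := le_self_pow₀ ht1 (by norm_num)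
  have hl1 : 1 ≤ l := by linarith
  have hk1 : (1 : ℝ) ≤ k := by exact_mod_cast hk
  have hll : l ≤ l ^ 2 := le_self_pow₀ hl1 (by norm_num)
  have hkl : l ≤ k * l := by nlinarith
  have hkl1 : 1 ≤ (k : ℝ) * l := by linarith
  have hkl2 : (k : ℝ) * l ≤ (k * l) ^ 2 := le_self_pow₀ hkl1 (by norm_num)
  have hklpos : 0 < ((k : ℝ) * l) ^ 2 := by positivity
  set τ : ℝ := t ^ (-(1 / 8) : ℝ) with hτ
  have hτ0 : 0 < τ := Real.rpow_pos_of_pos ht0 _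
  have hs := O5_sqrt ht1
  have hi := O5_inv ht1
  have hK8 : 0 < K ^ 8 := by positivity
  -- the big box
  have hA := ha K (k * l) t X hG.1 hKa' hKt (by linarith)
  have hB := hb K (k * l) t X hG.1 hKb' hKt (by linarith)
  have hc1 : (Fintype.card ι : ℝ) / (k * l) ^ 2 = 1 := by rw [hcard]; exact div_self hklpos.ne'
  have hc2 : ((k : ℝ) * l) ^ 2 / (Fintype.card ι : ℝ) = 1 := by rw [hcard]; exact div_self hklpos.ne'
  rw [hc1, hc2] at hA hB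
  have hU := hu K l t k X hG hk hKu' hKt htl
  have hL := hl K l t k X hG hk hKl' hKt htl
  -- the cells
  have hcell : ∀ a ∈ Finset.range k, ∀ b ∈ Finset.range k,
      |W l (CX l X a b) (fun _ => (Fintype.card (CI l X a b) : ℝ) / l ^ 2) -
        W l (CX l X a b) (rho l t (CX l X a b)) -
        l ^ 2 / (Fintype.card (CI l X a b) : ℝ) *
          (2 * En l t (CX l X a b) - En l (2 * t) (CX l X a b))| ≤
        (Ca + Cb) * K ^ 8 * τ * l ^ 2 := by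
    intro a ha' b hb'
    have hR := hG.2 a (Finset.mem_range.1 ha') b (Finset.mem_range.1 hb')
    have h1 := ha K l t (CX l X a b) hR hKa' hKt (by linarith)
    have h2 := hb K l t (CX l X a b) hR hKb' hKt (by linarith)
    have e1 : Ca * K ^ 8 / √t * l ^ 2 ≤ Ca * K ^ 8 * τ * l ^ 2 := by
      have : Ca * K ^ 8 / √t * l ^ 2 = Ca * K ^ 8 * (1 / √t) * l ^ 2 := by ring
      rw [this]
      gcongr
    have e2 : Cb * K ^ 8 / √t * l ^ 2 ≤ Cb * K ^ 8 * τ * l ^ 2 := by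
      have : Cb * K ^ 8 / √t * l ^ 2 = Cb * K ^ 8 * (1 / √t) * l ^ 2 := by ring
      rw [this]
      gcongr
    have p1 : 0 ≤ Ca * K ^ 8 * τ * l ^ 2 := by positivity
    have p2 : 0 ≤ Cb * K ^ 8 * τ * l ^ 2 := by positivity
    have e3 : (Ca + Cb) * K ^ 8 * τ * l ^ 2 = Ca * K ^ 8 * τ * l ^ 2 + Cb * K ^ 8 * τ * l ^ 2 := by ring
    rw [e3, abs_le]
    constructor <;> linarith
  have hsum : |∑ a ∈ Finset.range k, ∑ b ∈ Finset.range k,
      (W l (CX l X a b) (fun _ => (Fintype.card (CI l X a b) : ℝ) / l ^ 2) -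
        W l (CX l X a b) (rho l t (CX l X a b)) -
        l ^ 2 / (Fintype.card (CI l X a b) : ℝ) *
          (2 * En l t (CX l X a b) - En l (2 * t) (CX l X a b)))| ≤
        (Ca + Cb) * K ^ 8 * τ * (k * l) ^ 2 := by
    refine (Finset.abs_sum_le_sum_abs _ _).trans ?_
    have : ∑ a ∈ Finset.range k, ∑ b ∈ Finset.range k, ((Ca + Cb) * K ^ 8 * τ * l ^ 2) =
        (Ca + Cb) * K ^ 8 * τ * (k * l) ^ 2 := by
      simp only [Finset.sum_const, Finset.card_range, nsmul_eq_mul]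
      ring
    rw [← this]
    refine Finset.sum_le_sum fun a ha' => (Finset.abs_sum_le_sum_abs _ _).trans
      (Finset.sum_le_sum fun b hb' => hcell a ha' b hb')
  simp only [Finset.sum_sub_distrib] at hsum
  -- error terms
  have eA : Ca * K ^ 8 / √t * (k * l) ^ 2 ≤ Ca * K ^ 8 * τ * (k * l) ^ 2 := by
    have : Ca * K ^ 8 / √t * (k * l) ^ 2 = Ca * K ^ 8 * (1 / √t) * (k * l) ^ 2 := by ring
    rw [this]
    gcongr
  have eB : Cb * K ^ 8 / √t * (k * l) ^ 2 ≤ Cb * K ^ 8 * τ * (k * l) ^ 2 := by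
    have : Cb * K ^ 8 / √t * (k * l) ^ 2 = Cb * K ^ 8 * (1 / √t) * (k * l) ^ 2 := by ring
    rw [this]
    gcongr
  have eU : Cu * K ^ 4 / t * (k * l) ^ 2 ≤ Cu * K ^ 8 * τ * (k * l) ^ 2 := by
    have : Cu * K ^ 4 / t * (k * l) ^ 2 = Cu * K ^ 4 * (1 / t) * (k * l) ^ 2 := by ring
    rw [this]
    have h48 : K ^ 4 ≤ K ^ 8 := pow_le_pow_right₀ hK1 (by norm_num)
    gcongr
  have eL : Cl * K ^ 7 * τ * (k * l) ^ 2 ≤ Cl * K ^ 8 * τ * (k * l) ^ 2 := by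
    have h78 : K ^ 7 ≤ K ^ 8 := pow_le_pow_right₀ hK1 (by norm_num)
    gcongr
  have pA : 0 ≤ Ca * K ^ 8 * τ * (k * l) ^ 2 := by positivity
  have pB : 0 ≤ Cb * K ^ 8 * τ * (k * l) ^ 2 := by positivity
  have pU : 0 ≤ Cu * K ^ 8 * τ * (k * l) ^ 2 := by positivity
  have pL : 0 ≤ Cl * K ^ 8 * τ * (k * l) ^ 2 := by positivity
  have eT : (2 * (Ca + Cb) + Cu + Cl) * K ^ 8 * τ * (k * l) ^ 2 =
      2 * (Ca * K ^ 8 * τ * (k * l) ^ 2) + 2 * (Cb * K ^ 8 * τ * (k * l) ^ 2) +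
        Cu * K ^ 8 * τ * (k * l) ^ 2 + Cl * K ^ 8 * τ * (k * l) ^ 2 := by ring
  have eS : (Ca + Cb) * K ^ 8 * τ * (k * l) ^ 2 =
      Ca * K ^ 8 * τ * (k * l) ^ 2 + Cb * K ^ 8 * τ * (k * l) ^ 2 := by ring
  rw [eS] at hsum
  obtain ⟨s1, s2⟩ := abs_le.1 hsum
  unfold DD
  rw [eT, abs_le]
  constructor <;> linarith

end Pool.Agent.Lib.H77M
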