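import Pool.Agent.Lib.H77M.C1
import Pool.Agent.Lib.H77M.C5
import Pool.Agent.Lib.H77M.C6
import Pool.Agent.Lib.H77M.C7a
import Pool.Agent.Lib.H77M.O5

/-!
# Project H77M, chunk C7: the recursion (6.1)

`M = n / k²`, `l = √M`, `t = M ^ (1 / 8)`, `K = A (1 + log n)` with `A` absolute (so that
`C n^5 e^{-K} ≤ 1`), `log n ≤ M ^ c` with `c` small (so that `K ^ 16 ≤ t` and
`K ^ 8 t ^ (-1/8) ≤ M ^ (-c)`).
-/

open MeasureTheory Set ProbabilityTheory

namespace Pool.Agent.Lib.H77M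

/-- the recursion hypothesis of the final analysis -/
def Rec (F : ℕ → ℝ) : Prop :=
  ∃ C c : ℝ, 0 < C ∧ 0 < c ∧ c < 1 ∧ ∀ n k : ℕ, 1 ≤ k → C ≤ (n : ℝ) / (k : ℝ) ^ 2 →
    Real.log n ≤ ((n : ℝ) / (k : ℝ) ^ 2) ^ c →
    |F n - ∑ m ∈ Finset.range (n + 1), bw n k m * F m - Real.log ((k : ℝ) ^ 2) / (4 * Real.pi)| ≤
      C * ((n : ℝ) / (k : ℝ) ^ 2) ^ (-c)

theorem C7_bound {Ω : Type*} [MeasurableSpace Ω] (μ : Measure Ω) [IsProbabilityMeasure μ]
    (f : Ω → ℝ) (hf : Integrable f μ) (B : Set Ω) {a b p : ℝ} (ha : 0 ≤ a) (hb : 0 ≤ b)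
    (h1 : ∀ x, x ∉ B → |f x| ≤ a) (h2 : ∀ᵐ x ∂μ, |f x| ≤ b) (hp : μ.real B ≤ p) :
    |∫ x, f x ∂μ| ≤ a + b * p := by
  have hm : MeasurableSet (toMeasurable μ B) := measurableSet_toMeasurable μ B
  have hi : Integrable (fun x => a + (toMeasurable μ B).indicator (fun _ => b) x) μ :=
    (integrable_const a).add ((integrable_const b).indicator hm)
  have h3 : ∫ x, |f x| ∂μ ≤ ∫ x, (a + (toMeasurable μ B).indicator (fun _ => b) x) ∂μ := by
    refine integral_mono_ae hf.abs hi ?_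
    filter_upwards [h2] with x hx
    by_cases hxB : x ∈ toMeasurable μ B
    · rw [indicator_of_mem hxB]
      linarith
    · rw [indicator_of_notMem hxB, add_zero]
      exact h1 x fun h => hxB (subset_toMeasurable μ B h)
  have h4 : ∫ x, (a + (toMeasurable μ B).indicator (fun _ => b) x) ∂μ = a + b * μ.real B := by
    rw [integral_add (integrable_const a) ((integrable_const b).indicator hm),
      integral_indicator hm, integral_const, integral_const]
    simp only [probReal_univ, smul_eq_mul, one_mul]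
    have h5 : (μ.restrict (toMeasurable μ B)).real univ = μ.real B := by
      rw [measureReal_def, measureReal_def, Measure.restrict_apply_univ, measure_toMeasurable]
    rw [h5]
    ring
  calc |∫ x, f x ∂μ| ≤ ∫ x, |f x| ∂μ := abs_integral_le_integral_abs
    _ ≤ a + b * μ.real B := h3.trans h4.le
    _ ≤ a + b * p := by gcongr

theorem recur : Rec F := by
  obtain ⟨C1, K0, hC1, hK0, hdet⟩ := det
  obtain ⟨C2, hC2, hcr⟩ := DD_crude
  obtain ⟨C3, hC3, hgp⟩ := good_prob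
  obtain ⟨C4, hC4, hsig⟩ := sig_asymp
  set A : ℝ := max 5 K0 with hA
  have hA5 : (5 : ℝ) ≤ A := le_max_left _ _
  have hAK : K0 ≤ A := le_max_right _ _
  set S1 : ℝ := |sig 1| with hS1
  have hS10 : 0 ≤ S1 := abs_nonneg _
  set C : ℝ := (2 * A) ^ 160 + C1 * (2 * A) ^ 8 + C2 * C3 + 6 * C4 + 6 * (S1 + 1 + C4) with hC
  have hCpos : 0 < C := by positivity
  refine ⟨C, 1 / 1024, hCpos, by norm_num, by norm_num, ?_⟩
  intro n k hk hCM hlog
  set M : ℝ := (n : ℝ) / (k : ℝ) ^ 2 with hM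
  have hk1 : (1 : ℝ) ≤ k := by exact_mod_cast hk
  have hk0 : (0 : ℝ) < k := by linarith
  have hk2 : (1 : ℝ) ≤ (k : ℝ) ^ 2 := one_le_pow₀ hk1
  have hMA : (2 * A) ^ 160 ≤ M := by
    refine le_trans ?_ hCM
    have : 0 ≤ C1 * (2 * A) ^ 8 + C2 * C3 + 6 * C4 + 6 * (S1 + 1 + C4) := by positivity
    rw [hC]
    linarith
  have hM1 : 1 ≤ M := (one_le_pow₀ (by linarith)).trans hMA
  have hM10 : 10 ≤ M := by
    refine le_trans ?_ hMA
    calc (10 : ℝ) ≤ 2 * A := by linarith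
      _ ≤ (2 * A) ^ 160 := le_self_pow₀ (by linarith) (by norm_num)
  have hM0 : 0 < M := by linarith
  have hnM : (n : ℝ) = k ^ 2 * M := by
    rw [hM]
    field_simp
  have hMn : M ≤ n := by
    rw [hnM]
    nlinarith
  have hn1 : (1 : ℝ) ≤ n := hM1.trans hMn
  have hn0 : (0 : ℝ) < n := by linarith
  have hkn : k ^ 2 ≤ n := by
    have : ((k ^ 2 : ℕ) : ℝ) ≤ (n : ℝ) := by
      push_cast
      rw [hnM]
      nlinarith
    exact_mod_cast this
  have hlogn : 0 ≤ Real.log n := Real.log_nonneg hn1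
  set K : ℝ := A * (1 + Real.log n) with hKdef
  set t : ℝ := M ^ (1 / 8 : ℝ) with ht
  have ht1 : 1 ≤ t := Real.one_le_rpow hM1 (by norm_num)
  have ht0 : 0 < t := by linarith
  have htM : 2 * t ≤ M := by
    have e : M = t * M ^ (7 / 8 : ℝ) := by
      rw [ht, ← Real.rpow_add hM0]
      norm_num
    have h2 : (2 : ℝ) ≤ M ^ (7 / 8 : ℝ) := by
      calc (2 : ℝ) = (4 : ℝ) ^ (1 / 2 : ℝ) := by
            rw [show (4 : ℝ) = 2 ^ (2 : ℝ) by norm_num, ← Real.rpow_mul (by norm_num)]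
            norm_num
        _ ≤ M ^ (1 / 2 : ℝ) := Real.rpow_le_rpow (by norm_num) (by linarith) (by norm_num)
        _ ≤ M ^ (7 / 8 : ℝ) := Real.rpow_le_rpow_of_exponent_le hM1 (by norm_num)
    calc 2 * t = t * 2 := by ring
      _ ≤ t * M ^ (7 / 8 : ℝ) := by gcongr
      _ = M := e.symm
  have hMc1 : 1 ≤ M ^ (1 / 1024 : ℝ) := Real.one_le_rpow hM1 (by norm_num)
  have hK1 : K ≤ 2 * A * M ^ (1 / 1024 : ℝ) := by
    rw [hKdef]
    have : 1 + Real.log n ≤ 2 * M ^ (1 / 1024 : ℝ) := by linarith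
    calc A * (1 + Real.log n) ≤ A * (2 * M ^ (1 / 1024 : ℝ)) := by gcongr
      _ = 2 * A * M ^ (1 / 1024 : ℝ) := by ring
  have hKpos : 0 < K := by positivity
  have hKA : A ≤ K := by
    rw [hKdef]
    nlinarith
  have hK16 : K ^ 16 ≤ t := by
    have h1 : K ^ 16 ≤ (2 * A) ^ 16 * M ^ (1 / 64 : ℝ) := by
      calc K ^ 16 ≤ (2 * A * M ^ (1 / 1024 : ℝ)) ^ 16 := by gcongr
        _ = (2 * A) ^ 16 * M ^ (1 / 64 : ℝ) := by
            rw [mul_pow, ← Real.rpow_natCast (M ^ (1 / 1024 : ℝ)) 16, ← Real.rpow_mul hM0.le]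
            norm_num
    have h2 : (2 * A) ^ 16 ≤ M ^ (7 / 64 : ℝ) := by
      calc (2 * A) ^ 16 = ((2 * A) ^ 160) ^ (1 / 10 : ℝ) := by
            rw [← Real.rpow_natCast (2 * A) 160, ← Real.rpow_mul (by positivity),
              ← Real.rpow_natCast (2 * A) 16]
            norm_num
        _ ≤ M ^ (1 / 10 : ℝ) := Real.rpow_le_rpow (by positivity) hMA (by norm_num)
        _ ≤ M ^ (7 / 64 : ℝ) := Real.rpow_le_rpow_of_exponent_le hM1 (by norm_num)
    calc K ^ 16 ≤ (2 * A) ^ 16 * M ^ (1 / 64 : ℝ) := h1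
      _ ≤ M ^ (7 / 64 : ℝ) * M ^ (1 / 64 : ℝ) := by gcongr
      _ = t := by
          rw [ht, ← Real.rpow_add hM0]
          norm_num
  set l : ℝ := √n / k with hl
  have hkl : k * l = √n := by
    rw [hl]
    field_simp
  have hlM : l = √M := by
    rw [hl, hM, Real.sqrt_div hn0.le, Real.sqrt_sq hk0.le]
  have ht4 : t ^ 4 ≤ l := by
    rw [hlM, ht, ← Real.rpow_natCast, ← Real.rpow_mul hM0.le, Real.sqrt_eq_rpow]
    norm_num
  have hcard : (Fintype.card (Fin n) : ℝ) = (k * l) ^ 2 := by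
    rw [hkl, Real.sq_sqrt hn0.le, Fintype.card_fin]
  -- the integral
  obtain ⟨hint, hmean⟩ := DD_mean hk hkn ht0
  set τ : ℝ := t ^ (-(1 / 8) : ℝ) with hτ
  have hτ0 : 0 < τ := Real.rpow_pos_of_pos ht0 _
  have hb1 : |∫ X, DD (√n / k) t k (scl (√n) X) ∂(UU (Fin n))| ≤
      C1 * K ^ 8 * τ * n + C2 * (n : ℝ) ^ 4 * (C3 * n * Real.exp (-K)) := by
    refine C7_bound (UU (Fin n)) _ hint
      {X | ¬ Good K (√n / k) k (scl (√n) X)} (by positivity) (by positivity) ?_ ?_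
      (hgp n k K hk hkn ?_)
    · intro X hX
      have hG : Good K (√n / k) k (scl (√n) X) := by
        by_contra h
        exact hX h
      have := hdet K l t k (scl (√n) X) hG hk (hAK.trans hKA) hK16 ht4 hcard
      rwa [hkl, Real.sq_sqrt hn0.le] at this
    · filter_upwards [ae_inj n] with X hX
      exact hcr n k t X hk hkn ht1 hX.2
    · rw [hKdef]
      nlinarith
  have hexp : C2 * (n : ℝ) ^ 4 * (C3 * n * Real.exp (-K)) ≤ C2 * C3 := by
    have h1 : Real.exp (-K) ≤ 1 / (n : ℝ) ^ 5 := by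
      rw [Real.exp_neg, ← one_div]
      refine one_div_le_one_div_of_le (by positivity) ?_
      calc (n : ℝ) ^ 5 = Real.exp (5 * Real.log n) := by
            rw [mul_comm, Real.exp_mul, Real.exp_log hn0]
            exact (Real.rpow_natCast _ 5).symm
        _ ≤ Real.exp K := by
            refine Real.exp_le_exp.2 ?_
            rw [hKdef]
            nlinarith
    calc C2 * (n : ℝ) ^ 4 * (C3 * n * Real.exp (-K)) = C2 * C3 * ((n : ℝ) ^ 5 * Real.exp (-K)) := by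
          ring
      _ ≤ C2 * C3 * ((n : ℝ) ^ 5 * (1 / (n : ℝ) ^ 5)) := by gcongr
      _ = C2 * C3 := by
          field_simp
  rw [hmean] at hb1
  set SS : ℝ := ∑ m ∈ Finset.range (n + 1), bw n k m * F m with hSS
  set b0 : ℝ := bw n k 0 with hb0
  have hb00 : 0 ≤ b0 := bw_nonneg hk
  have hb0e : b0 ≤ Real.exp (-M) := bw_zero_le hk
  have hb2 : |(F n - SS) - (2 * sig (t / n) - sig (2 * t / n)) +
      (1 - b0) * (2 * sig (t / M) - sig (2 * t / M))| ≤ C1 * K ^ 8 * τ + C2 * C3 / n := by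
    have h1 : (n : ℝ) * (F n - SS) - n * (2 * sig (t / n) - sig (2 * t / n)) +
        n * (1 - b0) * (2 * sig (t / M) - sig (2 * t / M)) =
        n * ((F n - SS) - (2 * sig (t / n) - sig (2 * t / n)) +
          (1 - b0) * (2 * sig (t / M) - sig (2 * t / M))) := by ring
    have h2 := hb1.trans (add_le_add_right hexp _)
    rw [h1, abs_mul, abs_of_pos hn0] at h2
    have h3 : C1 * K ^ 8 * τ + C2 * C3 / n = (C1 * K ^ 8 * τ * n + C2 * C3) / n := by
      field_simp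
    rw [h3, le_div_iff₀ hn0]
    linarith
  -- the sig terms
  have hs1 := hsig (t / n) (t / M) (by positivity) (by gcongr) (by
    rw [div_le_one hM0]
    linarith)
  have hs2 := hsig (2 * t / n) (2 * t / M) (by positivity) (by gcongr) (by
    rw [div_le_one hM0]
    linarith)
  have hs3 := hsig (t / M) 1 (by positivity) (by
    rw [div_le_one hM0]
    linarith) le_rfl
  have hs4 := hsig (2 * t / M) 1 (by positivity) (by
    rw [div_le_one hM0]
    linarith) le_rfl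
  have hq1 : t / M / (t / n) = (k : ℝ) ^ 2 := by
    rw [hnM]
    field_simp
  have hq2 : 2 * t / M / (2 * t / n) = (k : ℝ) ^ 2 := by
    rw [hnM]
    field_simp
  rw [hq1] at hs1
  rw [hq2] at hs2
  set Lk : ℝ := Real.log ((k : ℝ) ^ 2) / (4 * Real.pi) with hLk
  have hpi : (1 : ℝ) ≤ 4 * Real.pi := by
    have := Real.pi_gt_three
    linarith
  have hlogM : 0 ≤ Real.log M := Real.log_nonneg hM1
  have hlogMM : Real.log M ≤ M := (Real.log_le_sub_one_of_pos hM0).trans (by linarith)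
  have hlg : ∀ s : ℝ, 0 < s → 1 / M ≤ s → s ≤ 1 →
      |Real.log (1 / s) / (4 * Real.pi)| ≤ M := by
    intro s hs h1 h2
    have h3 : 0 ≤ Real.log (1 / s) := Real.log_nonneg (by
      rw [le_div_iff₀ hs]
      linarith)
    rw [abs_of_nonneg (by positivity)]
    have h4 : Real.log (1 / s) ≤ Real.log M := by
      refine Real.log_le_log (by positivity) ?_
      rw [div_le_iff₀ hs]
      rw [div_le_iff₀ hM0] at h1
      linarith
    calc Real.log (1 / s) / (4 * Real.pi) ≤ Real.log (1 / s) := div_le_self h3 hpi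
      _ ≤ M := h4.trans hlogMM
  have hg1 := hlg (t / M) (by positivity) (by gcongr) (by
    rw [div_le_one hM0]
    linarith)
  have hg2 := hlg (2 * t / M) (by positivity) (by
    gcongr
    linarith) (by
    rw [div_le_one hM0]
    linarith)
  rw [Real.sqrt_one, mul_one] at hs3 hs4
  have hsb : ∀ a : ℝ, ∀ g : ℝ, |a - sig 1 - g| ≤ C4 → |g| ≤ M → |a| ≤ S1 + M + C4 := by
    intro a g h1 h2
    rw [hS1]
    have h3 := abs_le.1 h1
    have h4 := abs_le.1 h2
    have h5 := le_abs_self (sig 1)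
    have h6 := neg_abs_le (sig 1)
    rw [abs_le]
    constructor <;> linarith [h3.1, h3.2, h4.1, h4.2]
  have ha1 := hsb _ _ hs3 hg1
  have ha2 := hsb _ _ hs4 hg2
  have hMe : Real.exp (-M) ≤ 2 / M ^ 2 := by
    rw [Real.exp_neg, ← one_div, div_le_div_iff₀ (Real.exp_pos _) (by positivity)]
    have := Real.quadratic_le_exp_of_nonneg hM0.le
    nlinarith
  have hE4 : |b0 * (2 * sig (t / M) - sig (2 * t / M))| ≤ 6 * (S1 + 1 + C4) / M := by
    have h1 : |2 * sig (t / M) - sig (2 * t / M)| ≤ 3 * ((S1 + 1 + C4) * M) := by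
      have h2 := abs_le.1 ha1
      have h3 := abs_le.1 ha2
      have h4 : S1 + M + C4 ≤ (S1 + 1 + C4) * M := by nlinarith
      rw [abs_le]
      constructor <;> linarith [h2.1, h2.2, h3.1, h3.2]
    rw [abs_mul, abs_of_nonneg hb00]
    calc b0 * |2 * sig (t / M) - sig (2 * t / M)| ≤ (2 / M ^ 2) * (3 * ((S1 + 1 + C4) * M)) := by
          refine mul_le_mul (hb0e.trans hMe) h1 (abs_nonneg _) (by positivity)
      _ = 6 * (S1 + 1 + C4) / M := by
          field_simp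
          ring
  have hsq : √(t / M) ≤ √(2 * t / M) := Real.sqrt_le_sqrt (by
    gcongr
    linarith)
  -- powers of M
  have hMinv : 1 / M ≤ M ^ (-(1 / 1024) : ℝ) := by
    rw [one_div, ← Real.rpow_neg_one]
    exact Real.rpow_le_rpow_of_exponent_le hM1 (by norm_num)
  have hP0 : 0 < M ^ (-(1 / 1024) : ℝ) := Real.rpow_pos_of_pos hM0 _
  have hE3 : √(2 * t / M) ≤ 2 * M ^ (-(1 / 1024) : ℝ) := by
    have h1 : 2 * t / M ≤ (2 * M ^ (-(1 / 1024) : ℝ)) ^ 2 := by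
      have h2 : t / M = M ^ (-(7 / 8) : ℝ) := by
        rw [ht, div_eq_mul_inv, ← Real.rpow_neg_one, ← Real.rpow_add hM0]
        norm_num
      have h3 : M ^ (-(7 / 8) : ℝ) ≤ M ^ (-(1 / 512) : ℝ) :=
        Real.rpow_le_rpow_of_exponent_le hM1 (by norm_num)
      have h4 : (M ^ (-(1 / 1024) : ℝ)) ^ 2 = M ^ (-(1 / 512) : ℝ) := by
        rw [← Real.rpow_natCast, ← Real.rpow_mul hM0.le]
        norm_num
      have h5 : 0 < M ^ (-(1 / 512) : ℝ) := Real.rpow_pos_of_pos hM0 _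
      rw [mul_div_assoc, h2, mul_pow, h4]
      linarith
    exact Real.sqrt_le_iff.2 ⟨by positivity, h1⟩
  have hE1 : C1 * K ^ 8 * τ ≤ C1 * (2 * A) ^ 8 * M ^ (-(1 / 1024) : ℝ) := by
    have h1 : K ^ 8 ≤ (2 * A) ^ 8 * M ^ (1 / 128 : ℝ) := by
      calc K ^ 8 ≤ (2 * A * M ^ (1 / 1024 : ℝ)) ^ 8 := by gcongr
        _ = (2 * A) ^ 8 * M ^ (1 / 128 : ℝ) := by
            rw [mul_pow, ← Real.rpow_natCast (M ^ (1 / 1024 : ℝ)) 8, ← Real.rpow_mul hM0.le]
            norm_num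
    have h2 : τ = M ^ (-(1 / 64) : ℝ) := by
      rw [hτ, ht, ← Real.rpow_mul hM0.le]
      norm_num
    have h3 : M ^ (1 / 128 : ℝ) * M ^ (-(1 / 64) : ℝ) ≤ M ^ (-(1 / 1024) : ℝ) := by
      rw [← Real.rpow_add hM0]
      exact Real.rpow_le_rpow_of_exponent_le hM1 (by norm_num)
    calc C1 * K ^ 8 * τ ≤ C1 * ((2 * A) ^ 8 * M ^ (1 / 128 : ℝ)) * M ^ (-(1 / 64) : ℝ) := by
          rw [h2]
          gcongr
      _ = C1 * (2 * A) ^ 8 * (M ^ (1 / 128 : ℝ) * M ^ (-(1 / 64) : ℝ)) := by ring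
      _ ≤ C1 * (2 * A) ^ 8 * M ^ (-(1 / 1024) : ℝ) := by gcongr
  have hE2 : C2 * C3 / n ≤ C2 * C3 * M ^ (-(1 / 1024) : ℝ) := by
    calc C2 * C3 / n ≤ C2 * C3 / M := by gcongr
      _ = C2 * C3 * (1 / M) := by ring
      _ ≤ C2 * C3 * M ^ (-(1 / 1024) : ℝ) := by gcongr
  have hE4' : 6 * (S1 + 1 + C4) / M ≤ 6 * (S1 + 1 + C4) * M ^ (-(1 / 1024) : ℝ) := by
    calc 6 * (S1 + 1 + C4) / M = 6 * (S1 + 1 + C4) * (1 / M) := by ring
      _ ≤ 6 * (S1 + 1 + C4) * M ^ (-(1 / 1024) : ℝ) := by gcongr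
  have hE3' : 3 * (C4 * √(2 * t / M)) ≤ 6 * C4 * M ^ (-(1 / 1024) : ℝ) := by
    calc 3 * (C4 * √(2 * t / M)) ≤ 3 * (C4 * (2 * M ^ (-(1 / 1024) : ℝ))) := by gcongr
      _ = 6 * C4 * M ^ (-(1 / 1024) : ℝ) := by ring
  have hsq' : C4 * √(t / M) ≤ C4 * √(2 * t / M) := by gcongr
  -- combination
  have hb3 := abs_le.1 hb2
  have hs1' := abs_le.1 hs1
  have hs2' := abs_le.1 hs2
  have hE4a := abs_le.1 hE4
  have hCs : C * M ^ (-(1 / 1024) : ℝ) = (2 * A) ^ 160 * M ^ (-(1 / 1024) : ℝ) +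
      C1 * (2 * A) ^ 8 * M ^ (-(1 / 1024) : ℝ) + C2 * C3 * M ^ (-(1 / 1024) : ℝ) +
      6 * C4 * M ^ (-(1 / 1024) : ℝ) + 6 * (S1 + 1 + C4) * M ^ (-(1 / 1024) : ℝ) := by
    rw [hC]
    ring
  have hp0 : 0 ≤ (2 * A) ^ 160 * M ^ (-(1 / 1024) : ℝ) := by positivity
  have hring : (F n - SS) - (2 * sig (t / n) - sig (2 * t / n)) +
      (1 - b0) * (2 * sig (t / M) - sig (2 * t / M)) =
      F n - SS - Lk - 2 * (sig (t / n) - sig (t / M) - Lk) +
        (sig (2 * t / n) - sig (2 * t / M) - Lk) -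
        b0 * (2 * sig (t / M) - sig (2 * t / M)) := by ring
  rw [hring] at hb3
  rw [hCs, abs_le]
  constructor <;> linarith [hb3.1, hb3.2, hs1'.1, hs1'.2, hs2'.1, hs2'.2, hE4a.1, hE4a.2]

end Pool.Agent.Lib.H77M
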