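import Pool.Agent.Lib.H77M.C1

/-!
# Project H77M, chunk C8: the final analysis (6.2) and the Cauchy argument

Pure analysis. See the end of PROOF.md. `b n = F n - log n / (4 π)`.
Step 1: for `m ^ 3 ≤ n ≤ exp (m ^ c')`: `|b n - b m| ≤ C m ^ (-c')`: choose `k` with
`M = n / k ^ 2` slightly larger (or smaller) than `m`, so that the binomial is `≥ m` (or `≤ m`)
with high probability, and use the monotonicity of `F m / m` and `F m ≤ C (1 + log m) ^ 4`.
Step 2: for `m ≤ m'` with `m' ^ 3 ≤ exp (m ^ c')` compare both with `n = m' ^ 3`.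
Step 3: iterate along `m_{j+1} = ⌊exp (m_j ^ c' / 3)⌋`.
-/

open MeasureTheory Set ProbabilityTheory Filter Topology

namespace Pool.Agent.Lib.H77M

/-- choice of the number of cells -/
theorem C8_k {n : ℕ} {y : ℝ} (hy : 6 ≤ y) (hn : y ^ 3 / 8 ≤ n) :
    ∃ k : ℕ, 1 ≤ k ∧ y ≤ (n : ℝ) / (k : ℝ) ^ 2 ∧ (n : ℝ) / (k : ℝ) ^ 2 ≤ y + 18 := by
  have hy0 : 0 < y := by linarith
  have hn0 : (0 : ℝ) < n := lt_of_lt_of_le (by positivity) hn
  set x : ℝ := √((n : ℝ) / y) with hx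
  have hx2 : x ^ 2 = (n : ℝ) / y := Real.sq_sqrt (by positivity)
  have hx0 : 0 ≤ x := Real.sqrt_nonneg _
  have hxy : y / 3 ≤ x := by
    apply Real.le_sqrt_of_sq_le
    rw [le_div_iff₀ hy0]
    nlinarith
  have hfl : (⌊x⌋₊ : ℝ) ≤ x := Nat.floor_le hx0
  have hfl2 : x < ⌊x⌋₊ + 1 := Nat.lt_floor_add_one x
  have hk6 : y / 6 ≤ (⌊x⌋₊ : ℝ) := by linarith
  have hk1 : (1 : ℝ) ≤ (⌊x⌋₊ : ℝ) := by linarith
  refine ⟨⌊x⌋₊, by exact_mod_cast hk1, ?_, ?_⟩
  · rw [le_div_iff₀ (by positivity)]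
    have h1 : (⌊x⌋₊ : ℝ) ^ 2 ≤ x ^ 2 := pow_le_pow_left₀ (by positivity) hfl 2
    rw [hx2, le_div_iff₀ hy0] at h1
    linarith
  · set κ : ℝ := (⌊x⌋₊ : ℝ) with hκ
    rw [div_le_iff₀ (by positivity)]
    have h1 : x ^ 2 ≤ (κ + 1) ^ 2 := pow_le_pow_left₀ hx0 hfl2.le 2
    rw [hx2, div_le_iff₀ hy0] at h1
    nlinarith

theorem C8_mono {F : ℕ → ℝ} (hmono : ∀ n : ℕ, 1 ≤ n → F (n + 1) / ((n : ℝ) + 1) ≤ F n / n)
    {i j : ℕ} (hi : 1 ≤ i) (hij : i ≤ j) : F j / j ≤ F i / i := by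
  induction j, hij using Nat.le_induction with
  | base => exact le_rfl
  | succ j hj ih =>
    have := hmono j (hi.trans hj)
    push_cast
    exact this.trans ih

theorem C8_log {x : ℝ} (hx : 1 ≤ x) : 1 + Real.log x ≤ 21 * x ^ (1 / 20 : ℝ) := by
  have h1 := Real.log_le_rpow_div (by linarith : (0 : ℝ) ≤ x) (by norm_num : (0 : ℝ) < 1 / 20)
  have h2 : (1 : ℝ) ≤ x ^ (1 / 20 : ℝ) := Real.one_le_rpow hx (by norm_num)
  have h3 : x ^ (1 / 20 : ℝ) / (1 / 20) = 20 * x ^ (1 / 20 : ℝ) := by ring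
  rw [h3] at h1
  linarith

theorem C8_log5 {x : ℝ} (hx : 1 ≤ x) : (1 + Real.log x) ^ 5 / √x ≤ 21 ^ 5 * x ^ (-(1 / 4) : ℝ) := by
  have hx0 : 0 < x := by linarith
  have h1 := C8_log hx
  have h0 : 0 ≤ 1 + Real.log x := by linarith [Real.log_nonneg hx]
  have h2 : (1 + Real.log x) ^ 5 ≤ (21 * x ^ (1 / 20 : ℝ)) ^ 5 := pow_le_pow_left₀ h0 h1 5
  have h3 : (21 * x ^ (1 / 20 : ℝ)) ^ 5 = 21 ^ 5 * x ^ (1 / 4 : ℝ) := by
    rw [mul_pow, ← Real.rpow_natCast (x ^ (1 / 20 : ℝ)) 5, ← Real.rpow_mul hx0.le]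
    norm_num
  have h4 : x ^ (-(1 / 4) : ℝ) = x ^ (1 / 4 : ℝ) / √x := by
    rw [Real.sqrt_eq_rpow, ← Real.rpow_sub hx0]
    norm_num
  rw [h4, ← mul_div_assoc, ← h3]
  gcongr

/-- large `m` -/
theorem C8_big {x : ℝ} (hx : 200000000 ≤ x) : 8 * (1 + 3 * Real.log x) ≤ √x := by
  have hx0 : 0 < x := by linarith
  have h1 := Real.log_le_rpow_div hx0.le (by norm_num : (0 : ℝ) < 1 / 4)
  set s := x ^ (1 / 4 : ℝ) with hs
  have hs0 : 0 < s := Real.rpow_pos_of_pos hx0 _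
  have hs4 : s ^ 4 = x := by
    rw [hs, ← Real.rpow_natCast, ← Real.rpow_mul hx0.le]
    norm_num
  have hs2 : √x = s ^ 2 := by
    rw [← hs4]
    rw [show s ^ 4 = (s ^ 2) ^ 2 by ring]
    exact Real.sqrt_sq (by positivity)
  have hs104 : 104 ≤ s := by
    by_contra hc
    push Not at hc
    have : s ^ 4 < 104 ^ 4 := pow_lt_pow_left₀ hc hs0.le (by norm_num)
    rw [hs4] at this
    norm_num at this
    linarith
  have h3 : s / (1 / 4) = 4 * s := by ring
  rw [h3] at h1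
  rw [hs2]
  nlinarith


theorem C8_upper {F : ℕ → ℝ} (h0 : ∀ n, 0 ≤ F n) (hle : ∀ n : ℕ, F n ≤ 2 * n)
    (hmono : ∀ n : ℕ, 1 ≤ n → F (n + 1) / ((n : ℝ) + 1) ≤ F n / n) {n k m : ℕ} (hk : 1 ≤ k)
    (hm : 1 ≤ m) {κ : ℝ} (hκ : 0 ≤ κ) (hM : 1 ≤ (n : ℝ) / (k : ℝ) ^ 2)
    (hmM : (m : ℝ) ≤ (n : ℝ) / (k : ℝ) ^ 2 - κ * √((n : ℝ) / (k : ℝ) ^ 2)) :
    ∑ j ∈ Finset.range (n + 1), bw n k j * F j ≤
      (n : ℝ) / (k : ℝ) ^ 2 * (F m / m) + 2 * m * (2 * Real.exp (1 - κ)) := by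
  classical
  have hm0 : (0 : ℝ) < m := by exact_mod_cast hm
  have ht := bw_tail (n := n) hk hM hκ
  set M := (n : ℝ) / (k : ℝ) ^ 2 with hMdef
  have hpt : ∀ j ∈ Finset.range (n + 1), bw n k j * F j ≤ bw n k j * j * (F m / m) +
      (if κ * √M ≤ |(j : ℝ) - M| then bw n k j * (2 * m) else 0) := by
    intro j _
    have hb := bw_nonneg (n := n) (m := j) hk
    have hFm : 0 ≤ F m / m := div_nonneg (h0 m) hm0.le
    by_cases hj : m ≤ j
    · have hj1 : 1 ≤ j := hm.trans hj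
      have hj0 : (0 : ℝ) < j := by exact_mod_cast hj1
      have h1 := C8_mono hmono hm hj
      have h2 : F j ≤ j * (F m / m) := by
        rw [div_le_iff₀ hj0] at h1
        linarith
      have h3 : bw n k j * F j ≤ bw n k j * (j * (F m / m)) := mul_le_mul_of_nonneg_left h2 hb
      have h4 : 0 ≤ (if κ * √M ≤ |(j : ℝ) - M| then bw n k j * (2 * m) else 0) := by
        split_ifs
        · positivity
        · exact le_rfl
      linarith
    · push Not at hj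
      have hjm : (j : ℝ) ≤ m := by exact_mod_cast hj.le
      have htail : κ * √M ≤ |(j : ℝ) - M| := by
        rw [abs_sub_comm]
        refine le_trans ?_ (le_abs_self _)
        linarith
      rw [if_pos htail]
      have h1 := hle j
      have h2 : bw n k j * F j ≤ bw n k j * (2 * m) := by
        apply mul_le_mul_of_nonneg_left _ hb
        linarith
      have h3 : 0 ≤ bw n k j * j * (F m / m) := by positivity
      linarith
  refine (Finset.sum_le_sum hpt).trans ?_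
  rw [Finset.sum_add_distrib, ← Finset.sum_mul, bw_mean hk, ← Finset.sum_filter, ← Finset.sum_mul]
  have h5 : (0 : ℝ) ≤ 2 * m := by positivity
  nlinarith

theorem C8_lower {F : ℕ → ℝ} (h0 : ∀ n, 0 ≤ F n)
    (hmono : ∀ n : ℕ, 1 ≤ n → F (n + 1) / ((n : ℝ) + 1) ≤ F n / n) {n k m : ℕ} (hk : 1 ≤ k)
    (hm : 1 ≤ m) {κ : ℝ} (hκ : 0 ≤ κ) (hM : 1 ≤ (n : ℝ) / (k : ℝ) ^ 2)
    (hmM : (n : ℝ) / (k : ℝ) ^ 2 + κ * √((n : ℝ) / (k : ℝ) ^ 2) ≤ m)
    (hpos : 0 ≤ (n : ℝ) / (k : ℝ) ^ 2 - κ * √((n : ℝ) / (k : ℝ) ^ 2)) :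
    (F m / m) * ((n : ℝ) / (k : ℝ) ^ 2 - κ * √((n : ℝ) / (k : ℝ) ^ 2)) *
      (1 - 2 * Real.exp (1 - κ)) ≤ ∑ j ∈ Finset.range (n + 1), bw n k j * F j := by
  classical
  have hm0 : (0 : ℝ) < m := by exact_mod_cast hm
  have ht := bw_tail (n := n) hk hM hκ
  have hs := bw_sum (n := n) hk
  set M := (n : ℝ) / (k : ℝ) ^ 2 with hMdef
  have hFm : 0 ≤ F m / m := div_nonneg (h0 m) hm0.le
  set A := (F m / m) * (M - κ * √M) with hA
  have hA0 : 0 ≤ A := mul_nonneg hFm hpos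
  have hpt : ∀ j ∈ Finset.range (n + 1), bw n k j * A -
      (if κ * √M ≤ |(j : ℝ) - M| then bw n k j * A else 0) ≤ bw n k j * F j := by
    intro j _
    have hb := bw_nonneg (n := n) (m := j) hk
    split_ifs with h
    · have : 0 ≤ bw n k j * F j := mul_nonneg hb (h0 j)
      linarith
    · push Not at h
      rw [sub_zero]
      apply mul_le_mul_of_nonneg_left _ hb
      rw [abs_lt] at h
      have hjm' : (j : ℝ) ≤ m := by linarith [h.2]
      have hjm : j ≤ m := by exact_mod_cast hjm'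
      have hj0 : (0 : ℝ) < j := by linarith [h.1]
      have hj1 : 1 ≤ j := by
        have : 0 < j := by exact_mod_cast hj0
        exact this
      have h1 := C8_mono hmono hj1 hjm
      rw [le_div_iff₀ hj0] at h1
      refine le_trans ?_ h1
      apply mul_le_mul_of_nonneg_left _ hFm
      linarith [h.1]
  refine le_trans ?_ (Finset.sum_le_sum hpt)
  rw [Finset.sum_sub_distrib, ← Finset.sum_mul, hs, ← Finset.sum_filter, ← Finset.sum_mul]
  nlinarith


/-- (6.2) -/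
theorem step62 (F : ℕ → ℝ) (h0 : ∀ n, 0 ≤ F n)
    (hlog : ∃ C : ℝ, 0 < C ∧ ∀ n : ℕ, 1 ≤ n → F n ≤ C * (1 + Real.log n) ^ 4)
    (hle : ∀ n : ℕ, F n ≤ 2 * n)
    (hmono : ∀ n : ℕ, 1 ≤ n → F (n + 1) / ((n : ℝ) + 1) ≤ F n / n)
    (hrec : ∃ C c : ℝ, 0 < C ∧ 0 < c ∧ c < 1 ∧ ∀ n k : ℕ, 1 ≤ k → C ≤ (n : ℝ) / (k : ℝ) ^ 2 →
      Real.log n ≤ ((n : ℝ) / (k : ℝ) ^ 2) ^ c →
      |F n - ∑ m ∈ Finset.range (n + 1), bw n k m * F m -
        Real.log ((k : ℝ) ^ 2) / (4 * Real.pi)| ≤ C * ((n : ℝ) / (k : ℝ) ^ 2) ^ (-c)) :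
    ∃ C c : ℝ, 0 < C ∧ 0 < c ∧ c < 1 ∧ ∀ m n : ℕ, C ≤ (m : ℝ) → m ^ 3 ≤ n →
      Real.log n ≤ (m : ℝ) ^ c →
      |(F n - Real.log n / (4 * Real.pi)) - (F m - Real.log m / (4 * Real.pi))| ≤
        C * (m : ℝ) ^ (-c) := by
  obtain ⟨CL, hCL, hlog⟩ := hlog
  obtain ⟨Cr, c, hCr, hc0, hc1, hrec⟩ := hrec
  set c' : ℝ := min (c / 2) (1 / 4) with hc'
  have hc'0 : 0 < c' := lt_min (by linarith) (by norm_num)
  have hc'c : c' ≤ c / 2 := min_le_left _ _
  have hc'4 : c' ≤ 1 / 4 := min_le_right _ _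
  set Kf : ℝ := 17 * CL * 21 ^ 5 + 4 + 2 * Cr with hKf
  have hKf0 : 0 < Kf := by positivity
  refine ⟨200000000 + 2 * Cr + Kf, c', by positivity, hc'0, by linarith, ?_⟩
  intro m n hCm hmn hln
  set x : ℝ := (m : ℝ) with hx
  have hxbig : 200000000 ≤ x := by linarith
  have hxCr : 2 * Cr ≤ x := by linarith
  have hx0 : 0 < x := by linarith
  have hx1 : 1 ≤ x := by linarith
  have hm1 : 1 ≤ m := by
    have : (1 : ℝ) ≤ (m : ℝ) := hx1
    exact_mod_cast this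
  have hnm : x ^ 3 ≤ (n : ℝ) := by
    rw [hx]
    exact_mod_cast hmn
  have hx3 : 1 ≤ x ^ 3 := one_le_pow₀ hx1
  have hn0 : (0 : ℝ) < n := by linarith
  have hlx : 0 ≤ Real.log x := Real.log_nonneg hx1
  set B : ℝ := 1 + Real.log x with hB
  have hB1 : 1 ≤ B := by linarith
  set κ : ℝ := 1 + 3 * Real.log x with hκ
  have hκ1 : 1 ≤ κ := by linarith
  have hκB : κ ≤ 3 * B := by rw [hκ, hB]; linarith
  have hbig := C8_big hxbig
  rw [← hκ] at hbig
  set r : ℝ := √x with hr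
  have hr2 : r ^ 2 = x := Real.sq_sqrt hx0.le
  have hr0 : 0 < r := Real.sqrt_pos.2 hx0
  have hr18 : 18 ≤ r := by
    apply Real.le_sqrt_of_sq_le
    linarith
  have hκr : 8 * (κ * r) ≤ x := by
    rw [← hr2]
    linarith [mul_le_mul_of_nonneg_right hbig hr0.le]
  have hκr18 : 18 ≤ κ * r := by linarith [mul_le_mul_of_nonneg_right hκ1 hr0.le]
  have hexp : Real.exp (1 - κ) = 1 / x ^ 3 := by
    rw [hκ]
    have h1 : 1 - (1 + 3 * Real.log x) = -(3 * Real.log x) := by ring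
    rw [h1, Real.exp_neg, mul_comm, Real.exp_mul, Real.exp_log hx0, one_div]
    norm_num
  have hFm := hlog m hm1
  rw [← hx, ← hB] at hFm
  have hFm0 := h0 m
  have hpi : 0 < 4 * Real.pi := by positivity
  -- powers of x
  have hxc : x ^ (-c) ≤ x ^ (-c') := Real.rpow_le_rpow_of_exponent_le hx1 (by linarith)
  have hx4 : x ^ (-(1 / 4) : ℝ) ≤ x ^ (-c') := Real.rpow_le_rpow_of_exponent_le hx1 (by linarith)
  have hx2 : 1 / x ^ 2 ≤ x ^ (-c') := by
    have h1 : 1 / x ^ 2 = x ^ (-2 : ℝ) := by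
      rw [Real.rpow_neg hx0.le, one_div]
      norm_num
    rw [h1]
    exact Real.rpow_le_rpow_of_exponent_le hx1 (by linarith)
  have hB5 : B ^ 5 / r ≤ 21 ^ 5 * x ^ (-c') := by
    have := C8_log5 hx1
    rw [← hB, ← hr] at this
    refine this.trans ?_
    gcongr
  have hxcp : 0 < x ^ (-c') := Real.rpow_pos_of_pos hx0 _
  -- the condition on log n
  have hcond : ∀ M : ℝ, x / 2 ≤ M → Real.log n ≤ M ^ c := by
    intro M hM
    have h1 : x ^ c' ≤ x ^ (c / 2) := Real.rpow_le_rpow_of_exponent_le hx1 hc'c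
    have h2 : x ^ (c / 2) = r ^ c := by
      rw [hr, Real.sqrt_eq_rpow, ← Real.rpow_mul hx0.le]
      congr 1
      ring
    have h3 : r ^ c ≤ M ^ c := by
      apply Real.rpow_le_rpow hr0.le _ hc0.le
      linarith [mul_le_mul_of_nonneg_right (show (2 : ℝ) ≤ r by linarith) hr0.le]
    linarith
  have hlogM : ∀ k : ℕ, 1 ≤ k → Real.log ((k : ℝ) ^ 2) =
      Real.log n - Real.log ((n : ℝ) / (k : ℝ) ^ 2) := by
    intro k hk
    have hk0 : (0 : ℝ) < k := by exact_mod_cast hk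
    rw [Real.log_div hn0.ne' (by positivity)]
    ring
  -- upper bound
  have hup : (F n - Real.log n / (4 * Real.pi)) - (F m - Real.log x / (4 * Real.pi)) ≤
      9 * CL * (B ^ 5 / r) + 4 * (1 / x ^ 2) + Cr * x ^ (-c) := by
    have hy6 : 6 ≤ x + 2 * (κ * r) := by linarith
    have hyn : (x + 2 * (κ * r)) ^ 3 / 8 ≤ n := by
      have h1 : (x + 2 * (κ * r)) ^ 3 ≤ (2 * x) ^ 3 := pow_le_pow_left₀ (by linarith) (by linarith) 3
      have h2 : (2 * x) ^ 3 = 8 * x ^ 3 := by ring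
      linarith
    obtain ⟨k, hk, hM1, hM2⟩ := C8_k hy6 hyn
    have hrk := hrec n k hk
    have hub := @C8_upper F h0 hle hmono n k m hk hm1 κ (by linarith)
    have hlk := hlogM k hk
    set M := (n : ℝ) / (k : ℝ) ^ 2 with hM
    have hMx : x ≤ M := by linarith
    have hsM : √M ≤ 3 / 2 * r := by
      have h94 : (3 / 2 * r) ^ 2 = 9 / 4 * x := by rw [mul_pow, hr2]; norm_num
      rw [Real.sqrt_le_left (by positivity), h94]
      linarith
    have hκM : κ * √M ≤ κ * (3 / 2 * r) := mul_le_mul_of_nonneg_left hsM (by linarith)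
    have hub2 := hub (by linarith) (by linarith)
    have hr3 := hrk (by linarith) (hcond M (by linarith))
    have hr4 := (abs_le.1 hr3).2
    rw [hexp] at hub2
    have hMc : M ^ (-c) ≤ x ^ (-c) := Real.rpow_le_rpow_of_nonpos hx0 hMx (by linarith)
    have hlM : Real.log x ≤ Real.log M := Real.log_le_log hx0 hMx
    have e1 : M * (F m / x) ≤ F m + 9 * CL * (B ^ 5 / r) := by
      have h1 : M ≤ x + 3 * (κ * r) := by linarith
      have h2 : M * (F m / x) ≤ (x + 3 * (κ * r)) * (F m / x) :=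
        mul_le_mul_of_nonneg_right h1 (by positivity)
      have h3 : (x + 3 * (κ * r)) * (F m / x) = F m + 3 * κ * F m / r := by
        rw [← hr2]
        field_simp
      have h4 : 3 * κ * F m ≤ 3 * (3 * B) * (CL * B ^ 4) := by
        apply mul_le_mul _ hFm hFm0 (by positivity)
        linarith
      have h5 : 3 * κ * F m / r ≤ 3 * (3 * B) * (CL * B ^ 4) / r := by gcongr
      have h6 : 3 * (3 * B) * (CL * B ^ 4) / r = 9 * CL * (B ^ 5 / r) := by ring
      linarith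
    have e2 : 2 * x * (2 * (1 / x ^ 3)) = 4 * (1 / x ^ 2) := by
      field_simp
      ring
    have e3 : Cr * M ^ (-c) ≤ Cr * x ^ (-c) := mul_le_mul_of_nonneg_left hMc hCr.le
    have e4 : Real.log ((k : ℝ) ^ 2) / (4 * Real.pi) ≤
        Real.log n / (4 * Real.pi) - Real.log x / (4 * Real.pi) := by
      rw [hlk, ← sub_div]
      gcongr
    rw [e2] at hub2
    linarith
  -- lower bound
  have hlo : -(15 * CL * (B ^ 5 / r) + 2 * CL * (B ^ 5 / r) + 2 * Cr * x ^ (-c)) ≤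
      (F n - Real.log n / (4 * Real.pi)) - (F m - Real.log x / (4 * Real.pi)) := by
    have hy6 : 6 ≤ x - 4 * (κ * r) := by linarith
    have hyn : (x - 4 * (κ * r)) ^ 3 / 8 ≤ n := by
      have h1 : (x - 4 * (κ * r)) ^ 3 ≤ x ^ 3 := pow_le_pow_left₀ (by linarith) (by linarith) 3
      have h2 : 0 ≤ x ^ 3 := by positivity
      linarith
    obtain ⟨k, hk, hM1, hM2⟩ := C8_k hy6 hyn
    have hrk := hrec n k hk
    have hlb := @C8_lower F h0 hmono n k m hk hm1 κ (by linarith)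
    have hlk := hlogM k hk
    set M := (n : ℝ) / (k : ℝ) ^ 2 with hM
    have hMx : M ≤ x := by linarith
    have hMx2 : x / 2 ≤ M := by linarith
    have hM0 : 0 < M := by linarith
    have hsM : √M ≤ r := Real.sqrt_le_sqrt hMx
    have hκM : κ * √M ≤ κ * r := mul_le_mul_of_nonneg_left hsM (by linarith)
    have hlb2 := hlb (by linarith) (by linarith) (by linarith)
    have hr3 := hrk (by linarith) (hcond M hMx2)
    have hr4 := (abs_le.1 hr3).1
    rw [hexp] at hlb2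
    have hMc : M ^ (-c) ≤ 2 * x ^ (-c) := by
      have h1 : M ^ (-c) ≤ (x / 2) ^ (-c) :=
        Real.rpow_le_rpow_of_nonpos (by linarith) hMx2 (by linarith)
      have h2 : (x / 2) ^ (-c) = x ^ (-c) * 2 ^ c := by
        rw [Real.div_rpow hx0.le (by norm_num), Real.rpow_neg (by norm_num : (0 : ℝ) ≤ 2),
          div_inv_eq_mul]
      have h3 : (2 : ℝ) ^ c ≤ 2 := by
        have := Real.rpow_le_rpow_of_exponent_le (by norm_num : (1 : ℝ) ≤ 2) hc1.le
        rwa [Real.rpow_one] at this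
      have h4 : 0 < x ^ (-c) := Real.rpow_pos_of_pos hx0 _
      rw [h2] at h1
      linarith [mul_le_mul_of_nonneg_left h3 h4.le]
    have hlM : Real.log M ≤ Real.log x := Real.log_le_log hM0 hMx
    have e1 : F m - 15 * CL * (B ^ 5 / r) - 2 * CL * (B ^ 5 / r) ≤
        F m / x * (M - κ * √M) * (1 - 2 * (1 / x ^ 3)) := by
      have h1 : x - 5 * (κ * r) ≤ M - κ * √M := by linarith
      have hx3' : 0 ≤ 1 - 2 * (1 / x ^ 3) := by
        have : 1 / x ^ 3 ≤ 1 / 2 := by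
          apply one_div_le_one_div_of_le (by norm_num)
          have : x ≤ x ^ 3 := le_self_pow₀ hx1 (by norm_num)
          linarith
        linarith
      have h2 : F m / x * (x - 5 * (κ * r)) * (1 - 2 * (1 / x ^ 3)) ≤
          F m / x * (M - κ * √M) * (1 - 2 * (1 / x ^ 3)) := by
        apply mul_le_mul_of_nonneg_right _ hx3'
        exact mul_le_mul_of_nonneg_left h1 (by positivity)
      refine le_trans ?_ h2
      have h3 : F m / x * (x - 5 * (κ * r)) = F m - 5 * κ * F m / r := by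
        rw [← hr2]
        field_simp
      rw [h3]
      have h4 : 5 * κ * F m ≤ 5 * (3 * B) * (CL * B ^ 4) := by
        apply mul_le_mul _ hFm hFm0 (by positivity)
        linarith
      have h5 : 5 * κ * F m / r ≤ 5 * (3 * B) * (CL * B ^ 4) / r := by gcongr
      have h6 : 5 * (3 * B) * (CL * B ^ 4) / r = 15 * CL * (B ^ 5 / r) := by ring
      have h7 : 0 ≤ 5 * κ * F m / r := by positivity
      have h8 : F m * (1 / x ^ 3) ≤ CL * (B ^ 5 / r) := by
        have a1 : F m ≤ CL * B ^ 5 := by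
          have : B ^ 4 ≤ B ^ 5 := pow_le_pow_right₀ hB1 (by norm_num)
          have := mul_le_mul_of_nonneg_left this hCL.le
          linarith
        have a2 : 1 / x ^ 3 ≤ 1 / r := by
          apply one_div_le_one_div_of_le hr0
          have hrx : r ≤ x := by
            linarith [mul_le_mul_of_nonneg_right (show (1 : ℝ) ≤ r by linarith) hr0.le]
          have : x ≤ x ^ 3 := le_self_pow₀ hx1 (by norm_num)
          linarith
        have a3 : F m * (1 / x ^ 3) ≤ (CL * B ^ 5) * (1 / r) :=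
          mul_le_mul a1 a2 (by positivity) (by positivity)
        have a4 : (CL * B ^ 5) * (1 / r) = CL * (B ^ 5 / r) := by ring
        linarith
      have h9 : 0 ≤ 1 / x ^ 3 := by positivity
      have h10 : 0 ≤ (5 * κ * F m / r) * (1 / x ^ 3) := mul_nonneg h7 h9
      have h11 : (F m - 5 * κ * F m / r) * (1 - 2 * (1 / x ^ 3)) = F m - 5 * κ * F m / r -
          2 * (F m * (1 / x ^ 3)) + 2 * ((5 * κ * F m / r) * (1 / x ^ 3)) := by ring
      rw [h11]
      linarith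
    have e3 : Cr * M ^ (-c) ≤ Cr * (2 * x ^ (-c)) := mul_le_mul_of_nonneg_left hMc hCr.le
    have e4 : Real.log n / (4 * Real.pi) - Real.log x / (4 * Real.pi) ≤
        Real.log ((k : ℝ) ^ 2) / (4 * Real.pi) := by
      rw [hlk, ← sub_div]
      gcongr
    linarith
  have hCrx : Cr * x ^ (-c) ≤ Cr * x ^ (-c') := mul_le_mul_of_nonneg_left hxc hCr.le
  have hCLx : CL * (B ^ 5 / r) ≤ CL * (21 ^ 5 * x ^ (-c')) := mul_le_mul_of_nonneg_left hB5 hCL.le
  have hCLp : 0 ≤ CL * (21 ^ 5 * x ^ (-c')) := by positivity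
  have hCrp : 0 ≤ Cr * x ^ (-c') := by positivity
  have hfin : Kf * x ^ (-c') = 17 * (CL * (21 ^ 5 * x ^ (-c'))) + 4 * x ^ (-c') +
      2 * (Cr * x ^ (-c')) := by
    rw [hKf]; ring
  have hfin2 : Kf * x ^ (-c') ≤ (200000000 + 2 * Cr + Kf) * x ^ (-c') := by
    apply mul_le_mul_of_nonneg_right _ hxcp.le
    linarith
  rw [abs_le]
  constructor
  · linarith
  · linarith

/-- the Cauchy argument, one induction -/
theorem C8_ind {b : ℕ → ℝ} {C c : ℝ} (hC : 0 < C) (hc : 0 < c)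
    (h : ∀ m n : ℕ, C ≤ (m : ℝ) → m ^ 3 ≤ n → Real.log n ≤ (m : ℝ) ^ c →
      |b n - b m| ≤ C * (m : ℝ) ^ (-c)) {N : ℕ} (hN8 : 8 ≤ N) (hNC : C ≤ N)
    (hN2 : ∀ m : ℕ, N ≤ m → 6 * Real.log m ≤ (m : ℝ) ^ c)
    (hN3 : ∀ m : ℕ, N ≤ m → 2 ≤ ((m : ℝ) / 4) ^ c) {m : ℕ} (hm : N ≤ m) (n : ℕ) (hn : m ≤ n) :
    |b n - b m| ≤ 6 * C * (m : ℝ) ^ (-c) - 4 * C * (n : ℝ) ^ (-c) := by
  have hN1 : 1 ≤ N := by omega
  have hm1 : 1 ≤ m := hN1.trans hm
  have hm0 : (0 : ℝ) < m := by exact_mod_cast hm1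
  -- one step
  have step : ∀ i j : ℕ, N ≤ i → i ≤ j → j ≤ i ^ 2 → |b j - b i| ≤ 2 * C * (i : ℝ) ^ (-c) := by
    intro i j hi hij hji
    have hi1 : 1 ≤ i := hN1.trans hi
    have hi0 : (0 : ℝ) < i := by exact_mod_cast hi1
    have hj0 : (0 : ℝ) < j := by exact_mod_cast (hi1.trans hij)
    have hij' : (i : ℝ) ≤ j := by exact_mod_cast hij
    have hji' : (j : ℝ) ≤ (i : ℝ) ^ 2 := by exact_mod_cast hji
    have hNi : (N : ℝ) ≤ i := by exact_mod_cast hi
    have hlog : Real.log ((j ^ 3 : ℕ) : ℝ) ≤ (i : ℝ) ^ c := by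
      push_cast
      rw [Real.log_pow]
      have h1 : Real.log j ≤ 2 * Real.log i := by
        have := Real.log_le_log hj0 hji'
        rw [Real.log_pow] at this
        push_cast at this
        exact this
      have := hN2 i hi
      push_cast
      linarith
    have h1 := h i (j ^ 3) (hNC.trans hNi) (Nat.pow_le_pow_left hij 3) hlog
    have h2 := h j (j ^ 3) (hNC.trans (hNi.trans hij')) le_rfl
      (hlog.trans (Real.rpow_le_rpow hi0.le hij' hc.le))
    have h3 : (j : ℝ) ^ (-c) ≤ (i : ℝ) ^ (-c) :=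
      Real.rpow_le_rpow_of_nonpos hi0 hij' (by linarith)
    have h4 : C * (j : ℝ) ^ (-c) ≤ C * (i : ℝ) ^ (-c) := mul_le_mul_of_nonneg_left h3 hC.le
    rw [abs_le] at h1 h2 ⊢
    constructor <;> linarith [h1.1, h1.2, h2.1, h2.2]
  induction n using Nat.strong_induction_on with
  | _ n ih =>
    have hn1 : 1 ≤ n := hm1.trans hn
    have hn0 : (0 : ℝ) < n := by exact_mod_cast hn1
    by_cases hnm : n ≤ m ^ 2
    · have h1 := step m n hm hn hnm
      have h2 : (n : ℝ) ^ (-c) ≤ (m : ℝ) ^ (-c) :=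
        Real.rpow_le_rpow_of_nonpos hm0 (by exact_mod_cast hn) (by linarith)
      have h3 : C * (n : ℝ) ^ (-c) ≤ C * (m : ℝ) ^ (-c) := mul_le_mul_of_nonneg_left h2 hC.le
      linarith
    · push Not at hnm
      set s : ℕ := Nat.sqrt n with hs
      have hs1 : m ≤ s := by
        rw [hs, Nat.le_sqrt']
        exact hnm.le
      have hs2 : s ^ 2 ≤ n := Nat.sqrt_le' n
      have hs3 : n < (s + 1) ^ 2 := Nat.lt_succ_sqrt' n
      have hs8 : 8 ≤ s := hN8.trans (hm.trans hs1)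
      have hrn : s + 1 < n := by nlinarith
      have hNr : N ≤ s + 1 := by omega
      have h1 := ih (s + 1) hrn (by omega)
      have h2 := step (s + 1) n hNr hrn.le hs3.le
      have hr0 : (0 : ℝ) < ((s + 1 : ℕ) : ℝ) := by positivity
      have h3 := hN3 (s + 1) hNr
      have h4 : (((s + 1 : ℕ) : ℝ) / 4) ^ c ≤ ((n : ℝ) / ((s + 1 : ℕ) : ℝ)) ^ c := by
        apply Real.rpow_le_rpow (by positivity) _ hc.le
        rw [div_le_div_iff₀ (by norm_num) hr0]
        have : (s + 1) * (s + 1) ≤ n * 4 := by nlinarith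
        exact_mod_cast this
      have h5 : 2 * ((s + 1 : ℕ) : ℝ) ^ c ≤ (n : ℝ) ^ c := by
        rw [Real.div_rpow hn0.le hr0.le] at h4
        have hrc : 0 < ((s + 1 : ℕ) : ℝ) ^ c := Real.rpow_pos_of_pos hr0 _
        have h6 := h3.trans h4
        rwa [le_div_iff₀ hrc] at h6
      have h7 : 2 * (n : ℝ) ^ (-c) ≤ ((s + 1 : ℕ) : ℝ) ^ (-c) := by
        have hrc : 0 < ((s + 1 : ℕ) : ℝ) ^ c := Real.rpow_pos_of_pos hr0 _
        have hnc : 0 < (n : ℝ) ^ c := Real.rpow_pos_of_pos hn0 _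
        rw [Real.rpow_neg hn0.le, Real.rpow_neg hr0.le, ← div_eq_mul_inv, ← one_div,
          div_le_div_iff₀ hnc hrc]
        linarith
      have h8 : C * (2 * (n : ℝ) ^ (-c)) ≤ C * ((s + 1 : ℕ) : ℝ) ^ (-c) :=
        mul_le_mul_of_nonneg_left h7 hC.le
      rw [abs_le] at h1 h2 ⊢
      constructor <;> linarith [h1.1, h1.2, h2.1, h2.2]

/-- the Cauchy argument -/
theorem cauchy_of_62 (b : ℕ → ℝ)
    (h : ∃ C c : ℝ, 0 < C ∧ 0 < c ∧ c < 1 ∧ ∀ m n : ℕ, C ≤ (m : ℝ) → m ^ 3 ≤ n →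
      Real.log n ≤ (m : ℝ) ^ c → |b n - b m| ≤ C * (m : ℝ) ^ (-c)) :
    ∃ ξ : ℝ, Tendsto b atTop (𝓝 ξ) := by
  obtain ⟨C, c, hC, hc, _, h⟩ := h
  have e1 : ∀ᶠ x : ℝ in atTop, 6 * Real.log x ≤ x ^ c := by
    have h1 := (isLittleO_log_rpow_atTop hc).def (show (0 : ℝ) < 1 / 6 by norm_num)
    filter_upwards [h1, eventually_ge_atTop (1 : ℝ)] with x hx hx1
    rw [Real.norm_of_nonneg (Real.log_nonneg hx1),
      Real.norm_of_nonneg (Real.rpow_nonneg (by linarith) _)] at hx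
    linarith
  have e2 : ∀ᶠ x : ℝ in atTop, 2 ≤ (x / 4) ^ c := by
    have h1 : Tendsto (fun x : ℝ => (x / 4) ^ c) atTop atTop :=
      (tendsto_rpow_atTop hc).comp (tendsto_id.atTop_div_const (by norm_num))
    exact h1.eventually_ge_atTop 2
  obtain ⟨X, hX⟩ := eventually_atTop.1 (e1.and e2)
  have e3 : Tendsto (fun x : ℝ => 6 * C * x ^ (-c)) atTop (𝓝 0) := by
    have := (tendsto_rpow_neg_atTop hc).const_mul (6 * C)
    simpa using this
  have hcs : CauchySeq b := by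
    rw [Metric.cauchySeq_iff']
    intro ε hε
    have e4 := e3.eventually (gt_mem_nhds hε)
    obtain ⟨Y, hY⟩ := eventually_atTop.1 e4
    obtain ⟨N, hN⟩ := exists_nat_ge (max (max X Y) (max C 8))
    have hNX : X ≤ N := (le_max_left _ _).trans ((le_max_left _ _).trans hN)
    have hNY : Y ≤ N := (le_max_right _ _).trans ((le_max_left _ _).trans hN)
    have hNC : C ≤ N := (le_max_left _ _).trans ((le_max_right _ _).trans hN)
    have hN8' : (8 : ℝ) ≤ N := (le_max_right _ _).trans ((le_max_right _ _).trans hN)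
    have hN8 : 8 ≤ N := by exact_mod_cast hN8'
    refine ⟨N, fun n hn => ?_⟩
    have h1 := C8_ind hC hc h hN8 hNC
      (fun m hm => (hX m (hNX.trans (by exact_mod_cast hm))).1)
      (fun m hm => (hX m (hNX.trans (by exact_mod_cast hm))).2) le_rfl n hn
    have h2 := hY N hNY
    have h3 : 0 ≤ 4 * C * (n : ℝ) ^ (-c) := by positivity
    rw [Real.dist_eq]
    linarith
  exact cauchySeq_tendsto_of_complete hcs

end Pool.Agent.Lib.H77M
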