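import Pool.Agent.Lib.H77M.C4

/-!
# Project H77M, chunk C9: the frozen functional is `F n / n`
-/

open MeasureTheory Set ProbabilityTheory
open scoped ENNReal

namespace Pool.Agent.Lib.H77M

theorem C9_meas : Measurable fun p : (ℝ × ℝ) × (ℝ × ℝ) =>
    ENNReal.ofReal ((p.1.1 - p.2.1) ^ 2 + (p.1.2 - p.2.2) ^ 2) := by
  apply Measurable.ennreal_ofReal
  fun_prop

/-- from plans to couplings -/
theorem C9_le {n : ℕ} (hn : 1 ≤ n) (X : Fin n → ℝ × ℝ) {w : Fin n → ℝ × ℝ → ℝ}
    (hw : IsPlan 1 (fun _ => (n : ℝ)) w) :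
    (⨅ (γ : Measure ((ℝ × ℝ) × (ℝ × ℝ)))
      (_ : γ.map Prod.fst = (n : ℝ≥0∞)⁻¹ • ∑ i, Measure.dirac (X i) ∧
        γ.map Prod.snd = (volume : Measure (ℝ × ℝ)).restrict
          (Set.Icc (0:ℝ) 1 ×ˢ Set.Icc (0:ℝ) 1)),
      ∫⁻ p, ENNReal.ofReal ((p.1.1 - p.2.1) ^ 2 + (p.1.2 - p.2.2) ^ 2) ∂γ) ≤
      ENNReal.ofReal (cost 1 X (fun _ => (n : ℝ)) w / n) := by
  have hn0 : (0 : ℝ) < n := by exact_mod_cast hn
  have hint : ∀ i, Integrable (w i) U := by
    intro i
    have h := B2_plan_int hw i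
    have h2 := h.mul_const ((n : ℝ)⁻¹)
    refine h2.congr (Filter.Eventually.of_forall fun y => ?_)
    simp only
    field_simp
  have hmass : ∀ i, ∫ y, w i y ∂U = 1 / n := by
    intro i
    have h := hw.mass i
    rw [integral_mul_const] at h
    have h2 : ∫ y, w i y ∂U = ∫ y in box 1, w i y := rfl
    rw [h2, eq_div_iff hn0.ne', h]
  set ν : Fin n → Measure (ℝ × ℝ) := fun i => U.withDensity fun y => ENNReal.ofReal (w i y) with hν
  have hνu : ∀ i, ν i univ = (n : ℝ≥0∞)⁻¹ := by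
    intro i
    rw [hν]
    simp only
    rw [withDensity_apply _ MeasurableSet.univ, setLIntegral_univ,
      ← ofReal_integral_eq_lintegral_ofReal (hint i)
        (Filter.Eventually.of_forall fun y => hw.nonneg i y), hmass i, one_div,
      ENNReal.ofReal_inv_of_pos hn0, ENNReal.ofReal_natCast]
  haveI : ∀ i, IsFiniteMeasure (ν i) := fun i => ⟨by
    rw [hνu i]
    exact ENNReal.inv_lt_top.2 (by exact_mod_cast hn)⟩
  set γ : Measure ((ℝ × ℝ) × (ℝ × ℝ)) := ∑ i, (Measure.dirac (X i)).prod (ν i) with hγ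
  have g1 : γ.map Prod.fst = (n : ℝ≥0∞)⁻¹ • ∑ i, Measure.dirac (X i) := by
    ext S hS
    rw [Measure.map_apply measurable_fst hS, hγ, Measure.finsetSum_apply, Measure.smul_apply,
      Measure.finsetSum_apply, smul_eq_mul, Finset.mul_sum]
    refine Finset.sum_congr rfl fun i _ => ?_
    rw [← Measure.map_apply measurable_fst hS, Measure.map_fst_prod, Measure.smul_apply, hνu,
      smul_eq_mul]
  have hone : ∀ᵐ y ∂U, ∑ i, ENNReal.ofReal (w i y) = 1 := by
    have hb : ∀ᵐ y ∂U, y ∈ box 1 := by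
      have : U = volume.restrict (box 1) := rfl
      rw [this]
      exact ae_restrict_mem (measurableSet_Icc.prod measurableSet_Icc)
    filter_upwards [hb] with y hy
    rw [← ENNReal.ofReal_sum_of_nonneg fun i _ => hw.nonneg i y, hw.sum y hy, ENNReal.ofReal_one]
  have g2 : γ.map Prod.snd = U := by
    ext S hS
    rw [Measure.map_apply measurable_snd hS, hγ, Measure.finsetSum_apply]
    have h1 : ∀ i, ((Measure.dirac (X i)).prod (ν i)) (Prod.snd ⁻¹' S) =
        ∫⁻ y in S, ENNReal.ofReal (w i y) ∂U := by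
      intro i
      rw [← Measure.map_apply measurable_snd hS, Measure.map_snd_prod, Measure.smul_apply,
        measure_univ, one_smul, hν]
      simp only
      rw [withDensity_apply _ hS]
    rw [Finset.sum_congr rfl fun i _ => h1 i,
      ← lintegral_finsetSum _ fun i _ => (hw.meas i).ennreal_ofReal]
    rw [lintegral_congr_ae (ae_restrict_of_ae hone), lintegral_one, Measure.restrict_apply_univ]
  refine (iInf₂_le γ ⟨g1, g2⟩).trans ?_
  rw [hγ, lintegral_finsetSum_measure]
  have h3 : ∀ i, ∫⁻ p, ENNReal.ofReal ((p.1.1 - p.2.1) ^ 2 + (p.1.2 - p.2.2) ^ 2)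
      ∂((Measure.dirac (X i)).prod (ν i)) = ENNReal.ofReal (∫ y, sqd (X i) y * w i y ∂U) := by
    intro i
    have hms : Measurable fun y : ℝ × ℝ =>
        ENNReal.ofReal (((X i).1 - y.1) ^ 2 + ((X i).2 - y.2) ^ 2) := by
      apply Measurable.ennreal_ofReal
      fun_prop
    rw [Measure.dirac_prod, lintegral_map C9_meas measurable_prodMk_left, hν]
    simp only
    rw [lintegral_withDensity_eq_lintegral_mul _ (hw.meas i).ennreal_ofReal hms]
    have h4 : Integrable (fun y => sqd (X i) y * w i y) U := by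
      have h := B2_plan_mul_int hw i (B2_sqd_cont (X i))
      have h2 := h.mul_const ((n : ℝ)⁻¹)
      refine h2.congr (Filter.Eventually.of_forall fun y => ?_)
      simp only
      field_simp
    rw [ofReal_integral_eq_lintegral_ofReal h4 (Filter.Eventually.of_forall fun y =>
      mul_nonneg (B2_sqd_nonneg _ _) (hw.nonneg i y))]
    refine lintegral_congr fun y => ?_
    simp only [Pi.mul_apply, Function.comp_apply]
    rw [mul_comm, ← ENNReal.ofReal_mul (by positivity)]
    rfl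
  rw [Finset.sum_congr rfl fun i _ => h3 i, ← ENNReal.ofReal_sum_of_nonneg fun i _ =>
    integral_nonneg fun y => mul_nonneg (B2_sqd_nonneg _ _) (hw.nonneg i y)]
  apply ENNReal.ofReal_le_ofReal
  apply le_of_eq
  unfold cost
  rw [eq_div_iff hn0.ne', Finset.sum_mul]
  refine Finset.sum_congr rfl fun i _ => ?_
  rw [← integral_mul_const]
  have h5 : ∫ y in box 1, sqd (X i) y * (w i y * (n : ℝ)) =
      ∫ y, sqd (X i) y * (w i y * (n : ℝ)) ∂U := rfl
  rw [h5]
  refine integral_congr_ae (Filter.Eventually.of_forall fun y => ?_)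
  simp only
  ring

/-- from couplings to plans -/
theorem C9_ge {n : ℕ} (hn : 1 ≤ n) (X : Fin n → ℝ × ℝ) (hX : Function.Injective X)
    (γ : Measure ((ℝ × ℝ) × (ℝ × ℝ)))
    (h1 : γ.map Prod.fst = (n : ℝ≥0∞)⁻¹ • ∑ i, Measure.dirac (X i)) (h2 : γ.map Prod.snd = U) :
    ENNReal.ofReal (W 1 X (fun _ => (n : ℝ)) / n) ≤
      ∫⁻ p, ENNReal.ofReal ((p.1.1 - p.2.1) ^ 2 + (p.1.2 - p.2.2) ^ 2) ∂γ := by
  classical
  have hn0 : (0 : ℝ) < n := by exact_mod_cast hn
  have hγu : γ univ = 1 := by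
    have h3 : (γ.map Prod.snd) univ = U univ := by rw [h2]
    rw [Measure.map_apply measurable_snd MeasurableSet.univ, preimage_univ] at h3
    rw [h3]
    exact measure_univ
  haveI : IsFiniteMeasure γ := ⟨by rw [hγu]; exact ENNReal.one_lt_top⟩
  have hsm : ∀ i, MeasurableSet (Prod.fst ⁻¹' {X i} : Set ((ℝ × ℝ) × (ℝ × ℝ))) := fun i =>
    measurable_fst (measurableSet_singleton _)
  set ν : Fin n → Measure (ℝ × ℝ) :=
    fun i => (γ.restrict (Prod.fst ⁻¹' {X i})).map Prod.snd with hν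
  have hνle : ∀ i, ν i ≤ U := by
    intro i
    rw [← h2]
    exact Measure.map_mono Measure.restrict_le_self measurable_snd
  have hνac : ∀ i, ν i ≪ U := fun i => (hνle i).absolutelyContinuous
  haveI hνf : ∀ i, IsFiniteMeasure (ν i) := fun i => by
    rw [hν]
    infer_instance
  set f : Fin n → ℝ × ℝ → ℝ≥0∞ := fun i => (ν i).rnDeriv U with hf
  have hfd : ∀ i, U.withDensity (f i) = ν i := fun i => Measure.withDensity_rnDeriv_eq _ _ (hνac i)
  have hfm : ∀ i, Measurable (f i) := fun i => Measure.measurable_rnDeriv _ _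
  have hsupp : γ (⋃ i, Prod.fst ⁻¹' {X i})ᶜ = 0 := by
    have e1 : (⋃ i, Prod.fst ⁻¹' {X i} : Set ((ℝ × ℝ) × (ℝ × ℝ)))ᶜ =
        Prod.fst ⁻¹' (⋃ i, {X i})ᶜ := by
      rw [← preimage_iUnion, preimage_compl]
    have hm : MeasurableSet (⋃ i, {X i} : Set (ℝ × ℝ))ᶜ :=
      (MeasurableSet.iUnion fun i => measurableSet_singleton _).compl
    rw [e1, ← Measure.map_apply measurable_fst hm, h1, Measure.smul_apply, Measure.finsetSum_apply]
    have : ∀ i, Measure.dirac (X i) (⋃ i, {X i} : Set (ℝ × ℝ))ᶜ = 0 := by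
      intro i
      rw [Measure.dirac_apply' _ hm, indicator_of_notMem]
      intro h
      exact h (mem_iUnion.2 ⟨i, rfl⟩)
    rw [Finset.sum_congr rfl fun i _ => this i]
    simp
  have hdisj : Pairwise (Function.onFun Disjoint
      fun i => (Prod.fst ⁻¹' {X i} : Set ((ℝ × ℝ) × (ℝ × ℝ)))) := by
    intro i j hij
    refine disjoint_left.2 fun p hp hq => hij (hX ?_)
    have a1 : p.1 = X i := hp
    have a2 : p.1 = X j := hq
    rw [← a1, a2]
  have hsum : ∀ g : (ℝ × ℝ) × (ℝ × ℝ) → ℝ≥0∞, ∫⁻ p, g p ∂γ =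
      ∑ i, ∫⁻ p in Prod.fst ⁻¹' {X i}, g p ∂γ := by
    intro g
    have e1 : γ.restrict (⋃ i, Prod.fst ⁻¹' {X i}) = γ :=
      Measure.restrict_eq_self_of_ae_mem (by
        rw [ae_iff]
        exact hsupp)
    conv_lhs => rw [← e1]
    rw [lintegral_iUnion hsm hdisj, tsum_fintype]
  have hνS : ∀ S : Set (ℝ × ℝ), MeasurableSet S → ∑ i, ν i S = U S := by
    intro S hS
    rw [← h2, Measure.map_apply measurable_snd hS, ← lintegral_indicator_one (measurable_snd hS),
      hsum]
    refine Finset.sum_congr rfl fun i _ => ?_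
    rw [hν]
    simp only
    rw [Measure.map_apply measurable_snd hS, lintegral_indicator_one (measurable_snd hS)]
  have hae : (fun y => ∑ i, f i y) =ᵐ[U] fun _ => 1 := by
    apply ae_eq_of_forall_setLIntegral_eq_of_sigmaFinite
    · exact Finset.measurable_sum _ fun i _ => hfm i
    · exact measurable_const
    · intro S hS _
      rw [lintegral_finsetSum _ fun i _ => hfm i, lintegral_one, Measure.restrict_apply_univ,
        ← hνS S hS]
      refine Finset.sum_congr rfl fun i _ => ?_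
      rw [← hfd i, withDensity_apply _ hS]
  have hgood : MeasurableSet {y | ∑ i, f i y = 1} :=
    (Finset.measurable_sum _ fun i _ => hfm i) (measurableSet_singleton _)
  set w : Fin n → ℝ × ℝ → ℝ := fun i y => if ∑ i, f i y = 1 then (f i y).toReal else 1 / n with hw
  have hwf : ∀ᵐ y ∂U, ∀ i, ENNReal.ofReal (w i y) = f i y := by
    filter_upwards [hae] with y hy i
    have hy' : ∑ i, f i y = 1 := hy
    have hle : f i y ≤ 1 := by
      rw [← hy']
      exact Finset.single_le_sum (f := fun i => f i y) (fun _ _ => zero_le) (Finset.mem_univ i)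
    rw [hw]
    simp only
    rw [if_pos hy', ENNReal.ofReal_toReal (ne_top_of_le_ne_top ENNReal.one_ne_top hle)]
  have hwm : ∀ i, Measurable (w i) := fun i =>
    Measurable.ite hgood (hfm i).ennreal_toReal measurable_const
  have hw0 : ∀ i y, 0 ≤ w i y := by
    intro i y
    rw [hw]
    simp only
    split_ifs
    · exact ENNReal.toReal_nonneg
    · positivity
  have hνu : ∀ i, ν i univ = (n : ℝ≥0∞)⁻¹ := by
    intro i
    rw [hν]
    simp only
    rw [Measure.map_apply measurable_snd MeasurableSet.univ, preimage_univ,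
      Measure.restrict_apply_univ, ← Measure.map_apply measurable_fst (measurableSet_singleton _),
      h1, Measure.smul_apply, Measure.finsetSum_apply, smul_eq_mul]
    have : ∑ j, Measure.dirac (X j) {X i} = 1 := by
      rw [Finset.sum_eq_single i]
      · rw [Measure.dirac_apply' _ (measurableSet_singleton _), indicator_of_mem (mem_singleton _)]
        rfl
      · intro j _ hj
        rw [Measure.dirac_apply' _ (measurableSet_singleton _), indicator_of_notMem]
        intro h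
        exact hj (hX h)
      · intro h
        exact absurd (Finset.mem_univ _) h
    rw [this, mul_one]
  have hlw : ∀ i, ∫⁻ y, ENNReal.ofReal (w i y) ∂U = (n : ℝ≥0∞)⁻¹ := by
    intro i
    rw [lintegral_congr_ae (hwf.mono fun y hy => hy i), ← setLIntegral_univ,
      ← withDensity_apply _ MeasurableSet.univ, hfd i, hνu i]
  have hwle : ∀ i y, w i y ≤ 1 := by
    intro i y
    rw [hw]
    simp only
    split_ifs with h
    · have hle : f i y ≤ 1 := by
        rw [← h]
        exact Finset.single_le_sum (f := fun i => f i y) (fun _ _ => zero_le) (Finset.mem_univ i)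
      have := ENNReal.toReal_mono ENNReal.one_ne_top hle
      simpa using this
    · rw [div_le_one hn0]
      exact_mod_cast hn
  have hwi : ∀ i, Integrable (w i) U := by
    intro i
    refine Integrable.of_bound (hwm i).aestronglyMeasurable 1 (Filter.Eventually.of_forall fun y => ?_)
    rw [Real.norm_of_nonneg (hw0 i y)]
    exact hwle i y
  have hplan : IsPlan 1 (fun _ => (n : ℝ)) w := by
    refine ⟨hwm, hw0, ?_, ?_⟩
    · intro y _
      rw [hw]
      simp only
      split_ifs with h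
      · have h5 : ∀ i ∈ Finset.univ, f i y ≠ ⊤ := by
          intro i _
          have hle : f i y ≤ 1 := by
            rw [← h]
            exact Finset.single_le_sum (f := fun i => f i y) (fun _ _ => zero_le) (Finset.mem_univ i)
          exact ne_top_of_le_ne_top ENNReal.one_ne_top hle
        rw [← ENNReal.toReal_sum h5, h, ENNReal.toReal_one]
      · rw [Finset.sum_const, Finset.card_univ, Fintype.card_fin, nsmul_eq_mul]
        field_simp
    · intro i
      rw [integral_mul_const]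
      have h6 : ∫ y in box 1, w i y = ∫ y, w i y ∂U := rfl
      rw [h6, integral_eq_lintegral_of_nonneg_ae (Filter.Eventually.of_forall (hw0 i))
        (hwm i).aestronglyMeasurable, hlw i, ENNReal.toReal_inv, ENNReal.toReal_natCast]
      field_simp
  -- the cost
  have hcost : ENNReal.ofReal (cost 1 X (fun _ => (n : ℝ)) w / n) =
      ∫⁻ p, ENNReal.ofReal ((p.1.1 - p.2.1) ^ 2 + (p.1.2 - p.2.2) ^ 2) ∂γ := by
    rw [hsum]
    have h7 : ∀ i, ∫⁻ p in Prod.fst ⁻¹' {X i},
        ENNReal.ofReal ((p.1.1 - p.2.1) ^ 2 + (p.1.2 - p.2.2) ^ 2) ∂γ =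
        ENNReal.ofReal (∫ y, sqd (X i) y * w i y ∂U) := by
      intro i
      have e1 : ∫⁻ p in Prod.fst ⁻¹' {X i},
          ENNReal.ofReal ((p.1.1 - p.2.1) ^ 2 + (p.1.2 - p.2.2) ^ 2) ∂γ =
          ∫⁻ p in Prod.fst ⁻¹' {X i}, ENNReal.ofReal (sqd (X i) p.2) ∂γ := by
        apply setLIntegral_congr_fun (hsm i)
        intro p hp
        have : p.1 = X i := hp
        simp only [sqd, this]
      have hms : Measurable fun y => ENNReal.ofReal (sqd (X i) y) :=
        (B2_sqd_cont (X i)).measurable.ennreal_ofReal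
      have e2 : ∫⁻ p in Prod.fst ⁻¹' {X i}, ENNReal.ofReal (sqd (X i) p.2) ∂γ =
          ∫⁻ y, ENNReal.ofReal (sqd (X i) y) ∂(ν i) := by
        rw [hν]
        simp only
        rw [lintegral_map hms measurable_snd]
      rw [e1, e2, ← hfd i, lintegral_withDensity_eq_lintegral_mul _ (hfm i) hms]
      have h4 : Integrable (fun y => sqd (X i) y * w i y) U := by
        have h := B2_plan_mul_int hplan i (B2_sqd_cont (X i))
        have h2 := h.mul_const ((n : ℝ)⁻¹)
        refine h2.congr (Filter.Eventually.of_forall fun y => ?_)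
        simp only
        field_simp
      rw [ofReal_integral_eq_lintegral_ofReal h4 (Filter.Eventually.of_forall fun y =>
        mul_nonneg (B2_sqd_nonneg _ _) (hw0 i y))]
      refine lintegral_congr_ae (hwf.mono fun y hy => ?_)
      simp only [Pi.mul_apply]
      rw [← hy i, mul_comm, ← ENNReal.ofReal_mul (B2_sqd_nonneg _ _)]
    rw [Finset.sum_congr rfl fun i _ => h7 i, ← ENNReal.ofReal_sum_of_nonneg fun i _ =>
      integral_nonneg fun y => mul_nonneg (B2_sqd_nonneg _ _) (hw0 i y)]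
    congr 1
    unfold cost
    rw [div_eq_iff hn0.ne', Finset.sum_mul]
    refine Finset.sum_congr rfl fun i _ => ?_
    rw [← integral_mul_const]
    have h5 : ∫ y in box 1, sqd (X i) y * (w i y * (n : ℝ)) =
        ∫ y, sqd (X i) y * (w i y * (n : ℝ)) ∂U := rfl
    rw [h5]
    refine integral_congr_ae (Filter.Eventually.of_forall fun y => ?_)
    simp only
    ring
  rw [← hcost]
  apply ENNReal.ofReal_le_ofReal
  apply div_le_div_of_nonneg_right _ hn0.le
  unfold W
  exact csInf_le (B2_bdd X fun _ _ => hn0.le) ⟨w, hplan, rfl⟩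

/-- for distinct points in the unit square: couplings are plans (Radon–Nikodym density of
`S ↦ γ ({X i} × S)` with respect to the uniform measure) -/
theorem coupling {n : ℕ} (hn : 1 ≤ n) (X : Fin n → ℝ × ℝ) (hX : Function.Injective X)
    (hX1 : ∀ i, X i ∈ box 1) :
    (⨅ (γ : Measure ((ℝ × ℝ) × (ℝ × ℝ)))
      (_ : γ.map Prod.fst = (n : ℝ≥0∞)⁻¹ • ∑ i, Measure.dirac (X i) ∧
        γ.map Prod.snd = (volume : Measure (ℝ × ℝ)).restrict
          (Set.Icc (0:ℝ) 1 ×ˢ Set.Icc (0:ℝ) 1)),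
      ∫⁻ p, ENNReal.ofReal ((p.1.1 - p.2.1) ^ 2 + (p.1.2 - p.2.2) ^ 2) ∂γ) =
      ENNReal.ofReal (W 1 X (fun _ => (n : ℝ)) / n) := by
  have hn0 : (0 : ℝ) < n := by exact_mod_cast hn
  apply le_antisymm
  · -- choose almost optimal plans
    apply ENNReal.le_of_forall_pos_le_add
    intro ε hε _
    have hne : {c | ∃ w : Fin n → ℝ × ℝ → ℝ, IsPlan 1 (fun _ => (n : ℝ)) w ∧
        c = cost 1 X (fun _ => (n : ℝ)) w}.Nonempty := by
      refine ⟨_, fun _ _ => 1 / (n : ℝ), ⟨fun _ => measurable_const, fun _ _ => by positivity,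
        fun y _ => ?_, fun i => ?_⟩, rfl⟩
      · rw [Finset.sum_const, Finset.card_univ, Fintype.card_fin, nsmul_eq_mul]
        field_simp
      · have h6 : ∫ y in box 1, (1 / (n : ℝ)) * (n : ℝ) = ∫ y, (1 / (n : ℝ)) * (n : ℝ) ∂U := rfl
        rw [h6, integral_const, probReal_univ, one_smul]
        field_simp
    have hlt : W 1 X (fun _ => (n : ℝ)) < W 1 X (fun _ => (n : ℝ)) + n * ε := by
      have : (0 : ℝ) < n * ε := by positivity
      linarith
    obtain ⟨c, ⟨w, hw, rfl⟩, hc⟩ := exists_lt_of_csInf_lt hne hlt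
    refine (C9_le hn X hw).trans ?_
    have h7 : cost 1 X (fun _ => (n : ℝ)) w / n ≤ W 1 X (fun _ => (n : ℝ)) / n + ε := by
      rw [div_add' _ _ _ hn0.ne', div_le_div_iff_of_pos_right hn0]
      linarith
    refine (ENNReal.ofReal_le_ofReal h7).trans ?_
    have h8 : 0 ≤ W 1 X (fun _ => (n : ℝ)) / n := div_nonneg (W_nonneg X fun _ _ => hn0.le) hn0.le
    rw [ENNReal.ofReal_add h8 (NNReal.coe_nonneg ε), ENNReal.ofReal_coe_nnreal]
  · refine le_iInf₂ fun γ hγ => ?_
    exact C9_ge hn X hX γ hγ.1 hγ.2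

theorem bridge {n : ℕ} (hn : 1 ≤ n) :
    (∫⁻ X : Fin n → ℝ × ℝ,
      (⨅ (γ : Measure ((ℝ × ℝ) × (ℝ × ℝ)))
        (_ : γ.map Prod.fst = (n : ℝ≥0∞)⁻¹ • ∑ i, Measure.dirac (X i) ∧
          γ.map Prod.snd = (volume : Measure (ℝ × ℝ)).restrict
            (Set.Icc (0:ℝ) 1 ×ˢ Set.Icc (0:ℝ) 1)),
        ∫⁻ p, ENNReal.ofReal ((p.1.1 - p.2.1) ^ 2 + (p.1.2 - p.2.2) ^ 2) ∂γ)
      ∂(Measure.pi fun _ : Fin n =>
        (volume : Measure (ℝ × ℝ)).restrict (Set.Icc (0:ℝ) 1 ×ˢ Set.Icc (0:ℝ) 1))).toReal =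
      F n / n := by
  have hn0 : (0 : ℝ) < n := by exact_mod_cast hn
  have e1 : (Measure.pi fun _ : Fin n =>
      (volume : Measure (ℝ × ℝ)).restrict (Set.Icc (0:ℝ) 1 ×ˢ Set.Icc (0:ℝ) 1)) = UU (Fin n) := rfl
  rw [e1]
  have hae := ae_inj n
  have h1 : ∀ᵐ X ∂(UU (Fin n)),
      (⨅ (γ : Measure ((ℝ × ℝ) × (ℝ × ℝ)))
        (_ : γ.map Prod.fst = (n : ℝ≥0∞)⁻¹ • ∑ i, Measure.dirac (X i) ∧
          γ.map Prod.snd = (volume : Measure (ℝ × ℝ)).restrict
            (Set.Icc (0:ℝ) 1 ×ˢ Set.Icc (0:ℝ) 1)),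
        ∫⁻ p, ENNReal.ofReal ((p.1.1 - p.2.1) ^ 2 + (p.1.2 - p.2.2) ^ 2) ∂γ) =
      ENNReal.ofReal (W 1 X (fun _ => (n : ℝ)) / n) := by
    filter_upwards [hae] with X hX
    apply coupling hn X hX.1
    intro i
    have := hX.2 i
    exact ⟨⟨this.1.1, this.1.2.le⟩, ⟨this.2.1, this.2.2.le⟩⟩
  rw [lintegral_congr_ae h1, ← ofReal_integral_eq_lintegral_ofReal
    ((W_integrable (ι := Fin n) hn0.le).div_const _)
    (Filter.Eventually.of_forall fun X => div_nonneg (W_nonneg X fun _ _ => hn0.le) hn0.le),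
    ENNReal.toReal_ofReal (integral_nonneg fun X => div_nonneg (W_nonneg X fun _ _ => hn0.le) hn0.le),
    integral_div]
  rfl

end Pool.Agent.Lib.H77M
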