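import Pool.Agent.Lib.H77M.D2
import Pool.Agent.Lib.H77M.D3

/-!
# Project H77M, chunk D4: the potential `phi`, (D4) of PROOF.md
-/

open MeasureTheory Set ProbabilityTheory
open scoped ContDiff

namespace Pool.Agent.Lib.H77M

/-! ### auxiliary lemmas -/

theorem D4c_P_sum {L r : ℝ} (hL : 0 < L) {ι : Type} [Fintype ι] {g : ι → ℝ × ℝ → ℝ}
    (hg : ∀ i, CP L (g i)) (x : ℝ × ℝ) : P r (fun y => ∑ i, g i y) x = ∑ i, P r (g i) x := by
  unfold P
  rw [integral_finsetSum]
  intro i _
  obtain ⟨M, -, hM⟩ := CP_bdd hL (hg i)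
  exact P_int (hg i).cont hM x

theorem phi_EP {L t : ℝ} (hL : 0 < L) (ht : 0 < t) {ι : Type} [Fintype ι] (X : ι → ℝ × ℝ) :
    EP L (phi L t X) :=
  EP_sum fun i => kk_EP hL ht (X i)

theorem D4c_P_phi {L t r : ℝ} (hL : 0 < L) (ht : 0 < t) (hr : 0 ≤ r) {ι : Type} [Fintype ι]
    (X : ι → ℝ × ℝ) : P r (phi L t X) = phi L (t + r) X := by
  funext x
  have h1 : P r (phi L t X) x = ∑ i, P r (kk L t (X i)) x :=
    D4c_P_sum hL (fun i => (kk_EP hL ht (X i)).toCP) x
  rw [h1]
  unfold phi
  exact Finset.sum_congr rfl fun i _ => congrFun (P_kk hL ht hr (X i)) x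

theorem phi_lap {L t : ℝ} (hL : 0 < L) (ht : 0 < t) {ι : Type} [Fintype ι] (X : ι → ℝ × ℝ)
    (y : ℝ × ℝ) : lap (phi L t X) y = (Fintype.card ι : ℝ) / L ^ 2 - rho L t X y := by
  have h1 : lap (phi L t X) y = ∑ i, lap (kk L t (X i)) y := by
    have e1 := congrFun (D2c_sum (fun i => (kk_EP hL ht (X i)).smooth) [true, true]) y
    have e2 := congrFun (D2c_sum (fun i => (kk_EP hL ht (X i)).smooth) [false, false]) y
    have e3 : lap (phi L t X) y = Ds [true, true] (phi L t X) y + Ds [false, false] (phi L t X) y :=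
      rfl
    have e4 : Ds [true, true] (phi L t X) y = ∑ i, Ds [true, true] (kk L t (X i)) y := e1
    have e5 : Ds [false, false] (phi L t X) y = ∑ i, Ds [false, false] (kk L t (X i)) y := e2
    rw [e3, e4, e5, ← Finset.sum_add_distrib]
    rfl
  rw [h1, Finset.sum_congr rfl fun i _ => lap_kk hL ht (X i) y, Finset.sum_sub_distrib]
  simp only [Finset.sum_const, Finset.card_univ, nsmul_eq_mul, rho]
  ring

theorem phi_int {L t : ℝ} (hL : 0 < L) (ht : 0 < t) {ι : Type} [Fintype ι] (X : ι → ℝ × ℝ) :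
    ∫ y in box L, phi L t X y = 0 := by
  unfold phi
  rw [integral_finsetSum]
  · exact Finset.sum_eq_zero fun i _ => int_kk hL ht (X i)
  · intro i _
    exact D1c_intbox (kk_EP hL ht (X i)).cont L

theorem phi_sum {L t : ℝ} {ι : Type} [Fintype ι] (X : ι → ℝ × ℝ) :
    ∑ i, phi L t X (X i) = En L t X := by
  unfold phi En
  exact Finset.sum_comm

theorem phi_rho {L t : ℝ} (hL : 0 < L) (ht : 0 < t) {ι : Type} [Fintype ι] (X : ι → ℝ × ℝ) :
    ∫ y in box L, phi L t X y * rho L t X y = En L (2 * t) X := by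
  rw [int_mul_rho hL ht X (phi_EP hL ht X).toCP, D4c_P_phi hL ht ht.le, ← two_mul, phi_sum]

theorem phi_gsq {L t : ℝ} (hL : 0 < L) (ht : 0 < t) {ι : Type} [Fintype ι] (X : ι → ℝ × ℝ) :
    ∫ y in box L, gsq (phi L t X) y = En L (2 * t) X := by
  have hE := phi_EP hL ht X
  have h1 := ibp hL (hE.smooth.of_le (by exact_mod_cast le_top) : ContDiff ℝ 1 (phi L t X)) hE
  have h2 : ∫ y in box L, gsq (phi L t X) y = ∫ x in box L, (D1 (phi L t X) x * D1 (phi L t X) x +
      D2 (phi L t X) x * D2 (phi L t X) x) := by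
    refine integral_congr_ae (Filter.Eventually.of_forall fun x => ?_)
    simp only [gsq]
    ring
  rw [h2, h1]
  simp only [phi_lap hL ht]
  have h3 : ∀ x, phi L t X x * ((Fintype.card ι : ℝ) / L ^ 2 - rho L t X x) =
      (Fintype.card ι : ℝ) / L ^ 2 * phi L t X x - phi L t X x * rho L t X x := fun x => by ring
  simp only [h3]
  have i1 : Integrable (fun x => (Fintype.card ι : ℝ) / L ^ 2 * phi L t X x)
      (volume.restrict (box L)) := D1c_intbox (hE.cont.const_mul _) L
  have i2 : Integrable (fun x => phi L t X x * rho L t X x) (volume.restrict (box L)) :=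
    D1c_intbox (hE.cont.mul (rho_EP hL ht X).cont) L
  rw [integral_sub i1 i2, integral_const_mul, phi_int hL ht, phi_rho hL ht]
  ring

theorem D4c_int {u b B : ℝ → ℝ} {a c : ℝ} (hac : a ≤ c)
    (hB : ∀ s ∈ Icc a c, HasDerivAt B (b s) s) (hb : ContinuousOn b (Icc a c))
    (h : ∀ s ∈ Icc a c, |u s| ≤ b s) : |∫ s in a..c, u s| ≤ B c - B a := by
  have hi : IntervalIntegrable b volume a c := by
    apply ContinuousOn.intervalIntegrable
    rwa [uIcc_of_le hac]
  have h1 := intervalIntegral.norm_integral_le_of_norm_le (μ := volume) (f := u) (g := b) hac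
    (Filter.Eventually.of_forall fun s hs => by
      rw [Real.norm_eq_abs]
      exact h s ⟨hs.1.le, hs.2⟩) hi
  rw [intervalIntegral.integral_eq_sub_of_hasDerivAt (fun s hs => hB s (by rwa [uIcc_of_le hac] at hs))
    hi] at h1
  exact h1

theorem D4c_lim {x B : ℝ} {r : ℝ → ℝ} (hr : Filter.Tendsto r Filter.atTop (nhds 0))
    (h : ∀ᶠ T in Filter.atTop, x ≤ B + r T) : x ≤ B := by
  have h1 := hr.const_add B
  rw [add_zero] at h1
  exact ge_of_tendsto h1 h

theorem D4c_add {f g : ℝ × ℝ → ℝ} (hf : ContDiff ℝ ∞ f) (hg : ContDiff ℝ ∞ g) :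
    (D1 (fun y => f y + g y) = fun y => D1 f y + D1 g y) ∧
      (D2 (fun y => f y + g y) = fun y => D2 f y + D2 g y) := by
  have h1 := d3_D1_add hf hg 0
  have h2 := d3_D2_add hf hg 0
  simp only [add_zero] at h1 h2
  exact ⟨h1, h2⟩

/-- the head of the time integral -/
noncomputable def D4h (L t T : ℝ) {ι : Type} [Fintype ι] (X : ι → ℝ × ℝ) (y : ℝ × ℝ) : ℝ :=
  ∫ s in (t / 2)..(T - t / 2), P s (rho L (t / 2) X) y

theorem D4c_split {L t T : ℝ} (hL : 0 < L) (ht : 0 < t) (hT : t ≤ T) {ι : Type} [Fintype ι]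
    (X : ι → ℝ × ℝ) : phi L t X = fun y =>
      D4h L t T X y + (Fintype.card ι : ℝ) * (-((T - t) / L ^ 2)) + phi L T X y := by
  funext y
  have ht2 : 0 < t / 2 := by linarith
  have h1 : ∀ i, kk L t (X i) y = (∫ s in (t / 2)..(T - t / 2), P s (p L (t / 2) (X i)) y) +
      (-((T - t) / L ^ 2)) + kk L T (X i) y := by
    intro i
    have h2 := d3_split hL ht hT (X i) y
    rw [intervalIntegral.integral_comp_sub_right (fun s => P s (p L (t / 2) (X i)) y) (t / 2)] at h2
    rw [show t - t / 2 = t / 2 by ring] at h2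
    exact h2
  have hc : ∀ i, Continuous fun s : ℝ => P s (p L (t / 2) (X i)) y := by
    intro i
    have h5 := P_cont hL (p_EP hL ht2 (X i)).toCP
    have h6 : Continuous fun s : ℝ => (s, y) := continuous_id.prodMk continuous_const
    have h7 := Continuous.comp' h5 h6
    exact h7
  have h6 : ∫ s in (t / 2)..(T - t / 2), ∑ i, P s (p L (t / 2) (X i)) y =
      ∑ i, ∫ s in (t / 2)..(T - t / 2), P s (p L (t / 2) (X i)) y :=
    intervalIntegral.integral_finsetSum fun i _ => (hc i).intervalIntegrable _ _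
  have h2 : D4h L t T X y = ∑ i, ∫ s in (t / 2)..(T - t / 2), P s (p L (t / 2) (X i)) y := by
    rw [← h6]
    unfold D4h
    refine intervalIntegral.integral_congr fun s _ => ?_
    exact D4c_P_sum hL (fun i => (p_EP hL ht2 (X i)).toCP) y
  unfold phi
  rw [Finset.sum_congr rfl fun i _ => h1 i, Finset.sum_add_distrib, Finset.sum_add_distrib, ← h2]
  simp

theorem D4c_D {L t T : ℝ} (hL : 0 < L) (ht : 0 < t) (hT : t ≤ T) {ι : Type} [Fintype ι]
    (X : ι → ℝ × ℝ) (l : List Bool) (hl : l.length = 1 ∨ l.length = 2) (y : ℝ × ℝ) :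
    Ds l (phi L t X) y = (∫ s in (t / 2)..(T - t / 2), Ds l (rho L (t / 2 + s) X) y) +
      Ds l (phi L T X) y := by
  have ht2 : 0 < t / 2 := by linarith
  have hT0 : 0 < T := by linarith
  obtain ⟨hE, -, t1, t2, t11, t12, t21, t22⟩ := timeint hL ht2
    (by linarith : t / 2 ≤ T - t / 2) (rho_EP hL ht2 X).toCP
  have hE' : ContDiff ℝ ∞ (D4h L t T X) := hE.smooth
  have hF := (phi_EP hL hT0 X).smooth
  have e := D4c_split hL ht hT X
  have d1 := d3_D1_add hE' hF ((Fintype.card ι : ℝ) * (-((T - t) / L ^ 2)))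
  have d2 := d3_D2_add hE' hF ((Fintype.card ι : ℝ) * (-((T - t) / L ^ 2)))
  rw [← e] at d1 d2
  obtain ⟨a11, a12⟩ := D4c_add (A1_smooth1 hE') (A1_smooth1 hF)
  obtain ⟨a21, a22⟩ := D4c_add (A1_smooth2 hE') (A1_smooth2 hF)
  have hP : ∀ s ∈ uIcc (t / 2) (T - t / 2), P s (rho L (t / 2) X) = rho L (t / 2 + s) X := by
    intro s hs
    rw [uIcc_of_le (by linarith)] at hs
    exact D2c_P_rho hL ht2 (by linarith [hs.1]) X
  match l, hl with
  | [], h => simp at h
  | [true], _ =>
    change D1 (phi L t X) y = (∫ s in (t / 2)..(T - t / 2), D1 (rho L (t / 2 + s) X) y) +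
      D1 (phi L T X) y
    rw [d1]
    simp only
    rw [show D1 (D4h L t T X) y = _ from t1 y]
    congr 1
    exact intervalIntegral.integral_congr fun s hs => by rw [hP s hs]
  | [false], _ =>
    change D2 (phi L t X) y = (∫ s in (t / 2)..(T - t / 2), D2 (rho L (t / 2 + s) X) y) +
      D2 (phi L T X) y
    rw [d2]
    simp only
    rw [show D2 (D4h L t T X) y = _ from t2 y]
    congr 1
    exact intervalIntegral.integral_congr fun s hs => by rw [hP s hs]
  | [true, true], _ =>
    change D1 (D1 (phi L t X)) y = (∫ s in (t / 2)..(T - t / 2), D1 (D1 (rho L (t / 2 + s) X)) y) +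
      D1 (D1 (phi L T X)) y
    rw [d1, a11]
    simp only
    rw [show D1 (D1 (D4h L t T X)) y = _ from t11 y]
    congr 1
    exact intervalIntegral.integral_congr fun s hs => by rw [hP s hs]
  | [true, false], _ =>
    change D1 (D2 (phi L t X)) y = (∫ s in (t / 2)..(T - t / 2), D1 (D2 (rho L (t / 2 + s) X)) y) +
      D1 (D2 (phi L T X)) y
    rw [d2, a21]
    simp only
    rw [show D1 (D2 (D4h L t T X)) y = _ from t12 y]
    congr 1
    exact intervalIntegral.integral_congr fun s hs => by rw [hP s hs]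
  | [false, true], _ =>
    change D2 (D1 (phi L t X)) y = (∫ s in (t / 2)..(T - t / 2), D2 (D1 (rho L (t / 2 + s) X)) y) +
      D2 (D1 (phi L T X)) y
    rw [d1, a12]
    simp only
    rw [show D2 (D1 (D4h L t T X)) y = _ from t21 y]
    congr 1
    exact intervalIntegral.integral_congr fun s hs => by rw [hP s hs]
  | [false, false], _ =>
    change D2 (D2 (phi L t X)) y = (∫ s in (t / 2)..(T - t / 2), D2 (D2 (rho L (t / 2 + s) X)) y) +
      D2 (D2 (phi L T X)) y
    rw [d2, a22]
    simp only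
    rw [show D2 (D2 (D4h L t T X)) y = _ from t22 y]
    congr 1
    exact intervalIntegral.integral_congr fun s hs => by rw [hP s hs]
  | _ :: _ :: _ :: _, h => simp at h

/-- the bound for the first derivatives of `rho`, at all times -/
theorem D4c_first : ∃ C : ℝ, 0 < C ∧ ∀ (K L : ℝ) {ι : Type} [Fintype ι] (X : ι → ℝ × ℝ),
    Reg K L X → ∀ s : ℝ, 1 ≤ s → ∀ b : Bool, ∀ y,
      |Ds [b] (rho L s X) y| ≤ C * K ^ 2 * (1 / s - 1 / (s + L ^ 2)) := by
  obtain ⟨C1, hC1, h1⟩ := rho_bd
  obtain ⟨c, C2, hc, hC2, h2⟩ := rho_large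
  refine ⟨2 * C1 + C2 * (4 / c ^ 2), by positivity, fun K L ι _ X hX s hs b y => ?_⟩
  have hL : 0 < L := by linarith [hX.one_le]
  have hL20 : 0 < L ^ 2 := by positivity
  have hs0 : 0 < s := by linarith
  have e : 1 / s - 1 / (s + L ^ 2) = L ^ 2 / (s * (s + L ^ 2)) := by
    field_simp
    ring
  rw [e]
  have hR : 0 < L ^ 2 / (s * (s + L ^ 2)) := by positivity
  have hsp : 0 < 4 / c ^ 2 := by positivity
  rcases le_or_gt s (L ^ 2) with h | h
  · have h3 := h1 K L X hX s hs [b] (by simp) y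
    rw [D2c_sqrt hs0] at h3
    simp only [List.cons_ne_nil, if_false, sub_zero, List.length_singleton] at h3
    have h4 : (1 / √s) ^ (1 + 1) = 1 / s := by
      rw [show 1 + 1 = 2 from rfl, div_pow, one_pow, Real.sq_sqrt hs0.le]
    rw [h4] at h3
    refine h3.trans ?_
    have h5 : 1 / s ≤ 2 * (L ^ 2 / (s * (s + L ^ 2))) := by
      rw [← mul_div_assoc, div_le_div_iff₀ hs0 (by positivity)]
      nlinarith
    calc C1 * K ^ 2 * (1 / s) ≤ C1 * K ^ 2 * (2 * (L ^ 2 / (s * (s + L ^ 2)))) := by gcongr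
      _ = 2 * C1 * K ^ 2 * (L ^ 2 / (s * (s + L ^ 2))) := by ring
      _ ≤ (2 * C1 + C2 * (4 / c ^ 2)) * K ^ 2 * (L ^ 2 / (s * (s + L ^ 2))) := by
          gcongr
          have : 0 < C2 * (4 / c ^ 2) := by positivity
          linarith
  · have h3 := h2 K L X hX s h.le [b] (by simp) y
    simp only [List.cons_ne_nil, if_false, sub_zero, List.length_singleton] at h3
    refine h3.trans ?_
    have h5 : (1 / L) ^ (1 + 1) * Real.exp (-c * (s / L ^ 2)) ≤
        4 / c ^ 2 * (L ^ 2 / (s * (s + L ^ 2))) := by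
      set x := s / L ^ 2 with hx
      have hx1 : 1 < x := by rw [hx, lt_div_iff₀ hL20]; linarith
      have hsx : s = x * L ^ 2 := by rw [hx]; field_simp
      have h6 : Real.exp (-c * x) ≤ 2 / (c * x) ^ 2 := by
        have h7 := Real.quadratic_le_exp_of_nonneg (by positivity : 0 ≤ c * x)
        rw [show -c * x = -(c * x) by ring, Real.exp_neg, inv_eq_one_div,
          div_le_div_iff₀ (Real.exp_pos _) (by positivity)]
        nlinarith
      have h8 : (1 / L) ^ (1 + 1) = 1 / L ^ 2 := by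
        rw [show 1 + 1 = 2 from rfl, div_pow, one_pow]
      rw [h8]
      calc 1 / L ^ 2 * Real.exp (-c * x) ≤ 1 / L ^ 2 * (2 / (c * x) ^ 2) := by gcongr
        _ ≤ 4 / c ^ 2 * (L ^ 2 / (s * (s + L ^ 2))) := by
            rw [hsx]
            have e1 : 1 / L ^ 2 * (2 / (c * x) ^ 2) = 2 / (c ^ 2 * L ^ 2 * x ^ 2) := by
              field_simp
            have e2 : 4 / c ^ 2 * (L ^ 2 / (x * L ^ 2 * (x * L ^ 2 + L ^ 2))) =
                4 / (c ^ 2 * L ^ 2 * (x * (x + 1))) := by
              field_simp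
            rw [e1, e2, div_le_div_iff₀ (by positivity) (by positivity)]
            have : 2 * (x * (x + 1)) ≤ 4 * x ^ 2 := by nlinarith
            have hc2 : 0 < c ^ 2 * L ^ 2 := by positivity
            nlinarith
    calc C2 * K ^ 2 * (1 / L) ^ (1 + 1) * Real.exp (-c * (s / L ^ 2)) =
          C2 * K ^ 2 * ((1 / L) ^ (1 + 1) * Real.exp (-c * (s / L ^ 2))) := by ring
      _ ≤ C2 * K ^ 2 * (4 / c ^ 2 * (L ^ 2 / (s * (s + L ^ 2)))) := by gcongr
      _ = C2 * (4 / c ^ 2) * K ^ 2 * (L ^ 2 / (s * (s + L ^ 2))) := by ring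
      _ ≤ (2 * C1 + C2 * (4 / c ^ 2)) * K ^ 2 * (L ^ 2 / (s * (s + L ^ 2))) := by
          gcongr
          linarith

theorem D4c_grad : ∃ C : ℝ, 0 < C ∧ ∀ (K L : ℝ) {ι : Type} [Fintype ι] (X : ι → ℝ × ℝ), Reg K L X →
    ∀ t : ℝ, 1 ≤ t → ∀ b : Bool, ∀ y, |Ds [b] (phi L t X) y| ≤ C * K ^ 3 := by
  obtain ⟨C, hC, h⟩ := D4c_first
  refine ⟨2 * C, by positivity, fun K L ι _ X hX t ht b y => ?_⟩
  have hL1 := hX.one_le
  have hL : 0 < L := by linarith
  have hL20 : 0 < L ^ 2 := by positivity
  have ht0 : 0 < t := by linarith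
  have hK := D1c_one hX
  obtain ⟨M, hM0, hM⟩ := CP_bdd hL (phi_EP hL ht0 X).toCP
  apply D4c_lim (r := fun T => M / √(T - t))
  · refine tendsto_const_nhds.div_atTop (Real.tendsto_sqrt_atTop.comp ?_)
    exact Filter.tendsto_atTop_add_const_right _ (-t) Filter.tendsto_id
  · filter_upwards [Filter.eventually_gt_atTop t] with T hT
    have hT0 : 0 < T := by linarith
    rw [D4c_D hL ht0 hT.le X [b] (Or.inl rfl) y]
    refine (abs_add_le _ _).trans (add_le_add ?_ ?_)
    · have h1 := D4c_int (u := fun s => Ds [b] (rho L (t / 2 + s) X) y)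
        (b := fun s => C * K ^ 2 * (1 / (t / 2 + s) - 1 / (t / 2 + s + L ^ 2)))
        (B := fun s => C * K ^ 2 * (Real.log (t / 2 + s) - Real.log (t / 2 + s + L ^ 2)))
        (a := t / 2) (c := T - t / 2) (by linarith)
        (fun s hs => by
          have p1 : 0 < t / 2 + s := by linarith [hs.1]
          have p2 : 0 < t / 2 + s + L ^ 2 := by linarith
          have q1 : HasDerivAt (fun s => t / 2 + s) 1 s := (hasDerivAt_id s).const_add _
          have q2 : HasDerivAt (fun s => t / 2 + s + L ^ 2) 1 s := q1.add_const _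
          exact ((q1.log p1.ne').sub (q2.log p2.ne')).const_mul _)
        (by
          apply ContinuousOn.mul continuousOn_const
          apply ContinuousOn.sub
          · apply ContinuousOn.div continuousOn_const (by fun_prop)
            intro s hs
            have : 0 < t / 2 + s := by linarith [hs.1]
            exact this.ne'
          · apply ContinuousOn.div continuousOn_const (by fun_prop)
            intro s hs
            have : 0 < t / 2 + s + L ^ 2 := by linarith [hs.1]
            exact this.ne')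
        (fun s hs => h K L X hX (t / 2 + s) (by linarith [hs.1]) b y)
      refine h1.trans ?_
      rw [show t / 2 + (T - t / 2) = T by ring, show t / 2 + t / 2 = t by ring, ← mul_sub]
      have h2 : Real.log T ≤ Real.log (T + L ^ 2) := Real.log_le_log hT0 (by linarith)
      have h3 : Real.log (t + L ^ 2) - Real.log t ≤ 2 * K := by
        rw [← Real.log_div (by positivity) (by positivity)]
        have h4 : (t + L ^ 2) / t ≤ Real.exp 1 * L ^ 2 := by
          rw [div_le_iff₀ ht0]
          have he : 2 ≤ Real.exp 1 := by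
            have := Real.exp_one_gt_d9
            linarith
          have h6 : 1 ≤ L ^ 2 := by nlinarith
          have h7 : t + L ^ 2 ≤ 2 * (L ^ 2 * t) := by nlinarith
          have h8 : 0 < L ^ 2 * t := by positivity
          nlinarith
        have h5 := Real.log_le_log (by positivity) h4
        rw [Real.log_mul (Real.exp_pos 1).ne' (by positivity), Real.log_exp, Real.log_pow] at h5
        have h6 := hX.log_le
        push_cast at h5
        linarith
      have h5 : Real.log T - Real.log (T + L ^ 2) - (Real.log t - Real.log (t + L ^ 2)) ≤ 2 * K := by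
        linarith
      calc C * K ^ 2 * (Real.log T - Real.log (T + L ^ 2) - (Real.log t - Real.log (t + L ^ 2))) ≤
            C * K ^ 2 * (2 * K) := by gcongr
        _ = 2 * C * K ^ 3 := by ring
    · have h1 := Grad_P hL (by linarith : 0 < T - t) (phi_EP hL ht0 X).toCP hM
      rw [D4c_P_phi hL ht0 (by linarith : 0 ≤ T - t), add_sub_cancel] at h1
      cases b
      · exact (h1 y).2
      · exact (h1 y).1

theorem D4c_hess : ∃ C : ℝ, 0 < C ∧ ∀ (K L : ℝ) {ι : Type} [Fintype ι] (X : ι → ℝ × ℝ), Reg K L X →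
    ∀ t : ℝ, 1 ≤ t → ∀ b b' : Bool, ∀ y, |Ds [b, b'] (phi L t X) y| ≤ C * K ^ 2 / √t := by
  obtain ⟨C, hC, h⟩ := rho_bd
  refine ⟨2 * C, by positivity, fun K L ι _ X hX t ht b b' y => ?_⟩
  have hL1 := hX.one_le
  have hL : 0 < L := by linarith
  have ht0 : 0 < t := by linarith
  have hK := D1c_one hX
  obtain ⟨M, hM0, hM⟩ := CP_bdd hL (phi_EP hL ht0 X).toCP
  apply D4c_lim (r := fun T => 2 * M / (T - t))
  · refine tendsto_const_nhds.div_atTop ?_
    exact Filter.tendsto_atTop_add_const_right _ (-t) Filter.tendsto_id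
  · filter_upwards [Filter.eventually_gt_atTop t] with T hT
    have hT0 : 0 < T := by linarith
    rw [D4c_D hL ht0 hT.le X [b, b'] (Or.inr rfl) y]
    refine (abs_add_le _ _).trans (add_le_add ?_ ?_)
    · have h1 := D4c_int (u := fun s => Ds [b, b'] (rho L (t / 2 + s) X) y)
        (b := fun s => C * K ^ 2 * ((1 / √(t / 2 + s)) ^ 3))
        (B := fun s => C * K ^ 2 * (-2 * (√(t / 2 + s))⁻¹))
        (a := t / 2) (c := T - t / 2) (by linarith)
        (fun s hs => by
          have p1 : 0 < t / 2 + s := by linarith [hs.1]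
          have q1 : HasDerivAt (fun s => t / 2 + s) 1 s := (hasDerivAt_id s).const_add _
          have q2 := q1.sqrt p1.ne'
          have hss : 0 < √(t / 2 + s) := Real.sqrt_pos.2 p1
          have q3 := q2.inv hss.ne'
          have q4 := (q3.const_mul (-2)).const_mul (C * K ^ 2)
          refine q4.congr_deriv ?_
          field_simp)
        (by
          apply ContinuousOn.mul continuousOn_const
          apply ContinuousOn.pow
          apply ContinuousOn.div continuousOn_const (by fun_prop)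
          intro s hs
          have : 0 < t / 2 + s := by linarith [hs.1]
          exact (Real.sqrt_pos.2 this).ne')
        (fun s hs => by
          have p1 : 0 < t / 2 + s := by linarith [hs.1]
          have h2 := h K L X hX (t / 2 + s) (by linarith [hs.1]) [b, b'] (by simp) y
          rw [D2c_sqrt p1] at h2
          simp only [List.cons_ne_nil, if_false, sub_zero] at h2
          exact h2)
      refine h1.trans ?_
      rw [show t / 2 + (T - t / 2) = T by ring, show t / 2 + t / 2 = t by ring, ← mul_sub]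
      have h2 : 0 ≤ (√T)⁻¹ := by positivity
      calc C * K ^ 2 * (-2 * (√T)⁻¹ - -2 * (√t)⁻¹) ≤ C * K ^ 2 * (2 * (√t)⁻¹) := by
            gcongr
            linarith
        _ = 2 * C * K ^ 2 / √t := by
            field_simp
    · have h1 := Hess_P hL (by linarith : 0 < T - t) (phi_EP hL ht0 X).toCP hM
      rw [D4c_P_phi hL ht0 (by linarith : 0 ≤ T - t), add_sub_cancel] at h1
      obtain ⟨g1, g2, g3, g4⟩ := h1 y
      cases b <;> cases b'
      · exact g4
      · exact g3
      · exact g2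
      · exact g1

/-- derivatives of `phi` are time integrals of derivatives of `rho`: integrate `rho_bd` over
`[t, L ^ 2]` and `rho_large` over `[L ^ 2, ∞)` -/
theorem phi_bd : ∃ C : ℝ, 0 < C ∧ ∀ (K L : ℝ) {ι : Type} [Fintype ι] (X : ι → ℝ × ℝ), Reg K L X →
    ∀ t : ℝ, 1 ≤ t → Grad (phi L t X) (C * K ^ 3) ∧ Hess (phi L t X) (C * K ^ 2 / √t) := by
  obtain ⟨C1, hC1, h1⟩ := D4c_grad
  obtain ⟨C2, hC2, h2⟩ := D4c_hess
  refine ⟨C1 + C2, by positivity, fun K L ι _ X hX t ht => ⟨fun y => ?_, fun y => ?_⟩⟩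
  · have hK := D1c_one hX
    have hle : C1 * K ^ 3 ≤ (C1 + C2) * K ^ 3 := by
      gcongr
      linarith
    exact ⟨(h1 K L X hX t ht true y).trans hle, (h1 K L X hX t ht false y).trans hle⟩
  · have hK := D1c_one hX
    have hle : C2 * K ^ 2 / √t ≤ (C1 + C2) * K ^ 2 / √t := by
      gcongr
      linarith
    exact ⟨(h2 K L X hX t ht true true y).trans hle, (h2 K L X hX t ht true false y).trans hle,
      (h2 K L X hX t ht false true y).trans hle, (h2 K L X hX t ht false false y).trans hle⟩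

end Pool.Agent.Lib.H77M
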