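import Pool.Agent.Lib.H77M.A3

/-!
# Project H77M, chunk D5: the maps `z ↦ z + s ∇ φ (z)`, (LIN) of PROOF.md
-/

open MeasureTheory Set ProbabilityTheory
open scoped ContDiff

namespace Pool.Agent.Lib.H77M

/-- the map `z ↦ z + s ∇ φ (z)` -/
noncomputable def gmap (s : ℝ) (φ : ℝ × ℝ → ℝ) (z : ℝ × ℝ) : ℝ × ℝ :=
  (z.1 + s * D1 φ z, z.2 + s * D2 φ z)

/-- the Jacobian of `gmap s φ` -/
noncomputable def jac (s : ℝ) (φ : ℝ × ℝ → ℝ) (z : ℝ × ℝ) : ℝ :=
  (1 + s * D1 (D1 φ) z) * (1 + s * D2 (D2 φ) z) - s ^ 2 * (D1 (D2 φ) z * D2 (D1 φ) z)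

/-! ### auxiliary facts -/

theorem d5_fderiv (f : ℝ × ℝ → ℝ) (z h : ℝ × ℝ) :
    fderiv ℝ f z h = h.1 * D1 f z + h.2 * D2 f z := by
  have h1 : h = h.1 • ((1 : ℝ), (0 : ℝ)) + h.2 • ((0 : ℝ), (1 : ℝ)) := by
    ext <;> simp
  conv_lhs => rw [h1]
  rw [map_add, map_smul, map_smul]
  rfl

theorem d5_diff {f : ℝ × ℝ → ℝ} (hf : ContDiff ℝ ∞ f) : Differentiable ℝ f :=
  hf.differentiable (by simp)

theorem d5_lip {g : ℝ × ℝ → ℝ} (hg : ContDiff ℝ ∞ g) {ε : ℝ} (h1 : ∀ z, |D1 g z| ≤ ε)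
    (h2 : ∀ z, |D2 g z| ≤ ε) (z w : ℝ × ℝ) : |g z - g w| ≤ 2 * ε * ‖z - w‖ := by
  have hε : 0 ≤ ε := le_trans (abs_nonneg _) (h1 0)
  have h := convex_univ.norm_image_sub_le_of_norm_fderiv_le (𝕜 := ℝ) (f := g) (C := 2 * ε)
    (x := w) (y := z) (fun x _ => (d5_diff hg) x) (fun x _ => by
      refine ContinuousLinearMap.opNorm_le_bound _ (by positivity) fun v => ?_
      rw [d5_fderiv, Real.norm_eq_abs]
      have e1 : |v.1| ≤ ‖v‖ := norm_fst_le v
      have e2 : |v.2| ≤ ‖v‖ := norm_snd_le v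
      calc |v.1 * D1 g x + v.2 * D2 g x| ≤ |v.1 * D1 g x| + |v.2 * D2 g x| := abs_add_le _ _
        _ = |v.1| * |D1 g x| + |v.2| * |D2 g x| := by rw [abs_mul, abs_mul]
        _ ≤ ‖v‖ * ε + ‖v‖ * ε := by
            gcongr
            · exact h1 x
            · exact h2 x
        _ = 2 * ε * ‖v‖ := by ring) (mem_univ w) (mem_univ z)
  simpa using h

theorem d5_eps {φ : ℝ × ℝ → ℝ} {ε : ℝ} (hH : Hess φ ε) : 0 ≤ ε :=
  le_trans (abs_nonneg _) (hH 0).1

theorem d5_lipD1 {L ε : ℝ} {φ : ℝ × ℝ → ℝ} (hφ : EP L φ) (hH : Hess φ ε) (z w : ℝ × ℝ) :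
    |D1 φ z - D1 φ w| ≤ 2 * ε * ‖z - w‖ :=
  d5_lip (D_smooth hφ.smooth).1 (fun x => (hH x).1) (fun x => (hH x).2.2.1) z w

theorem d5_lipD2 {L ε : ℝ} {φ : ℝ × ℝ → ℝ} (hφ : EP L φ) (hH : Hess φ ε) (z w : ℝ × ℝ) :
    |D2 φ z - D2 φ w| ≤ 2 * ε * ‖z - w‖ :=
  d5_lip (D_smooth hφ.smooth).2.1 (fun x => (hH x).2.1) (fun x => (hH x).2.2.2) z w

theorem d5_one_dim {x t L : ℝ} (h1 : |t| ≤ 1 / 4 * |x|) (h2 : |t| ≤ 1 / 4 * |x - L|) :
    x + t ∈ Icc 0 L ↔ x ∈ Icc 0 L := by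
  rw [mem_Icc, mem_Icc]
  have ht := abs_le.1 h1
  have ht' := abs_le.1 h2
  constructor
  · rintro ⟨h3, h4⟩
    constructor
    · by_contra hc
      push Not at hc
      rw [abs_of_neg hc] at ht
      linarith
    · by_contra hc
      push Not at hc
      rw [abs_of_pos (by linarith : 0 < x - L)] at ht'
      linarith
  · rintro ⟨h3, h4⟩
    rw [abs_of_nonneg h3] at ht
    rw [abs_of_nonpos (by linarith : x - L ≤ 0)] at ht'
    constructor <;> linarith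

theorem d5_mem {L ε s : ℝ} {φ : ℝ × ℝ → ℝ} (hφ : EP L φ) (hH : Hess φ ε)
    (hε : ε ≤ 1 / 8) (hs : |s| ≤ 1) (z : ℝ × ℝ) : gmap s φ z ∈ box L ↔ z ∈ box L := by
  have hε0 := d5_eps hH
  have key : ∀ (D : ℝ) (r : ℝ), |D| ≤ 2 * ε * r → 0 ≤ r → |s * D| ≤ 1 / 4 * r := by
    intro D r h1 h2
    rw [abs_mul]
    calc |s| * |D| ≤ 1 * |D| := by gcongr
      _ ≤ 2 * ε * r := by rw [one_mul]; exact h1
      _ ≤ 2 * (1 / 8) * r := by gcongr
      _ = 1 / 4 * r := by ring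
  have a1 : |s * D1 φ z| ≤ 1 / 4 * |z.1| := by
    refine key _ _ ?_ (abs_nonneg _)
    have h1 := d5_lipD1 hφ hH z (0, z.2)
    rw [(D1_parity hφ 0 z.2).2.2.2.2.1, sub_zero] at h1
    have h2 : ‖z - (0, z.2)‖ = |z.1| := by
      rw [Prod.norm_def]
      simp
    rwa [h2] at h1
  have a2 : |s * D1 φ z| ≤ 1 / 4 * |z.1 - L| := by
    refine key _ _ ?_ (abs_nonneg _)
    have h1 := d5_lipD1 hφ hH z (L, z.2)
    rw [(D1_parity hφ 0 z.2).2.2.2.2.2, sub_zero] at h1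
    have h2 : ‖z - (L, z.2)‖ = |z.1 - L| := by
      rw [Prod.norm_def]
      simp
    rwa [h2] at h1
  have b1 : |s * D2 φ z| ≤ 1 / 4 * |z.2| := by
    refine key _ _ ?_ (abs_nonneg _)
    have h1 := d5_lipD2 hφ hH z (z.1, 0)
    rw [(D2_parity hφ z.1 0).2.2.2.2.1, sub_zero] at h1
    have h2 : ‖z - (z.1, 0)‖ = |z.2| := by
      rw [Prod.norm_def]
      simp
    rwa [h2] at h1
  have b2 : |s * D2 φ z| ≤ 1 / 4 * |z.2 - L| := by
    refine key _ _ ?_ (abs_nonneg _)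
    have h1 := d5_lipD2 hφ hH z (z.1, L)
    rw [(D2_parity hφ z.1 0).2.2.2.2.2, sub_zero] at h1
    have h2 : ‖z - (z.1, L)‖ = |z.2 - L| := by
      rw [Prod.norm_def]
      simp
    rwa [h2] at h1
  unfold box gmap
  rw [mem_prod, mem_prod]
  exact and_congr (d5_one_dim a1 a2) (d5_one_dim b1 b2)

/-- the gradient as a vector valued map -/
noncomputable def d5_v (φ : ℝ × ℝ → ℝ) (z : ℝ × ℝ) : ℝ × ℝ := (D1 φ z, D2 φ z)

theorem d5_v_lip {L ε s : ℝ} {φ : ℝ × ℝ → ℝ} (hφ : EP L φ) (hH : Hess φ ε)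
    (hε : ε ≤ 1 / 8) (hs : |s| ≤ 1) (z w : ℝ × ℝ) :
    ‖s • d5_v φ z - s • d5_v φ w‖ ≤ 1 / 4 * ‖z - w‖ := by
  have h1 : ‖d5_v φ z - d5_v φ w‖ ≤ 2 * ε * ‖z - w‖ := by
    rw [Prod.norm_def]
    refine max_le ?_ ?_
    · exact d5_lipD1 hφ hH z w
    · exact d5_lipD2 hφ hH z w
  rw [← smul_sub, norm_smul, Real.norm_eq_abs]
  calc |s| * ‖d5_v φ z - d5_v φ w‖ ≤ 1 * (2 * ε * ‖z - w‖) := by gcongr
    _ ≤ 1 * (2 * (1 / 8) * ‖z - w‖) := by gcongr
    _ = 1 / 4 * ‖z - w‖ := by ring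

theorem d5_gmap_eq (s : ℝ) (φ : ℝ × ℝ → ℝ) (z : ℝ × ℝ) : gmap s φ z = z + s • d5_v φ z := by
  ext <;> simp [gmap, d5_v]

theorem d5_inj {L ε s : ℝ} {φ : ℝ × ℝ → ℝ} (hφ : EP L φ) (hH : Hess φ ε)
    (hε : ε ≤ 1 / 8) (hs : |s| ≤ 1) : Function.Injective (gmap s φ) := by
  intro z w h
  rw [d5_gmap_eq, d5_gmap_eq] at h
  have h1 := d5_v_lip hφ hH hε hs w z
  have h2 : s • d5_v φ w - s • d5_v φ z = z - w := by
    have : z = w + s • d5_v φ w - s • d5_v φ z := by rw [← h]; abel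
    nth_rewrite 2 [this]
    abel
  rw [h2, norm_sub_rev w z] at h1
  have h3 : ‖z - w‖ = 0 := by
    have := norm_nonneg (z - w)
    linarith
  exact sub_eq_zero.1 (norm_eq_zero.1 h3)

theorem d5_surj {L ε s : ℝ} {φ : ℝ × ℝ → ℝ} (hφ : EP L φ) (hH : Hess φ ε)
    (hε : ε ≤ 1 / 8) (hs : |s| ≤ 1) : Function.Surjective (gmap s φ) := by
  intro w
  have hc : ContractingWith (1 / 4) (fun z : ℝ × ℝ => w - s • d5_v φ z) := by
    refine ⟨by norm_num, ?_⟩
    refine LipschitzWith.of_dist_le_mul fun a b => ?_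
    rw [dist_eq_norm, dist_eq_norm]
    have h1 := d5_v_lip hφ hH hε hs b a
    have h2 : w - s • d5_v φ a - (w - s • d5_v φ b) = s • d5_v φ b - s • d5_v φ a := by abel
    rw [h2, norm_sub_rev a b]
    simpa using h1
  refine ⟨ContractingWith.fixedPoint _ hc, ?_⟩
  have h1 := hc.fixedPoint_isFixedPt
  rw [d5_gmap_eq]
  have h2 : w - s • d5_v φ (ContractingWith.fixedPoint _ hc) = ContractingWith.fixedPoint _ hc := h1
  nth_rewrite 1 [← h2]
  abel

/-- `gmap s φ` is a bijection of the box (it preserves the edges and is injective; surjective by a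
fixed point argument for the Lipschitz map `z ↦ w - s ∇ φ (z)`, using the symmetries) -/
theorem gmap_bij {L ε s : ℝ} (hL : 0 < L) {φ : ℝ × ℝ → ℝ} (hφ : EP L φ) (hH : Hess φ ε)
    (hε : ε ≤ 1 / 8) (hs : |s| ≤ 1) : BijOn (gmap s φ) (box L) (box L) := by
  refine ⟨fun z hz => (d5_mem hφ hH hε hs z).2 hz, (d5_inj hφ hH hε hs).injOn, fun w hw => ?_⟩
  obtain ⟨z, hz⟩ := d5_surj hφ hH hε hs w
  refine ⟨z, ?_, hz⟩
  rw [← hz] at hw
  exact (d5_mem hφ hH hε hs z).1 hw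

/-- derivative of `gmap` -/
theorem d5_hasFDerivAt {L : ℝ} {φ : ℝ × ℝ → ℝ} (hφ : EP L φ) (s : ℝ) (z : ℝ × ℝ) :
    HasFDerivAt (gmap s φ) ((Matrix.toLin (.finTwoProd ℝ) (.finTwoProd ℝ)
      !![1 + s * D1 (D1 φ) z, s * D2 (D1 φ) z; s * D1 (D2 φ) z,
        1 + s * D2 (D2 φ) z]).toContinuousLinearMap : ℝ × ℝ →L[ℝ] ℝ × ℝ) z := by
  rw [Matrix.toLin_finTwoProd_toContinuousLinearMap]
  have h1 : HasFDerivAt (D1 φ) (fderiv ℝ (D1 φ) z) z :=
    ((d5_diff (D_smooth hφ.smooth).1) z).hasFDerivAt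
  have h2 : HasFDerivAt (D2 φ) (fderiv ℝ (D2 φ) z) z :=
    ((d5_diff (D_smooth hφ.smooth).2.1) z).hasFDerivAt
  have h3 := (hasFDerivAt_fst (𝕜 := ℝ) (p := z)).add (h1.const_mul s)
  have h4 := (hasFDerivAt_snd (𝕜 := ℝ) (p := z)).add (h2.const_mul s)
  have h5 : HasFDerivAt (gmap s φ) ((ContinuousLinearMap.fst ℝ ℝ ℝ + s • fderiv ℝ (D1 φ) z).prod
      (ContinuousLinearMap.snd ℝ ℝ ℝ + s • fderiv ℝ (D2 φ) z)) z := h3.prodMk h4
  refine h5.congr_fderiv (ContinuousLinearMap.ext fun v => Prod.ext ?_ ?_)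
  · change v.1 + s * fderiv ℝ (D1 φ) z v =
      (1 + s * D1 (D1 φ) z) * v.1 + (s * D2 (D1 φ) z) * v.2
    rw [d5_fderiv]
    ring
  · change v.2 + s * fderiv ℝ (D2 φ) z v =
      (s * D1 (D2 φ) z) * v.1 + (1 + s * D2 (D2 φ) z) * v.2
    rw [d5_fderiv]
    ring

theorem d5_jac_pos {φ : ℝ × ℝ → ℝ} {ε s : ℝ} (hH : Hess φ ε) (hε : ε ≤ 1 / 8) (hs : |s| ≤ 1)
    (z : ℝ × ℝ) : 1 / 2 ≤ jac s φ z ∧ |jac s φ z - 1| ≤ 3 * ε := by
  have hε0 := d5_eps hH
  obtain ⟨h1, h2, h3, h4⟩ := hH z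
  have key : ∀ D : ℝ, |D| ≤ ε → |s * D| ≤ ε := by
    intro D h
    rw [abs_mul]
    calc |s| * |D| ≤ 1 * ε := by gcongr
      _ = ε := one_mul ε
  have a1 := key _ h1
  have a2 := key _ h2
  have a3 := key _ h3
  have a4 := key _ h4
  have h5 : jac s φ z - 1 = s * D1 (D1 φ) z + s * D2 (D2 φ) z + (s * D1 (D1 φ) z) * (s * D2 (D2 φ) z)
      - (s * D1 (D2 φ) z) * (s * D2 (D1 φ) z) := by
    unfold jac; ring
  have h6 : |jac s φ z - 1| ≤ 3 * ε := by
    rw [h5]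
    have b1 : |(s * D1 (D1 φ) z) * (s * D2 (D2 φ) z)| ≤ ε * ε := by
      rw [abs_mul]
      exact mul_le_mul a1 a4 (abs_nonneg _) hε0
    have b2 : |(s * D1 (D2 φ) z) * (s * D2 (D1 φ) z)| ≤ ε * ε := by
      rw [abs_mul]
      exact mul_le_mul a2 a3 (abs_nonneg _) hε0
    have b3 : ε * ε ≤ ε * (1 / 8) := mul_le_mul_of_nonneg_left hε hε0
    have c1 := abs_le.1 a1
    have c4 := abs_le.1 a4
    have c5 := abs_le.1 b1
    have c6 := abs_le.1 b2
    rw [abs_le]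
    constructor <;> linarith [c1.1, c1.2, c4.1, c4.2, c5.1, c5.2, c6.1, c6.2]
  refine ⟨?_, h6⟩
  have := (abs_le.1 h6).1
  linarith

theorem d5_box_meas (L : ℝ) : MeasurableSet (box L) := by
  unfold box
  exact measurableSet_Icc.prod measurableSet_Icc

/-- change of variables -/
theorem gmap_cov {L ε s : ℝ} (hL : 0 < L) {φ : ℝ × ℝ → ℝ} (hφ : EP L φ) (hH : Hess φ ε)
    (hε : ε ≤ 1 / 8) (hs : |s| ≤ 1) {g : ℝ × ℝ → ℝ} (hg : Continuous g) :
    ∫ z in box L, g (gmap s φ z) * jac s φ z = ∫ z in box L, g z := by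
  have hb := gmap_bij hL hφ hH hε hs
  have h1 := integral_image_eq_integral_abs_det_fderiv_smul (volume : Measure (ℝ × ℝ))
    (d5_box_meas L) (fun z _ => (d5_hasFDerivAt hφ s z).hasFDerivWithinAt) hb.injOn g
  rw [hb.image_eq] at h1
  rw [h1]
  refine setIntegral_congr_fun (d5_box_meas L) fun z _ => ?_
  have h2 : ((Matrix.toLin (.finTwoProd ℝ) (.finTwoProd ℝ)
      !![1 + s * D1 (D1 φ) z, s * D2 (D1 φ) z; s * D1 (D2 φ) z,
        1 + s * D2 (D2 φ) z]).toContinuousLinearMap : ℝ × ℝ →L[ℝ] ℝ × ℝ).det = jac s φ z := by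
    simp only [LinearMap.det_toContinuousLinearMap, LinearMap.det_toLin, Matrix.det_fin_two_of]
    unfold jac
    ring
  rw [h2, abs_of_pos (by linarith [(d5_jac_pos hH hε hs z).1]), smul_eq_mul, mul_comm]

/-! ### the comparison -/

theorem d5_box_compact (L : ℝ) : IsCompact (box L) := by
  unfold box
  exact isCompact_Icc.prod isCompact_Icc

theorem d5_int {L : ℝ} {f : ℝ × ℝ → ℝ} (hf : Continuous f) : IntegrableOn f (box L) :=
  hf.continuousOn.integrableOn_compact (d5_box_compact L)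

/-- Cauchy-Schwarz -/
theorem d5_cs {L : ℝ} {F G : ℝ × ℝ → ℝ} (hF : Continuous F) (hG : Continuous G) :
    ∫ z in box L, F z * G z ≤ √(∫ z in box L, F z ^ 2) * √(∫ z in box L, G z ^ 2) := by
  have hF2 : 0 ≤ ∫ z in box L, F z ^ 2 := integral_nonneg fun z => sq_nonneg _
  have hG2 : 0 ≤ ∫ z in box L, G z ^ 2 := integral_nonneg fun z => sq_nonneg _
  set A := √(∫ z in box L, F z ^ 2) with hA
  set B := √(∫ z in box L, G z ^ 2) with hB
  have hA0 : 0 ≤ A := Real.sqrt_nonneg _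
  have hB0 : 0 ≤ B := Real.sqrt_nonneg _
  have hAA : A ^ 2 = ∫ z in box L, F z ^ 2 := Real.sq_sqrt hF2
  have hBB : B ^ 2 = ∫ z in box L, G z ^ 2 := Real.sq_sqrt hG2
  have key : ∀ δ : ℝ, 0 < δ → ∫ z in box L, F z * G z ≤ (A + δ) * (B + δ) := by
    intro δ hδ
    have h1 : ∫ z in box L, 2 * ((A + δ) * (B + δ)) * (F z * G z) ≤
        ∫ z in box L, ((B + δ) ^ 2 * F z ^ 2 + (A + δ) ^ 2 * G z ^ 2) := by
      refine setIntegral_mono (d5_int (by fun_prop)) (d5_int (by fun_prop)) fun z => ?_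
      have := sq_nonneg ((B + δ) * F z - (A + δ) * G z)
      have h2 : (B + δ) ^ 2 * F z ^ 2 + (A + δ) ^ 2 * G z ^ 2 =
          ((B + δ) * F z - (A + δ) * G z) ^ 2 + 2 * ((A + δ) * (B + δ)) * (F z * G z) := by ring
      simp only
      rw [h2]
      linarith
    rw [integral_const_mul, integral_add (d5_int (by fun_prop)) (d5_int (by fun_prop)),
      integral_const_mul, integral_const_mul, ← hAA, ← hBB] at h1
    have h3 : (B + δ) ^ 2 * A ^ 2 ≤ (B + δ) ^ 2 * (A + δ) ^ 2 := by gcongr; linarith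
    have h4 : (A + δ) ^ 2 * B ^ 2 ≤ (A + δ) ^ 2 * (B + δ) ^ 2 := by gcongr; linarith
    have h5 : 2 * ((A + δ) * (B + δ)) * ∫ z in box L, F z * G z ≤
        2 * ((A + δ) * (B + δ)) * ((A + δ) * (B + δ)) := by
      refine le_trans h1 (le_trans (add_le_add h3 h4) (le_of_eq (by ring)))
    exact le_of_mul_le_mul_left h5 (by positivity)
  refine le_of_tendsto_of_tendsto (f := fun _ => ∫ z in box L, F z * G z)
    (g := fun δ : ℝ => (A + δ) * (B + δ)) (b := nhdsWithin 0 (Ioi 0)) tendsto_const_nhds ?_ ?_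
  · have : Filter.Tendsto (fun δ : ℝ => (A + δ) * (B + δ)) (nhds 0) (nhds ((A + 0) * (B + 0))) := by
      apply Continuous.tendsto
      fun_prop
    rw [add_zero, add_zero] at this
    exact this.mono_left nhdsWithin_le_nhds
  · filter_upwards [self_mem_nhdsWithin] with δ hδ
    exact key δ hδ

theorem d5_gmap_cont {L : ℝ} {φ : ℝ × ℝ → ℝ} (hφ : EP L φ) :
    Continuous fun v : ℝ × (ℝ × ℝ) => gmap v.1 φ v.2 := by
  have h1 := (D_smooth hφ.smooth).1.continuous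
  have h2 := (D_smooth hφ.smooth).2.1.continuous
  unfold gmap
  fun_prop

theorem d5_gmap_cont' {L : ℝ} {φ : ℝ × ℝ → ℝ} (hφ : EP L φ) (s : ℝ) :
    Continuous (gmap s φ) :=
  (d5_gmap_cont hφ).comp (Continuous.prodMk continuous_const continuous_id)

theorem d5_jac_cont {L : ℝ} {φ : ℝ × ℝ → ℝ} (hφ : EP L φ) (s : ℝ) :
    Continuous (jac s φ) := by
  have h1 := (D_smooth (D_smooth hφ.smooth).1).1.continuous
  have h2 := (D_smooth (D_smooth hφ.smooth).1).2.1.continuous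
  have h3 := (D_smooth (D_smooth hφ.smooth).2.1).1.continuous
  have h4 := (D_smooth (D_smooth hφ.smooth).2.1).2.1.continuous
  unfold jac
  fun_prop

theorem d5_moved {L ε s : ℝ} {φ : ℝ × ℝ → ℝ} (hφ : EP L φ) (hH : Hess φ ε)
    (hs : |s| ≤ 1) (z : ℝ × ℝ) :
    |D1 φ z - D1 φ (gmap s φ z)| ≤ 2 * ε * gabs φ z ∧
      |D2 φ z - D2 φ (gmap s φ z)| ≤ 2 * ε * gabs φ z := by
  have hε0 := d5_eps hH
  have h1 : ‖z - gmap s φ z‖ ≤ gabs φ z := by
    rw [d5_gmap_eq]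
    have h2 : z - (z + s • d5_v φ z) = -(s • d5_v φ z) := by abel
    rw [h2, norm_neg, norm_smul, Real.norm_eq_abs]
    have h3 : ‖d5_v φ z‖ ≤ gabs φ z := by
      rw [Prod.norm_def]
      unfold gabs
      refine max_le ?_ ?_
      · have := abs_nonneg (D2 φ z)
        change |D1 φ z| ≤ _
        linarith
      · have := abs_nonneg (D1 φ z)
        change |D2 φ z| ≤ _
        linarith
    calc |s| * ‖d5_v φ z‖ ≤ 1 * gabs φ z := by gcongr
      _ = gabs φ z := one_mul _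
  constructor
  · refine le_trans (d5_lipD1 hφ hH _ _) ?_
    gcongr
  · refine le_trans (d5_lipD2 hφ hH _ _) ?_
    gcongr

theorem d5_gabs_nonneg (f : ℝ × ℝ → ℝ) (z : ℝ × ℝ) : 0 ≤ gabs f z := by
  unfold gabs
  positivity

/-- the error for one component -/
theorem d5_comp {ε a j p q m : ℝ} (hε : 0 ≤ ε) (hε8 : ε ≤ 1 / 8) (ha : |a - 1| ≤ 2 * ε)
    (hj : |j - 1| ≤ 3 * ε) (hp : |p| ≤ m) (hpq : |p - q| ≤ 2 * ε * m) :
    |p * a - q * j| ≤ 10 * ε * m := by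
  have hm : 0 ≤ m := le_trans (abs_nonneg _) hp
  have hq : |q| ≤ 2 * m := by
    have h1 : |q| ≤ |p| + |p - q| := by
      have : q = p - (p - q) := by ring
      conv_lhs => rw [this]
      exact abs_sub _ _
    have h2 : 2 * ε * m ≤ 2 * (1 / 8) * m := by gcongr
    linarith
  have h1 : p * a - q * j = p * (a - 1) + (p - q) - q * (j - 1) := by ring
  rw [h1]
  have h2 : |p * (a - 1)| ≤ m * (2 * ε) := by
    rw [abs_mul]
    exact mul_le_mul hp ha (abs_nonneg _) hm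
  have h3 : |q * (j - 1)| ≤ 2 * m * (3 * ε) := by
    rw [abs_mul]
    exact mul_le_mul hq hj (abs_nonneg _) (by positivity)
  calc |p * (a - 1) + (p - q) - q * (j - 1)| ≤ |p * (a - 1) + (p - q)| + |q * (j - 1)| := abs_sub _ _
    _ ≤ |p * (a - 1)| + |p - q| + |q * (j - 1)| := by gcongr; exact abs_add_le _ _
    _ ≤ m * (2 * ε) + 2 * ε * m + 2 * m * (3 * ε) := by gcongr
    _ = 10 * ε * m := by ring

/-- the estimate for fixed `s` -/
theorem d5_fixed {L ε s : ℝ} (hL : 0 < L) (hε : ε ≤ 1 / 8) {φ g : ℝ × ℝ → ℝ} (hφ : EP L φ)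
    (hg : EP L g) (hH : Hess φ ε) (hs : |s| ≤ 1) {a : ℝ × ℝ → ℝ} (ha : Continuous a)
    (ha1 : ∀ z, |a z - 1| ≤ 2 * ε) :
    |(∫ z in box L, (D1 g (gmap s φ z) * D1 φ z + D2 g (gmap s φ z) * D2 φ z) * a z) -
      ∫ z in box L, (D1 g z * D1 φ z + D2 g z * D2 φ z)| ≤
      30 * ε * √(∫ z in box L, gsq g z) * √(∫ z in box L, gsq φ z) := by
  have hε0 := d5_eps hH
  have c1 := (D_smooth hφ.smooth).1.continuous
  have c2 := (D_smooth hφ.smooth).2.1.continuous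
  have c3 := (D_smooth hg.smooth).1.continuous
  have c4 := (D_smooth hg.smooth).2.1.continuous
  have c5 := d5_gmap_cont' hφ s
  have c6 := d5_jac_cont hφ s
  have c7 : Continuous (gabs g) := (CP_gabs hg).cont
  have c8 : Continuous (gabs φ) := (CP_gabs hφ).cont
  have c9 : Continuous (gsq g) := (EP_gsq hg).cont
  have c10 : Continuous (gsq φ) := (EP_gsq hφ).cont
  have h1 : ∫ z in box L, (D1 g z * D1 φ z + D2 g z * D2 φ z) =
      ∫ z in box L, (D1 g (gmap s φ z) * D1 φ (gmap s φ z) + D2 g (gmap s φ z) *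
        D2 φ (gmap s φ z)) * jac s φ z :=
    (gmap_cov hL hφ hH hε hs (g := fun z => D1 g z * D1 φ z + D2 g z * D2 φ z)
      (by fun_prop)).symm
  rw [h1, ← integral_sub (d5_int (by fun_prop)) (d5_int (by fun_prop))]
  have h2 : ∀ z, |(D1 g (gmap s φ z) * D1 φ z + D2 g (gmap s φ z) * D2 φ z) * a z -
      (D1 g (gmap s φ z) * D1 φ (gmap s φ z) + D2 g (gmap s φ z) *
        D2 φ (gmap s φ z)) * jac s φ z| ≤ gabs g (gmap s φ z) * (10 * ε * gabs φ z) := by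
    intro z
    obtain ⟨m1, m2⟩ := d5_moved hφ hH hs z
    obtain ⟨-, j1⟩ := d5_jac_pos hH hε hs z
    have p1 : |D1 φ z| ≤ gabs φ z := by
      unfold gabs
      have := abs_nonneg (D2 φ z)
      linarith
    have p2 : |D2 φ z| ≤ gabs φ z := by
      unfold gabs
      have := abs_nonneg (D1 φ z)
      linarith
    have e1 := d5_comp hε0 hε (ha1 z) j1 p1 m1
    have e2 := d5_comp hε0 hε (ha1 z) j1 p2 m2
    have h3 : (D1 g (gmap s φ z) * D1 φ z + D2 g (gmap s φ z) * D2 φ z) * a z -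
      (D1 g (gmap s φ z) * D1 φ (gmap s φ z) + D2 g (gmap s φ z) *
        D2 φ (gmap s φ z)) * jac s φ z =
        D1 g (gmap s φ z) * (D1 φ z * a z - D1 φ (gmap s φ z) * jac s φ z) +
        D2 g (gmap s φ z) * (D2 φ z * a z - D2 φ (gmap s φ z) * jac s φ z) := by ring
    rw [h3]
    refine le_trans (abs_add_le _ _) ?_
    rw [abs_mul, abs_mul]
    have h4 : gabs g (gmap s φ z) = |D1 g (gmap s φ z)| + |D2 g (gmap s φ z)| := rfl
    rw [h4, add_mul]
    gcongr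
  have h3 : |∫ z in box L, ((D1 g (gmap s φ z) * D1 φ z + D2 g (gmap s φ z) * D2 φ z) * a z -
      (D1 g (gmap s φ z) * D1 φ (gmap s φ z) + D2 g (gmap s φ z) *
        D2 φ (gmap s φ z)) * jac s φ z)| ≤
        ∫ z in box L, gabs g (gmap s φ z) * (10 * ε * gabs φ z) := by
    refine le_trans (abs_integral_le_integral_abs) ?_
    exact setIntegral_mono (d5_int (by fun_prop)) (d5_int (by fun_prop)) h2
  refine le_trans h3 ?_
  have h4 := d5_cs (L := L) (F := fun z => gabs g (gmap s φ z)) (G := fun z => 10 * ε * gabs φ z)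
    (by fun_prop) (by fun_prop)
  refine le_trans h4 ?_
  -- the two factors
  have hgs : ∀ (f : ℝ × ℝ → ℝ) (z : ℝ × ℝ), gabs f z ^ 2 ≤ 2 * gsq f z := by
    intro f z
    unfold gabs gsq
    have h5 : (|D1 f z| + |D2 f z|) ^ 2 = 2 * (|D1 f z| ^ 2 + |D2 f z| ^ 2) -
        (|D1 f z| - |D2 f z|) ^ 2 := by ring
    rw [h5, sq_abs, sq_abs]
    have := sq_nonneg (|D1 f z| - |D2 f z|)
    linarith
  have hgn : ∀ (f : ℝ × ℝ → ℝ) (z : ℝ × ℝ), 0 ≤ gsq f z := by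
    intro f z
    unfold gsq
    positivity
  have f1 : ∫ z in box L, gabs g (gmap s φ z) ^ 2 ≤ 4 * ∫ z in box L, gsq g z := by
    have h5 : ∫ z in box L, gsq g z = ∫ z in box L, gsq g (gmap s φ z) * jac s φ z :=
      (gmap_cov hL hφ hH hε hs c9).symm
    rw [h5, ← integral_const_mul]
    refine setIntegral_mono (d5_int (by fun_prop)) (d5_int (by fun_prop)) fun z => ?_
    have h6 := hgs g (gmap s φ z)
    have h7 := (d5_jac_pos hH hε hs z).1
    have h8 : gsq g (gmap s φ z) * (1 / 2) ≤ gsq g (gmap s φ z) * jac s φ z :=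
      mul_le_mul_of_nonneg_left h7 (hgn _ _)
    simp only
    linarith
  have f2 : ∫ z in box L, (10 * ε * gabs φ z) ^ 2 ≤ 200 * ε ^ 2 * ∫ z in box L, gsq φ z := by
    rw [← integral_const_mul]
    refine setIntegral_mono (d5_int (by fun_prop)) (d5_int (by fun_prop)) fun z => ?_
    have h6 := hgs φ z
    have h7 : (10 * ε * gabs φ z) ^ 2 = 100 * ε ^ 2 * gabs φ z ^ 2 := by ring
    simp only
    rw [h7]
    calc 100 * ε ^ 2 * gabs φ z ^ 2 ≤ 100 * ε ^ 2 * (2 * gsq φ z) := by gcongr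
      _ = _ := by ring
  have g1 : √(∫ z in box L, gabs g (gmap s φ z) ^ 2) ≤ 2 * √(∫ z in box L, gsq g z) := by
    rw [show (2 : ℝ) = √4 by rw [show (4 : ℝ) = 2 ^ 2 by norm_num]; exact (Real.sqrt_sq (by norm_num)).symm,
      ← Real.sqrt_mul (by norm_num)]
    exact Real.sqrt_le_sqrt f1
  have g2 : √(∫ z in box L, (10 * ε * gabs φ z) ^ 2) ≤ 15 * ε * √(∫ z in box L, gsq φ z) := by
    have h5 : 15 * ε = √((15 * ε) ^ 2) := (Real.sqrt_sq (by positivity)).symm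
    rw [h5, ← Real.sqrt_mul (by positivity)]
    refine Real.sqrt_le_sqrt (le_trans f2 ?_)
    have h6 : 0 ≤ ∫ z in box L, gsq φ z := integral_nonneg fun z => hgn _ _
    have h7 : (15 * ε) ^ 2 = 225 * ε ^ 2 := by ring
    rw [h7]
    gcongr
    norm_num
  calc √(∫ z in box L, gabs g (gmap s φ z) ^ 2) * √(∫ z in box L, (10 * ε * gabs φ z) ^ 2)
      ≤ (2 * √(∫ z in box L, gsq g z)) * (15 * ε * √(∫ z in box L, gsq φ z)) := by gcongr
    _ = _ := by ring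

/-- fundamental theorem of calculus along `t ↦ gmap (t σ) φ z` -/
theorem d5_ftc {g φ : ℝ × ℝ → ℝ} (hg : ContDiff ℝ ∞ g) (σ : ℝ) (z : ℝ × ℝ) :
    g (gmap σ φ z) - g z = ∫ t in (0 : ℝ)..1, σ * (D1 g (gmap (t * σ) φ z) * D1 φ z +
      D2 g (gmap (t * σ) φ z) * D2 φ z) := by
  have c3 := (D_smooth hg).1.continuous
  have c4 := (D_smooth hg).2.1.continuous
  have hcurve : Continuous fun t : ℝ => gmap (t * σ) φ z := by
    unfold gmap
    fun_prop
  have h1 : ∀ t : ℝ, HasDerivAt (fun t : ℝ => g (gmap (t * σ) φ z))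
      (σ * (D1 g (gmap (t * σ) φ z) * D1 φ z + D2 g (gmap (t * σ) φ z) * D2 φ z)) t := by
    intro t
    have h2 : HasDerivAt (fun t : ℝ => gmap (t * σ) φ z) (σ * D1 φ z, σ * D2 φ z) t := by
      have h3 : HasDerivAt (fun t : ℝ => z.1 + t * σ * D1 φ z) (σ * D1 φ z) t := by
        have h4 := (((hasDerivAt_id t).mul_const σ).mul_const (D1 φ z)).const_add z.1
        simpa using h4
      have h5 : HasDerivAt (fun t : ℝ => z.2 + t * σ * D2 φ z) (σ * D2 φ z) t := by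
        have h4 := (((hasDerivAt_id t).mul_const σ).mul_const (D2 φ z)).const_add z.2
        simpa using h4
      exact h3.prodMk h5
    have h6 := ((d5_diff hg) (gmap (t * σ) φ z)).hasFDerivAt.comp_hasDerivAt t h2
    rw [d5_fderiv] at h6
    convert! h6 using 1
    ring
  have h2 := intervalIntegral.integral_eq_sub_of_hasDerivAt (a := 0) (b := 1)
    (fun t _ => h1 t) (Continuous.intervalIntegrable (by fun_prop) _ _)
  rw [h2]
  simp [gmap]

theorem d5_main {L ε σ : ℝ} (hL : 0 < L) (hε : ε ≤ 1 / 8) {φ g : ℝ × ℝ → ℝ} (hφ : EP L φ)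
    (hg : EP L g) (hH : Hess φ ε) (hσ : |σ| ≤ 1) {a : ℝ × ℝ → ℝ} (ha : Continuous a)
    (ha1 : ∀ z, |a z - 1| ≤ 2 * ε) :
    |(∫ z in box L, (g (gmap σ φ z) - g z) * a z) -
      σ * ∫ z in box L, (D1 g z * D1 φ z + D2 g z * D2 φ z)| ≤
      30 * ε * √(∫ z in box L, gsq g z) * √(∫ z in box L, gsq φ z) := by
  have hε0 := d5_eps hH
  have c1 := (D_smooth hφ.smooth).1.continuous
  have c2 := (D_smooth hφ.smooth).2.1.continuous
  have c3 := (D_smooth hg.smooth).1.continuous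
  have c4 := (D_smooth hg.smooth).2.1.continuous
  have c5 := d5_gmap_cont hφ
  set Φ : ℝ × ℝ → ℝ → ℝ := fun z t => (D1 g (gmap (t * σ) φ z) * D1 φ z +
      D2 g (gmap (t * σ) φ z) * D2 φ z) * a z with hΦ
  have hmap : Continuous fun v : (ℝ × ℝ) × ℝ => gmap (v.2 * σ) φ v.1 :=
    c5.comp (Continuous.prodMk (by fun_prop) continuous_fst)
  have hΦc : Continuous (Function.uncurry Φ) := by
    have e : Function.uncurry Φ = fun v : (ℝ × ℝ) × ℝ => (D1 g (gmap (v.2 * σ) φ v.1) * D1 φ v.1 +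
      D2 g (gmap (v.2 * σ) φ v.1) * D2 φ v.1) * a v.1 := rfl
    rw [e]
    fun_prop
  have hint : Integrable (Function.uncurry Φ)
      ((volume.restrict (box L)).prod (volume.restrict (Ioc (0 : ℝ) 1))) := by
    rw [Measure.prod_restrict]
    have h1 : IntegrableOn (Function.uncurry Φ) (box L ×ˢ Icc (0 : ℝ) 1)
        ((volume : Measure (ℝ × ℝ)).prod (volume : Measure ℝ)) :=
      hΦc.continuousOn.integrableOn_compact ((d5_box_compact L).prod isCompact_Icc)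
    exact h1.mono_set (prod_mono le_rfl Ioc_subset_Icc_self)
  have h1 : ∫ z in box L, (g (gmap σ φ z) - g z) * a z =
      σ * ∫ t in Ioc (0 : ℝ) 1, ∫ z in box L, Φ z t := by
    rw [← integral_integral_swap hint, ← integral_const_mul]
    refine setIntegral_congr_fun (d5_box_meas L) fun z _ => ?_
    rw [d5_ftc hg.smooth σ z, intervalIntegral.integral_of_le zero_le_one, ← integral_mul_const,
      ← integral_const_mul]
    refine integral_congr_ae (Filter.Eventually.of_forall fun t => ?_)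
    simp only [hΦ]
    ring
  set B := ∫ z in box L, (D1 g z * D1 φ z + D2 g z * D2 φ z) with hB
  have hint2 : IntegrableOn (fun t => ∫ z in box L, Φ z t) (Ioc (0 : ℝ) 1) :=
    hint.integral_prod_right
  have h2 : (∫ t in Ioc (0 : ℝ) 1, ∫ z in box L, Φ z t) - B =
      ∫ t in Ioc (0 : ℝ) 1, ((∫ z in box L, Φ z t) - B) := by
    rw [integral_sub hint2 (integrable_const _)]
    simp
  rw [h1, ← mul_sub, h2, abs_mul]
  set R := 30 * ε * √(∫ z in box L, gsq g z) * √(∫ z in box L, gsq φ z) with hR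
  have hR0 : 0 ≤ R := by positivity
  have h3 : |∫ t in Ioc (0 : ℝ) 1, ((∫ z in box L, Φ z t) - B)| ≤ R := by
    have h4 : ‖∫ t in Ioc (0 : ℝ) 1, ((∫ z in box L, Φ z t) - B)‖ ≤
        R * (volume : Measure ℝ).real (Ioc (0 : ℝ) 1) := by
      refine norm_setIntegral_le_of_norm_le_const (by simp) fun t ht => ?_
      rw [Real.norm_eq_abs]
      have h5 : |t * σ| ≤ 1 := by
        rw [abs_mul, abs_of_pos ht.1]
        calc t * |σ| ≤ 1 * 1 := by
              gcongr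
              exact ht.2
          _ = 1 := one_mul 1
      exact d5_fixed hL hε hφ hg hH h5 ha ha1
    simpa using h4
  calc |σ| * |∫ t in Ioc (0 : ℝ) 1, ((∫ z in box L, Φ z t) - B)| ≤ 1 * R := by gcongr
    _ = R := one_mul R

theorem lin1 : ∃ C : ℝ, 0 < C ∧ ∀ (L ε : ℝ), 0 < L → ε ≤ 1 / 8 → ∀ φ g : ℝ × ℝ → ℝ, EP L φ → EP L g →
    Hess φ ε →
    |(∫ z in box L, g (gmap 1 φ z)) - ∫ z in box L, g z * (1 - lap φ z)| ≤
      C * ε * √(∫ z in box L, gsq g z) * √(∫ z in box L, gsq φ z) := by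
  refine ⟨30, by norm_num, ?_⟩
  intro L ε hL hε φ g hφ hg hH
  have hε0 := d5_eps hH
  have c5 := d5_gmap_cont' hφ 1
  have c6 := hg.cont
  have c7 : Continuous (lap φ) := (EP_lap hφ).cont
  have h := d5_main (σ := 1) hL hε hφ hg hH (by simp) (a := fun _ => 1) continuous_const
    (fun z => by simpa using hε0)
  have h1 := ibp hL (f := g) (hg.smooth.of_le (by simp)) hφ
  rw [h1] at h
  convert h using 2
  simp only [mul_one, one_mul]
  rw [integral_sub (d5_int (by fun_prop)) (d5_int (by fun_prop))]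
  have h2 : ∫ z in box L, g z * (1 - lap φ z) = (∫ z in box L, g z) - ∫ z in box L, g z * lap φ z := by
    rw [← integral_sub (d5_int (by fun_prop)) (d5_int (by fun_prop))]
    refine integral_congr_ae (Filter.Eventually.of_forall fun z => ?_)
    simp only
    ring
  rw [h2]
  ring

theorem lin2 : ∃ C : ℝ, 0 < C ∧ ∀ (L ε : ℝ), 0 < L → ε ≤ 1 / 8 → ∀ φ g : ℝ × ℝ → ℝ, EP L φ → EP L g →
    Hess φ ε →
    |(∫ z in box L, g (gmap (-1) φ z) * (1 - lap φ z)) - ∫ z in box L, g z| ≤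
      C * ε * √(∫ z in box L, gsq g z) * √(∫ z in box L, gsq φ z) := by
  refine ⟨30, by norm_num, ?_⟩
  intro L ε hL hε φ g hφ hg hH
  have hε0 := d5_eps hH
  have c5 := d5_gmap_cont' hφ (-1)
  have c6 := hg.cont
  have c7 : Continuous (lap φ) := (EP_lap hφ).cont
  have h := d5_main (σ := -1) hL hε hφ hg hH (by simp) (a := fun z => 1 - lap φ z) (by fun_prop)
    (fun z => by
      have h1 : (1 - lap φ z) - 1 = -(D1 (D1 φ) z + D2 (D2 φ) z) := by unfold lap; ring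
      rw [h1, abs_neg]
      refine le_trans (abs_add_le _ _) ?_
      obtain ⟨h2, -, -, h3⟩ := hH z
      linarith)
  have h1 := ibp hL (f := g) (hg.smooth.of_le (by simp)) hφ
  rw [h1] at h
  convert h using 2
  have h2 : ∫ z in box L, (g (gmap (-1) φ z) - g z) * (1 - lap φ z) =
      (∫ z in box L, g (gmap (-1) φ z) * (1 - lap φ z)) -
        ((∫ z in box L, g z) - ∫ z in box L, g z * lap φ z) := by
    rw [← integral_sub (d5_int (by fun_prop)) (d5_int (by fun_prop)),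
      ← integral_sub (d5_int (by fun_prop)) (d5_int (by fun_prop))]
    refine integral_congr_ae (Filter.Eventually.of_forall fun z => ?_)
    simp only
    ring
  rw [h2]
  ring

end Pool.Agent.Lib.H77M
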