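import Mathlib

/-!
# Project H77M (MP_b45e87_pr): definitions

See `PROOF.md` in this folder. Everything lives in `ℝ × ℝ` with the explicit squared Euclidean
distance `sqd`.
-/

open MeasureTheory Set ProbabilityTheory
open scoped ContDiff

namespace Pool.Agent.Lib.H77M

noncomputable section

/-! ## Geometry -/

/-- the squared Euclidean distance -/
def sqd (x y : ℝ × ℝ) : ℝ := (x.1 - y.1) ^ 2 + (x.2 - y.2) ^ 2

/-- the closed box of side `L` -/
def box (L : ℝ) : Set (ℝ × ℝ) := Icc 0 L ×ˢ Icc 0 L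

/-- the half open box of side `L` -/
def hbox (L : ℝ) : Set (ℝ × ℝ) := Ico 0 L ×ˢ Ico 0 L

/-- the dyadic square number `(a, b)` of level `j` in the box of side `L` -/
def sq (L : ℝ) (j a b : ℕ) : Set (ℝ × ℝ) :=
  Ico ((a : ℝ) * (L / 2 ^ j)) (((a : ℝ) + 1) * (L / 2 ^ j)) ×ˢ
    Ico ((b : ℝ) * (L / 2 ^ j)) (((b : ℝ) + 1) * (L / 2 ^ j))

/-- the number of points of the configuration `X` in the set `S` -/
def cnt {ι : Type} [Fintype ι] (X : ι → ℝ × ℝ) (S : Set (ℝ × ℝ)) : ℝ :=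
  ∑ i, S.indicator (fun _ => (1 : ℝ)) (X i)

/-- Regular configurations: the points are distinct and every dyadic square of side `s ≥ 1` contains
`s ^ 2 + O (K s)` of them. -/
structure Reg (K L : ℝ) {ι : Type} [Fintype ι] (X : ι → ℝ × ℝ) : Prop where
  one_le : 1 ≤ L
  log_le : 1 + Real.log L ≤ K
  mem : ∀ i, X i ∈ hbox L
  inj : Function.Injective X
  disc : ∀ j a b : ℕ, a < 2 ^ j → b < 2 ^ j → 1 ≤ L / 2 ^ j →
    |cnt X (sq L j a b) - (L / 2 ^ j) ^ 2| ≤ K * (L / 2 ^ j)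

/-- the level of the smallest dyadic squares (side in `[1, 2)`, see `sd_spec`) -/
def lev (L : ℝ) : ℕ := Nat.log 2 ⌊L⌋₊

/-- the side of the smallest dyadic squares -/
def sd (L : ℝ) : ℝ := L / 2 ^ lev L

/-- the smallest dyadic square containing the point `x` -/
def ssq (L : ℝ) (x : ℝ × ℝ) : Set (ℝ × ℝ) := sq L (lev L) ⌊x.1 / sd L⌋₊ ⌊x.2 / sd L⌋₊

/-- the average of `f` over the smallest dyadic square containing `x` -/
def av (L : ℝ) (f : ℝ × ℝ → ℝ) (x : ℝ × ℝ) : ℝ := (∫ y in ssq L x, f y) / sd L ^ 2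

/-! ## Calculus -/

/-- first partial derivative -/
def D1 (f : ℝ × ℝ → ℝ) (p : ℝ × ℝ) : ℝ := fderiv ℝ f p (1, 0)

/-- second partial derivative -/
def D2 (f : ℝ × ℝ → ℝ) (p : ℝ × ℝ) : ℝ := fderiv ℝ f p (0, 1)

/-- Laplacian -/
def lap (f : ℝ × ℝ → ℝ) (p : ℝ × ℝ) : ℝ := D1 (D1 f) p + D2 (D2 f) p

/-- squared norm of the gradient -/
def gsq (f : ℝ × ℝ → ℝ) (p : ℝ × ℝ) : ℝ := D1 f p ^ 2 + D2 f p ^ 2

/-- `ℓ¹` norm of the gradient -/
def gabs (f : ℝ × ℝ → ℝ) (p : ℝ × ℝ) : ℝ := |D1 f p| + |D2 f p|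

/-- continuous, even and `2L`-periodic in each variable -/
structure CP (L : ℝ) (f : ℝ × ℝ → ℝ) : Prop where
  cont : Continuous f
  even1 : ∀ a b, f (-a, b) = f (a, b)
  even2 : ∀ a b, f (a, -b) = f (a, b)
  per1 : ∀ a b, f (a + 2 * L, b) = f (a, b)
  per2 : ∀ a b, f (a, b + 2 * L) = f (a, b)

/-- smooth, even and `2L`-periodic in each variable -/
structure EP (L : ℝ) (f : ℝ × ℝ → ℝ) : Prop extends CP L f where
  smooth : ContDiff ℝ ∞ f

/-- the second partial derivatives are at most `ε` in absolute value -/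
def Hess (f : ℝ × ℝ → ℝ) (ε : ℝ) : Prop :=
  ∀ y, |D1 (D1 f) y| ≤ ε ∧ |D1 (D2 f) y| ≤ ε ∧ |D2 (D1 f) y| ≤ ε ∧ |D2 (D2 f) y| ≤ ε

/-- the first partial derivatives are at most `M` in absolute value -/
def Grad (f : ℝ × ℝ → ℝ) (M : ℝ) : Prop := ∀ y, |D1 f y| ≤ M ∧ |D2 f y| ≤ M

/-! ## Gaussian averages (Neumann heat semigroup) -/

/-- the standard Gaussian measure in the plane -/
def gam : Measure (ℝ × ℝ) := (gaussianReal 0 1).prod (gaussianReal 0 1)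

/-- the heat semigroup: Gaussian average at time `s` -/
def P (s : ℝ) (f : ℝ × ℝ → ℝ) (x : ℝ × ℝ) : ℝ :=
  ∫ z, f (x.1 + √(2 * s) * z.1, x.2 + √(2 * s) * z.2) ∂gam

/-- one-dimensional heat kernel -/
def G (s u : ℝ) : ℝ := Real.exp (-u ^ 2 / (4 * s)) / √(4 * Real.pi * s)

/-- Neumann heat kernel of `[0, L]`, sum over the images -/
def q (L s a b : ℝ) : ℝ := ∑' m : ℤ, (G s (b - a + 2 * m * L) + G s (b + a + 2 * m * L))

/-- Neumann heat kernel of the box of side `L` -/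
def p (L s : ℝ) (x y : ℝ × ℝ) : ℝ := q L s x.1 y.1 * q L s x.2 y.2

/-- the smoothed configuration `P_s (∑ δ_{X i})` -/
def rho (L s : ℝ) {ι : Type} [Fintype ι] (X : ι → ℝ × ℝ) (y : ℝ × ℝ) : ℝ := ∑ i, p L s (X i) y

/-- the smoothed Green function -/
def kk (L t : ℝ) (x y : ℝ × ℝ) : ℝ := ∫ s in Ioi t, (p L s x y - 1 / L ^ 2)

/-- the potential: `-Δ φ = rho_t - N / L ^ 2` -/
def phi (L t : ℝ) {ι : Type} [Fintype ι] (X : ι → ℝ × ℝ) (y : ℝ × ℝ) : ℝ := ∑ i, kk L t (X i) y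

/-- the energy form -/
def En (L t : ℝ) {ι : Type} [Fintype ι] (X : ι → ℝ × ℝ) : ℝ := ∑ i, ∑ j, kk L t (X i) (X j)

/-! ## Optimal transport from a finite configuration to a density on the box -/

/-- a (fractional) transport plan: `w i y` is the fraction of the mass at `y` sent to `X i` -/
structure IsPlan (L : ℝ) {ι : Type} [Fintype ι] (r : ℝ × ℝ → ℝ) (w : ι → ℝ × ℝ → ℝ) : Prop where
  meas : ∀ i, Measurable (w i)
  nonneg : ∀ i y, 0 ≤ w i y
  sum : ∀ y ∈ box L, ∑ i, w i y = 1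
  mass : ∀ i, ∫ y in box L, w i y * r y = 1

/-- the cost of a plan -/
def cost (L : ℝ) {ι : Type} [Fintype ι] (X : ι → ℝ × ℝ) (r : ℝ × ℝ → ℝ) (w : ι → ℝ × ℝ → ℝ) : ℝ :=
  ∑ i, ∫ y in box L, sqd (X i) y * (w i y * r y)

/-- the optimal transport cost -/
def W (L : ℝ) {ι : Type} [Fintype ι] (X : ι → ℝ × ℝ) (r : ℝ × ℝ → ℝ) : ℝ :=
  sInf {c | ∃ w : ι → ℝ × ℝ → ℝ, IsPlan L r w ∧ c = cost L X r w}

/-- the `c`-transform of `ψ` -/
def upot {ι : Type} (X : ι → ℝ × ℝ) (ψ : ι → ℝ) (y : ℝ × ℝ) : ℝ := ⨅ i, (sqd (X i) y / 2 - ψ i)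

/-- optimal potentials with the assignment map `T` -/
structure IsOpt (L : ℝ) {ι : Type} [Fintype ι] (X : ι → ℝ × ℝ) (r : ℝ × ℝ → ℝ) (ψ : ι → ℝ)
    (T : ℝ × ℝ → ι) : Prop where
  meas : ∀ i, MeasurableSet {y | T y = i}
  eq : ∀ y, upot X ψ y = sqd (X (T y)) y / 2 - ψ (T y)
  mass : ∀ i, ∫ y in box L ∩ {y | T y = i}, r y = 1

/-! ## Cells -/

/-- the half open cell number `(a, b)` of side `l` -/
def cell (l : ℝ) (a b : ℕ) : Set (ℝ × ℝ) :=
  Ico ((a : ℝ) * l) (((a : ℝ) + 1) * l) ×ˢ Ico ((b : ℝ) * l) (((b : ℝ) + 1) * l)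

/-- the indices of the points in the cell -/
def CI (l : ℝ) {ι : Type} (X : ι → ℝ × ℝ) (a b : ℕ) : Type := {i : ι // X i ∈ cell l a b}

open Classical in
instance (l : ℝ) {ι : Type} [Fintype ι] (X : ι → ℝ × ℝ) (a b : ℕ) : Fintype (CI l X a b) :=
  inferInstanceAs (Fintype {i : ι // X i ∈ cell l a b})

/-- the configuration in the cell, translated to the box of side `l` -/
def CX (l : ℝ) {ι : Type} (X : ι → ℝ × ℝ) (a b : ℕ) (i : CI l X a b) : ℝ × ℝ :=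
  ((X i.1).1 - a * l, (X i.1).2 - b * l)

/-- regular in the big box of side `k l` and in all the cells -/
def Good (K l : ℝ) (k : ℕ) {ι : Type} [Fintype ι] (X : ι → ℝ × ℝ) : Prop :=
  Reg K (k * l) X ∧ ∀ a < k, ∀ b < k, Reg K l (CX l X a b)

/-! ## Probability -/

/-- the uniform measure on the unit square -/
def U : Measure (ℝ × ℝ) := (volume : Measure (ℝ × ℝ)).restrict (Icc (0 : ℝ) 1 ×ˢ Icc (0 : ℝ) 1)

/-- `n` independent uniform points in the unit square -/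
def UU (ι : Type) [Fintype ι] : Measure (ι → ℝ × ℝ) := Measure.pi fun _ : ι => U

/-- `n` times the expected squared Wasserstein distance of the empirical measure -/
def F (n : ℕ) : ℝ := ∫ X, W 1 X (fun _ => (n : ℝ)) ∂(UU (Fin n))

/-- the binomial weights with parameters `n` and `1 / k ^ 2` -/
def bw (n k m : ℕ) : ℝ :=
  (n.choose m : ℝ) * (1 / (k : ℝ) ^ 2) ^ m * (1 - 1 / (k : ℝ) ^ 2) ^ (n - m)

/-- trace of the Neumann heat kernel of the unit interval -/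
def theta (v : ℝ) : ℝ := 1 / 2 + ∑' m : ℤ, Real.exp (-(m : ℝ) ^ 2 / v) / √(4 * Real.pi * v)

/-- the integrated trace -/
def sig (s : ℝ) : ℝ := ∫ v in Ioi s, (theta v ^ 2 - 1)

end

end Pool.Agent.Lib.H77M
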