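import Pool.Agent.Lib.H77M.C7
import Pool.Agent.Lib.H77M.C8
import Pool.Agent.Lib.H77M.C9

/-!
# Project H77M: the theorem
-/

open MeasureTheory Set ProbabilityTheory Filter Topology

namespace Pool.Agent.Lib.H77M

theorem F_tendsto : ∃ ξ : ℝ, Tendsto (fun n : ℕ => F n - Real.log n / (4 * Real.pi)) atTop (𝓝 ξ) :=
  cauchy_of_62 _ (step62 F F_nonneg F_log F_le (fun _ hn => F_mono hn) recur)

end Pool.Agent.Lib.H77M
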