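import Pool.Agent.Lib.H77M.B3

/-!
# Project H77M, chunk O0: small tools for the four theorems
-/

open MeasureTheory Set ProbabilityTheory
open scoped ContDiff

namespace Pool.Agent.Lib.H77M

/-! ### auxiliary lemmas -/

theorem O0_line {f : ℝ × ℝ → ℝ} (hf : Differentiable ℝ f) (z d : ℝ × ℝ) (s : ℝ) :
    HasDerivAt (fun s : ℝ => f (z.1 + s * d.1, z.2 + s * d.2))
      (D1 f (z.1 + s * d.1, z.2 + s * d.2) * d.1 + D2 f (z.1 + s * d.1, z.2 + s * d.2) * d.2) s := by
  have h1 : HasFDerivAt f (fderiv ℝ f (z.1 + s * d.1, z.2 + s * d.2))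
      (z.1 + s * d.1, z.2 + s * d.2) := (hf _).hasFDerivAt
  have k1 : HasDerivAt (fun s : ℝ => z.1 + s * d.1) d.1 s := by
    simpa using ((hasDerivAt_id s).mul_const d.1).const_add z.1
  have k2 : HasDerivAt (fun s : ℝ => z.2 + s * d.2) d.2 s := by
    simpa using ((hasDerivAt_id s).mul_const d.2).const_add z.2
  have h3 := h1.comp_hasDerivAt s (k1.prodMk k2)
  have e : fderiv ℝ f (z.1 + s * d.1, z.2 + s * d.2) (d.1, d.2) =
      D1 f (z.1 + s * d.1, z.2 + s * d.2) * d.1 + D2 f (z.1 + s * d.1, z.2 + s * d.2) * d.2 := by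
    have : ((d.1, d.2) : ℝ × ℝ) = d.1 • ((1, 0) : ℝ × ℝ) + d.2 • ((0, 1) : ℝ × ℝ) := by
      ext <;> simp
    rw [this, map_add, map_smul, map_smul, smul_eq_mul, smul_eq_mul, D1, D2]
    ring
  rw [e] at h3
  exact h3

theorem O0_taylor {g g' g'' : ℝ → ℝ} (hg : ∀ s, HasDerivAt g (g' s) s)
    (hg' : ∀ s, HasDerivAt g' (g'' s) s) {B : ℝ} (hB : ∀ s, g'' s ≤ B) :
    g 1 - g 0 - g' 0 ≤ B / 2 := by
  have h1 : Monotone fun s => B * s - g' s := by
    refine monotone_of_hasDerivAt_nonneg (f' := fun s => B - g'' s) (fun s => ?_) fun s => ?_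
    · have e1 : HasDerivAt (fun s : ℝ => B * s) B s := by
        simpa using (hasDerivAt_id s).const_mul B
      exact e1.sub (hg' s)
    · have := hB s
      simp only [Pi.zero_apply]
      linarith
  have h2 : MonotoneOn (fun s => B * s ^ 2 / 2 - g s + g' 0 * s) (Icc 0 1) := by
    refine monotoneOn_of_deriv_nonneg (convex_Icc _ _) ?_ ?_ ?_
    · have : Continuous g := continuous_iff_continuousAt.2 fun s => (hg s).continuousAt
      fun_prop
    · intro s _
      have : DifferentiableAt ℝ g s := (hg s).differentiableAt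
      exact DifferentiableAt.differentiableWithinAt (by fun_prop)
    · intro s hs
      rw [interior_Icc] at hs
      have hd : HasDerivAt (fun s => B * s ^ 2 / 2 - g s + g' 0 * s) (B * s - g' s + g' 0) s := by
        have e1 : HasDerivAt (fun s : ℝ => B * s ^ 2 / 2) (B * s) s := by
          have := ((hasDerivAt_pow 2 s).const_mul B).div_const 2
          have e : B * (((2 : ℕ) : ℝ) * s ^ (2 - 1)) / 2 = B * s := by
            norm_num
            ring
          rw [e] at this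
          exact this
        have e2 : HasDerivAt (fun s : ℝ => g' 0 * s) (g' 0) s := by
          simpa using (hasDerivAt_id s).const_mul (g' 0)
        exact (e1.sub (hg s)).add e2
      rw [hd.deriv]
      have := h1 hs.1.le
      simp only [mul_zero, zero_sub] at this
      linarith
  have := h2 (left_mem_Icc.2 zero_le_one) (right_mem_Icc.2 zero_le_one) zero_le_one
  simp only at this
  norm_num at this
  linarith

theorem O0_int {L : ℝ} {f : ℝ × ℝ → ℝ} (hf : Continuous f) : IntegrableOn f (box L) :=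
  hf.continuousOn.integrableOn_compact (isCompact_Icc.prod isCompact_Icc)

theorem O0_meas (L : ℝ) : MeasurableSet (box L) := measurableSet_Icc.prod measurableSet_Icc

/-- second order Taylor formula -/
theorem taylor2 {φ : ℝ × ℝ → ℝ} (hφ : ContDiff ℝ ∞ φ) {ε : ℝ} (hH : Hess φ ε) (x z : ℝ × ℝ) :
    |φ x - φ z - (D1 φ z * (x.1 - z.1) + D2 φ z * (x.2 - z.2))| ≤ ε * sqd x z := by
  obtain ⟨s1, s2, -⟩ := D_smooth hφ
  set d : ℝ × ℝ := (x.1 - z.1, x.2 - z.2) with hd
  let g : ℝ → ℝ := fun s => φ (z.1 + s * d.1, z.2 + s * d.2)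
  let g' : ℝ → ℝ := fun s =>
    D1 φ (z.1 + s * d.1, z.2 + s * d.2) * d.1 + D2 φ (z.1 + s * d.1, z.2 + s * d.2) * d.2
  let g'' : ℝ → ℝ := fun s =>
    (D1 (D1 φ) (z.1 + s * d.1, z.2 + s * d.2) * d.1 +
      D2 (D1 φ) (z.1 + s * d.1, z.2 + s * d.2) * d.2) * d.1 +
    (D1 (D2 φ) (z.1 + s * d.1, z.2 + s * d.2) * d.1 +
      D2 (D2 φ) (z.1 + s * d.1, z.2 + s * d.2) * d.2) * d.2
  have hg : ∀ s, HasDerivAt g (g' s) s := fun s => O0_line (A1_diff hφ) z d s
  have hg' : ∀ s, HasDerivAt g' (g'' s) s := fun s =>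
    ((O0_line (A1_diff s1) z d s).mul_const d.1).add ((O0_line (A1_diff s2) z d s).mul_const d.2)
  have hB : ∀ s, |g'' s| ≤ 2 * (ε * sqd x z) := by
    intro s
    obtain ⟨b1, b2, b3, b4⟩ := hH (z.1 + s * d.1, z.2 + s * d.2)
    have hε : 0 ≤ ε := (abs_nonneg _).trans b1
    have k : ∀ a b c e : ℝ, |a| ≤ ε → |b| ≤ ε → |c| ≤ ε → |e| ≤ ε → ∀ u v : ℝ,
        |(a * u + b * v) * u + (c * u + e * v) * v| ≤ 2 * (ε * (u ^ 2 + v ^ 2)) := by
      intro a b c e ha hb hc he u v
      have e1 : (a * u + b * v) * u + (c * u + e * v) * v = a * u ^ 2 + (b + c) * (u * v) +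
        e * v ^ 2 := by ring
      rw [e1]
      have i1 : |a * u ^ 2| ≤ ε * u ^ 2 := by
        rw [abs_mul, abs_of_nonneg (sq_nonneg u)]; gcongr
      have i2 : |e * v ^ 2| ≤ ε * v ^ 2 := by
        rw [abs_mul, abs_of_nonneg (sq_nonneg v)]; gcongr
      have i3 : |(b + c) * (u * v)| ≤ ε * (u ^ 2 + v ^ 2) := by
        rw [abs_mul]
        have j1 : |b + c| ≤ 2 * ε := (abs_add_le b c).trans (by linarith)
        have j2 : |u * v| ≤ (u ^ 2 + v ^ 2) / 2 := by
          rw [abs_le]; constructor <;> nlinarith [sq_nonneg (u + v), sq_nonneg (u - v)]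
        calc |b + c| * |u * v| ≤ 2 * ε * ((u ^ 2 + v ^ 2) / 2) :=
              mul_le_mul j1 j2 (abs_nonneg _) (by linarith)
          _ = ε * (u ^ 2 + v ^ 2) := by ring
      have := abs_add_le (a * u ^ 2 + (b + c) * (u * v)) (e * v ^ 2)
      have := abs_add_le (a * u ^ 2) ((b + c) * (u * v))
      linarith
    exact k _ _ _ _ b1 b3 b2 b4 d.1 d.2
  have g0 : g 0 = φ z := by simp [g]
  have g1 : g 1 = φ x := by simp [g, hd]
  have g0' : g' 0 = D1 φ z * (x.1 - z.1) + D2 φ z * (x.2 - z.2) := by simp [g', hd]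
  have u1 := O0_taylor hg hg' (fun s => (le_abs_self _).trans (hB s))
  have u2 := O0_taylor (g := fun s => -g s) (g' := fun s => -g' s) (g'' := fun s => -g'' s)
    (fun s => (hg s).neg) (fun s => (hg' s).neg) (fun s => (neg_le_abs _).trans (hB s))
  rw [g0, g1, g0'] at u1 u2
  rw [abs_le]
  constructor <;> linarith

theorem lip_of_Grad {f : ℝ × ℝ → ℝ} (hf : ContDiff ℝ ∞ f) {M : ℝ} (h : Grad f M) (x y : ℝ × ℝ) :
    |f x - f y| ≤ M * (|x.1 - y.1| + |x.2 - y.2|) := by
  set d : ℝ × ℝ := (x.1 - y.1, x.2 - y.2) with hd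
  let g : ℝ → ℝ := fun s => f (y.1 + s * d.1, y.2 + s * d.2)
  have hg : ∀ s, HasDerivAt g (D1 f (y.1 + s * d.1, y.2 + s * d.2) * d.1 +
      D2 f (y.1 + s * d.1, y.2 + s * d.2) * d.2) s := fun s => O0_line (A1_diff hf) y d s
  have g0 : g 0 = f y := by simp [g]
  have g1 : g 1 = f x := by simp [g, hd]
  have key : ‖g 1 - g 0‖ ≤ M * (|x.1 - y.1| + |x.2 - y.2|) * ‖(1 : ℝ) - 0‖ := by
    refine Convex.norm_image_sub_le_of_norm_hasDerivWithin_le (s := univ)
      (fun s _ => (hg s).hasDerivWithinAt) (fun s _ => ?_) convex_univ (mem_univ _) (mem_univ _)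
    obtain ⟨b1, b2⟩ := h (y.1 + s * d.1, y.2 + s * d.2)
    rw [Real.norm_eq_abs]
    refine (abs_add_le _ _).trans ?_
    rw [abs_mul, abs_mul, mul_add]
    exact add_le_add (mul_le_mul_of_nonneg_right b1 (abs_nonneg _))
      (mul_le_mul_of_nonneg_right b2 (abs_nonneg _))
  rw [g0, g1, Real.norm_eq_abs] at key
  simpa using key

/-- the Dirichlet energy of the potential -/
theorem int_sqd_le {L : ℝ} {ι : Type} [Fintype ι] {X : ι → ℝ × ℝ} {r : ℝ × ℝ → ℝ} {ψ : ι → ℝ}
    {T : ℝ × ℝ → ι} (h : IsOpt L X r ψ T) (hr : Continuous r) (hpos : ∀ y ∈ box L, 1 / 2 ≤ r y) :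
    ∫ y in box L, sqd (X (T y)) y ≤ 2 * W L X r := by
  have hc : ∀ i, Continuous fun y => sqd (X i) y := fun i => by unfold sqd; fun_prop
  obtain ⟨-, i1⟩ := opt_integrable h (F := fun i y => sqd (X i) y) hc
  obtain ⟨-, i2⟩ := opt_integrable h (F := fun i y => sqd (X i) y * r y) (fun i => (hc i).mul hr)
  rw [opt_cost h hr (fun y hy => by linarith [hpos y hy]), ← integral_const_mul]
  refine setIntegral_mono_on i1 (i2.const_mul 2) (O0_meas L) fun y hy => ?_
  have h1 : 0 ≤ sqd (X (T y)) y := by unfold sqd; positivity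
  nlinarith [hpos y hy]

/-- the Dirichlet energy of the smooth potential -/
theorem int_gsq_le {L δ : ℝ} {ι : Type} [Fintype ι] {X : ι → ℝ × ℝ} {r : ℝ × ℝ → ℝ} {ψ : ι → ℝ}
    {T : ℝ × ℝ → ι} (h : IsOpt L X r ψ T) (hr : Continuous r) (hpos : ∀ y ∈ box L, 1 / 2 ≤ r y)
    {v : ℝ × ℝ → ℝ} (hv : EP L v)
    (hδ : ∫ y in box L, ((D1 v y - (y.1 - (X (T y)).1)) ^ 2 +
      (D2 v y - (y.2 - (X (T y)).2)) ^ 2) ≤ δ) :
    ∫ y in box L, gsq v y ≤ 4 * W L X r + 2 * δ := by
  obtain ⟨s1, s2, -⟩ := D_smooth hv.smooth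
  have c1 := s1.continuous
  have c2 := s2.continuous
  have hc : ∀ i, Continuous fun y => sqd (X i) y := fun i => by unfold sqd; fun_prop
  obtain ⟨-, i1⟩ := opt_integrable h (F := fun i y => sqd (X i) y) hc
  obtain ⟨-, i2⟩ := opt_integrable h (F := fun i y => (D1 v y - (y.1 - (X i).1)) ^ 2 +
      (D2 v y - (y.2 - (X i).2)) ^ 2) (fun i => by fun_prop)
  have i3 : IntegrableOn (gsq v) (box L) := O0_int (EP_gsq hv).cont
  have hs := int_sqd_le h hr hpos
  have : ∫ y in box L, gsq v y ≤ ∫ y in box L, (2 * ((D1 v y - (y.1 - (X (T y)).1)) ^ 2 +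
      (D2 v y - (y.2 - (X (T y)).2)) ^ 2) + 2 * sqd (X (T y)) y) := by
    refine setIntegral_mono_on i3 ((i2.const_mul 2).add (i1.const_mul 2)) (O0_meas L)
      fun y _ => ?_
    simp only [gsq, sqd]
    nlinarith [sq_nonneg (D1 v y - (y.1 - (X (T y)).1) - (y.1 - (X (T y)).1)),
      sq_nonneg (D2 v y - (y.2 - (X (T y)).2) - (y.2 - (X (T y)).2))]
  rw [integral_add (i2.const_mul 2) (i1.const_mul 2), integral_const_mul, integral_const_mul] at this
  linarith

/-- Cauchy–Schwarz on the box for continuous functions -/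
theorem cs_box {L : ℝ} {f g : ℝ × ℝ → ℝ} (hf : Continuous f) (hg : Continuous g) :
    |∫ y in box L, f y * g y| ≤ √(∫ y in box L, f y ^ 2) * √(∫ y in box L, g y ^ 2) := by
  set A := ∫ y in box L, f y ^ 2 with hA
  set B := ∫ y in box L, f y * g y with hB
  set C := ∫ y in box L, g y ^ 2 with hC
  have hA0 : 0 ≤ A := setIntegral_nonneg (O0_meas L) fun y _ => sq_nonneg _
  have hC0 : 0 ≤ C := setIntegral_nonneg (O0_meas L) fun y _ => sq_nonneg _
  have key : ∀ s : ℝ, 0 ≤ A * (s * s) + (2 * B) * s + C := by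
    intro s
    have e : A * (s * s) + (2 * B) * s + C = ∫ y in box L, (s * f y + g y) ^ 2 := by
      have i1 : IntegrableOn (fun y => s * s * f y ^ 2) (box L) := O0_int (by fun_prop)
      have i2 : IntegrableOn (fun y => 2 * s * (f y * g y)) (box L) := O0_int (by fun_prop)
      have i3 : IntegrableOn (fun y => g y ^ 2) (box L) := O0_int (by fun_prop)
      have : ∀ y, (s * f y + g y) ^ 2 = s * s * f y ^ 2 + 2 * s * (f y * g y) + g y ^ 2 := by
        intro y; ring
      have i12 : IntegrableOn (fun y => s * s * f y ^ 2 + 2 * s * (f y * g y)) (box L) := i1.add i2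
      simp only [this]
      rw [integral_add i12 i3, integral_add i1 i2, integral_const_mul, integral_const_mul]
      ring
    rw [e]
    exact setIntegral_nonneg (O0_meas L) fun y _ => sq_nonneg _
  have hd := discrim_le_zero key
  rw [discrim] at hd
  rw [← Real.sqrt_mul hA0]
  apply Real.abs_le_sqrt
  nlinarith

/-- Cauchy–Schwarz against the constant, on a measurable part of the box -/
theorem cs_one {L : ℝ} {S : Set (ℝ × ℝ)} (hS : MeasurableSet S) (hSL : S ⊆ box L)
    {f : ℝ × ℝ → ℝ} (hf : Continuous f) :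
    ∫ y in S, |f y| ≤ √(volume S).toReal * √(∫ y in box L, f y ^ 2) := by
  have hbox : volume (box L) < ⊤ := (isCompact_Icc.prod isCompact_Icc).measure_lt_top
  have hSf : volume S ≠ ⊤ := ((measure_mono hSL).trans_lt hbox).ne
  set A := ∫ y in S, f y ^ 2 with hA
  set B := ∫ y in S, |f y| with hB
  set C := (volume S).toReal with hC
  have hA0 : 0 ≤ A := setIntegral_nonneg hS fun y _ => sq_nonneg _
  have hC0 : 0 ≤ C := ENNReal.toReal_nonneg
  have hB0 : 0 ≤ B := setIntegral_nonneg hS fun y _ => abs_nonneg _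
  have hint : ∀ {g : ℝ × ℝ → ℝ}, Continuous g → IntegrableOn g S := fun hg =>
    (O0_int hg).mono_set hSL
  have hAb : A ≤ ∫ y in box L, f y ^ 2 :=
    setIntegral_mono_set (O0_int (by fun_prop)) (Filter.Eventually.of_forall fun y => sq_nonneg _)
      (LE.le.eventuallyLE hSL)
  have key : ∀ s : ℝ, 0 ≤ C * (s * s) + (-2 * B) * s + A := by
    intro s
    have e : C * (s * s) + (-2 * B) * s + A = ∫ y in S, (s - |f y|) ^ 2 := by
      have i1 : IntegrableOn (fun _ => s * s) S := hint continuous_const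
      have i2 : IntegrableOn (fun y => 2 * s * |f y|) S := hint (by fun_prop)
      have i3 : IntegrableOn (fun y => f y ^ 2) S := hint (by fun_prop)
      have : ∀ y, (s - |f y|) ^ 2 = s * s - 2 * s * |f y| + f y ^ 2 := by
        intro y
        rw [sub_sq, sq_abs]
        ring
      have i12 : IntegrableOn (fun y => s * s - 2 * s * |f y|) S := i1.sub i2
      have i4 : ∫ y in S, 2 * s * |f y| = 2 * s * B := by rw [hB, integral_const_mul]
      have i5 : ∫ _ in S, s * s = C * (s * s) := by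
        rw [setIntegral_const, smul_eq_mul, Measure.real]
      simp only [this]
      rw [integral_add i12 i3, integral_sub i1 i2, i4, i5]
      ring
    rw [e]
    exact setIntegral_nonneg hS fun y _ => sq_nonneg _
  have hd := discrim_le_zero key
  rw [discrim] at hd
  have h1 : B ≤ √(C * A) := Real.le_sqrt_of_sq_le (by nlinarith)
  refine h1.trans ?_
  rw [Real.sqrt_mul hC0]
  exact mul_le_mul_of_nonneg_left (Real.sqrt_le_sqrt hAb) (Real.sqrt_nonneg _)

theorem gabs_le_gsq (f : ℝ × ℝ → ℝ) (y : ℝ × ℝ) : gabs f y ^ 2 ≤ 2 * gsq f y := by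
  unfold gabs gsq
  have h1 := sq_abs (D1 f y)
  have h2 := sq_abs (D2 f y)
  nlinarith [sq_nonneg (|D1 f y| - |D2 f y|)]

end Pool.Agent.Lib.H77M
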