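import Pool.Agent.Lib.H77M.O0
import Pool.Agent.Lib.H77M.D4
import Pool.Agent.Lib.H77M.D5
import Pool.Agent.Lib.H77M.B5

/-!
# Project H77M, chunk O1a: Theorem 1 of PROOF.md, first inequality

With `e = ∇ φ / λ`, `(ψ, u)` the potentials of `(X, rho)` and `T'` the optimal map of `(X, λ)`:
integrate `ψ (T' z) + u (z + e z) ≤ sqd (X (T' z)) (z + e z) / 2` against `λ dz`; expand the square
with `taylor2` for `φ`; use `lin1` for `u` (smoothed, `smooth_pot`) and `φ / λ`.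
-/

open MeasureTheory Set ProbabilityTheory
open scoped ContDiff

namespace Pool.Agent.Lib.H77M

theorem O1a_D1_div {f : ℝ × ℝ → ℝ} (hf : ContDiff ℝ ∞ f) (c : ℝ) :
    D1 (fun y => f y / c) = fun y => D1 f y / c := by
  funext y
  unfold D1
  have h1 : HasFDerivAt (fun y => f y / c) (c⁻¹ • fderiv ℝ f y) y := by
    have h2 := ((A1_diff hf y).hasFDerivAt).const_mul c⁻¹
    have h3 : (fun y => f y / c) = fun y => c⁻¹ * f y := by
      funext z
      ring
    rw [h3]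
    exact h2
  rw [h1.fderiv]
  simp only [ContinuousLinearMap.smul_apply, smul_eq_mul]
  ring

theorem O1a_D2_div {f : ℝ × ℝ → ℝ} (hf : ContDiff ℝ ∞ f) (c : ℝ) :
    D2 (fun y => f y / c) = fun y => D2 f y / c := by
  funext y
  unfold D2
  have h1 : HasFDerivAt (fun y => f y / c) (c⁻¹ • fderiv ℝ f y) y := by
    have h2 := ((A1_diff hf y).hasFDerivAt).const_mul c⁻¹
    have h3 : (fun y => f y / c) = fun y => c⁻¹ * f y := by
      funext z
      ring
    rw [h3]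
    exact h2
  rw [h1.fderiv]
  simp only [ContinuousLinearMap.smul_apply, smul_eq_mul]
  ring

theorem O1a_abs_div {a l e : ℝ} (hl : 1 / 2 ≤ l) (ha : |a| ≤ e) : |a / l| ≤ 2 * e := by
  have hl0 : 0 < l := by linarith
  have he : 0 ≤ e := (abs_nonneg a).trans ha
  rw [abs_div, abs_of_pos hl0, div_le_iff₀ hl0]
  nlinarith

/-- the facts used in the proof of Theorem 1 -/
structure O1aS (C K L t : ℝ) {ι : Type} [Fintype ι] (X : ι → ℝ × ℝ) : Prop where
  K1 : 1 ≤ K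
  L1 : 1 ≤ L
  t1 : 1 ≤ t
  ne : Nonempty ι
  lam1 : 1 / 2 ≤ (Fintype.card ι : ℝ) / L ^ 2
  lam2 : (Fintype.card ι : ℝ) / L ^ 2 ≤ 2
  rho1 : ∀ y, 1 / 2 ≤ rho L t X y
  rho2 : ∀ y, rho L t X y ≤ 2
  rho3 : ∀ y, |rho L t X y - (Fintype.card ι : ℝ) / L ^ 2| ≤ C * K ^ 2 / √t
  hess : Hess (phi L t X) (C * K ^ 2 / √t)
  EPP : EP L (fun y => phi L t X y / ((Fintype.card ι : ℝ) / L ^ 2))
  hessP : Hess (fun y => phi L t X y / ((Fintype.card ι : ℝ) / L ^ 2)) (C * K ^ 2 / √t)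
  small : C * K ^ 2 / √t ≤ 1 / 8
  lapP : ∀ y, ((Fintype.card ι : ℝ) / L ^ 2) *
    (1 - lap (fun y => phi L t X y / ((Fintype.card ι : ℝ) / L ^ 2)) y) = rho L t X y
  en0 : 0 ≤ En L (2 * t) X
  en : En L (2 * t) X ≤ C * K ^ 6 * L ^ 2
  gsqP : ∫ y in box L, gsq (fun y => phi L t X y / ((Fintype.card ι : ℝ) / L ^ 2)) y ≤
    C * K ^ 6 * L ^ 2
  Wl : W L X (fun _ => (Fintype.card ι : ℝ) / L ^ 2) ≤ C * K ^ 4 * L ^ 2
  Wr : W L X (rho L t X) ≤ C * K ^ 4 * L ^ 2

theorem O1a_vol {L : ℝ} (hL : 0 < L) : ∫ _ in box L, (1 : ℝ) = L ^ 2 := d3_box_vol hL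

theorem O1a_setup : ∃ C K0 : ℝ, 1 ≤ C ∧ 1 ≤ K0 ∧ ∀ (K L t : ℝ) {ι : Type} [Fintype ι]
    (X : ι → ℝ × ℝ), Reg K L X → K0 ≤ K → K ^ 16 ≤ t → t ≤ L ^ 2 → O1aS C K L t X := by
  obtain ⟨C1, hC1, hphi⟩ := phi_bd
  obtain ⟨C2, hC2, hnear⟩ := rho_near
  obtain ⟨K1, hK1, htwo⟩ := rho_two
  obtain ⟨C3, K3, hC3, hK3, hone⟩ := crude_one
  obtain ⟨C4, K4, hC4, hK4, hrho⟩ := crude_rho
  set C : ℝ := 1 + 2 * C1 + C2 + C3 + C4 + 8 * C1 ^ 2 with hC
  have hCpos : 1 ≤ C := by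
    rw [hC]
    nlinarith [sq_nonneg C1]
  have hc1 : 2 * C1 ≤ C := by rw [hC]; nlinarith [sq_nonneg C1]
  have hc2 : C2 ≤ C := by rw [hC]; nlinarith [sq_nonneg C1]
  have hc3 : C3 ≤ C := by rw [hC]; nlinarith [sq_nonneg C1]
  have hc4 : C4 ≤ C := by rw [hC]; nlinarith [sq_nonneg C1]
  have hc5 : 8 * C1 ^ 2 ≤ C := by rw [hC]; nlinarith [sq_nonneg C1]
  refine ⟨C, 2 + K1 + K3 + K4 + 8 * C, hCpos, by linarith, ?_⟩
  intro K L t ι _ X hX hK ht htL
  have hK2 : 2 ≤ K := by linarith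
  have hK1' : 1 ≤ K := by linarith
  have hL1 : 1 ≤ L := hX.one_le
  have hL0 : 0 < L := by linarith
  have hpow : ∀ m n : ℕ, m ≤ n → K ^ m ≤ K ^ n := fun m n h => pow_le_pow_right₀ hK1' h
  have ht1 : 1 ≤ t := le_trans (one_le_pow₀ hK1') ht
  have ht0 : 0 < t := by linarith
  have hKL : K ^ 8 ≤ L := by
    have h1 : (K ^ 8) ^ 2 ≤ L ^ 2 := by
      calc (K ^ 8) ^ 2 = K ^ 16 := by ring
        _ ≤ t := ht
        _ ≤ L ^ 2 := htL
    exact (sq_le_sq₀ (by positivity) hL0.le).1 h1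
  have hst : K ^ 8 ≤ √t := by
    apply Real.le_sqrt_of_sq_le
    calc (K ^ 8) ^ 2 = K ^ 16 := by ring
        _ ≤ t := ht
  have hst0 : 0 < √t := Real.sqrt_pos.2 ht0
  have h2K : 2 * K ≤ L := by
    have : 2 * K ≤ K ^ 2 := by nlinarith
    exact (this.trans (hpow 2 8 (by norm_num))).trans hKL
  obtain ⟨hl1, hl2⟩ := lam_two hX h2K
  have hl0 : 0 < (Fintype.card ι : ℝ) / L ^ 2 := by linarith
  have hne : Nonempty ι := by
    by_contra hcon
    rw [not_nonempty_iff] at hcon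
    have : Fintype.card ι = 0 := Fintype.card_eq_zero
    rw [this] at hl0
    simp at hl0
  have htw := htwo K L X hX (by linarith) t ((hpow 8 16 (by norm_num)).trans ht) htL
  obtain ⟨hg, hh⟩ := hphi K L X hX t ht1
  have hEP := phi_EP hL0 ht0 X
  obtain ⟨s1, s2, -⟩ := D_smooth hEP.smooth
  have hK2t : 0 ≤ K ^ 2 / √t := by positivity
  have hsm : K ^ 2 / √t ≤ 1 / K := by
    rw [div_le_div_iff₀ hst0 (by linarith)]
    calc K ^ 2 * K = K ^ 3 := by ring
      _ ≤ K ^ 8 := hpow 3 8 (by norm_num)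
      _ ≤ 1 * √t := by rw [one_mul]; exact hst
  have hmon : ∀ a b : ℝ, a ≤ b → a * K ^ 2 / √t ≤ b * K ^ 2 / √t := by
    intro a b hab
    rw [mul_div_assoc, mul_div_assoc]
    exact mul_le_mul_of_nonneg_right hab hK2t
  have hgsqle : ∀ y, gsq (phi L t X) y ≤ 2 * C1 ^ 2 * K ^ 6 := by
    intro y
    obtain ⟨g1, g2⟩ := hg y
    have e1 : D1 (phi L t X) y ^ 2 ≤ (C1 * K ^ 3) ^ 2 := by
      rw [← sq_abs]
      exact pow_le_pow_left₀ (abs_nonneg _) g1 2
    have e2 : D2 (phi L t X) y ^ 2 ≤ (C1 * K ^ 3) ^ 2 := by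
      rw [← sq_abs]
      exact pow_le_pow_left₀ (abs_nonneg _) g2 2
    unfold gsq
    calc D1 (phi L t X) y ^ 2 + D2 (phi L t X) y ^ 2 ≤ (C1 * K ^ 3) ^ 2 + (C1 * K ^ 3) ^ 2 :=
          add_le_add e1 e2
      _ = 2 * C1 ^ 2 * K ^ 6 := by ring
  have hen := phi_gsq hL0 ht0 X
  have hgc : Continuous (gsq (phi L t X)) := (EP_gsq hEP).cont
  have hen2 : En L (2 * t) X ≤ 2 * C1 ^ 2 * K ^ 6 * L ^ 2 := by
    rw [← hen]
    calc ∫ y in box L, gsq (phi L t X) y ≤ ∫ _ in box L, 2 * C1 ^ 2 * K ^ 6 :=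
          setIntegral_mono_on (O0_int hgc) (O0_int continuous_const) (O0_meas L)
            fun y _ => hgsqle y
      _ = ∫ _ in box L, 2 * C1 ^ 2 * K ^ 6 * 1 := by simp only [mul_one]
      _ = 2 * C1 ^ 2 * K ^ 6 * L ^ 2 := by
          rw [integral_const_mul, O1a_vol hL0]
  have hDD1 : D1 (fun y => phi L t X y / ((Fintype.card ι : ℝ) / L ^ 2)) =
      fun y => D1 (phi L t X) y / ((Fintype.card ι : ℝ) / L ^ 2) := O1a_D1_div hEP.smooth _
  have hDD2 : D2 (fun y => phi L t X y / ((Fintype.card ι : ℝ) / L ^ 2)) =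
      fun y => D2 (phi L t X) y / ((Fintype.card ι : ℝ) / L ^ 2) := O1a_D2_div hEP.smooth _
  have hKL2 : 0 ≤ K ^ 6 * L ^ 2 := by positivity
  refine ⟨hK1', hL1, ht1, hne, hl1, hl2, fun y => (htw y).1, fun y => (htw y).2, fun y => ?_, ?_,
    ?_, ?_, ?_, fun y => ?_, ?_, ?_, ?_, ?_, ?_⟩
  · exact (hnear K L X hX t ht1 htL y).2.trans (hmon _ _ hc2)
  · intro y
    obtain ⟨a1, a2, a3, a4⟩ := hh y
    have h0 := hmon C1 C (by linarith)
    exact ⟨a1.trans h0, a2.trans h0, a3.trans h0, a4.trans h0⟩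
  · have := EP_comp hEP (g := fun x => x / ((Fintype.card ι : ℝ) / L ^ 2))
      (contDiff_id.div_const _)
    exact this
  · intro y
    obtain ⟨a1, a2, a3, a4⟩ := hh y
    have h0 := hmon (2 * C1) C hc1
    have h1 : 2 * (C1 * K ^ 2 / √t) = 2 * C1 * K ^ 2 / √t := by ring
    rw [hDD1, hDD2, O1a_D1_div s1, O1a_D1_div s2, O1a_D2_div s1, O1a_D2_div s2]
    refine ⟨?_, ?_, ?_, ?_⟩
    · exact (O1a_abs_div hl1 a1).trans (h1.le.trans h0)
    · exact (O1a_abs_div hl1 a2).trans (h1.le.trans h0)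
    · exact (O1a_abs_div hl1 a3).trans (h1.le.trans h0)
    · exact (O1a_abs_div hl1 a4).trans (h1.le.trans h0)
  · rw [mul_div_assoc]
    calc C * (K ^ 2 / √t) ≤ C * (1 / K) := mul_le_mul_of_nonneg_left hsm (by linarith)
      _ ≤ 1 / 8 := by
          rw [mul_one_div, div_le_div_iff₀ (by linarith) (by norm_num)]
          linarith
  · have hlap := phi_lap hL0 ht0 X y
    unfold lap at hlap ⊢
    rw [hDD1, hDD2, O1a_D1_div s1, O1a_D2_div s2]
    have : D1 (D1 (phi L t X)) y / ((Fintype.card ι : ℝ) / L ^ 2) +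
        D2 (D2 (phi L t X)) y / ((Fintype.card ι : ℝ) / L ^ 2) =
        ((Fintype.card ι : ℝ) / L ^ 2 - rho L t X y) / ((Fintype.card ι : ℝ) / L ^ 2) := by
      rw [← hlap]
      ring
    simp only
    rw [this]
    field_simp
    ring
  · rw [← hen]
    exact setIntegral_nonneg (O0_meas L) fun y _ => by unfold gsq; positivity
  · refine hen2.trans ?_
    rw [mul_assoc, mul_assoc C]
    apply mul_le_mul_of_nonneg_right _ hKL2
    linarith [sq_nonneg C1]
  · have h1 : ∀ y, gsq (fun y => phi L t X y / ((Fintype.card ι : ℝ) / L ^ 2)) y =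
        (1 / ((Fintype.card ι : ℝ) / L ^ 2)) ^ 2 * gsq (phi L t X) y := by
      intro y
      unfold gsq
      rw [hDD1, hDD2]
      simp only
      ring
    simp only [h1]
    rw [integral_const_mul, hen]
    have h2 : (1 / ((Fintype.card ι : ℝ) / L ^ 2)) ^ 2 ≤ 4 := by
      have h3 : 1 / ((Fintype.card ι : ℝ) / L ^ 2) ≤ 2 := by
        rw [div_le_iff₀ hl0]
        linarith
      have h4 : 0 ≤ 1 / ((Fintype.card ι : ℝ) / L ^ 2) := by positivity
      nlinarith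
    have h5 : 0 ≤ 2 * C1 ^ 2 * K ^ 6 * L ^ 2 := by positivity
    calc (1 / ((Fintype.card ι : ℝ) / L ^ 2)) ^ 2 * En L (2 * t) X
        ≤ (1 / ((Fintype.card ι : ℝ) / L ^ 2)) ^ 2 * (2 * C1 ^ 2 * K ^ 6 * L ^ 2) :=
          mul_le_mul_of_nonneg_left hen2 (sq_nonneg _)
      _ ≤ 4 * (2 * C1 ^ 2 * K ^ 6 * L ^ 2) := mul_le_mul_of_nonneg_right h2 h5
      _ = 8 * C1 ^ 2 * (K ^ 6 * L ^ 2) := by ring
      _ ≤ C * (K ^ 6 * L ^ 2) := mul_le_mul_of_nonneg_right hc5 hKL2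
      _ = C * K ^ 6 * L ^ 2 := by ring
  · refine (hone K L X hX (by linarith) ((hpow 4 8 (by norm_num)).trans hKL)).trans ?_
    rw [mul_assoc, mul_assoc]
    exact mul_le_mul_of_nonneg_right hc3 (by positivity)
  · refine (hrho K L X hX (by linarith) t ((hpow 8 16 (by norm_num)).trans ht) htL).trans ?_
    rw [mul_assoc, mul_assoc]
    exact mul_le_mul_of_nonneg_right hc4 (by positivity)

/-- the error term in the linearisation -/
theorem O1a_err {C C' K L t δ w : ℝ} (hC : 1 ≤ C) (hC' : 0 < C') (hK : 1 ≤ K) (hL : 1 ≤ L) (ht : 1 ≤ t)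
    (hw : w ≤ C * K ^ 4 * L ^ 2) (hδ : δ = 1 / √t) {a b : ℝ} (ha : a ≤ 4 * w + 2 * δ)
    (hb : b ≤ C * K ^ 6 * L ^ 2) :
    C' * (C * K ^ 2 / √t) * √a * √b ≤ 6 * C' * C ^ 2 * K ^ 8 / √t * L ^ 2 := by
  have ht0 : 0 < √t := Real.sqrt_pos.2 (by linarith)
  have ht1 : 1 ≤ √t := Real.one_le_sqrt.2 ht
  have hL2 : 1 ≤ L ^ 2 := one_le_pow₀ hL
  have hK4 : 1 ≤ K ^ 4 := one_le_pow₀ hK
  have hδ1 : δ ≤ 1 := by
    rw [hδ, div_le_one ht0]
    exact ht1
  have h1 : a ≤ 6 * C * K ^ 4 * L ^ 2 := by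
    have h2 : 1 ≤ C * K ^ 4 * L ^ 2 := by
      have h3 : 1 ≤ C * K ^ 4 := by nlinarith
      nlinarith
    linarith
  have h4 : √a ≤ √(6 * C) * (K ^ 2 * L) := by
    calc √a ≤ √((6 * C) * (K ^ 2 * L) ^ 2) := by
          apply Real.sqrt_le_sqrt
          calc a ≤ 6 * C * K ^ 4 * L ^ 2 := h1
            _ = (6 * C) * (K ^ 2 * L) ^ 2 := by ring
      _ = √(6 * C) * (K ^ 2 * L) := by
          rw [Real.sqrt_mul (by linarith), Real.sqrt_sq (by positivity)]
  have h5 : √b ≤ √C * (K ^ 3 * L) := by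
    calc √b ≤ √(C * (K ^ 3 * L) ^ 2) := by
          apply Real.sqrt_le_sqrt
          calc b ≤ C * K ^ 6 * L ^ 2 := hb
            _ = C * (K ^ 3 * L) ^ 2 := by ring
      _ = √C * (K ^ 3 * L) := by
          rw [Real.sqrt_mul (by linarith), Real.sqrt_sq (by positivity)]
  have h6 : √(6 * C) * √C ≤ 6 * C := by
    have h7 : √C ≤ √(6 * C) := Real.sqrt_le_sqrt (by linarith)
    calc √(6 * C) * √C ≤ √(6 * C) * √(6 * C) :=
          mul_le_mul_of_nonneg_left h7 (Real.sqrt_nonneg _)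
      _ = 6 * C := Real.mul_self_sqrt (by linarith)
  have h8 : √a * √b ≤ 6 * C * (K ^ 6 * L ^ 2) := by
    calc √a * √b ≤ (√(6 * C) * (K ^ 2 * L)) * (√C * (K ^ 3 * L)) :=
          mul_le_mul h4 h5 (Real.sqrt_nonneg _) (by positivity)
      _ = (√(6 * C) * √C) * (K ^ 5 * L ^ 2) := by ring
      _ ≤ (6 * C) * (K ^ 6 * L ^ 2) := by
          apply mul_le_mul h6 _ (by positivity) (by linarith)
          apply mul_le_mul_of_nonneg_right _ (by positivity)
          exact pow_le_pow_right₀ hK (by norm_num)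
  calc C' * (C * K ^ 2 / √t) * √a * √b = C' * (C * K ^ 2 / √t) * (√a * √b) := by ring
    _ ≤ C' * (C * K ^ 2 / √t) * (6 * C * (K ^ 6 * L ^ 2)) :=
        mul_le_mul_of_nonneg_left h8 (by positivity)
    _ = 6 * C' * C ^ 2 * K ^ 8 / √t * L ^ 2 := by ring

theorem O1a_gmap_cont {L : ℝ} {φ : ℝ × ℝ → ℝ} (h : EP L φ) (s : ℝ) : Continuous (gmap s φ) := by
  obtain ⟨s1, s2, -⟩ := D_smooth h.smooth
  have c1 := s1.continuous
  have c2 := s2.continuous
  unfold gmap
  fun_prop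

theorem one_a : ∃ C K0 : ℝ, 0 < C ∧ 1 ≤ K0 ∧ ∀ (K L t : ℝ) {ι : Type} [Fintype ι]
    (X : ι → ℝ × ℝ), Reg K L X → K0 ≤ K → K ^ 16 ≤ t → t ≤ L ^ 2 →
    W L X (rho L t X) ≤ W L X (fun _ => (Fintype.card ι : ℝ) / L ^ 2) -
      L ^ 2 / (Fintype.card ι : ℝ) * (2 * En L t X - En L (2 * t) X) + C * K ^ 8 / √t * L ^ 2 := by
  obtain ⟨C, K0, hC, hK0, hset⟩ := O1a_setup
  obtain ⟨C', hC', hlin⟩ := lin1
  refine ⟨8 + 4 * C ^ 2 + 2 * (2 * (6 * C' * C ^ 2)), K0, by positivity, hK0, ?_⟩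
  intro K L t ι _ X hX hK ht htL
  have S := hset K L t X hX hK ht htL
  have := S.ne
  have hL0 : 0 < L := by linarith [S.L1]
  have ht0 : 0 < t := by linarith [S.t1]
  have hst0 : 0 < √t := Real.sqrt_pos.2 ht0
  set N : ℝ := (Fintype.card ι : ℝ) with hN
  set l : ℝ := N / L ^ 2 with hl
  have hl1 : 1 / 2 ≤ l := S.lam1
  have hl2 : l ≤ 2 := S.lam2
  have hl0 : 0 < l := by linarith
  have hNl : N = l * L ^ 2 := by
    rw [hl]
    field_simp
  have hlinv : L ^ 2 / N = 1 / l := by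
    rw [hl, one_div_div]
  set φ := phi L t X with hφ
  set Φ : ℝ × ℝ → ℝ := fun y => φ y / l with hΦ
  have hEP : EP L φ := phi_EP hL0 ht0 X
  have hEPΦ : EP L Φ := S.EPP
  have hrEP : EP L (rho L t X) := rho_EP hL0 ht0 X
  obtain ⟨s1, s2, -⟩ := D_smooth hEP.smooth
  have c1 := s1.continuous
  have c2 := s2.continuous
  -- the potentials of `(X, rho)`
  obtain ⟨ψ, T, hopt, -⟩ := exists_opt hL0 hX.inj hrEP.cont
    (fun y _ => by linarith [S.rho1 y]) (int_rho hL0 ht0 X)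
  -- the optimal map of `(X, λ)`
  obtain ⟨ψ', T', hopt', -⟩ := exists_opt (r := fun _ => l) hL0 hX.inj continuous_const
    (fun y _ => hl0) (by
      have h1 : ∫ _ in box L, l = ∫ _ in box L, l * 1 := by simp only [mul_one]
      rw [h1, integral_const_mul, O1a_vol hL0, ← hNl])
  set δ : ℝ := 1 / √t with hδ
  have hδ0 : 0 < δ := by positivity
  obtain ⟨v, hv, hvu, hvg, -⟩ := smooth_pot hL0 hopt hδ0
  have hgv := int_gsq_le hopt hrEP.cont (fun y _ => S.rho1 y) hv hvg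
  have hLin := hlin L (C * K ^ 2 / √t) hL0 S.small Φ v hEPΦ hv S.hessP
  have hErr := O1a_err hC hC' S.K1 S.L1 S.t1 S.Wr hδ hgv S.gsqP
  have hLin2 := (abs_le.1 (hLin.trans hErr)).1
  set E : ℝ := 6 * C' * C ^ 2 * K ^ 8 / √t * L ^ 2 with hE
  set u := upot X ψ with hu
  have hucont : Continuous u := upot_cont X ψ
  have hGc : Continuous (gmap 1 Φ) := O1a_gmap_cont hEPΦ 1
  have hbij := gmap_bij hL0 hEPΦ S.hessP S.small (s := 1) (by norm_num)
  have hone : ∫ _ in box L, (1 : ℝ) = L ^ 2 := O1a_vol hL0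
  -- lower bound for the left hand side
  have i1 : IntegrableOn (fun z => v (gmap 1 Φ z)) (box L) := O0_int (hv.cont.comp hGc)
  have i2 : IntegrableOn (fun z => u (gmap 1 Φ z)) (box L) := O0_int (hucont.comp hGc)
  have i3 : IntegrableOn (fun _ : ℝ × ℝ => δ * 1) (box L) := O0_int continuous_const
  have i4 : IntegrableOn (fun y => u y * rho L t X y) (box L) := O0_int (hucont.mul hrEP.cont)
  have i5 : IntegrableOn (fun y => v y * rho L t X y) (box L) := O0_int (hv.cont.mul hrEP.cont)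
  have i6 : IntegrableOn (fun y => δ * rho L t X y) (box L) := O0_int (hrEP.cont.const_mul δ)
  have i7 : IntegrableOn (fun z => v (gmap 1 Φ z) - δ * 1) (box L) := i1.sub i3
  have i8 : IntegrableOn (fun y => u y * rho L t X y - δ * rho L t X y) (box L) := i4.sub i6
  have hA1 : (∫ z in box L, v (gmap 1 Φ z)) - δ * L ^ 2 ≤ ∫ z in box L, u (gmap 1 Φ z) := by
    have h1 : (∫ z in box L, v (gmap 1 Φ z)) - δ * L ^ 2 =
        ∫ z in box L, (v (gmap 1 Φ z) - δ * 1) := by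
      rw [integral_sub i1 i3, integral_const_mul, hone]
    rw [h1]
    apply setIntegral_mono_on i7 i2 (O0_meas L)
    intro z hz
    have h2 := abs_le.1 (hvu (gmap 1 Φ z) (hbij.mapsTo hz))
    linarith [h2.2]
  have hA2 : (∫ y in box L, u y * rho L t X y) - δ * N ≤ ∫ y in box L, v y * rho L t X y := by
    have h1 : (∫ y in box L, u y * rho L t X y) - δ * N =
        ∫ y in box L, (u y * rho L t X y - δ * rho L t X y) := by
      rw [integral_sub i4 i6, integral_const_mul, int_rho hL0 ht0 X]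
    rw [h1]
    apply setIntegral_mono_on i8 i5 (O0_meas L)
    intro y hy
    have h2 := abs_le.1 (hvu y hy)
    have h3 : 0 < rho L t X y := by linarith [S.rho1 y]
    have h4 : (u y - δ) * rho L t X y ≤ v y * rho L t X y :=
      mul_le_mul_of_nonneg_right (by linarith [h2.1]) h3.le
    linarith
  have hA3 : l * ∫ z in box L, v z * (1 - lap Φ z) = ∫ y in box L, v y * rho L t X y := by
    rw [← integral_const_mul]
    apply setIntegral_congr_fun (O0_meas L)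
    intro y _
    show l * (v y * (1 - lap Φ y)) = v y * rho L t X y
    rw [← S.lapP y]
    ring
  have hA4 : (∫ y in box L, u y * rho L t X y) - 2 * δ * N - l * E ≤
      l * ∫ z in box L, u (gmap 1 Φ z) := by
    have h1 : l * ((∫ z in box L, v (gmap 1 Φ z)) - δ * L ^ 2) ≤
        l * ∫ z in box L, u (gmap 1 Φ z) := mul_le_mul_of_nonneg_left hA1 hl0.le
    have h2 : l * (-E) ≤ l * ((∫ z in box L, v (gmap 1 Φ z)) -
        ∫ z in box L, v z * (1 - lap Φ z)) := mul_le_mul_of_nonneg_left hLin2 hl0.le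
    have h3 : l * (δ * L ^ 2) = δ * N := by rw [hNl]; ring
    rw [mul_sub, hA3] at h2
    rw [mul_sub, h3] at h1
    linarith
  -- the duality
  have hW := opt_dual hopt hrEP.cont (fun y _ => by linarith [S.rho1 y])
  have hWc := opt_cost hopt' continuous_const (fun y _ => hl0.le)
  have hsum := opt_int hopt' continuous_const ψ
  have hsumφ := opt_int hopt' continuous_const (fun i => φ (X i))
  have hen := phi_gsq hL0 ht0 X
  have hphi0 := phi_int hL0 ht0 X
  have hphis := phi_sum (L := L) (t := t) X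
  have hsq : ∀ i, Continuous fun y => sqd (X i) y := fun i => by unfold sqd; fun_prop
  set ε : ℝ := C * K ^ 2 / √t with hε
  have hε0 : 0 ≤ ε := by
    have := S.K1
    positivity
  have hgc : Continuous (gsq φ) := (EP_gsq hEP).cont
  have j1 : IntegrableOn (fun y => ψ (T' y) * l) (box L) :=
    (opt_integrable hopt' (F := fun i _ => ψ i * l) (fun i => continuous_const)).2
  have j2 : IntegrableOn (fun y => sqd (X (T' y)) y * l) (box L) :=
    (opt_integrable hopt' (F := fun i y => sqd (X i) y * l)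
    (fun i => (hsq i).mul continuous_const)).2
  have j3 : IntegrableOn (fun y => φ (X (T' y)) * l) (box L) :=
    (opt_integrable hopt' (F := fun i _ => φ (X i) * l) (fun i => continuous_const)).2
  have j4 : IntegrableOn (fun z => l * u (gmap 1 Φ z)) (box L) :=
    O0_int (continuous_const.mul (hucont.comp hGc))
  have j5 : IntegrableOn (fun z => φ z) (box L) := O0_int hEP.cont
  have j6 : IntegrableOn (fun z => gsq φ z) (box L) := O0_int hgc
  have hpt : ∀ z ∈ box L, ψ (T' z) * l + l * u (gmap 1 Φ z) ≤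
      (1 / 2 + ε / l) * (sqd (X (T' z)) z * l) + (-(1 / l)) * (φ (X (T' z)) * l) + φ z +
        1 / (2 * l) * gsq φ z := by
    intro z _
    have h1 := upot_le X ψ (T' z) (gmap 1 Φ z)
    have h2 := (abs_le.1 (taylor2 hEP.smooth S.hess (X (T' z)) z)).2
    have h3 : sqd (X (T' z)) (gmap 1 Φ z) = sqd (X (T' z)) z -
        2 / l * (D1 φ z * ((X (T' z)).1 - z.1) + D2 φ z * ((X (T' z)).2 - z.2)) +
        1 / l ^ 2 * gsq φ z := by
      have e1 : D1 Φ z = D1 φ z / l := congrFun (O1a_D1_div hEP.smooth l) z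
      have e2 : D2 Φ z = D2 φ z / l := congrFun (O1a_D2_div hEP.smooth l) z
      simp only [gmap, sqd, gsq, e1, e2]
      field_simp
      ring
    have h4 : l * (ψ (T' z) + u (gmap 1 Φ z)) ≤ l * (sqd (X (T' z)) (gmap 1 Φ z) / 2) :=
      mul_le_mul_of_nonneg_left (by linarith) hl0.le
    rw [h3] at h4
    have h5 : l * ((sqd (X (T' z)) z -
        2 / l * (D1 φ z * ((X (T' z)).1 - z.1) + D2 φ z * ((X (T' z)).2 - z.2)) +
        1 / l ^ 2 * gsq φ z) / 2) = l * sqd (X (T' z)) z / 2 -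
        (D1 φ z * ((X (T' z)).1 - z.1) + D2 φ z * ((X (T' z)).2 - z.2)) +
        1 / (2 * l) * gsq φ z := by
      field_simp
    rw [h5] at h4
    have h6 : (1 / 2 + ε / l) * (sqd (X (T' z)) z * l) = l * sqd (X (T' z)) z / 2 +
        ε * sqd (X (T' z)) z := by
      field_simp
    have h7 : (-(1 / l)) * (φ (X (T' z)) * l) = - φ (X (T' z)) := by
      field_simp
    rw [h6, h7]
    linarith
  have k1 : IntegrableOn (fun z => (1 / 2 + ε / l) * (sqd (X (T' z)) z * l)) (box L) :=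
    j2.const_mul _
  have k2 : IntegrableOn (fun z => (-(1 / l)) * (φ (X (T' z)) * l)) (box L) := j3.const_mul _
  have k3 : IntegrableOn (fun z => 1 / (2 * l) * gsq φ z) (box L) := j6.const_mul _
  have k4 : IntegrableOn (fun z => (1 / 2 + ε / l) * (sqd (X (T' z)) z * l) +
      (-(1 / l)) * (φ (X (T' z)) * l)) (box L) := k1.add k2
  have k5 : IntegrableOn (fun z => (1 / 2 + ε / l) * (sqd (X (T' z)) z * l) +
      (-(1 / l)) * (φ (X (T' z)) * l) + φ z) (box L) := k4.add j5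
  have k6 : IntegrableOn (fun z => (1 / 2 + ε / l) * (sqd (X (T' z)) z * l) +
      (-(1 / l)) * (φ (X (T' z)) * l) + φ z + 1 / (2 * l) * gsq φ z) (box L) := k5.add k3
  have k7 : IntegrableOn (fun z => ψ (T' z) * l + l * u (gmap 1 Φ z)) (box L) := j1.add j4
  have hint := setIntegral_mono_on k7 k6 (O0_meas L) hpt
  rw [integral_add j1 j4, integral_add k5 k3, integral_add k4 j5, integral_add k1 k2,
    integral_const_mul, integral_const_mul, integral_const_mul, integral_const_mul, hsum, hsumφ,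
    ← hWc, hphi0, hphis, hen] at hint
  rw [hlinv]
  have hWl := S.Wl
  set Wl := W L X (fun _ => l) with hWldef
  set Wr := W L X (rho L t X) with hWrdef
  -- the errors
  have hK8 : 1 ≤ K ^ 8 := one_le_pow₀ S.K1
  have hL2 : 0 < L ^ 2 := by positivity
  have e1 : 2 * δ * N ≤ 4 * (K ^ 8 / √t * L ^ 2) := by
    have h1 : N ≤ 2 * L ^ 2 := by
      rw [hNl]
      exact mul_le_mul_of_nonneg_right hl2 hL2.le
    have h2 : δ ≤ K ^ 8 / √t := by
      rw [hδ]
      gcongr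
    calc 2 * δ * N ≤ 2 * (K ^ 8 / √t) * (2 * L ^ 2) := by gcongr
      _ = 4 * (K ^ 8 / √t * L ^ 2) := by ring
  have e2 : l * E ≤ 2 * (6 * C' * C ^ 2) * (K ^ 8 / √t * L ^ 2) := by
    have h1 : 0 ≤ E := by
      rw [hE]
      have := S.K1
      positivity
    calc l * E ≤ 2 * E := mul_le_mul_of_nonneg_right hl2 h1
      _ = 2 * (6 * C' * C ^ 2) * (K ^ 8 / √t * L ^ 2) := by
          rw [hE]
          ring
  have e3 : ε / l * Wl ≤ 2 * C ^ 2 * (K ^ 8 / √t * L ^ 2) := by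
    have h1 : ε / l ≤ 2 * ε := by
      rw [div_le_iff₀ hl0]
      nlinarith
    have h2 : 0 ≤ C * K ^ 4 * L ^ 2 := by
      have := S.K1
      positivity
    calc ε / l * Wl ≤ ε / l * (C * K ^ 4 * L ^ 2) :=
          mul_le_mul_of_nonneg_left hWl (by positivity)
      _ ≤ 2 * ε * (C * K ^ 4 * L ^ 2) := mul_le_mul_of_nonneg_right h1 h2
      _ = 2 * C ^ 2 * (K ^ 6 / √t * L ^ 2) := by
          rw [hε]
          ring
      _ ≤ 2 * C ^ 2 * (K ^ 8 / √t * L ^ 2) := by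
          apply mul_le_mul_of_nonneg_left _ (by positivity)
          apply mul_le_mul_of_nonneg_right _ hL2.le
          apply div_le_div_of_nonneg_right _ hst0.le
          exact pow_le_pow_right₀ S.K1 (by norm_num)
  have e4 : 1 / (2 * l) * En L (2 * t) X = 1 / l * En L (2 * t) X / 2 := by
    field_simp
  rw [e4] at hint
  have e5 : (1 / 2 + ε / l) * Wl = Wl / 2 + ε / l * Wl := by ring
  rw [e5] at hint
  have e6 : 1 / l * (2 * En L t X - En L (2 * t) X) = 2 * (1 / l * En L t X) -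
      1 / l * En L (2 * t) X := by ring
  rw [e6]
  have e7 : (8 + 4 * C ^ 2 + 2 * (2 * (6 * C' * C ^ 2))) * K ^ 8 / √t * L ^ 2 =
      2 * (4 * (K ^ 8 / √t * L ^ 2)) + 2 * (2 * C ^ 2 * (K ^ 8 / √t * L ^ 2)) +
      2 * (2 * (6 * C' * C ^ 2) * (K ^ 8 / √t * L ^ 2)) := by ring
  rw [e7]
  have e8 : -(1 / l) * En L t X = -(1 / l * En L t X) := by ring
  rw [e8] at hint
  linarith

end Pool.Agent.Lib.H77M
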