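import Pool.Agent.Lib.H77M.O0
import Pool.Agent.Lib.H77M.B5
import Pool.Agent.Lib.H77M.A4
import Pool.Agent.Lib.H77M.A7

/-!
# Project H77M, chunk O2: Theorem 2 of PROOF.md (the potentials of `(X, rho_t)` are small)
-/

open MeasureTheory Set ProbabilityTheory
open scoped ContDiff

namespace Pool.Agent.Lib.H77M

theorem O2_meas_box (L : ℝ) : MeasurableSet (box L) := measurableSet_Icc.prod measurableSet_Icc

theorem O2_int {L : ℝ} {f : ℝ × ℝ → ℝ} (hf : Continuous f) : IntegrableOn f (box L) :=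
  hf.continuousOn.integrableOn_compact (isCompact_Icc.prod isCompact_Icc)

theorem O2_vol {L : ℝ} (hL : 0 ≤ L) : volume.real (box L) = L ^ 2 := by
  rw [box, measureReal_def, Measure.volume_eq_prod, Measure.prod_prod, Real.volume_Icc, sub_zero,
    ENNReal.toReal_mul, ENNReal.toReal_ofReal hL, pow_two]

theorem O2_setint_const {L : ℝ} (hL : 0 ≤ L) (c : ℝ) : ∫ _ in box L, c = L ^ 2 * c := by
  rw [setIntegral_const, O2_vol hL, smul_eq_mul]

theorem O2_fold1 {L : ℝ} (hL : 0 < L) (a : ℝ) : ∃ m : ℤ, |a + m * (2 * L)| ≤ L := by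
  refine ⟨-round (a / (2 * L)), ?_⟩
  have h := abs_sub_round (a / (2 * L))
  have e : a + ((-round (a / (2 * L)) : ℤ) : ℝ) * (2 * L) =
      (a / (2 * L) - round (a / (2 * L))) * (2 * L) := by
    push_cast
    field_simp
    ring
  rw [e, abs_mul, abs_of_pos (by positivity : (0:ℝ) < 2 * L)]
  nlinarith

theorem O2_fold {L : ℝ} (hL : 0 < L) (x : ℝ × ℝ) : ∃ x' ∈ box L, ∀ f, CP L f → f x = f x' := by
  obtain ⟨a, b⟩ := x
  obtain ⟨m, hm⟩ := O2_fold1 hL a
  obtain ⟨n, hn⟩ := O2_fold1 hL b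
  refine ⟨(|a + m * (2 * L)|, |b + n * (2 * L)|), ⟨⟨abs_nonneg _, hm⟩, ⟨abs_nonneg _, hn⟩⟩, ?_⟩
  intro f hf
  have p1 : Function.Periodic (fun a => f (a, b)) (2 * L) := fun a => hf.per1 a b
  have p2 : Function.Periodic (fun b => f (|a + m * (2 * L)|, b)) (2 * L) :=
    fun b => hf.per2 _ b
  have e1 : f (a + m * (2 * L), b) = f (a, b) := p1.int_mul m a
  have e2 : f (|a + m * (2 * L)|, b + n * (2 * L)) = f (|a + m * (2 * L)|, b) := p2.int_mul n b
  have e3 : f (|a + m * (2 * L)|, b) = f (a + m * (2 * L), b) := by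
    rcases abs_choice (a + m * (2 * L)) with h | h
    · rw [h]
    · rw [h, hf.even1]
  have e4 : f (|a + m * (2 * L)|, |b + n * (2 * L)|) = f (|a + m * (2 * L)|, b + n * (2 * L)) := by
    rcases abs_choice (b + n * (2 * L)) with h | h
    · rw [h]
    · rw [h, hf.even2]
  rw [e4, e2, e3, e1]

theorem O2_osc {L D : ℝ} (hL : 0 < L) {g : ℝ × ℝ → ℝ} (hg : EP L g) (hD : Grad g D)
    (x y : ℝ × ℝ) : g x - g y ≤ 2 * L * D := by
  obtain ⟨x', hx', h1⟩ := O2_fold hL x
  obtain ⟨y', hy', h2⟩ := O2_fold hL y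
  rw [h1 g hg.toCP, h2 g hg.toCP]
  have h := lip_of_Grad hg.smooth hD x' y'
  have hD0 : 0 ≤ D := le_trans (abs_nonneg _) (hD (0, 0)).1
  have a1 : |x'.1 - y'.1| ≤ L := by
    rw [abs_le]
    obtain ⟨⟨u1, u2⟩, -⟩ := hx'
    obtain ⟨⟨v1, v2⟩, -⟩ := hy'
    constructor <;> linarith
  have a2 : |x'.2 - y'.2| ≤ L := by
    rw [abs_le]
    obtain ⟨-, ⟨u1, u2⟩⟩ := hx'
    obtain ⟨-, ⟨v1, v2⟩⟩ := hy'
    constructor <;> linarith
  have := le_abs_self (g x' - g y')
  nlinarith

theorem O2_sup {L D : ℝ} (hL : 0 < L) {g : ℝ × ℝ → ℝ} (hg : CP L g)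
    (hD : ∀ x y, g x - g y ≤ D) (h0 : ∫ y in box L, g y = 0) (x : ℝ × ℝ) : |g x| ≤ D := by
  have hi : IntegrableOn g (box L) := O2_int hg.cont
  have hc : ∀ c : ℝ, IntegrableOn (fun _ : ℝ × ℝ => c) (box L) := fun c => O2_int continuous_const
  have hL2 : (0:ℝ) < L ^ 2 := by positivity
  rw [abs_le]
  constructor
  · have h1 : ∫ y in box L, (g y - g x) ≤ ∫ y in box L, D :=
      setIntegral_mono (hi.sub (hc _)) (hc _) (fun y => hD y x)
    rw [integral_sub hi (hc _), h0, O2_setint_const hL.le, O2_setint_const hL.le] at h1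
    nlinarith
  · have h1 : ∫ y in box L, (g x - g y) ≤ ∫ y in box L, D :=
      setIntegral_mono ((hc _).sub hi) (hc _) (fun y => hD x y)
    rw [integral_sub (hc _) hi, h0, O2_setint_const hL.le, O2_setint_const hL.le] at h1
    nlinarith

theorem O2_P_sq {L s : ℝ} (hL : 0 < L) (hs : 0 ≤ s) {f : ℝ × ℝ → ℝ} (hf : CP L f) (x : ℝ × ℝ) :
    P s f x ^ 2 ≤ P s (fun y => f y ^ 2) x := by
  set c := P s f x with hc
  have hf2 : CP L (fun y => f y ^ 2) := by
    have := CP_mul hf hf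
    simpa only [pow_two] using this
  have h1 : P s (fun _ => (0:ℝ)) x ≤ P s (fun y => f y ^ 2 + ((-2 * c) * f y + c ^ 2)) x := by
    refine P_mono s hL (CP_const L 0) ?_ ?_ x
    · exact CP_add hf2 (CP_add (CP_mul (CP_const L (-2 * c)) hf) (CP_const L (c ^ 2)))
    · intro y
      nlinarith [sq_nonneg (f y - c)]
  rw [P_const, P_add s hL hf2 (CP_add (CP_mul (CP_const L (-2 * c)) hf) (CP_const L (c ^ 2))),
    P_add s hL (CP_mul (CP_const L (-2 * c)) hf) (CP_const L (c ^ 2)), P_smul, P_const] at h1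
  rw [← hc] at h1
  nlinarith

theorem O2_P_L2 {L s : ℝ} (hL : 0 < L) (hs : 0 ≤ s) {f : ℝ × ℝ → ℝ} (hf : CP L f) :
    ∫ x in box L, P s f x ^ 2 ≤ ∫ x in box L, f x ^ 2 := by
  have hf2 : CP L (fun y => f y ^ 2) := by
    have := CP_mul hf hf
    simpa only [pow_two] using this
  rw [← int_P hL hs hf2]
  refine setIntegral_mono_on (O2_int ((P_CP hL hs hf).cont.pow 2)) (O2_int (P_CP hL hs hf2).cont)
    (O2_meas_box L) (fun x _ => O2_P_sq hL hs hf x)

/-- `P t f` is close to `f` if the Laplacian of `f` is small -/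
theorem O2_P_lap {L t M : ℝ} (hL : 0 < L) (ht : 0 < t) {f : ℝ × ℝ → ℝ} (hf : EP L f)
    (hM : ∀ x, |lap f x| ≤ M) (x : ℝ × ℝ) : |P t f x - f x| ≤ t * M := by
  have hM0 : 0 ≤ M := le_trans (abs_nonneg _) (hM x)
  have h1 : ∀ s, 0 < s → s ≤ t → |P t f x - P s f x| ≤ t * M := by
    intro s hs hst
    rw [heat_int hL hs hst hf.toCP]
    have h2 := intervalIntegral.norm_integral_le_of_norm_le_const (a := s) (b := t) (C := M)
      (f := fun r => lap (P r f) x) ?_
    · rw [Real.norm_eq_abs] at h2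
      refine h2.trans ?_
      rw [abs_of_nonneg (by linarith), mul_comm]
      exact mul_le_mul_of_nonneg_right (by linarith) hM0
    · intro r hr
      rw [uIoc_of_le hst] at hr
      rw [lap_P hL (by linarith [hr.1] : (0:ℝ) ≤ r) hf, Real.norm_eq_abs]
      exact P_abs_le r hL (EP_lap hf).toCP hM x
  have hc : Continuous (fun s : ℝ => P s f x) :=
    (P_cont hL hf.toCP).comp (Continuous.prodMk continuous_id continuous_const)
  have h3 : Filter.Tendsto (fun s : ℝ => |P t f x - P s f x|) (nhdsWithin 0 (Ioi 0))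
      (nhds |P t f x - P 0 f x|) :=
    ((continuous_const.sub hc).abs.tendsto 0).mono_left nhdsWithin_le_nhds
  rw [P_zero] at h3
  refine le_of_tendsto h3 ?_
  have h4 : Ioo (0:ℝ) t ∈ nhdsWithin 0 (Ioi 0) := Ioo_mem_nhdsGT ht
  filter_upwards [h4] with s hs
  exact h1 s hs.1 hs.2.le


theorem O2_sqrt_int {t T D : ℝ} (ht : 0 < t) (htT : t ≤ T) (hD : 0 ≤ D) :
    IntervalIntegrable (fun s : ℝ => D / √s) volume t T ∧ ∫ s in t..T, D / √s ≤ 2 * D * √T := by
  have hpos : ∀ s ∈ uIcc t T, 0 < s := by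
    intro s hs
    rw [uIcc_of_le htT] at hs
    linarith [hs.1]
  have hcont : ContinuousOn (fun s : ℝ => D / √s) (uIcc t T) := by
    refine continuousOn_const.div Real.continuous_sqrt.continuousOn ?_
    intro s hs
    exact (Real.sqrt_pos.2 (hpos s hs)).ne'
  refine ⟨hcont.intervalIntegrable, ?_⟩
  have h1 : ∫ s in t..T, D / √s = 2 * D * √T - 2 * D * √t := by
    refine intervalIntegral.integral_eq_sub_of_hasDerivAt (f := fun s => 2 * D * √s) ?_
      hcont.intervalIntegrable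
    intro s hs
    have h := (Real.hasDerivAt_sqrt (hpos s hs).ne').const_mul (2 * D)
    refine h.congr_deriv ?_
    have := Real.sqrt_pos.2 (hpos s hs)
    field_simp
  rw [h1]
  have := Real.sqrt_nonneg t
  nlinarith [mul_nonneg hD this]

theorem O2_h_hess {L t T D : ℝ} (hL : 0 < L) (ht : 0 < t) (htT : t ≤ T) {g : ℝ × ℝ → ℝ}
    (hg : EP L g) (hD : Grad g D) : Hess (fun x => ∫ s in t..T, P s g x) (2 * D * √T) := by
  have hD0 : 0 ≤ D := le_trans (abs_nonneg _) (hD (0, 0)).1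
  obtain ⟨hi, hle⟩ := O2_sqrt_int ht htT hD0
  obtain ⟨-, -, -, -, h11, h12, h21, h22⟩ := timeint hL ht htT hg.toCP
  have key : ∀ F : ℝ → ℝ, (∀ s ∈ Ioc t T, |F s| ≤ D / √s) → |∫ s in t..T, F s| ≤ 2 * D * √T := by
    intro F hF
    have h := intervalIntegral.norm_integral_le_of_norm_le (μ := volume) htT
      (f := F) (g := fun s => D / √s) (Filter.Eventually.of_forall (fun s hs => hF s hs)) hi
    rw [Real.norm_eq_abs] at h
    exact h.trans hle
  have hs : ∀ s ∈ Ioc t T, Hess (P s g) (D / √s) :=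
    fun s hs => Hess_P_of_Grad hL (by linarith [hs.1]) hg hD
  intro y
  refine ⟨?_, ?_, ?_, ?_⟩
  · rw [h11]; exact key _ (fun s h => (hs s h y).1)
  · rw [h12]; exact key _ (fun s h => (hs s h y).2.1)
  · rw [h21]; exact key _ (fun s h => (hs s h y).2.2.1)
  · rw [h22]; exact key _ (fun s h => (hs s h y).2.2.2)

theorem O2_swap {L t T : ℝ} (htT : t ≤ T) {F : ℝ → ℝ × ℝ → ℝ}
    (hF : Continuous (fun v : ℝ × (ℝ × ℝ) => F v.1 v.2)) :
    ∫ x in box L, ∫ s in t..T, F s x = ∫ s in t..T, ∫ x in box L, F s x := by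
  simp only [intervalIntegral.integral_of_le htT]
  have hI : Integrable (fun v : (ℝ × ℝ) × ℝ => F v.2 v.1)
      ((volume.restrict (box L)).prod (volume.restrict (Ioc t T))) := by
    rw [Measure.prod_restrict]
    have h1 : Continuous (fun v : (ℝ × ℝ) × ℝ => F v.2 v.1) := hF.comp continuous_swap
    have h2 : IntegrableOn (fun v : (ℝ × ℝ) × ℝ => F v.2 v.1) (box L ×ˢ Icc t T)
        (volume.prod volume) :=
      h1.continuousOn.integrableOn_compact ((isCompact_Icc.prod isCompact_Icc).prod isCompact_Icc)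
    exact h2.mono_set (prod_mono subset_rfl Ioc_subset_Icc_self)
  exact integral_integral_swap (f := fun x s => F s x) hI

theorem O2_h_gsq {L t T : ℝ} (hL : 0 < L) (ht : 0 < t) (htT : t ≤ T) {g : ℝ × ℝ → ℝ}
    (hg : CP L g) :
    ∫ x in box L, gsq (fun x => ∫ s in t..T, P s g x) x ≤ 2 * T * ∫ x in box L, g x ^ 2 := by
  obtain ⟨hEP, hlap, -⟩ := timeint hL ht htT hg
  set h : ℝ × ℝ → ℝ := fun x => ∫ s in t..T, P s g x with hh
  set G := ∫ x in box L, g x ^ 2 with hG
  have hG0 : 0 ≤ G := integral_nonneg (fun x => sq_nonneg _)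
  set q : ℝ × ℝ → ℝ := fun x => P t g x - P T g x with hq
  have hqc : Continuous q := (P_CP hL ht.le hg).cont.sub (P_CP hL (ht.le.trans htT) hg).cont
  have h1 := ibp hL (hEP.smooth.of_le (by norm_cast)) hEP
  have h2 : ∫ x in box L, gsq h x = ∫ x in box L, h x * q x := by
    have e1 : ∫ x in box L, gsq h x = ∫ x in box L, (D1 h x * D1 h x + D2 h x * D2 h x) := by
      refine integral_congr_ae (Filter.Eventually.of_forall (fun x => ?_))
      simp only [gsq]
      ring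
    rw [e1, h1, ← integral_neg]
    refine integral_congr_ae (Filter.Eventually.of_forall (fun x => ?_))
    simp only [hlap x, hq]
    ring
  have hq2 : ∫ x in box L, q x ^ 2 ≤ 4 * G := by
    have hct := (P_CP hL ht.le hg).cont
    have hcT := (P_CP hL (ht.le.trans htT) hg).cont
    have i1 : IntegrableOn (fun x => 2 * P t g x ^ 2) (box L) :=
      O2_int (continuous_const.mul (hct.pow 2))
    have i2 : IntegrableOn (fun x => 2 * P T g x ^ 2) (box L) :=
      O2_int (continuous_const.mul (hcT.pow 2))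
    calc ∫ x in box L, q x ^ 2 ≤ ∫ x in box L, (2 * P t g x ^ 2 + 2 * P T g x ^ 2) := by
          refine setIntegral_mono_on (O2_int (hqc.pow 2)) (i1.add i2)
            (O2_meas_box L) (fun x _ => ?_)
          simp only [hq]
          nlinarith [sq_nonneg (P t g x + P T g x)]
      _ = 2 * (∫ x in box L, P t g x ^ 2) + 2 * ∫ x in box L, P T g x ^ 2 := by
          rw [integral_add i1 i2, integral_const_mul, integral_const_mul]
      _ ≤ 4 * G := by
          have a1 := O2_P_L2 hL ht.le hg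
          have a2 := O2_P_L2 hL (ht.le.trans htT) hg
          linarith
  have h3 : ∀ s, 0 ≤ s → |∫ x in box L, P s g x * q x| ≤ 2 * G := by
    intro s hs
    have a1 := cs_box (L := L) (P_CP hL hs hg).cont hqc
    refine a1.trans ?_
    have a2 : √(∫ x in box L, P s g x ^ 2) ≤ √G := Real.sqrt_le_sqrt (O2_P_L2 hL hs hg)
    have a3 : √(∫ x in box L, q x ^ 2) ≤ √(4 * G) := Real.sqrt_le_sqrt hq2
    have a4 : √(4 * G) = 2 * √G := by
      rw [Real.sqrt_mul (by norm_num)]
      congr 1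
      rw [show (4:ℝ) = 2 ^ 2 by norm_num, Real.sqrt_sq (by norm_num)]
    calc √(∫ x in box L, P s g x ^ 2) * √(∫ x in box L, q x ^ 2) ≤ √G * (2 * √G) := by
          rw [← a4]
          exact mul_le_mul a2 a3 (Real.sqrt_nonneg _) (Real.sqrt_nonneg _)
      _ = 2 * G := by
          have := Real.mul_self_sqrt hG0
          nlinarith
  have h4 : ∫ x in box L, h x * q x = ∫ s in t..T, ∫ x in box L, P s g x * q x := by
    rw [← O2_swap htT (F := fun s x => P s g x * q x)]
    · refine integral_congr_ae (Filter.Eventually.of_forall (fun x => ?_))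
      simp only [hh]
      rw [intervalIntegral.integral_mul_const]
    · exact (P_cont hL hg).mul (hqc.comp continuous_snd)
  rw [h2, h4]
  have h5 := intervalIntegral.norm_integral_le_of_norm_le_const (a := t) (b := T) (C := 2 * G)
    (f := fun s => ∫ x in box L, P s g x * q x) (fun s hs => by
      rw [uIoc_of_le htT] at hs
      exact h3 s (by linarith [hs.1]))
  rw [Real.norm_eq_abs, abs_of_nonneg (by linarith : 0 ≤ T - t)] at h5
  have h6 := le_abs_self (∫ s in t..T, ∫ x in box L, P s g x * q x)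
  nlinarith

theorem O2_h_lap {L t T M : ℝ} (hL : 0 < L) (ht : 0 < t) (htT : t ≤ T) {g : ℝ × ℝ → ℝ}
    (hg : CP L g) (hM : ∀ x, |g x| ≤ M) (x : ℝ × ℝ) :
    |P t (fun x => ∫ s in t..T, P s g x) x - ∫ s in t..T, P s g x| ≤ t * (2 * M) := by
  obtain ⟨hEP, hlap, -⟩ := timeint hL ht htT hg
  refine O2_P_lap hL ht hEP ?_ x
  intro y
  rw [hlap y]
  have h1 := P_abs_le t hL hg hM y
  have h2 := P_abs_le T hL hg hM y
  rw [abs_le] at *
  constructor <;> linarith


theorem O2_core {L t T D E η : ℝ} (hL : 1 ≤ L) (ht : 1 ≤ t) (htT : t ≤ T) {ι : Type} [Fintype ι]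
    {X : ι → ℝ × ℝ} {ψ : ι → ℝ} {Tm : ℝ × ℝ → ι} (h : IsOpt L X (rho L t X) ψ Tm)
    (hr1 : ∀ y ∈ box L, 1 / 2 ≤ rho L t X y ∧ rho L t X y ≤ 2)
    (hr2 : ∀ y ∈ box L, |rho L t X y - 1| ≤ η) (hη : 0 ≤ η)
    {g : ℝ × ℝ → ℝ} (hg : EP L g) (hg0 : ∫ y in box L, g y = 0)
    (hg1 : ∫ y in box L, ((D1 g y - (y.1 - (X (Tm y)).1)) ^ 2 +
      (D2 g y - (y.2 - (X (Tm y)).2)) ^ 2) ≤ 1) (hgD : Grad g D) (hE0 : 0 ≤ E)
    (hE : ∀ x, |P T g x| ≤ E) :
    ∫ y in box L, g y ^ 2 ≤ √(∫ y in box L, g y ^ 2) * ((3 * √t * D + E) * L) +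
      η * √(∫ y in box L, gsq g y) * √(2 * T * ∫ y in box L, g y ^ 2) + 8 * T +
      (∫ y in box L, g y ^ 2) / 4 + Fintype.card ι * (t * (2 * (2 * L * D))) +
      2 * D * √T * W L X (rho L t X) := by
  have hL0 : 0 < L := by linarith
  have ht0 : 0 < t := by linarith
  have hT0 : 0 < T := by linarith
  have hD0 : 0 ≤ D := le_trans (abs_nonneg _) (hgD (0, 0)).1
  obtain ⟨hEP, hlap, -⟩ := timeint hL0 ht0 htT hg.toCP
  have hHess := O2_h_hess hL0 ht0 htT hg hgD
  have hgs := O2_h_gsq hL0 ht0 htT hg.toCP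
  have hMg : ∀ x, |g x| ≤ 2 * L * D := O2_sup hL0 hg.toCP (O2_osc hL0 hg hgD) hg0
  have hhl := O2_h_lap hL0 ht0 htT hg.toCP hMg
  set hh : ℝ × ℝ → ℝ := fun x => ∫ s in t..T, P s g x with hhdef
  set Q := ∫ y in box L, g y ^ 2 with hQ
  have hQ0 : 0 ≤ Q := integral_nonneg (fun x => sq_nonneg _)
  have hrc : Continuous (rho L t X) := (rho_EP hL0 ht0 X).cont
  have hPt : Continuous (P t g) := (P_CP hL0 ht0.le hg.toCP).cont
  have hPT : Continuous (P T g) := (P_CP hL0 hT0.le hg.toCP).cont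
  have hgc : Continuous g := hg.cont
  have hhc : Continuous hh := hEP.cont
  have d1g : Continuous (D1 g) := (D_smooth hg.smooth).1.continuous
  have d2g : Continuous (D2 g) := (D_smooth hg.smooth).2.1.continuous
  have d1h : Continuous (D1 hh) := (D_smooth hEP.smooth).1.continuous
  have d2h : Continuous (D2 hh) := (D_smooth hEP.smooth).2.1.continuous
  have hI : ∀ F : ι → ℝ × ℝ → ℝ, (∀ i, Continuous (F i)) →
      IntegrableOn (fun y => F (Tm y) y) (box L) := fun F hF => (opt_integrable h hF).2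
  -- step b, c
  have hgP : Continuous (fun y => g y - P t g y) := hgc.sub hPt
  have sb : Q = (∫ y in box L, g y * (g y - P t g y)) + (∫ y in box L, g y * P T g y) +
      ∫ y in box L, (D1 g y * D1 hh y + D2 g y * D2 hh y) := by
    rw [ibp hL0 (hg.smooth.of_le (by norm_cast)) hEP, ← sub_eq_add_neg, ← integral_add,
      ← integral_sub, hQ]
    · refine integral_congr_ae (Filter.Eventually.of_forall (fun x => ?_))
      simp only [hlap x]
      ring
    · exact (O2_int (hgc.mul hgP)).add (O2_int (hgc.mul hPT))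
    · exact O2_int (hgc.mul (EP_lap hEP).cont)
    · exact O2_int (hgc.mul hgP)
    · exact O2_int (hgc.mul hPT)
  have sqL : ∀ (f : ℝ × ℝ → ℝ) (M : ℝ), 0 ≤ M → (∀ x, |f x| ≤ M) → Continuous f →
      √(∫ y in box L, f y ^ 2) ≤ M * L := by
    intro f M hM hf hfc
    have e : M * L = √(M ^ 2 * L ^ 2) := by
      rw [← mul_pow, Real.sqrt_sq (by positivity)]
    rw [e]
    refine Real.sqrt_le_sqrt ?_
    calc ∫ y in box L, f y ^ 2 ≤ ∫ y in box L, M ^ 2 := by
          refine setIntegral_mono_on (O2_int (hfc.pow 2)) (O2_int continuous_const)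
            (O2_meas_box L) (fun x _ => ?_)
          rw [← sq_abs]
          exact pow_le_pow_left₀ (abs_nonneg _) (hf x) 2
      _ = M ^ 2 * L ^ 2 := by rw [O2_setint_const hL0.le, mul_comm]
  have b1 : ∫ y in box L, g y * (g y - P t g y) ≤ √Q * (3 * √t * D * L) := by
    refine (le_abs_self _).trans ((cs_box hgc hgP).trans ?_)
    refine mul_le_mul_of_nonneg_left ?_ (Real.sqrt_nonneg _)
    refine sqL _ _ (by positivity) (fun x => ?_) hgP
    rw [abs_sub_comm]
    exact P_sub_le hL0 ht0.le hg hgD x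
  have b2 : ∫ y in box L, g y * P T g y ≤ √Q * (E * L) := by
    refine (le_abs_self _).trans ((cs_box hgc hPT).trans ?_)
    refine mul_le_mul_of_nonneg_left ?_ (Real.sqrt_nonneg _)
    exact sqL _ _ hE0 hE hPT
  -- step d
  have sd : ∫ y in box L, (D1 g y * D1 hh y + D2 g y * D2 hh y) =
      (∫ y in box L, (D1 g y * D1 hh y + D2 g y * D2 hh y) * rho L t X y) +
      ∫ y in box L, (D1 g y * D1 hh y + D2 g y * D2 hh y) * (1 - rho L t X y) := by
    rw [← integral_add]
    · refine integral_congr_ae (Filter.Eventually.of_forall (fun x => ?_))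
      simp only
      ring
    · exact O2_int (((d1g.mul d1h).add (d2g.mul d2h)).mul hrc)
    · exact O2_int (((d1g.mul d1h).add (d2g.mul d2h)).mul (continuous_const.sub hrc))
  have gsq0 : ∀ (f : ℝ × ℝ → ℝ) x, 0 ≤ gsq f x := fun f x => by
    simp only [gsq]; positivity
  have cg : Continuous (gsq g) := (EP_gsq hg).cont
  have ch : Continuous (gsq hh) := (EP_gsq hEP).cont
  have d1 : ∫ y in box L, (D1 g y * D1 hh y + D2 g y * D2 hh y) * (1 - rho L t X y) ≤
      η * √(∫ y in box L, gsq g y) * √(2 * T * Q) := by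
    have e1 : ∫ y in box L, (D1 g y * D1 hh y + D2 g y * D2 hh y) * (1 - rho L t X y) ≤
        ∫ y in box L, η * (√(gsq g y) * √(gsq hh y)) := by
      refine setIntegral_mono_on (O2_int (((d1g.mul d1h).add (d2g.mul d2h)).mul
        (continuous_const.sub hrc))) (O2_int (continuous_const.mul (cg.sqrt.mul ch.sqrt)))
        (O2_meas_box L) (fun x hx => ?_)
      have c1 : |D1 g x * D1 hh x + D2 g x * D2 hh x| ≤ √(gsq g x) * √(gsq hh x) := by
        rw [← Real.sqrt_mul (gsq0 _ _)]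
        refine Real.abs_le_sqrt ?_
        simp only [gsq]
        nlinarith [sq_nonneg (D1 g x * D2 hh x - D2 g x * D1 hh x)]
      refine (le_abs_self _).trans ?_
      rw [abs_mul, mul_comm]
      have c2 : |1 - rho L t X x| ≤ η := by
        rw [abs_sub_comm]; exact hr2 x hx
      exact mul_le_mul c2 c1 (abs_nonneg _) hη
    refine e1.trans ?_
    rw [integral_const_mul, mul_assoc]
    refine mul_le_mul_of_nonneg_left ?_ hη
    refine (le_abs_self _).trans ((cs_box cg.sqrt ch.sqrt).trans ?_)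
    have e2 : ∀ f : ℝ × ℝ → ℝ, ∫ y in box L, √(gsq f y) ^ 2 = ∫ y in box L, gsq f y := by
      intro f
      refine integral_congr_ae (Filter.Eventually.of_forall (fun x => ?_))
      simp only
      exact Real.sq_sqrt (gsq0 _ _)
    rw [e2, e2]
    exact mul_le_mul_of_nonneg_left (Real.sqrt_le_sqrt hgs) (Real.sqrt_nonneg _)
  -- step e
  have se : ∫ y in box L, (D1 g y * D1 hh y + D2 g y * D2 hh y) * rho L t X y =
      (∫ y in box L, ((y.1 - (X (Tm y)).1) * D1 hh y + (y.2 - (X (Tm y)).2) * D2 hh y) *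
        rho L t X y) +
      ∫ y in box L, ((D1 g y - (y.1 - (X (Tm y)).1)) * D1 hh y +
        (D2 g y - (y.2 - (X (Tm y)).2)) * D2 hh y) * rho L t X y := by
    rw [← integral_add]
    · refine integral_congr_ae (Filter.Eventually.of_forall (fun x => ?_))
      simp only
      ring
    · exact hI (fun i y => ((y.1 - (X i).1) * D1 hh y + (y.2 - (X i).2) * D2 hh y) *
        rho L t X y) (fun i => by fun_prop)
    · exact hI (fun i y => ((D1 g y - (y.1 - (X i).1)) * D1 hh y +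
        (D2 g y - (y.2 - (X i).2)) * D2 hh y) * rho L t X y) (fun i => by fun_prop)
  have e1 : ∫ y in box L, ((D1 g y - (y.1 - (X (Tm y)).1)) * D1 hh y +
        (D2 g y - (y.2 - (X (Tm y)).2)) * D2 hh y) * rho L t X y ≤ 8 * T + Q / 4 := by
    have f1 : ∫ y in box L, ((D1 g y - (y.1 - (X (Tm y)).1)) * D1 hh y +
        (D2 g y - (y.2 - (X (Tm y)).2)) * D2 hh y) * rho L t X y ≤
        ∫ y in box L, (8 * T * ((D1 g y - (y.1 - (X (Tm y)).1)) ^ 2 +
        (D2 g y - (y.2 - (X (Tm y)).2)) ^ 2) + 1 / (8 * T) * gsq hh y) := by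
      refine setIntegral_mono_on ?_ ?_ (O2_meas_box L) (fun x hx => ?_)
      · exact hI (fun i y => ((D1 g y - (y.1 - (X i).1)) * D1 hh y +
          (D2 g y - (y.2 - (X i).2)) * D2 hh y) * rho L t X y) (fun i => by fun_prop)
      · exact hI (fun i y => 8 * T * ((D1 g y - (y.1 - (X i).1)) ^ 2 +
          (D2 g y - (y.2 - (X i).2)) ^ 2) + 1 / (8 * T) * gsq hh y) (fun i => by fun_prop)
      · obtain ⟨r1, r2⟩ := hr1 x hx
        set a1 := D1 g x - (x.1 - (X (Tm x)).1)
        set a2 := D2 g x - (x.2 - (X (Tm x)).2)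
        have y1 : a1 * D1 hh x + a2 * D2 hh x ≤
            (4 * T * (a1 ^ 2 + a2 ^ 2) + 1 / (16 * T) * (D1 hh x ^ 2 + D2 hh x ^ 2)) := by
          have z : ∀ a b : ℝ, a * b ≤ 4 * T * a ^ 2 + 1 / (16 * T) * b ^ 2 := by
            intro a b
            have w : 4 * T * a ^ 2 + 1 / (16 * T) * b ^ 2 - a * b =
                (8 * T * a - b) ^ 2 / (16 * T) := by
              field_simp
              ring
            have w2 : 0 ≤ (8 * T * a - b) ^ 2 / (16 * T) := by positivity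
            linarith
          have z1 := z a1 (D1 hh x)
          have z2 := z a2 (D2 hh x)
          linarith
        have y2 : 0 ≤ 4 * T * (a1 ^ 2 + a2 ^ 2) + 1 / (16 * T) * (D1 hh x ^ 2 + D2 hh x ^ 2) := by
          positivity
        calc (a1 * D1 hh x + a2 * D2 hh x) * rho L t X x ≤
            (4 * T * (a1 ^ 2 + a2 ^ 2) + 1 / (16 * T) * (D1 hh x ^ 2 + D2 hh x ^ 2)) *
              rho L t X x := mul_le_mul_of_nonneg_right y1 (by linarith)
          _ ≤ (4 * T * (a1 ^ 2 + a2 ^ 2) + 1 / (16 * T) * (D1 hh x ^ 2 + D2 hh x ^ 2)) * 2 :=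
              mul_le_mul_of_nonneg_left r2 y2
          _ = 8 * T * (a1 ^ 2 + a2 ^ 2) + 1 / (8 * T) * gsq hh x := by
              simp only [gsq]
              field_simp
              ring
    refine f1.trans ?_
    rw [integral_add, integral_const_mul, integral_const_mul]
    · have f2 : 1 / (8 * T) * ∫ y in box L, gsq hh y ≤ Q / 4 := by
        calc 1 / (8 * T) * ∫ y in box L, gsq hh y ≤ 1 / (8 * T) * (2 * T * Q) :=
              mul_le_mul_of_nonneg_left hgs (by positivity)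
          _ = Q / 4 := by field_simp; ring
      nlinarith
    · exact hI (fun i y => 8 * T * ((D1 g y - (y.1 - (X i).1)) ^ 2 +
          (D2 g y - (y.2 - (X i).2)) ^ 2)) (fun i => by fun_prop)
    · exact O2_int (continuous_const.mul ch)
  -- step f
  have f0 : ∫ y in box L, ((y.1 - (X (Tm y)).1) * D1 hh y + (y.2 - (X (Tm y)).2) * D2 hh y) *
        rho L t X y ≤ Fintype.card ι * (t * (2 * (2 * L * D))) +
          2 * D * √T * W L X (rho L t X) := by
    have f1 : ∫ y in box L, ((y.1 - (X (Tm y)).1) * D1 hh y + (y.2 - (X (Tm y)).2) * D2 hh y) *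
        rho L t X y ≤ ∫ y in box L, (hh y * rho L t X y - hh (X (Tm y)) * rho L t X y +
          2 * D * √T * (sqd (X (Tm y)) y * rho L t X y)) := by
      refine setIntegral_mono_on ?_ ?_ (O2_meas_box L) (fun x hx => ?_)
      · exact hI (fun i y => ((y.1 - (X i).1) * D1 hh y + (y.2 - (X i).2) * D2 hh y) *
          rho L t X y) (fun i => by fun_prop)
      · exact hI (fun i y => hh y * rho L t X y - hh (X i) * rho L t X y +
          2 * D * √T * (sqd (X i) y * rho L t X y)) (fun i => by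
            simp only [sqd]
            fun_prop)
      · have hr := hr1 x hx
        have tl := taylor2 hEP.smooth hHess (X (Tm x)) x
        rw [abs_le] at tl
        have tl2 := tl.1
        have y1 : (x.1 - (X (Tm x)).1) * D1 hh x + (x.2 - (X (Tm x)).2) * D2 hh x ≤
            hh x - hh (X (Tm x)) + 2 * D * √T * sqd (X (Tm x)) x := by
          have tl3 := tl.2
          nlinarith
        calc ((x.1 - (X (Tm x)).1) * D1 hh x + (x.2 - (X (Tm x)).2) * D2 hh x) * rho L t X x ≤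
            (hh x - hh (X (Tm x)) + 2 * D * √T * sqd (X (Tm x)) x) * rho L t X x :=
              mul_le_mul_of_nonneg_right y1 (by linarith [hr.1])
          _ = _ := by ring
    refine f1.trans ?_
    rw [integral_add, integral_sub, integral_const_mul, opt_int h hrc (fun i => hh (X i)),
      ← opt_cost h hrc (fun y hy => by linarith [(hr1 y hy).1]), int_mul_rho hL0 ht0 X hEP.toCP]
    · have f2 : ∑ i, P t hh (X i) - ∑ i, hh (X i) ≤
          Fintype.card ι * (t * (2 * (2 * L * D))) := by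
        rw [← Finset.sum_sub_distrib]
        calc ∑ i, (P t hh (X i) - hh (X i)) ≤ ∑ _i : ι, t * (2 * (2 * L * D)) :=
              Finset.sum_le_sum (fun i _ => (le_abs_self _).trans (hhl (X i)))
          _ = _ := by simp
      linarith
    · exact O2_int (hhc.mul hrc)
    · exact hI (fun i y => hh (X i) * rho L t X y) (fun i => by fun_prop)
    · exact hI (fun i y => hh y * rho L t X y - hh (X i) * rho L t X y) (fun i => by fun_prop)
    · exact hI (fun i y => 2 * D * √T * (sqd (X i) y * rho L t X y)) (fun i => by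
            simp only [sqd]
            fun_prop)
  have hfin : Q ≤ √Q * (3 * √t * D * L) + √Q * (E * L) +
      ((Fintype.card ι * (t * (2 * (2 * L * D))) + 2 * D * √T * W L X (rho L t X)) +
        (8 * T + Q / 4) + η * √(∫ y in box L, gsq g y) * √(2 * T * Q)) := by
    rw [sd, se] at sb
    linarith
  calc Q ≤ _ := hfin
    _ = _ := by ring


/-- the numerical part of the proof of `pot_small` -/
theorem O2_num {A B C1 C3 C5 K r τ Q s N W D E T η Gv : ℝ} (hA : 1 ≤ A) (hB : 0 ≤ B)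
    (hC1 : 0 < C1) (hC3 : 0 < C3) (hC5 : 0 < C5) (hK : 1 ≤ K) (hτ : 1 ≤ τ) (hr : τ ^ 4 ≤ r)
    (hs : 0 ≤ s) (hQ : Q = s ^ 2) (hN : N ≤ 2 * r ^ 4) (hW0 : 0 ≤ W)
    (hW : W ≤ C1 * K ^ 4 * r ^ 4) (hD : D = B * K * r) (hE : E * r ^ 2 ≤ 2 * C5 * D)
    (hT : T = A * K * r ^ 4) (hη : η = C3 * K ^ 2 / τ) (hG0 : 0 ≤ Gv) (hG : Gv ^ 2 ≤ 4 * W + 2)
    (hmain : Q ≤ s * ((3 * τ * D + E) * r ^ 2) + η * Gv * (√(2 * T) * s) + 8 * T + Q / 4 +
      N * (τ ^ 2 * (2 * (2 * r ^ 2 * D))) + 2 * D * √T * W) :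
    Q ≤ 2 * ((3 * B + 2 * C5 * B + C3 * (4 * C1 + 2) * (2 * A)) ^ 2 +
      (8 * A + 8 * B + 2 * B * A * C1)) * (K ^ 5 * r ^ 4 / τ) ^ 2 := by
  set Z := K ^ 5 * r ^ 4 / τ with hZ
  have hτ0 : 0 < τ := by linarith
  have hK0 : 0 < K := by linarith
  have hr1 : 1 ≤ r := le_trans (one_le_pow₀ hτ) hr
  have hr0 : 0 < r := by linarith
  have hZ0 : 0 < Z := by positivity
  have hτr : τ ≤ r := le_trans (le_self_pow₀ hτ (by norm_num)) hr
  have hτ2r : τ ^ 2 ≤ r := le_trans (pow_le_pow_right₀ hτ (by norm_num)) hr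
  have hKp : ∀ n : ℕ, 1 ≤ K ^ n := fun n => one_le_pow₀ hK
  have hrp : ∀ n : ℕ, 1 ≤ r ^ n := fun n => one_le_pow₀ hr1
  -- (1a)
  have k1 : τ * (K * r) * r ^ 2 ≤ Z := by
    rw [hZ, le_div_iff₀ hτ0]
    have : τ * (K * r) * r ^ 2 * τ = K * (τ ^ 2 * r ^ 3) := by ring
    rw [this]
    have e1 : τ ^ 2 * r ^ 3 ≤ r * r ^ 3 := mul_le_mul_of_nonneg_right hτ2r (by positivity)
    have e2 : K ≤ K ^ 5 := le_self_pow₀ hK (by norm_num)
    calc K * (τ ^ 2 * r ^ 3) ≤ K ^ 5 * (r * r ^ 3) := by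
          exact mul_le_mul e2 e1 (by positivity) (by positivity)
      _ = K ^ 5 * r ^ 4 := by ring
  have k2 : K * r ≤ Z := by
    refine le_trans ?_ k1
    have : K * r * 1 ≤ K * r * (τ * r ^ 2) := by
      refine mul_le_mul_of_nonneg_left ?_ (by positivity)
      exact one_le_mul_of_one_le_of_one_le hτ (hrp 2)
    linarith
  have s1 : (3 * τ * D + E) * r ^ 2 ≤ (3 * B + 2 * C5 * B) * Z := by
    have e1 : 3 * τ * D * r ^ 2 = 3 * B * (τ * (K * r) * r ^ 2) := by rw [hD]; ring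
    have e2 : 3 * B * (τ * (K * r) * r ^ 2) ≤ 3 * B * Z :=
      mul_le_mul_of_nonneg_left k1 (by positivity)
    have e3 : E * r ^ 2 ≤ 2 * C5 * B * Z := by
      refine hE.trans ?_
      rw [hD]
      have : 2 * C5 * (B * K * r) = 2 * C5 * B * (K * r) := by ring
      rw [this]
      exact mul_le_mul_of_nonneg_left k2 (by positivity)
    have e4 : (3 * B + 2 * C5 * B) * Z = 3 * B * Z + 2 * C5 * B * Z := by ring
    have e5 : (3 * τ * D + E) * r ^ 2 = 3 * τ * D * r ^ 2 + E * r ^ 2 := by ring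
    rw [e4, e5]
    linarith
  -- (2)
  have sK : √K ≤ K := by
    rw [Real.sqrt_le_left hK0.le]
    nlinarith
  have s2G : Gv ≤ (4 * C1 + 2) * (K ^ 2 * r ^ 2) := by
    have e1 : Gv ^ 2 ≤ ((4 * C1 + 2) * (K ^ 2 * r ^ 2)) ^ 2 := by
      refine hG.trans ?_
      have e2 : (1:ℝ) ≤ K ^ 4 * r ^ 4 := one_le_mul_of_one_le_of_one_le (hKp 4) (hrp 4)
      have e3 : 4 * W + 2 ≤ (4 * C1 + 2) * (K ^ 4 * r ^ 4) := by
        have e5 : (4 * C1 + 2) * (K ^ 4 * r ^ 4) = 4 * (C1 * K ^ 4 * r ^ 4) +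
          2 * (K ^ 4 * r ^ 4) := by ring
        rw [e5]
        linarith
      refine e3.trans ?_
      have e4 : ((4 * C1 + 2) * (K ^ 2 * r ^ 2)) ^ 2 = (4 * C1 + 2) ^ 2 * (K ^ 4 * r ^ 4) := by ring
      rw [e4]
      refine mul_le_mul_of_nonneg_right ?_ (by positivity)
      rw [pow_two]
      exact le_mul_of_one_le_left (by positivity) (by linarith)
    exact le_of_sq_le_sq e1 (by positivity)
  have s2T : √(2 * T) ≤ 2 * A * (K * r ^ 2) := by
    rw [Real.sqrt_le_left (by positivity), hT]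
    have e1 : (2 * A * (K * r ^ 2)) ^ 2 = 4 * (A * A) * (K * K) * r ^ 4 := by ring
    rw [e1]
    have e2 : A * K ≤ (A * A) * (K * K) := by
      have : 1 ≤ A * K := one_le_mul_of_one_le_of_one_le hA hK
      calc A * K = (A * K) * 1 := by ring
        _ ≤ (A * K) * (A * K) := mul_le_mul_of_nonneg_left this (by positivity)
        _ = _ := by ring
    have e3 : 0 ≤ r ^ 4 := by positivity
    have e4 : 0 ≤ A * K := by positivity
    calc 2 * (A * K * r ^ 4) = (2 * (A * K)) * r ^ 4 := by ring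
      _ ≤ (4 * (A * A * (K * K))) * r ^ 4 := mul_le_mul_of_nonneg_right (by linarith) e3
      _ = _ := by ring
  have s2 : η * Gv * √(2 * T) ≤ C3 * (4 * C1 + 2) * (2 * A) * Z := by
    have hη0 : 0 ≤ η := by rw [hη]; positivity
    calc η * Gv * √(2 * T) ≤ η * ((4 * C1 + 2) * (K ^ 2 * r ^ 2)) * (2 * A * (K * r ^ 2)) := by
          refine mul_le_mul (mul_le_mul_of_nonneg_left s2G hη0) s2T (Real.sqrt_nonneg _) (by positivity)
      _ = C3 * (4 * C1 + 2) * (2 * A) * Z := by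
          rw [hη, hZ]
          field_simp
  -- (3)
  have hZ2 : K ^ 10 * r ^ 7 ≤ Z ^ 2 := by
    have e0 : Z ^ 2 = K ^ 10 * r ^ 8 / τ ^ 2 := by rw [hZ]; field_simp
    rw [e0, le_div_iff₀ (by positivity)]
    calc K ^ 10 * r ^ 7 * τ ^ 2 ≤ K ^ 10 * r ^ 7 * r := by
          exact mul_le_mul_of_nonneg_left hτ2r (by positivity)
      _ = _ := by ring
  have hZ2' : K ^ 10 * (τ ^ 2 * r ^ 7) ≤ Z ^ 2 := by
    have e0 : Z ^ 2 = K ^ 10 * r ^ 8 / τ ^ 2 := by rw [hZ]; field_simp
    rw [e0, le_div_iff₀ (by positivity)]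
    calc K ^ 10 * (τ ^ 2 * r ^ 7) * τ ^ 2 = K ^ 10 * r ^ 7 * τ ^ 4 := by ring
      _ ≤ K ^ 10 * r ^ 7 * r := mul_le_mul_of_nonneg_left hr (by positivity)
      _ = _ := by ring
  have s3 : 8 * T ≤ 8 * A * Z ^ 2 := by
    have e1 : K * r ^ 4 ≤ K ^ 10 * r ^ 7 :=
      mul_le_mul (le_self_pow₀ hK (by norm_num)) (pow_le_pow_right₀ hr1 (by norm_num))
        (by positivity) (by positivity)
    rw [hT]
    calc 8 * (A * K * r ^ 4) = 8 * A * (K * r ^ 4) := by ring
      _ ≤ 8 * A * Z ^ 2 := mul_le_mul_of_nonneg_left (e1.trans hZ2) (by positivity)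
  have hD0 : 0 ≤ D := by rw [hD]; positivity
  have s4 : N * (τ ^ 2 * (2 * (2 * r ^ 2 * D))) ≤ 8 * B * Z ^ 2 := by
    calc N * (τ ^ 2 * (2 * (2 * r ^ 2 * D))) ≤ 2 * r ^ 4 * (τ ^ 2 * (2 * (2 * r ^ 2 * D))) :=
          mul_le_mul_of_nonneg_right hN (by positivity)
      _ = 8 * B * (K * (τ ^ 2 * r ^ 7)) := by rw [hD]; ring
      _ ≤ 8 * B * (K ^ 10 * (τ ^ 2 * r ^ 7)) := by
          refine mul_le_mul_of_nonneg_left ?_ (by positivity)
          exact mul_le_mul_of_nonneg_right (le_self_pow₀ hK (by norm_num)) (by positivity)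
      _ ≤ 8 * B * Z ^ 2 := mul_le_mul_of_nonneg_left hZ2' (by positivity)
  have sT : √T ≤ A * (K * r ^ 2) := by
    rw [Real.sqrt_le_left (by positivity), hT]
    have e1 : (A * (K * r ^ 2)) ^ 2 = (A * A) * (K * K) * r ^ 4 := by ring
    rw [e1]
    have e2 : A * K ≤ (A * A) * (K * K) := by
      have : 1 ≤ A * K := one_le_mul_of_one_le_of_one_le hA hK
      calc A * K = (A * K) * 1 := by ring
        _ ≤ (A * K) * (A * K) := mul_le_mul_of_nonneg_left this (by positivity)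
        _ = _ := by ring
    exact mul_le_mul_of_nonneg_right e2 (by positivity)
  have s5 : 2 * D * √T * W ≤ 2 * B * A * C1 * Z ^ 2 := by
    calc 2 * D * √T * W ≤ 2 * D * (A * (K * r ^ 2)) * (C1 * K ^ 4 * r ^ 4) := by
          refine mul_le_mul (mul_le_mul_of_nonneg_left sT (by positivity)) hW hW0 (by positivity)
      _ = 2 * B * A * C1 * (K ^ 6 * r ^ 7) := by rw [hD]; ring
      _ ≤ 2 * B * A * C1 * (K ^ 10 * r ^ 7) := by
          refine mul_le_mul_of_nonneg_left ?_ (by positivity)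
          exact mul_le_mul_of_nonneg_right (pow_le_pow_right₀ hK (by norm_num)) (by positivity)
      _ ≤ _ := mul_le_mul_of_nonneg_left hZ2 (by positivity)
  set a := 3 * B + 2 * C5 * B + C3 * (4 * C1 + 2) * (2 * A) with ha
  set b := 8 * A + 8 * B + 2 * B * A * C1 with hb
  have h1 : s * ((3 * τ * D + E) * r ^ 2) ≤ s * ((3 * B + 2 * C5 * B) * Z) :=
    mul_le_mul_of_nonneg_left s1 hs
  have h2 : η * Gv * (√(2 * T) * s) ≤ s * (C3 * (4 * C1 + 2) * (2 * A) * Z) := by
    calc η * Gv * (√(2 * T) * s) = s * (η * Gv * √(2 * T)) := by ring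
      _ ≤ _ := mul_le_mul_of_nonneg_left s2 hs
  have h3 : Q ≤ s * (a * Z) + Q / 4 + b * Z ^ 2 := by
    have e1 : s * (a * Z) = s * ((3 * B + 2 * C5 * B) * Z) +
      s * (C3 * (4 * C1 + 2) * (2 * A) * Z) := by rw [ha]; ring
    have e2 : b * Z ^ 2 = 8 * A * Z ^ 2 + 8 * B * Z ^ 2 + 2 * B * A * C1 * Z ^ 2 := by
      rw [hb]; ring
    rw [e1, e2]
    linarith
  have h4 : s * (a * Z) ≤ Q / 4 + a ^ 2 * Z ^ 2 := by
    rw [hQ]
    have e1 := sq_nonneg (s / 2 - a * Z)
    have e2 : (s / 2 - a * Z) ^ 2 = s ^ 2 / 4 - s * (a * Z) + a ^ 2 * Z ^ 2 := by ring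
    linarith
  have e1 : 2 * (a ^ 2 + b) * Z ^ 2 = 2 * (a ^ 2 * Z ^ 2) + 2 * (b * Z ^ 2) := by ring
  rw [e1]
  linarith


theorem pot_small : ∃ C K0 : ℝ, 0 < C ∧ 1 ≤ K0 ∧ ∀ (K L t : ℝ) {ι : Type} [Fintype ι]
    (X : ι → ℝ × ℝ) (ψ : ι → ℝ) (T : ℝ × ℝ → ι), Reg K L X → K0 ≤ K → K ^ 16 ≤ t → t ^ 4 ≤ L →
    IsOpt L X (rho L t X) ψ T → ∫ y in box L, upot X ψ y = 0 →
    ∫ y in box L, upot X ψ y ^ 2 ≤ C * K ^ 10 * L ^ 4 / t := by
  obtain ⟨C1, K1, hC1, hK1, crude⟩ := crude_rho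
  obtain ⟨C2, hC2, dm⟩ := DM
  obtain ⟨C3, hC3, near⟩ := rho_near
  obtain ⟨K4, hK4, two⟩ := rho_two
  obtain ⟨c5, C5, hc5, hC5, mix⟩ := mixing
  set A := 1 + 10 / c5 with hA
  have hA1 : 1 ≤ A := by
    have : 0 < 10 / c5 := by positivity
    linarith
  set B := √(C2 * (1 + √C1)) with hB
  have hB0 : 0 ≤ B := Real.sqrt_nonneg _
  set CC := 2 * ((3 * B + 2 * C5 * B + C3 * (4 * C1 + 2) * (2 * A)) ^ 2 +
      (8 * A + 8 * B + 2 * B * A * C1)) with hCC
  have hCC0 : 0 ≤ CC := by positivity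
  refine ⟨2 * CC + 8, max K1 K4, by positivity, le_trans hK1 (le_max_left _ _), ?_⟩
  intro K L t ι _ X ψ Tm hX hK0 hKt htL hopt hu0
  have hK : 1 ≤ K := by linarith [le_max_left K1 K4]
  have ht1 : 1 ≤ t := le_trans (one_le_pow₀ hK) hKt
  have hL1 : 1 ≤ L := le_trans (one_le_pow₀ ht1) htL
  have hL0 : 0 < L := by linarith
  have ht0 : 0 < t := by linarith
  have hK8 : K ^ 8 ≤ t := le_trans (pow_le_pow_right₀ hK (by norm_num)) hKt
  have htL1 : t ≤ L := le_trans (le_self_pow₀ ht1 (by norm_num)) htL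
  have htL2 : t ≤ L ^ 2 := le_trans htL1 (le_self_pow₀ hL1 (by norm_num))
  have hrc : Continuous (rho L t X) := (rho_EP hL0 ht0 X).cont
  have hr1 : ∀ y, 1 / 2 ≤ rho L t X y ∧ rho L t X y ≤ 2 :=
    two K L X hX (le_trans (le_max_right _ _) hK0) t hK8 htL2
  have hr0 : ∀ y ∈ box L, 0 ≤ rho L t X y := fun y _ => by linarith [(hr1 y).1]
  set Wv := W L X (rho L t X) with hWv
  have hW0 : 0 ≤ Wv := W_nonneg X hr0
  have hW : Wv ≤ C1 * K ^ 4 * L ^ 2 :=
    crude K L X hX (le_trans (le_max_left _ _) hK0) t hK8 htL2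
  set r := √L with hr
  have hrL : r ^ 2 = L := Real.sq_sqrt hL0.le
  have hr1' : 1 ≤ r := by
    rw [hr, Real.one_le_sqrt]; exact hL1
  set τ := √t with hτ
  have hτt : τ ^ 2 = t := Real.sq_sqrt ht0.le
  have hτ1 : 1 ≤ τ := by
    rw [hτ, Real.one_le_sqrt]; exact ht1
  set D := B * K * r with hD
  have hD0 : 0 ≤ D := by positivity
  -- displacement bound
  have hdisp : ∀ y ∈ box L, |y.1 - (X (Tm y)).1| ≤ D ∧ |y.2 - (X (Tm y)).2| ≤ D := by
    intro y hy
    have h1 := dm K L X (rho L t X) ψ Tm hX hrc hr0 hopt y hy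
    have h2 : √Wv ≤ √C1 * K ^ 2 * L := by
      have e1 : √C1 * K ^ 2 * L = √(C1 * K ^ 4 * L ^ 2) := by
        rw [show C1 * K ^ 4 * L ^ 2 = C1 * (K ^ 2 * L) ^ 2 by ring, Real.sqrt_mul hC1.le,
          Real.sqrt_sq (by positivity)]
        ring
      rw [e1]
      exact Real.sqrt_le_sqrt hW
    have h3 : sqd (X (Tm y)) y ≤ D ^ 2 := by
      refine h1.trans ?_
      have e1 : D ^ 2 = C2 * (1 + √C1) * (K ^ 2 * L) := by
        rw [hD, mul_pow, mul_pow, hB, Real.sq_sqrt (by positivity), hrL]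
        ring
      rw [e1, mul_assoc]
      refine mul_le_mul_of_nonneg_left ?_ hC2.le
      have e2 : K ^ 2 ≤ K ^ 2 * L := le_mul_of_one_le_right (by positivity) hL1
      have e3 : (1 + √C1) * (K ^ 2 * L) = K ^ 2 * L + √C1 * K ^ 2 * L := by ring
      rw [e3]
      linarith
    simp only [sqd] at h3
    constructor
    · refine abs_le_of_sq_le_sq ?_ hD0
      have e1 := sq_nonneg ((X (Tm y)).2 - y.2)
      have e2 : (y.1 - (X (Tm y)).1) ^ 2 = ((X (Tm y)).1 - y.1) ^ 2 := by ring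
      rw [e2]
      linarith
    · refine abs_le_of_sq_le_sq ?_ hD0
      have e1 := sq_nonneg ((X (Tm y)).1 - y.1)
      have e2 : (y.2 - (X (Tm y)).2) ^ 2 = ((X (Tm y)).2 - y.2) ^ 2 := by ring
      rw [e2]
      linarith
  obtain ⟨v, hv, hvu, hv1, hvM⟩ := smooth_pot hL0 hopt one_pos
  have hvD := hvM D hdisp
  set c := (∫ y in box L, v y) / L ^ 2 with hc
  have hL2 : (0:ℝ) < L ^ 2 := by positivity
  have huc := upot_cont X ψ
  have hcb : |c| ≤ 1 := by
    rw [hc, abs_div, abs_of_pos hL2, div_le_one hL2]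
    have e1 : ∫ y in box L, v y = ∫ y in box L, (v y - upot X ψ y) := by
      rw [integral_sub (O2_int hv.cont) (O2_int huc), hu0, sub_zero]
    rw [e1]
    have e2 : ‖∫ y in box L, (v y - upot X ψ y)‖ ≤ 1 * volume.real (box L) := by
      refine norm_setIntegral_le_of_norm_le_const ?_ (fun y hy => hvu y hy)
      exact (isCompact_Icc.prod isCompact_Icc).measure_lt_top
    rwa [O2_vol hL0.le, one_mul, Real.norm_eq_abs] at e2
  set g : ℝ × ℝ → ℝ := fun y => v y - c with hg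
  have hgEP : EP L g := EP_sub hv (EP_const L c)
  have hgD1 : ∀ y, D1 g y = D1 v y := by
    intro y
    simp only [D1, hg]
    rw [fderiv_sub_const]
  have hgD2 : ∀ y, D2 g y = D2 v y := by
    intro y
    simp only [D2, hg]
    rw [fderiv_sub_const]
  have hg0 : ∫ y in box L, g y = 0 := by
    rw [hg, integral_sub (O2_int hv.cont) (O2_int continuous_const), O2_setint_const hL0.le, hc]
    field_simp
    ring
  have hgG : Grad g D := by
    intro y
    rw [hgD1, hgD2]
    exact hvD y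
  have hg1 : ∫ y in box L, ((D1 g y - (y.1 - (X (Tm y)).1)) ^ 2 +
      (D2 g y - (y.2 - (X (Tm y)).2)) ^ 2) ≤ 1 := by
    simp only [hgD1, hgD2]
    exact hv1
  have hgsq : ∀ y, gsq g y = gsq v y := by
    intro y
    simp only [gsq, hgD1, hgD2]
  set T := A * K * L ^ 2 with hT
  have htT : t ≤ T := by
    refine htL2.trans ?_
    have : 1 ≤ A * K := one_le_mul_of_one_le_of_one_le hA1 hK
    exact le_mul_of_one_le_left hL2.le this
  have hT0 : 0 < T := by linarith
  set E := C5 * Real.exp (-c5 * (T / L ^ 2)) * (2 * L * D) with hE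
  have hE0 : 0 ≤ E := by positivity
  have hosc := O2_osc hL0 hgEP hgG
  have hEb : ∀ x, |P T g x| ≤ E := by
    intro x
    have := mix L hL0 g hgEP.toCP (2 * L * D) hosc T hT0.le x
    rwa [hg0, zero_div, sub_zero] at this
  set η := C3 * K ^ 2 / τ with hη
  have hηb : ∀ y ∈ box L, |rho L t X y - 1| ≤ η := fun y _ => (near K L X hX t ht1 htL2 y).1
  have hcore := O2_core hL1 ht1 htT hopt (fun y _ => hr1 y) hηb (by positivity) hgEP hg0 hg1 hgG
    hE0 hEb
  set Q := ∫ y in box L, g y ^ 2 with hQ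
  have hQ0 : 0 ≤ Q := integral_nonneg (fun x => sq_nonneg _)
  have hcard : (Fintype.card ι : ℝ) ≤ 2 * L ^ 2 := by
    have h1 := Reg_card hX
    rw [abs_le] at h1
    have h2 : K ≤ L := by
      have : K ≤ K ^ 16 := le_self_pow₀ hK (by norm_num)
      linarith
    have h3 : K * L ≤ L * L := mul_le_mul_of_nonneg_right h2 hL0.le
    have h4 : L ^ 2 = L * L := pow_two L
    linarith [h1.2]
  have hGv : ∫ y in box L, gsq g y ≤ 4 * Wv + 2 := by
    have h1 := int_gsq_le hopt hrc (fun y _ => (hr1 y).1) hv hv1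
    simp only [hgsq]
    linarith
  have hGv0 : 0 ≤ ∫ y in box L, gsq g y := integral_nonneg (fun x => by
    simp only [gsq]; positivity)
  have hτ4 : τ ^ 4 ≤ r := by
    have h1 : (τ ^ 4) ^ 2 ≤ r ^ 2 := by
      rw [hrL]
      calc (τ ^ 4) ^ 2 = (τ ^ 2) ^ 4 := by ring
        _ = t ^ 4 := by rw [hτt]
        _ ≤ L := htL
    exact le_of_sq_le_sq h1 (by positivity)
  have hr4 : r ^ 4 = L ^ 2 := by
    calc r ^ 4 = (r ^ 2) ^ 2 := by ring
      _ = L ^ 2 := by rw [hrL]
  have hEr : E * r ^ 2 ≤ 2 * C5 * D := by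
    rw [hrL, hE]
    have h1 : T / L ^ 2 = A * K := by rw [hT]; field_simp
    rw [h1]
    have h2 : Real.exp (-c5 * (A * K)) ≤ Real.exp (-(2 * Real.log L)) := by
      refine Real.exp_le_exp.2 ?_
      have h3 := hX.log_le
      have h4 : 10 ≤ c5 * A := by
        rw [hA, mul_add, mul_div_assoc', mul_comm c5 10, mul_div_assoc, div_self hc5.ne']
        linarith
      have h5 : 10 * K ≤ c5 * A * K := mul_le_mul_of_nonneg_right h4 (by linarith)
      have h6 : 0 ≤ Real.log L := Real.log_nonneg hL1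
      have h7 : -c5 * (A * K) = -(c5 * A * K) := by ring
      rw [h7]
      linarith
    have h3 : Real.exp (-(2 * Real.log L)) = 1 / L ^ 2 := by
      rw [Real.exp_neg, mul_comm, Real.exp_mul, Real.exp_log hL0, one_div]
      norm_num
    rw [h3] at h2
    calc C5 * Real.exp (-c5 * (A * K)) * (2 * L * D) * L ≤ C5 * (1 / L ^ 2) * (2 * L * D) * L := by
          refine mul_le_mul_of_nonneg_right (mul_le_mul_of_nonneg_right
            (mul_le_mul_of_nonneg_left h2 hC5.le) (by positivity)) hL0.le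
      _ = 2 * C5 * D := by field_simp
  have hnum := O2_num (A := A) (B := B) (C1 := C1) (C3 := C3) (C5 := C5) (K := K) (r := r)
    (τ := τ) (Q := Q) (s := √Q) (N := Fintype.card ι) (W := Wv) (D := D) (E := E) (T := T)
    (η := η) (Gv := √(∫ y in box L, gsq g y)) hA1 hB0 hC1 hC3 hC5 hK hτ1 hτ4
    (Real.sqrt_nonneg _) (Real.sq_sqrt hQ0).symm (by rw [hr4]; exact hcard) hW0
    (by rw [hr4]; exact hW) rfl hEr (by rw [hr4]) rfl (Real.sqrt_nonneg _)
    (by rw [Real.sq_sqrt hGv0]; exact hGv) (by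
      rw [hrL, hτt]
      have e1 : √(2 * T * Q) = √(2 * T) * √Q := Real.sqrt_mul (by positivity) _
      rw [e1] at hcore
      exact hcore)
  rw [← hCC] at hnum
  have hZ2 : (K ^ 5 * r ^ 4 / τ) ^ 2 = K ^ 10 * L ^ 4 / t := by
    rw [div_pow, mul_pow, hτt, hr4]
    ring
  rw [hZ2] at hnum
  have hfin : ∫ y in box L, upot X ψ y ^ 2 ≤ 2 * Q + 8 * L ^ 2 := by
    have e1 : ∫ y in box L, upot X ψ y ^ 2 ≤ ∫ y in box L, (2 * g y ^ 2 + 8) := by
      refine setIntegral_mono_on (O2_int (huc.pow 2))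
        (O2_int ((continuous_const.mul (hgEP.cont.pow 2)).add continuous_const))
        (O2_meas_box L) (fun y hy => ?_)
      have h1 := hvu y hy
      rw [abs_le] at h1 hcb
      have h2 : g y = v y - c := rfl
      have h3 : |upot X ψ y - g y| ≤ 2 := by
        rw [abs_le, h2]
        constructor <;> linarith [h1.1, h1.2, hcb.1, hcb.2]
      have h4 : (upot X ψ y - g y) ^ 2 ≤ 4 := by
        rw [← sq_abs]
        refine (pow_le_pow_left₀ (abs_nonneg _) h3 2).trans (by norm_num)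
      have h5 := sq_nonneg (upot X ψ y - g y - g y)
      have h6 : upot X ψ y ^ 2 = 2 * g y ^ 2 + 2 * (upot X ψ y - g y) ^ 2 -
        (upot X ψ y - g y - g y) ^ 2 := by ring
      rw [h6]
      linarith
    refine e1.trans ?_
    have i1 : IntegrableOn (fun y => 2 * g y ^ 2) (box L) :=
      O2_int (continuous_const.mul (hgEP.cont.pow 2))
    rw [integral_add i1 (O2_int continuous_const), integral_const_mul, O2_setint_const hL0.le]
    linarith
  have hL4 : L ^ 2 ≤ K ^ 10 * L ^ 4 / t := by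
    rw [le_div_iff₀ ht0]
    calc L ^ 2 * t ≤ L ^ 2 * L ^ 2 := mul_le_mul_of_nonneg_left htL2 hL2.le
      _ = 1 * L ^ 4 := by ring
      _ ≤ K ^ 10 * L ^ 4 := mul_le_mul_of_nonneg_right (one_le_pow₀ hK) (by positivity)
  calc ∫ y in box L, upot X ψ y ^ 2 ≤ 2 * Q + 8 * L ^ 2 := hfin
    _ ≤ 2 * (CC * (K ^ 10 * L ^ 4 / t)) + 8 * (K ^ 10 * L ^ 4 / t) := by linarith
    _ = (2 * CC + 8) * K ^ 10 * L ^ 4 / t := by ring

end Pool.Agent.Lib.H77M
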