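import Pool.Agent.Lib.H77M.O4a
import Pool.Agent.Lib.H77M.B2

/-!
# Project H77M, chunk O4b: calibration inequality

`π` = optimal plan of `(X, r)` in the big box (mass `r y dy`, `x = X (T y)`). For `x, y` in the same
cell, with `p = f x`, `v = g y`, `α = χ x`, `β = χ y` (cell coordinates):
`(α + β) / 2 * sqd x y / 2 ≥ (α + β) / 2 * (p + v) = α p + β v - (α - β) (p - v) / 2`.
Sum over the cells and integrate in `π`; the pairs with `x` in the cell, `y` not (or conversely)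
which are missing in `∑ χ f + ∫ χ g r` have `|x - y| ≥ w / 2` whenever `χ x > 0`; Cauchy–Schwarz.
-/

open MeasureTheory Set ProbabilityTheory
open scoped ContDiff

namespace Pool.Agent.Lib.H77M

/-! ### cells -/

theorem O4b_idx {l t : ℝ} (hl : 0 < l) {a a' : ℕ} (h1 : (a : ℝ) * l ≤ t) (h2 : t < ((a : ℝ) + 1) * l)
    (h3 : (a' : ℝ) * l ≤ t) (h4 : t < ((a' : ℝ) + 1) * l) : a = a' := by
  have e1 : (a : ℝ) < (a' : ℝ) + 1 := by
    by_contra hc
    push Not at hc
    nlinarith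
  have e2 : (a' : ℝ) < (a : ℝ) + 1 := by
    by_contra hc
    push Not at hc
    nlinarith
  have e1' : a < a' + 1 := by exact_mod_cast e1
  have e2' : a' < a + 1 := by exact_mod_cast e2
  omega

theorem O4b_cell_unique {l : ℝ} (hl : 0 < l) {a b a' b' : ℕ} {y : ℝ × ℝ} (h : y ∈ cell l a b)
    (h' : y ∈ cell l a' b') : a = a' ∧ b = b' :=
  ⟨O4b_idx hl h.1.1 h.1.2 h'.1.1 h'.1.2, O4b_idx hl h.2.1 h.2.2 h'.2.1 h'.2.2⟩

theorem O4b_idx_exists {l t : ℝ} (hl : 0 < l) {k : ℕ} (h1 : 0 ≤ t) (h2 : t < k * l) :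
    ∃ a < k, (a : ℝ) * l ≤ t ∧ t < ((a : ℝ) + 1) * l := by
  refine ⟨⌊t / l⌋₊, ?_, ?_, ?_⟩
  · rw [Nat.floor_lt (by positivity), div_lt_iff₀ hl]
    exact h2
  · have := Nat.floor_le (show 0 ≤ t / l by positivity)
    rwa [le_div_iff₀ hl] at this
  · have := Nat.lt_floor_add_one (t / l)
    rwa [div_lt_iff₀ hl] at this

theorem O4b_cell_exists {l : ℝ} (hl : 0 < l) {k : ℕ} {y : ℝ × ℝ} (h : y ∈ hbox (k * l)) :
    ∃ a < k, ∃ b < k, y ∈ cell l a b := by
  obtain ⟨a, ha, h1, h2⟩ := O4b_idx_exists hl h.1.1 h.1.2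
  obtain ⟨b, hb, h3, h4⟩ := O4b_idx_exists hl h.2.1 h.2.2
  exact ⟨a, ha, b, hb, ⟨h1, h2⟩, ⟨h3, h4⟩⟩

theorem O4b_cell_sub {l : ℝ} (hl : 0 < l) {k a b : ℕ} (ha : a < k) (hb : b < k) :
    cell l a b ⊆ hbox (k * l) := by
  have ha' : (a : ℝ) + 1 ≤ k := by exact_mod_cast ha
  have hb' : (b : ℝ) + 1 ≤ k := by exact_mod_cast hb
  rintro y ⟨⟨h1, h2⟩, h3, h4⟩
  refine ⟨⟨le_trans (by positivity) h1, lt_of_lt_of_le h2 ?_⟩,
    ⟨le_trans (by positivity) h3, lt_of_lt_of_le h4 ?_⟩⟩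
  · exact mul_le_mul_of_nonneg_right ha' hl.le
  · exact mul_le_mul_of_nonneg_right hb' hl.le

theorem O4b_hbox_sub (L : ℝ) : hbox L ⊆ box L := fun _ h => ⟨⟨h.1.1, h.1.2.le⟩, ⟨h.2.1, h.2.2.le⟩⟩

theorem O4b_ae (L : ℝ) : (hbox L : Set (ℝ × ℝ)) =ᵐ[volume] box L := by
  rw [Measure.volume_eq_prod]
  exact Measure.set_prod_ae_eq Ico_ae_eq_Icc Ico_ae_eq_Icc

theorem O4b_meas_box (L : ℝ) : MeasurableSet (box L) := measurableSet_Icc.prod measurableSet_Icc

theorem O4b_meas_hbox (L : ℝ) : MeasurableSet (hbox L) := measurableSet_Ico.prod measurableSet_Ico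

theorem O4b_meas_cell (l : ℝ) (a b : ℕ) : MeasurableSet (cell l a b) :=
  measurableSet_Ico.prod measurableSet_Ico

theorem O4b_vol_box (L : ℝ) : volume (box L) < ⊤ :=
  (isCompact_Icc.prod isCompact_Icc).measure_lt_top

/-! ### gluing -/

open Classical in
/-- glue functions in the cells -/
noncomputable def O4b_glue (l : ℝ) (k : ℕ) (φ : ℕ → ℕ → ℝ × ℝ → ℝ) (y : ℝ × ℝ) : ℝ :=
  ∑ a ∈ Finset.range k, ∑ b ∈ Finset.range k,
    (cell l a b).indicator (fun y => φ a b (y.1 - a * l, y.2 - b * l)) y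

theorem O4b_sum_one {k a0 b0 : ℕ} (ha : a0 < k) (hb : b0 < k) (v : ℕ → ℕ → ℝ)
    (hv : ∀ a b, (a ≠ a0 ∨ b ≠ b0) → v a b = 0) :
    ∑ a ∈ Finset.range k, ∑ b ∈ Finset.range k, v a b = v a0 b0 := by
  rw [Finset.sum_eq_single a0]
  · rw [Finset.sum_eq_single b0]
    · intro b _ h
      exact hv _ _ (Or.inr h)
    · intro h
      exact absurd (Finset.mem_range.2 hb) h
  · intro a _ h
    exact Finset.sum_eq_zero fun b _ => hv _ _ (Or.inl h)
  · intro h
    exact absurd (Finset.mem_range.2 ha) h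

theorem O4b_glue_eq {l : ℝ} (hl : 0 < l) {k a b : ℕ} (ha : a < k) (hb : b < k)
    (φ : ℕ → ℕ → ℝ × ℝ → ℝ) {y : ℝ × ℝ} (h : y ∈ cell l a b) :
    O4b_glue l k φ y = φ a b (y.1 - a * l, y.2 - b * l) := by
  unfold O4b_glue
  rw [O4b_sum_one ha hb]
  · rw [indicator_of_mem h]
  · intro a' b' h'
    rw [indicator_of_notMem]
    intro hc
    obtain ⟨e1, e2⟩ := O4b_cell_unique hl hc h
    tauto

/-- bounded measurable functions -/
def O4b_BM (L : ℝ) (f : ℝ × ℝ → ℝ) : Prop := Measurable f ∧ ∃ C : ℝ, ∀ y ∈ box L, |f y| ≤ C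

theorem O4b_BM_int {L : ℝ} {f : ℝ × ℝ → ℝ} (h : O4b_BM L f) : IntegrableOn f (box L) := by
  obtain ⟨hm, C, hC⟩ := h
  refine Measure.integrableOn_of_bounded (M := C) (O4b_vol_box L).ne hm.aestronglyMeasurable ?_
  refine (ae_restrict_iff' (O4b_meas_box L)).2 (Filter.Eventually.of_forall fun y hy => ?_)
  rw [Real.norm_eq_abs]
  exact hC y hy

theorem O4b_BM_add {L : ℝ} {f g : ℝ × ℝ → ℝ} (h : O4b_BM L f) (h' : O4b_BM L g) :
    O4b_BM L (fun y => f y + g y) := by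
  obtain ⟨hm, C, hC⟩ := h
  obtain ⟨hm', C', hC'⟩ := h'
  exact ⟨hm.add hm', C + C', fun y hy => (abs_add_le _ _).trans (add_le_add (hC y hy) (hC' y hy))⟩

theorem O4b_BM_mul {L : ℝ} {f g : ℝ × ℝ → ℝ} (h : O4b_BM L f) (h' : O4b_BM L g) :
    O4b_BM L (fun y => f y * g y) := by
  obtain ⟨hm, C, hC⟩ := h
  obtain ⟨hm', C', hC'⟩ := h'
  refine ⟨hm.mul hm', C * C', fun y hy => ?_⟩
  rw [abs_mul]
  exact mul_le_mul (hC y hy) (hC' y hy) (abs_nonneg _) ((abs_nonneg _).trans (hC y hy))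

theorem O4b_BM_cont {L : ℝ} {f : ℝ × ℝ → ℝ} (h : Continuous f) : O4b_BM L f := by
  refine ⟨h.measurable, ?_⟩
  have hK : IsCompact (box L) := isCompact_Icc.prod isCompact_Icc
  obtain ⟨C, hC⟩ := hK.exists_bound_of_continuousOn h.continuousOn
  exact ⟨C, fun y hy => by simpa [Real.norm_eq_abs] using hC y hy⟩

theorem O4b_BM_abs {L : ℝ} {f : ℝ × ℝ → ℝ} (h : O4b_BM L f) : O4b_BM L (fun y => |f y|) := by
  obtain ⟨hm, C, hC⟩ := h
  exact ⟨hm.abs, C, fun y hy => by rw [abs_abs]; exact hC y hy⟩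

theorem O4b_BM_sqrt {L : ℝ} {f : ℝ × ℝ → ℝ} (h : O4b_BM L f) : O4b_BM L (fun y => √(f y)) := by
  obtain ⟨hm, C, hC⟩ := h
  refine ⟨hm.sqrt, √C, fun y hy => ?_⟩
  rw [abs_of_nonneg (Real.sqrt_nonneg _)]
  exact Real.sqrt_le_sqrt ((le_abs_self _).trans (hC y hy))

theorem O4b_BM_sum {L : ℝ} {κ : Type} (s : Finset κ) {f : κ → ℝ × ℝ → ℝ}
    (h : ∀ i ∈ s, O4b_BM L (f i)) : O4b_BM L (fun y => ∑ i ∈ s, f i y) := by
  classical
  induction s using Finset.induction_on with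
  | empty => simpa using O4b_BM_cont (L := L) (continuous_const (y := (0 : ℝ)))
  | insert a s ha ih =>
    have e : (fun y => ∑ i ∈ insert a s, f i y) = fun y => f a y + ∑ i ∈ s, f i y := by
      funext y
      rw [Finset.sum_insert ha]
    rw [e]
    exact O4b_BM_add (h a (Finset.mem_insert_self _ _))
      (ih fun i hi => h i (Finset.mem_insert_of_mem hi))

theorem O4b_BM_T {L : ℝ} {ι : Type} [Fintype ι] {X : ι → ℝ × ℝ} {r : ℝ × ℝ → ℝ} {ψ : ι → ℝ}
    {T : ℝ × ℝ → ι} (h : IsOpt L X r ψ T) {F : ι → ℝ × ℝ → ℝ} (hF : ∀ i, Continuous (F i)) :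
    O4b_BM L (fun y => F (T y) y) := by
  refine ⟨(opt_integrable h hF).1, ?_⟩
  obtain ⟨-, C, hC⟩ := O4b_BM_sum (L := L) Finset.univ (f := fun i y => |F i y|)
    (fun i _ => O4b_BM_cont (hF i).abs)
  refine ⟨C, fun y hy => ?_⟩
  have h1 := hC y hy
  refine le_trans ?_ ((le_abs_self _).trans h1)
  exact Finset.single_le_sum (f := fun i => |F i y|) (fun i _ => abs_nonneg _) (Finset.mem_univ (T y))

theorem O4b_BM_ind {L : ℝ} {f : ℝ × ℝ → ℝ} (h : O4b_BM L f) {S : Set (ℝ × ℝ)}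
    (hS : MeasurableSet S) : O4b_BM L (S.indicator f) := by
  obtain ⟨hm, C, hC⟩ := h
  refine ⟨hm.indicator hS, C, fun y hy => ?_⟩
  by_cases hy' : y ∈ S
  · rw [indicator_of_mem hy']
    exact hC y hy
  · rw [indicator_of_notMem hy', abs_zero]
    exact (abs_nonneg _).trans (hC y hy)

theorem O4b_shift_cont {φ : ℝ × ℝ → ℝ} (h : Continuous φ) (c d : ℝ) :
    Continuous (fun y : ℝ × ℝ => φ (y.1 - c, y.2 - d)) := by
  fun_prop

theorem O4b_BM_glue {L l : ℝ} {k : ℕ} {φ : ℕ → ℕ → ℝ × ℝ → ℝ}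
    (hφ : ∀ a < k, ∀ b < k, Continuous (φ a b)) : O4b_BM L (O4b_glue l k φ) := by
  unfold O4b_glue
  refine O4b_BM_sum _ fun a ha => O4b_BM_sum _ fun b hb => ?_
  exact O4b_BM_ind (O4b_BM_cont (O4b_shift_cont (hφ a (Finset.mem_range.1 ha) b
    (Finset.mem_range.1 hb)) _ _)) (O4b_meas_cell l a b)

theorem O4b_shift (l : ℝ) (a b : ℕ) (ψ : ℝ × ℝ → ℝ) :
    ∫ y in cell l a b, ψ y = ∫ z in box l, ψ (z.1 + a * l, z.2 + b * l) := by
  rw [← setIntegral_congr_set (O4b_ae l)]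
  have hp : MeasurePreserving (fun z : ℝ × ℝ => z + ((a : ℝ) * l, (b : ℝ) * l)) volume volume :=
    measurePreserving_add_right volume _
  have he : MeasurableEmbedding (fun z : ℝ × ℝ => z + ((a : ℝ) * l, (b : ℝ) * l)) :=
    measurableEmbedding_addRight _
  have h := hp.setIntegral_preimage_emb he ψ (cell l a b)
  have e : (fun z : ℝ × ℝ => z + ((a : ℝ) * l, (b : ℝ) * l)) ⁻¹' cell l a b = hbox l := by
    ext z
    simp only [cell, hbox, mem_preimage, mem_prod, mem_Ico, Prod.fst_add, Prod.snd_add]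
    constructor
    · rintro ⟨⟨h1, h2⟩, h3, h4⟩
      exact ⟨⟨by linarith, by linarith⟩, ⟨by linarith, by linarith⟩⟩
    · rintro ⟨⟨h1, h2⟩, h3, h4⟩
      exact ⟨⟨by linarith, by linarith⟩, ⟨by linarith, by linarith⟩⟩
  rw [e] at h
  rw [← h]
  rfl

theorem O4b_glue_int {l : ℝ} (hl : 0 < l) {k : ℕ} {φ : ℕ → ℕ → ℝ × ℝ → ℝ}
    (hφ : ∀ a < k, ∀ b < k, Continuous (φ a b)) {R : ℝ × ℝ → ℝ} (hR : Continuous R) :
    ∑ a ∈ Finset.range k, ∑ b ∈ Finset.range k,
      ∫ y in box l, φ a b y * R (y.1 + a * l, y.2 + b * l) =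
    ∫ y in box (k * l), O4b_glue l k φ y * R y := by
  have e1 : (fun y => O4b_glue l k φ y * R y) = fun y => ∑ a ∈ Finset.range k,
      ∑ b ∈ Finset.range k,
        (cell l a b).indicator (fun y => φ a b (y.1 - a * l, y.2 - b * l) * R y) y := by
    funext y
    unfold O4b_glue
    rw [Finset.sum_mul]
    refine Finset.sum_congr rfl fun a _ => ?_
    rw [Finset.sum_mul]
    refine Finset.sum_congr rfl fun b _ => ?_
    by_cases hy : y ∈ cell l a b
    · rw [indicator_of_mem hy, indicator_of_mem hy]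
    · rw [indicator_of_notMem hy, indicator_of_notMem hy, zero_mul]
  have hc : ∀ a ∈ Finset.range k, ∀ b ∈ Finset.range k,
      O4b_BM (k * l) ((cell l a b).indicator (fun y => φ a b (y.1 - a * l, y.2 - b * l) * R y)) := by
    intro a ha b hb
    refine O4b_BM_ind (O4b_BM_mul (O4b_BM_cont (O4b_shift_cont (hφ a (Finset.mem_range.1 ha) b
      (Finset.mem_range.1 hb)) _ _)) (O4b_BM_cont hR)) (O4b_meas_cell l a b)
  rw [e1, integral_finsetSum _ fun a ha => O4b_BM_int (O4b_BM_sum _ fun b hb => hc a ha b hb)]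
  refine Finset.sum_congr rfl fun a ha => ?_
  rw [integral_finsetSum _ fun b hb => O4b_BM_int (hc a ha b hb)]
  refine Finset.sum_congr rfl fun b hb => ?_
  rw [setIntegral_indicator (O4b_meas_cell l a b)]
  have e2 : box (k * l) ∩ cell l a b = cell l a b :=
    inter_eq_right.2 ((O4b_cell_sub hl (Finset.mem_range.1 ha) (Finset.mem_range.1 hb)).trans
      (O4b_hbox_sub _))
  rw [e2, O4b_shift]
  refine integral_congr_ae (Filter.Eventually.of_forall fun z => ?_)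
  show φ a b z * _ = φ a b (_, _) * _
  simp only [add_sub_cancel_right]

/-! ### functions of the points -/

open Classical in
/-- glue functions of the points -/
noncomputable def O4b_gi {l : ℝ} {ι : Type} {X : ι → ℝ × ℝ} (k : ℕ)
    (f : ∀ a b : ℕ, CI l X a b → ℝ) (i : ι) : ℝ :=
  ∑ a ∈ Finset.range k, ∑ b ∈ Finset.range k,
    if h : X i ∈ cell l a b then f a b ⟨i, h⟩ else 0

theorem O4b_gi_eq {l : ℝ} (hl : 0 < l) {ι : Type} {X : ι → ℝ × ℝ} {k a b : ℕ} (ha : a < k)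
    (hb : b < k) (f : ∀ a b : ℕ, CI l X a b → ℝ) {i : ι} (h : X i ∈ cell l a b) :
    O4b_gi k f i = f a b ⟨i, h⟩ := by
  unfold O4b_gi
  rw [O4b_sum_one ha hb]
  · rw [dif_pos h]
  · intro a' b' h'
    rw [dif_neg]
    intro hc
    obtain ⟨e1, e2⟩ := O4b_cell_unique hl hc h
    tauto

theorem O4b_gi_sum {l : ℝ} {ι : Type} [Fintype ι] {X : ι → ℝ × ℝ} (k : ℕ)
    (f : ∀ a b : ℕ, CI l X a b → ℝ) :
    ∑ a ∈ Finset.range k, ∑ b ∈ Finset.range k, ∑ i : CI l X a b, f a b i =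
      ∑ i, O4b_gi k f i := by
  classical
  unfold O4b_gi
  refine (Finset.sum_congr rfl fun a _ => ?_).trans Finset.sum_comm
  refine (Finset.sum_congr rfl fun b _ => ?_).trans Finset.sum_comm
  symm
  rw [← Finset.sum_filter_add_sum_filter_not Finset.univ (fun i => X i ∈ cell l a b)]
  have h0 : ∑ i ∈ Finset.univ.filter (fun i => ¬ X i ∈ cell l a b),
      (if h : X i ∈ cell l a b then f a b ⟨i, h⟩ else 0) = 0 := by
    refine Finset.sum_eq_zero fun i hi => ?_
    rw [dif_neg (Finset.mem_filter.1 hi).2]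
  rw [h0, add_zero]
  rw [Finset.sum_subtype (p := fun i => X i ∈ cell l a b) (Finset.univ.filter fun i => X i ∈ cell l a b)
    (by intro i; simp)]
  refine Fintype.sum_equiv (ι := {i // X i ∈ cell l a b}) (κ := CI l X a b) (Equiv.refl _) _ _
    fun i => ?_
  rw [dif_pos i.2]
  rfl

/-! ### pointwise inequality -/

theorem O4b_lip {l w M : ℝ} {χ : ℝ × ℝ → ℝ} (h : Cut l w M χ) (x y : ℝ × ℝ) :
    |χ x - χ y| ≤ M / w * √(sqd x y) := by
  have hd : Differentiable ℝ χ := h.ep.smooth.differentiable (by simp)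
  have hb : ∀ p ∈ (univ : Set (ℝ × ℝ)), ‖fderiv ℝ χ p‖ ≤ M / w := by
    intro p _
    refine le_trans ?_ (h.grad p)
    refine ContinuousLinearMap.opNorm_le_bound _ (by unfold gabs; positivity) fun v => ?_
    have e : fderiv ℝ χ p v = v.1 * D1 χ p + v.2 * D2 χ p := by
      have : v = v.1 • ((1 : ℝ), (0 : ℝ)) + v.2 • ((0 : ℝ), (1 : ℝ)) := by
        ext <;> simp
      conv_lhs => rw [this]
      rw [map_add, map_smul, map_smul]
      simp [D1, D2]
    have h1 : |v.1| ≤ ‖v‖ := by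
      have := norm_fst_le v
      rwa [Real.norm_eq_abs] at this
    have h2 : |v.2| ≤ ‖v‖ := by
      have := norm_snd_le v
      rwa [Real.norm_eq_abs] at this
    rw [e, Real.norm_eq_abs]
    unfold gabs
    calc |v.1 * D1 χ p + v.2 * D2 χ p| ≤ |v.1 * D1 χ p| + |v.2 * D2 χ p| := abs_add_le _ _
      _ = |v.1| * |D1 χ p| + |v.2| * |D2 χ p| := by rw [abs_mul, abs_mul]
      _ ≤ ‖v‖ * |D1 χ p| + ‖v‖ * |D2 χ p| := by gcongr
      _ = _ := by ring
  have h1 := Convex.norm_image_sub_le_of_norm_fderiv_le (𝕜 := ℝ) (f := χ) (C := M / w)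
    (s := univ) (fun p _ => hd p) hb convex_univ (mem_univ y) (mem_univ x)
  rw [Real.norm_eq_abs] at h1
  refine h1.trans ?_
  have hM : 0 ≤ M / w := le_trans (by unfold gabs; positivity) (h.grad 0)
  refine mul_le_mul_of_nonneg_left ?_ hM
  rw [Prod.norm_def]
  refine max_le ?_ ?_
  · refine Real.le_sqrt_of_sq_le ?_
    rw [Real.norm_eq_abs, sq_abs]
    simp only [Prod.fst_sub, sqd]
    nlinarith [sq_nonneg (x.2 - y.2)]
  · refine Real.le_sqrt_of_sq_le ?_
    rw [Real.norm_eq_abs, sq_abs]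
    simp only [Prod.snd_sub, sqd]
    nlinarith [sq_nonneg (x.1 - y.1)]

theorem O4b_far {l w M : ℝ} (hl : 0 < l) {χ : ℝ × ℝ → ℝ} (h : Cut l w M χ) (hw : 0 < w)
    {a b a' b' : ℕ} {x y : ℝ × ℝ} (hx : x ∈ cell l a b) (hy : y ∈ cell l a' b')
    (hne : ¬ (a = a' ∧ b = b')) (hχ : χ (x.1 - a * l, x.2 - b * l) ≠ 0) : w / 2 ≤ √(sqd x y) := by
  have hx' : ((x.1 - a * l, x.2 - b * l) : ℝ × ℝ) ∈ box l := by
    obtain ⟨⟨h1, h2⟩, h3, h4⟩ := hx
    exact ⟨⟨by simp only; linarith, by simp only; linarith⟩,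
      ⟨by simp only; linarith, by simp only; linarith⟩⟩
  have hz := h.zero _ hx'
  have hz' : ¬ (x.1 - a * l ≤ w / 2 ∨ x.2 - b * l ≤ w / 2 ∨ l - w / 2 ≤ x.1 - a * l ∨
      l - w / 2 ≤ x.2 - b * l) := fun hc => hχ (hz hc)
  push Not at hz'
  obtain ⟨z1, z2, z3, z4⟩ := hz'
  refine Real.le_sqrt_of_sq_le ?_
  obtain ⟨⟨y1, y2⟩, y3, y4⟩ := hy
  unfold sqd
  have key : ∀ (s t : ℝ) (c c' : ℕ), w / 2 < s - c * l → s - c * l < l - w / 2 →
      (c' : ℝ) * l ≤ t → t < ((c' : ℝ) + 1) * l → c ≠ c' → (w / 2) ^ 2 ≤ (s - t) ^ 2 := by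
    intro s t c c' h1 h2 h3 h4 hc
    rcases lt_or_gt_of_ne hc with hc | hc
    · have hc' : (c : ℝ) + 1 ≤ c' := by exact_mod_cast hc
      have : ((c : ℝ) + 1) * l ≤ c' * l := mul_le_mul_of_nonneg_right hc' hl.le
      nlinarith
    · have hc' : (c' : ℝ) + 1 ≤ c := by exact_mod_cast hc
      have : ((c' : ℝ) + 1) * l ≤ c * l := mul_le_mul_of_nonneg_right hc' hl.le
      nlinarith
  by_cases hc : a = a'
  · have hc' : b ≠ b' := fun e => hne ⟨hc, e⟩
    have := key x.2 y.2 b b' z2 z4 y3 y4 hc'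
    nlinarith [sq_nonneg (x.1 - y.1)]
  · have := key x.1 y.1 a a' z1 z3 y1 y2 hc
    nlinarith [sq_nonneg (x.2 - y.2)]

theorem O4b_pt {l w M : ℝ} (hl : 0 < l) {χ : ℝ × ℝ → ℝ} (h : Cut l w M χ) (hw : 0 < w)
    (hM : 1 ≤ M) {a b a' b' : ℕ} {x y : ℝ × ℝ} (hx : x ∈ cell l a b) (hy : y ∈ cell l a' b')
    {F G : ℝ} (hFG : a = a' → b = b' → F + G ≤ sqd x y / 2) :
    χ (x.1 - a * l, x.2 - b * l) * F + χ (y.1 - a' * l, y.2 - b' * l) * G ≤
      sqd x y / 2 + 2 * (M / w) * (√(sqd x y) * (|F| + |G|)) := by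
  have hS : 0 ≤ sqd x y := by unfold sqd; positivity
  have hMw : 0 ≤ M / w := by positivity
  set α := χ (x.1 - a * l, x.2 - b * l) with hα
  set β := χ (y.1 - a' * l, y.2 - b' * l) with hβ
  have α0 : 0 ≤ α := h.nonneg _
  have α1 : α ≤ 1 := h.le_one _
  have β0 : 0 ≤ β := h.nonneg _
  have β1 : β ≤ 1 := h.le_one _
  have hs0 := Real.sqrt_nonneg (sqd x y)
  by_cases hc : a = a' ∧ b = b'
  · obtain ⟨e1, e2⟩ := hc
    have hFG' := hFG e1 e2
    have hL : |α - β| ≤ M / w * √(sqd x y) := by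
      have := O4b_lip h (x.1 - a * l, x.2 - b * l) (y.1 - a' * l, y.2 - b' * l)
      have e : sqd (x.1 - a * l, x.2 - b * l) (y.1 - a' * l, y.2 - b' * l) = sqd x y := by
        subst e1 e2
        unfold sqd
        ring
      rwa [e] at this
    have e3 : α * F + β * G = (α + β) / 2 * (F + G) + (α - β) * (F - G) / 2 := by ring
    have h1 : (α + β) / 2 * (F + G) ≤ sqd x y / 2 := by
      calc (α + β) / 2 * (F + G) ≤ (α + β) / 2 * (sqd x y / 2) := by gcongr
        _ ≤ 1 * (sqd x y / 2) := by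
          gcongr
          linarith
        _ = _ := one_mul _
    have h2 : (α - β) * (F - G) / 2 ≤ M / w * √(sqd x y) * (|F| + |G|) := by
      have h3 : (α - β) * (F - G) ≤ |α - β| * |F - G| := by
        rw [← abs_mul]
        exact le_abs_self _
      have h4 : |F - G| ≤ |F| + |G| := abs_sub _ _
      have h5 : |α - β| * |F - G| ≤ M / w * √(sqd x y) * (|F| + |G|) :=
        mul_le_mul hL h4 (abs_nonneg _) (by positivity)
      have h6 : 0 ≤ M / w * √(sqd x y) * (|F| + |G|) := by positivity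
      linarith
    have h7 : 0 ≤ M / w * √(sqd x y) * (|F| + |G|) := by positivity
    rw [e3]
    linarith
  · have main : ∀ (γ V : ℝ), 0 ≤ γ → γ ≤ 1 → (γ ≠ 0 → w / 2 ≤ √(sqd x y)) →
        γ * V ≤ 2 * (M / w) * (√(sqd x y) * |V|) := by
      intro γ V g0 g1 hg
      by_cases hγ : γ = 0
      · rw [hγ, zero_mul]
        positivity
      · have h1 := hg hγ
        have h2 : 1 ≤ 2 * (M / w) * √(sqd x y) := by
          calc (1 : ℝ) ≤ M := hM
            _ = 2 * (M / w) * (w / 2) := by field_simp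
            _ ≤ _ := by gcongr
        calc γ * V ≤ γ * |V| := by gcongr; exact le_abs_self _
          _ ≤ 1 * |V| := by gcongr
          _ ≤ 2 * (M / w) * √(sqd x y) * |V| := by gcongr
          _ = _ := by ring
    have h1 := main α F α0 α1 (fun hne => O4b_far hl h hw hx hy hc hne)
    have hc' : ¬ (a' = a ∧ b' = b) := fun e => hc ⟨e.1.symm, e.2.symm⟩
    have h2 := main β G β0 β1 (fun hne => by
      have := O4b_far hl h hw hy hx hc' hne
      have e : sqd y x = sqd x y := by unfold sqd; ring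
      rwa [e] at this)
    have : 2 * (M / w) * (√(sqd x y) * (|F| + |G|)) =
      2 * (M / w) * (√(sqd x y) * |F|) + 2 * (M / w) * (√(sqd x y) * |G|) := by ring
    rw [this]
    linarith

/-- Cauchy–Schwarz with the weight `r` -/
theorem O4b_cs {L : ℝ} {s E r : ℝ × ℝ → ℝ} (hs : O4b_BM L s) (hE : O4b_BM L E) (hr : O4b_BM L r)
    (hpos : ∀ y ∈ box L, 0 ≤ r y) :
    ∫ y in box L, s y * E y * r y ≤
      √(∫ y in box L, s y ^ 2 * r y) * √(∫ y in box L, E y ^ 2 * r y) := by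
  have i1 : IntegrableOn (fun y => s y * E y * r y) (box L) :=
    O4b_BM_int (O4b_BM_mul (O4b_BM_mul hs hE) hr)
  have i2 : IntegrableOn (fun y => s y ^ 2 * r y) (box L) := by
    simpa only [pow_two] using O4b_BM_int (O4b_BM_mul (O4b_BM_mul hs hs) hr)
  have i3 : IntegrableOn (fun y => E y ^ 2 * r y) (box L) := by
    simpa only [pow_two] using O4b_BM_int (O4b_BM_mul (O4b_BM_mul hE hE) hr)
  set A := ∫ y in box L, s y ^ 2 * r y with hA
  set I := ∫ y in box L, s y * E y * r y with hI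
  set B := ∫ y in box L, E y ^ 2 * r y with hB
  have A0 : 0 ≤ A := setIntegral_nonneg (O4b_meas_box L) fun y hy => by
    have := hpos y hy
    positivity
  have B0 : 0 ≤ B := setIntegral_nonneg (O4b_meas_box L) fun y hy => by
    have := hpos y hy
    positivity
  have hq : ∀ x : ℝ, 0 ≤ A * (x * x) + (-2 * I) * x + B := by
    intro x
    have h0 : 0 ≤ ∫ y in box L, (x * s y - E y) ^ 2 * r y :=
      setIntegral_nonneg (O4b_meas_box L) fun y hy => by
        have := hpos y hy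
        positivity
    have e : (fun y => (x * s y - E y) ^ 2 * r y) = fun y =>
        (x * x) * (s y ^ 2 * r y) + (-2 * x) * (s y * E y * r y) + E y ^ 2 * r y := by
      funext y
      ring
    have k1 : IntegrableOn (fun y => x * x * (s y ^ 2 * r y) + -2 * x * (s y * E y * r y)) (box L) :=
      (i2.const_mul _).add (i1.const_mul _)
    rw [e, integral_add k1 i3,
      integral_add (i2.const_mul _) (i1.const_mul _), integral_const_mul, integral_const_mul] at h0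
    linarith
  have hd := discrim_le_zero hq
  unfold discrim at hd
  have h2 : I ^ 2 ≤ A * B := by nlinarith
  rw [← Real.sqrt_mul A0]
  exact Real.le_sqrt_of_sq_le h2

theorem calib : ∃ C : ℝ, 0 < C ∧ ∀ (l w M : ℝ) (k : ℕ) {ι : Type} [Fintype ι] (X : ι → ℝ × ℝ)
    (r : ℝ × ℝ → ℝ) (ψ : ι → ℝ) (T : ℝ × ℝ → ι) (χ : ℝ × ℝ → ℝ)
    (f : ∀ a b : ℕ, CI l X a b → ℝ) (g : ℕ → ℕ → ℝ × ℝ → ℝ), 0 < l → 0 < w → 1 ≤ M →
    (∀ i, X i ∈ hbox (k * l)) → Continuous r → (∀ y ∈ box (k * l), 0 ≤ r y ∧ r y ≤ 2) →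
    IsOpt (k * l) X r ψ T → Cut l w M χ → (∀ a < k, ∀ b < k, Continuous (g a b)) →
    (∀ a < k, ∀ b < k, ∀ i : CI l X a b, ∀ y ∈ box l,
      f a b i + g a b y ≤ sqd (CX l X a b i) y / 2) →
    ∑ a ∈ Finset.range k, ∑ b ∈ Finset.range k, (∑ i : CI l X a b, χ (CX l X a b i) * f a b i +
      ∫ y in box l, χ y * g a b y * r (y.1 + a * l, y.2 + b * l)) ≤
      W (k * l) X r / 2 + C * M / w * √(W (k * l) X r) *
        √(∑ a ∈ Finset.range k, ∑ b ∈ Finset.range k, (∑ i : CI l X a b, f a b i ^ 2 +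
          ∫ y in box l, g a b y ^ 2)) := by
  refine ⟨4, by norm_num, ?_⟩
  intro l w M k ι _ X r ψ T χ f g hl hw hM hX hr hr2 hopt hcut hg hfg
  have hpos : ∀ y ∈ box (k * l), 0 ≤ r y := fun y hy => (hr2 y hy).1
  have hMw : 0 ≤ M / w := by positivity
  set L : ℝ := k * l with hL
  -- the glued functions
  set F : ι → ℝ := O4b_gi k f with hF
  set G : ℝ × ℝ → ℝ := O4b_glue l k g with hG
  set β : ℝ × ℝ → ℝ := O4b_glue l k (fun _ _ => χ) with hβ
  set S : ℝ × ℝ → ℝ := fun y => sqd (X (T y)) y with hS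
  have hχc : Continuous χ := hcut.ep.cont
  have bG : O4b_BM L G := O4b_BM_glue hg
  have bβ : O4b_BM L β := O4b_BM_glue (fun a _ b _ => hχc)
  have bS : O4b_BM L S := O4b_BM_T hopt (F := fun i y => sqd (X i) y) (fun i => by
    unfold sqd
    fun_prop)
  have br : O4b_BM L r := O4b_BM_cont hr
  have bF : O4b_BM L (fun y => F (T y)) := O4b_BM_T hopt (F := fun i _ => F i)
    (fun i => continuous_const)
  have bα : O4b_BM L (fun y => β (X (T y)) * F (T y)) :=
    O4b_BM_T hopt (F := fun i _ => β (X i) * F i) (fun i => continuous_const)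
  set E : ℝ × ℝ → ℝ := fun y => |F (T y)| + |G y| with hE
  have bE : O4b_BM L E := O4b_BM_add (O4b_BM_abs bF) (O4b_BM_abs bG)
  -- left side
  have e1 : ∑ a ∈ Finset.range k, ∑ b ∈ Finset.range k,
      (∑ i : CI l X a b, χ (CX l X a b i) * f a b i +
      ∫ y in box l, χ y * g a b y * r (y.1 + a * l, y.2 + b * l)) =
      ∫ y in box L, (β (X (T y)) * F (T y) + β y * G y) * r y := by
    simp only [Finset.sum_add_distrib]
    rw [O4b_gi_sum k (fun a b i => χ (CX l X a b i) * f a b i),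
      O4b_glue_int hl (φ := fun a b y => χ y * g a b y) (fun a ha b hb => hχc.mul (hg a ha b hb)) hr]
    have e2 : ∀ i, O4b_gi k (fun a b i => χ (CX l X a b i) * f a b i) i = β (X i) * F i := by
      intro i
      obtain ⟨a, ha, b, hb, hi⟩ := O4b_cell_exists hl (hX i)
      rw [O4b_gi_eq hl ha hb _ hi, hF, O4b_gi_eq hl ha hb _ hi, hβ, O4b_glue_eq hl ha hb _ hi]
      rfl
    rw [Finset.sum_congr rfl fun i _ => e2 i, ← opt_int hopt hr (fun i => β (X i) * F i)]
    have e3 : ∫ y in box L, O4b_glue l k (fun a b y => χ y * g a b y) y * r y =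
        ∫ y in box L, β y * G y * r y := by
      rw [← setIntegral_congr_set (O4b_ae L), ← setIntegral_congr_set (O4b_ae L)]
      refine setIntegral_congr_fun (O4b_meas_hbox L) fun y hy => ?_
      obtain ⟨a, ha, b, hb, hi⟩ := O4b_cell_exists hl hy
      simp only [hβ, hG]
      rw [O4b_glue_eq hl ha hb _ hi, O4b_glue_eq hl ha hb _ hi, O4b_glue_eq hl ha hb _ hi]
    rw [e3, ← integral_add (O4b_BM_int (O4b_BM_mul bα br))
      (O4b_BM_int (O4b_BM_mul (O4b_BM_mul bβ bG) br))]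
    refine integral_congr_ae (Filter.Eventually.of_forall fun y => ?_)
    show _ * r y + _ * r y = _ * r y
    ring
  -- pointwise bound
  have e4 : ∀ y ∈ hbox L, (β (X (T y)) * F (T y) + β y * G y) * r y ≤
      (S y / 2 + 2 * (M / w) * (√(S y) * E y)) * r y := by
    intro y hy
    refine mul_le_mul_of_nonneg_right ?_ (hpos y (O4b_hbox_sub _ hy))
    obtain ⟨a, ha, b, hb, hi⟩ := O4b_cell_exists hl (hX (T y))
    obtain ⟨a', ha', b', hb', hy'⟩ := O4b_cell_exists hl hy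
    simp only [hβ, hG, hF, hE, hS]
    rw [O4b_glue_eq hl ha hb _ hi, O4b_glue_eq hl ha' hb' _ hy', O4b_glue_eq hl ha' hb' _ hy',
      O4b_gi_eq hl ha hb _ hi]
    refine O4b_pt hl hcut hw hM hi hy' ?_
    intro e5 e6
    subst e5 e6
    have hyb : ((y.1 - a * l, y.2 - b * l) : ℝ × ℝ) ∈ box l := by
      obtain ⟨⟨h1, h2⟩, h3, h4⟩ := hy'
      exact ⟨⟨by simp only; linarith, by simp only; linarith⟩,
        ⟨by simp only; linarith, by simp only; linarith⟩⟩
    have := hfg a ha b hb ⟨T y, hi⟩ _ hyb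
    refine this.trans (le_of_eq ?_)
    unfold sqd CX
    simp only
    ring
  have bsS : O4b_BM L (fun y => √(S y)) := O4b_BM_sqrt bS
  have e7 : ∫ y in box L, (β (X (T y)) * F (T y) + β y * G y) * r y ≤
      ∫ y in box L, (S y / 2 + 2 * (M / w) * (√(S y) * E y)) * r y := by
    have j1 : IntegrableOn (fun y => (β (X (T y)) * F (T y) + β y * G y) * r y) (box L) :=
      O4b_BM_int (O4b_BM_mul (O4b_BM_add bα (O4b_BM_mul bβ bG)) br)
    have j2 : IntegrableOn (fun y => (S y / 2 + 2 * (M / w) * (√(S y) * E y)) * r y) (box L) := by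
      have := O4b_BM_int (O4b_BM_mul (O4b_BM_add
        (O4b_BM_mul bS (O4b_BM_cont (L := L) (continuous_const (y := (1 / 2 : ℝ)))))
        (O4b_BM_mul (O4b_BM_cont (L := L) (continuous_const (y := 2 * (M / w))))
          (O4b_BM_mul bsS bE))) br)
      refine this.congr_fun (fun y _ => ?_) (O4b_meas_box L)
      show (S y * (1 / 2) + _) * r y = (S y / 2 + _) * r y
      ring
    rw [← setIntegral_congr_set (O4b_ae L), ← setIntegral_congr_set (O4b_ae L)]
    exact setIntegral_mono_on (j1.mono_set (O4b_hbox_sub _)) (j2.mono_set (O4b_hbox_sub _))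
      (O4b_meas_hbox L) e4
  have hW : W L X r = ∫ y in box L, S y * r y := opt_cost hopt hr hpos
  have iS : IntegrableOn (fun y => S y * r y) (box L) := O4b_BM_int (O4b_BM_mul bS br)
  have iE : IntegrableOn (fun y => √(S y) * E y * r y) (box L) :=
    O4b_BM_int (O4b_BM_mul (O4b_BM_mul bsS bE) br)
  have e8 : ∫ y in box L, (S y / 2 + 2 * (M / w) * (√(S y) * E y)) * r y =
      W L X r / 2 + 2 * (M / w) * ∫ y in box L, √(S y) * E y * r y := by
    have : (fun y => (S y / 2 + 2 * (M / w) * (√(S y) * E y)) * r y) = fun y =>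
        1 / 2 * (S y * r y) + 2 * (M / w) * (√(S y) * E y * r y) := by
      funext y
      ring
    rw [this, integral_add (iS.const_mul _) (iE.const_mul _), integral_const_mul,
      integral_const_mul, hW]
    ring
  have e9 := O4b_cs bsS bE br hpos
  have e10 : ∫ y in box L, √(S y) ^ 2 * r y = W L X r := by
    rw [hW]
    refine integral_congr_ae (Filter.Eventually.of_forall fun y => ?_)
    show √(S y) ^ 2 * r y = S y * r y
    rw [Real.sq_sqrt (by simp only [hS]; unfold sqd; positivity)]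
  rw [e10] at e9
  -- the size of `E`
  have e11 : ∑ a ∈ Finset.range k, ∑ b ∈ Finset.range k, (∑ i : CI l X a b, f a b i ^ 2 +
      ∫ y in box l, g a b y ^ 2) = ∑ i, F i ^ 2 + ∫ y in box L, G y ^ 2 := by
    simp only [Finset.sum_add_distrib]
    rw [O4b_gi_sum k (fun a b i => f a b i ^ 2)]
    congr 1
    · refine Finset.sum_congr rfl fun i _ => ?_
      obtain ⟨a, ha, b, hb, hi⟩ := O4b_cell_exists hl (hX i)
      rw [O4b_gi_eq hl ha hb _ hi, hF, O4b_gi_eq hl ha hb _ hi]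
    · have h1 := O4b_glue_int hl (k := k) (φ := fun a b y => g a b y ^ 2)
        (fun a ha b hb => (hg a ha b hb).pow 2) (R := fun _ => 1) continuous_const
      simp only [mul_one] at h1
      rw [h1, ← setIntegral_congr_set (O4b_ae L), ← setIntegral_congr_set (O4b_ae L)]
      refine setIntegral_congr_fun (O4b_meas_hbox L) fun y hy => ?_
      obtain ⟨a, ha, b, hb, hi⟩ := O4b_cell_exists hl hy
      simp only [hG]
      rw [O4b_glue_eq hl ha hb _ hi, O4b_glue_eq hl ha hb _ hi]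
  have iF2 : IntegrableOn (fun y => F (T y) ^ 2 * r y) (box L) := by
    simpa only [pow_two] using O4b_BM_int (O4b_BM_mul (O4b_BM_mul bF bF) br)
  have iG2 : IntegrableOn (fun y => G y ^ 2) (box L) := by
    simpa only [pow_two] using O4b_BM_int (O4b_BM_mul bG bG)
  have iE2 : IntegrableOn (fun y => E y ^ 2 * r y) (box L) := by
    simpa only [pow_two] using O4b_BM_int (O4b_BM_mul (O4b_BM_mul bE bE) br)
  have e12 : ∫ y in box L, E y ^ 2 * r y ≤ 4 * (∑ i, F i ^ 2 + ∫ y in box L, G y ^ 2) := by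
    have h1 : ∫ y in box L, E y ^ 2 * r y ≤
        ∫ y in box L, (2 * (F (T y) ^ 2 * r y) + 4 * G y ^ 2) := by
      refine setIntegral_mono_on iE2 ((iF2.const_mul _).add (iG2.const_mul _)) (O4b_meas_box L) ?_
      intro y hy
      obtain ⟨r0, r2⟩ := hr2 y hy
      have h2 : E y ^ 2 ≤ 2 * F (T y) ^ 2 + 2 * G y ^ 2 := by
        simp only [hE]
        nlinarith [sq_nonneg (|F (T y)| - |G y|), sq_abs (F (T y)), sq_abs (G y)]
      calc E y ^ 2 * r y ≤ (2 * F (T y) ^ 2 + 2 * G y ^ 2) * r y :=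
            mul_le_mul_of_nonneg_right h2 r0
        _ = 2 * (F (T y) ^ 2 * r y) + 2 * G y ^ 2 * r y := by ring
        _ ≤ 2 * (F (T y) ^ 2 * r y) + 2 * G y ^ 2 * 2 := by gcongr
        _ = _ := by ring
    rw [integral_add (iF2.const_mul _) (iG2.const_mul _), integral_const_mul, integral_const_mul,
      opt_int hopt hr (fun i => F i ^ 2)] at h1
    have h3 : 0 ≤ ∑ i, F i ^ 2 := Finset.sum_nonneg fun i _ => sq_nonneg _
    linarith
  have e13 : √(∫ y in box L, E y ^ 2 * r y) ≤ 2 * √(∑ i, F i ^ 2 + ∫ y in box L, G y ^ 2) := by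
    calc √(∫ y in box L, E y ^ 2 * r y) ≤ √(4 * (∑ i, F i ^ 2 + ∫ y in box L, G y ^ 2)) :=
          Real.sqrt_le_sqrt e12
      _ = _ := by
        rw [Real.sqrt_mul (by norm_num), show (4 : ℝ) = 2 ^ 2 by norm_num,
          Real.sqrt_sq (by norm_num)]
  rw [e1, e11]
  calc ∫ y in box L, (β (X (T y)) * F (T y) + β y * G y) * r y
      ≤ W L X r / 2 + 2 * (M / w) * ∫ y in box L, √(S y) * E y * r y := e8 ▸ e7
    _ ≤ W L X r / 2 + 2 * (M / w) * (√(W L X r) * √(∫ y in box L, E y ^ 2 * r y)) := by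
        gcongr
    _ ≤ W L X r / 2 + 2 * (M / w) * (√(W L X r) *
          (2 * √(∑ i, F i ^ 2 + ∫ y in box L, G y ^ 2))) := by
        gcongr
    _ = _ := by ring

end Pool.Agent.Lib.H77M
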